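import Mathlib

/-!
TANK UP, row R4: skew Laurent rings `S = R[z, 1/z; sig]`, with coefficients on the right:
`s = sum z^j * iota (r_j)`. Coefficient formulas, the opposite structure, Hilbert's basis theorem.
-/

set_option autoImplicit false

open scoped BigOperators
open MulOpposite

namespace Pool.Agent.UP

/-- a skew Laurent ring `S` over `R` -/
structure SkL (R S : Type*) [Ring R] [Ring S] where
  iota : R →+* S
  z : Sˣ
  sig : RingAut R
  comm : ∀ r, (z : S) * iota r = iota (sig r) * z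
  co : S ≃+ (ℤ →₀ R)
  co_symm : ∀ (j : ℤ) (r : R), co.symm (Finsupp.single j r) = ((z ^ j : Sˣ) : S) * iota r

namespace SkL

variable {R S : Type*} [Ring R] [Ring S] (E : SkL R S)

theorem zpow_iota (j : ℤ) (r : R) :
    ((E.z ^ j : Sˣ) : S) * E.iota r = E.iota ((E.sig ^ j) r) * ((E.z ^ j : Sˣ) : S) := by
  have h1 : ∀ r, ((E.z⁻¹ : Sˣ) : S) * E.iota r = E.iota ((E.sig⁻¹) r) * ((E.z⁻¹ : Sˣ) : S) := by
    intro r
    have h := E.comm (E.sig⁻¹ r)
    have h2 : E.sig (E.sig⁻¹ r) = r := E.sig.apply_symm_apply r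
    rw [h2] at h
    calc ((E.z⁻¹ : Sˣ) : S) * E.iota r = ((E.z⁻¹ : Sˣ) : S) * (E.iota r * (E.z : S)) * ((E.z⁻¹ : Sˣ) : S) := by
          rw [mul_assoc, mul_assoc, Units.mul_inv, mul_one]
      _ = ((E.z⁻¹ : Sˣ) : S) * ((E.z : S) * E.iota (E.sig⁻¹ r)) * ((E.z⁻¹ : Sˣ) : S) := by rw [h]
      _ = E.iota ((E.sig⁻¹) r) * ((E.z⁻¹ : Sˣ) : S) := by
          rw [← mul_assoc ((E.z⁻¹ : Sˣ) : S) (E.z : S), Units.inv_mul, one_mul]
  induction j using Int.induction_on generalizing r with
  | zero => simp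
  | succ i ih =>
    rw [zpow_add_one, zpow_add_one, Units.val_mul, mul_assoc, E.comm, ← mul_assoc, ih,
      mul_assoc]
    rfl
  | pred i ih =>
    rw [zpow_sub_one, zpow_sub_one, Units.val_mul, mul_assoc, h1, ← mul_assoc, ih, mul_assoc]
    rfl

theorem iota_zpow (j : ℤ) (r : R) :
    E.iota r * ((E.z ^ j : Sˣ) : S) = ((E.z ^ j : Sˣ) : S) * E.iota ((E.sig ^ (-j)) r) := by
  rw [zpow_iota, ← RingAut.mul_apply, ← zpow_add, add_neg_cancel, zpow_zero, RingAut.one_apply]

theorem co_single (j : ℤ) (r : R) :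
    E.co (((E.z ^ j : Sˣ) : S) * E.iota r) = Finsupp.single j r := by
  rw [← E.co_symm, AddEquiv.apply_symm_apply]

theorem co_iota_mul (t : R) (s : S) (j : ℤ) :
    E.co (E.iota t * s) j = (E.sig ^ (-j)) t * E.co s j := by
  obtain ⟨f, rfl⟩ := E.co.symm.surjective s
  rw [AddEquiv.apply_symm_apply]
  induction f using Finsupp.induction_linear with
  | zero => simp
  | add f g hf hg => rw [map_add, mul_add, map_add, Finsupp.add_apply, hf, hg, Finsupp.add_apply, mul_add]
  | single k r =>
    rw [E.co_symm, ← mul_assoc, iota_zpow, mul_assoc, ← map_mul, co_single]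
    by_cases h : k = j
    · subst h; simp
    · rw [Finsupp.single_eq_of_ne (Ne.symm h), Finsupp.single_eq_of_ne (Ne.symm h), mul_zero]

theorem co_mul_iota (t : R) (s : S) (j : ℤ) : E.co (s * E.iota t) j = E.co s j * t := by
  obtain ⟨f, rfl⟩ := E.co.symm.surjective s
  rw [AddEquiv.apply_symm_apply]
  induction f using Finsupp.induction_linear with
  | zero => simp
  | add f g hf hg => rw [map_add, add_mul, map_add, Finsupp.add_apply, hf, hg, Finsupp.add_apply, add_mul]
  | single k r =>
    rw [E.co_symm, mul_assoc, ← map_mul, co_single]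
    by_cases h : k = j
    · subst h; simp
    · rw [Finsupp.single_eq_of_ne (Ne.symm h), Finsupp.single_eq_of_ne (Ne.symm h), zero_mul]

theorem co_zpow_mul (k : ℤ) (s : S) (j : ℤ) :
    E.co (((E.z ^ k : Sˣ) : S) * s) j = E.co s (j - k) := by
  obtain ⟨f, rfl⟩ := E.co.symm.surjective s
  rw [AddEquiv.apply_symm_apply]
  induction f using Finsupp.induction_linear with
  | zero => simp
  | add f g hf hg => rw [map_add, mul_add, map_add, Finsupp.add_apply, hf, hg, Finsupp.add_apply]
  | single i r =>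
    rw [E.co_symm, ← mul_assoc, ← Units.val_mul, ← zpow_add, co_single]
    by_cases h : k + i = j
    · obtain rfl : i = j - k := by omega
      rw [h, Finsupp.single_eq_same, Finsupp.single_eq_same]
    · have h' : i ≠ j - k := by omega
      rw [Finsupp.single_eq_of_ne (Ne.symm h), Finsupp.single_eq_of_ne (Ne.symm h')]

theorem ext_co {s t : S} (h : ∀ j, E.co s j = E.co t j) : s = t :=
  E.co.injective (Finsupp.ext h)

/-! ### Hilbert's basis theorem -/

/-- the support of `s` is in `[0, n)` -/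
def Low (s : S) (n : ℕ) : Prop := ∀ j : ℤ, E.co s j ≠ 0 → 0 ≤ j ∧ j < n

theorem Low.add {s t : S} {n : ℕ} (hs : E.Low s n) (ht : E.Low t n) : E.Low (s + t) n := by
  intro j hj
  by_contra hcon
  have h1 : E.co s j = 0 := by
    by_contra h; exact hcon (hs j h)
  have h2 : E.co t j = 0 := by
    by_contra h; exact hcon (ht j h)
  rw [map_add, Finsupp.add_apply, h1, h2, add_zero] at hj
  exact hj rfl

theorem Low.iota_mul {s : S} {n : ℕ} (hs : E.Low s n) (t : R) : E.Low (E.iota t * s) n := by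
  intro j hj
  rw [co_iota_mul] at hj
  refine hs j fun h => hj ?_
  rw [h, mul_zero]

theorem Low.neg {s : S} {n : ℕ} (hs : E.Low s n) : E.Low (-s) n := by
  intro j hj
  rw [map_neg, Finsupp.neg_apply, neg_ne_zero] at hj
  exact hs j hj

/-- the ideal of the leading coefficients (at `n`) of the elements of `I` with support in `[0, n]` -/
def lead (I : Ideal S) (n : ℕ) : Ideal R where
  carrier := {r | ∃ f ∈ I, E.Low f (n + 1) ∧ E.co f n = r}
  zero_mem' := ⟨0, I.zero_mem, fun j hj => absurd (by simp) hj, by simp⟩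
  add_mem' := by
    rintro r r' ⟨f, hf, h1, rfl⟩ ⟨g, hg, h2, rfl⟩
    exact ⟨f + g, I.add_mem hf hg, h1.add E h2, by rw [map_add, Finsupp.add_apply]⟩
  smul_mem' := by
    rintro t r ⟨f, hf, h1, rfl⟩
    refine ⟨E.iota ((E.sig ^ (n : ℤ)) t) * f, I.mul_mem_left _ hf, h1.iota_mul E _, ?_⟩
    rw [co_iota_mul, ← RingAut.mul_apply, ← zpow_add, neg_add_cancel, zpow_zero,
      RingAut.one_apply, smul_eq_mul]

theorem mem_lead {I : Ideal S} {n : ℕ} {r : R} :
    r ∈ E.lead I n ↔ ∃ f ∈ I, E.Low f (n + 1) ∧ E.co f n = r := Iff.rfl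

theorem lead_shift {I : Ideal S} {n m : ℕ} (hnm : n ≤ m) {f : S} (hf : f ∈ I)
    (hl : E.Low f (n + 1)) : E.co f n ∈ E.lead I m := by
  refine ⟨((E.z ^ ((m - n : ℕ) : ℤ) : Sˣ) : S) * f, I.mul_mem_left _ hf, ?_, ?_⟩
  · intro j hj
    rw [co_zpow_mul] at hj
    have := hl _ hj
    push_cast at this ⊢
    omega
  · rw [co_zpow_mul]
    congr 1
    omega

theorem lead_mono (I : Ideal S) : Monotone (E.lead I) := by
  intro n m hnm r hr
  obtain ⟨f, hf, hl, rfl⟩ := hr
  exact E.lead_shift hnm hf hl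

/-- comparison of left ideals by leading coefficients -/
theorem le_of_lead {I J : Ideal S} (hJI : J ≤ I) (h : ∀ n, E.lead I n ≤ E.lead J n) : I ≤ J := by
  have key : ∀ n : ℕ, ∀ f ∈ I, E.Low f n → f ∈ J := by
    intro n
    induction n with
    | zero =>
      intro f _ hl
      have : f = 0 := by
        refine E.ext_co fun j => ?_
        rw [map_zero, Finsupp.zero_apply]
        by_contra hj
        have := hl j hj
        push_cast at this
        omega
      rw [this]
      exact J.zero_mem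
    | succ n ih =>
      intro f hf hl
      obtain ⟨g, hg, hgl, hgc⟩ := h n ⟨f, hf, hl, rfl⟩
      have h1 : f - g ∈ J := by
        refine ih (f - g) (I.sub_mem hf (hJI hg)) ?_
        intro j hj
        have hl' : E.Low (f - g) (n + 1) := by
          rw [sub_eq_add_neg]
          exact hl.add E (hgl.neg E)
        have h2 := hl' j hj
        refine ⟨h2.1, ?_⟩
        by_contra hcon
        have h3 : j = (n : ℤ) := by
          push_cast at h2
          omega
        rw [h3, map_sub, Finsupp.sub_apply, hgc, sub_self] at hj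
        exact hj rfl
      have := J.add_mem h1 hg
      rwa [sub_add_cancel] at this
  intro f hf
  -- shift into nonnegative degrees
  obtain ⟨k, hk⟩ : ∃ k : ℕ, ∀ j, E.co f j ≠ 0 → j.natAbs ≤ k :=
    ⟨(E.co f).support.sup Int.natAbs, fun j hj =>
      Finset.le_sup (f := Int.natAbs) (Finsupp.mem_support_iff.mpr hj)⟩
  have h1 : ((E.z ^ (k : ℤ) : Sˣ) : S) * f ∈ J := by
    refine key (2 * k + 1) _ (I.mul_mem_left _ hf) ?_
    intro j hj
    rw [co_zpow_mul] at hj
    have := hk _ hj
    push_cast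
    omega
  have h2 := J.mul_mem_left ((E.z ^ (-(k : ℤ)) : Sˣ) : S) h1
  rwa [← mul_assoc, ← Units.val_mul, ← zpow_add, neg_add_cancel, zpow_zero, Units.val_one,
    one_mul] at h2

include E in
/-- Hilbert's basis theorem for skew Laurent rings (left ideals) -/
theorem noeth [IsNoetherianRing R] : IsNoetherianRing S := by
  rw [isNoetherianRing_iff_ideal_fg]
  intro I
  obtain ⟨N, hN⟩ := (monotone_stabilizes_iff_noetherian (R := R) (M := R)).mpr inferInstance
    ⟨E.lead I, E.lead_mono I⟩
  have hfg : ∀ n, ∃ G : Finset R, Ideal.span (G : Set R) = E.lead I n := fun n =>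
    (isNoetherianRing_iff_ideal_fg R).mp inferInstance (E.lead I n)
  choose G hG using hfg
  have hlift : ∀ n, ∀ r : R, ∃ f : S, r ∈ E.lead I n → f ∈ I ∧ E.Low f (n + 1) ∧ E.co f n = r := by
    intro n r
    by_cases hr : r ∈ E.lead I n
    · obtain ⟨f, h1, h2, h3⟩ := hr
      exact ⟨f, fun _ => ⟨h1, h2, h3⟩⟩
    · exact ⟨0, fun h => absurd h hr⟩
  choose lift hlift using hlift
  classical
  let T : Finset S := (Finset.range (N + 1)).biUnion fun n => (G n).image (lift n)
  have hGl : ∀ n, ∀ r ∈ G n, r ∈ E.lead I n := fun n r hr => by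
    rw [← hG n]; exact Ideal.subset_span hr
  have hTI : Ideal.span (T : Set S) ≤ I := by
    rw [Ideal.span_le]
    intro f hf
    obtain ⟨n, -, hn⟩ := Finset.mem_biUnion.mp (Finset.mem_coe.mp hf)
    obtain ⟨r, hr, rfl⟩ := Finset.mem_image.mp hn
    exact (hlift n r (hGl n r hr)).1
  refine ⟨T, le_antisymm hTI (E.le_of_lead hTI fun n => ?_)⟩
  -- leading coefficients
  have hn' : E.lead I n = E.lead I (min n N) := by
    rcases le_total n N with h | h
    · rw [min_eq_left h]
    · rw [min_eq_right h]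
      exact (hN n h).symm
  rw [hn', ← hG, Ideal.span_le]
  intro r hr
  obtain ⟨h1, h2, h3⟩ := hlift (min n N) r (hGl _ r hr)
  rw [← h3]
  refine E.lead_shift (min_le_left n N) (Ideal.subset_span (Finset.mem_coe.mpr ?_)) h2
  refine Finset.mem_biUnion.mpr ⟨min n N, Finset.mem_range.mpr ?_, Finset.mem_image.mpr ⟨r, hr, rfl⟩⟩
  have := min_le_right n N
  omega

/-! ### the opposite structure -/

/-- left coefficients -/
noncomputable def coL : S ≃+ (ℤ →₀ Rᵐᵒᵖ) where
  toFun s := Finsupp.onFinset (E.co s).support (fun j => op ((E.sig ^ j) (E.co s j))) (by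
    intro j hj
    rw [Finsupp.mem_support_iff]
    intro h
    rw [h, map_zero, op_zero] at hj
    exact hj rfl)
  invFun f := E.co.symm (Finsupp.onFinset f.support (fun j => (E.sig ^ (-j)) (unop (f j))) (by
    intro j hj
    rw [Finsupp.mem_support_iff]
    intro h
    rw [h, unop_zero, map_zero] at hj
    exact hj rfl))
  left_inv s := by
    rw [AddEquiv.symm_apply_eq]
    ext j
    simp only [Finsupp.onFinset_apply, unop_op]
    rw [← RingAut.mul_apply, ← zpow_add, neg_add_cancel, zpow_zero, RingAut.one_apply]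
  right_inv f := by
    ext j
    simp only [Finsupp.onFinset_apply, AddEquiv.apply_symm_apply]
    rw [← RingAut.mul_apply, ← zpow_add, add_neg_cancel, zpow_zero, RingAut.one_apply, op_unop]
  map_add' s t := by
    ext j
    simp only [Finsupp.onFinset_apply, map_add, Finsupp.add_apply, op_add]

theorem coL_apply (s : S) (j : ℤ) : E.coL s j = op ((E.sig ^ j) (E.co s j)) := rfl

/-- the opposite rings -/
noncomputable def opp : SkL Rᵐᵒᵖ Sᵐᵒᵖ where
  iota := RingHom.op E.iota
  z := Units.opEquiv.symm (op E.z)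
  sig := (RingEquiv.op E.sig⁻¹ : Rᵐᵒᵖ ≃+* Rᵐᵒᵖ)
  comm := by
    intro r
    have h := E.iota_zpow 1 (unop r)
    rw [zpow_one] at h
    show op (E.iota (unop r) * (E.z : S)) = op ((E.z : S) * E.iota (E.sig⁻¹ (unop r)))
    rw [h]
    rfl
  co := opAddEquiv.symm.trans E.coL
  co_symm := by
    intro j r
    have h1 : (((Units.opEquiv.symm (op E.z) : Sᵐᵒᵖˣ) ^ j : Sᵐᵒᵖˣ) : Sᵐᵒᵖ) =
        op ((E.z ^ j : Sˣ) : S) := by
      rw [← map_zpow, ← op_zpow, Units.coe_opEquiv_symm, unop_op]
    rw [h1, AddEquiv.symm_apply_eq]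
    ext k
    show _ = E.coL (E.iota (unop r) * ((E.z ^ j : Sˣ) : S)) k
    rw [coL_apply, E.iota_zpow, co_single]
    by_cases h : j = k
    · subst h
      rw [Finsupp.single_eq_same, Finsupp.single_eq_same, ← RingAut.mul_apply, ← zpow_add,
        add_neg_cancel, zpow_zero, RingAut.one_apply, op_unop]
    · rw [Finsupp.single_eq_of_ne (Ne.symm h), Finsupp.single_eq_of_ne (Ne.symm h), map_zero,
        op_zero]

include E in
/-- Hilbert's basis theorem, right ideals -/
theorem noeth_op [IsNoetherianRing Rᵐᵒᵖ] : IsNoetherianRing Sᵐᵒᵖ := E.opp.noeth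

end SkL

end Pool.Agent.UP
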