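import Mathlib
import Pool.Agent.Lib.UP.SkL

/-!
TANK UP, row R5: good lattices. `K` is a module over `S = R[z, 1/z; sig]`, regarded as an
`R`-module with a semilinear automorphism (`Semi R K`, `SkL.semi`). `pw j = z^j`, `tw j L = z^j L`,
`sm a b L = sum_{a <= j <= b} z^j L`, `sub1 K0 = {x in K0 : z x in K0}`.
`good_sm`: `sum_{0 <= j <= m} z^j L` is good for large `m`. `exact_mid`, `exact_inj`: for a good
lattice the sequence `0 -> S (x) K1 -> S (x) K0 -> K` is exact.
-/

set_option autoImplicit false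

open Submodule

namespace Pool.Agent.UP

variable {R K : Type*} [Ring R] [AddCommGroup K] [Module R K]

/-- A semilinear automorphism (multiplication by the variable `z`). -/
structure Semi (R K : Type*) [Ring R] [AddCommGroup K] [Module R K] where
  σ : RingAut R
  e : AddAut K
  he : ∀ (r : R) (x : K), e (r • x) = σ r • e x

namespace Semi

variable (z : Semi R K)

/-- `z ^ j` -/
def pw (j : ℤ) : K ≃+ K := (j • z.e : AddAut K)

theorem pw_zero (x : K) : z.pw 0 x = x := by
  simp [pw]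

theorem pw_one (x : K) : z.pw 1 x = z.e x := by
  simp [pw]

theorem pw_add (i j : ℤ) (x : K) : z.pw (i + j) x = z.pw i (z.pw j x) := by
  simp only [pw, add_zsmul]
  rfl

theorem pw_neg_pw (i : ℤ) (x : K) : z.pw (-i) (z.pw i x) = x := by
  rw [← pw_add]; simp [pw_zero]

theorem pw_pw_neg (i : ℤ) (x : K) : z.pw i (z.pw (-i) x) = x := by
  rw [← pw_add]; simp [pw_zero]

theorem pw_neg_one_smul (r : R) (x : K) :
    z.pw (-1) (r • x) = (z.σ⁻¹ : RingAut R) r • z.pw (-1) x := by
  have h0 : ∀ y : K, z.e (z.pw (-1) y) = y := fun y => by rw [← pw_one, pw_pw_neg]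
  apply z.e.injective
  rw [z.he, h0, h0]
  congr 1
  exact (z.σ.apply_symm_apply r).symm

theorem pw_smul (j : ℤ) (r : R) (x : K) : z.pw j (r • x) = (z.σ ^ j) r • z.pw j x := by
  induction j using Int.induction_on with
  | zero => simp [pw]
  | succ i ih =>
    have h1 : z.pw ((i : ℤ) + 1) (r • x) = z.e (z.pw i (r • x)) := by
      rw [add_comm, pw_add, pw_one]
    have h2 : z.pw ((i : ℤ) + 1) x = z.e (z.pw i x) := by
      rw [add_comm, pw_add, pw_one]
    rw [h1, ih, z.he, h2]
    congr 1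
    rw [add_comm, zpow_add, zpow_one]; rfl
  | pred i ih =>
    have h0 : ∀ y, z.pw (-(i : ℤ) - 1) y = z.pw (-1) (z.pw (-i) y) := by
      intro y
      have : (-(i:ℤ) - 1) = -1 + -i := by ring
      rw [this, pw_add]
    rw [h0, ih, z.pw_neg_one_smul, h0]
    congr 1
    have : (-(i:ℤ) - 1) = -1 + -i := by ring
    rw [this, zpow_add, zpow_neg_one]; rfl

/-- `z ^ j L` -/
def tw (j : ℤ) (L : Submodule R K) : Submodule R K where
  carrier := {x | z.pw (-j) x ∈ L}
  add_mem' := by
    intro a b ha hb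
    simp only [Set.mem_ofPred_eq, map_add] at *
    exact L.add_mem ha hb
  zero_mem' := by simp
  smul_mem' := by
    intro c x hx
    simp only [Set.mem_ofPred_eq] at *
    rw [pw_smul]
    exact L.smul_mem _ hx

theorem mem_tw (j : ℤ) (L : Submodule R K) (x : K) : x ∈ z.tw j L ↔ z.pw (-j) x ∈ L := Iff.rfl

theorem pw_mem_tw (i j : ℤ) (L : Submodule R K) (x : K) :
    z.pw i x ∈ z.tw (i + j) L ↔ x ∈ z.tw j L := by
  rw [mem_tw, mem_tw, ← pw_add]
  have : (-(i + j) + i) = -j := by ring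
  rw [this]

theorem pw_mem_tw' (i : ℤ) (L : Submodule R K) (x : K) :
    z.pw i x ∈ z.tw i L ↔ x ∈ L := by
  rw [mem_tw, pw_neg_pw]

theorem tw_zero (L : Submodule R K) : z.tw 0 L = L := by
  ext x; rw [mem_tw, neg_zero, pw_zero]

theorem tw_tw (i j : ℤ) (L : Submodule R K) : z.tw i (z.tw j L) = z.tw (i + j) L := by
  ext x
  rw [mem_tw, mem_tw, mem_tw, ← pw_add]
  have : (-j + -i) = -(i + j) := by ring
  rw [this]

theorem tw_mono (j : ℤ) {L M : Submodule R K} (h : L ≤ M) : z.tw j L ≤ z.tw j M :=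
  fun _ hx => h hx

theorem tw_le_iff (j : ℤ) {L M : Submodule R K} : z.tw j L ≤ M ↔ L ≤ z.tw (-j) M := by
  constructor
  · intro h
    have := z.tw_mono (-j) h
    rwa [tw_tw, neg_add_cancel, tw_zero] at this
  · intro h
    have := z.tw_mono j h
    rwa [tw_tw, add_neg_cancel, tw_zero] at this

theorem tw_iSup {ι : Sort*} (j : ℤ) (L : ι → Submodule R K) :
    z.tw j (⨆ i, L i) = ⨆ i, z.tw j (L i) := by
  have gc : GaloisConnection (z.tw j) (z.tw (-j)) := fun a b => z.tw_le_iff j
  exact gc.l_iSup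

theorem tw_sup (j : ℤ) (L M : Submodule R K) :
    z.tw j (L ⊔ M) = z.tw j L ⊔ z.tw j M := by
  have gc : GaloisConnection (z.tw j) (z.tw (-j)) := fun a b => z.tw_le_iff j
  exact gc.l_sup

theorem tw_span (j : ℤ) (s : Set K) : z.tw j (span R s) = span R (z.pw j '' s) := by
  apply le_antisymm
  · rw [tw_le_iff, span_le]
    intro x hx
    show x ∈ z.tw (-j) _
    rw [mem_tw, neg_neg]
    exact subset_span ⟨x, hx, rfl⟩
  · rw [span_le]
    rintro _ ⟨x, hx, rfl⟩
    show z.pw j x ∈ z.tw j _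
    rw [pw_mem_tw']
    exact subset_span hx

theorem tw_fg (j : ℤ) {L : Submodule R K} (h : L.FG) : (z.tw j L).FG := by
  classical
  obtain ⟨s, rfl⟩ := h
  rw [tw_span]
  refine ⟨s.image (z.pw j), ?_⟩
  simp

/-- `sum_{a <= j <= b} z^j L` -/
def sm (a b : ℤ) (L : Submodule R K) : Submodule R K :=
  ⨆ j : Set.Icc a b, z.tw j L

theorem tw_le_sm {a b j : ℤ} (ha : a ≤ j) (hb : j ≤ b) (L : Submodule R K) :
    z.tw j L ≤ z.sm a b L :=
  le_iSup (fun j : Set.Icc a b => z.tw j L) ⟨j, ha, hb⟩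

theorem sm_le {a b : ℤ} {L M : Submodule R K} (h : ∀ j, a ≤ j → j ≤ b → z.tw j L ≤ M) :
    z.sm a b L ≤ M :=
  iSup_le fun j => h j j.2.1 j.2.2

theorem sm_mono {a b c d : ℤ} (hac : c ≤ a) (hbd : b ≤ d) (L : Submodule R K) :
    z.sm a b L ≤ z.sm c d L :=
  z.sm_le fun _ h1 h2 => z.tw_le_sm (hac.trans h1) (h2.trans hbd) L

theorem tw_sm (i a b : ℤ) (L : Submodule R K) :
    z.tw i (z.sm a b L) = z.sm (i + a) (i + b) L := by
  apply le_antisymm
  · rw [tw_le_iff]
    refine z.sm_le fun j h1 h2 => ?_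
    rw [← tw_le_iff, tw_tw]
    exact z.tw_le_sm (by omega) (by omega) L
  · refine z.sm_le fun j h1 h2 => ?_
    have := z.tw_mono i (z.tw_le_sm (a := a) (b := b) (j := j - i) (by omega) (by omega) L)
    rw [tw_tw] at this
    have h : i + (j - i) = j := by ring
    rwa [h] at this

theorem sm_fg (a b : ℤ) {L : Submodule R K} (h : L.FG) : (z.sm a b L).FG := by
  have : Finite (Set.Icc a b) := Set.Finite.to_subtype (Set.finite_Icc a b)
  exact Submodule.fg_iSup _ fun j => z.tw_fg j h

/-- the property which makes `K0` a good lattice -/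
def Good (K0 : Submodule R K) : Prop :=
  ∀ M : ℤ, K0 ⊓ z.sm 1 M K0 ≤ z.tw 1 K0

theorem stab [IsNoetherianRing R] {L : Submodule R K} (h : L.FG) :
    ∃ n0 : ℕ, ∀ n : ℕ, n0 ≤ n → L ⊓ z.sm 1 n L = L ⊓ z.sm 1 n0 L := by
  have : IsNoetherian R L := isNoetherian_of_fg_of_noetherian L h
  have hm := monotone_stabilizes_iff_noetherian.2 (inferInstance : IsNoetherian R L)
  obtain ⟨n0, hn0⟩ := hm ⟨fun n => (z.sm 1 n L).comap L.subtype, by
    intro a b hab
    exact Submodule.comap_mono (z.sm_mono le_rfl (by exact_mod_cast hab) L)⟩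
  refine ⟨n0, fun n hn => ?_⟩
  have := hn0 n hn
  simp only [OrderHom.coe_mk] at this
  have h2 := congrArg (Submodule.map L.subtype) this
  rw [Submodule.map_comap_subtype, Submodule.map_comap_subtype] at h2
  exact h2.symm

/-- (b) good lattices exist: `sum_{0 <= j <= m} z^j L` is good for `m` large. -/
theorem good_sm [IsNoetherianRing R] {L : Submodule R K} (h : L.FG) :
    ∃ m0 : ℕ, ∀ m : ℕ, m0 ≤ m → z.Good (z.sm 0 m L) := by
  obtain ⟨n0, hn0⟩ := z.stab h
  refine ⟨n0, fun m hm M x hx => ?_⟩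
  obtain ⟨hx0, hxM⟩ := hx
  rw [tw_sm]
  -- x in sm 1 (M + m) L
  have hx1 : x ∈ z.sm 1 (M + m) L := by
    refine (z.sm_le fun j h1 h2 => ?_) hxM
    rw [tw_sm]
    exact z.sm_mono (by omega) (by omega) L
  -- split x = l + x'
  have hsplit : z.sm 0 m L ≤ L ⊔ z.sm 1 m L := by
    refine z.sm_le fun j h1 h2 => ?_
    rcases h1.eq_or_lt with h0 | h0
    · rw [← h0, tw_zero]; exact le_sup_left
    · exact (z.tw_le_sm (by omega) h2 L).trans le_sup_right
  obtain ⟨l, hl, x', hx', hxe⟩ := Submodule.mem_sup.1 (hsplit hx0)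
  have hxx' : x' ∈ z.sm (1 + 0) (1 + m) L := z.sm_mono (by omega) (by omega) L hx'
  have hl1 : l ∈ z.sm 1 ((M + m).toNat + m + n0 : ℕ) L := by
    have hle : l = x - x' := by rw [← hxe]; abel
    rw [hle]
    apply Submodule.sub_mem
    · exact z.sm_mono le_rfl (by push_cast; omega) L hx1
    · exact z.sm_mono le_rfl (by push_cast; omega) L hx'
  have hl2 : l ∈ L ⊓ z.sm 1 n0 L := by
    rw [← hn0 _ (by omega : n0 ≤ (M + m).toNat + m + n0)]
    exact ⟨hl, hl1⟩
  rw [← hxe]
  apply Submodule.add_mem _ _ hxx'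
  exact z.sm_mono (by omega) (by omega) L hl2.2

/-- `K1 = {x in K0 : z x in K0}` -/
def sub1 (K0 : Submodule R K) : Submodule R K := K0 ⊓ z.tw (-1) K0

theorem mem_sub1 (K0 : Submodule R K) (x : K) : x ∈ z.sub1 K0 ↔ x ∈ K0 ∧ z.pw 1 x ∈ K0 := by
  rw [sub1, Submodule.mem_inf, mem_tw, neg_neg]

/-- exactness in the middle: a finitely supported family in `K0` with `sum z^j x_j = 0` comes
from a finitely supported family in `K1`. -/
theorem exact_mid {K0 : Submodule R K} (hK0 : z.Good K0) (x : ℤ →₀ K) (hx : ∀ j, x j ∈ K0)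
    (hs : x.sum (fun j a => z.pw j a) = 0) :
    ∃ y : ℤ →₀ K, (∀ j, y j ∈ z.sub1 K0) ∧ ∀ j, x j = y j - z.pw 1 (y (j + 1)) := by
  classical
  -- y j = sum over i >= j of z^(i-j) x i
  let f : ℤ → K := fun j => ∑ i ∈ x.support.filter (fun i => j ≤ i), z.pw (i - j) (x i)
  -- bounds of the support
  obtain ⟨b, hb⟩ : ∃ b : ℤ, ∀ i ∈ x.support, i ≤ b := by
    obtain ⟨b, hb⟩ := x.support.bddAbove
    exact ⟨b, fun i hi => hb hi⟩
  obtain ⟨a, ha⟩ : ∃ a : ℤ, ∀ i ∈ x.support, a ≤ i := by
    obtain ⟨a, ha⟩ := x.support.bddBelow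
    exact ⟨a, fun i hi => ha hi⟩
  have hfb : ∀ j, b < j → f j = 0 := by
    intro j hj
    apply Finset.sum_eq_zero
    intro i hi
    rw [Finset.mem_filter] at hi
    exact absurd (hb i hi.1) (by omega)
  have hfa : ∀ j, j ≤ a → f j = 0 := by
    intro j hj
    have h1 : x.support.filter (fun i => j ≤ i) = x.support := by
      apply Finset.filter_true_of_mem
      intro i hi
      exact hj.trans (ha i hi)
    show (∑ i ∈ x.support.filter (fun i => j ≤ i), z.pw (i - j) (x i)) = 0
    rw [h1]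
    have h2 : (∑ i ∈ x.support, z.pw (i - j) (x i)) = z.pw (-j) (∑ i ∈ x.support, z.pw i (x i)) := by
      rw [map_sum]
      apply Finset.sum_congr rfl
      intro i _
      rw [← pw_add]
      congr 1
      ring_nf
    rw [h2]
    have h3 : (∑ i ∈ x.support, z.pw i (x i)) = 0 := hs
    rw [h3, map_zero]
  -- recursion
  have hrec : ∀ j, x j = f j - z.pw 1 (f (j + 1)) := by
    intro j
    have h1 : z.pw 1 (f (j + 1)) = ∑ i ∈ x.support.filter (fun i => j + 1 ≤ i), z.pw (i - j) (x i) := by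
      show z.pw 1 (∑ i ∈ x.support.filter (fun i => j + 1 ≤ i), z.pw (i - (j + 1)) (x i)) = _
      rw [map_sum]
      apply Finset.sum_congr rfl
      intro i _
      rw [← pw_add]
      congr 1
      ring_nf
    rw [h1]
    have h2 : f j = ∑ i ∈ x.support.filter (fun i => j ≤ i), z.pw (i - j) (x i) := rfl
    rw [h2, eq_sub_iff_add_eq]
    by_cases hj : j ∈ x.support
    · have h3 : x.support.filter (fun i => j ≤ i) = insert j (x.support.filter (fun i => j + 1 ≤ i)) := by
        ext i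
        simp only [Finset.mem_filter, Finset.mem_insert]
        constructor
        · rintro ⟨h4, h5⟩
          rcases h5.eq_or_lt with h6 | h6
          · exact Or.inl h6.symm
          · exact Or.inr ⟨h4, by omega⟩
        · rintro (h4 | ⟨h4, h5⟩)
          · exact ⟨h4 ▸ hj, h4.ge⟩
          · exact ⟨h4, by omega⟩
      rw [h3, Finset.sum_insert (by simp)]
      congr 1
      rw [sub_self, pw_zero]
    · have h3 : x.support.filter (fun i => j ≤ i) = x.support.filter (fun i => j + 1 ≤ i) := by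
        apply Finset.filter_congr
        intro i hi
        constructor
        · intro h5
          rcases h5.eq_or_lt with h6 | h6
          · exact absurd (h6 ▸ hi) hj
          · omega
        · intro h5; omega
      rw [h3, Finsupp.notMem_support_iff.1 hj, zero_add]
  -- membership in K0
  have hmem : ∀ n : ℕ, f (a + n) ∈ K0 := by
    intro n
    induction n with
    | zero => rw [hfa _ (by simp)]; exact K0.zero_mem
    | succ n ih =>
      have h1 : z.pw 1 (f (a + n + 1)) = f (a + n) - x (a + n) := by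
        rw [hrec (a + n)]; abel
      have h2 : z.pw 1 (f (a + n + 1)) ∈ K0 := by
        rw [h1]; exact K0.sub_mem ih (hx _)
      have h3 : z.pw 1 (f (a + n + 1)) ∈ z.sm 1 (b - a + 1) K0 := by
        show z.pw 1 (∑ i ∈ x.support.filter (fun i => a + n + 1 ≤ i), z.pw (i - (a + n + 1)) (x i)) ∈ _
        rw [map_sum]
        apply Submodule.sum_mem
        intro i hi
        rw [Finset.mem_filter] at hi
        rw [← pw_add]
        have h4 : 1 + (i - (a + n + 1)) = i - (a + n) := by ring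
        rw [h4]
        have h5 := hb i hi.1
        exact z.tw_le_sm (j := i - (a + n)) (by omega) (by omega) K0
          ((z.pw_mem_tw' _ _ _).2 (hx i))
      have h4 := hK0 _ ⟨h2, h3⟩
      have h5 := (z.pw_mem_tw' 1 K0 (f (a + n + 1))).1 h4
      have h6 : a + ((n + 1 : ℕ) : ℤ) = a + n + 1 := by push_cast; ring
      rw [h6]; exact h5
  have hmem' : ∀ j, f j ∈ K0 := by
    intro j
    by_cases hj : j ≤ a
    · rw [hfa j hj]; exact K0.zero_mem
    · have := hmem (j - a).toNat
      have h6 : a + ((j - a).toNat : ℤ) = j := by omega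
      rwa [h6] at this
  let y : ℤ →₀ K := Finsupp.ofSupportFinite f (by
    refine (Set.finite_Icc a b).subset ?_
    intro j hj
    by_contra hc
    apply hj
    simp only [Set.mem_Icc, not_and_or, not_le] at hc
    rcases hc with hc | hc
    · exact hfa j hc.le
    · exact hfb j hc)
  refine ⟨y, fun j => ?_, fun j => hrec j⟩
  rw [mem_sub1]
  refine ⟨hmem' j, ?_⟩
  have h1 : z.pw 1 (f j) = f (j - 1) - x (j - 1) := by
    have := hrec (j - 1)
    rw [sub_add_cancel] at this
    rw [this]; abel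
  show z.pw 1 (f j) ∈ K0
  rw [h1]
  exact K0.sub_mem (hmem' _) (hx _)

/-- injectivity: the family `y` is unique -/
theorem exact_inj (y : ℤ →₀ K) (h : ∀ j, y j - z.pw 1 (y (j + 1)) = 0) : y = 0 := by
  classical
  obtain ⟨b, hb⟩ : ∃ b : ℤ, ∀ i ∈ y.support, i ≤ b := by
    obtain ⟨b, hb⟩ := y.support.bddAbove
    exact ⟨b, fun i hi => hb hi⟩
  have h0 : ∀ j, b < j → y j = 0 := by
    intro j hj
    by_contra hc
    have := hb j (Finsupp.mem_support_iff.2 hc)
    omega
  have h1 : ∀ n : ℕ, y (b + 1 - n) = 0 := by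
    intro n
    induction n with
    | zero => exact h0 _ (by simp)
    | succ n ih =>
      have h2 := h (b + 1 - (n + 1 : ℕ))
      have h3 : b + 1 - ((n + 1 : ℕ) : ℤ) + 1 = b + 1 - n := by push_cast; ring
      rw [h3, ih, map_zero, sub_zero] at h2
      exact h2
  ext j
  by_cases hj : b < j
  · rw [h0 j hj]; rfl
  · have := h1 (b + 1 - j).toNat
    have h6 : b + 1 - (((b + 1 - j).toNat : ℕ) : ℤ) = j := by omega
    rw [h6] at this
    rw [this]; rfl

/-- an exhausting chain: every `f.g.` `R`-submodule of `K = sum z^j L` is in some `sm (-m) m L` -/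
theorem fg_le_sm {L : Submodule R K} (hL : ⨆ j : ℤ, z.tw j L = ⊤) {N : Submodule R K} (hN : N.FG) :
    ∃ m0 : ℕ, ∀ m : ℕ, m0 ≤ m → N ≤ z.sm (-m) m L := by
  classical
  have hx : ∀ x : K, ∃ m0 : ℕ, ∀ m : ℕ, m0 ≤ m → x ∈ z.sm (-m) m L := by
    intro x
    have hx : x ∈ ⨆ j : ℤ, z.tw j L := by rw [hL]; trivial
    induction hx using Submodule.iSup_induction' with
    | mem j x hx =>
      exact ⟨j.natAbs, fun m hm => z.tw_le_sm (by omega) (by omega) L hx⟩
    | zero => exact ⟨0, fun m _ => Submodule.zero_mem _⟩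
    | add x y _ _ ihx ihy =>
      obtain ⟨a, ha⟩ := ihx
      obtain ⟨b, hb⟩ := ihy
      exact ⟨max a b, fun m hm => Submodule.add_mem _ (ha m ((le_max_left _ _).trans hm))
        (hb m ((le_max_right _ _).trans hm))⟩
  obtain ⟨s, rfl⟩ := hN
  choose f hf using hx
  refine ⟨s.sup f, fun m hm => ?_⟩
  rw [span_le]
  intro x hx
  exact hf x m ((Finset.le_sup hx).trans hm)

end Semi

namespace SkL

variable {S : Type*} [Ring S] [Module S K]

/-- an `S`-module is an `R`-module with the semilinear automorphism `z` -/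
def semi (E : SkL R S) (hc : ∀ (r : R) (x : K), r • x = E.iota r • x) : Semi R K where
  σ := E.sig
  e := DistribMulAction.toAddEquiv K E.z
  he := by
    intro r x
    rw [hc, hc]
    show (E.z : S) • (E.iota r • x) = E.iota (E.sig r) • ((E.z : S) • x)
    rw [← mul_smul, E.comm, mul_smul]

theorem semi_pw (E : SkL R S) (hc : ∀ (r : R) (x : K), r • x = E.iota r • x) (j : ℤ) (x : K) :
    (E.semi hc).pw j x = ((E.z ^ j : Sˣ) : S) • x := by
  have h1 : ∀ x : K, (E.semi hc).pw 1 x = (E.z : S) • x := fun x => by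
    rw [Semi.pw_one]; rfl
  have h2 : ∀ x : K, (E.semi hc).pw (-1) x = ((E.z⁻¹ : Sˣ) : S) • x := fun x => by
    apply ((E.semi hc).pw 1).injective
    rw [Semi.pw_pw_neg, h1, ← mul_smul, Units.mul_inv, one_smul]
  induction j using Int.induction_on generalizing x with
  | zero => rw [Semi.pw_zero, zpow_zero, Units.val_one, one_smul]
  | succ i ih => rw [Semi.pw_add, h1, ih, ← mul_smul, zpow_add_one, Units.val_mul]
  | pred i ih =>
    rw [sub_eq_add_neg, Semi.pw_add, h2, ih, ← mul_smul, zpow_add, zpow_neg_one, Units.val_mul]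

end SkL

end Pool.Agent.UP
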