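import Mathlib
import Pool.Agent.Lib.UP.SkL
import Pool.Agent.Lib.UP.Lat

/-!
# TANK UP: ring theory for UNil with poly-Z edge groups, definitions

Left modules are spaces of ROW vectors, linear maps are right multiplications by matrices.
-/

open MonoidAlgebra CategoryTheory

namespace Pool.Agent.UP

universe u v w w'

/-! ## Complexes of free modules -/

/-- a complex `… → R^(ι 2) → R^(ι 1) → R^(ι 0)` of free left modules of finite rank
(row vectors, `x ↦ x ᵥ* D k`) -/
structure RC (R : Type u) [Ring R] where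
  ι : ℕ → Type
  [fin : ∀ k, Fintype (ι k)]
  [dec : ∀ k, DecidableEq (ι k)]
  D : ∀ k, Matrix (ι (k + 1)) (ι k) R
  DD : ∀ k, D (k + 1) * D k = 0

attribute [instance] RC.fin RC.dec

section
variable {R : Type u} [Ring R]

/-- exactness at `R^(ι (k+1))` -/
def RC.Ex (T : RC R) (k : ℕ) : Prop :=
  ∀ x : T.ι (k + 1) → R, Matrix.vecMul x (T.D k) = 0 → ∃ y, Matrix.vecMul y (T.D (k + 1)) = x

/-- exactness of the dual complex (columns) at position `l` -/
def RC.CoEx (T : RC R) : ℕ → Prop
  | 0 => ∀ y : T.ι 0 → R, Matrix.mulVec (T.D 0) y = 0 → y = 0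
  | l + 1 => ∀ y : T.ι (l + 1) → R, Matrix.mulVec (T.D (l + 1)) y = 0 →
      ∃ z, Matrix.mulVec (T.D l) z = y

/-- entrywise image under a ring homomorphism -/
@[simps] def RC.map {S : Type v} [Ring S] (T : RC R) (f : R →+* S) : RC S where
  ι := T.ι
  D k := (T.D k).map f
  DD k := by
    rw [← Matrix.map_mul, T.DD]
    exact Matrix.map_zero _ (map_zero f)

/-- a free resolution of the module `M` -/
structure Res (T : RC R) (M : Type w) [AddCommGroup M] [Module R M] where
  ε : (T.ι 0 → R) →ₗ[R] M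
  surj : Function.Surjective ε
  zero : ∀ x, ε (Matrix.vecMul x (T.D 0)) = 0
  ker : ∀ x, ε x = 0 → ∃ y, Matrix.vecMul y (T.D 0) = x
  ex : ∀ k, T.Ex k

/-- a chain map -/
structure ChM (T T' : RC R) where
  U : ∀ k, Matrix (T.ι k) (T'.ι k) R
  comm : ∀ k, U (k + 1) * T'.D k = T.D k * U k

/-- the index types of the mapping cone -/
def coneι (T1 T0 : RC R) : ℕ → Type
  | 0 => T0.ι 0
  | k + 1 => T1.ι k ⊕ T0.ι (k + 1)

instance (T1 T0 : RC R) : ∀ k, Fintype (coneι T1 T0 k)
  | 0 => inferInstanceAs (Fintype (T0.ι 0))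
  | k + 1 => inferInstanceAs (Fintype (T1.ι k ⊕ T0.ι (k + 1)))

instance (T1 T0 : RC R) : ∀ k, DecidableEq (coneι T1 T0 k)
  | 0 => inferInstanceAs (DecidableEq (T0.ι 0))
  | k + 1 => inferInstanceAs (DecidableEq (T1.ι k ⊕ T0.ι (k + 1)))

/-- the differentials of the mapping cone: `(a, b) ↦ (- a D1, a U + b D0)` -/
def coneD {T1 T0 : RC R} (f : ChM T1 T0) : ∀ k, Matrix (coneι T1 T0 (k + 1)) (coneι T1 T0 k) R
  | 0 => Matrix.fromRows (f.U 0) (T0.D 0)
  | k + 1 => Matrix.fromBlocks (-T1.D k) (f.U (k + 1)) 0 (T0.D (k + 1))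

/-- the mapping cone of a chain map -/
def cone {T1 T0 : RC R} (f : ChM T1 T0) : RC R where
  ι := coneι T1 T0
  D := coneD f
  DD k := by
    cases k with
    | zero =>
      change Matrix.fromBlocks (-T1.D 0) (f.U (0 + 1)) 0 (T0.D (0 + 1)) *
        Matrix.fromRows (f.U 0) (T0.D 0) = 0
      rw [Matrix.fromBlocks_mul_fromRows, f.comm, T0.DD, Matrix.neg_mul, neg_add_cancel,
        Matrix.zero_mul, add_zero, Matrix.fromRows_zero]
    | succ k =>
      change Matrix.fromBlocks (-T1.D (k + 1)) (f.U (k + 1 + 1)) 0 (T0.D (k + 1 + 1)) *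
        Matrix.fromBlocks (-T1.D k) (f.U (k + 1)) 0 (T0.D (k + 1)) = 0
      rw [Matrix.fromBlocks_multiply, f.comm, T0.DD, Matrix.neg_mul, Matrix.neg_mul,
        Matrix.mul_neg, neg_neg, T1.DD, neg_add_cancel]
      simp

/-- the map of the dual complexes (columns) is injective on the cohomology at position `l` -/
def ChM.Inj {T1 T0 : RC R} (f : ChM T1 T0) : ℕ → Prop
  | 0 => ∀ y : T0.ι 0 → R, Matrix.mulVec (T0.D 0) y = 0 → Matrix.mulVec (f.U 0) y = 0 → y = 0
  | l + 1 => ∀ y : T0.ι (l + 1) → R, Matrix.mulVec (T0.D (l + 1)) y = 0 →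
      (∃ z, Matrix.mulVec (f.U (l + 1)) y = Matrix.mulVec (T1.D l) z) →
      ∃ z, Matrix.mulVec (T0.D l) z = y

/-! ## The conditions on `Ext` -/

/-- `Ext^l(M, R) = 0` for all `l < p` -/
def GE (R : Type u) [Ring R] (p : ℕ) (M : Type u) [AddCommGroup M] [Module R M] : Prop :=
  ∀ l < p, Subsingleton (Abelian.Ext.{u} (ModuleCat.of R M) (ModuleCat.of R R) l)

/-- all finitely generated submodules `N` of `M` satisfy `Ext^l(N, R) = 0` for all `l < p` -/
def Loc (R : Type u) [Ring R] (p : ℕ) (M : Type u) [AddCommGroup M] [Module R M] : Prop :=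
  ∀ N : Submodule R M, N.FG → GE R p N

/-! ## The cohomology of the dual complex, in star form (row vectors, left modules) -/

section
variable [StarRing R]

/-- cocycles of the dual complex -/
def RC.cy (T : RC R) (p : ℕ) : Submodule R (T.ι p → R) where
  carrier := {x | Matrix.vecMul x (T.D p).conjTranspose = 0}
  add_mem' := by
    intro a b ha hb
    change Matrix.vecMul (a + b) _ = 0
    rw [Matrix.add_vecMul, show Matrix.vecMul a _ = 0 from ha, show Matrix.vecMul b _ = 0 from hb,
      add_zero]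
  zero_mem' := Matrix.zero_vecMul _
  smul_mem' := by
    intro c x hx
    change Matrix.vecMul (c • x) _ = 0
    rw [Matrix.smul_vecMul, show Matrix.vecMul x _ = 0 from hx, smul_zero]

/-- coboundaries of the dual complex -/
def RC.bd (T : RC R) : (p : ℕ) → Submodule R (T.ι p → R)
  | 0 => ⊥
  | p + 1 =>
    { carrier := {x | ∃ z : T.ι p → R, Matrix.vecMul z (T.D p).conjTranspose = x}
      add_mem' := by
        rintro _ _ ⟨a, rfl⟩ ⟨b, rfl⟩
        exact ⟨a + b, Matrix.add_vecMul _ _ _⟩
      zero_mem' := ⟨0, Matrix.zero_vecMul _⟩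
      smul_mem' := by
        rintro c _ ⟨a, rfl⟩
        exact ⟨c • a, Matrix.smul_vecMul _ _ _⟩ }

/-- `H^p` of the dual complex, as a left module by means of the involution -/
abbrev RC.E (T : RC R) (p : ℕ) : Type u := (T.cy p) ⧸ (T.bd p).comap (T.cy p).subtype

/-- the map `E^p(T0) → E^p(T1)`, `[y] ↦ [y U*]`, of a chain map -/
def ChM.Eu {T1 T0 : RC R} (f : ChM T1 T0) (p : ℕ) : T0.E p →ₗ[R] T1.E p :=
  Submodule.mapQ _ _
    (((Matrix.vecMulLinear (f.U p).conjTranspose).comp (T0.cy p).subtype).codRestrict (T1.cy p) (by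
      rintro ⟨y, hy⟩
      change Matrix.vecMul (Matrix.vecMul y (f.U p).conjTranspose) (T1.D p).conjTranspose = 0
      rw [Matrix.vecMul_vecMul, ← Matrix.conjTranspose_mul, ← f.comm, Matrix.conjTranspose_mul,
        ← Matrix.vecMul_vecMul, show Matrix.vecMul y (T0.D p).conjTranspose = 0 from hy,
        Matrix.zero_vecMul]))
    (by
      rintro ⟨y, hy⟩ hb
      change Matrix.vecMul y (f.U p).conjTranspose ∈ T1.bd p
      replace hb : y ∈ T0.bd p := hb
      cases p with
      | zero =>
        rw [show y = 0 from hb, Matrix.zero_vecMul]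
        exact Submodule.zero_mem _
      | succ p =>
        obtain ⟨z, rfl⟩ := hb
        refine ⟨Matrix.vecMul z (f.U p).conjTranspose, ?_⟩
        rw [Matrix.vecMul_vecMul, Matrix.vecMul_vecMul, ← Matrix.conjTranspose_mul,
          ← Matrix.conjTranspose_mul, f.comm])

variable (R) in
/-- the Auslander condition: for every free resolution `T` (of a finitely generated module `W`) all
finitely generated submodules `N` of `Ext^p(W, R) = T.E p` satisfy `Ext^l(N, R) = 0` for `l < p` -/
def AR : Prop := ∀ T : RC R, (∀ k, T.Ex k) → ∀ p, Loc R p (T.E p)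

end

variable (R) in
/-- all finitely generated modules have projective dimension at most `g + 1`: for every free
resolution `T` the image of `D g` is projective -/
def FL (g : ℕ) : Prop := ∀ T : RC R, (∀ k, T.Ex k) →
  ∃ M : Matrix (T.ι (g + 1)) (T.ι (g + 1)) R, M * T.D g = T.D g ∧ T.D (g + 1) * M = 0

/-! ## Complexes of projective modules -/

/-- a complex of finitely generated projective modules: the row spaces of the idempotents `e k` -/
structure PC (R : Type u) [Ring R] extends RC R where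
  e : ∀ k, Matrix (ι k) (ι k) R
  ee : ∀ k, e k * e k = e k
  eD : ∀ k, e (k + 1) * D k = D k
  De : ∀ k, D k * e k = D k

/-- exactness at position `k + 1` -/
def PC.PEx (P : PC R) (k : ℕ) : Prop :=
  ∀ x : P.ι (k + 1) → R, Matrix.vecMul x (P.e (k + 1)) = x → Matrix.vecMul x (P.D k) = 0 →
    ∃ y, Matrix.vecMul y (P.D (k + 1)) = x

/-- the relations of the rows of `V` modulo the row space of `B` -/
def relV {c d b : Type} [Fintype c] [Fintype b] (V : Matrix c d R) (B : Matrix b d R) :
    Submodule R (c → R) where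
  carrier := {u | ∃ z : b → R, Matrix.vecMul u V = Matrix.vecMul z B}
  add_mem' := by
    rintro x y ⟨a, ha⟩ ⟨b, hb⟩
    exact ⟨a + b, by rw [Matrix.add_vecMul, Matrix.add_vecMul, ha, hb]⟩
  zero_mem' := ⟨0, by rw [Matrix.zero_vecMul, Matrix.zero_vecMul]⟩
  smul_mem' := by
    rintro r x ⟨a, ha⟩
    exact ⟨r • a, by rw [Matrix.smul_vecMul, Matrix.smul_vecMul, ha]⟩

end

/-! ## Skew Laurent extensions with involutions -/

/-- `S = R[z, z⁻¹; σ]` with involutions, `z* = z⁻¹` -/
structure SkS (R S : Type u) [Ring R] [StarRing R] [Ring S] [StarRing S] extends SkL R S where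
  star_iota : ∀ r, star (iota r) = iota (star r)
  star_z : star (z : S) = ((z⁻¹ : Sˣ) : S)

/-! ## Total complexes -/

/-- a finite complex of projective modules, as one matrix: `d` lowers the degree by one -/
structure TC (R : Type u) [Ring R] where
  K : Type
  [fin : Fintype K]
  [dec : DecidableEq K]
  deg : K → ℤ
  e : Matrix K K R
  d : Matrix K K R
  e_deg : ∀ i j, e i j ≠ 0 → deg i = deg j
  d_deg : ∀ i j, d i j ≠ 0 → deg i = deg j + 1
  ee : e * e = e
  ed : e * d = d
  de : d * e = d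
  dd : d * d = 0

attribute [instance] TC.fin TC.dec

section
variable {R : Type u} [Ring R]

/-- exactness of the rows in degree `j` -/
def TC.RowEx (X : TC R) (j : ℤ) : Prop :=
  ∀ x : X.K → R, (∀ k, x k ≠ 0 → X.deg k = j) → Matrix.vecMul x X.e = x →
    Matrix.vecMul x X.d = 0 → ∃ y, Matrix.vecMul y X.d = x

/-- exactness of the columns in degree `j` -/
def TC.ColEx (X : TC R) (j : ℤ) : Prop :=
  ∀ y : X.K → R, (∀ k, y k ≠ 0 → X.deg k = j) → Matrix.mulVec X.e y = y →
    Matrix.mulVec X.d y = 0 → ∃ z, Matrix.mulVec X.d z = y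

/-- a finite complex `C` of projective modules with a chain map `f` to `X`, which resolves a
submodule of the row homology of `X` in degree `a` -/
structure TC.Att (X : TC R) (a : ℤ) where
  C : Type
  [fin : Fintype C]
  [dec : DecidableEq C]
  p : C → ℕ
  e : Matrix C C R
  δ : Matrix C C R
  f : Matrix C X.K R
  e_deg : ∀ i j, e i j ≠ 0 → p i = p j
  δ_deg : ∀ i j, δ i j ≠ 0 → p i = p j + 1
  f_deg : ∀ i k, f i k ≠ 0 → X.deg k = a + p i
  ee : e * e = e
  eδ : e * δ = δ
  δe : δ * e = δ
  δδ : δ * δ = 0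
  ef : e * f = f
  fe : f * X.e = f
  δf : δ * f + f * X.d = 0
  rowex : ∀ (l : ℕ) (u : C → R), (∀ i, u i ≠ 0 → p i = l) → Matrix.vecMul u e = u →
    Matrix.vecMul u δ = 0 → (∃ x : X.K → R, Matrix.vecMul u f = Matrix.vecMul x X.d) →
    ∃ u' : C → R, Matrix.vecMul u' δ = u

attribute [instance] TC.Att.fin TC.Att.dec

variable (R) in
/-- the Auslander condition for total complexes: if the columns of `X` are exact in all degrees
`< -a`, and `C` resolves a finitely generated submodule of the row homology in degree `a`, then the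
dual of `C` is exact in the positions `l < -2 a` -/
def AusT : Prop :=
  ∀ (X : TC R) (a : ℤ) (κ : X.Att a), (∀ j < -a, X.ColEx j) →
    ∀ (l : ℕ) (y : κ.C → R), (l : ℤ) < -2 * a → (∀ i, y i ≠ 0 → κ.p i = l) →
      Matrix.mulVec κ.e y = y → Matrix.mulVec κ.δ y = 0 → ∃ z, Matrix.mulVec κ.δ z = y

variable (R) in
/-- finite global dimension for total complexes: if the columns are exact in the degrees `< L`,
then the rows are exact in the degrees `< L - g - 1` -/
def EndT (g : ℕ) : Prop :=
  ∀ (X : TC R) (L : ℤ), (∀ j < L, X.ColEx j) → ∀ j < L - g - 1, X.RowEx j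

end

/-! ## poly-Z groups -/

/-- poly-Z groups of length at most `d` -/
def PolyZ : ℕ → ∀ (G : Type v) [Group G], Prop
  | 0, G, _ => Subsingleton G
  | d + 1, G, _ => ∃ φ : G →* Multiplicative ℤ, PolyZ d φ.ker

end Pool.Agent.UP
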