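import Mathlib

/-!
TANK UP, section 4, row LAT: lattices over a skew group ring `S = R * F`, `F` a free group.

`K` an `R`-module with a semilinear action of `F = FreeGroup X` (e.g. an `S`-module), `L` an
`R`-submodule such that the relations among the translates of `L` are generated by relations with
support in the ball of radius `m` of the Cayley tree.  Then for `K0 = sum_{|g| <= m} g L` and
`K1 j = {x in K0 | z_j x in K0}` the sequence
`0 -> (+)_j F (x) K1 j -> F (x) K0 -> K` is exact.
-/

set_option autoImplicit false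

open scoped BigOperators


namespace Pool.Agent.UP

/-! ### the tree -/

section tree

variable {X : Type*} [DecidableEq X]

/-- a letter as an element of the free group -/
def ltr (s : X × Bool) : FreeGroup X := FreeGroup.mk [s]

/-- the inverse letter -/
def opl (s : X × Bool) : X × Bool := (s.1, !s.2)

omit [DecidableEq X] in
theorem ltr_inv (s : X × Bool) : (ltr s)⁻¹ = ltr (opl s) := by
  simp [ltr, opl, FreeGroup.invRev]

omit [DecidableEq X] in
theorem ltr_true (j : X) : ltr (j, true) = FreeGroup.of j := rfl

omit [DecidableEq X] in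
theorem ltr_false (j : X) : ltr (j, false) = (FreeGroup.of j)⁻¹ := by
  rw [← ltr_true, ltr_inv]; rfl

omit [DecidableEq X] in
theorem opl_opl (s : X × Bool) : opl (opl s) = s := by
  simp [opl]

theorem norm_ltr_mul (s : X × Bool) (u : FreeGroup X) :
    (ltr s * u).norm = u.norm + 1 ∨
      ((∃ tl, u.toWord = opl s :: tl) ∧ (ltr s * u).norm + 1 = u.norm) := by
  have h1 : (ltr s * u).toWord = FreeGroup.reduce (s :: u.toWord) := by
    conv_lhs => rw [← FreeGroup.mk_toWord (x := u)]
    rw [ltr, FreeGroup.mul_mk, FreeGroup.toWord_mk, List.singleton_append]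
  rw [FreeGroup.reduce.cons, FreeGroup.reduce_toWord] at h1
  unfold FreeGroup.norm
  rw [h1]
  cases hu : u.toWord with
  | nil => left; simp
  | cons hd tl =>
    simp only
    by_cases hc : s.1 = hd.1 ∧ s.2 = !hd.2
    · right
      rw [if_pos hc]
      refine ⟨⟨tl, ?_⟩, by simp⟩
      have : opl s = hd := by
        unfold opl
        ext
        · exact hc.1
        · simp [hc.2]
      rw [this]
    · left
      rw [if_neg hc]
      simp

theorem norm_mul_ltr (v : FreeGroup X) (s : X × Bool) :
    (v * ltr s).norm = v.norm + 1 ∨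
      ((∃ tl, (v⁻¹).toWord = s :: tl) ∧ (v * ltr s).norm + 1 = v.norm) := by
  have h := norm_ltr_mul (opl s) v⁻¹
  have h2 : (ltr (opl s) * v⁻¹).norm = (v * ltr s).norm := by
    rw [← ltr_inv, ← mul_inv_rev, FreeGroup.norm_inv_eq]
  rw [h2, FreeGroup.norm_inv_eq, opl_opl] at h
  exact h

/-- at most one letter shortens a given word -/
theorem ltr_unique {v : FreeGroup X} {s s' : X × Bool} (h : (v * ltr s).norm ≤ v.norm)
    (h' : (v * ltr s').norm ≤ v.norm) : s = s' := by
  rcases norm_mul_ltr v s with h1 | ⟨⟨tl, h1⟩, -⟩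
  · omega
  rcases norm_mul_ltr v s' with h2 | ⟨⟨tl', h2⟩, -⟩
  · omega
  rw [h1] at h2
  exact (List.cons.inj h2).1

end tree

/-! ### semilinear actions of a free group -/

/-- an `R`-module with a semilinear action of the free group on `X` -/
structure SemiF (X R K : Type*) [Ring R] [AddCommGroup K] [Module R K] where
  sig : FreeGroup X →* RingAut R
  ac : FreeGroup X → K ≃+ K
  ac_one : ∀ x, ac 1 x = x
  ac_mul : ∀ g h x, ac (g * h) x = ac g (ac h x)
  ac_smul : ∀ g r x, ac g (r • x) = sig g r • ac g x

namespace SemiF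

variable {X R K : Type*} [Ring R] [AddCommGroup K] [Module R K] (A : SemiF X R K)

theorem ac_inv_ac (g : FreeGroup X) (x : K) : A.ac g⁻¹ (A.ac g x) = x := by
  rw [← ac_mul, inv_mul_cancel, ac_one]

theorem ac_ac_inv (g : FreeGroup X) (x : K) : A.ac g (A.ac g⁻¹ x) = x := by
  rw [← ac_mul, mul_inv_cancel, ac_one]

/-- the translate `g L` -/
def tw (g : FreeGroup X) (L : Submodule R K) : Submodule R K where
  carrier := {x | A.ac g⁻¹ x ∈ L}
  add_mem' := by
    intro x y hx hy
    simp only [Set.mem_ofPred_eq] at hx hy ⊢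
    rw [map_add]
    exact L.add_mem hx hy
  zero_mem' := by
    simp only [Set.mem_ofPred_eq, map_zero]
    exact L.zero_mem
  smul_mem' := by
    intro r x hx
    simp only [Set.mem_ofPred_eq] at hx ⊢
    rw [A.ac_smul]
    exact L.smul_mem _ hx

theorem mem_tw {g : FreeGroup X} {L : Submodule R K} {x : K} : x ∈ A.tw g L ↔ A.ac g⁻¹ x ∈ L :=
  Iff.rfl

theorem ac_mem_tw {g : FreeGroup X} {L : Submodule R K} {x : K} (hx : x ∈ L) :
    A.ac g x ∈ A.tw g L := by
  rw [mem_tw, ac_inv_ac]; exact hx

theorem tw_tw (g h : FreeGroup X) (L : Submodule R K) : A.tw g (A.tw h L) = A.tw (g * h) L := by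
  ext x
  rw [mem_tw, mem_tw, mem_tw, mul_inv_rev, ac_mul]

theorem tw_one (L : Submodule R K) : A.tw 1 L = L := by
  ext x
  rw [mem_tw, inv_one, ac_one]

theorem tw_mono (g : FreeGroup X) {L M : Submodule R K} (h : L ≤ M) : A.tw g L ≤ A.tw g M :=
  fun _ hx => h hx

theorem tw_span (g : FreeGroup X) (s : Set K) :
    A.tw g (Submodule.span R s) = Submodule.span R ((A.ac g) '' s) := by
  apply le_antisymm
  · intro x hx
    rw [mem_tw] at hx
    have key : ∀ y ∈ Submodule.span R s, A.ac g y ∈ Submodule.span R ((A.ac g) '' s) := by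
      intro y hy
      induction hy using Submodule.span_induction with
      | mem y hy => exact Submodule.subset_span ⟨y, hy, rfl⟩
      | zero => rw [map_zero]; exact Submodule.zero_mem _
      | add y z _ _ h1 h2 => rw [map_add]; exact Submodule.add_mem _ h1 h2
      | smul r y _ h1 => rw [A.ac_smul]; exact Submodule.smul_mem _ _ h1
    have := key _ hx
    rwa [ac_ac_inv] at this
  · rw [Submodule.span_le]
    rintro _ ⟨y, hy, rfl⟩
    exact A.ac_mem_tw (Submodule.subset_span hy)

theorem tw_fg (g : FreeGroup X) {L : Submodule R K} (h : L.FG) : (A.tw g L).FG := by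
  obtain ⟨s, hs⟩ := h
  classical
  refine ⟨s.image (A.ac g), ?_⟩
  rw [← hs, tw_span, Finset.coe_image]

section lat

variable [DecidableEq X]

/-- the lattice `K0 = sum_{|g| <= m} g L` -/
def K0 (m : ℕ) (L : Submodule R K) : Submodule R K :=
  ⨆ g : {g : FreeGroup X // g.norm ≤ m}, A.tw g.1 L

/-- `K1 j = {x in K0 | z_j x in K0}` -/
def K1 (M : Submodule R K) (j : X) : Submodule R K := M ⊓ A.tw (FreeGroup.of j)⁻¹ M

omit [DecidableEq X] in
theorem mem_K1 {M : Submodule R K} {j : X} {x : K} :
    x ∈ A.K1 M j ↔ x ∈ M ∧ A.ac (FreeGroup.of j) x ∈ M := by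
  unfold K1
  rw [Submodule.mem_inf, mem_tw, inv_inv]

theorem tw_le_K0 {m : ℕ} {g : FreeGroup X} (hg : g.norm ≤ m) (L : Submodule R K) :
    A.tw g L ≤ A.K0 m L :=
  le_iSup (fun g : {g : FreeGroup X // g.norm ≤ m} => A.tw g.1 L) ⟨g, hg⟩

theorem ac_mem_K0 {m : ℕ} {g : FreeGroup X} (hg : g.norm ≤ m) {L : Submodule R K} {x : K}
    (hx : x ∈ L) : A.ac g x ∈ A.K0 m L :=
  A.tw_le_K0 hg L (A.ac_mem_tw hx)

theorem le_K0 (m : ℕ) (L : Submodule R K) : L ≤ A.K0 m L := by
  have := A.tw_le_K0 (m := m) (g := 1) (by rw [FreeGroup.norm_one]; omega) L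
  rwa [tw_one] at this

theorem K0_mono {m n : ℕ} (h : m ≤ n) {L M : Submodule R K} (hL : L ≤ M) :
    A.K0 m L ≤ A.K0 n M := by
  refine iSup_le fun g => ?_
  exact (A.tw_mono _ hL).trans (A.tw_le_K0 (g.2.trans h) M)

end lat

/-! ### formal sums -/

/-- `sum g x_g` -/
noncomputable def sumK : (FreeGroup X →₀ K) →+ K :=
  Finsupp.liftAddHom fun g => (A.ac g).toAddMonoidHom

theorem sumK_single (g : FreeGroup X) (x : K) : A.sumK (Finsupp.single g x) = A.ac g x := by
  unfold sumK
  rw [Finsupp.liftAddHom_apply_single]; rfl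

/-- translation of formal sums -/
noncomputable def sh (h : FreeGroup X) : (FreeGroup X →₀ K) →+ (FreeGroup X →₀ K) :=
  Finsupp.mapDomain.addMonoidHom (h * ·)

theorem sh_single (h g : FreeGroup X) (x : K) :
    sh h (Finsupp.single g x) = Finsupp.single (h * g) x := by
  unfold sh
  exact Finsupp.mapDomain_single

theorem sumK_sh (h : FreeGroup X) (x : FreeGroup X →₀ K) :
    A.sumK (sh h x) = A.ac h (A.sumK x) := by
  induction x using Finsupp.induction_linear with
  | zero => simp
  | add x y hx hy => rw [map_add, map_add, hx, hy, map_add, map_add]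
  | single g a => rw [sh_single, sumK_single, sumK_single, ac_mul]

/-- the boundary map `(+)_j F (x) K -> F (x) K`, `g (x) x` in the `j`-th summand goes to
`g z_j (x) x - g (x) z_j x` -/
noncomputable def psi : (X × FreeGroup X →₀ K) →+ (FreeGroup X →₀ K) :=
  Finsupp.liftAddHom fun p => Finsupp.singleAddHom (p.2 * FreeGroup.of p.1) -
    (Finsupp.singleAddHom p.2).comp (A.ac (FreeGroup.of p.1)).toAddMonoidHom

theorem psi_single (p : X × FreeGroup X) (x : K) :
    A.psi (Finsupp.single p x) = Finsupp.single (p.2 * FreeGroup.of p.1) x -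
      Finsupp.single p.2 (A.ac (FreeGroup.of p.1) x) := by
  unfold psi
  rw [Finsupp.liftAddHom_apply_single]; rfl

theorem sumK_psi (y : X × FreeGroup X →₀ K) : A.sumK (A.psi y) = 0 := by
  induction y using Finsupp.induction_linear with
  | zero => simp
  | add x y hx hy => rw [map_add, map_add, hx, hy, add_zero]
  | single p a => rw [psi_single, map_sub, sumK_single, sumK_single, ac_mul, sub_self]

/-- translation of `(+)_j F (x) K` -/
noncomputable def shE (h : FreeGroup X) : (X × FreeGroup X →₀ K) →+ (X × FreeGroup X →₀ K) :=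
  Finsupp.mapDomain.addMonoidHom fun p => (p.1, h * p.2)

theorem shE_single (h : FreeGroup X) (p : X × FreeGroup X) (x : K) :
    shE h (Finsupp.single p x) = Finsupp.single (p.1, h * p.2) x := by
  unfold shE
  exact Finsupp.mapDomain_single

theorem psi_shE (h : FreeGroup X) (y : X × FreeGroup X →₀ K) :
    A.psi (shE h y) = sh h (A.psi y) := by
  induction y using Finsupp.induction_linear with
  | zero => simp
  | add x y hx hy => rw [map_add, map_add, hx, hy, map_add, map_add]
  | single p a =>
    rw [shE_single, psi_single, psi_single, map_sub, sh_single, sh_single, mul_assoc]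

/-- coordinates of `psi` -/
theorem psi_apply [Fintype X] (y : X × FreeGroup X →₀ K) (h : FreeGroup X) :
    A.psi y h = ∑ j : X, (y (j, h * (FreeGroup.of j)⁻¹) - A.ac (FreeGroup.of j) (y (j, h))) := by
  classical
  induction y using Finsupp.induction_linear with
  | zero => simp
  | add x y hx hy =>
    rw [map_add, Finsupp.add_apply, hx, hy, ← Finset.sum_add_distrib]
    refine Finset.sum_congr rfl fun j _ => ?_
    rw [Finsupp.add_apply, Finsupp.add_apply, map_add]
    abel
  | single p a =>
    obtain ⟨i, g⟩ := p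
    rw [psi_single, Finsupp.sub_apply, Finsupp.single_apply, Finsupp.single_apply,
      Finset.sum_sub_distrib]
    congr 1
    · rw [Finset.sum_eq_single i]
      · rw [Finsupp.single_apply]
        refine if_congr ?_ rfl rfl
        constructor
        · intro h1; rw [← h1]; simp
        · intro h1
          have := (Prod.ext_iff.1 h1).2
          simp only at this
          rw [this]; simp
      · intro j _ hj
        rw [Finsupp.single_apply, if_neg]
        intro h1
        exact hj (Prod.ext_iff.1 h1).1.symm
      · intro h1; exact absurd (Finset.mem_univ _) h1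
    · rw [Finset.sum_eq_single i]
      · rw [Finsupp.single_apply]
        by_cases h1 : g = h
        · rw [if_pos h1, if_pos (by rw [h1])]
        · rw [if_neg h1, if_neg (fun h2 => h1 (Prod.ext_iff.1 h2).2), map_zero]
      · intro j _ hj
        rw [Finsupp.single_apply, if_neg, map_zero]
        intro h1
        exact hj (Prod.ext_iff.1 h1).1.symm
      · intro h1; exact absurd (Finset.mem_univ _) h1

/-! ### middle exactness -/

section mid

variable [DecidableEq X]

/-- the relations among the translates of `L` with support in the ball of radius `m`, and their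
translates -/
def ballRel (m : ℕ) (L : Submodule R K) : Set (FreeGroup X →₀ K) :=
  {y | ∃ (h : FreeGroup X) (r : FreeGroup X →₀ K), (∀ g, r g ∈ L) ∧
    (∀ g, r g ≠ 0 → g.norm ≤ m) ∧ A.sumK r = 0 ∧ y = sh h r}

/-- the relations among the translates of `L` are generated by those in the ball of radius `m` -/
def RelBall (m : ℕ) (L : Submodule R K) : Prop :=
  ∀ x : FreeGroup X →₀ K, (∀ g, x g ∈ L) → A.sumK x = 0 →
    x ∈ AddSubgroup.closure (A.ballRel m L)

theorem RelBall.mono {m n : ℕ} (h : m ≤ n) {L : Submodule R K} (hL : A.RelBall m L) :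
    A.RelBall n L := by
  intro x h1 h2
  refine AddSubgroup.closure_mono ?_ (hL x h1 h2)
  rintro y ⟨k, r, h3, h4, h5, h6⟩
  exact ⟨k, r, h3, fun g hg => (h4 g hg).trans h, h5, h6⟩

/-- the image of `(+)_j F (x) K1 j` -/
def nul (M : Submodule R K) : AddSubgroup (FreeGroup X →₀ K) where
  carrier := {x | ∃ y : X × FreeGroup X →₀ K, (∀ p, y p ∈ A.K1 M p.1) ∧ A.psi y = x}
  add_mem' := by
    rintro _ _ ⟨y, hy, rfl⟩ ⟨y', hy', rfl⟩
    exact ⟨y + y', fun p => by rw [Finsupp.add_apply]; exact Submodule.add_mem _ (hy p) (hy' p),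
      map_add _ _ _⟩
  zero_mem' := ⟨0, fun p => by rw [Finsupp.zero_apply]; exact Submodule.zero_mem _, map_zero _⟩
  neg_mem' := by
    rintro _ ⟨y, hy, rfl⟩
    exact ⟨-y, fun p => by rw [Finsupp.neg_apply]; exact Submodule.neg_mem _ (hy p),
      map_neg _ _⟩

omit [DecidableEq X] in
theorem single_mem_nul {M : Submodule R K} {j : X} (h : FreeGroup X) {x : K}
    (hx : x ∈ A.K1 M j) :
    Finsupp.single (h * FreeGroup.of j) x - Finsupp.single h (A.ac (FreeGroup.of j) x) ∈
      A.nul M := by
  classical
  refine ⟨Finsupp.single (j, h) x, fun p => ?_, A.psi_single _ _⟩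
  rw [Finsupp.single_apply]
  split_ifs with hp
  · rw [← hp]; exact hx
  · exact Submodule.zero_mem _

omit [DecidableEq X] in
theorem sumK_nul {M : Submodule R K} {x : FreeGroup X →₀ K} (hx : x ∈ A.nul M) :
    A.sumK x = 0 := by
  obtain ⟨y, -, rfl⟩ := hx
  exact A.sumK_psi y

/-- a translate of an element of `L` can be moved along the tree -/
theorem move {m : ℕ} {L : Submodule R K} (w : List (X × Bool)) (hw : w.length ≤ m) {x : K}
    (hx : x ∈ L) (h : FreeGroup X) :
    Finsupp.single h (A.ac (FreeGroup.mk w) x) - Finsupp.single (h * FreeGroup.mk w) x ∈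
      A.nul (A.K0 m L) := by
  induction w generalizing h with
  | nil =>
    have h1 : FreeGroup.mk ([] : List (X × Bool)) = 1 := rfl
    rw [h1, A.ac_one, mul_one, sub_self]
    exact AddSubgroup.zero_mem _
  | cons s w ih =>
    rw [List.length_cons] at hw
    have hsplit : FreeGroup.mk (s :: w) = ltr s * FreeGroup.mk w := by
      rw [ltr, FreeGroup.mul_mk, List.singleton_append]
    have hx' : A.ac (FreeGroup.mk w) x ∈ A.K0 m L :=
      A.ac_mem_K0 (FreeGroup.norm_mk_le.trans (by omega)) hx
    have hx'' : A.ac (FreeGroup.mk (s :: w)) x ∈ A.K0 m L :=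
      A.ac_mem_K0 (FreeGroup.norm_mk_le.trans (by rw [List.length_cons]; omega)) hx
    have h1 := ih (by omega) (h * ltr s)
    have h2 : Finsupp.single h (A.ac (FreeGroup.mk (s :: w)) x) -
        Finsupp.single (h * ltr s) (A.ac (FreeGroup.mk w) x) ∈ A.nul (A.K0 m L) := by
      obtain ⟨j, b⟩ := s
      cases b with
      | true =>
        rw [ltr_true]
        have h3 : A.ac (FreeGroup.mk ((j, true) :: w)) x =
            A.ac (FreeGroup.of j) (A.ac (FreeGroup.mk w) x) := by
          rw [hsplit, ltr_true, A.ac_mul]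
        have h4 := A.single_mem_nul (M := A.K0 m L) (j := j) h (x := A.ac (FreeGroup.mk w) x)
          (A.mem_K1.2 ⟨hx', by rw [← h3]; exact hx''⟩)
        rw [h3]
        have h5 := AddSubgroup.neg_mem _ h4
        rwa [neg_sub] at h5
      | false =>
        rw [ltr_false]
        have h3 : A.ac (FreeGroup.of j) (A.ac (FreeGroup.mk ((j, false) :: w)) x) =
            A.ac (FreeGroup.mk w) x := by
          rw [hsplit, ltr_false, A.ac_mul, A.ac_ac_inv]
        have h4 := A.single_mem_nul (M := A.K0 m L) (j := j) (h * (FreeGroup.of j)⁻¹)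
          (x := A.ac (FreeGroup.mk ((j, false) :: w)) x)
          (A.mem_K1.2 ⟨hx'', by rw [h3]; exact hx'⟩)
        rw [h3, inv_mul_cancel_right] at h4
        exact h4
    have h3 := AddSubgroup.add_mem _ h2 h1
    rw [sub_add_sub_cancel] at h3
    rwa [hsplit, ← mul_assoc, ← hsplit]

theorem move' {m : ℕ} {L : Submodule R K} {g : FreeGroup X} (hg : g.norm ≤ m) {x : K}
    (hx : x ∈ L) (h : FreeGroup X) :
    Finsupp.single h (A.ac g x) - Finsupp.single (h * g) x ∈ A.nul (A.K0 m L) := by
  have := A.move g.toWord hg hx h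
  rwa [FreeGroup.mk_toWord] at this

/-- every element of `F (x) K0` is congruent to an element of `F (x) L` -/
theorem exists_red_single {m : ℕ} {L : Submodule R K} {x : K} (hx : x ∈ A.K0 m L)
    (h : FreeGroup X) : ∃ z : FreeGroup X →₀ K, (∀ g, z g ∈ L) ∧
      Finsupp.single h x - z ∈ A.nul (A.K0 m L) := by
  unfold K0 at hx
  induction hx using Submodule.iSup_induction' with
  | mem g x hx =>
    refine ⟨Finsupp.single (h * g.1) (A.ac (g.1)⁻¹ x), fun k => ?_, ?_⟩
    · rw [Finsupp.single_apply]
      split_ifs
      · exact hx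
      · exact L.zero_mem
    · have := A.move' g.2 (x := A.ac (g.1)⁻¹ x) hx h
      rwa [A.ac_ac_inv] at this
  | zero => exact ⟨0, fun k => by simp, by simp⟩
  | add x y _ _ hx hy =>
    obtain ⟨z, h1, h2⟩ := hx
    obtain ⟨z', h1', h2'⟩ := hy
    refine ⟨z + z', fun k => by rw [Finsupp.add_apply]; exact L.add_mem (h1 k) (h1' k), ?_⟩
    have := AddSubgroup.add_mem _ h2 h2'
    rw [Finsupp.single_add]
    convert this using 1
    abel

theorem exists_red {m : ℕ} {L : Submodule R K} (x : FreeGroup X →₀ K)
    (hx : ∀ g, x g ∈ A.K0 m L) : ∃ z : FreeGroup X →₀ K, (∀ g, z g ∈ L) ∧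
      x - z ∈ A.nul (A.K0 m L) := by
  classical
  induction x using Finsupp.induction with
  | zero => exact ⟨0, fun k => by simp, by simp⟩
  | single_add g b f hg hb ih =>
    have h1 : b ∈ A.K0 m L := by
      have := hx g
      rw [Finsupp.add_apply, Finsupp.single_eq_same, Finsupp.notMem_support_iff.1 hg,
        add_zero] at this
      exact this
    have h2 : ∀ k, f k ∈ A.K0 m L := by
      intro k
      by_cases hk : k = g
      · subst hk
        rw [Finsupp.notMem_support_iff.1 hg]
        exact Submodule.zero_mem _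
      · have := hx k
        rw [Finsupp.add_apply, Finsupp.single_apply, if_neg (Ne.symm hk), zero_add] at this
        exact this
    obtain ⟨z, h3, h4⟩ := A.exists_red_single h1 g
    obtain ⟨z', h3', h4'⟩ := ih h2
    refine ⟨z + z', fun k => by rw [Finsupp.add_apply]; exact L.add_mem (h3 k) (h3' k), ?_⟩
    have := AddSubgroup.add_mem _ h4 h4'
    convert this using 1
    abel

/-- relations in the ball die -/
theorem ballRel_nul {m : ℕ} {L : Submodule R K} {y : FreeGroup X →₀ K}
    (hy : y ∈ A.ballRel m L) : y ∈ A.nul (A.K0 m L) := by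
  obtain ⟨h, r, h1, h2, h3, rfl⟩ := hy
  have key : ∀ r : FreeGroup X →₀ K, (∀ g, r g ∈ L) → (∀ g, r g ≠ 0 → g.norm ≤ m) →
      Finsupp.single h (A.sumK r) - sh h r ∈ A.nul (A.K0 m L) := by
    intro r
    induction r using Finsupp.induction with
    | zero => intro _ _; simp
    | single_add g b f hg hb ih =>
      intro h1 h2
      have hfg := Finsupp.notMem_support_iff.1 hg
      have h4 : b ∈ L := by
        have := h1 g
        rw [Finsupp.add_apply, Finsupp.single_eq_same, hfg, add_zero] at this
        exact this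
      have h5 : g.norm ≤ m := by
        refine h2 g ?_
        rw [Finsupp.add_apply, Finsupp.single_eq_same, hfg, add_zero]
        exact hb
      have hoff : ∀ k, k ≠ g → (Finsupp.single g b + f) k = f k := by
        intro k hk
        rw [Finsupp.add_apply, Finsupp.single_apply, if_neg (Ne.symm hk), zero_add]
      have h6 : ∀ k, f k ∈ L := by
        intro k
        by_cases hk : k = g
        · subst hk; rw [hfg]; exact L.zero_mem
        · rw [← hoff k hk]; exact h1 k
      have h7 : ∀ k, f k ≠ 0 → k.norm ≤ m := by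
        intro k hk
        by_cases hk' : k = g
        · subst hk'; exact absurd hfg hk
        · rw [← hoff k hk'] at hk; exact h2 k hk
      have h8 := AddSubgroup.add_mem _ (A.move' h5 h4 h) (ih h6 h7)
      rw [map_add, map_add, sumK_single, sh_single, Finsupp.single_add]
      convert h8 using 1
      abel
  have h4 := key r h1 h2
  rw [h3, Finsupp.single_zero, zero_sub] at h4
  exact neg_mem_iff.1 h4

/-- **middle exactness**: if the relations among the translates of `L` are generated in the ball of
radius `m`, then every relation among the translates of `K0` is `psi` of a family in `K1`. -/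
theorem exact_mid {m : ℕ} {L : Submodule R K} (hL : A.RelBall m L) (x : FreeGroup X →₀ K)
    (hx : ∀ g, x g ∈ A.K0 m L) (h0 : A.sumK x = 0) :
    ∃ y : X × FreeGroup X →₀ K, (∀ p, y p ∈ A.K1 (A.K0 m L) p.1) ∧ A.psi y = x := by
  obtain ⟨z, h1, h2⟩ := A.exists_red x hx
  have h3 : A.sumK z = 0 := by
    have := A.sumK_nul h2
    rw [map_sub, h0, zero_sub, neg_eq_zero] at this
    exact this
  have h4 : z ∈ A.nul (A.K0 m L) := by
    have h5 : AddSubgroup.closure (A.ballRel m L) ≤ A.nul (A.K0 m L) := by
      rw [AddSubgroup.closure_le]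
      intro y hy
      exact A.ballRel_nul hy
    exact h5 (hL z h1 h3)
  have h5 := AddSubgroup.add_mem _ h2 h4
  rw [sub_add_cancel] at h5
  exact h5

end mid

/-! ### injectivity -/

section inj

variable [DecidableEq X]

/-- the length of the far end of an edge -/
def top (p : X × FreeGroup X) : ℕ := max p.2.norm (p.2 * FreeGroup.of p.1).norm

theorem psi_inj_aux (y : X × FreeGroup X →₀ K) (v : FreeGroup X)
    (hv : ∀ p : X × FreeGroup X, (p.2 = v ∨ p.2 * FreeGroup.of p.1 = v) → y p ≠ 0 →
      top p ≤ v.norm) (p : X × FreeGroup X) (hp : p.2 = v ∨ p.2 * FreeGroup.of p.1 = v)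
    (hpv : top p ≤ v.norm) (h0 : A.psi y v = 0) : y p = 0 := by
  classical
  -- the value of `psi y` at `v` only sees `y p`
  have hedge : ∀ q : X × FreeGroup X, (q.2 = v ∨ q.2 * FreeGroup.of q.1 = v) → q ≠ p → y q = 0 := by
    intro q hq hqp
    by_contra hne
    have hq' := hv q hq hne
    apply hqp
    -- both edges are the one towards the origin
    have key : ∀ p : X × FreeGroup X, (p.2 = v ∨ p.2 * FreeGroup.of p.1 = v) → top p ≤ v.norm →
        ∃ s : X × Bool, (v * ltr s).norm ≤ v.norm ∧ p = (s.1, if s.2 then v else v * ltr s) := by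
      rintro ⟨i, g⟩ hi ht
      rcases hi with hi | hi
      · simp only at hi
        subst hi
        exact ⟨(i, true), (le_max_right _ _).trans ht, by simp⟩
      · simp only at hi
        have hg : v * ltr (i, false) = g := by
          rw [ltr_false, ← hi, mul_inv_cancel_right]
        exact ⟨(i, false), by rw [hg]; exact (le_max_left _ _).trans ht, by simp [hg]⟩
    obtain ⟨s, hs1, hs2⟩ := key p hp hpv
    obtain ⟨s', hs1', hs2'⟩ := key q hq hq'
    have := ltr_unique hs1 hs1'
    rw [hs2, hs2', this]
  -- the linear form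
  have hform : ∀ z : X × FreeGroup X →₀ K, (∀ q : X × FreeGroup X,
      (q.2 = v ∨ q.2 * FreeGroup.of q.1 = v) → q = p ∨ z q = 0) →
      A.psi z v = A.psi (Finsupp.single p (z p)) v := by
    intro z
    induction z using Finsupp.induction with
    | zero => intro _; simp
    | single_add q b f hq hb ih =>
      intro hz
      have hfq := Finsupp.notMem_support_iff.1 hq
      have hoff : ∀ k, k ≠ q → (Finsupp.single q b + f) k = f k := by
        intro k hk
        rw [Finsupp.add_apply, Finsupp.single_apply, if_neg (Ne.symm hk), zero_add]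
      have h1 : ∀ k : X × FreeGroup X, (k.2 = v ∨ k.2 * FreeGroup.of k.1 = v) →
          k = p ∨ f k = 0 := by
        intro k hk
        by_cases hk' : k = q
        · subst hk'; right; exact hfq
        · rw [← hoff k hk']; exact hz k hk
      rw [map_add, Finsupp.add_apply, ih h1]
      by_cases hqp : q = p
      · subst hqp
        rw [Finsupp.add_apply, Finsupp.single_eq_same, hfq, Finsupp.single_zero, map_zero,
          Finsupp.zero_apply, add_zero, add_zero]
      · rw [hoff p (Ne.symm hqp)]
        have h2 : A.psi (Finsupp.single q b) v = 0 := by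
          have h3 : ¬ (q.2 = v ∨ q.2 * FreeGroup.of q.1 = v) := by
            intro h4
            rcases hz q h4 with h5 | h5
            · exact hqp h5
            · rw [Finsupp.add_apply, Finsupp.single_eq_same, hfq, add_zero] at h5
              exact hb h5
          push Not at h3
          rw [psi_single, Finsupp.sub_apply, Finsupp.single_apply, if_neg h3.2,
            Finsupp.single_apply, if_neg h3.1, sub_zero]
        rw [h2, zero_add]
  rw [hform y (fun q hq => by
    by_cases h : q = p
    · exact Or.inl h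
    · exact Or.inr (hedge q hq h)), psi_single, Finsupp.sub_apply, Finsupp.single_apply,
    Finsupp.single_apply] at h0
  rcases hp with hp | hp
  · have h1 : ¬ (p.2 * FreeGroup.of p.1 = v) := by
      intro h2
      rw [← hp] at h2
      exact FreeGroup.of_ne_one p.1 (mul_eq_left.1 h2)
    rw [if_neg h1, if_pos hp, zero_sub, neg_eq_zero] at h0
    exact (A.ac (FreeGroup.of p.1)).map_eq_zero_iff.1 h0
  · have h1 : ¬ (p.2 = v) := by
      intro h2
      rw [← h2] at hp
      exact FreeGroup.of_ne_one p.1 (mul_eq_left.1 hp)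
    rw [if_pos hp, if_neg h1, sub_zero] at h0
    exact h0

/-- **injectivity** of `psi` -/
theorem psi_inj (y : X × FreeGroup X →₀ K) (h0 : A.psi y = 0) : y = 0 := by
  classical
  by_contra hne
  obtain ⟨p, hp, hmax⟩ := Finset.exists_max_image y.support (fun p => top p)
    (Finsupp.support_nonempty_iff.2 hne)
  have hv : ∃ v : FreeGroup X, (p.2 = v ∨ p.2 * FreeGroup.of p.1 = v) ∧ top p = v.norm := by
    rcases le_total p.2.norm (p.2 * FreeGroup.of p.1).norm with h | h
    · exact ⟨_, Or.inr rfl, max_eq_right h⟩
    · exact ⟨_, Or.inl rfl, max_eq_left h⟩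
  obtain ⟨v, hv1, hv2⟩ := hv
  have := A.psi_inj_aux y v (fun q _ hq => by
    rw [← hv2]; exact hmax q (Finsupp.mem_support_iff.2 hq)) p hv1 hv2.le
    (by rw [h0, Finsupp.zero_apply])
  exact Finsupp.mem_support_iff.1 hp this

end inj

/-! ### more on formal sums, finite generation -/

section more

/-- induction over families with values in a submodule -/
theorem ind_vals {I : Type*} {L : I → Submodule R K} {P : (I →₀ K) → Prop} (h0 : P 0)
    (h1 : ∀ g, ∀ b ∈ L g, P (Finsupp.single g b)) (h2 : ∀ x y, P x → P y → P (x + y))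
    (x : I →₀ K) (hx : ∀ g, x g ∈ L g) : P x := by
  classical
  induction x using Finsupp.induction with
  | zero => exact h0
  | single_add g b f hg hb ih =>
    have hfg := Finsupp.notMem_support_iff.1 hg
    refine h2 _ _ (h1 g b ?_) (ih fun k => ?_)
    · have := hx g
      rwa [Finsupp.add_apply, Finsupp.single_eq_same, hfg, add_zero] at this
    · by_cases hk : k = g
      · subst hk; rw [hfg]; exact (L k).zero_mem
      · have := hx k
        rwa [Finsupp.add_apply, Finsupp.single_apply, if_neg (Ne.symm hk), zero_add] at this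

theorem sh_apply (h : FreeGroup X) (x : FreeGroup X →₀ K) (g : FreeGroup X) :
    sh h x g = x (h⁻¹ * g) := by
  have h1 := Finsupp.mapDomain_apply (mul_right_injective h) x (h⁻¹ * g)
  simp only [mul_inv_cancel_left] at h1
  exact h1

variable [DecidableEq X]

theorem finite_ball [Finite X] (m : ℕ) : Finite {g : FreeGroup X // g.norm ≤ m} := by
  have h1 : Finite {l : List (X × Bool) // l.length ≤ m} := by
    have := List.finite_length_le (X × Bool) m
    exact this.to_subtype
  exact Finite.of_injective
    (fun g : {g : FreeGroup X // g.norm ≤ m} =>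
      (⟨g.1.toWord, g.2⟩ : {l : List (X × Bool) // l.length ≤ m}))
    (fun g g' h => Subtype.ext (FreeGroup.toWord_injective (Subtype.ext_iff.1 h)))

theorem K0_fg [Finite X] (m : ℕ) {L : Submodule R K} (h : L.FG) : (A.K0 m L).FG := by
  have := finite_ball (X := X) m
  exact Submodule.fg_iSup _ fun g => A.tw_fg g.1 h

omit [DecidableEq X] in
theorem K1_fg [IsNoetherianRing R] {M : Submodule R K} (h : M.FG) (j : X) : (A.K1 M j).FG := by
  have h1 : IsNoetherian R M := isNoetherian_of_fg_of_noetherian M h
  exact Submodule.FG.of_le h inf_le_left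

/-- every finitely generated `R`-submodule of `K` is contained in a lattice -/
theorem fg_le_K0 {L : Submodule R K} (hL : ⨆ g : FreeGroup X, A.tw g L = ⊤) {N : Submodule R K}
    (hN : N.FG) : ∃ m0, ∀ m ≥ m0, N ≤ A.K0 m L := by
  classical
  obtain ⟨s, hs⟩ := hN
  have hdir : Monotone fun m => A.K0 m L := fun m n h => A.K0_mono h le_rfl
  have htop : ⨆ m, A.K0 m L = ⊤ := by
    rw [← top_le_iff, ← hL]
    refine iSup_le fun g => ?_
    exact (A.tw_le_K0 (le_refl g.norm) L).trans (le_iSup (fun m => A.K0 m L) g.norm)
  have h1 : ∀ x : K, ∃ m, x ∈ A.K0 m L := by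
    intro x
    have : x ∈ ⨆ m, A.K0 m L := by rw [htop]; trivial
    exact (Submodule.mem_iSup_of_directed _ hdir.directed_le).1 this
  choose f hf using h1
  refine ⟨s.sup f, fun m hm => ?_⟩
  rw [← hs, Submodule.span_le]
  intro x hx
  exact hdir ((Finset.le_sup hx).trans hm) (hf x)

end more

end SemiF

/-! ### skew group rings over a free group -/

/-- `S = R * F` with coefficients on the right: `s = sum t(g) * iota (r_g)`, `F` the free group
on `X` -/
structure SkF (X R S : Type*) [Ring R] [Ring S] where
  iota : R →+* S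
  t : FreeGroup X →* Sˣ
  sig : FreeGroup X →* RingAut R
  comm : ∀ g r, ((t g : Sˣ) : S) * iota r = iota (sig g r) * ((t g : Sˣ) : S)
  co : S ≃+ (FreeGroup X →₀ R)
  co_symm : ∀ g r, co.symm (Finsupp.single g r) = ((t g : Sˣ) : S) * iota r

namespace SkF

variable {X R S : Type*} [Ring R] [Ring S] (E : SkF X R S)

theorem iota_t (g : FreeGroup X) (r : R) :
    E.iota r * ((E.t g : Sˣ) : S) = ((E.t g : Sˣ) : S) * E.iota (E.sig g⁻¹ r) := by
  rw [E.comm, ← RingAut.mul_apply, ← map_mul, mul_inv_cancel, map_one, RingAut.one_apply]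

theorem co_single (g : FreeGroup X) (r : R) :
    E.co (((E.t g : Sˣ) : S) * E.iota r) = Finsupp.single g r := by
  rw [← E.co_symm, AddEquiv.apply_symm_apply]

/-- induction over the elements of `S` -/
theorem ind {P : S → Prop} (h1 : ∀ g r, P (((E.t g : Sˣ) : S) * E.iota r))
    (h2 : ∀ x y, P x → P y → P (x + y)) (s : S) : P s := by
  obtain ⟨f, rfl⟩ := E.co.symm.surjective s
  induction f using Finsupp.induction_linear with
  | zero =>
    have := h1 1 0
    rwa [map_zero, mul_zero, ← map_zero E.co.symm] at this
  | add f g hf hg => rw [map_add]; exact h2 _ _ hf hg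
  | single g r => rw [E.co_symm]; exact h1 g r

theorem co_iota_mul (r : R) (s : S) (g : FreeGroup X) :
    E.co (E.iota r * s) g = E.sig g⁻¹ r * E.co s g := by
  classical
  refine E.ind (P := fun s => E.co (E.iota r * s) g = E.sig g⁻¹ r * E.co s g) ?_ ?_ s
  · intro h a
    rw [← mul_assoc, iota_t, mul_assoc, ← map_mul, co_single, co_single, Finsupp.single_apply,
      Finsupp.single_apply]
    split_ifs with hh
    · rw [hh]
    · rw [mul_zero]
  · intro x y hx hy
    rw [mul_add, map_add, Finsupp.add_apply, hx, hy, map_add, Finsupp.add_apply, mul_add]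

theorem co_mul_iota (r : R) (s : S) (g : FreeGroup X) :
    E.co (s * E.iota r) g = E.co s g * r := by
  classical
  refine E.ind (P := fun s => E.co (s * E.iota r) g = E.co s g * r) ?_ ?_ s
  · intro h a
    rw [mul_assoc, ← map_mul, co_single, co_single, Finsupp.single_apply, Finsupp.single_apply]
    split_ifs
    · rfl
    · rw [zero_mul]
  · intro x y hx hy
    rw [add_mul, map_add, Finsupp.add_apply, hx, hy, map_add, Finsupp.add_apply, add_mul]

theorem co_t_mul (h : FreeGroup X) (s : S) (g : FreeGroup X) :
    E.co (((E.t h : Sˣ) : S) * s) g = E.co s (h⁻¹ * g) := by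
  classical
  refine E.ind (P := fun s => E.co (((E.t h : Sˣ) : S) * s) g = E.co s (h⁻¹ * g)) ?_ ?_ s
  · intro k a
    rw [← mul_assoc, ← Units.val_mul, ← map_mul, co_single, co_single, Finsupp.single_apply,
      Finsupp.single_apply]
    refine if_congr ?_ rfl rfl
    rw [eq_inv_mul_iff_mul_eq]
  · intro x y hx hy
    rw [mul_add, map_add, Finsupp.add_apply, hx, hy, map_add, Finsupp.add_apply]

theorem ext_co {s t : S} (h : ∀ g, E.co s g = E.co t g) : s = t :=
  E.co.injective (Finsupp.ext h)

variable {K : Type*} [AddCommGroup K] [Module R K] [Module S K]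

/-- an `S`-module is an `R`-module with a semilinear action of the free group -/
def semi (hc : ∀ (r : R) (x : K), r • x = E.iota r • x) : SemiF X R K where
  sig := E.sig
  ac g := DistribMulAction.toAddEquiv K (E.t g)
  ac_one x := by
    show ((E.t 1 : Sˣ) : S) • x = x
    rw [map_one, Units.val_one, one_smul]
  ac_mul g h x := by
    show ((E.t (g * h) : Sˣ) : S) • x = ((E.t g : Sˣ) : S) • (((E.t h : Sˣ) : S) • x)
    rw [map_mul, Units.val_mul, mul_smul]
  ac_smul g r x := by
    rw [hc, hc]
    show ((E.t g : Sˣ) : S) • (E.iota r • x) = E.iota (E.sig g r) • (((E.t g : Sˣ) : S) • x)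
    rw [← mul_smul, E.comm, mul_smul]

theorem semi_ac (hc : ∀ (r : R) (x : K), r • x = E.iota r • x) (g : FreeGroup X) (x : K) :
    (E.semi hc).ac g x = ((E.t g : Sˣ) : S) • x := rfl

/-- the translates of `L` generate `K` if `L` generates `K` over `S` -/
theorem iSup_tw (hc : ∀ (r : R) (x : K), r • x = E.iota r • x) {L : Submodule R K}
    (hgen : Submodule.span S (L : Set K) = ⊤) : ⨆ g : FreeGroup X, (E.semi hc).tw g L = ⊤ := by
  rw [eq_top_iff]
  rintro x -
  have hx : x ∈ Submodule.span S (L : Set K) := by rw [hgen]; trivial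
  have key : ∀ s : S, s • x ∈ ⨆ g : FreeGroup X, (E.semi hc).tw g L := by
    induction hx using Submodule.span_induction with
    | mem y hy =>
      intro s
      refine E.ind (P := fun s => s • y ∈ ⨆ g : FreeGroup X, (E.semi hc).tw g L) ?_ ?_ s
      · intro g r
        rw [mul_smul, ← hc]
        exact le_iSup (fun g => (E.semi hc).tw g L) g
          ((E.semi hc).ac_mem_tw (L.smul_mem r hy))
      · intro a b ha hb
        rw [add_smul]; exact Submodule.add_mem _ ha hb
    | zero => intro s; rw [smul_zero]; exact Submodule.zero_mem _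
    | add y z _ _ h1 h2 => intro s; rw [smul_add]; exact Submodule.add_mem _ (h1 s) (h2 s)
    | smul c y _ h1 => intro s; rw [← mul_smul]; exact h1 _
  have := key 1
  rwa [one_smul] at this

/-! ### finite presentation gives relations in a ball -/

section fp

variable {I : Type*} [Fintype I] (k : I → K)

/-- the formal sum of `s_1 k_1 + .. + s_a k_a` -/
noncomputable def Th : (I → S) →+ (FreeGroup X →₀ K) :=
  ∑ i, (Finsupp.mapRange.addMonoidHom ((smulAddHom R K).flip (k i))).comp
    (E.co.toAddMonoidHom.comp (Pi.evalAddMonoidHom (fun _ => S) i))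

omit [Module S K] in
theorem Th_apply (s : I → S) (g : FreeGroup X) :
    E.Th k s g = ∑ i, E.co (s i) g • k i := by
  unfold Th
  rw [AddMonoidHom.finsetSum_apply, Finsupp.finsetSum_apply]
  rfl

omit [Module S K] in
theorem Th_mem {L : Submodule R K} (hk : ∀ i, k i ∈ L) (s : I → S) (g : FreeGroup X) :
    E.Th k s g ∈ L := by
  rw [Th_apply]
  exact Submodule.sum_mem _ fun i _ => L.smul_mem _ (hk i)

omit [Module S K] in
theorem Th_t (h : FreeGroup X) (s : I → S) :
    E.Th k (((E.t h : Sˣ) : S) • s) = SemiF.sh h (E.Th k s) := by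
  ext g
  rw [SemiF.sh_apply, Th_apply, Th_apply]
  refine Finset.sum_congr rfl fun i _ => ?_
  rw [Pi.smul_apply, smul_eq_mul, co_t_mul]

theorem sumK_Th (hc : ∀ (r : R) (x : K), r • x = E.iota r • x) (s : I → S) :
    (E.semi hc).sumK (E.Th k s) = ∑ i, s i • k i := by
  classical
  unfold Th
  rw [AddMonoidHom.finsetSum_apply, map_sum]
  refine Finset.sum_congr rfl fun i _ => ?_
  show (E.semi hc).sumK (Finsupp.mapRange.addMonoidHom ((smulAddHom R K).flip (k i))
    (E.co (s i))) = s i • k i
  refine E.ind (P := fun x => (E.semi hc).sumK (Finsupp.mapRange.addMonoidHom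
    ((smulAddHom R K).flip (k i)) (E.co x)) = x • k i) ?_ ?_ (s i)
  · intro g r
    rw [co_single, Finsupp.mapRange.addMonoidHom_apply, Finsupp.mapRange_single,
      SemiF.sumK_single, semi_ac, mul_smul, ← hc]
    rfl
  · intro x y hx hy
    rw [map_add, map_add, map_add, hx, hy, add_smul]

/-- **finitely presented modules have lattices** -/
theorem relBall [DecidableEq X] [Module.FinitePresentation S K]
    (hc : ∀ (r : R) (x : K), r • x = E.iota r • x) {L : Submodule R K} (hL : L.FG)
    (hgen : Submodule.span S (L : Set K) = ⊤) :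
    ∃ m0, ∀ m ≥ m0, (E.semi hc).RelBall m L := by
  classical
  obtain ⟨a, k, hk⟩ := Submodule.fg_iff_exists_fin_generating_family.1 hL
  have hkL : ∀ i, k i ∈ L := fun i => by
    rw [← hk]; exact Submodule.subset_span ⟨i, rfl⟩
  have hpi : Function.Surjective (Fintype.linearCombination S k) := by
    rw [← LinearMap.range_eq_top, Fintype.range_linearCombination, eq_top_iff, ← hgen,
      Submodule.span_le]
    intro x hx
    have hx' : x ∈ Submodule.span R (Set.range k) := by rw [hk]; exact hx
    show x ∈ Submodule.span S (Set.range k)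
    induction hx' using Submodule.span_induction with
    | mem y hy => exact Submodule.subset_span hy
    | zero => exact Submodule.zero_mem _
    | add y z h1 h2 h3 h4 =>
      exact Submodule.add_mem _ (h3 (by rw [← hk]; exact h1)) (h4 (by rw [← hk]; exact h2))
    | smul r y h1 h2 => rw [hc]; exact Submodule.smul_mem _ _ (h2 (by rw [← hk]; exact h1))
  obtain ⟨T, hT⟩ := Module.FinitePresentation.fg_ker _ hpi
  refine ⟨T.sup fun ρ => Finset.univ.sup fun i => (E.co (ρ i)).support.sup FreeGroup.norm,
    fun m hm x hx h0 => ?_⟩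
  -- the generators of the relations lie in the ball
  have hball : ∀ ρ ∈ T, ∀ i g, E.co (ρ i) g ≠ 0 → g.norm ≤ m := by
    intro ρ hρ i g hg
    refine le_trans ?_ hm
    refine le_trans ?_ (Finset.le_sup (f := fun ρ : Fin a → S => Finset.univ.sup fun i =>
      (E.co (ρ i)).support.sup FreeGroup.norm) hρ)
    refine le_trans ?_ (Finset.le_sup (f := fun i => (E.co (ρ i)).support.sup FreeGroup.norm)
      (Finset.mem_univ i))
    exact Finset.le_sup (f := FreeGroup.norm) (Finsupp.mem_support_iff.2 hg)
  -- all relations are generated in the ball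
  have key : ∀ ρ ∈ LinearMap.ker (Fintype.linearCombination S k), ∀ s : S,
      E.Th k (s • ρ) ∈ AddSubgroup.closure ((E.semi hc).ballRel m L) := by
    intro ρ hρ
    rw [← hT] at hρ
    induction hρ using Submodule.span_induction with
    | mem ρ hρ =>
      intro s
      refine E.ind (P := fun s => E.Th k (s • ρ) ∈
        AddSubgroup.closure ((E.semi hc).ballRel m L)) ?_ ?_ s
      · intro g r
        refine AddSubgroup.subset_closure ⟨g, E.Th k (E.iota r • ρ), E.Th_mem k hkL _, ?_, ?_, ?_⟩
        · intro h hne
          rw [Th_apply] at hne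
          obtain ⟨i, -, hi⟩ := Finset.exists_ne_zero_of_sum_ne_zero hne
          refine hball ρ hρ i h fun h3 => hi ?_
          rw [Pi.smul_apply, smul_eq_mul, co_iota_mul, h3, mul_zero, zero_smul]
        · rw [sumK_Th]
          have h3 : ρ ∈ LinearMap.ker (Fintype.linearCombination S k) := by
            rw [← hT]; exact Submodule.subset_span hρ
          rw [LinearMap.mem_ker, Fintype.linearCombination_apply] at h3
          calc ∑ i, (E.iota r • ρ) i • k i = E.iota r • ∑ i, ρ i • k i := by
                rw [Finset.smul_sum]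
                refine Finset.sum_congr rfl fun i _ => ?_
                rw [Pi.smul_apply, smul_eq_mul, mul_smul]
            _ = 0 := by rw [h3, smul_zero]
        · rw [mul_smul, Th_t]
      · intro s s' h1 h2
        rw [add_smul, map_add]
        exact AddSubgroup.add_mem _ h1 h2
    | zero => intro s; rw [smul_zero, map_zero]; exact AddSubgroup.zero_mem _
    | add y z _ _ h1 h2 =>
      intro s; rw [smul_add, map_add]; exact AddSubgroup.add_mem _ (h1 s) (h2 s)
    | smul c y _ h1 => intro s; rw [← mul_smul]; exact h1 _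
  -- `Th` maps onto the families in `L`
  have hsurj : ∃ s, E.Th k s = x := by
    refine SemiF.ind_vals (L := fun _ => L) (P := fun x => ∃ s, E.Th k s = x) ⟨0, map_zero _⟩ ?_ ?_ x hx
    · intro g b hb
      rw [← hk] at hb
      obtain ⟨c, hc'⟩ := (Submodule.mem_span_range_iff_exists_fun R).1 hb
      refine ⟨fun i => ((E.t g : Sˣ) : S) * E.iota (c i), ?_⟩
      ext h
      rw [Th_apply]
      by_cases hh : g = h
      · subst hh
        rw [Finsupp.single_eq_same, ← hc']
        refine Finset.sum_congr rfl fun i _ => ?_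
        rw [co_single, Finsupp.single_eq_same]
      · rw [Finsupp.single_apply, if_neg hh]
        refine Finset.sum_eq_zero fun i _ => ?_
        rw [co_single, Finsupp.single_apply, if_neg hh, zero_smul]
    · rintro x y ⟨s, rfl⟩ ⟨s', rfl⟩
      exact ⟨s + s', map_add _ _ _⟩
  obtain ⟨s, rfl⟩ := hsurj
  have h1 := key s (by
    rw [LinearMap.mem_ker, Fintype.linearCombination_apply, ← E.sumK_Th k hc, h0]) 1
  rwa [one_smul] at h1

end fp

end SkF

end Pool.Agent.UP
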