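import Mathlib

/-!
# Ring-theoretic facts in matrix form

All matrices act on rows (row vector times matrix); columns are vectors over the opposite ring.
-/

namespace Pool.Agent.UP

universe u

section

variable (R : Type u) [Ring R]

/-- the identities of a graded complex with an idempotent: `e` the idempotent, `d` of degree `-1` -/
structure IsCx {R : Type u} [Ring R] {K : Type} [Fintype K] (deg : K → ℤ) (e d : Matrix K K R) :
    Prop where
  e_deg : ∀ i j, e i j ≠ 0 → deg i = deg j
  d_deg : ∀ i j, d i j ≠ 0 → deg i = deg j + 1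
  ee : e * e = e
  ed : e * d = d
  de : d * e = d
  dd : d * d = 0

/-- rows are exact in degree `j` -/
def RowEx {R : Type u} [Ring R] {K : Type} [Fintype K] (deg : K → ℤ) (e d : Matrix K K R)
    (j : ℤ) : Prop :=
  ∀ x : Matrix Unit K R, (∀ k, x () k ≠ 0 → deg k = j) → x * e = x → x * d = 0 →
    ∃ x' : Matrix Unit K R, x = x' * d

/-- columns are exact in degree `j` -/
def ColEx {R : Type u} [Ring R] {K : Type} [Fintype K] (deg : K → ℤ) (e d : Matrix K K R)
    (j : ℤ) : Prop :=
  ∀ y : Matrix K Unit R, (∀ k, y k () ≠ 0 → deg k = j) → e * y = y → d * y = 0 →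
    ∃ z : Matrix K Unit R, y = d * z

/-- `(C, p, e', δ, f)` is a finite complex of projective modules attached in degree `- i₀` to the
complex `(K, deg, e, d)`; its rows resolve the submodule of the homology in degree `- i₀` generated
by the rows of `f` with `p = 0` -/
structure IsKill {R : Type u} [Ring R] {K C : Type} [Fintype K] [Fintype C] (deg : K → ℤ)
    (e d : Matrix K K R) (i₀ : ℕ) (p : C → ℕ) (e' δ : Matrix C C R) (f : Matrix C K R) :
    Prop where
  e_deg : ∀ i j, e' i j ≠ 0 → p i = p j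
  δ_deg : ∀ i j, δ i j ≠ 0 → p i = p j + 1
  f_deg : ∀ i k, f i k ≠ 0 → deg k = -(i₀ : ℤ) + p i
  ee : e' * e' = e'
  eδ : e' * δ = δ
  δe : δ * e' = δ
  δδ : δ * δ = 0
  ef : e' * f = f
  fe : f * e = f
  δf : δ * f + f * d = 0
  rowex : ∀ (l : ℕ) (u : Matrix Unit C R), (∀ i, u () i ≠ 0 → p i = l) →
    u * e' = u → u * δ = 0 → (∃ x : Matrix Unit K R, u * f = x * d) →
    ∃ u' : Matrix Unit C R, u = u' * δ

/-- columns of the attached complex are exact in position `l` -/
def ColExN {R : Type u} [Ring R] {C : Type} [Fintype C] (p : C → ℕ) (e' δ : Matrix C C R)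
    (l : ℕ) : Prop :=
  ∀ y : Matrix C Unit R, (∀ i, y i () ≠ 0 → p i = l) → e' * y = y → δ * y = 0 →
    ∃ z : Matrix C Unit R, y = δ * z

/-- the Auslander condition in matrix form -/
def AusM : Prop :=
  ∀ (K C : Type) [Fintype K] [DecidableEq K] [Fintype C] [DecidableEq C] (deg : K → ℤ)
    (e d : Matrix K K R) (i₀ : ℕ) (p : C → ℕ) (e' δ : Matrix C C R) (f : Matrix C K R),
    IsCx deg e d → (∀ j : ℤ, j < i₀ → ColEx deg e d j) →
    (∀ j : ℤ, -(i₀ : ℤ) < j → RowEx deg e d j) → IsKill deg e d i₀ p e' δ f →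
    ∀ l : ℕ, l < 2 * i₀ → ColExN p e' δ l

/-- finite global dimension in matrix form -/
def EndM (g : ℕ) : Prop :=
  ∀ (K : Type) [Fintype K] [DecidableEq K] (deg : K → ℤ) (e d : Matrix K K R) (i₀ : ℤ),
    IsCx deg e d → (∀ j : ℤ, j < i₀ → ColEx deg e d j) →
    ∀ j : ℤ, (g : ℤ) < i₀ - j → RowEx deg e d j

/-- the rows of `ζ` generate the left kernel of `D` -/
def GenR {R : Type u} [Ring R] {n J K : Type} [Fintype n] [Fintype J] (ζ : Matrix n J R)
    (D : Matrix J K R) : Prop :=
  ζ * D = 0 ∧ ∀ x : Matrix Unit J R, x * D = 0 → ∃ κ : Matrix Unit n R, x = κ * ζ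

/-- the row space of `D` has a resolution of length `≤ n` by finitely generated free modules and,
at the end, a finitely generated projective module -/
def PDR {R : Type u} [Ring R] : ℕ → ∀ {J K : Type} [Fintype J] [Fintype K], Matrix J K R → Prop
  | 0, J, _, _, _, D => ∃ P : Matrix J J R, P * D = D ∧
      ∀ κ : Matrix Unit J R, κ * D = 0 → κ * P = 0
  | n + 1, J, _, _, _, D => ∃ (c : ℕ) (ζ : Matrix (Fin c) J R), GenR ζ D ∧ PDR n ζ

/-- all row spaces have finite resolutions -/
def PDT : Prop :=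
  ∀ (J K : Type) [Fintype J] [Fintype K] (D : Matrix J K R), ∃ n, PDR n D

/-- coherence -/
def CohT : Prop :=
  ∀ (J K : Type) [Fintype J] [Fintype K] (D : Matrix J K R),
    ∃ (c : ℕ) (ζ : Matrix (Fin c) J R), GenR ζ D

/-- all the facts -/
structure Facts (g : ℕ) : Prop where
  coh : CohT R
  pd : PDT R
  aus : AusM R
  fin : EndM R g

end

end Pool.Agent.UP
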