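import Mathlib
import Pool.Agent.Lib.UP.Defs
import Pool.Agent.Lib.UP.TrDefs
import Pool.Agent.Lib.UP.FLat

/-!
# TANK UP, stage 2: edge groups (virtually poly-Z)-by-free. Definitions

`S = R * F`, `F` a free group of finite rank. The Auslander condition of `S` is weaker; the
surgery only needs `AusM1` (all submodules, one degree less), `AusW` (the whole homology) and
`FunM` (classes of the critical degree are detected by functionals with values in modules of
projective dimension `≤ q`).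
-/

set_option autoImplicit false

namespace Pool.Agent.UP

universe u

/-- `S = R * F` with involutions, `g* = g⁻¹` -/
structure SkFS (X : Type) (R S : Type u) [Ring R] [StarRing R] [Ring S] [StarRing S] extends
    SkF X R S where
  star_iota : ∀ r, star (iota r) = iota (star r)
  star_t : ∀ g, star ((t g : Sˣ) : S) = ((t g⁻¹ : Sˣ) : S)

section

variable (R : Type u) [Ring R]

/-- the rows of `f` of position `0` generate the row homology in degree `- i₀` -/
def IsWhole {R : Type u} [Ring R] {K C : Type} [Fintype K] [Fintype C] (deg : K → ℤ)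
    (e d : Matrix K K R) (i₀ : ℕ) (p : C → ℕ) (f : Matrix C K R) : Prop :=
  ∀ x : Matrix Unit K R, (∀ k, x () k ≠ 0 → deg k = -(i₀ : ℤ)) → x * e = x → x * d = 0 →
    ∃ (w : Matrix Unit C R) (x' : Matrix Unit K R), (∀ i, w () i ≠ 0 → p i = 0) ∧
      x = w * f + x' * d

/-- the Auslander condition, one degree less -/
def AusM1 : Prop :=
  ∀ (K C : Type) [Fintype K] [DecidableEq K] [Fintype C] [DecidableEq C] (deg : K → ℤ)
    (e d : Matrix K K R) (i₀ : ℕ) (p : C → ℕ) (e' δ : Matrix C C R) (f : Matrix C K R),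
    IsCx deg e d → (∀ j : ℤ, j < i₀ → ColEx deg e d j) →
    (∀ j : ℤ, -(i₀ : ℤ) < j → RowEx deg e d j) → IsKill deg e d i₀ p e' δ f →
    ∀ l : ℕ, l + 1 < 2 * i₀ → ColExN p e' δ l

/-- the Auslander condition for the whole homology -/
def AusW : Prop :=
  ∀ (K C : Type) [Fintype K] [DecidableEq K] [Fintype C] [DecidableEq C] (deg : K → ℤ)
    (e d : Matrix K K R) (i₀ : ℕ) (p : C → ℕ) (e' δ : Matrix C C R) (f : Matrix C K R),
    IsCx deg e d → (∀ j : ℤ, j < i₀ → ColEx deg e d j) →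
    (∀ j : ℤ, -(i₀ : ℤ) < j → RowEx deg e d j) → IsKill deg e d i₀ p e' δ f →
    IsWhole deg e d i₀ p f → ∀ l : ℕ, l < 2 * i₀ → ColExN p e' δ l

/-- the column `y` of position `q` is detected by a functional: `(Q, π, Y)` is a complex of free
modules in the positions `0, …, q`, with exact rows in the positions `> 0`, and `Z` a chain map
from `(C, δ)`; if the map `Z` induces on the cokernels is `0` then `y` is a coboundary -/
def FunD {R : Type u} [Ring R] {C : Type} [Fintype C] (p : C → ℕ) (e' δ : Matrix C C R) (q : ℕ)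
    (y : Matrix C Unit R) : Prop :=
  ∃ (Q : Type) (_ : Fintype Q) (_ : DecidableEq Q) (π : Q → ℕ) (Y : Matrix Q Q R)
    (Z : Matrix C Q R),
    (∀ a b, Y a b ≠ 0 → π a = π b + 1) ∧ (∀ a, π a ≤ q) ∧ (∀ i b, Z i b ≠ 0 → p i = π b) ∧
    Y * Y = 0 ∧
    (∀ (l : ℕ) (v : Matrix Unit Q R), (∀ b, v () b ≠ 0 → π b = l + 1) → v * Y = 0 →
      ∃ v' : Matrix Unit Q R, v = v' * Y) ∧
    e' * Z = Z ∧ δ * Z = Z * Y ∧
    ((∃ H : Matrix C Q R, ∀ i, p i = 0 → ∀ b, Z i b = (H * Y) i b) →
      ∃ z : Matrix C Unit R, y = δ * z)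

/-- classes of the critical degree are detected by functionals -/
def FunM : Prop :=
  ∀ (K C : Type) [Fintype K] [DecidableEq K] [Fintype C] [DecidableEq C] (deg : K → ℤ)
    (e d : Matrix K K R) (i₀ : ℕ) (p : C → ℕ) (e' δ : Matrix C C R) (f : Matrix C K R),
    IsCx deg e d → (∀ j : ℤ, j < i₀ → ColEx deg e d j) →
    (∀ j : ℤ, -(i₀ : ℤ) < j → RowEx deg e d j) → IsKill deg e d i₀ p e' δ f →
    ∀ q : ℕ, q + 1 = 2 * i₀ → ∀ y : Matrix C Unit R, (∀ i, y i () ≠ 0 → p i = q) →
      e' * y = y → δ * y = 0 → FunD p e' δ q y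

/-- all the facts, stage 2 -/
structure Facts4 (g : ℕ) : Prop where
  coh : CohT R
  pd : PDT R
  aus1 : AusM1 R
  ausW : AusW R
  func : FunM R
  fin : EndM R g

/-- (W1) all finitely generated submodules `K` of `Ext^(p+1)(W, R)` satisfy
`Ext^l(K, R) = 0` for `l < p` -/
def AR1 [StarRing R] : Prop := ∀ T : RC R, (∀ k, T.Ex k) → ∀ p, Loc R p (T.E (p + 1))

/-- (W2) if `Ext^l(W, R) = 0` for `1 ≤ l < n` and `2 ≤ n` then `M = Ext^n(W, R)` satisfies
`Ext^l(M, R) = 0` for all `l < n` -/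
def ARW [StarRing R] : Prop := ∀ T : RC R, (∀ k, T.Ex k) → ∀ n, 2 ≤ n →
  (∀ l, 1 ≤ l → l < n → T.CoEx l) → GE R n (T.E n)

/-- (W3) every class `ξ ∈ Ext^q(K, R)`, `K` a finitely generated submodule of
`Ext^(q+1)(W, R)`, is detected by a functional with values in a module of projective dimension
`≤ q` -/
def ARF [StarRing R] : Prop := ∀ T : RC R, (∀ k, T.Ex k) → ∀ (q : ℕ)
  (K : Submodule R (T.E (q + 1))), K.FG → ∀ (P : RC R), Res P K → ∀ ξ ∈ P.cy q,
  ∃ (C : RC R) (Z : ChM P C), (∀ k, C.Ex k) ∧ IsEmpty (C.ι (q + 1)) ∧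
    ((∃ H : Matrix (P.ι 0) (C.ι 1) R, Z.U 0 = H * C.D 0) → ξ ∈ P.bd q)

end

end Pool.Agent.UP
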