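import Pool.Agent.Lib.UP.U13b
import Pool.Agent.Lib.UP.Defs4

/-!
TANK UP, stage 2, row F11: the group ring of an extension of a free group.
-/

set_option autoImplicit false

open MonoidAlgebra

namespace Pool.Agent.UP

universe u v w

/-- `1 → N → H → F(X) → 1` with a splitting -/
structure FExt (X : Type) {H : Type v} [Group H] (N : Subgroup H) [N.Normal] where
  pr : H →* FreeGroup X
  ker : ∀ h, pr h = 1 ↔ h ∈ N
  sec : FreeGroup X →* H
  pr_sec : ∀ g, pr (sec g) = g

namespace FExt

variable {X : Type} {H : Type v} [Group H] {N : Subgroup H} [N.Normal] (D : FExt X N)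

theorem npart_mem (h : H) : (D.sec (D.pr h))⁻¹ * h ∈ N := by
  rw [← D.ker, map_mul, map_inv, D.pr_sec, inv_mul_cancel]

/-- `h = sec g * n` -/
def eqv : H ≃ FreeGroup X × N where
  toFun h := (D.pr h, ⟨(D.sec (D.pr h))⁻¹ * h, D.npart_mem h⟩)
  invFun p := D.sec p.1 * (p.2 : H)
  left_inv h := mul_inv_cancel_left _ _
  right_inv p := by
    have h1 : D.pr (D.sec p.1 * (p.2 : H)) = p.1 := by
      rw [map_mul, D.pr_sec, (D.ker _).2 p.2.2, mul_one]
    refine Prod.ext h1 (Subtype.ext ?_)
    change (D.sec (D.pr (D.sec p.1 * (p.2 : H))))⁻¹ * (D.sec p.1 * (p.2 : H)) = (p.2 : H)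
    rw [h1, inv_mul_cancel_left]

variable (A : Type u) [Ring A]

/-- coefficients -/
noncomputable def co : MonoidAlgebra A H ≃+ (FreeGroup X →₀ MonoidAlgebra A N) :=
  (coeffAddEquiv.trans ((Finsupp.domCongr D.eqv).trans Finsupp.curryAddEquiv)).trans
    (Finsupp.mapRange.addEquiv coeffAddEquiv.symm)

theorem co_single (g : FreeGroup X) (n : N) (a : A) :
    D.co A (single (D.sec g * (n : H)) a) = Finsupp.single g (single n a) := by
  have h1 : D.eqv (D.sec g * (n : H)) = (g, n) := D.eqv.apply_symm_apply (g, n)
  have h2 : Finsupp.curry (Finsupp.equivMapDomain D.eqv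
      (Finsupp.single (D.sec g * (n : H)) a)) = Finsupp.single g (Finsupp.single n a) := by
    rw [Finsupp.equivMapDomain_single, h1, Finsupp.curry_single]
  change Finsupp.mapRange (coeffAddEquiv.symm : (N →₀ A) → MonoidAlgebra A N)
    (map_zero coeffAddEquiv.symm)
    (Finsupp.curry (Finsupp.equivMapDomain D.eqv (Finsupp.single (D.sec g * (n : H)) a))) = _
  rw [h2, Finsupp.mapRange_single]
  rfl

/-- the units -/
noncomputable def tt : FreeGroup X →* (MonoidAlgebra A H)ˣ :=
  (Units.map (MonoidAlgebra.of A H)).comp (toUnits.toMonoidHom.comp D.sec)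

theorem tt_val (g : FreeGroup X) :
    ((D.tt A g : (MonoidAlgebra A H)ˣ) : MonoidAlgebra A H) = single (D.sec g) 1 := rfl

/-- conjugation on the coefficients -/
noncomputable def sg : FreeGroup X →* RingAut (MonoidAlgebra A N) where
  toFun g := mapDomainRingEquiv A (MulAut.conjNormal (D.sec g) : MulAut N)
  map_one' := by
    refine RingEquiv.ext fun x => ?_
    induction x using MonoidAlgebra.induction_linear with
    | zero => rw [map_zero, map_zero]
    | add x y hx hy => rw [map_add, hx, hy, map_add]
    | single n a => rw [mapDomainRingEquiv_single, map_one, map_one]; rfl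
  map_mul' g h := by
    refine RingEquiv.ext fun x => ?_
    induction x using MonoidAlgebra.induction_linear with
    | zero => rw [map_zero, map_zero]
    | add x y hx hy => rw [map_add, hx, hy, map_add]
    | single n a =>
      rw [mapDomainRingEquiv_single, map_mul, map_mul, RingAut.mul_apply,
        mapDomainRingEquiv_single, mapDomainRingEquiv_single]
      rfl

theorem sg_single (g : FreeGroup X) (n : N) (a : A) :
    D.sg A g (single n a) = single (MulAut.conjNormal (D.sec g) n) a :=
  mapDomainRingEquiv_single _ _ _

/-- the group ring of `H` as a skew group ring over `A[N]` -/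
noncomputable def skF : SkF X (MonoidAlgebra A N) (MonoidAlgebra A H) where
  iota := mapDomainRingHom A N.subtype
  t := D.tt A
  sig := D.sg A
  comm := by
    intro g r
    rw [D.tt_val]
    induction r using MonoidAlgebra.induction_linear with
    | zero => rw [map_zero, mul_zero, map_zero, map_zero, zero_mul]
    | add x y hx hy => rw [map_add, mul_add, hx, hy, map_add, map_add, add_mul]
    | single n a =>
      rw [D.sg_single]
      change single (D.sec g) 1 * mapDomain N.subtype (single n a) =
        mapDomain N.subtype (single _ a) * single (D.sec g) 1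
      rw [mapDomain_single, mapDomain_single, single_mul_single, single_mul_single, one_mul,
        mul_one]
      congr 1
      change D.sec g * (n : H) = ((MulAut.conjNormal (D.sec g) n : N) : H) * D.sec g
      rw [MulAut.conjNormal_apply, inv_mul_cancel_right]
  co := D.co A
  co_symm := by
    intro g r
    rw [AddEquiv.symm_apply_eq, D.tt_val]
    induction r using MonoidAlgebra.induction_linear with
    | zero => rw [Finsupp.single_zero, map_zero, mul_zero, map_zero]
    | add x y hx hy => rw [map_add, mul_add, map_add, Finsupp.single_add, hx, hy]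
    | single n a =>
      change _ = D.co A (single (D.sec g) 1 * mapDomain N.subtype (single n a))
      rw [mapDomain_single, single_mul_single, one_mul]
      exact (D.co_single A g n a).symm

end FExt

/-- an extension of a free group splits -/
theorem exists_fext {X : Type} {H : Type v} [Group H] (N : Subgroup H) [N.Normal]
    (e : H ⧸ N ≃* FreeGroup X) : Nonempty (FExt X N) := by
  have h1 : ∀ x : X, ∃ h : H, e (QuotientGroup.mk' N h) = FreeGroup.of x := by
    intro x
    obtain ⟨h, hh⟩ := QuotientGroup.mk'_surjective N (e.symm (FreeGroup.of x))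
    exact ⟨h, by rw [hh, MulEquiv.apply_symm_apply]⟩
  choose s hs using h1
  refine ⟨{ pr := e.toMonoidHom.comp (QuotientGroup.mk' N), ker := ?_, sec := FreeGroup.lift s,
            pr_sec := ?_ }⟩
  · intro h
    change e (QuotientGroup.mk' N h) = 1 ↔ h ∈ N
    rw [map_eq_one_iff e e.injective, QuotientGroup.mk'_apply, QuotientGroup.eq_one_iff]
  · intro g
    have h2 : (e.toMonoidHom.comp (QuotientGroup.mk' N)).comp (FreeGroup.lift s) =
        MonoidHom.id _ := by
      refine FreeGroup.ext_hom _ _ fun x => ?_
      change e (QuotientGroup.mk' N (FreeGroup.lift s (FreeGroup.of x))) = FreeGroup.of x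
      rw [FreeGroup.lift_apply_of, hs]
    exact DFunLike.congr_fun h2 g

section
variable {A : Type u} [CommRing A] [StarRing A]

/-- the extension with involutions -/
noncomputable def FExt.skFS {X : Type} {H : Type v} [Group H] {N : Subgroup H} [N.Normal]
    (D : FExt X N) : @SkFS X (MonoidAlgebra A N) (MonoidAlgebra A H) _ (starMA A N) _
      (starMA A H) :=
  letI := starMA A N
  letI := starMA A H
  { toSkF := D.skF A
    star_iota := fun r => starMA_map N.subtype r
    star_t := fun g => by
      change (starMA A H).star (single (D.sec g) 1) = single (D.sec g⁻¹) 1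
      rw [starMA_single, star_one, map_inv] }

/-- `N` normal in `H`, `H / N` free on a finite type `X` -/
theorem exists_skFS {H : Type v} [Group H] (N : Subgroup H) [N.Normal] {X : Type} [Fintype X]
    [DecidableEq X] (e : H ⧸ N ≃* FreeGroup X) :
    letI := starMA A N
    letI := starMA A H
    Nonempty (SkFS X (MonoidAlgebra A N) (MonoidAlgebra A H)) := by
  obtain ⟨D⟩ := exists_fext N e
  exact ⟨D.skFS⟩

/-- the ring theory of the normal subgroup -/
def NFacts (A : Type u) [CommRing A] [StarRing A] (N : Type v) [Group N] (g : ℕ) : Prop :=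
  letI := starMA A N
  IsNoetherianRing (MonoidAlgebra A N) ∧ AR (MonoidAlgebra A N) ∧ FL (MonoidAlgebra A N) g

end

end Pool.Agent.UP
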