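import Mathlib
import Pool.Agent.Lib.UP.FLat
import Pool.Agent.Lib.UP.TrDefs

/-!
TANK UP, section 4, row F5a: the skew group ring `S = R * F` of a free group over a noetherian
ring is coherent (left kernels of matrices are finitely generated).
-/

set_option autoImplicit false

open scoped BigOperators

namespace Pool.Agent.UP

section word

variable {X : Type*} [DecidableEq X]

theorem F5_toWord_mul {u v : FreeGroup X} (h : u.norm + v.norm ≤ (u * v).norm) :
    (u * v).toWord = u.toWord ++ v.toWord :=
  (FreeGroup.toWord_mul_sublist u v).eq_of_length_le (by rw [List.length_append]; exact h)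

theorem F5_ltr_toWord (s : X × Bool) : (ltr s).toWord = [s] := by
  rw [ltr, FreeGroup.toWord_mk]
  exact (FreeGroup.IsReduced.singleton (a := s)).reduce_eq

theorem F5_ltr_norm (s : X × Bool) : (ltr s).norm = 1 := by
  rw [FreeGroup.norm, F5_ltr_toWord]
  rfl

/-- lengths add in reduced products -/
theorem F5_norm_mul {g' w : FreeGroup X} {s : X × Bool} (h1 : (g' * ltr s).norm = g'.norm + 1)
    (h2 : (ltr s * w).norm = w.norm + 1) : (g' * ltr s * w).norm = g'.norm + 1 + w.norm := by
  have e1 : (g' * ltr s).toWord = g'.toWord ++ [s] := by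
    rw [F5_toWord_mul (by rw [F5_ltr_norm]; omega), F5_ltr_toWord]
  have e2 : (ltr s * w).toWord = [s] ++ w.toWord := by
    rw [F5_toWord_mul (by rw [F5_ltr_norm]; omega), F5_ltr_toWord]
  have r1 : FreeGroup.IsReduced (g'.toWord ++ [s]) := by
    rw [← e1]; exact FreeGroup.isReduced_toWord
  have r2 : FreeGroup.IsReduced ([s] ++ w.toWord) := by
    rw [← e2]; exact FreeGroup.isReduced_toWord
  have r3 := r1.append_overlap r2 (by simp)
  have e3 : (g' * ltr s * w).toWord = g'.toWord ++ [s] ++ w.toWord := by
    conv_lhs => rw [← FreeGroup.mk_toWord (x := g' * ltr s), ← FreeGroup.mk_toWord (x := w),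
      FreeGroup.mul_mk, FreeGroup.toWord_mk, e1]
    exact r3.reduce_eq
  rw [FreeGroup.norm, e3, List.length_append, List.length_append, List.length_singleton]
  rfl

theorem F5_eq_of_prefix {g h a b : FreeGroup X} (h1 : (g * a).norm = g.norm + a.norm)
    (h2 : (h * b).norm = h.norm + b.norm) (hab : g * a = h * b) (hn : g.norm = h.norm) :
    g = h := by
  have e1 := F5_toWord_mul (u := g) (v := a) h1.ge
  have e2 := F5_toWord_mul (u := h) (v := b) h2.ge
  rw [hab, e2] at e1
  exact FreeGroup.toWord_injective (List.append_inj e1 hn.symm).1.symm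

/-- the parent of a vertex -/
theorem F5_parent {g : FreeGroup X} {n : ℕ} (hg : g.norm = n + 1) :
    ∃ (g' : FreeGroup X) (s : X × Bool), g = g' * ltr s ∧ g'.norm = n := by
  have h0 : g.toWord ≠ [] := by
    intro h
    rw [FreeGroup.norm, h] at hg
    simp at hg
  obtain ⟨l, s, hl⟩ := List.eq_nil_or_concat' g.toWord |>.resolve_left h0
  have hr : FreeGroup.IsReduced l := by
    have : FreeGroup.IsReduced g.toWord := FreeGroup.isReduced_toWord
    rw [hl] at this
    exact List.IsChain.left_of_append this
  refine ⟨FreeGroup.mk l, s, ?_, ?_⟩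
  · rw [ltr, FreeGroup.mul_mk, ← hl, FreeGroup.mk_toWord]
  · rw [FreeGroup.norm, FreeGroup.toWord_mk, hr.reduce_eq]
    rw [FreeGroup.norm, hl, List.length_append, List.length_singleton] at hg
    omega

end word

section ball

variable {X : Type*} [DecidableEq X] {R S : Type*} [Ring R] [Ring S] (L : SkF X R S)
  {I : Type*} [Module R (I → S)] (hc : ∀ (r : R) (x : I → S), r • x = L.iota r • x)

include hc in
theorem F5_co_smul (r : R) (x : I → S) (i : I) (g : FreeGroup X) :
    L.co ((r • x) i) g = L.sig g⁻¹ r * L.co (x i) g := by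
  rw [hc, Pi.smul_apply, smul_eq_mul, L.co_iota_mul]

/-- the elements with support in the ball of radius `m` -/
def F5_ball (m : ℕ) : Submodule R (I → S) where
  carrier := {x | ∀ i g, L.co (x i) g ≠ 0 → g.norm ≤ m}
  add_mem' := by
    intro x y hx hy i g hg
    by_contra hn
    apply hg
    have h1 : L.co (x i) g = 0 := by
      by_contra h
      exact hn (hx i g h)
    have h2 : L.co (y i) g = 0 := by
      by_contra h
      exact hn (hy i g h)
    rw [Pi.add_apply, map_add, Finsupp.add_apply, h1, h2, add_zero]
  zero_mem' := by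
    intro i g hg
    refine absurd ?_ hg
    rw [Pi.zero_apply, map_zero, Finsupp.zero_apply]
  smul_mem' := by
    intro r x hx i g hg
    refine hx i g fun h => hg ?_
    rw [F5_co_smul L hc, h, mul_zero]

theorem F5_mem_ball {m : ℕ} {x : I → S} :
    x ∈ F5_ball L hc m ↔ ∀ i g, L.co (x i) g ≠ 0 → g.norm ≤ m := Iff.rfl

/-- an element of `S` as a sum -/
theorem F5_sum (s : S) :
    s = ∑ g ∈ (L.co s).support, ((L.t g : Sˣ) : S) * L.iota (L.co s g) := by
  apply L.co.injective
  rw [map_sum]
  conv_lhs => rw [← Finsupp.sum_single (L.co s)]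
  refine Finset.sum_congr rfl fun g _ => ?_
  rw [L.co_single]

/-- submodules of a ball are finitely generated -/
theorem F5_fg [Finite X] [Finite I] [IsNoetherianRing R] {m : ℕ} {M : Submodule R (I → S)}
    (h : M ≤ F5_ball L hc m) : M.FG := by
  classical
  have := SemiF.finite_ball (X := X) m
  let f : {g : FreeGroup X // g.norm ≤ m} × I → (I → S) :=
    fun p => Pi.single p.2 ((L.t p.1.1 : Sˣ) : S)
  have hT : (Submodule.span R (Set.range f)).FG := Submodule.fg_span (Set.finite_range f)
  have h1 : F5_ball L hc m ≤ Submodule.span R (Set.range f) := by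
    intro x hx
    have := Fintype.ofFinite I
    rw [← Finset.univ_sum_single x]
    refine Submodule.sum_mem _ fun i _ => ?_
    rw [F5_sum L (x i)]
    have h2 : (Pi.single i (∑ g ∈ (L.co (x i)).support,
        ((L.t g : Sˣ) : S) * L.iota (L.co (x i) g)) : I → S) =
        ∑ g ∈ (L.co (x i)).support, Pi.single i (((L.t g : Sˣ) : S) * L.iota (L.co (x i) g)) :=
      map_sum (AddMonoidHom.single (fun _ : I => S) i) _ _
    rw [h2]
    refine Submodule.sum_mem _ fun g hg => ?_
    have h3 : (Pi.single i (((L.t g : Sˣ) : S) * L.iota (L.co (x i) g)) : I → S) =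
        L.sig g (L.co (x i) g) • f (⟨g, hx i g (Finsupp.mem_support_iff.1 hg)⟩, i) := by
      rw [hc, L.comm]
      funext j
      simp only [f, Pi.smul_apply, smul_eq_mul]
      by_cases hj : j = i
      · subst hj
        rw [Pi.single_eq_same, Pi.single_eq_same]
      · rw [Pi.single_eq_of_ne hj, Pi.single_eq_of_ne hj, mul_zero]
    rw [h3]
    exact Submodule.smul_mem _ _ (Submodule.subset_span ⟨_, rfl⟩)
  exact Submodule.FG.of_le hT (h.trans h1)

/-- coefficients of the value of a formal sum -/
theorem F5_co_sumK (x : FreeGroup X →₀ (I → S)) (i : I) (v : FreeGroup X) :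
    L.co ((L.semi hc).sumK x i) v = ∑ h ∈ x.support, L.co (x h i) (h⁻¹ * v) := by
  have h1 : (L.semi hc).sumK x = ∑ h ∈ x.support, ((L.t h : Sˣ) : S) • x h := by
    rfl
  rw [h1, Finset.sum_apply, map_sum, Finsupp.finsetSum_apply]
  refine Finset.sum_congr rfl fun h _ => ?_
  rw [Pi.smul_apply, smul_eq_mul, L.co_t_mul]

/-- moving one step in the tree -/
theorem F5_step (A : SemiF X R (I → S)) {M0 : Submodule R (I → S)} (g' : FreeGroup X)
    (s : X × Bool) {x : I → S} (hx : x ∈ M0) (hs : A.ac (ltr s) x ∈ M0) :
    Finsupp.single (g' * ltr s) x - Finsupp.single g' (A.ac (ltr s) x) ∈ A.nul M0 := by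
  obtain ⟨j, b⟩ := s
  cases b with
  | true =>
    rw [ltr_true] at hs ⊢
    exact A.single_mem_nul g' (A.mem_K1.2 ⟨hx, hs⟩)
  | false =>
    rw [ltr_false] at hs ⊢
    have h1 : A.ac (FreeGroup.of j) (A.ac (FreeGroup.of j)⁻¹ x) = x := A.ac_ac_inv _ _
    have h2 := A.single_mem_nul (M := M0) (j := j) (g' * (FreeGroup.of j)⁻¹)
      (x := A.ac (FreeGroup.of j)⁻¹ x) (A.mem_K1.2 ⟨hs, by rw [h1]; exact hx⟩)
    rw [h1, inv_mul_cancel_right] at h2
    have h3 := AddSubgroup.neg_mem _ h2
    rwa [neg_sub] at h3

/-- relations between elements with support in a ball are generated by the elementary ones -/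
theorem F5_core {m : ℕ} {N : Submodule S (I → S)} {M0 : Submodule R (I → S)}
    (hM0 : ∀ x, x ∈ M0 ↔ x ∈ N ∧ ∀ i g, L.co (x i) g ≠ 0 → g.norm ≤ m) (n : ℕ) :
    ∀ x : FreeGroup X →₀ (I → S), (∀ g, x g ∈ M0) → (∀ g, x g ≠ 0 → g.norm ≤ n) →
      (L.semi hc).sumK x = 0 → x ∈ (L.semi hc).nul M0 := by
  classical
  induction n with
  | zero =>
    intro x h1 h2 h3
    have h4 : x = Finsupp.single 1 (x 1) := by
      ext1 g
      by_cases hg : g = 1
      · rw [hg, Finsupp.single_eq_same]
      · rw [Finsupp.single_apply, if_neg (Ne.symm hg)]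
        by_contra h
        exact hg (FreeGroup.norm_eq_zero.1 (Nat.le_zero.1 (h2 g h)))
    rw [h4, SemiF.sumK_single, SemiF.ac_one] at h3
    rw [h4, h3, Finsupp.single_zero]
    exact AddSubgroup.zero_mem _
  | succ n ih =>
    intro x h1 h2 h3
    -- the top elements can be moved
    have key : ∀ g, x g ≠ 0 → g.norm = n + 1 → ∃ (g' u : FreeGroup X),
        g'.norm = n ∧ (L.semi hc).ac u (x g) ∈ M0 ∧
        Finsupp.single g (x g) - Finsupp.single g' ((L.semi hc).ac u (x g)) ∈
          (L.semi hc).nul M0 := by
      intro g hg0 hgn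
      obtain ⟨g', s, hg, hg'⟩ := F5_parent hgn
      suffices hs : (L.semi hc).ac (ltr s) (x g) ∈ M0 by
        refine ⟨g', ltr s, hg', hs, ?_⟩
        have h8 := F5_step (L.semi hc) g' s (h1 g) hs
        rwa [← hg] at h8
      refine (hM0 _).2 ⟨?_, ?_⟩
      · exact N.smul_mem _ ((hM0 _).1 (h1 g)).1
      · intro i v hv
        rw [L.semi_ac, Pi.smul_apply, smul_eq_mul, L.co_t_mul] at hv
        set w := (ltr s)⁻¹ * v with hw
        have hvw : v = ltr s * w := by rw [hw, mul_inv_cancel_left]
        have hwm : w.norm ≤ m := ((hM0 _).1 (h1 g)).2 i w hv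
        rw [hvw]
        rcases norm_ltr_mul s w with h4 | ⟨-, h4⟩
        · by_contra hlt
          have hwm' : w.norm = m := by omega
          have h5 : (g * w).norm = g.norm + w.norm := by
            rw [hg]
            rw [F5_norm_mul (by rw [← hg, hgn, hg']) h4, ← hg, hgn, hg']
          have h6 := F5_co_sumK L hc x i (g * w)
          rw [h3, Pi.zero_apply, map_zero, Finsupp.zero_apply,
            Finset.sum_eq_single_of_mem g (Finsupp.mem_support_iff.2 hg0)] at h6
          · rw [inv_mul_cancel_left] at h6
            exact hv h6.symm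
          · intro h hh hne
            by_contra h7
            have h8 : (h⁻¹ * (g * w)).norm ≤ m := ((hM0 _).1 (h1 h)).2 i _ h7
            have h9 : h.norm ≤ n + 1 := h2 h (Finsupp.mem_support_iff.1 hh)
            have h10 := FreeGroup.norm_mul_le h (h⁻¹ * (g * w))
            rw [mul_inv_cancel_left, h5] at h10
            apply hne
            refine (F5_eq_of_prefix (a := w) (b := h⁻¹ * (g * w)) h5 ?_ ?_ ?_).symm
            · rw [mul_inv_cancel_left, h5]
              omega
            · rw [mul_inv_cancel_left]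
            · omega
        · omega
    choose! p s hp2 hp3 hp1 using key
    set xt := x.filter (fun g => g.norm = n + 1) with hxt
    set xl := x.filter (fun g => ¬ g.norm = n + 1) with hxl
    have hx : xt + xl = x := Finsupp.filter_add_filter_not x _
    have hxl' : ∀ g, xl g = if g.norm = n + 1 then 0 else x g := by
      intro g
      rw [hxl, Finsupp.filter_apply]
      by_cases h : g.norm = n + 1
      · rw [if_neg (not_not.2 h), if_pos h]
      · rw [if_pos h, if_neg h]
    have hsup : ∀ g ∈ xt.support, x g ≠ 0 ∧ g.norm = n + 1 := by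
      intro g hg
      rw [hxt, Finsupp.support_filter, Finset.mem_filter, Finsupp.mem_support_iff] at hg
      exact hg
    set y : FreeGroup X →₀ (I → S) :=
      ∑ g ∈ xt.support, Finsupp.single (p g) ((L.semi hc).ac (s g) (x g)) with hy
    have h4 : xt - y ∈ (L.semi hc).nul M0 := by
      have h5 : xt = ∑ g ∈ xt.support, Finsupp.single g (x g) := by
        conv_lhs => rw [← Finsupp.sum_single xt]
        refine Finset.sum_congr rfl fun g hg => ?_
        congr 1
        exact Finsupp.filter_apply_pos _ _ (hsup g hg).2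
      have h5' : xt - y = ∑ g ∈ xt.support, (Finsupp.single g (x g) -
          Finsupp.single (p g) ((L.semi hc).ac (s g) (x g))) := by
        rw [Finset.sum_sub_distrib, ← h5]
      rw [h5']
      refine AddSubgroup.sum_mem _ fun g hg => ?_
      obtain ⟨h6, h7⟩ := hsup g hg
      exact hp1 g h6 h7
    have h5 : xl + y ∈ (L.semi hc).nul M0 := by
      have hyP : (∀ g, y g ∈ M0) ∧ (∀ g, y g ≠ 0 → g.norm ≤ n) := by
        rw [hy]
        refine Finset.sum_induction _ (fun y : FreeGroup X →₀ (I → S) =>
          (∀ g, y g ∈ M0) ∧ (∀ g, y g ≠ 0 → g.norm ≤ n)) ?_ ?_ ?_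
        · rintro a b ⟨ha, ha'⟩ ⟨hb, hb'⟩
          refine ⟨fun g => by rw [Finsupp.add_apply]; exact M0.add_mem (ha g) (hb g),
            fun g hg => ?_⟩
          by_contra hn
          apply hg
          rw [Finsupp.add_apply]
          have h6 : a g = 0 := by
            by_contra h
            exact hn (ha' g h)
          have h7 : b g = 0 := by
            by_contra h
            exact hn (hb' g h)
          rw [h6, h7, add_zero]
        · exact ⟨fun g => by rw [Finsupp.zero_apply]; exact M0.zero_mem,
            fun g hg => absurd (Finsupp.zero_apply) hg⟩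
        · intro g hg
          obtain ⟨h6, h7⟩ := hsup g hg
          refine ⟨fun k => ?_, fun k hk => ?_⟩
          · rw [Finsupp.single_apply]
            split_ifs
            · exact hp3 g h6 h7
            · exact M0.zero_mem
          · rw [Finsupp.single_apply] at hk
            split_ifs at hk with h8
            · rw [← h8, hp2 g h6 h7]
            · exact absurd rfl hk
      refine ih (xl + y) (fun g => ?_) (fun g hg => ?_) ?_
      · rw [Finsupp.add_apply]
        refine M0.add_mem ?_ (hyP.1 g)
        rw [hxl' g]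
        split_ifs
        · exact M0.zero_mem
        · exact h1 g
      · by_contra hn
        apply hg
        have h6 : y g = 0 := by
          by_contra h
          exact hn (hyP.2 g h)
        have h7 : xl g = 0 := by
          rw [hxl' g]
          split_ifs with h8
          · rfl
          · by_contra h
            have := h2 g h
            omega
        rw [Finsupp.add_apply, h6, h7, add_zero]
      · have h6 := (L.semi hc).sumK_nul h4
        have h7 : xl + y = x - (xt - y) := by
          rw [← hx]
          abel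
        rw [h7, map_sub, h3, h6, sub_zero]
    have h6 : x = (xl + y) + (xt - y) := by
      rw [← hx]
      abel
    rw [h6]
    exact AddSubgroup.add_mem _ h5 h4

/-- the span over `S` of a finitely generated `R`-submodule is finitely generated -/
theorem F5_span_fg {K : Type*} [AddCommGroup K] [Module R K] [Module S K]
    (hc : ∀ (r : R) (x : K), r • x = L.iota r • x) {M : Submodule R K} (h : M.FG) :
    (Submodule.span S (M : Set K)).FG := by
  obtain ⟨T, hT⟩ := h
  refine ⟨T, le_antisymm (Submodule.span_mono ?_) (Submodule.span_le.2 ?_)⟩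
  · rw [← hT]
    exact Submodule.subset_span
  · intro x hx
    rw [← hT] at hx
    have hx' : x ∈ Submodule.span R (T : Set K) := hx
    show x ∈ Submodule.span S (T : Set K)
    induction hx' using Submodule.span_induction with
    | mem y hy => exact Submodule.subset_span hy
    | zero => exact Submodule.zero_mem _
    | add y z h1 h2 h3 h4 => exact Submodule.add_mem _ (h3 h1) (h4 h2)
    | smul r y h1 h2 => rw [hc]; exact Submodule.smul_mem _ _ (h2 h1)

include hc in
/-- the kernel of a presentation by a lattice is finitely generated -/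
theorem F5_ker [Finite X] [IsNoetherianRing R] {m : ℕ} {N : Submodule S (I → S)}
    {M0 : Submodule R (I → S)}
    (hM0 : ∀ x, x ∈ M0 ↔ x ∈ N ∧ ∀ i g, L.co (x i) g ≠ 0 → g.norm ≤ m) {a : ℕ}
    (k : Fin a → (I → S)) (hk : Submodule.span R (Set.range k) = M0) :
    (LinearMap.ker (Fintype.linearCombination S k)).FG := by
  classical
  let _i : Module R (Fin a → S) := Module.compHom _ L.iota
  have hc' : ∀ (r : R) (x : Fin a → S), r • x = L.iota r • x := fun _ _ => rfl
  have hkM : ∀ i, k i ∈ M0 := fun i => by
    rw [← hk]; exact Submodule.subset_span ⟨i, rfl⟩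
  set φ := Fintype.linearCombination S k with hφ
  have hφa : ∀ y : Fin a → S, φ y = ∑ i, y i • k i := fun y => by
    rw [hφ, Fintype.linearCombination_apply]
  -- the relations with support in the ball of radius one
  let Q : Submodule R (Fin a → S) :=
    { carrier := {y | y ∈ F5_ball L hc' 1 ∧ φ y = 0}
      add_mem' := by
        rintro x y ⟨h1, h2⟩ ⟨h3, h4⟩
        exact ⟨Submodule.add_mem _ h1 h3, by rw [map_add, h2, h4, add_zero]⟩
      zero_mem' := ⟨Submodule.zero_mem _, map_zero _⟩
      smul_mem' := by
        rintro r x ⟨h1, h2⟩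
        exact ⟨Submodule.smul_mem _ r h1, by rw [hc', map_smul, h2, smul_zero]⟩ }
  have hQ : Q.FG := F5_fg L hc' (m := 1) (fun y hy => hy.1)
  have hQs : (Submodule.span S (Q : Set (Fin a → S))).FG := F5_span_fg L hc' hQ
  suffices hker : LinearMap.ker φ = Submodule.span S (Q : Set (Fin a → S)) by
    rw [hker]
    exact hQs
  refine le_antisymm ?_ (Submodule.span_le.2 fun y hy => hy.2)
  -- elementary elements
  have hlift : ∀ x ∈ M0, ∃ α : Fin a → R, ∑ i, α i • k i = x := by
    intro x hx
    rw [← hk] at hx
    exact (Submodule.mem_span_range_iff_exists_fun R).1 hx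
  have hTh : ∀ (g : FreeGroup X) (α : Fin a → R),
      L.Th k (fun i => ((L.t g : Sˣ) : S) * L.iota (α i)) =
        Finsupp.single g (∑ i, α i • k i) := by
    intro g α
    ext1 h
    rw [SkF.Th_apply]
    by_cases hh : g = h
    · subst hh
      rw [Finsupp.single_eq_same]
      refine Finset.sum_congr rfl fun i _ => ?_
      rw [L.co_single, Finsupp.single_eq_same]
    · rw [Finsupp.single_apply, if_neg hh]
      refine Finset.sum_eq_zero fun i _ => ?_
      rw [L.co_single, Finsupp.single_apply, if_neg hh, zero_smul]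
  have hA : ∀ v : X × FreeGroup X →₀ (I → S), (∀ p, v p ∈ (L.semi hc).K1 M0 p.1) →
      ∃ w ∈ Submodule.span S (Q : Set (Fin a → S)), L.Th k w = (L.semi hc).psi v := by
    intro v hv
    refine SemiF.ind_vals (L := fun p : X × FreeGroup X => (L.semi hc).K1 M0 p.1)
      (P := fun v => ∃ w ∈ Submodule.span S (Q : Set (Fin a → S)),
        L.Th k w = (L.semi hc).psi v) ?_ ?_ ?_ v hv
    · exact ⟨0, Submodule.zero_mem _, by rw [map_zero, map_zero]⟩
    · rintro ⟨j, g⟩ b hb
      obtain ⟨hb1, hb2⟩ := (L.semi hc).mem_K1.1 hb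
      obtain ⟨α, hα⟩ := hlift b hb1
      obtain ⟨β, hβ⟩ := hlift _ hb2
      -- the relation
      let w0 : Fin a → S := (fun i => ((L.t (FreeGroup.of j) : Sˣ) : S) * L.iota (α i)) -
        (fun i => ((L.t 1 : Sˣ) : S) * L.iota (β i))
      have hw0 : w0 ∈ Q := by
        refine ⟨Submodule.sub_mem _ ?_ ?_, ?_⟩
        · intro i h hh
          simp only [] at hh
          rw [L.co_single, Finsupp.single_apply] at hh
          split_ifs at hh with h1
          · rw [← h1, FreeGroup.norm_of]
          · exact absurd rfl hh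
        · intro i h hh
          simp only [] at hh
          rw [L.co_single, Finsupp.single_apply] at hh
          split_ifs at hh with h1
          · rw [← h1, FreeGroup.norm_one]
            omega
          · exact absurd rfl hh
        · have e1 := L.sumK_Th k hc w0
          rw [← hφa] at e1
          rw [← e1, map_sub, hTh, hTh, map_sub, SemiF.sumK_single, SemiF.sumK_single, hα, hβ,
            SemiF.ac_one, sub_self]
      refine ⟨((L.t g : Sˣ) : S) • w0, Submodule.smul_mem _ _ (Submodule.subset_span hw0), ?_⟩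
      rw [L.Th_t, map_sub, hTh, hTh, map_sub, SemiF.sh_single, SemiF.sh_single, hα, hβ,
        SemiF.psi_single, mul_one]
    · rintro x y ⟨w, h1, h2⟩ ⟨w', h1', h2'⟩
      exact ⟨w + w', Submodule.add_mem _ h1 h1', by rw [map_add, map_add, h2, h2']⟩
  have hB : ∀ y : Fin a → S, L.Th k y = 0 → y ∈ Submodule.span S (Q : Set (Fin a → S)) := by
    intro y hy
    set U : Finset (FreeGroup X) := Finset.univ.biUnion fun i => (L.co (y i)).support with hU
    have h1 : y = ∑ g ∈ U, ((L.t g : Sˣ) : S) • (fun i => L.iota (L.co (y i) g)) := by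
      funext i
      rw [Finset.sum_apply]
      conv_lhs => rw [F5_sum L (y i)]
      refine Finset.sum_subset (fun g hg => Finset.mem_biUnion.2 ⟨i, Finset.mem_univ i, hg⟩)
        fun g _ hg => ?_
      rw [Finsupp.notMem_support_iff.1 hg, map_zero, mul_zero]
    rw [h1]
    refine Submodule.sum_mem _ fun g _ => Submodule.smul_mem _ _ (Submodule.subset_span ?_)
    have h2 : (fun i => L.iota (L.co (y i) g)) =
        fun i => ((L.t 1 : Sˣ) : S) * L.iota (L.co (y i) g) := by
      funext i
      rw [map_one, Units.val_one, one_mul]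
    refine ⟨?_, ?_⟩
    · intro i h hh
      rw [h2] at hh
      simp only [] at hh
      rw [L.co_single, Finsupp.single_apply] at hh
      split_ifs at hh with h3
      · rw [← h3, FreeGroup.norm_one]
        omega
      · exact absurd rfl hh
    · rw [h2, hφa, ← L.sumK_Th k hc, hTh, SemiF.sumK_single, SemiF.ac_one]
      have h3 := DFunLike.congr_fun hy g
      rwa [SkF.Th_apply, Finsupp.zero_apply] at h3
  intro y hy
  rw [LinearMap.mem_ker] at hy
  have h1 : (L.semi hc).sumK (L.Th k y) = 0 := by
    rw [L.sumK_Th k hc, ← hφa, hy]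
  obtain ⟨v, hv, hv'⟩ := F5_core L hc hM0
    ((L.Th k y).support.sup FreeGroup.norm) (L.Th k y) (L.Th_mem k hkM y)
    (fun g hg => Finset.le_sup (f := FreeGroup.norm) (Finsupp.mem_support_iff.2 hg)) h1
  obtain ⟨w, hw, hw'⟩ := hA v hv
  have h2 : L.Th k (y - w) = 0 := by
    rw [map_sub, hw', hv', sub_self]
  have h3 := Submodule.add_mem _ (hB _ h2) hw
  rwa [sub_add_cancel] at h3

include L hc in
/-- finitely generated submodules of free modules over `R * F` are finitely presented -/
theorem F5_fp [Finite X] [IsNoetherianRing R] [Finite I] {N : Submodule S (I → S)} (hN : N.FG) :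
    Module.FinitePresentation S N := by
  classical
  obtain ⟨T, hT⟩ := hN
  have := Fintype.ofFinite I
  set m : ℕ := T.sup fun ρ => Finset.univ.sup fun i => (L.co (ρ i)).support.sup FreeGroup.norm
    with hm
  have hball : ∀ ρ ∈ T, ∀ i g, L.co (ρ i) g ≠ 0 → g.norm ≤ m := by
    intro ρ hρ i g hg
    refine le_trans ?_ (Finset.le_sup (f := fun ρ : I → S => Finset.univ.sup fun i =>
      (L.co (ρ i)).support.sup FreeGroup.norm) hρ)
    refine le_trans ?_ (Finset.le_sup (f := fun i => (L.co (ρ i)).support.sup FreeGroup.norm)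
      (Finset.mem_univ i))
    exact Finset.le_sup (f := FreeGroup.norm) (Finsupp.mem_support_iff.2 hg)
  let M0 : Submodule R (I → S) :=
    { carrier := {x | x ∈ N ∧ ∀ i g, L.co (x i) g ≠ 0 → g.norm ≤ m}
      add_mem' := by
        rintro x y ⟨h1, h2⟩ ⟨h3, h4⟩
        exact ⟨Submodule.add_mem _ h1 h3, (F5_ball L hc m).add_mem h2 h4⟩
      zero_mem' := ⟨Submodule.zero_mem _, (F5_ball L hc m).zero_mem⟩
      smul_mem' := by
        rintro r x ⟨h1, h2⟩
        exact ⟨by rw [hc]; exact Submodule.smul_mem _ _ h1, (F5_ball L hc m).smul_mem r h2⟩ }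
  have hM0 : ∀ x, x ∈ M0 ↔ x ∈ N ∧ ∀ i g, L.co (x i) g ≠ 0 → g.norm ≤ m := fun _ => Iff.rfl
  have hfg : M0.FG := F5_fg L hc (m := m) (fun x hx => hx.2)
  obtain ⟨a, k, hk⟩ := Submodule.fg_iff_exists_fin_generating_family.1 hfg
  have hker := F5_ker L hc hM0 k hk
  have hkN : ∀ y, Fintype.linearCombination S k y ∈ N := by
    intro y
    rw [Fintype.linearCombination_apply]
    refine Submodule.sum_mem _ fun i _ => Submodule.smul_mem _ _ ?_
    have h1 : k i ∈ M0 := by rw [← hk]; exact Submodule.subset_span ⟨i, rfl⟩
    exact h1.1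
  refine Module.finitePresentation_of_free_of_surjective
    ((Fintype.linearCombination S k).codRestrict N hkN) ?_ ?_
  · rintro ⟨x, hx⟩
    have h1 : N ≤ LinearMap.range (Fintype.linearCombination S k) := by
      rw [← hT, Submodule.span_le]
      intro x hx
      have h2 : x ∈ M0 := ⟨by rw [← hT]; exact Submodule.subset_span hx, hball x hx⟩
      rw [← hk] at h2
      obtain ⟨α, hα⟩ := (Submodule.mem_span_range_iff_exists_fun R).1 h2
      refine ⟨fun i => L.iota (α i), ?_⟩
      rw [Fintype.linearCombination_apply, ← hα]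
      refine Finset.sum_congr rfl fun i _ => ?_
      rw [hc]
    obtain ⟨y, hy⟩ := h1 hx
    exact ⟨y, Subtype.ext hy⟩
  · rw [LinearMap.ker_codRestrict]
    exact hker

end ball

/-- left kernels of matrices over `R * F` are finitely generated -/
theorem cohF {X : Type} [Fintype X] [DecidableEq X] {R S : Type*} [Ring R] [Ring S]
    [IsNoetherianRing R] (L : SkF X R S) : CohT S := by
  classical
  intro J K _ _ D
  let _i : Module R (K → S) := Module.compHom _ L.iota
  have hfp : Module.FinitePresentation S (LinearMap.range (Matrix.vecMulLinear D)) :=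
    F5_fp L (fun _ _ => rfl) (Module.Finite.iff_fg.1 inferInstance)
  have hfg := Module.FinitePresentation.fg_ker (Matrix.vecMulLinear D).rangeRestrict
    (LinearMap.surjective_rangeRestrict _)
  rw [LinearMap.ker_rangeRestrict] at hfg
  obtain ⟨c, ζ, hζ⟩ := Submodule.fg_iff_exists_fin_generating_family.1 hfg
  refine ⟨c, Matrix.of ζ, ?_, ?_⟩
  · funext i
    have h1 : ζ i ∈ LinearMap.ker (Matrix.vecMulLinear D) := by
      rw [← hζ]
      exact Submodule.subset_span ⟨i, rfl⟩
    exact h1
  · intro x hx
    have h1 : x () ∈ LinearMap.ker (Matrix.vecMulLinear D) := congrFun hx ()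
    rw [← hζ] at h1
    obtain ⟨κ, hκ⟩ := (Submodule.mem_span_range_iff_exists_fun S).1 h1
    refine ⟨fun _ i => κ i, ?_⟩
    funext u j
    rw [show u = () from rfl, ← hκ, Matrix.mul_apply, Finset.sum_apply]
    rfl

end Pool.Agent.UP
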