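import Mathlib
import Pool.Agent.Lib.UP.Defs

/-!
# The cone of a chain map: projectivity of the syzygies
-/

open MonoidAlgebra CategoryTheory

namespace Pool.Agent.UP

universe u v w w'

section
variable {R : Type u} [Ring R]

/-- matrices whose rows are cycles are multiples of the next differential -/
theorem exists_mat_of_ex {T : RC R} {k : ℕ} (h : T.Ex k) {c : Type} (N : Matrix c (T.ι (k + 1)) R)
    (hN : N * T.D k = 0) : ∃ h' : Matrix c (T.ι (k + 2)) R, h' * T.D (k + 1) = N := by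
  have h1 : ∀ i : c, ∃ y, Matrix.vecMul y (T.D (k + 1)) = N i := fun i =>
    h (N i) (congrFun hN i)
  choose y hy using h1
  exact ⟨y, funext hy⟩

/-- if the `g`-th syzygy of `T1` and the `(g+1)`-st syzygy of `T0` are projective, so is the
`(g+1)`-st syzygy of the cone of `T1 → T0` -/
theorem cone_fl {T1 T0 : RC R} (f : ChM T1 T0) {g : ℕ} (hx1 : T1.Ex g) (hx0 : T0.Ex (g + 1))
    {M1 : Matrix (T1.ι (g + 1)) (T1.ι (g + 1)) R} (h1 : M1 * T1.D g = T1.D g)
    (h1' : T1.D (g + 1) * M1 = 0)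
    {M0 : Matrix (T0.ι (g + 2)) (T0.ι (g + 2)) R} (h0 : M0 * T0.D (g + 1) = T0.D (g + 1))
    (h0' : T0.D (g + 2) * M0 = 0) :
    ∃ N : Matrix ((cone f).ι (g + 2)) ((cone f).ι (g + 2)) R,
      N * (cone f).D (g + 1) = (cone f).D (g + 1) ∧ (cone f).D (g + 2) * N = 0 := by
  obtain ⟨h, hh⟩ := exists_mat_of_ex hx1 (1 - M1) (by
    rw [Matrix.sub_mul, Matrix.one_mul, h1, sub_self])
  have e1 : h * f.U (g + 2) * M0 * T0.D (g + 1) = (1 - M1) * f.U (g + 1) := by
    rw [Matrix.mul_assoc _ M0, h0, Matrix.mul_assoc, f.comm, ← Matrix.mul_assoc, hh]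
  have e2 : T1.D (g + 1) * (h * f.U (g + 2) * M0) = f.U (g + 2) * M0 := by
    obtain ⟨w, hw⟩ := exists_mat_of_ex hx0 (T1.D (g + 1) * (h * f.U (g + 2)) - f.U (g + 2)) (by
      rw [Matrix.sub_mul, Matrix.mul_assoc, Matrix.mul_assoc, f.comm, ← Matrix.mul_assoc h, hh,
        ← Matrix.mul_assoc, Matrix.mul_sub, h1', Matrix.mul_one, sub_zero, sub_self])
    have h2 : (T1.D (g + 1) * (h * f.U (g + 2)) - f.U (g + 2)) * M0 = 0 := by
      rw [← hw, Matrix.mul_assoc, h0', Matrix.mul_zero]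
    rw [Matrix.sub_mul, sub_eq_zero] at h2
    rw [← Matrix.mul_assoc, h2]
  refine ⟨Matrix.fromBlocks M1 (h * f.U (g + 2) * M0) 0 M0, ?_, ?_⟩
  · change Matrix.fromBlocks M1 (h * f.U (g + 2) * M0) 0 M0 *
      Matrix.fromBlocks (-T1.D g) (f.U (g + 1)) 0 (T0.D (g + 1)) =
        Matrix.fromBlocks (-T1.D g) (f.U (g + 1)) 0 (T0.D (g + 1))
    rw [Matrix.fromBlocks_multiply, e1, h0, Matrix.mul_neg, h1]
    congr 1
    · rw [Matrix.mul_zero, add_zero]
    · rw [← Matrix.add_mul, add_sub_cancel, Matrix.one_mul]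
    · rw [Matrix.zero_mul, Matrix.mul_zero, add_zero]
    · rw [Matrix.zero_mul, zero_add]
  · change Matrix.fromBlocks (-T1.D (g + 1)) (f.U (g + 2)) 0 (T0.D (g + 2)) *
      Matrix.fromBlocks M1 (h * f.U (g + 2) * M0) 0 M0 = 0
    rw [Matrix.fromBlocks_multiply, Matrix.neg_mul, Matrix.neg_mul, e2, h1', h0', neg_zero]
    rw [Matrix.mul_zero, add_zero, neg_add_cancel, Matrix.zero_mul, Matrix.mul_zero, add_zero,
      Matrix.zero_mul, add_zero, Matrix.fromBlocks_zero]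

end

end Pool.Agent.UP
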