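import Mathlib
import Pool.Agent.Lib.UP.Defs
import Pool.Agent.Lib.UP.FLat

/-!
TANK UP, section 4: exactness of a complex of free modules and of its dual passes from `R` to the
skew group ring `S = R * F` of a free group.
-/

set_option autoImplicit false

open scoped BigOperators

namespace Pool.Agent.UP

namespace SkF

universe u v

variable {X : Type v} {R S : Type u} [Ring R] [Ring S] (E : SkF X R S)

/-! ### coefficients on the left -/

theorem co_mul_t (h : FreeGroup X) (s : S) (g : FreeGroup X) :
    E.co (s * ((E.t h : Sˣ) : S)) g = E.sig h⁻¹ (E.co s (g * h⁻¹)) := by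
  classical
  refine E.ind (P := fun s => E.co (s * ((E.t h : Sˣ) : S)) g =
    E.sig h⁻¹ (E.co s (g * h⁻¹))) ?_ ?_ s
  · intro k a
    rw [mul_assoc, iota_t, ← mul_assoc, ← Units.val_mul, ← map_mul, co_single, co_single,
      Finsupp.single_apply, Finsupp.single_apply]
    by_cases hk : k * h = g
    · rw [if_pos hk, if_pos (by rw [← hk, mul_inv_cancel_right])]
    · rw [if_neg hk, if_neg (fun h1 => hk (by rw [h1, inv_mul_cancel_right])), map_zero]
  · intro x y hx hy
    rw [add_mul, map_add, Finsupp.add_apply, hx, hy, map_add, Finsupp.add_apply, map_add]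

/-- the coefficients on the left: `s = sum iota (coL s g) t(g)` -/
noncomputable def coL (s : S) (g : FreeGroup X) : R := E.sig g (E.co s g)

theorem coL_add (s t : S) (g : FreeGroup X) : E.coL (s + t) g = E.coL s g + E.coL t g := by
  unfold coL; rw [map_add, Finsupp.add_apply, map_add]

theorem coL_zero (g : FreeGroup X) : E.coL 0 g = 0 := by
  unfold coL; rw [map_zero, Finsupp.zero_apply, map_zero]

theorem coL_iota_mul (r : R) (s : S) (g : FreeGroup X) :
    E.coL (E.iota r * s) g = r * E.coL s g := by
  unfold coL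
  rw [co_iota_mul, map_mul, ← RingAut.mul_apply, ← map_mul, mul_inv_cancel, map_one,
    RingAut.one_apply]

theorem coL_mul_t (h : FreeGroup X) (s : S) (g : FreeGroup X) :
    E.coL (s * ((E.t h : Sˣ) : S)) g = E.coL s (g * h⁻¹) := by
  unfold coL
  rw [co_mul_t, ← RingAut.mul_apply, ← map_mul]

theorem coL_t_mul (h : FreeGroup X) (s : S) (g : FreeGroup X) :
    E.coL (((E.t h : Sˣ) : S) * s) g = E.sig h (E.coL s (h⁻¹ * g)) := by
  unfold coL
  rw [co_t_mul, ← RingAut.mul_apply, ← map_mul, mul_inv_cancel_left]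

theorem ext_coL {s t : S} (h : ∀ g, E.coL s g = E.coL t g) : s = t :=
  E.ext_co fun g => (E.sig g).injective (h g)

/-! ### vectors over `S` as families of vectors over `R` -/

section vec

variable {I J : Type} [Fintype I] [Fintype J]

/-- the vector over `S` with the given coefficients (on the right) -/
noncomputable def mkR (Y : FreeGroup X →₀ (I → R)) : I → S :=
  fun i => E.co.symm (Y.mapRange (fun v => v i) rfl)

omit [Fintype I] in
theorem co_mkR (Y : FreeGroup X →₀ (I → R)) (i : I) (g : FreeGroup X) :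
    E.co (E.mkR Y i) g = Y g i := by
  unfold mkR
  rw [AddEquiv.apply_symm_apply, Finsupp.mapRange_apply]

/-- the family of coefficients (on the right) of a vector -/
noncomputable def coR [DecidableEq I] (x : I → S) : FreeGroup X →₀ (I → R) :=
  ∑ i, Finsupp.mapRange.addMonoidHom (AddMonoidHom.single (fun _ => R) i) (E.co (x i))

theorem coR_apply [DecidableEq I] (x : I → S) (g : FreeGroup X) (i : I) :
    E.coR x g i = E.co (x i) g := by
  unfold coR
  rw [Finsupp.finsetSum_apply, Finset.sum_apply, Finset.sum_eq_single i]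
  · rw [Finsupp.mapRange.addMonoidHom_apply, Finsupp.mapRange_apply, AddMonoidHom.single_apply,
      Pi.single_eq_same]
  · intro j _ hj
    rw [Finsupp.mapRange.addMonoidHom_apply, Finsupp.mapRange_apply, AddMonoidHom.single_apply,
      Pi.single_eq_of_ne (Ne.symm hj)]
  · intro h; exact absurd (Finset.mem_univ _) h

theorem coR_vecMul [DecidableEq I] [DecidableEq J] (x : I → S) (M : Matrix I J R)
    (g : FreeGroup X) :
    E.coR (Matrix.vecMul x (M.map E.iota)) g = Matrix.vecMul (E.coR x g) M := by
  ext j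
  rw [coR_apply, Matrix.vecMul, dotProduct, Matrix.vecMul, dotProduct, map_sum,
    Finsupp.finsetSum_apply]
  refine Finset.sum_congr rfl fun i _ => ?_
  rw [Matrix.map_apply, co_mul_iota, coR_apply]

/-- the vector over `S` with the given coefficients (on the left) -/
noncomputable def mkL (Y : FreeGroup X →₀ (I → R)) : I → S :=
  fun i => ∑ g ∈ Y.support, E.iota (Y g i) * ((E.t g : Sˣ) : S)

theorem coL_single (g h : FreeGroup X) (r : R) [Decidable (g = h)] :
    E.coL (E.iota r * ((E.t g : Sˣ) : S)) h = if g = h then r else 0 := by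
  classical
  unfold coL
  rw [iota_t, co_single, Finsupp.single_apply]
  by_cases hh : g = h
  · rw [if_pos hh, if_pos hh, ← hh, ← RingAut.mul_apply, ← map_mul, mul_inv_cancel, map_one,
      RingAut.one_apply]
  · rw [if_neg hh, if_neg hh, map_zero]

theorem coL_sum {ι : Type*} (s : Finset ι) (f : ι → S) (g : FreeGroup X) :
    E.coL (∑ i ∈ s, f i) g = ∑ i ∈ s, E.coL (f i) g := by
  classical
  induction s using Finset.induction_on with
  | empty => rw [Finset.sum_empty, Finset.sum_empty, coL_zero]
  | insert i s hi ih => rw [Finset.sum_insert hi, Finset.sum_insert hi, coL_add, ih]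

omit [Fintype I] in
theorem coL_mkL (Y : FreeGroup X →₀ (I → R)) (i : I) (g : FreeGroup X) :
    E.coL (E.mkL Y i) g = Y g i := by
  classical
  unfold mkL
  rw [coL_sum]
  simp only [coL_single]
  rw [Finset.sum_ite_eq']
  split_ifs with h
  · rfl
  · rw [Finsupp.notMem_support_iff.1 h]; rfl

open Classical in
/-- the family of coefficients (on the left) of a vector -/
noncomputable def coC (x : I → S) : FreeGroup X →₀ (I → R) :=
  Finsupp.onFinset (Finset.univ.biUnion fun i => (E.co (x i)).support)
    (fun g i => E.coL (x i) g) (by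
      intro g hg
      by_contra hcon
      apply hg
      ext i
      rw [Finset.mem_biUnion] at hcon
      push Not at hcon
      have := Finsupp.notMem_support_iff.1 (hcon i (Finset.mem_univ i))
      show E.sig g (E.co (x i) g) = 0
      rw [this, map_zero])

theorem coC_apply (x : I → S) (g : FreeGroup X) (i : I) : E.coC x g i = E.coL (x i) g := rfl

theorem coC_mulVec (M : Matrix I J R) (x : J → S) (g : FreeGroup X) :
    E.coC (Matrix.mulVec (M.map E.iota) x) g = Matrix.mulVec M (E.coC x g) := by
  ext i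
  rw [coC_apply, Matrix.mulVec, dotProduct, Matrix.mulVec, dotProduct, coL_sum]
  refine Finset.sum_congr rfl fun j _ => ?_
  rw [Matrix.map_apply, coL_iota_mul, coC_apply]

end vec

/-! ### exactness -/

section ex

variable {I J L : Type} [Fintype I] [Fintype J] [Fintype L]

omit [Fintype J] in
/-- solve an equation coefficientwise -/
theorem lift_rows (N : Matrix L I R) (P : (I → R) → Prop)
    (h : ∀ r : I → R, P r → ∃ y, Matrix.vecMul y N = r) (x : I → S)
    (hx : ∀ g, P fun i => E.co (x i) g) :
    ∃ y, Matrix.vecMul y (N.map E.iota) = x := by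
  classical
  have h1 : ∀ r : I → R, ∃ y : L → R, (r = 0 → y = 0) ∧ (P r → Matrix.vecMul y N = r) := by
    intro r
    by_cases hr : P r
    · by_cases hr0 : r = 0
      · exact ⟨0, fun _ => rfl, fun _ => by rw [hr0, Matrix.zero_vecMul]⟩
      · obtain ⟨y, hy⟩ := h r hr
        exact ⟨y, fun h => absurd h hr0, fun _ => hy⟩
    · exact ⟨0, fun _ => rfl, fun h => absurd h hr⟩
  choose φ hφ0 hφ using h1
  refine ⟨E.mkR ((E.coR x).mapRange φ (hφ0 0 rfl)), ?_⟩
  ext i
  refine E.ext_co fun g => ?_
  have h2 : E.coR (E.mkR ((E.coR x).mapRange φ (hφ0 0 rfl))) g = φ (E.coR x g) := by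
    ext j
    rw [coR_apply, co_mkR, Finsupp.mapRange_apply]
  have h3 : P (E.coR x g) := by
    have h4 : E.coR x g = fun i => E.co (x i) g := by
      ext j; rw [coR_apply]
    rw [h4]
    exact hx g
  have h5 := congrFun (hφ (E.coR x g) h3) i
  rw [← h2, ← E.coR_vecMul, coR_apply, coR_apply] at h5
  exact h5

omit [Fintype J] in
theorem vecMul_ex (M : Matrix I J R) (N : Matrix L I R)
    (h : ∀ r : I → R, Matrix.vecMul r M = 0 → ∃ y, Matrix.vecMul y N = r) (x : I → S)
    (hx : Matrix.vecMul x (M.map E.iota) = 0) : ∃ y, Matrix.vecMul y (N.map E.iota) = x := by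
  classical
  refine E.lift_rows N (fun r => Matrix.vecMul r M = 0) h x fun g => ?_
  ext j
  have h4 := congrArg (fun s : J → S => E.co (s j) g) hx
  simp only [Matrix.vecMul, dotProduct, map_sum, Finsupp.finsetSum_apply, Matrix.map_apply,
    co_mul_iota, Pi.zero_apply, map_zero, Finsupp.zero_apply] at h4
  rw [Matrix.vecMul, dotProduct, Pi.zero_apply, ← h4]

theorem mulVec_inj (M : Matrix L I R) (h : ∀ r : I → R, Matrix.mulVec M r = 0 → r = 0)
    (y : I → S) (hy : Matrix.mulVec (M.map E.iota) y = 0) : y = 0 := by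
  ext i
  refine E.ext_coL fun g => ?_
  have h1 : E.coC y g = 0 := by
    apply h
    rw [← E.coC_mulVec, hy]
    ext j
    rw [coC_apply, Pi.zero_apply, coL_zero]
    rfl
  rw [← E.coC_apply y g i, h1, Pi.zero_apply, Pi.zero_apply, coL_zero]


theorem mulVec_ex (M : Matrix L I R) (N : Matrix I J R)
    (h : ∀ r : I → R, Matrix.mulVec M r = 0 → ∃ y, Matrix.mulVec N y = r) (x : I → S)
    (hx : Matrix.mulVec (M.map E.iota) x = 0) : ∃ y, Matrix.mulVec (N.map E.iota) y = x := by
  classical
  have h1 : ∀ r : I → R, ∃ y : J → R, (r = 0 → y = 0) ∧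
      (Matrix.mulVec M r = 0 → Matrix.mulVec N y = r) := by
    intro r
    by_cases hr : Matrix.mulVec M r = 0
    · by_cases hr0 : r = 0
      · exact ⟨0, fun _ => rfl, fun _ => by rw [hr0, Matrix.mulVec_zero]⟩
      · obtain ⟨y, hy⟩ := h r hr
        exact ⟨y, fun h => absurd h hr0, fun _ => hy⟩
    · exact ⟨0, fun _ => rfl, fun h => absurd h hr⟩
  choose φ hφ0 hφ using h1
  refine ⟨E.mkL ((E.coC x).mapRange φ (hφ0 0 rfl)), ?_⟩
  ext i
  refine E.ext_coL fun g => ?_
  have h2 : E.coC (E.mkL ((E.coC x).mapRange φ (hφ0 0 rfl))) g = φ (E.coC x g) := by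
    ext j
    rw [coC_apply, coL_mkL, Finsupp.mapRange_apply]
  have h3 : Matrix.mulVec M (E.coC x g) = 0 := by
    rw [← E.coC_mulVec, hx]
    ext j
    rw [coC_apply, Pi.zero_apply, coL_zero]
    rfl
  have h5 := congrFun (hφ (E.coC x g) h3) i
  rw [← h2, ← E.coC_mulVec, coC_apply, coC_apply] at h5
  exact h5

end ex

theorem map_ex {T : RC R} {k : ℕ} (h : T.Ex k) : (T.map E.iota).Ex k :=
  fun x hx => E.vecMul_ex (T.D k) (T.D (k + 1)) h x hx

theorem map_coex {T : RC R} {l : ℕ} (h : T.CoEx l) : (T.map E.iota).CoEx l := by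
  cases l with
  | zero => exact fun y hy => E.mulVec_inj (T.D 0) h y hy
  | succ l => exact fun y hy => E.mulVec_ex (T.D (l + 1)) (T.D l) h y hy

end SkF

end Pool.Agent.UP
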