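import Mathlib
import Pool.Agent.Lib.UP.Defs

/-!
# TANK UP, row U3, first half: existence of free resolutions and of their twists
-/

namespace Pool.Agent.UP

universe u v w w'

/-! ## Existence -/

section exists_res
variable {R : Type u} [Ring R] [IsNoetherianRing R]

/-- every submodule of `R^n` is the row space of a matrix -/
theorem U3_gen {n : ℕ} (N : Submodule R (Fin n → R)) :
    ∃ (m : ℕ) (D : Matrix (Fin m) (Fin n) R), LinearMap.range (Matrix.vecMulLinear D) = N := by
  obtain ⟨m, s, hs⟩ := Submodule.fg_iff_exists_fin_generating_family.1 (IsNoetherian.noetherian N)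
  refine ⟨m, Matrix.of s, ?_⟩
  rw [← hs]
  apply le_antisymm
  · rintro _ ⟨x, rfl⟩
    have h : Matrix.vecMulLinear (Matrix.of s) x = ∑ i, x i • s i := by
      funext j
      simp [Matrix.vecMulLinear, Matrix.vecMul, dotProduct, Finset.sum_apply]
    rw [h]
    exact Submodule.sum_mem _ fun i _ =>
      Submodule.smul_mem _ _ (Submodule.subset_span ⟨i, rfl⟩)
  · rw [Submodule.span_le]
    rintro _ ⟨i, rfl⟩
    refine ⟨Pi.single i 1, ?_⟩
    funext j
    simp [Matrix.vecMulLinear]

/-- the number of generators -/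
noncomputable def U3_m {n : ℕ} (N : Submodule R (Fin n → R)) : ℕ := (U3_gen N).choose

/-- the matrix of generators -/
noncomputable def U3_D {n : ℕ} (N : Submodule R (Fin n → R)) : Matrix (Fin (U3_m N)) (Fin n) R :=
  (U3_gen N).choose_spec.choose

theorem U3_range {n : ℕ} (N : Submodule R (Fin n → R)) :
    LinearMap.range (Matrix.vecMulLinear (U3_D N)) = N := (U3_gen N).choose_spec.choose_spec

/-- the successive syzygies -/
noncomputable def U3_st {n : ℕ} (N : Submodule R (Fin n → R)) :
    ℕ → Σ n : ℕ, Submodule R (Fin n → R)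
  | 0 => ⟨n, N⟩
  | k + 1 => ⟨U3_m (U3_st N k).2, LinearMap.ker (Matrix.vecMulLinear (U3_D (U3_st N k).2))⟩

theorem U3_row {n : ℕ} (N : Submodule R (Fin n → R)) (x : Fin (U3_m N) → R) :
    Matrix.vecMul x (U3_D N) ∈ N := by
  have h : Matrix.vecMulLinear (U3_D N) x ∈ LinearMap.range (Matrix.vecMulLinear (U3_D N)) :=
    ⟨x, rfl⟩
  rw [U3_range] at h
  exact h

theorem U3_cov {n : ℕ} (N : Submodule R (Fin n → R)) (x : Fin n → R) (hx : x ∈ N) :
    ∃ y, Matrix.vecMul y (U3_D N) = x := by
  rw [← U3_range N] at hx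
  obtain ⟨y, hy⟩ := hx
  exact ⟨y, hy⟩

/-- the complex -/
noncomputable def U3_T {n : ℕ} (N : Submodule R (Fin n → R)) : RC R where
  ι k := Fin (U3_st N k).1
  D k := U3_D (U3_st N k).2
  DD k := by
    ext i j
    have h := U3_row (U3_st N (k + 1)).2 (Pi.single i 1)
    have h2 : Matrix.vecMul (Matrix.vecMul (Pi.single i 1) (U3_D (U3_st N (k + 1)).2))
      (U3_D (U3_st N k).2) = 0 := h
    rw [Matrix.vecMul_vecMul] at h2
    have h3 := congrFun h2 j
    rw [Matrix.single_one_vecMul] at h3
    exact h3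

theorem exists_res (M : Type w) [AddCommGroup M] [Module R M] [Module.Finite R M] :
    ∃ T : RC R, Nonempty (Res T M) := by
  obtain ⟨n, f, hf⟩ := Module.Finite.exists_fin' R M
  refine ⟨U3_T (LinearMap.ker f), ⟨⟨f, hf, ?_, ?_, ?_⟩⟩⟩
  · intro x
    exact U3_row (LinearMap.ker f) x
  · intro x hx
    exact U3_cov (LinearMap.ker f) x hx
  · intro k x hx
    exact U3_cov (U3_st (LinearMap.ker f) (k + 1)).2 x hx

end exists_res

/-! ## Twists -/

section exists_twist
variable {R : Type u} {R' : Type v} [Ring R] [Ring R']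

theorem U3_vecMul_map {ι κ : Type*} [Fintype ι] (f : R →+* R') (x : ι → R) (A : Matrix ι κ R) :
    Matrix.vecMul (fun i => f (x i)) (A.map f) = fun j => f (Matrix.vecMul x A j) := by
  funext j
  simp [Matrix.vecMul, dotProduct]

theorem U3_vecMul_symm {ι κ : Type*} [Fintype ι] (σ : R ≃+* R') (x : ι → R') (A : Matrix ι κ R) :
    (fun j => σ.symm (Matrix.vecMul x (A.map (σ : R →+* R')) j)) =
      Matrix.vecMul (fun i => σ.symm (x i)) A := by
  funext j
  simp [Matrix.vecMul, dotProduct]

/-- exactness of the twist of a complex -/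
theorem U3_ex {T : RC R} (σ : R ≃+* R') {k : ℕ} (h : T.Ex k) :
    (T.map (σ : R →+* R')).Ex k := by
  intro (x : T.ι (k + 1) → R') (hx' : Matrix.vecMul x ((T.D k).map (σ : R →+* R')) = 0)
  obtain ⟨y, hy⟩ := h (fun i => σ.symm (x i)) (by
    refine (U3_vecMul_symm σ x (T.D k)).symm.trans ?_
    rw [hx']
    funext j
    simp)
  refine ⟨fun i => σ (y i), ?_⟩
  have h2 := U3_vecMul_map (σ : R →+* R') y (T.D (k + 1))
  have h3 : (fun j => (σ : R →+* R') (Matrix.vecMul y (T.D (k + 1)) j)) = x := by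
    rw [hy]
    funext j
    simp
  exact h2.trans h3

/-- the augmentation of the twist -/
def U3_eps {ι : Type} {M : Type w} {M' : Type w'}
    [AddCommGroup M] [Module R M] [AddCommGroup M'] [Module R' M'] (ε : (ι → R) →ₗ[R] M)
    (σ : R ≃+* R') (φ : M ≃+ M') (hφ : ∀ (r : R) (x : M), φ (r • x) = σ r • φ x) :
    (ι → R') →ₗ[R'] M' where
  toFun x := φ (ε fun i => σ.symm (x i))
  map_add' x y := by
    rw [← map_add φ, ← map_add ε]
    congr 2
    funext i
    simp
  map_smul' c x := by
    have h : (fun i => σ.symm ((c • x) i)) = σ.symm c • fun i => σ.symm (x i) := by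
      funext i
      simp
    rw [h, map_smul, hφ, RingEquiv.apply_symm_apply]
    rfl

/-- twist of a resolution along a ring isomorphism -/
theorem exists_twist {M : Type w} {M' : Type w'}
    [AddCommGroup M] [Module R M] [AddCommGroup M'] [Module R' M'] {T : RC R} (r : Res T M)
    (σ : R ≃+* R') (φ : M ≃+ M') (hφ : ∀ (r : R) (x : M), φ (r • x) = σ r • φ x) :
    Nonempty (Res (T.map (σ : R →+* R')) M') := by
  refine ⟨⟨U3_eps r.ε σ φ hφ, ?_, ?_, ?_, ?_⟩⟩
  · intro m
    obtain ⟨x, hx⟩ := r.surj (φ.symm m)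
    refine ⟨fun i => σ (x i), ?_⟩
    change φ (r.ε fun i => σ.symm (σ (x i))) = m
    have h : (fun i => σ.symm (σ (x i))) = x := by
      funext i
      simp
    rw [h, hx, AddEquiv.apply_symm_apply]
  · intro (x : T.ι (0 + 1) → R')
    have h := U3_vecMul_symm σ x (T.D 0)
    have h2 : φ (r.ε (Matrix.vecMul (fun i => σ.symm (x i)) (T.D 0))) = 0 := by
      rw [r.zero, map_zero]
    rw [← h] at h2
    exact h2
  · intro (x : T.ι 0 → R') (hx' : φ (r.ε fun i => σ.symm (x i)) = 0)
    obtain ⟨y, hy⟩ := r.ker (fun i => σ.symm (x i)) (by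
      rw [← map_zero φ] at hx'
      exact φ.injective hx')
    refine ⟨fun i => σ (y i), ?_⟩
    have h2 := U3_vecMul_map (σ : R →+* R') y (T.D 0)
    have h3 : (fun j => (σ : R →+* R') (Matrix.vecMul y (T.D 0) j)) = x := by
      rw [hy]
      funext j
      simp
    exact h2.trans h3
  · intro k
    exact U3_ex σ (r.ex k)

end exists_twist

end Pool.Agent.UP
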