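import Mathlib
import Pool.Agent.Lib.UP.Defs
import Pool.Agent.Lib.UP.U3a

/-!
# TANK UP, row U3 (second part): lifts of linear and semilinear maps to resolutions
-/

namespace Pool.Agent.UP

universe u v w w'

/-- solving `Y * B = W` row by row -/
theorem U3_exists_rows {R : Type u} [Ring R] {c b d : Type} [Fintype b]
    (B : Matrix b d R) (W : Matrix c d R) (h : ∀ i, ∃ y, Matrix.vecMul y B = W i) :
    ∃ Y : Matrix c b R, Y * B = W := by
  choose y hy using h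
  refine ⟨y, ?_⟩
  funext i
  rw [← hy i]
  exact Matrix.mul_apply_eq_vecMul y B i

/-- a lift of a semilinear map at the positions `k`, `k + 1` -/
private def U3_State {R : Type u} [Ring R] (T1 T0 : RC R) (σ : R ≃+* R) (k : ℕ) : Type u :=
  {p : Matrix (T1.ι k) (T0.ι k) R × Matrix (T1.ι (k + 1)) (T0.ι (k + 1)) R //
    p.2 * T0.D k = (T1.D k).map σ * p.1}

private theorem U3_step {R : Type u} [Ring R] {T1 T0 : RC R} (σ : R ≃+* R) (hex : ∀ k, T0.Ex k)
    (k : ℕ) (V : Matrix (T1.ι k) (T0.ι k) R) (V' : Matrix (T1.ι (k + 1)) (T0.ι (k + 1)) R)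
    (h : V' * T0.D k = (T1.D k).map σ * V) :
    ∃ V'' : Matrix (T1.ι (k + 1 + 1)) (T0.ι (k + 1 + 1)) R,
      V'' * T0.D (k + 1) = (T1.D (k + 1)).map σ * V' := by
  refine U3_exists_rows _ _ fun i => hex k _ ?_
  have h2 : (T1.D (k + 1)).map σ * V' * T0.D k = 0 := by
    rw [Matrix.mul_assoc, h, ← Matrix.mul_assoc]
    have h3 : (T1.D (k + 1)).map σ * (T1.D k).map σ = 0 := by
      have := Matrix.map_mul (L := T1.D (k + 1)) (M := T1.D k) (f := (σ : R →+* R))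
      rw [T1.DD] at this
      refine (Eq.trans ?_ this.symm).trans (Matrix.map_zero _ (map_zero _))
      rfl
    rw [h3, Matrix.zero_mul]
  have h4 := congrFun h2 i
  rw [Matrix.mul_apply_eq_vecMul] at h4
  exact h4

theorem exists_lift_semi {R : Type u} [Ring R] {M : Type w} [AddCommGroup M] [Module R M]
    {M0 : Type w'} [AddCommGroup M0] [Module R M0] {T1 T0 : RC R} (r1 : Res T1 M) (r0 : Res T0 M0)
    (σ : R ≃+* R) (φ : M →+ M0) (hφ : ∀ (r : R) (x : M), φ (r • x) = σ r • φ x) :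
    ∃ V : ∀ k, Matrix (T1.ι k) (T0.ι k) R,
      (∀ k, V (k + 1) * T0.D k = (T1.D k).map σ * V k) ∧
      ∀ x, r0.ε (Matrix.vecMul (fun i => σ (x i)) (V 0)) = φ (r1.ε x) := by
  classical
  have h0 : ∀ i : T1.ι 0, ∃ y, r0.ε y = φ (r1.ε (Pi.single i 1)) := fun i => r0.surj _
  choose V0 hV0 using h0
  have hV : ∀ x, r0.ε (Matrix.vecMul (fun i => σ (x i)) (Matrix.of V0)) = φ (r1.ε x) := by
    intro x
    rw [Matrix.vecMul_eq_sum, map_sum]
    have hx : x = ∑ i, x i • (Pi.single i 1 : T1.ι 0 → R) := by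
      exact pi_eq_sum_univ' x
    conv_rhs => rw [hx, map_sum, map_sum]
    refine Finset.sum_congr rfl fun i _ => ?_
    rw [map_smul, map_smul, hφ, ← hV0 i]
    rfl
  have h1 : ∃ V1 : Matrix (T1.ι (0 + 1)) (T0.ι (0 + 1)) R,
      V1 * T0.D 0 = (T1.D 0).map σ * Matrix.of V0 := by
    refine U3_exists_rows _ _ fun i => r0.ker _ ?_
    rw [Matrix.mul_apply_eq_vecMul]
    refine (hV (T1.D 0 i)).trans ?_
    have h2 := r1.zero (Pi.single i 1)
    rw [Matrix.single_one_vecMul] at h2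
    have h3 : r1.ε (T1.D 0 i) = 0 := h2
    rw [h3, map_zero]
  obtain ⟨V1, hV1⟩ := h1
  choose nxt hnxt using U3_step (T1 := T1) (T0 := T0) σ r0.ex
  let st : ∀ k, U3_State T1 T0 σ k := fun k => Nat.rec ⟨(Matrix.of V0, V1), hV1⟩
    (fun k s => ⟨(s.1.2, nxt k s.1.1 s.1.2 s.2), hnxt k s.1.1 s.1.2 s.2⟩) k
  exact ⟨fun k => (st k).1.1, fun k => (st k).2, hV⟩

theorem exists_lift {R : Type u} [Ring R] {M : Type w} [AddCommGroup M] [Module R M]
    {M0 : Type w'} [AddCommGroup M0] [Module R M0] {T1 T0 : RC R} (r1 : Res T1 M) (r0 : Res T0 M0)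
    (φ : M →ₗ[R] M0) :
    ∃ f : ChM T1 T0, ∀ x, r0.ε (Matrix.vecMul x (f.U 0)) = φ (r1.ε x) := by
  obtain ⟨V, h1, h2⟩ := exists_lift_semi r1 r0 (RingEquiv.refl R) φ.toAddMonoidHom
    (fun r x => φ.map_smul r x)
  exact ⟨⟨V, fun k => (h1 k).trans (by
    congr 1)⟩, h2⟩

end Pool.Agent.UP
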