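import Mathlib
import Pool.Agent.Lib.UP.Defs
set_option autoImplicit false

/-! TANK UP, row U5 (helper94): mapping cones of chain maps of complexes of free modules. -/

namespace Pool.Agent.UP

universe u v w w'

section U5
variable {R : Type u} [Ring R] {T1 T0 : RC R} (f : ChM T1 T0)

omit [Ring R] in
theorem U5_eta {A B : Type} (y : A ⊕ B → R) :
    ∃ (a : A → R) (b : B → R), y = Sum.elim a b :=
  ⟨fun i => y (Sum.inl i), fun i => y (Sum.inr i), by funext i; rcases i with i | i <;> rfl⟩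

theorem U5_row0 (a : T1.ι 0 → R) (b : T0.ι 1 → R) :
    Matrix.vecMul (Sum.elim a b) (Matrix.fromRows (f.U 0) (T0.D 0)) =
      Matrix.vecMul a (f.U 0) + Matrix.vecMul b (T0.D 0) := by
  funext j
  simp [Matrix.vecMul, dotProduct, Fintype.sum_sum_type]

theorem U5_row1 (k : ℕ) (a : T1.ι (k + 1) → R) (b : T0.ι (k + 2) → R) :
    Matrix.vecMul (Sum.elim a b)
      (Matrix.fromBlocks (-T1.D k) (f.U (k + 1)) 0 (T0.D (k + 1))) =
      Sum.elim (-(Matrix.vecMul a (T1.D k)))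
        (Matrix.vecMul a (f.U (k + 1)) + Matrix.vecMul b (T0.D (k + 1))) := by
  rw [Matrix.vecMul_fromBlocks]
  simp [Matrix.vecMul_neg]

theorem U5_col0 (c : T0.ι 0 → R) :
    Matrix.mulVec (Matrix.fromRows (f.U 0) (T0.D 0)) c =
      Sum.elim (Matrix.mulVec (f.U 0) c) (Matrix.mulVec (T0.D 0) c) := by
  funext i
  rcases i with i | i <;> rfl

theorem U5_col1 (k : ℕ) (a : T1.ι k → R) (b : T0.ι (k + 1) → R) :
    Matrix.mulVec (Matrix.fromBlocks (-T1.D k) (f.U (k + 1)) 0 (T0.D (k + 1))) (Sum.elim a b) =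
      Sum.elim (Matrix.mulVec (f.U (k + 1)) b - Matrix.mulVec (T1.D k) a)
        (Matrix.mulVec (T0.D (k + 1)) b) := by
  rw [Matrix.fromBlocks_mulVec]
  funext i
  rcases i with i | i
  · simp [Matrix.neg_mulVec, sub_eq_add_neg, add_comm]
  · simp

omit [Ring R] in
theorem U5_inl {A B : Type} {a a' : A → R} {b b' : B → R}
    (h : (Sum.elim a b : A ⊕ B → R) = Sum.elim a' b') : a = a' := by
  funext i; exact congrFun h (Sum.inl i)

omit [Ring R] in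
theorem U5_inr {A B : Type} {a a' : A → R} {b b' : B → R}
    (h : (Sum.elim a b : A ⊕ B → R) = Sum.elim a' b') : b = b' := by
  funext i; exact congrFun h (Sum.inr i)

theorem U5_zero {A B : Type} {a : A → R} {b : B → R}
    (h : (Sum.elim a b : A ⊕ B → R) = 0) : a = 0 ∧ b = 0 :=
  ⟨by funext i; exact congrFun h (Sum.inl i), by funext i; exact congrFun h (Sum.inr i)⟩

theorem U5_zero' {A B : Type} : (Sum.elim (0 : A → R) (0 : B → R) : A ⊕ B → R) = 0 := by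
  funext i; rcases i with i | i <;> rfl

/-- the cone is exact -/
theorem U5_ex (h1 : ∀ k, T1.Ex k) (h0 : ∀ k, T0.Ex k)
    (hinj : ∀ (a : T1.ι 0 → R) (b : T0.ι 1 → R),
      Matrix.vecMul a (f.U 0) + Matrix.vecMul b (T0.D 0) = 0 →
      ∃ y, Matrix.vecMul y (T1.D 0) = a) (k : ℕ) : (cone f).Ex k := by
  rcases k with _ | k
  · intro x hx
    obtain ⟨a, b, rfl⟩ : ∃ (a : T1.ι 0 → R) (b : T0.ι 1 → R), x = Sum.elim a b := U5_eta x
    have h2 := (U5_row0 f a b).symm.trans hx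
    obtain ⟨y', hy'⟩ := hinj a b h2
    have h4 : Matrix.vecMul (b + Matrix.vecMul y' (f.U 1)) (T0.D 0) = 0 := by
      rw [Matrix.add_vecMul, Matrix.vecMul_vecMul, f.comm, ← Matrix.vecMul_vecMul, hy', add_comm]
      exact h2
    obtain ⟨y'', hy''⟩ := h0 0 _ h4
    refine ⟨(Sum.elim (-y') y'' : T1.ι 1 ⊕ T0.ι 2 → R), (U5_row1 f 0 (-y') y'').trans ?_⟩
    rw [hy'', Matrix.neg_vecMul, Matrix.neg_vecMul, neg_neg, hy']
    congr 1
    abel
  · intro x hx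
    obtain ⟨a, b, rfl⟩ : ∃ (a : T1.ι (k + 1) → R) (b : T0.ι (k + 2) → R), x = Sum.elim a b :=
      U5_eta x
    obtain ⟨h2, h3⟩ := U5_zero ((U5_row1 f k a b).symm.trans hx)
    obtain ⟨y', hy'⟩ := h1 k a (neg_eq_zero.mp h2)
    have h4 : Matrix.vecMul (b + Matrix.vecMul y' (f.U (k + 2))) (T0.D (k + 1)) = 0 := by
      rw [Matrix.add_vecMul, Matrix.vecMul_vecMul, f.comm, ← Matrix.vecMul_vecMul, hy']
      exact (add_comm _ _).trans h3
    obtain ⟨y'', hy''⟩ := h0 (k + 1) _ h4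
    refine ⟨(Sum.elim (-y') y'' : T1.ι (k + 2) ⊕ T0.ι (k + 3) → R),
      (U5_row1 f (k + 1) (-y') y'').trans ?_⟩
    rw [hy'', Matrix.neg_vecMul, Matrix.neg_vecMul, neg_neg, hy']
    congr 1
    abel

/-- the cone resolves the cokernel of `ψ` (additive form) -/
theorem cone_res {M1 : Type w} {M0 : Type w} {M : Type w'} [AddCommGroup M1] [AddCommGroup M0]
    [AddCommGroup M] [Module R M] (ε1 : (T1.ι 0 → R) →+ M1) (ε0 : (T0.ι 0 → R) →+ M0)
    (ψ : M1 →+ M0) (ε : (T0.ι 0 → R) →ₗ[R] M)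
    (hk1 : ∀ x, ε1 x = 0 → ∃ y, Matrix.vecMul y (T1.D 0) = x) (hs1 : Function.Surjective ε1)
    (hk0 : ∀ x, ε0 x = 0 → ∃ y, Matrix.vecMul y (T0.D 0) = x)
    (hzz : ∀ x, ε0 (Matrix.vecMul x (T0.D 0)) = 0)
    (hz0 : ∀ x, ε (Matrix.vecMul x (T0.D 0)) = 0)
    (hx1 : ∀ k, T1.Ex k) (hx0 : ∀ k, T0.Ex k)
    (hψ : ∀ x, ψ (ε1 x) = ε0 (Matrix.vecMul x (f.U 0))) (hψi : Function.Injective ψ)
    (hε : Function.Surjective ε) (hεψ : ∀ x, ε (Matrix.vecMul x (f.U 0)) = 0)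
    (hm : ∀ x, ε x = 0 → ∃ n, ψ n = ε0 x) : ∃ r : Res (cone f) M, r.ε = ε := by
  refine ⟨⟨ε, hε, ?_, ?_, ?_⟩, rfl⟩
  · intro x
    obtain ⟨a, b, rfl⟩ : ∃ (a : T1.ι 0 → R) (b : T0.ι 1 → R), x = Sum.elim a b := U5_eta x
    refine (congrArg ε (U5_row0 f a b)).trans ?_
    rw [map_add, hεψ, hz0, add_zero]
  · intro (x : T0.ι 0 → R) hx
    obtain ⟨n, hn⟩ := hm x hx
    obtain ⟨t, rfl⟩ := hs1 n
    have h1 : ε0 (x - Matrix.vecMul t (f.U 0)) = 0 := by rw [map_sub, ← hψ, hn, sub_self]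
    obtain ⟨y, hy⟩ := hk0 _ h1
    refine ⟨(Sum.elim t y : T1.ι 0 ⊕ T0.ι 1 → R), (U5_row0 f t y).trans ?_⟩
    rw [hy]
    abel
  · intro k
    refine U5_ex f hx1 hx0 ?_ k
    intro a b h
    refine hk1 a (hψi ?_)
    rw [map_zero, hψ]
    have h1 := congrArg ε0 h
    rw [map_add, map_zero, hzz, add_zero] at h1
    exact h1

theorem cone_res_lin {M1 : Type w} {M0 : Type w} [AddCommGroup M1] [AddCommGroup M0] [Module R M1]
    [Module R M0] (r1 : Res T1 M1) (r0 : Res T0 M0) (φ : M1 →ₗ[R] M0) (hφ : Function.Injective φ)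
    (hf : ∀ x, r0.ε (Matrix.vecMul x (f.U 0)) = φ (r1.ε x)) :
    Nonempty (Res (cone f) (M0 ⧸ LinearMap.range φ)) := by
  obtain ⟨r, -⟩ := cone_res f r1.ε.toAddMonoidHom r0.ε.toAddMonoidHom φ.toAddMonoidHom
    ((LinearMap.range φ).mkQ.comp r0.ε) r1.ker r1.surj r0.ker r0.zero
    (fun x => by rw [LinearMap.comp_apply, r0.zero, map_zero]) r1.ex r0.ex
    (fun x => (hf x).symm) hφ ((Submodule.mkQ_surjective _).comp r0.surj)
    (fun x => by
      rw [LinearMap.comp_apply, hf, Submodule.mkQ_apply, Submodule.Quotient.mk_eq_zero]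
      exact ⟨_, rfl⟩)
    (fun x hx => by
      rw [LinearMap.comp_apply, Submodule.mkQ_apply, Submodule.Quotient.mk_eq_zero] at hx
      exact hx)
  exact ⟨r⟩

variable {f}

theorem cone_coex_zero (h : f.Inj 0) : (cone f).CoEx 0 := by
  intro c hc
  obtain ⟨h1, h2⟩ := U5_zero ((U5_col0 f c).symm.trans hc)
  exact h c h2 h1

theorem cone_coex_succ {l : ℕ} (h : f.Inj (l + 1)) (h1 : T1.CoEx l) :
    (cone f).CoEx (l + 1) := by
  rcases l with _ | l
  · intro c hc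
    obtain ⟨a, b, rfl⟩ : ∃ (a : T1.ι 0 → R) (b : T0.ι 1 → R), c = Sum.elim a b := U5_eta c
    obtain ⟨h2, h3⟩ := U5_zero ((U5_col1 f 0 a b).symm.trans hc)
    obtain ⟨b', hb'⟩ := h b h3 ⟨a, sub_eq_zero.mp h2⟩
    have h5 : Matrix.mulVec (T1.D 0) (a - Matrix.mulVec (f.U 0) b') = 0 := by
      rw [Matrix.mulVec_sub, Matrix.mulVec_mulVec, ← f.comm, ← Matrix.mulVec_mulVec, hb',
        ← sub_eq_zero.mp h2, sub_self]
    have h6 := h1 _ h5
    refine ⟨b', (U5_col0 f b').trans ?_⟩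
    rw [hb', ← sub_eq_zero.mp h6]
  · intro c hc
    obtain ⟨a, b, rfl⟩ : ∃ (a : T1.ι (l + 1) → R) (b : T0.ι (l + 2) → R), c = Sum.elim a b :=
      U5_eta c
    obtain ⟨h2, h3⟩ := U5_zero ((U5_col1 f (l + 1) a b).symm.trans hc)
    obtain ⟨b', hb'⟩ := h b h3 ⟨a, sub_eq_zero.mp h2⟩
    have h5 : Matrix.mulVec (T1.D (l + 1)) (a - Matrix.mulVec (f.U (l + 1)) b') = 0 := by
      rw [Matrix.mulVec_sub, Matrix.mulVec_mulVec, ← f.comm, ← Matrix.mulVec_mulVec, hb',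
        ← sub_eq_zero.mp h2, sub_self]
    obtain ⟨a', ha'⟩ := h1 _ h5
    refine ⟨(Sum.elim (-a') b' : T1.ι l ⊕ T0.ι (l + 1) → R), (U5_col1 f l (-a') b').trans ?_⟩
    rw [hb', Matrix.mulVec_neg, ha']
    congr 1
    abel

theorem inj_of_cone {l : ℕ} (h : (cone f).CoEx l) : f.Inj l := by
  rcases l with _ | _ | l
  · intro c h1 h2
    refine h c ((U5_col0 f c).trans ?_)
    rw [h1, h2]
    exact U5_zero'
  · rintro c h1 ⟨d, h2⟩
    obtain ⟨c', hc'⟩ := h (Sum.elim d c : T1.ι 0 ⊕ T0.ι 1 → R) ((U5_col1 f 0 d c).trans (by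
      rw [h1, h2, sub_self]
      exact U5_zero'))
    exact ⟨c', U5_inr ((U5_col0 f c').symm.trans hc')⟩
  · rintro c h1 ⟨d, h2⟩
    obtain ⟨c', hc'⟩ := h (Sum.elim d c : T1.ι (l + 1) ⊕ T0.ι (l + 2) → R)
      ((U5_col1 f (l + 1) d c).trans (by
        rw [h1, h2, sub_self]
        exact U5_zero'))
    obtain ⟨a, b, rfl⟩ : ∃ (a : T1.ι l → R) (b : T0.ι (l + 1) → R), c' = Sum.elim a b := U5_eta c'
    exact ⟨b, U5_inr ((U5_col1 f l a b).symm.trans hc')⟩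

theorem inj_of_coex {l : ℕ} (h : T0.CoEx l) : f.Inj l := by
  rcases l with _ | l
  · intro c h1 _
    exact h c h1
  · intro c h1 _
    exact h c h1

end U5

end Pool.Agent.UP
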