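import Mathlib
import Pool.Agent.Lib.UP.U3
import Pool.Agent.Lib.UP.U3a
import Pool.Agent.Lib.UP.U5
import Pool.Agent.Lib.UP.FU6

/-!
TANK UP, section 4: the cone resolution of a finitely presented module over the skew group ring
`S = R * F` of a free group, from its lattices.
-/

set_option autoImplicit false

open scoped BigOperators

namespace Pool.Agent.UP

universe u v w

/-! ### the boundary map as a map of families in the lattices -/

namespace SemiF

variable {X : Type v} {R : Type u} {K : Type w} [Ring R] [AddCommGroup K] [Module R K]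
  (A : SemiF X R K) (M : Submodule R K)

/-- the inclusion of families -/
noncomputable def inc : (FreeGroup X →₀ M) →+ (FreeGroup X →₀ K) :=
  Finsupp.mapRange.addMonoidHom M.subtype.toAddMonoidHom

theorem inc_single (g : FreeGroup X) (x : M) :
    inc M (Finsupp.single g x) = Finsupp.single g (x : K) := by
  unfold inc
  rw [Finsupp.mapRange.addMonoidHom_apply, Finsupp.mapRange_single]
  rfl

theorem inc_apply (x : FreeGroup X →₀ M) (g : FreeGroup X) : inc M x g = x g := by
  unfold inc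
  rw [Finsupp.mapRange.addMonoidHom_apply, Finsupp.mapRange_apply]
  rfl

theorem inc_inj : Function.Injective (inc (X := X) M) := by
  intro x y h
  ext g
  rw [← inc_apply, ← inc_apply, h]

/-- `a ↦ z_j a_j` -/
def vj (j : X) : (∀ j, A.K1 M j) →+ M where
  toFun a := ⟨A.ac (FreeGroup.of j) (a j), (A.mem_K1.1 (a j).2).2⟩
  map_zero' := by
    apply Subtype.ext
    show A.ac (FreeGroup.of j) ((0 : A.K1 M j) : K) = 0
    rw [Submodule.coe_zero, map_zero]
  map_add' a b := by
    apply Subtype.ext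
    show A.ac (FreeGroup.of j) ((a j + b j : A.K1 M j) : K) = _
    rw [Submodule.coe_add, map_add]
    rfl

theorem vj_smul (j : X) (r : R) (a : ∀ j, A.K1 M j) :
    A.vj M j (r • a) = A.sig (FreeGroup.of j) r • A.vj M j a := by
  apply Subtype.ext
  show A.ac (FreeGroup.of j) ((r • a j : A.K1 M j) : K) = _
  rw [Submodule.coe_smul, A.ac_smul]
  rfl

/-- a family in the product as a family of edges -/
noncomputable def cv [Fintype X] : (FreeGroup X →₀ ∀ j, A.K1 M j) →+ (X × FreeGroup X →₀ K) :=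
  Finsupp.liftAddHom fun g => ∑ j, (Finsupp.singleAddHom (j, g * (FreeGroup.of j)⁻¹)).comp
    ((A.K1 M j).subtype.toAddMonoidHom.comp (Pi.evalAddMonoidHom (fun j => A.K1 M j) j))

theorem cv_single [Fintype X] (g : FreeGroup X) (a : ∀ j, A.K1 M j) :
    A.cv M (Finsupp.single g a) =
      ∑ j, Finsupp.single (j, g * (FreeGroup.of j)⁻¹) ((a j : A.K1 M j) : K) := by
  unfold cv
  rw [Finsupp.liftAddHom_apply_single, AddMonoidHom.finsetSum_apply]
  rfl

theorem cv_apply [Fintype X] (y : FreeGroup X →₀ ∀ j, A.K1 M j) (j : X) (h : FreeGroup X) :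
    A.cv M y (j, h) = ((y (h * FreeGroup.of j) j : A.K1 M j) : K) := by
  classical
  induction y using Finsupp.induction_linear with
  | zero => simp
  | add x y hx hy =>
    rw [map_add, Finsupp.add_apply, hx, hy, Finsupp.add_apply, Pi.add_apply, Submodule.coe_add]
  | single g a =>
    rw [cv_single, Finsupp.finsetSum_apply, Finset.sum_eq_single j]
    · by_cases hg : g = h * FreeGroup.of j
      · rw [hg, mul_inv_cancel_right, Finsupp.single_eq_same, Finsupp.single_eq_same]
      · rw [Finsupp.single_apply, if_neg, Finsupp.single_apply, if_neg hg]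
        · rfl
        · intro h1
          apply hg
          have h2 : g * (FreeGroup.of j)⁻¹ = h := (Prod.ext_iff.1 h1).2
          rw [← h2, inv_mul_cancel_right]
    · intro i _ hi
      rw [Finsupp.single_apply, if_neg]
      intro h1
      exact hi (Prod.ext_iff.1 h1).1
    · intro h1; exact absurd (Finset.mem_univ _) h1

theorem cv_inj [Fintype X] {y : FreeGroup X →₀ ∀ j, A.K1 M j} (h : A.cv M y = 0) : y = 0 := by
  ext g j
  have := A.cv_apply M y j (g * (FreeGroup.of j)⁻¹)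
  rw [inv_mul_cancel_right, h, Finsupp.zero_apply] at this
  rw [← this]
  rfl

theorem cv_surj [Fintype X] (y : X × FreeGroup X →₀ K) (hy : ∀ p, y p ∈ A.K1 M p.1) :
    ∃ n, A.cv M n = y := by
  classical
  refine ind_vals (L := fun p : X × FreeGroup X => A.K1 M p.1) (P := fun y => ∃ n, A.cv M n = y)
    ⟨0, map_zero _⟩ ?_ ?_ y hy
  · rintro ⟨j, h⟩ b hb
    refine ⟨Finsupp.single (h * FreeGroup.of j) (Pi.single j ⟨b, hb⟩), ?_⟩
    rw [cv_single, Finset.sum_eq_single j]
    · rw [Pi.single_eq_same, mul_inv_cancel_right]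
    · intro i _ hi
      rw [Pi.single_eq_of_ne hi, Submodule.coe_zero, Finsupp.single_zero]
    · intro h1; exact absurd (Finset.mem_univ _) h1
  · rintro x y ⟨n, rfl⟩ ⟨n', rfl⟩
    exact ⟨n + n', map_add _ _ _⟩

/-- the sum map `prod_j K1 j -> K0` -/
def s0 [Fintype X] : (∀ j, A.K1 M j) →ₗ[R] M :=
  ∑ j, (Submodule.inclusion (inf_le_left : A.K1 M j ≤ M)).comp
    (LinearMap.proj (φ := fun j => A.K1 M j) j)

theorem s0_coe [Fintype X] (a : ∀ j, A.K1 M j) :
    ((A.s0 M a : M) : K) = ∑ j, ((a j : A.K1 M j) : K) := by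
  unfold s0
  rw [LinearMap.sum_apply, Submodule.coe_sum]
  rfl

/-- the boundary map `1 (x) a ↦ sum_j (1 (x) a_j - z_j⁻¹ (x) z_j a_j)` -/
noncomputable def bdy [Fintype X] : (FreeGroup X →₀ ∀ j, A.K1 M j) →+ (FreeGroup X →₀ M) :=
  Finsupp.liftAddHom fun g => (Finsupp.singleAddHom g).comp (A.s0 M).toAddMonoidHom -
    ∑ j, (Finsupp.singleAddHom (g * (FreeGroup.of j)⁻¹)).comp (A.vj M j)

theorem bdy_single [Fintype X] (g : FreeGroup X) (a : ∀ j, A.K1 M j) :
    A.bdy M (Finsupp.single g a) = Finsupp.single g (A.s0 M a) -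
      ∑ j, Finsupp.single (g * (FreeGroup.of j)⁻¹) (A.vj M j a) := by
  unfold bdy
  rw [Finsupp.liftAddHom_apply_single, AddMonoidHom.sub_apply, AddMonoidHom.finsetSum_apply]
  rfl

theorem inc_bdy [Fintype X] (y : FreeGroup X →₀ ∀ j, A.K1 M j) :
    inc M (A.bdy M y) = A.psi (A.cv M y) := by
  induction y using Finsupp.induction_linear with
  | zero => simp
  | add x y hx hy => rw [map_add, map_add, hx, hy, map_add, map_add]
  | single g a =>
    rw [bdy_single, map_sub, inc_single, s0_coe, map_sum, cv_single, map_sum,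
      Finsupp.single_finsetSum, ← Finset.sum_sub_distrib]
    refine Finset.sum_congr rfl fun j _ => ?_
    rw [inc_single, psi_single, inv_mul_cancel_right]
    rfl

theorem bdy_inj [Fintype X] [DecidableEq X] : Function.Injective (A.bdy M) := by
  rw [injective_iff_map_eq_zero]
  intro y hy
  apply A.cv_inj M
  apply A.psi_inj
  rw [← inc_bdy, hy, map_zero]

theorem bdy_apply [Fintype X] (y : FreeGroup X →₀ ∀ j, A.K1 M j) (h : FreeGroup X) :
    A.bdy M y h = A.s0 M (y h) - ∑ j, A.vj M j (y (h * FreeGroup.of j)) := by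
  classical
  induction y using Finsupp.induction_linear with
  | zero => simp
  | add x y hx hy =>
    rw [map_add, Finsupp.add_apply, hx, hy, Finsupp.add_apply, map_add]
    simp only [Finsupp.add_apply, map_add, Finset.sum_add_distrib]
    abel
  | single g a =>
    rw [bdy_single, Finsupp.sub_apply, Finsupp.finsetSum_apply]
    congr 1
    · rw [Finsupp.single_apply, Finsupp.single_apply]
      split_ifs
      · rfl
      · rw [map_zero]
    · refine Finset.sum_congr rfl fun j _ => ?_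
      by_cases hg : g = h * FreeGroup.of j
      · rw [hg, mul_inv_cancel_right, Finsupp.single_eq_same, Finsupp.single_eq_same]
      · rw [Finsupp.single_apply, if_neg, Finsupp.single_apply, if_neg hg, map_zero]
        intro h1
        apply hg
        rw [← h1, inv_mul_cancel_right]

/-- middle exactness, for families in the lattices -/
theorem exists_bdy [Fintype X] [DecidableEq X] {m : ℕ} {L : Submodule R K}
    (hL : A.RelBall m L) (x : FreeGroup X →₀ A.K0 m L) (h0 : A.sumK (inc _ x) = 0) :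
    ∃ n, A.bdy (A.K0 m L) n = x := by
  obtain ⟨y, hy1, hy2⟩ := A.exact_mid hL (inc _ x)
    (fun g => by rw [inc_apply]; exact (x g).2) h0
  obtain ⟨n, rfl⟩ := A.cv_surj _ y hy1
  exact ⟨n, inc_inj _ (by rw [inc_bdy, hy2])⟩

end SemiF

/-! ### the cone resolution -/

namespace SkF

variable {X : Type v} {R S : Type u} [Ring R] [Ring S] (E : SkF X R S)

theorem t_inv_iota (g : FreeGroup X) (r : R) :
    ((E.t g⁻¹ : Sˣ) : S) * E.iota (E.sig g r) = E.iota r * ((E.t g⁻¹ : Sˣ) : S) := by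
  rw [E.comm, ← RingAut.mul_apply, ← map_mul, inv_mul_cancel, map_one, RingAut.one_apply]

/-- the chain map of the cone -/
theorem exists_Psi [Fintype X] {T1 T0 : RC R} (u : ChM T1 T0)
    (V : X → ∀ k, Matrix (T1.ι k) (T0.ι k) R)
    (hV : ∀ j k, V j (k + 1) * T0.D k = (T1.D k).map (E.sig (FreeGroup.of j)) * V j k) :
    ∃ Ψ : ChM (T1.map E.iota) (T0.map E.iota), ∀ k, Ψ.U k = (u.U k).map E.iota -
      ∑ j, ((E.t (FreeGroup.of j)⁻¹ : Sˣ) : S) • (V j k).map E.iota := by
  refine ⟨⟨fun k => (u.U k).map E.iota -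
      ∑ j, ((E.t (FreeGroup.of j)⁻¹ : Sˣ) : S) • (V j k).map E.iota, fun k => ?_⟩, fun k => rfl⟩
  show ((u.U (k + 1)).map E.iota -
      ∑ j, ((E.t (FreeGroup.of j)⁻¹ : Sˣ) : S) • (V j (k + 1)).map E.iota) * (T0.D k).map E.iota =
    (T1.D k).map E.iota * ((u.U k).map E.iota -
      ∑ j, ((E.t (FreeGroup.of j)⁻¹ : Sˣ) : S) • (V j k).map E.iota)
  rw [Matrix.sub_mul, Matrix.mul_sub, ← Matrix.map_mul, ← Matrix.map_mul, u.comm,
    Matrix.sum_mul, Matrix.mul_sum]
  congr 1
  refine Finset.sum_congr rfl fun j _ => ?_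
  rw [Matrix.smul_mul, ← Matrix.map_mul, hV]
  ext a b
  rw [Matrix.smul_apply, Matrix.map_apply, Matrix.mul_apply, Matrix.mul_apply, map_sum,
    Finset.smul_sum]
  refine Finset.sum_congr rfl fun c _ => ?_
  rw [Matrix.map_apply, map_mul, Matrix.map_apply, Matrix.smul_apply, Matrix.map_apply,
    smul_eq_mul, smul_eq_mul, ← mul_assoc, t_inv_iota, mul_assoc]

theorem coR_Psi [Fintype X] {I J : Type} [Fintype I] [Fintype J] [DecidableEq I] [DecidableEq J]
    (x : I → S) (U : Matrix I J R) (V : X → Matrix I J R) (h : FreeGroup X) :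
    E.coR (Matrix.vecMul x (U.map E.iota -
      ∑ j, ((E.t (FreeGroup.of j)⁻¹ : Sˣ) : S) • (V j).map E.iota)) h =
      Matrix.vecMul (E.coR x h) U - ∑ j, Matrix.vecMul
        (fun i => E.sig (FreeGroup.of j) (E.coR x (h * FreeGroup.of j) i)) (V j) := by
  ext i
  rw [Matrix.vecMul_sub, Matrix.vecMul_sum, coR_apply, Pi.sub_apply, Finset.sum_apply, map_sub,
    map_sum, Finsupp.sub_apply, Finsupp.finsetSum_apply, Pi.sub_apply, Finset.sum_apply,
    ← coR_apply, coR_vecMul]
  congr 1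
  refine Finset.sum_congr rfl fun j _ => ?_
  rw [Matrix.vecMul, dotProduct, Matrix.vecMul, dotProduct, map_sum, Finsupp.finsetSum_apply]
  refine Finset.sum_congr rfl fun a _ => ?_
  rw [Matrix.smul_apply, Matrix.map_apply, smul_eq_mul, ← mul_assoc, co_mul_iota, co_mul_t,
    inv_inv, coR_apply]

variable {K : Type w} [AddCommGroup K] [Module R K] [Module S K]

section eps

variable {I : Type} [Fintype I] [DecidableEq I] {N : Type*} [AddCommGroup N] [Module R N]
  (ε : (I → R) →ₗ[R] N)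

/-- the coefficientwise extension of `ε` -/
noncomputable def ex1 : (I → S) →+ (FreeGroup X →₀ N) :=
  (Finsupp.mapRange.addMonoidHom ε.toAddMonoidHom).comp
    (∑ i, (Finsupp.mapRange.addMonoidHom (AddMonoidHom.single (fun _ => R) i)).comp
      (E.co.toAddMonoidHom.comp (Pi.evalAddMonoidHom (fun _ => S) i)))

theorem ex1_apply (x : I → S) (g : FreeGroup X) : E.ex1 ε x g = ε (E.coR x g) := by
  unfold ex1 coR
  rw [AddMonoidHom.comp_apply, Finsupp.mapRange.addMonoidHom_apply, Finsupp.mapRange_apply,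
    AddMonoidHom.finsetSum_apply]
  rfl

theorem ex1_surj (h : Function.Surjective ε) : Function.Surjective (E.ex1 ε) := by
  classical
  intro Y
  have h1 : ∀ n : N, ∃ r : I → R, (n = 0 → r = 0) ∧ ε r = n := by
    intro n
    by_cases hn : n = 0
    · exact ⟨0, fun _ => rfl, by rw [hn, map_zero]⟩
    · obtain ⟨r, hr⟩ := h n
      exact ⟨r, fun h => absurd h hn, hr⟩
  choose φ hφ0 hφ using h1
  refine ⟨E.mkR (Y.mapRange φ (hφ0 0 rfl)), ?_⟩
  ext g
  rw [ex1_apply]
  have h2 : E.coR (E.mkR (Y.mapRange φ (hφ0 0 rfl))) g = φ (Y g) := by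
    ext j
    rw [coR_apply, co_mkR, Finsupp.mapRange_apply]
  rw [h2, hφ]

theorem ex1_ker {L : Type} [Fintype L] (D : Matrix L I R)
    (h : ∀ r, ε r = 0 → ∃ y, Matrix.vecMul y D = r) (x : I → S) (hx : E.ex1 ε x = 0) :
    ∃ y, Matrix.vecMul y (D.map E.iota) = x := by
  refine E.lift_rows D (fun r => ε r = 0) h x fun g => ?_
  have h1 := DFunLike.congr_fun hx g
  rw [ex1_apply, Finsupp.zero_apply] at h1
  rw [← h1]
  congr 1
  ext i
  rw [coR_apply]

theorem ex1_zero {L : Type} [Fintype L] [DecidableEq L] (D : Matrix L I R)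
    (h : ∀ y, ε (Matrix.vecMul y D) = 0) (y : L → S) :
    E.ex1 ε (Matrix.vecMul y (D.map E.iota)) = 0 := by
  ext g
  rw [ex1_apply, coR_vecMul, h, Finsupp.zero_apply]

end eps

section cone

variable [Fintype X] [DecidableEq X] [IsNoetherianRing R]
  (hc : ∀ (r : R) (x : K), r • x = E.iota r • x)

theorem exists_cone_res {m : ℕ} {Λ : Submodule R K} (hfg : Λ.FG)
    (hgen : Submodule.span S (Λ : Set K) = ⊤) (hR : (E.semi hc).RelBall m Λ) :
    ∃ (T1 T0 : RC R) (r1 : Res T1 (∀ j, (E.semi hc).K1 ((E.semi hc).K0 m Λ) j))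
      (r0 : Res T0 ((E.semi hc).K0 m Λ)) (u : ChM T1 T0)
      (V : X → ∀ k, Matrix (T1.ι k) (T0.ι k) R) (Ψ : ChM (T1.map E.iota) (T0.map E.iota)),
      (∀ x, r0.ε (Matrix.vecMul x (u.U 0)) = (E.semi hc).s0 _ (r1.ε x)) ∧
      (∀ j x, r0.ε (Matrix.vecMul (fun i => E.sig (FreeGroup.of j) (x i)) (V j 0)) =
        (E.semi hc).vj _ j (r1.ε x)) ∧
      (∀ j k, V j (k + 1) * T0.D k = (T1.D k).map (E.sig (FreeGroup.of j)) * V j k) ∧
      (∀ k, Ψ.U k = (u.U k).map E.iota -
        ∑ j, ((E.t (FreeGroup.of j)⁻¹ : Sˣ) : S) • (V j k).map E.iota) ∧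
      Nonempty (Res (cone Ψ) K) := by
  set A := E.semi hc with hA
  set M := A.K0 m Λ with hM
  have hM0 : M.FG := A.K0_fg m hfg
  have hfin0 : Module.Finite R M := Module.Finite.iff_fg.2 hM0
  have hfin1 : ∀ j, Module.Finite R (A.K1 M j) := fun j =>
    Module.Finite.iff_fg.2 (A.K1_fg hM0 j)
  have hfin : Module.Finite R (∀ j, A.K1 M j) := Module.Finite.pi
  obtain ⟨T1, ⟨r1⟩⟩ := exists_res (R := R) (∀ j, A.K1 M j)
  obtain ⟨T0, ⟨r0⟩⟩ := exists_res (R := R) M
  obtain ⟨u, hu⟩ := exists_lift r1 r0 (A.s0 M)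
  have hv := fun j => exists_lift_semi r1 r0 (E.sig (FreeGroup.of j)) (A.vj M j) (A.vj_smul M j)
  choose V hV hV0 using hv
  obtain ⟨Ψ, hΨ⟩ := E.exists_Psi u V hV
  refine ⟨T1, T0, r1, r0, u, V, Ψ, hu, hV0, hV, hΨ, ?_⟩
  -- the augmentation
  let k : T0.ι 0 → K := fun i => ((r0.ε (Pi.single i 1) : M) : K)
  let ε : ((T0.map E.iota).ι 0 → S) →ₗ[S] K := Fintype.linearCombination S k
  have hk : ∀ v : T0.ι 0 → R, ((r0.ε v : M) : K) = ∑ i, v i • k i := by
    intro v
    have h1 : v = ∑ i, v i • (Pi.single i (1 : R) : T0.ι 0 → R) := by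
      ext j
      rw [Finset.sum_apply, Finset.sum_eq_single j]
      · rw [Pi.smul_apply, Pi.single_eq_same, smul_eq_mul, mul_one]
      · intro i _ hi
        rw [Pi.smul_apply, Pi.single_eq_of_ne (Ne.symm hi), smul_zero]
      · intro h; exact absurd (Finset.mem_univ _) h
    conv_lhs => rw [h1, map_sum, Submodule.coe_sum]
    refine Finset.sum_congr rfl fun i _ => ?_
    rw [map_smul, Submodule.coe_smul]
  have hεinc : ∀ x : T0.ι 0 → S, ε x = A.sumK (SemiF.inc M (E.ex1 r0.ε x)) := by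
    intro x
    have h1 : SemiF.inc M (E.ex1 r0.ε x) = E.Th k x := by
      ext g
      rw [SemiF.inc_apply, ex1_apply, Th_apply, hk]
      refine Finset.sum_congr rfl fun i _ => ?_
      rw [coR_apply]
    rw [h1, hA, E.sumK_Th k hc]
    rfl
  have hψ : ∀ x : T1.ι 0 → S, A.bdy M (E.ex1 r1.ε x) =
      E.ex1 r0.ε (Matrix.vecMul x (Ψ.U 0)) := by
    intro x
    refine Finsupp.ext fun h => ?_
    have h1 : E.coR (Matrix.vecMul x (Ψ.U 0)) h = Matrix.vecMul (E.coR x h) (u.U 0) -
        ∑ j, Matrix.vecMul (fun i => E.sig (FreeGroup.of j) (E.coR x (h * FreeGroup.of j) i))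
          (V j 0) :=
      (congrArg (fun P : Matrix (T1.ι 0) (T0.ι 0) S => E.coR (Matrix.vecMul x P) h) (hΨ 0)).trans
        (E.coR_Psi x (u.U 0) (fun j => V j 0) h)
    have h2 := congrArg r0.ε h1
    rw [map_sub, map_sum, hu] at h2
    have h3 : A.bdy M (E.ex1 r1.ε x) h = A.s0 M (r1.ε (E.coR x h)) -
        ∑ j, r0.ε (Matrix.vecMul
          (fun i => E.sig (FreeGroup.of j) (E.coR x (h * FreeGroup.of j) i)) (V j 0)) := by
      rw [A.bdy_apply, ex1_apply]
      congr 1
      refine Finset.sum_congr rfl fun j _ => ?_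
      rw [hV0, ex1_apply]
    exact h3.trans (h2.symm.trans (E.ex1_apply r0.ε _ h).symm)
  have hsurj : Function.Surjective ε := by
    intro x
    have hx : x ∈ ⨆ g : FreeGroup X, A.tw g Λ := by
      rw [hA, E.iSup_tw hc hgen]; trivial
    induction hx using Submodule.iSup_induction' with
    | mem g x hx =>
      have h1 : A.ac g⁻¹ x ∈ M := A.le_K0 m Λ hx
      obtain ⟨v, hv⟩ := r0.surj ⟨_, h1⟩
      refine ⟨((E.t g : Sˣ) : S) • fun i => E.iota (v i), ?_⟩
      have h2 : ε (fun i => E.iota (v i)) = A.ac g⁻¹ x := by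
        have h3 := hk v
        rw [hv] at h3
        rw [show A.ac g⁻¹ x = ∑ i, v i • k i from h3]
        exact Finset.sum_congr rfl fun i _ => (hc _ _).symm
      refine (ε.map_smul ((E.t g : Sˣ) : S) (fun i => E.iota (v i))).trans ?_
      rw [h2]
      exact A.ac_ac_inv g x
    | zero => exact ⟨0, map_zero _⟩
    | add x y _ _ hx hy =>
      obtain ⟨a, rfl⟩ := hx
      obtain ⟨b, rfl⟩ := hy
      exact ⟨a + b, map_add _ _ _⟩
  obtain ⟨r, -⟩ := cone_res Ψ (E.ex1 r1.ε) (E.ex1 r0.ε) (A.bdy M) ε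
    (E.ex1_ker r1.ε (T1.D 0) r1.ker) (E.ex1_surj _ r1.surj) (E.ex1_ker r0.ε (T0.D 0) r0.ker)
    (E.ex1_zero r0.ε (T0.D 0) r0.zero)
    (fun x => by
      have h1 := E.ex1_zero r0.ε (T0.D 0) r0.zero x
      have h2 := hεinc (Matrix.vecMul x ((T0.D 0).map E.iota))
      exact h2.trans ((congrArg (fun z => A.sumK (SemiF.inc M z)) h1).trans
        (by rw [map_zero, map_zero])))
    (fun k => E.map_ex (r1.ex k)) (fun k => E.map_ex (r0.ex k)) hψ (A.bdy_inj M) hsurj
    (fun x => by
      have h2 := hεinc (Matrix.vecMul x (Ψ.U 0))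
      exact h2.trans ((congrArg (fun z => A.sumK (SemiF.inc M z)) (hψ x)).symm.trans
        (by rw [A.inc_bdy, A.sumK_psi])))
    (fun x hx => A.exists_bdy hR (E.ex1 r0.ε x) ((hεinc x).symm.trans hx))
  exact ⟨r⟩

end cone

end SkF

end Pool.Agent.UP
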