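import Mathlib
import Pool.Agent.Lib.UP.Defs4
import Pool.Agent.Lib.UP.FU9

/-! TANK UP, stage 2, row F1 (helper63): cone resolutions over `S = R * F`. -/

set_option autoImplicit false

namespace Pool.Agent.UP

universe u v w

namespace SkF

variable {X : Type v} [DecidableEq X] {R S : Type u} [Ring R] [Ring S] (E : SkF X R S)
  {K : Type w} [AddCommGroup K] [Module R K] [Module S K]
  (hc : ∀ (r : R) (x : K), r • x = E.iota r • x)
include hc

/-- a finitely generated `R`-submodule which generates `K` over `S` and whose relations lie in a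
ball -/
theorem exists_lattice [Module.FinitePresentation S K] :
    ∃ (Λ : Submodule R K) (m : ℕ), Λ.FG ∧ Submodule.span S (Λ : Set K) = ⊤ ∧
      (E.semi hc).RelBall m Λ := by
  obtain ⟨s, hs⟩ := (inferInstance : Module.Finite S K).fg_top
  have h1 : Submodule.span S ((Submodule.span R (s : Set K) : Submodule R K) : Set K) = ⊤ := by
    rw [eq_top_iff, ← hs, Submodule.span_le]
    exact Submodule.subset_span.trans Submodule.subset_span
  obtain ⟨m, hm⟩ := E.relBall hc (L := Submodule.span R (s : Set K)) ⟨s, rfl⟩ h1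
  exact ⟨_, m, ⟨s, rfl⟩, h1, hm m le_rfl⟩

end SkF

section F1
variable {X : Type} [Fintype X] [DecidableEq X] {R S : Type u} [Ring R] [Ring S]

omit [Fintype X] [DecidableEq X] in
theorem map_exF (L : SkF X R S) {T : RC R} {k : ℕ} (h : T.Ex k) : (T.map L.iota).Ex k :=
  L.map_ex h

omit [Fintype X] [DecidableEq X] in
theorem map_coexF (L : SkF X R S) {T : RC R} {l : ℕ} (h : T.CoEx l) :
    (T.map L.iota).CoEx l := L.map_coex h

/-- `T1` resolves the product of the lattices `K1 j`, `T0` resolves `K0` -/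
theorem exists_cone_resF [IsNoetherianRing R] (L : SkF X R S) {K : Type u} [AddCommGroup K]
    [Module R K] [Module S K] (hc : ∀ (r : R) (x : K), r • x = L.iota r • x)
    [Module.FinitePresentation S K] :
    ∃ (K0 : Submodule R K) (K1 : X → Submodule R K) (T1 T0 : RC R) (_ : Res T1 (∀ j, K1 j))
      (_ : Res T0 K0) (Ψ : ChM (T1.map L.iota) (T0.map L.iota)),
      K0.FG ∧ (∀ j, (K1 j).FG) ∧ Nonempty (Res (cone Ψ) K) := by
  obtain ⟨Λ, m, hfg, hgen, hR⟩ := L.exists_lattice hc
  obtain ⟨T1, T0, r1, r0, u, V, Ψ, -, -, -, -, r⟩ := L.exists_cone_res hc hfg hgen hR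
  exact ⟨(L.semi hc).K0 m Λ, fun j => (L.semi hc).K1 ((L.semi hc).K0 m Λ) j, T1, T0, r1, r0, Ψ,
    (L.semi hc).K0_fg m hfg, fun j => (L.semi hc).K1_fg ((L.semi hc).K0_fg m hfg) j, r⟩

end F1

end Pool.Agent.UP
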