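import Mathlib
import Pool.Agent.Lib.UP.Defs

/-!
# TANK UP, row U4: finite projective dimension and comparison of resolutions
-/

namespace Pool.Agent.UP

universe u v w w'

section
variable {R : Type u} [Ring R] {T T' : RC R}

/-- lifting of the rows of a matrix through an exact complex -/
theorem RC.exists_mul_of_ex {k : ℕ} (h : T.Ex k) {ι : Type*} (X : Matrix ι (T.ι (k + 1)) R)
    (hX : X * T.D k = 0) : ∃ Y : Matrix ι (T.ι (k + 2)) R, Y * T.D (k + 1) = X := by
  have h1 : ∀ i, ∃ y, Matrix.vecMul y (T.D (k + 1)) = X i := by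
    intro i
    apply h
    have := congrFun hX i
    exact this
  choose Y hY using h1
  exact ⟨Matrix.of Y, funext fun i => hY i⟩

theorem fl_compare_aux (a : ChM T T') (b : ChM T' T) (s : ∀ k, Matrix (T.ι k) (T.ι (k + 1)) R)
    (s0 : 1 - a.U 0 * b.U 0 = s 0 * T.D 0)
    (s1 : ∀ k, 1 - a.U (k + 1) * b.U (k + 1) = T.D k * s k + s (k + 1) * T.D (k + 1)) {g : ℕ}
    {N : Matrix (T'.ι (g + 1)) (T'.ι (g + 1)) R} (h : N * T'.D g = T'.D g)
    (h' : T'.D (g + 1) * N = 0) :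
    ∃ N' : Matrix (T.ι (g + 1)) (T.ι (g + 1)) R, N' * T.D g = T.D g ∧ T.D (g + 1) * N' = 0 := by
  have key : T.D g * (a.U g * b.U g) = T.D g - T.D g * s g * T.D g := by
    cases g with
    | zero =>
      rw [show a.U 0 * b.U 0 = 1 - s 0 * T.D 0 from by rw [← s0, sub_sub_cancel], Matrix.mul_sub, Matrix.mul_one,
        ← Matrix.mul_assoc]
    | succ g =>
      rw [show a.U (g + 1) * b.U (g + 1) = 1 - (T.D g * s g + s (g + 1) * T.D (g + 1)) from by
        rw [← s1, sub_sub_cancel]]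
      rw [Matrix.mul_sub, Matrix.mul_add, Matrix.mul_one, ← Matrix.mul_assoc, T.DD, Matrix.zero_mul,
        zero_add, ← Matrix.mul_assoc]
  refine ⟨a.U (g + 1) * N * b.U (g + 1) + T.D g * s g, ?_, ?_⟩
  · rw [Matrix.add_mul, Matrix.mul_assoc, b.comm, Matrix.mul_assoc, ← Matrix.mul_assoc N, h,
      ← Matrix.mul_assoc, a.comm, Matrix.mul_assoc, key, sub_add_cancel]
  · rw [Matrix.mul_add, ← Matrix.mul_assoc, ← Matrix.mul_assoc, ← a.comm, Matrix.mul_assoc (a.U _),
      h', Matrix.mul_zero, Matrix.zero_mul, ← Matrix.mul_assoc, T.DD, Matrix.zero_mul, add_zero]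

theorem FL.succ {g : ℕ} (h : FL R g) : FL R (g + 1) := by
  intro T hT
  obtain ⟨N, h1, h2⟩ := h T hT
  obtain ⟨H, hH⟩ := RC.exists_mul_of_ex (hT g) (1 - N) (by
    rw [Matrix.sub_mul, Matrix.one_mul, h1, sub_self])
  refine ⟨T.D (g + 1) * H, ?_, ?_⟩
  · rw [Matrix.mul_assoc, hH, Matrix.mul_sub, Matrix.mul_one, h2, sub_zero]
  · rw [← Matrix.mul_assoc, T.DD, Matrix.zero_mul]

/-- every exact complex is a resolution of its cokernel -/
theorem exists_coker (T : RC R) (h : ∀ k, T.Ex k) :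
    Nonempty (Res T ((T.ι 0 → R) ⧸ LinearMap.range (Matrix.vecMulLinear (T.D 0)))) :=
  ⟨{ ε := Submodule.mkQ _
     surj := Submodule.mkQ_surjective _
     zero := fun x => (Submodule.Quotient.mk_eq_zero _).2 ⟨x, rfl⟩
     ker := fun x hx => by
       obtain ⟨y, hy⟩ := (Submodule.Quotient.mk_eq_zero _).1 hx
       exact ⟨y, hy⟩
     ex := h }⟩

end

end Pool.Agent.UP
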