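import Mathlib
import Pool.Agent.Lib.UP.U4F
import Pool.Agent.Lib.UP.U3

/-!
# TANK UP, row U4: comparison of resolutions
-/

namespace Pool.Agent.UP

universe u v w w'

section
variable {R : Type u} [Ring R] {T T' : RC R} {M : Type w} [AddCommGroup M] [Module R M]

/-- the composition of chain maps -/
def ChM.comp {T'' : RC R} (a : ChM T T') (b : ChM T' T'') : ChM T T'' where
  U k := a.U k * b.U k
  comm k := by rw [Matrix.mul_assoc, b.comm, ← Matrix.mul_assoc, a.comm, Matrix.mul_assoc]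

/-- a chain map of a resolution over the identity is homotopic to the identity -/
theorem exists_htpy (r : Res T M) (c : ChM T T)
    (hc : ∀ x, r.ε (Matrix.vecMul x (c.U 0)) = r.ε x) :
    ∃ s : ∀ k, Matrix (T.ι k) (T.ι (k + 1)) R,
      1 - c.U 0 = s 0 * T.D 0 ∧
      ∀ k, 1 - c.U (k + 1) = T.D k * s k + s (k + 1) * T.D (k + 1) := by
  have h0 : ∃ s : Matrix (T.ι 0) (T.ι 1) R, s * T.D 0 = 1 - c.U 0 := by
    have h1 : ∀ i, ∃ y, Matrix.vecMul y (T.D 0) = (1 - c.U 0 : Matrix (T.ι 0) (T.ι 0) R) i := by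
      intro i
      apply r.ker
      have h2 : (1 - c.U 0 : Matrix (T.ι 0) (T.ι 0) R) i =
          Matrix.vecMul (Pi.single i 1) (1 - c.U 0) := by
        rw [Matrix.single_one_vecMul]
        rfl
      rw [h2, Matrix.vecMul_sub, Matrix.vecMul_one, map_sub, hc, sub_self]
    choose Y hY using h1
    exact ⟨Matrix.of Y, funext fun i => hY i⟩
  obtain ⟨s0, hs0⟩ := h0
  have hstep : ∀ (k : ℕ) (s : Matrix (T.ι k) (T.ι (k + 1)) R),
      (1 - c.U (k + 1) - T.D k * s) * T.D k = 0 →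
      ∃ s' : Matrix (T.ι (k + 1)) (T.ι (k + 2)) R,
        (1 - c.U (k + 2) - T.D (k + 1) * s') * T.D (k + 1) = 0 ∧
        1 - c.U (k + 1) = T.D k * s + s' * T.D (k + 1) := by
    intro k s hs
    obtain ⟨s', hs'⟩ := RC.exists_mul_of_ex (r.ex k) _ hs
    refine ⟨s', ?_, ?_⟩
    · rw [Matrix.sub_mul, Matrix.sub_mul, Matrix.one_mul, Matrix.mul_assoc, hs', c.comm,
        Matrix.mul_sub, Matrix.mul_sub, Matrix.mul_one, ← Matrix.mul_assoc, T.DD, Matrix.zero_mul,
        sub_zero, sub_self]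
    · rw [hs', add_sub_cancel]
  choose f hf using hstep
  have hp0 : (1 - c.U 1 - T.D 0 * s0) * T.D 0 = 0 := by
    rw [Matrix.sub_mul, Matrix.sub_mul, Matrix.one_mul, Matrix.mul_assoc, hs0, c.comm,
      Matrix.mul_sub, Matrix.mul_one, sub_self]
  let s : ∀ k, {s : Matrix (T.ι k) (T.ι (k + 1)) R // (1 - c.U (k + 1) - T.D k * s) * T.D k = 0} :=
    fun k => Nat.rec ⟨s0, hp0⟩ (fun k s => ⟨f k s.1 s.2, (hf k s.1 s.2).1⟩) k
  exact ⟨fun k => (s k).1, hs0.symm, fun k => (hf k (s k).1 (s k).2).2⟩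

theorem exists_compare' (r : Res T M) (r' : Res T' M) :
    ∃ (a : ChM T T') (b : ChM T' T),
      (∀ x, r'.ε (Matrix.vecMul x (a.U 0)) = r.ε x) ∧
      (∀ x, r.ε (Matrix.vecMul x (b.U 0)) = r'.ε x) := by
  obtain ⟨a, ha⟩ := exists_lift r r' LinearMap.id
  obtain ⟨b, hb⟩ := exists_lift r' r LinearMap.id
  exact ⟨a, b, ha, hb⟩

theorem exists_compare (r : Res T M) (r' : Res T' M) :
    ∃ (a : ChM T T') (b : ChM T' T) (s : ∀ k, Matrix (T.ι k) (T.ι (k + 1)) R),
      1 - a.U 0 * b.U 0 = s 0 * T.D 0 ∧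
      ∀ k, 1 - a.U (k + 1) * b.U (k + 1) = T.D k * s k + s (k + 1) * T.D (k + 1) := by
  obtain ⟨a, b, ha, hb⟩ := exists_compare' r r'
  obtain ⟨s, h0, h1⟩ := exists_htpy r (a.comp b) (by
    intro x
    change r.ε (Matrix.vecMul x (a.U 0 * b.U 0)) = _
    rw [← Matrix.vecMul_vecMul, hb, ha])
  exact ⟨a, b, s, h0, h1⟩

theorem fl_compare (r : Res T M) (r' : Res T' M) {g : ℕ}
    {N : Matrix (T'.ι (g + 1)) (T'.ι (g + 1)) R} (h : N * T'.D g = T'.D g)
    (h' : T'.D (g + 1) * N = 0) :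
    ∃ N' : Matrix (T.ι (g + 1)) (T.ι (g + 1)) R, N' * T.D g = T.D g ∧ T.D (g + 1) * N' = 0 := by
  obtain ⟨a, b, s, s0, s1⟩ := exists_compare r r'
  exact fl_compare_aux a b s s0 s1 h h'

/-- the map on `E` of a chain map homotopic to the identity is the identity -/
theorem Eu_of_htpy [StarRing R] (c : ChM T T) (s : ∀ k, Matrix (T.ι k) (T.ι (k + 1)) R)
    (h0 : 1 - c.U 0 = s 0 * T.D 0)
    (h1 : ∀ k, 1 - c.U (k + 1) = T.D k * s k + s (k + 1) * T.D (k + 1)) (p : ℕ) (x : T.E p) :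
    c.Eu p x = x := by
  obtain ⟨⟨y, hy⟩, rfl⟩ := Submodule.Quotient.mk_surjective _ x
  change Submodule.Quotient.mk _ = Submodule.Quotient.mk _
  rw [Submodule.Quotient.eq]
  change Matrix.vecMul y (c.U p).conjTranspose - y ∈ T.bd p
  replace hy : Matrix.vecMul y (T.D p).conjTranspose = 0 := hy
  have h2 : Matrix.vecMul y (c.U p).conjTranspose - y =
      -Matrix.vecMul y (1 - c.U p).conjTranspose := by
    rw [Matrix.conjTranspose_sub, Matrix.conjTranspose_one, Matrix.vecMul_sub, Matrix.vecMul_one,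
      neg_sub]
  rw [h2]
  apply Submodule.neg_mem
  cases p with
  | zero =>
    rw [h0, Matrix.conjTranspose_mul, ← Matrix.vecMul_vecMul, hy, Matrix.zero_vecMul]
    exact Submodule.zero_mem _
  | succ p =>
    rw [h1, Matrix.conjTranspose_add, Matrix.vecMul_add, Matrix.conjTranspose_mul,
      Matrix.conjTranspose_mul, ← Matrix.vecMul_vecMul, ← Matrix.vecMul_vecMul, hy,
      Matrix.zero_vecMul, add_zero]
    exact ⟨_, rfl⟩

theorem Eu_comp [StarRing R] {T'' : RC R} (a : ChM T T') (b : ChM T' T'') (p : ℕ) (x : T''.E p) :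
    (a.comp b).Eu p x = a.Eu p (b.Eu p x) := by
  obtain ⟨⟨y, hy⟩, rfl⟩ := Submodule.Quotient.mk_surjective _ x
  change Submodule.Quotient.mk _ = Submodule.Quotient.mk _
  congr 1
  apply Subtype.ext
  change Matrix.vecMul y (a.U p * b.U p).conjTranspose =
    Matrix.vecMul (Matrix.vecMul y (b.U p).conjTranspose) (a.U p).conjTranspose
  rw [Matrix.conjTranspose_mul, Matrix.vecMul_vecMul]

theorem E_equiv [StarRing R] (r : Res T M) (r' : Res T' M) (p : ℕ) :
    Nonempty (T.E p ≃ₗ[R] T'.E p) := by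
  obtain ⟨a, b, ha, hb⟩ := exists_compare' r r'
  obtain ⟨s, h0, h1⟩ := exists_htpy r (a.comp b) (by
    intro x
    change r.ε (Matrix.vecMul x (a.U 0 * b.U 0)) = _
    rw [← Matrix.vecMul_vecMul, hb, ha])
  obtain ⟨s', h0', h1'⟩ := exists_htpy r' (b.comp a) (by
    intro x
    change r'.ε (Matrix.vecMul x (b.U 0 * a.U 0)) = _
    rw [← Matrix.vecMul_vecMul, ha, hb])
  exact ⟨LinearEquiv.ofLinearMap (b.Eu p) (a.Eu p)
    (LinearMap.ext fun x => by
      rw [LinearMap.comp_apply, ← Eu_comp, Eu_of_htpy _ s' h0' h1']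
      rfl)
    (LinearMap.ext fun x => by
      rw [LinearMap.comp_apply, ← Eu_comp, Eu_of_htpy _ s h0 h1]
      rfl)⟩

end

end Pool.Agent.UP
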