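import Mathlib
import Pool.Agent.Lib.UP.ConeFL
import Pool.Agent.Lib.UP.U4
import Pool.Agent.Lib.UP.F1

/-!
# TANK UP, row F6a: finite length passes from `R` to `S = R * F`
-/

set_option autoImplicit false

namespace Pool.Agent.UP

universe u v w w'

/-- the cone over a ring homomorphism `R → S` which preserves exactness -/
theorem F6a_cone {R S : Type u} [Ring R] [Ring S] (i : R →+* S)
    (hi : ∀ (T : RC R) (k : ℕ), T.Ex k → (T.map i).Ex k) {g : ℕ} (h : FL R g)
    {T1 T0 : RC R} (h1 : ∀ k, T1.Ex k) (h0 : ∀ k, T0.Ex k)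
    (Ψ : ChM (T1.map i) (T0.map i)) :
    ∃ N : Matrix ((cone Ψ).ι (g + 2)) ((cone Ψ).ι (g + 2)) S,
      N * (cone Ψ).D (g + 1) = (cone Ψ).D (g + 1) ∧ (cone Ψ).D (g + 2) * N = 0 := by
  have key : ∀ (T : RC R) (k : ℕ), (∀ k, T.Ex k) → FL R k →
      ∃ N : Matrix ((T.map i).ι (k + 1)) ((T.map i).ι (k + 1)) S,
        N * (T.map i).D k = (T.map i).D k ∧ (T.map i).D (k + 1) * N = 0 := by
    intro T k hT hk
    obtain ⟨M, hM, hM'⟩ := hk T hT
    have e1 : (M * T.D k).map i = (T.D k).map i := by rw [hM]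
    have e2 : (T.D (k + 1) * M).map i = 0 := by
      rw [hM']
      exact Matrix.map_zero _ (map_zero i)
    rw [Matrix.map_mul] at e1 e2
    exact ⟨M.map i, e1, e2⟩
  obtain ⟨N1, a1, b1⟩ := key T1 g h1 h
  obtain ⟨N0, a0, b0⟩ := key T0 (g + 1) h0 h.succ
  exact cone_fl Ψ (hi T1 g (h1 g)) (hi T0 (g + 1) (h0 (g + 1))) a1 b1 a0 b0

private theorem F6a_fp {S : Type u} [Ring S] (T : RC S) : Module.FinitePresentation S
    ((T.ι 0 → S) ⧸ LinearMap.range (Matrix.vecMulLinear (T.D 0))) := by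
  refine Module.finitePresentation_of_surjective
    (LinearMap.range (Matrix.vecMulLinear (T.D 0))).mkQ (Submodule.mkQ_surjective _) ?_
  rw [Submodule.ker_mkQ]
  exact Module.Finite.iff_fg.1 inferInstance

/-- finite length for `S = R * F` -/
theorem fl_stepF {X : Type} [Fintype X] [DecidableEq X] {R S : Type u} [Ring R] [Ring S]
    [IsNoetherianRing R] (L : SkF X R S) {g : ℕ} (h : FL R g) : FL S (g + 1) := by
  intro T hT
  obtain ⟨r⟩ := exists_coker T hT
  have hfp := F6a_fp T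
  let _ : Module R ((T.ι 0 → S) ⧸ LinearMap.range (Matrix.vecMulLinear (T.D 0))) :=
    Module.compHom _ L.iota
  obtain ⟨K0, K1, T1, T0, r1, r0, Ψ, -, -, ⟨rc⟩⟩ := exists_cone_resF L (K :=
    (T.ι 0 → S) ⧸ LinearMap.range (Matrix.vecMulLinear (T.D 0))) (fun _ _ => rfl)
  obtain ⟨N, hN, hN'⟩ := F6a_cone L.iota (fun T k hk => map_exF L hk) h r1.ex r0.ex Ψ
  exact fl_compare r rc hN hN'

end Pool.Agent.UP
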