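import Mathlib

/-!
TANK UP, row R1 (helper76). `EP R p W = Ext^p_R(W, R)` as a module over the opposite ring, the long
exact sequence, vanishing `ExtZ`, the classes `GP R p` (all submodules have `Ext^l(-, R) = 0` for
`l < p`) and their closure properties, invariance under semilinear isomorphisms.
-/

set_option autoImplicit false

open CategoryTheory CategoryTheory.Abelian MulOpposite

universe u

namespace Pool.UP

/-- right multiplication as an endomorphism of the left module `R` -/
def mulR {R : Type u} [Ring R] (r : R) : R →ₗ[R] R where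
  toFun x := x * r
  map_add' x y := add_mul x y r
  map_smul' a x := mul_assoc a x r

/-- the right action of `R` on `Ext^p(X, R)` -/
noncomputable def actX {R : Type u} [Ring R] {p : ℕ} {X : ModuleCat.{u} R} (r : R)
    (x : Ext.{u} X (ModuleCat.of R R) p) : Ext.{u} X (ModuleCat.of R R) p :=
  x.comp (Ext.mk₀ (ModuleCat.ofHom (mulR r))) (add_zero p)

section actX

variable {R : Type u} [Ring R] {p : ℕ} {X : ModuleCat.{u} R}

theorem actX_one (x : Ext.{u} X (ModuleCat.of R R) p) : actX 1 x = x := by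
  have h : ModuleCat.ofHom (mulR (1 : R)) = 𝟙 (ModuleCat.of R R) := by
    ext
    simp [mulR]
  unfold actX
  rw [h, Ext.comp_mk₀_id]

theorem actX_mul (r s : R) (x : Ext.{u} X (ModuleCat.of R R) p) :
    actX (s * r) x = actX r (actX s x) := by
  have h : ModuleCat.ofHom (mulR (s * r)) =
      ModuleCat.ofHom (mulR s) ≫ ModuleCat.ofHom (mulR r) := by
    ext
    simp [mulR]
  unfold actX
  rw [h, ← Ext.mk₀_comp_mk₀, Ext.comp_assoc_of_third_deg_zero]

theorem actX_zero (r : R) : actX r (0 : Ext.{u} X (ModuleCat.of R R) p) = 0 := by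
  unfold actX
  simp

theorem actX_add (r : R) (x y : Ext.{u} X (ModuleCat.of R R) p) :
    actX r (x + y) = actX r x + actX r y := Ext.add_comp _ _ _ _

theorem add_actX (r s : R) (x : Ext.{u} X (ModuleCat.of R R) p) :
    actX (r + s) x = actX r x + actX s x := by
  have h : ModuleCat.ofHom (mulR (r + s)) =
      ModuleCat.ofHom (mulR r) + ModuleCat.ofHom (mulR s) := by
    ext
    simp [mulR]
  unfold actX
  rw [h, Ext.mk₀_add]
  exact Ext.comp_add _ _ _ _

theorem zero_actX (x : Ext.{u} X (ModuleCat.of R R) p) : actX (0 : R) x = 0 := by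
  have h : ModuleCat.ofHom (mulR (0 : R)) = 0 := by
    ext
    simp [mulR]
  unfold actX
  rw [h, Ext.mk₀_zero]
  simp

theorem comp_actX {Y : ModuleCat.{u} R} {n m : ℕ} (r : R) (e : Ext.{u} Y X n)
    (x : Ext.{u} X (ModuleCat.of R R) p) (h : n + p = m) :
    e.comp (actX r x) h = actX r (e.comp x h) := by
  unfold actX
  rw [Ext.comp_assoc_of_third_deg_zero]

end actX

/-- `E^p(W) = Ext^p_R(W, R)`, a module over the opposite ring -/
def EP (R : Type u) [Ring R] (p : ℕ) (W : Type u) [AddCommGroup W] [Module R W] : Type u :=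
  Ext.{u} (ModuleCat.of R W) (ModuleCat.of R R) p

section

variable {R : Type u} [Ring R] {p : ℕ} {W : Type u} [AddCommGroup W] [Module R W]

noncomputable instance : AddCommGroup (EP R p W) :=
  inferInstanceAs (AddCommGroup (Ext.{u} (ModuleCat.of R W) (ModuleCat.of R R) p))

/-- the right action on the coefficients -/
noncomputable def EP.act (r : R) (x : EP R p W) : EP R p W := actX r x

noncomputable instance : Module Rᵐᵒᵖ (EP R p W) where
  smul r x := EP.act (unop r) x
  one_smul x := actX_one (p := p) (X := ModuleCat.of R W) x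
  mul_smul r s x := actX_mul (p := p) (X := ModuleCat.of R W) (unop r) (unop s) x
  smul_zero r := actX_zero (p := p) (X := ModuleCat.of R W) (unop r)
  smul_add r x y := actX_add (p := p) (X := ModuleCat.of R W) (unop r) x y
  add_smul r s x := add_actX (p := p) (X := ModuleCat.of R W) (unop r) (unop s) x
  zero_smul x := zero_actX (p := p) (X := ModuleCat.of R W) x

theorem EP.smul_def (r : Rᵐᵒᵖ) (x : EP R p W) : r • x = EP.act (unop r) x := rfl

variable {W' : Type u} [AddCommGroup W'] [Module R W']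

/-- functoriality on `Ext` -/
noncomputable def mapX {X Y : ModuleCat.{u} R} (f : X ⟶ Y)
    (x : Ext.{u} Y (ModuleCat.of R R) p) : Ext.{u} X (ModuleCat.of R R) p :=
  (Ext.mk₀ f).comp x (zero_add p)

theorem mapX_comp {X Y Z : ModuleCat.{u} R} (f : X ⟶ Y) (g : Y ⟶ Z)
    (x : Ext.{u} Z (ModuleCat.of R R) p) : mapX (f ≫ g) x = mapX f (mapX g x) := by
  unfold mapX
  rw [Ext.mk₀_comp_mk₀_assoc]

theorem mapX_id {X : ModuleCat.{u} R} (x : Ext.{u} X (ModuleCat.of R R) p) :
    mapX (𝟙 X) x = x := by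
  unfold mapX
  rw [Ext.mk₀_id_comp]

theorem mapX_add {X Y : ModuleCat.{u} R} (f g : X ⟶ Y) (x : Ext.{u} Y (ModuleCat.of R R) p) :
    mapX (f + g) x = mapX f x + mapX g x := by
  unfold mapX
  rw [Ext.mk₀_add, Ext.add_comp]

theorem mapX_zero {X Y : ModuleCat.{u} R} (x : Ext.{u} Y (ModuleCat.of R R) p) :
    mapX (0 : X ⟶ Y) x = 0 := by
  unfold mapX
  rw [Ext.mk₀_zero, Ext.zero_comp]

theorem mapX_add' {X Y : ModuleCat.{u} R} (f : X ⟶ Y) (x y : Ext.{u} Y (ModuleCat.of R R) p) :
    mapX f (x + y) = mapX f x + mapX f y := by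
  unfold mapX
  rw [Ext.comp_add]

/-- functoriality -/
noncomputable def EP.map (p : ℕ) (f : W →ₗ[R] W') : EP R p W' →ₗ[Rᵐᵒᵖ] EP R p W where
  toFun x := mapX (p := p) (ModuleCat.ofHom f) x
  map_add' x y := mapX_add' (p := p) (ModuleCat.ofHom f) x y
  map_smul' r x := comp_actX (p := p) (X := ModuleCat.of R W') (unop r) _ x _

theorem EP.map_comp {W'' : Type u} [AddCommGroup W''] [Module R W''] (f : W →ₗ[R] W')
    (g : W' →ₗ[R] W'') (x : EP R p W'') : EP.map p (g.comp f) x = EP.map p f (EP.map p g x) :=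
  mapX_comp (p := p) (ModuleCat.ofHom f) (ModuleCat.ofHom g) x

theorem EP.map_id (x : EP R p W) : EP.map p LinearMap.id x = x :=
  mapX_id (p := p) (X := ModuleCat.of R W) x

theorem EP.map_add (f g : W →ₗ[R] W') (x : EP R p W') :
    EP.map p (f + g) x = EP.map p f x + EP.map p g x :=
  mapX_add (p := p) (ModuleCat.ofHom f) (ModuleCat.ofHom g) x

theorem EP.map_zero (x : EP R p W') : EP.map p (0 : W →ₗ[R] W') x = 0 :=
  mapX_zero (p := p) (X := ModuleCat.of R W) (Y := ModuleCat.of R W') x

/-- an isomorphism of modules -/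
noncomputable def EP.congr (p : ℕ) (e : W ≃ₗ[R] W') : EP R p W' ≃ₗ[Rᵐᵒᵖ] EP R p W where
  __ := EP.map p (e : W →ₗ[R] W')
  invFun := EP.map p (e.symm : W' →ₗ[R] W)
  left_inv x := by
    show EP.map p (e.symm : W' →ₗ[R] W) (EP.map p (e : W →ₗ[R] W') x) = x
    rw [← EP.map_comp]
    have : (e : W →ₗ[R] W').comp (e.symm : W' →ₗ[R] W) = LinearMap.id := by
      ext; simp
    rw [this, EP.map_id]
  right_inv x := by
    show EP.map p (e : W →ₗ[R] W') (EP.map p (e.symm : W' →ₗ[R] W) x) = x
    rw [← EP.map_comp]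
    have : (e.symm : W' →ₗ[R] W).comp (e : W →ₗ[R] W') = LinearMap.id := by
      ext; simp
    rw [this, EP.map_id]

end

section les

variable {R : Type u} [Ring R] {N K Q : Type u} [AddCommGroup N] [Module R N] [AddCommGroup K]
  [Module R K] [AddCommGroup Q] [Module R Q]

/-- the short exact complex of a short exact sequence of modules -/
theorem sesZ (f : N →ₗ[R] K) (g : K →ₗ[R] Q) (h : Function.Exact f g) :
    ModuleCat.ofHom f ≫ ModuleCat.ofHom g = 0 := by
  ext x
  exact (h (f x)).mpr ⟨x, rfl⟩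

theorem sesOf' (f : N →ₗ[R] K) (g : K →ₗ[R] Q) (hf : Function.Injective f)
    (hg : Function.Surjective g) (h : Function.Exact f g) :
    (ShortComplex.mk (ModuleCat.ofHom f) (ModuleCat.ofHom g) (sesZ f g h)).ShortExact := by
  refine { exact := ?_, mono_f := ?_, epi_g := ?_ }
  · rw [ShortComplex.moduleCat_exact_iff]
    intro x hx
    exact (h x).mp hx
  · exact (ModuleCat.mono_iff_injective _).mpr hf
  · exact (ModuleCat.epi_iff_surjective _).mpr hg

/-- the connecting homomorphism on `Ext` -/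
noncomputable def deltaX {S : ShortComplex (ModuleCat.{u} R)} (hS : S.ShortExact) {l : ℕ}
    (x : Ext.{u} S.X₁ (ModuleCat.of R R) l) : Ext.{u} S.X₃ (ModuleCat.of R R) (l + 1) :=
  hS.extClass.comp x (add_comm 1 l)

theorem deltaX_add {S : ShortComplex (ModuleCat.{u} R)} (hS : S.ShortExact) {l : ℕ}
    (x y : Ext.{u} S.X₁ (ModuleCat.of R R) l) :
    deltaX hS (x + y) = deltaX hS x + deltaX hS y := by
  unfold deltaX
  rw [Ext.comp_add]

/-- the connecting homomorphism -/
noncomputable def EP.delta (l : ℕ) (f : N →ₗ[R] K) (g : K →ₗ[R] Q) (hf : Function.Injective f)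
    (hg : Function.Surjective g) (h : Function.Exact f g) : EP R l N →ₗ[Rᵐᵒᵖ] EP R (l + 1) Q where
  toFun x := deltaX (sesOf' f g hf hg h) x
  map_add' x y := deltaX_add (sesOf' f g hf hg h) x y
  map_smul' r x := comp_actX (p := l) (X := ModuleCat.of R N) (unop r) _ x _

variable (f : N →ₗ[R] K) (g : K →ₗ[R] Q) (hf : Function.Injective f)
    (hg : Function.Surjective g) (h : Function.Exact f g)

include hf hg h in
theorem EP.exact_mid (l : ℕ) : Function.Exact (EP.map l g) (EP.map l f) := by
  intro x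
  constructor
  · intro hx
    exact Ext.contravariant_sequence_exact₂ (sesOf' f g hf hg h) (ModuleCat.of R R) x hx
  · rintro ⟨y, rfl⟩
    rw [← EP.map_comp]
    have : g.comp f = 0 := by
      ext x
      exact (h (f x)).mpr ⟨x, rfl⟩
    rw [this, EP.map_zero]

theorem EP.exact_left (l : ℕ) : Function.Exact (EP.map l f) (EP.delta l f g hf hg h) := by
  intro x
  constructor
  · intro hx
    exact Ext.contravariant_sequence_exact₁ (sesOf' f g hf hg h) (ModuleCat.of R R) x
      (add_comm 1 l) hx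
  · rintro ⟨y, rfl⟩
    exact (sesOf' f g hf hg h).extClass_comp_assoc (h := add_comm 1 l) _

theorem EP.exact_right (l : ℕ) : Function.Exact (EP.delta l f g hf hg h) (EP.map (l + 1) g) := by
  intro x
  constructor
  · intro hx
    exact Ext.contravariant_sequence_exact₃ (sesOf' f g hf hg h) (ModuleCat.of R R) x hx
      (add_comm 1 l)
  · rintro ⟨y, rfl⟩
    exact (sesOf' f g hf hg h).comp_extClass_assoc _ (add_comm 1 l)

include hg in
theorem EP.map_zero_injective : Function.Injective (EP.map 0 g) := by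
  have : Epi (ModuleCat.ofHom g) := (ModuleCat.epi_iff_surjective _).mpr hg
  exact Ext.precomp_mk₀_injective_of_epi (ModuleCat.of R R) (ModuleCat.ofHom g)

end les

section GP

variable (R : Type u) [Ring R]

/-- `Ext^l_R(K, R) = 0` -/
def ExtZ (l : ℕ) (K : Type u) [AddCommGroup K] [Module R K] : Prop :=
  Subsingleton (Ext.{u} (ModuleCat.of R K) (ModuleCat.of R R) l)

/-- `K` is in `G_p` : all submodules have vanishing `Ext^l(-, R)` for `l < p` -/
def GP (p : ℕ) (K : Type u) [AddCommGroup K] [Module R K] : Prop :=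
  ∀ K' : Submodule R K, ∀ l, l < p → ExtZ R l K'

variable {R}

section les

variable {N K Q : Type u} [AddCommGroup N] [Module R N] [AddCommGroup K] [Module R K]
  [AddCommGroup Q] [Module R Q]

/-- the short exact sequence of modules as a short exact complex -/
theorem sesOf (f : N →ₗ[R] K) (g : K →ₗ[R] Q) (hf : Function.Injective f)
    (hg : Function.Surjective g) (h : Function.Exact f g) :
    (ShortComplex.mk (ModuleCat.ofHom f) (ModuleCat.ofHom g) (by
      ext x
      exact (h (f x)).mpr ⟨x, rfl⟩)).ShortExact := by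
  refine { exact := ?_, mono_f := ?_, epi_g := ?_ }
  · rw [ShortComplex.moduleCat_exact_iff]
    intro x hx
    exact (h x).mp hx
  · exact (ModuleCat.mono_iff_injective _).mpr hf
  · exact (ModuleCat.epi_iff_surjective _).mpr hg

theorem ExtZ.quot {f : N →ₗ[R] K} {g : K →ₗ[R] Q} (hf : Function.Injective f)
    (hg : Function.Surjective g) (h : Function.Exact f g) {l : ℕ} (hN : ExtZ R l N)
    (hK : ExtZ R (l + 1) K) : ExtZ R (l + 1) Q := by
  have hS := sesOf f g hf hg h
  refine ⟨fun a b => ?_⟩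
  have key : ∀ x : Ext.{u} (ModuleCat.of R Q) (ModuleCat.of R R) (l + 1), x = 0 := by
    intro x
    obtain ⟨y, hy⟩ := Ext.contravariant_sequence_exact₃ hS (ModuleCat.of R R) x
      (hK.elim _ _) (n₀ := l) (by omega)
    have hy0 : y = 0 := hN.elim _ _
    rw [← hy, hy0, Ext.comp_zero]
  rw [key a, key b]

theorem ExtZ.quot0 {f : N →ₗ[R] K} {g : K →ₗ[R] Q} (hf : Function.Injective f)
    (hg : Function.Surjective g) (h : Function.Exact f g)
    (hK : ExtZ R 0 K) : ExtZ R 0 Q := by
  have hS := sesOf f g hf hg h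
  refine ⟨fun a b => ?_⟩
  have := hS.epi_g
  exact Ext.precomp_mk₀_injective_of_epi (ModuleCat.of R R) (ModuleCat.ofHom g) (hK.elim _ _)

theorem ExtZ.mid {f : N →ₗ[R] K} {g : K →ₗ[R] Q} (hf : Function.Injective f)
    (hg : Function.Surjective g) (h : Function.Exact f g) {l : ℕ} (hN : ExtZ R l N)
    (hQ : ExtZ R l Q) : ExtZ R l K := by
  have hS := sesOf f g hf hg h
  refine ⟨fun a b => ?_⟩
  have key : ∀ x : Ext.{u} (ModuleCat.of R K) (ModuleCat.of R R) l, x = 0 := by
    intro x
    obtain ⟨y, hy⟩ := Ext.contravariant_sequence_exact₂ hS (ModuleCat.of R R) x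
      (hN.elim _ _)
    have hy0 : y = 0 := hQ.elim _ _
    rw [← hy, hy0, Ext.comp_zero]
  rw [key a, key b]

theorem ExtZ.sub {f : N →ₗ[R] K} {g : K →ₗ[R] Q} (hf : Function.Injective f)
    (hg : Function.Surjective g) (h : Function.Exact f g) {l : ℕ} (hK : ExtZ R l K)
    (hQ : ExtZ R (l + 1) Q) : ExtZ R l N := by
  have hS := sesOf f g hf hg h
  refine ⟨fun a b => ?_⟩
  have key : ∀ x : Ext.{u} (ModuleCat.of R N) (ModuleCat.of R R) l, x = 0 := by
    intro x
    obtain ⟨y, hy⟩ := Ext.contravariant_sequence_exact₁ hS (ModuleCat.of R R) x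
      (n₁ := l + 1) (by omega) (hQ.elim _ _)
    have hy0 : y = 0 := hK.elim _ _
    rw [← hy, hy0, Ext.comp_zero]
  rw [key a, key b]

end les

section equiv

variable {K L : Type u} [AddCommGroup K] [Module R K] [AddCommGroup L] [Module R L]

theorem ExtZ.congr (e : K ≃ₗ[R] L) {l : ℕ} (h : ExtZ R l K) : ExtZ R l L := by
  have hS := sesOf (N := PUnit.{u+1}) (0 : PUnit.{u+1} →ₗ[R] K) (e : K →ₗ[R] L)
    (fun a b _ => Subsingleton.elim a b) e.surjective (by
      intro x
      constructor
      · intro hx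
        have : x = 0 := e.injective (by simpa using hx)
        exact ⟨0, by rw [this]; rfl⟩
      · rintro ⟨y, rfl⟩
        simp)
  refine ⟨fun a b => ?_⟩
  have i : ModuleCat.of R K ≅ ModuleCat.of R L := e.toModuleIso
  have key : ∀ x : Ext.{u} (ModuleCat.of R L) (ModuleCat.of R R) l, x = 0 := by
    intro x
    have h1 : (Ext.mk₀ i.hom).comp x (zero_add l) = 0 := h.elim _ _
    have h2 : (Ext.mk₀ i.inv).comp ((Ext.mk₀ i.hom).comp x (zero_add l)) (zero_add l) = x := by
      rw [Ext.mk₀_comp_mk₀_assoc, i.inv_hom_id, Ext.mk₀_id_comp]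
    rw [← h2, h1, Ext.comp_zero]
  rw [key a, key b]

end equiv

section closure

variable {K L : Type u} [AddCommGroup K] [Module R K] [AddCommGroup L] [Module R L]

theorem GP.mono {p q : ℕ} (h : GP R p K) (hq : q ≤ p) : GP R q K :=
  fun K' l hl => h K' l (lt_of_lt_of_le hl hq)

theorem GP.of_injective {p : ℕ} (h : GP R p L) (f : K →ₗ[R] L) (hf : Function.Injective f) :
    GP R p K := by
  intro K' l hl
  have e : K' ≃ₗ[R] (K'.map f) := Submodule.equivMapOfInjective f hf K'
  exact (h (K'.map f) l hl).congr e.symm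

theorem GP.of_surjective {p : ℕ} (h : GP R p K) (g : K →ₗ[R] L) (hg : Function.Surjective g) :
    GP R p L := by
  intro L' l hl
  -- the preimage
  set K' : Submodule R K := L'.comap g with hK'
  let g' : K' →ₗ[R] L' := g.restrict (fun x hx => hx)
  have hg' : Function.Surjective g' := by
    rintro ⟨y, hy⟩
    obtain ⟨x, rfl⟩ := hg y
    exact ⟨⟨x, hy⟩, rfl⟩
  have hex : Function.Exact (LinearMap.ker g').subtype g' := by
    intro x
    constructor
    · intro hx
      exact ⟨⟨x, hx⟩, rfl⟩
    · rintro ⟨y, rfl⟩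
      exact y.2
  rcases l with _ | l
  · exact ExtZ.quot0 (Submodule.subtype_injective _) hg' hex (h K' 0 hl)
  · refine ExtZ.quot (Submodule.subtype_injective _) hg' hex ?_ (h K' (l + 1) hl)
    have e : (LinearMap.ker g') ≃ₗ[R] ((LinearMap.ker g').map K'.subtype) :=
      Submodule.equivMapOfInjective K'.subtype (Submodule.subtype_injective _) _
    exact (h _ l (by omega)).congr e.symm

theorem GP.of_exact {p : ℕ} {M : Type u} [AddCommGroup M] [Module R M] (hK : GP R p K)
    (hM : GP R p M) (f : K →ₗ[R] L) (g : L →ₗ[R] M) (h : Function.Exact f g) : GP R p L := by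
  intro L' l hl
  let g' : L' →ₗ[R] (L'.map g) := g.restrict (fun x hx => ⟨x, hx, rfl⟩)
  have hg' : Function.Surjective g' := by
    rintro ⟨y, x, hx, rfl⟩
    exact ⟨⟨x, hx⟩, rfl⟩
  have hex : Function.Exact (LinearMap.ker g').subtype g' := by
    intro x
    constructor
    · intro hx
      exact ⟨⟨x, hx⟩, rfl⟩
    · rintro ⟨y, rfl⟩
      exact y.2
  refine ExtZ.mid (Submodule.subtype_injective _) hg' hex ?_ (hM _ l hl)
  -- the kernel is a subquotient of K : it is contained in the range of f
  have hr : GP R p (LinearMap.range f) := hK.of_surjective f.rangeRestrict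
    (LinearMap.surjective_rangeRestrict f)
  have hmem : ∀ x : LinearMap.ker g', ((x : L') : L) ∈ LinearMap.range f := by
    intro x
    have hx : g' (x : L') = 0 := x.2
    have hx' : g ((x : L') : L) = 0 := congrArg Subtype.val hx
    exact (h _).mp hx'
  let j : (LinearMap.ker g') →ₗ[R] (LinearMap.range f) :=
    LinearMap.codRestrict _ (L'.subtype.comp (LinearMap.ker g').subtype) hmem
  have hj : Function.Injective j := by
    intro a b hab
    have := congrArg Subtype.val hab
    exact Subtype.ext (Subtype.ext this)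
  have h1 : GP R p (LinearMap.ker g') := hr.of_injective j hj
  exact (h1 ⊤ l hl).congr Submodule.topEquiv

end closure

end GP

section twist

variable {R : Type u} [Ring R] (σ : R ≃+* R)

/-- the restriction of scalars along an automorphism -/
noncomputable abbrev twF : ModuleCat.{u} R ⥤ ModuleCat.{u} R := ModuleCat.restrictScalars σ.toRingHom

instance : (twF σ).IsEquivalence := ModuleCat.restrictScalars_isEquivalence_of_ringEquiv σ

/-- `R` twisted is isomorphic to `R` -/
noncomputable def twR : (twF σ).obj (ModuleCat.of R R) ⟶ ModuleCat.of R R :=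
  ModuleCat.ofHom (X := (twF σ).obj (ModuleCat.of R R)) (Y := R)
    { toFun := fun x => σ.symm x
      map_add' := fun x y => map_add σ.symm x y
      map_smul' := fun r x => by
        have h : ∀ (r y : R), σ.symm (σ r * y) = r * σ.symm y := fun r y => by
          rw [map_mul, RingEquiv.symm_apply_apply]
        exact h r x }

noncomputable def twRi : ModuleCat.of R R ⟶ (twF σ).obj (ModuleCat.of R R) :=
  ModuleCat.ofHom (X := R) (Y := (twF σ).obj (ModuleCat.of R R))
    { toFun := fun x => σ x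
      map_add' := fun x y => map_add σ x y
      map_smul' := fun r x => by
        show σ (r * x) = σ r * σ x
        rw [map_mul] }

theorem twR_inv : twR σ ≫ twRi σ = 𝟙 _ := by
  ext x
  exact σ.apply_symm_apply x

theorem twRi_inv : twRi σ ≫ twR σ = 𝟙 _ := by
  ext
  exact σ.symm_apply_apply 1

variable {K L : Type u} [AddCommGroup K] [Module R K] [AddCommGroup L] [Module R L]

variable {σ}

/-- a semilinear map as a linear map into the twisted module -/
noncomputable def twV (v : K →ₛₗ[(σ : R →+* R)] L) :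
    ModuleCat.of R K ⟶ (twF σ).obj (ModuleCat.of R L) :=
  ModuleCat.ofHom (X := K) (Y := (twF σ).obj (ModuleCat.of R L))
    { toFun := fun x => v x
      map_add' := fun x y => map_add v x y
      map_smul' := fun r x => v.map_smulₛₗ r x }

theorem twV_apply (v : K →ₛₗ[(σ : R →+* R)] L) (x : K) : (twV v).hom x = v x := rfl

/-- functoriality of `Ext^p(-, R)` for semilinear maps -/
noncomputable def extS {p : ℕ} (v : K →ₛₗ[(σ : R →+* R)] L)
    (x : Ext.{u} (ModuleCat.of R L) (ModuleCat.of R R) p) :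
    Ext.{u} (ModuleCat.of R K) (ModuleCat.of R R) p :=
  (Ext.mk₀ (twV v)).comp ((x.mapExactFunctor (twF σ)).comp (Ext.mk₀ (twR σ)) (add_zero p))
    (zero_add p)

theorem extS_add {p : ℕ} (v : K →ₛₗ[(σ : R →+* R)] L)
    (x y : Ext.{u} (ModuleCat.of R L) (ModuleCat.of R R) p) :
    extS v (x + y) = extS v x + extS v y := by
  unfold extS
  rw [Ext.mapExactFunctor_add, Ext.add_comp, Ext.comp_add]

theorem mulR_tw (r : R) : (twF σ).map (ModuleCat.ofHom (mulR r)) ≫ twR σ =
    twR σ ≫ ModuleCat.ofHom (mulR (σ.symm r)) := by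
  have h : ∀ x : R, σ.symm (x * r) = σ.symm x * σ.symm r := fun x => map_mul σ.symm x r
  ext x
  exact h x

/-- the action of `R` on the coefficients is twisted -/
theorem extS_act {p : ℕ} (v : K →ₛₗ[(σ : R →+* R)] L) (r : R)
    (x : Ext.{u} (ModuleCat.of R L) (ModuleCat.of R R) p) :
    extS v (x.comp (Ext.mk₀ (ModuleCat.ofHom (mulR r))) (add_zero p)) =
      (extS v x).comp (Ext.mk₀ (ModuleCat.ofHom (mulR (σ.symm r)))) (add_zero p) := by
  unfold extS
  rw [Ext.mapExactFunctor_comp, Ext.mapExactFunctor_mk₀]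
  rw [Ext.comp_assoc_of_third_deg_zero, Ext.comp_assoc_of_third_deg_zero,
    Ext.comp_assoc_of_third_deg_zero]
  rw [Ext.mk₀_comp_mk₀, Ext.mk₀_comp_mk₀, mulR_tw]

theorem extS_bijective {p : ℕ} (v : K →ₛₗ[(σ : R →+* R)] L) (hv : Function.Bijective v) :
    Function.Bijective (extS (p := p) v) := by
  have hiso : IsIso (twV v) := by
    rw [ConcreteCategory.isIso_iff_bijective]
    exact hv
  have h1 : Function.Bijective (fun x : Ext.{u} (ModuleCat.of R L) (ModuleCat.of R R) p =>
      x.mapExactFunctor (twF σ)) :=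
    Functor.mapExt_bijective_of_preservesProjectiveObjects (twF σ) _ _ p
  have h2 : Function.Bijective (fun x : Ext.{u} ((twF σ).obj (ModuleCat.of R L))
      ((twF σ).obj (ModuleCat.of R R)) p => x.comp (Ext.mk₀ (twR σ)) (add_zero p)) := by
    refine Function.bijective_iff_has_inverse.mpr
      ⟨fun x => x.comp (Ext.mk₀ (twRi σ)) (add_zero p), fun x => ?_, fun x => ?_⟩
    · show (x.comp (Ext.mk₀ (twR σ)) (add_zero p)).comp (Ext.mk₀ (twRi σ)) (add_zero p) = x
      rw [Ext.comp_assoc_of_third_deg_zero, Ext.mk₀_comp_mk₀, twR_inv, Ext.comp_mk₀_id]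
    · show (x.comp (Ext.mk₀ (twRi σ)) (add_zero p)).comp (Ext.mk₀ (twR σ)) (add_zero p) = x
      rw [Ext.comp_assoc_of_third_deg_zero, Ext.mk₀_comp_mk₀, twRi_inv, Ext.comp_mk₀_id]
  have h3 : Function.Bijective (fun x : Ext.{u} ((twF σ).obj (ModuleCat.of R L))
      (ModuleCat.of R R) p => (Ext.mk₀ (twV v)).comp x (zero_add p)) := by
    refine Function.bijective_iff_has_inverse.mpr
      ⟨fun x => (Ext.mk₀ (inv (twV v))).comp x (zero_add p), fun x => ?_, fun x => ?_⟩
    · show (Ext.mk₀ (inv (twV v))).comp ((Ext.mk₀ (twV v)).comp x (zero_add p)) (zero_add p) = x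
      rw [Ext.mk₀_comp_mk₀_assoc, IsIso.inv_hom_id, Ext.mk₀_id_comp]
    · show (Ext.mk₀ (twV v)).comp ((Ext.mk₀ (inv (twV v))).comp x (zero_add p)) (zero_add p) = x
      rw [Ext.mk₀_comp_mk₀_assoc, IsIso.hom_inv_id, Ext.mk₀_id_comp]
  exact h3.comp (h2.comp h1)

/-- vanishing of `Ext^l(-, R)` is invariant under semilinear isomorphisms -/
theorem ExtZ.twist {l : ℕ} (v : K →ₛₗ[(σ : R →+* R)] L) (hv : Function.Bijective v)
    (h : ExtZ R l L) : ExtZ R l K := by
  refine ⟨fun a b => ?_⟩
  obtain ⟨x, rfl⟩ := (extS_bijective (p := l) v hv).2 a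
  obtain ⟨y, rfl⟩ := (extS_bijective (p := l) v hv).2 b
  rw [h.elim x y]

theorem ExtZ.twist' {l : ℕ} (v : K →ₛₗ[(σ : R →+* R)] L) (hv : Function.Bijective v)
    (h : ExtZ R l K) : ExtZ R l L := by
  refine ⟨fun a b => ?_⟩
  exact (extS_bijective (p := l) v hv).1 (h.elim _ _)

end twist


section GPtwist

variable {R : Type u} [Ring R] {σ : R ≃+* R} {K L : Type u} [AddCommGroup K] [Module R K]
  [AddCommGroup L] [Module R L]

/-- the action on `E^p` : `extS` is semilinear -/
noncomputable def EP.mapS (p : ℕ) (v : K →ₛₗ[(σ : R →+* R)] L) (x : EP R p L) : EP R p K :=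
  extS (p := p) v x

theorem EP.mapS_add (p : ℕ) (v : K →ₛₗ[(σ : R →+* R)] L) (x y : EP R p L) :
    EP.mapS p v (x + y) = EP.mapS p v x + EP.mapS p v y := extS_add (p := p) v x y

theorem EP.mapS_smul (p : ℕ) (v : K →ₛₗ[(σ : R →+* R)] L) (r : R) (x : EP R p L) :
    EP.mapS p v (op r • x) = op (σ.symm r) • EP.mapS p v x := extS_act (p := p) v r x

theorem EP.mapS_bijective (p : ℕ) (v : K →ₛₗ[(σ : R →+* R)] L) (hv : Function.Bijective v) :
    Function.Bijective (EP.mapS p v) := extS_bijective (p := p) v hv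

/-- `G_p` is invariant under semilinear isomorphisms -/
theorem GP.twist_inj {p : ℕ} (v : K →ₛₗ[(σ : R →+* R)] L) (hv : Function.Injective v)
    (h : GP R p L) : GP R p K := by
  intro K' l hl
  -- the image is a submodule
  let L' : Submodule R L :=
    { carrier := v '' (K' : Set K)
      add_mem' := by
        rintro _ _ ⟨a, ha, rfl⟩ ⟨b, hb, rfl⟩
        exact ⟨a + b, K'.add_mem ha hb, map_add v a b⟩
      zero_mem' := ⟨0, K'.zero_mem, map_zero v⟩
      smul_mem' := by
        rintro r _ ⟨a, ha, rfl⟩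
        refine ⟨σ.symm r • a, K'.smul_mem _ ha, ?_⟩
        rw [v.map_smulₛₗ]
        show σ (σ.symm r) • v a = r • v a
        rw [RingEquiv.apply_symm_apply] }
  let v' : K' →ₛₗ[(σ : R →+* R)] L' :=
    { toFun := fun x => ⟨v (x : K), (x : K), x.2, rfl⟩
      map_add' := fun x y => Subtype.ext (map_add v (x : K) (y : K))
      map_smul' := fun r x => Subtype.ext (v.map_smulₛₗ r (x : K)) }
  refine ExtZ.twist v' ⟨?_, ?_⟩ (h L' l hl)
  · intro a b hab
    exact Subtype.ext (hv (congrArg Subtype.val hab))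
  · rintro ⟨_, a, ha, rfl⟩
    exact ⟨⟨a, ha⟩, rfl⟩

/-- `G_p` is invariant under semilinear isomorphisms -/
theorem GP.twist {p : ℕ} (v : K →ₛₗ[(σ : R →+* R)] L) (hv : Function.Bijective v) :
    GP R p K ↔ GP R p L := by
  refine ⟨fun h => ?_, GP.twist_inj v hv.1⟩
  intro L' l hl
  let K' : Submodule R K :=
    { carrier := v ⁻¹' (L' : Set L)
      add_mem' := by
        intro a b ha hb
        show v (a + b) ∈ L'
        rw [map_add]
        exact L'.add_mem ha hb
      zero_mem' := by
        show v 0 ∈ L'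
        rw [map_zero]
        exact L'.zero_mem
      smul_mem' := by
        intro r a ha
        show v (r • a) ∈ L'
        rw [v.map_smulₛₗ]
        exact L'.smul_mem _ ha }
  let v' : K' →ₛₗ[(σ : R →+* R)] L' :=
    { toFun := fun x => ⟨v (x : K), x.2⟩
      map_add' := fun x y => Subtype.ext (map_add v (x : K) (y : K))
      map_smul' := fun r x => Subtype.ext (v.map_smulₛₗ r (x : K)) }
  refine ExtZ.twist' v' ⟨?_, ?_⟩ (h K' l hl)
  · intro a b hab
    exact Subtype.ext (hv.1 (congrArg Subtype.val hab))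
  · rintro ⟨y, hy⟩
    obtain ⟨x, rfl⟩ := hv.2 y
    exact ⟨⟨x, hy⟩, rfl⟩

end GPtwist

end Pool.UP
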