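import Pool.Agent.Lib.UP.Defs
import Pool.Agent.Lib.UP.R1

/-!
TANK UP, row U1, part GE (helper76): closure properties of `GE R p` (Ext^l(M, R) = 0 for l < p).
-/

set_option autoImplicit false

namespace Pool.Agent.UP

universe u

variable {R : Type u} [Ring R] {p q : ℕ} {M M' M'' N : Type u} [AddCommGroup M] [Module R M]
  [AddCommGroup M'] [Module R M'] [AddCommGroup M''] [Module R M''] [AddCommGroup N] [Module R N]

theorem GE.mono (h : p ≤ q) (hM : GE R q M) : GE R p M :=
  fun l hl => hM l (lt_of_lt_of_le hl h)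

theorem GE.congr (e : M ≃ₗ[R] N) (hM : GE R p M) : GE R p N :=
  fun l hl => Pool.UP.ExtZ.congr e (hM l hl)

private theorem U1_exact {f : M' →ₗ[R] M} {g : M →ₗ[R] M''}
    (h : LinearMap.range f = LinearMap.ker g) : Function.Exact f g :=
  LinearMap.exact_iff.mpr h.symm

theorem GE.ext (f : M' →ₗ[R] M) (g : M →ₗ[R] M'') (hf : Function.Injective f)
    (hg : Function.Surjective g) (h : LinearMap.range f = LinearMap.ker g)
    (h1 : GE R p M') (h2 : GE R p M'') : GE R p M :=
  fun l hl => Pool.UP.ExtZ.mid hf hg (U1_exact h) (h1 l hl) (h2 l hl)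

theorem GE.quot (f : M' →ₗ[R] M) (g : M →ₗ[R] M'') (hf : Function.Injective f)
    (hg : Function.Surjective g) (h : LinearMap.range f = LinearMap.ker g)
    (h1 : GE R p M') (h2 : GE R (p + 1) M) : GE R (p + 1) M'' := by
  intro l hl
  rcases l with _ | l
  · exact Pool.UP.ExtZ.quot0 hf hg (U1_exact h) (h2 0 hl)
  · exact Pool.UP.ExtZ.quot hf hg (U1_exact h) (h1 l (by omega)) (h2 (l + 1) hl)

theorem GE.sub (f : M' →ₗ[R] M) (g : M →ₗ[R] M'') (hf : Function.Injective f)
    (hg : Function.Surjective g) (h : LinearMap.range f = LinearMap.ker g)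
    (h1 : GE R p M) (h2 : GE R (p + 1) M'') : GE R p M' :=
  fun l hl => Pool.UP.ExtZ.sub hf hg (U1_exact h) (h1 l hl) (h2 (l + 1) (by omega))

end Pool.Agent.UP
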