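import Mathlib
import Pool.Agent.Lib.UP.U1G

/-!
# TANK UP, row U1, second half: the condition `Loc` (all finitely generated submodules satisfy `GE`)
-/

set_option autoImplicit false

open CategoryTheory

namespace Pool.Agent.UP

universe u

section U1L
variable {R : Type u} [Ring R] {p q : ℕ} {M M' M'' N : Type u} [AddCommGroup M] [Module R M]
  [AddCommGroup M'] [Module R M'] [AddCommGroup M''] [Module R M''] [AddCommGroup N] [Module R N]

theorem U1_GE_zero : GE R 0 M := fun _ hl => absurd hl (Nat.not_lt_zero _)

theorem Loc.mono (h : p ≤ q) (hM : Loc R q M) : Loc R p M := fun N hN => (hM N hN).mono h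

theorem Loc.ge [Module.Finite R M] (hM : Loc R p M) : GE R p M :=
  (hM ⊤ Module.Finite.fg_top).congr Submodule.topEquiv

theorem Loc.of_injective (f : N →ₗ[R] M) (hf : Function.Injective f) (hM : Loc R p M) :
    Loc R p N := fun N' hN' =>
  (hM (N'.map f) (hN'.map f)).congr (Submodule.equivMapOfInjective f hf N').symm

/-- finitely generated submodules of the target of a surjection are images of finitely generated
submodules -/
theorem U1_exists_fg (f : M →ₗ[R] N) (hf : Function.Surjective f) (N' : Submodule R N)
    (hN' : N'.FG) : ∃ M1 : Submodule R M, M1.FG ∧ M1.map f = N' := by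
  classical
  obtain ⟨s, rfl⟩ := hN'
  refine ⟨Submodule.span R (Function.surjInv hf '' (s : Set N)),
    Submodule.fg_span (s.finite_toSet.image _), ?_⟩
  rw [Submodule.map_span, Set.image_image]
  congr 1
  ext x
  simp [Function.surjInv_eq hf]

theorem Loc.of_surjective [IsNoetherianRing R] (f : M →ₗ[R] N) (hf : Function.Surjective f)
    (hM : Loc R p M) : Loc R p N := by
  intro N' hN'
  cases p with
  | zero => exact U1_GE_zero
  | succ p =>
    obtain ⟨M1, h1, rfl⟩ := U1_exists_fg f hf N' hN'
    have : Module.Finite R M1 := Module.Finite.iff_fg.2 h1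
    let g : M1 →ₗ[R] (M1.map f) := f.submoduleMap M1
    have hg : Function.Surjective g := f.submoduleMap_surjective M1
    have hk : (LinearMap.ker g).FG := IsNoetherian.noetherian _
    refine GE.quot (M' := LinearMap.ker g) (M := M1) (LinearMap.ker g).subtype g
      Subtype.val_injective hg (Submodule.range_subtype _) ?_ (hM M1 h1)
    have h2 : GE R p ((LinearMap.ker g).map M1.subtype) :=
      (hM _ (hk.map M1.subtype)).mono (Nat.le_succ p)
    exact h2.congr
      (Submodule.equivMapOfInjective M1.subtype Subtype.val_injective (LinearMap.ker g)).symm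

theorem Loc.of_exact [IsNoetherianRing R] (f : M' →ₗ[R] M) (g : M →ₗ[R] M'')
    (h : LinearMap.ker g ≤ LinearMap.range f) (h1 : Loc R p M') (h2 : Loc R p M'') :
    Loc R p M := by
  intro N hN
  have : Module.Finite R N := Module.Finite.iff_fg.2 hN
  let g' : N →ₗ[R] (N.map g) := g.submoduleMap N
  have hg : Function.Surjective g' := g.submoduleMap_surjective N
  have : Module.Finite R (LinearMap.ker g') := Module.Finite.iff_fg.2 (IsNoetherian.noetherian _)
  refine GE.ext (M' := LinearMap.ker g') (M := N) (LinearMap.ker g').subtype g'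
    Subtype.val_injective hg (Submodule.range_subtype _) ?_ (h2 _ (hN.map g))
  have h3 : Loc R p (LinearMap.range f) :=
    Loc.of_surjective f.rangeRestrict f.surjective_rangeRestrict h1
  have h4 : ∀ x : LinearMap.ker g', (x : M) ∈ LinearMap.range f := by
    intro x
    apply h
    have h5 : g' (x : N) = 0 := x.2
    exact congrArg Subtype.val h5
  refine Loc.ge (Loc.of_injective (M := LinearMap.range f)
    ((N.subtype.comp (LinearMap.ker g').subtype).codRestrict (LinearMap.range f) h4) ?_ h3)
  intro x y hxy
  have h6 := congrArg Subtype.val hxy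
  exact Subtype.ext (Subtype.ext h6)

/-- directed unions -/
theorem Loc.of_union (h : ∀ N : Submodule R M, N.FG → ∃ N' : Submodule R M, N ≤ N' ∧ Loc R p N') :
    Loc R p M := by
  intro N hN
  obtain ⟨N', h1, h2⟩ := h N hN
  have : Module.Finite R N := Module.Finite.iff_fg.2 hN
  exact Loc.ge (Loc.of_injective (Submodule.inclusion h1) (Submodule.inclusion_injective h1) h2)

end U1L

end Pool.Agent.UP
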