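import Mathlib

/-!
TANK UP, row R2: the bridge between Mathlib's `Ext` in `ModuleCat R` and explicit projective
resolutions (`PR`), in particular resolutions by finite matrices (`Res`: row vectors `x ᵥ* D`,
the dual acts on column vectors `D *ᵥ c`).
-/

set_option autoImplicit false

open CategoryTheory CategoryTheory.Abelian CategoryTheory.Limits
open scoped Matrix

namespace Pool.Agent.UP

universe u

/-- a resolution of `K` by projective modules -/
structure PR (R : Type u) [Ring R] (K : Type u) [AddCommGroup K] [Module R K] where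
  X : ℕ → Type u
  [acg : ∀ n, AddCommGroup (X n)]
  [mod : ∀ n, Module R (X n)]
  [proj : ∀ n, Module.Projective R (X n)]
  d : ∀ n, X (n + 1) →ₗ[R] X n
  e : X 0 →ₗ[R] K
  surj : Function.Surjective e
  ex0 : ∀ x, e x = 0 ↔ ∃ y, d 0 y = x
  ex : ∀ n x, d n x = 0 ↔ ∃ y, d (n + 1) y = x

namespace PR

variable {R : Type u} [Ring R] {K : Type u} [AddCommGroup K] [Module R K] (P : PR R K)

instance (n : ℕ) : AddCommGroup (P.X n) := P.acg n
instance (n : ℕ) : Module R (P.X n) := P.mod n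
instance (n : ℕ) : Module.Projective R (P.X n) := P.proj n

theorem d_d (n : ℕ) : P.d n ∘ₗ P.d (n + 1) = 0 :=
  LinearMap.ext fun x => (P.ex n _).2 ⟨x, rfl⟩

theorem e_d : P.e ∘ₗ P.d 0 = 0 :=
  LinearMap.ext fun x => (P.ex0 _).2 ⟨x, rfl⟩

/-- the chain complex -/
noncomputable def cx : ChainComplex (ModuleCat.{u} R) ℕ :=
  ChainComplex.of (fun n => ModuleCat.of R (P.X n)) (fun n => ModuleCat.ofHom (P.d n))
    (fun n => by rw [← ModuleCat.ofHom_comp, P.d_d]; rfl)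

theorem cx_d (n : ℕ) : P.cx.d (n + 1) n = ModuleCat.ofHom (P.d n) :=
  ChainComplex.of_d (fun n => ModuleCat.of R (P.X n)) (fun n => ModuleCat.ofHom (P.d n)) n

theorem cx_exactAt (n : ℕ) : P.cx.ExactAt (n + 1) := by
  rw [HomologicalComplex.exactAt_iff' _ (n + 1 + 1) (n + 1) n (by simp) (by simp)]
  rw [ShortComplex.moduleCat_exact_iff]
  intro x hx
  have h1 : P.d n x = 0 := by
    have : (P.cx.d (n + 1) n).hom x = 0 := hx
    rw [cx_d] at this
    exact this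
  obtain ⟨y, hy⟩ := (P.ex n x).1 h1
  refine ⟨y, ?_⟩
  have : (P.cx.d (n + 1 + 1) (n + 1)).hom y = x := by
    rw [cx_d]
    exact hy
  exact this

instance (n : ℕ) : Projective (P.cx.X n) :=
  (IsProjective.iff_projective (R := R) (P.X n)).1 inferInstance

/-- the augmentation -/
noncomputable def pe : P.cx.X 0 ⟶ ModuleCat.of R K := ModuleCat.ofHom P.e

theorem cx_e : P.cx.d 1 0 ≫ P.pe = 0 := by
  have h : (ModuleCat.ofHom (P.d 0) ≫ ModuleCat.ofHom P.e :
      ModuleCat.of R (P.X 1) ⟶ ModuleCat.of R K) = 0 := by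
    rw [← ModuleCat.ofHom_comp, P.e_d]; rfl
  rw [P.cx_d 0]
  exact h

theorem cx_exact0 : (ShortComplex.mk (P.cx.d 1 0) P.pe P.cx_e).Exact := by
  rw [ShortComplex.moduleCat_exact_iff]
  intro x hx
  obtain ⟨y, hy⟩ := (P.ex0 x).1 hx
  refine ⟨y, ?_⟩
  have : (P.cx.d 1 0).hom y = x := by
    rw [cx_d]
    exact hy
  exact this

/-- the projective resolution -/
noncomputable def toProj : ProjectiveResolution (ModuleCat.of R K) where
  complex := P.cx
  π := (ChainComplex.toSingle₀Equiv _ _).symm ⟨P.pe, P.cx_e⟩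
  quasiIso := ⟨fun n => by
    cases n with
    | zero =>
      rw [ChainComplex.quasiIsoAt₀_iff, ShortComplex.quasiIso_iff_of_zeros']
      · refine (ShortComplex.exact_and_epi_g_iff_of_iso ?_).2 ⟨P.cx_exact0, ?_⟩
        · exact ShortComplex.isoMk (Iso.refl _) (Iso.refl _) (Iso.refl _)
            ((Category.id_comp _).trans (Category.comp_id _).symm)
            ((Category.id_comp _).trans (Category.comp_id _).symm)
        · exact (ModuleCat.epi_iff_surjective _).2 P.surj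
      all_goals rfl
    | succ n =>
      rw [quasiIsoAt_iff_exactAt']
      · exact P.cx_exactAt n
      · apply ChainComplex.exactAt_succ_single_obj⟩

variable {M : Type u} [AddCommGroup M] [Module R M]

/-- a linear map as a morphism from the `l`-th term -/
noncomputable def mor (l : ℕ) (f : P.X l →ₗ[R] M) : P.toProj.complex.X l ⟶ ModuleCat.of R M :=
  ModuleCat.ofHom f

theorem mor_surj (l : ℕ) (g : P.toProj.complex.X l ⟶ ModuleCat.of R M) :
    ∃ f, P.mor l f = g := ⟨(g : ModuleCat.of R (P.X l) ⟶ ModuleCat.of R M).hom, rfl⟩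

theorem mor_inj (l : ℕ) {f g : P.X l →ₗ[R] M} (h : P.mor l f = P.mor l g) : f = g :=
  congrArg ModuleCat.Hom.hom (show (ModuleCat.ofHom f : ModuleCat.of R (P.X l) ⟶ ModuleCat.of R M) =
    ModuleCat.ofHom g from h)

theorem mor_add (l : ℕ) (f g : P.X l →ₗ[R] M) : P.mor l (f + g) = P.mor l f + P.mor l g := rfl

theorem d_mor (l : ℕ) (f : P.X l →ₗ[R] M) :
    P.toProj.complex.d (l + 1) l ≫ P.mor l f = P.mor (l + 1) (f ∘ₗ P.d l) := by
  have h2 : P.toProj.complex.d (l + 1) l = ModuleCat.ofHom (P.d l) := P.cx_d l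
  rw [h2]
  rfl

theorem mor_zero (l : ℕ) : P.mor l (0 : P.X l →ₗ[R] M) = 0 := rfl

theorem cond {l : ℕ} {f : P.X l →ₗ[R] M} (hf : f ∘ₗ P.d l = 0) :
    P.toProj.complex.d (l + 1) l ≫ P.mor l f = 0 := by
  rw [d_mor, hf, mor_zero]

/-- the class in `Ext^l(K, M)` of a cocycle `f : X_l → M` -/
noncomputable def cls (l : ℕ) (f : P.X l →ₗ[R] M) (hf : f ∘ₗ P.d l = 0) :
    Ext (ModuleCat.of R K) (ModuleCat.of R M) l :=
  P.toProj.extMk (P.mor l f) (l + 1) rfl (P.cond hf)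

theorem cls_surj (l : ℕ) (x : Ext (ModuleCat.of R K) (ModuleCat.of R M) l) :
    ∃ (f : P.X l →ₗ[R] M) (hf : f ∘ₗ P.d l = 0), P.cls l f hf = x := by
  obtain ⟨g, hg, rfl⟩ := P.toProj.extMk_surjective x (l + 1) rfl
  obtain ⟨f, rfl⟩ := P.mor_surj l g
  refine ⟨f, ?_, rfl⟩
  rw [d_mor] at hg
  exact P.mor_inj (l + 1) (hg.trans (P.mor_zero _).symm)

theorem cls_add (l : ℕ) (f g : P.X l →ₗ[R] M) (hf : f ∘ₗ P.d l = 0) (hg : g ∘ₗ P.d l = 0) :
    P.cls l (f + g) (by rw [LinearMap.add_comp, hf, hg, add_zero]) = P.cls l f hf + P.cls l g hg :=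
  (P.toProj.add_extMk _ _ _ _ _ _).symm

theorem cls_zero (l : ℕ) : P.cls l (0 : P.X l →ₗ[R] M) (LinearMap.zero_comp _) = 0 :=
  P.toProj.extMk_zero _ _

theorem cls_eq_zero_succ (l : ℕ) (f : P.X (l + 1) →ₗ[R] M) (hf : f ∘ₗ P.d (l + 1) = 0) :
    P.cls (l + 1) f hf = 0 ↔ ∃ g : P.X l →ₗ[R] M, g ∘ₗ P.d l = f := by
  unfold cls
  rw [P.toProj.extMk_eq_zero_iff (P.mor (l + 1) f) _ _ _ l rfl]
  constructor
  · rintro ⟨g, hg⟩
    obtain ⟨g, rfl⟩ := P.mor_surj l g
    rw [d_mor] at hg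
    exact ⟨g, P.mor_inj _ hg⟩
  · rintro ⟨g, hg⟩
    exact ⟨P.mor l g, by rw [d_mor, hg]⟩

theorem extMk_zero_zero {C : Type*} [Category C] [Abelian C] [HasExt.{u} C] {X Y : C}
    (Q : ProjectiveResolution X) (f : Q.complex.X 0 ⟶ Y) (hf : Q.complex.d 1 0 ≫ f = 0)
    (h : Q.extMk f 1 rfl hf = 0) : f = 0 := by
  rw [← Q.extEquivCohomologyClass.apply_eq_iff_eq, Q.extEquivCohomologyClass_extMk,
    Q.extEquivCohomologyClass_zero, CochainComplex.HomComplex.CohomologyClass.mk_eq_zero_iff,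
    CochainComplex.HomComplex.Cocycle.toSingleMk_mem_coboundaries_iff _ _ _ _ _ 1 (by lia)] at h
  obtain ⟨g, hg⟩ := h
  have h0 : g = 0 := (CochainComplex.isZero_of_isStrictlyLE _ 0 _).eq_of_src _ _
  rw [h0, comp_zero] at hg
  rw [← cancel_epi (Q.cochainComplexXIso (-(0 : ℕ)) 0 rfl).hom, comp_zero]
  exact hg.symm

theorem cls_eq_zero_zero (f : P.X 0 →ₗ[R] M) (hf : f ∘ₗ P.d 0 = 0) (h : P.cls 0 f hf = 0) :
    f = 0 :=
  P.mor_inj 0 ((extMk_zero_zero P.toProj (P.mor 0 f) (P.cond hf) h).trans (P.mor_zero 0).symm)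

theorem subsingleton_succ_iff (l : ℕ) :
    Subsingleton (Ext (ModuleCat.of R K) (ModuleCat.of R M) (l + 1)) ↔
      ∀ f : P.X (l + 1) →ₗ[R] M, f ∘ₗ P.d (l + 1) = 0 → ∃ g : P.X l →ₗ[R] M, g ∘ₗ P.d l = f := by
  constructor
  · intro h f hf
    exact (P.cls_eq_zero_succ l f hf).1 (Subsingleton.elim _ _)
  · intro h
    refine subsingleton_of_forall_eq 0 fun x => ?_
    obtain ⟨f, hf, rfl⟩ := P.cls_surj (l + 1) x
    exact (P.cls_eq_zero_succ l f hf).2 (h f hf)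

theorem subsingleton_zero_iff :
    Subsingleton (Ext (ModuleCat.of R K) (ModuleCat.of R M) 0) ↔
      ∀ f : P.X 0 →ₗ[R] M, f ∘ₗ P.d 0 = 0 → f = 0 := by
  constructor
  · intro h f hf
    exact P.cls_eq_zero_zero f hf (Subsingleton.elim _ _)
  · intro h
    refine subsingleton_of_forall_eq 0 fun x => ?_
    obtain ⟨f, hf, rfl⟩ := P.cls_surj 0 x
    obtain rfl := h f hf
    exact P.cls_zero 0

/-- postcomposition -/
theorem cls_comp {M' : Type u} [AddCommGroup M'] [Module R M'] (l : ℕ) (f : P.X l →ₗ[R] M)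
    (hf : f ∘ₗ P.d l = 0) (g : M →ₗ[R] M') :
    (P.cls l f hf).comp (Ext.mk₀ (ModuleCat.ofHom g)) (add_zero l) =
      P.cls l (g ∘ₗ f) (by rw [LinearMap.comp_assoc, hf, LinearMap.comp_zero]) :=
  P.toProj.extMk_comp_mk₀ (P.mor l f) (l + 1) rfl (P.cond hf) (ModuleCat.ofHom g)

end PR

/-! ### chain maps -/

namespace PR

variable {R : Type u} [Ring R] {K K' : Type u} [AddCommGroup K] [Module R K] [AddCommGroup K']
  [Module R K'] (P : PR R K) (P' : PR R K') {M : Type u} [AddCommGroup M] [Module R M]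

/-- a chain map -/
noncomputable def homCx (u : ∀ n, P'.X n →ₗ[R] P.X n)
    (hu : ∀ n, P.d n ∘ₗ u (n + 1) = u n ∘ₗ P'.d n) : P'.cx ⟶ P.cx where
  f n := (ModuleCat.ofHom (u n) : ModuleCat.of R (P'.X n) ⟶ ModuleCat.of R (P.X n))
  comm' := by
    rintro i j hij
    obtain rfl : j + 1 = i := hij
    rw [cx_d, cx_d]
    exact congrArg ModuleCat.ofHom (hu j)

/-- a chain map over `f`, as a morphism of resolutions -/
noncomputable def homPr (f : K' →ₗ[R] K) (u : ∀ n, P'.X n →ₗ[R] P.X n)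
    (hu0 : P.e ∘ₗ u 0 = f ∘ₗ P'.e) (hu : ∀ n, P.d n ∘ₗ u (n + 1) = u n ∘ₗ P'.d n) :
    ProjectiveResolution.Hom P'.toProj P.toProj (ModuleCat.ofHom f) where
  hom := P.homCx P' u hu
  hom_f_zero_comp_π_f_zero := by
    have h : (ModuleCat.ofHom (u 0) ≫ ModuleCat.ofHom P.e :
      ModuleCat.of R (P'.X 0) ⟶ ModuleCat.of R K) = ModuleCat.ofHom P'.e ≫ ModuleCat.ofHom f := by
      rw [← ModuleCat.ofHom_comp, hu0, ModuleCat.ofHom_comp]
    exact h

/-- precomposition: for a chain map `u : P' → P` over `f : K' → K` -/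
theorem comp_cls (f : K' →ₗ[R] K) (u : ∀ n, P'.X n →ₗ[R] P.X n) (hu0 : P.e ∘ₗ u 0 = f ∘ₗ P'.e)
    (hu : ∀ n, P.d n ∘ₗ u (n + 1) = u n ∘ₗ P'.d n) (l : ℕ) (c : P.X l →ₗ[R] M)
    (hc : c ∘ₗ P.d l = 0) :
    (Ext.mk₀ (ModuleCat.ofHom f)).comp (P.cls l c hc) (zero_add l) =
      P'.cls l (c ∘ₗ u l) (by
        rw [LinearMap.comp_assoc, ← hu, ← LinearMap.comp_assoc, hc, LinearMap.zero_comp]) :=
  ProjectiveResolution.mk₀_comp_extMk (P.mor l c) (l + 1) rfl (P.cond hc) (P.homPr P' f u hu0 hu)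

end PR

end Pool.Agent.UP
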