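import Mathlib
import Pool.Agent.Lib.UP.Defs
import Pool.Agent.Lib.UP.Bridge
import Pool.Agent.Lib.UP94.Mat

/-!
TANK UP, row R2: `Ext^l(M, R) = 0` if and only if the dual (columns) of a resolution by finite
matrices is exact at `l`.
-/

set_option autoImplicit false

open CategoryTheory CategoryTheory.Abelian
open scoped Matrix

namespace Pool.Agent.UP

universe u

section dot

variable {R : Type u} [Ring R] {m n : Type} [Fintype m] [Fintype n]

/-- the functional given by a column -/
def dotF (c : n → R) : (n → R) →ₗ[R] R where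
  toFun x := x ⬝ᵥ c
  map_add' x y := add_dotProduct x y c
  map_smul' r x := smul_dotProduct r x c

@[simp] theorem dotF_apply (c x : n → R) : dotF c x = x ⬝ᵥ c := rfl

theorem dotF_inj {c c' : n → R} (h : dotF c = dotF c') : c = c' := by
  classical
  funext i
  have := LinearMap.congr_fun h (Pi.single i 1)
  simpa using this

theorem dotF_surj [DecidableEq n] (f : (n → R) →ₗ[R] R) : ∃ c, dotF c = f := by
  refine ⟨fun i => f (Pi.single i 1), ?_⟩
  refine LinearMap.pi_ext' fun i => LinearMap.ext_ring ?_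
  simp

theorem dotF_comp (D : Matrix m n R) (c : n → R) :
    dotF c ∘ₗ D.vecMulLinear = dotF (D *ᵥ c) := by
  refine LinearMap.ext fun x => ?_
  exact (Matrix.dotProduct_mulVec x D c).symm

theorem dotF_zero : dotF (0 : n → R) = 0 := LinearMap.ext fun x => dotProduct_zero x

theorem dotF_comp_eq_zero_iff (D : Matrix m n R) (c : n → R) :
    dotF c ∘ₗ D.vecMulLinear = 0 ↔ D *ᵥ c = 0 := by
  rw [dotF_comp]
  constructor
  · intro h
    exact dotF_inj (h.trans dotF_zero.symm)
  · intro h
    rw [h, dotF_zero]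

end dot

section Res

variable {R : Type u} [Ring R] {M : Type u} [AddCommGroup M] [Module R M] {T : RC R}

/-- a resolution by finite free modules as a projective resolution -/
def Res.toPR (P : Res T M) : PR R M where
  X k := T.ι k → R
  d k := (T.D k).vecMulLinear
  e := P.ε
  surj := P.surj
  ex0 x := ⟨P.ker x, by rintro ⟨y, rfl⟩; exact P.zero y⟩
  ex k x := ⟨P.ex k x, by
    rintro ⟨y, rfl⟩
    change (y ᵥ* T.D (k + 1)) ᵥ* T.D k = 0
    rw [Matrix.vecMul_vecMul, T.DD, Matrix.vecMul_zero]⟩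

/-- **R2** -/
theorem Res.coEx_iff (P : Res T M) (l : ℕ) :
    T.CoEx l ↔ Subsingleton (Ext.{u} (ModuleCat.of R M) (ModuleCat.of R R) l) := by
  cases l with
  | zero =>
    rw [P.toPR.subsingleton_zero_iff]
    constructor
    · intro h f hf
      obtain ⟨c, rfl⟩ := dotF_surj f
      rw [h c ((dotF_comp_eq_zero_iff (T.D 0) c).1 hf)]
      exact dotF_zero
    · intro h c hc
      exact dotF_inj ((h (dotF c) ((dotF_comp_eq_zero_iff (T.D 0) c).2 hc)).trans dotF_zero.symm)
  | succ l =>
    rw [P.toPR.subsingleton_succ_iff]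
    constructor
    · intro h f hf
      obtain ⟨c, rfl⟩ := dotF_surj f
      obtain ⟨z, hz⟩ := h c ((dotF_comp_eq_zero_iff (T.D (l + 1)) c).1 hf)
      exact ⟨dotF z, by rw [← hz]; exact dotF_comp (T.D l) z⟩
    · intro h c hc
      obtain ⟨g, hg⟩ := h (dotF c) ((dotF_comp_eq_zero_iff (T.D (l + 1)) c).2 hc)
      obtain ⟨z, rfl⟩ := dotF_surj g
      exact ⟨z, dotF_inj ((dotF_comp (T.D l) z).symm.trans hg)⟩

/-- **U2** -/
theorem ge_iff (P : Res T M) (p : ℕ) : GE R p M ↔ ∀ l < p, T.CoEx l :=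
  ⟨fun h l hl => (P.coEx_iff l).2 (h l hl), fun h l hl => (P.coEx_iff l).1 (h l hl)⟩

theorem Res.coEx_of_GE (P : Res T M) {p : ℕ} (h : GE R p M) {l : ℕ} (hl : l < p) : T.CoEx l :=
  (P.coEx_iff l).2 (h l hl)

end Res

section MRes

open Pool.Agent.UP94

variable {R : Type u} [Ring R] {M : Type u} [AddCommGroup M] [Module R M]

/-- 94's resolutions in the form of `Defs` -/
def toRC (P : MRes R M) : RC R where
  ι := P.I
  D := P.D
  DD := P.DD

def toRes (P : MRes R M) : Res (toRC P) M where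
  ε := P.e
  surj := P.surj
  zero x := (P.ex0 _).2 ⟨x, rfl⟩
  ker x hx := (P.ex0 x).1 hx
  ex k x hx := (P.exs k x).1 hx

theorem coEx_toRC (P : MRes R M) (l : ℕ) : (toRC P).CoEx l ↔ DE P.D l := by
  cases l <;> exact Iff.rfl

theorem MRes.DE_iff (P : MRes R M) (l : ℕ) :
    DE P.D l ↔ Subsingleton (Ext.{u} (ModuleCat.of R M) (ModuleCat.of R R) l) :=
  (coEx_toRC P l).symm.trans ((toRes P).coEx_iff l)

end MRes

end Pool.Agent.UP
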