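import Mathlib
import Pool.Agent.Lib.UP.U1
import Pool.Agent.Lib.UP.U2
import Pool.Agent.Lib.UP.U5
import Pool.Agent.Lib.UP.F1

/-!
TANK UP, stage 2, row F3 (helper63): Claim 1 over the skew group ring `S = R * F` of a free group: if all finitely
generated `R`-submodules of the finitely presented `S`-module `K` satisfy `Ext^l_R(-, R) = 0` for
`l < p`, then `Ext^l_S(K, S) = 0` for `l < p`.
-/

set_option autoImplicit false

open MonoidAlgebra CategoryTheory

namespace Pool.Agent.UP

universe u v w

section pi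

variable {R : Type u} [Ring R] [IsNoetherianRing R] {p : ℕ} {K : Type u} [AddCommGroup K]
  [Module R K]

theorem Loc.fin_pi (h : Loc R p K) (n : ℕ) : Loc R p (Fin n → K) := by
  induction n with
  | zero =>
    exact Loc.of_injective (0 : (Fin 0 → K) →ₗ[R] K) (fun x y _ => Subsingleton.elim _ _) h
  | succ n ih =>
    refine Loc.of_exact (LinearMap.single R (fun _ : Fin (n + 1) => K) 0)
      (LinearMap.funLeft R K Fin.succ) ?_ h ih
    intro x hx
    refine ⟨x 0, ?_⟩
    ext i
    refine Fin.cases ?_ (fun j => ?_) i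
    · simp
    · have := congrFun (LinearMap.mem_ker.1 hx) j
      rw [LinearMap.funLeft_apply, Pi.zero_apply] at this
      rw [this]
      simp

theorem Loc.pi_submodule {X : Type} [Fintype X] (h : Loc R p K) (N : X → Submodule R K) :
    Loc R p (∀ j, N j) := by
  let e := Fintype.equivFin X
  let f : (∀ j, N j) →ₗ[R] (Fin (Fintype.card X) → K) :=
    LinearMap.pi fun i => (N (e.symm i)).subtype.comp (LinearMap.proj (φ := fun j => N j) (e.symm i))
  refine Loc.of_injective f ?_ (h.fin_pi _)
  intro a b hab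
  ext j
  have := congrFun hab (e j)
  have h1 : ((a (e.symm (e j)) : N (e.symm (e j))) : K) = b (e.symm (e j)) := this
  rw [Equiv.symm_apply_apply] at h1
  exact h1

end pi

namespace SkF

variable {X : Type} [Fintype X] [DecidableEq X] {R S : Type u} [Ring R] [Ring S]
  [IsNoetherianRing R] (E : SkF X R S) {K : Type u} [AddCommGroup K] [Module R K] [Module S K]
  (hc : ∀ (r : R) (x : K), r • x = E.iota r • x)
include hc

/-- **Claim 1** -/
theorem claim1 [Module.FinitePresentation S K] {p : ℕ} (h : Loc R p K) : GE S p K := by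
  obtain ⟨Λ, m, hfg, hgen, hR⟩ := E.exists_lattice hc
  obtain ⟨T1, T0, r1, r0, u, V, Ψ, -, -, -, -, ⟨r⟩⟩ := E.exists_cone_res hc hfg hgen hR
  have h0 : ∀ l < p, T0.CoEx l := fun l hl =>
    r0.coEx_of_GE (h _ ((E.semi hc).K0_fg m hfg)) hl
  have hfin : ∀ j, Module.Finite R ((E.semi hc).K1 ((E.semi hc).K0 m Λ) j) := fun j =>
    Module.Finite.iff_fg.2 ((E.semi hc).K1_fg ((E.semi hc).K0_fg m hfg) j)
  have hfin' : Module.Finite R (∀ j, (E.semi hc).K1 ((E.semi hc).K0 m Λ) j) := Module.Finite.pi
  have h1 : ∀ l < p, T1.CoEx l := fun l hl =>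
    r1.coEx_of_GE (h.pi_submodule _).ge hl
  rw [ge_iff r]
  intro l hl
  cases l with
  | zero => exact cone_coex_zero (inj_of_coex (f := Ψ) (E.map_coex (h0 0 hl)))
  | succ l =>
    exact cone_coex_succ (inj_of_coex (f := Ψ) (E.map_coex (h0 _ hl)))
      (E.map_coex (h1 l (by omega)))

end SkF

theorem claim1F {X : Type} [Fintype X] [DecidableEq X] {R S : Type u} [Ring R] [Ring S]
    [IsNoetherianRing R] (L : SkF X R S) {K : Type u} [AddCommGroup K] [Module R K] [Module S K]
    (hc : ∀ (r : R) (x : K), r • x = L.iota r • x) [Module.FinitePresentation S K] {p : ℕ}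
    (h : Loc R p K) : GE S p K := L.claim1 hc h

end Pool.Agent.UP
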