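import Mathlib
import Pool.Agent.Lib.UP.Defs
import Pool.Agent.Lib.UP.TrDefs

/-!
# Coherence and finite resolutions in matrix form
-/

namespace Pool.Agent.UP

universe u

section

variable {R : Type u} [Ring R]

theorem mul_eq_vecMul {J K : Type} [Fintype J] (x : Matrix Unit J R) (D : Matrix J K R) (u : Unit) :
    (x * D) u = Matrix.vecMul (x u) D := by
  funext k
  rw [Matrix.mul_apply]
  rfl

theorem row_eq_iff {J K : Type} [Fintype J] {x : Matrix Unit J R} {D : Matrix J K R}
    {y : Matrix Unit K R} : x * D = y ↔ Matrix.vecMul (x ()) D = y () := by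
  constructor
  · intro h
    rw [← mul_eq_vecMul, h]
  · intro h
    funext u
    rw [mul_eq_vecMul, show u = () from rfl, h]

/-- left kernels are finitely generated over a noetherian ring -/
theorem cohT_of_noeth [IsNoetherianRing R] : CohT R := by
  classical
  intro J K _ _ D
  let N : Submodule R (J → R) := LinearMap.ker (Matrix.vecMulLinear D)
  obtain ⟨S, hS⟩ : N.FG := IsNoetherian.noetherian N
  let eq := S.equivFin
  refine ⟨S.card, fun i j => (eq.symm i : J → R) j, ?_, ?_⟩
  · funext i k
    have h1 : ((eq.symm i : J → R)) ∈ N := by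
      rw [← hS]
      exact Submodule.subset_span (eq.symm i).2
    have h2 : Matrix.vecMul (eq.symm i : J → R) D = 0 := h1
    exact congrFun h2 k
  · intro x hx
    have h1 : x () ∈ N := row_eq_iff.1 hx
    rw [← hS] at h1
    have h2 : Submodule.span R (S : Set (J → R)) =
        Submodule.span R (Set.range fun i : Fin S.card => (eq.symm i : J → R)) := by
      congr 1
      ext y
      constructor
      · intro hy
        exact ⟨eq ⟨y, hy⟩, by simp⟩
      · rintro ⟨i, rfl⟩
        exact (eq.symm i).2
    rw [h2] at h1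
    obtain ⟨c, hc⟩ := (Submodule.mem_span_range_iff_exists_fun R).1 h1
    refine ⟨fun _ i => c i, ?_⟩
    symm
    apply row_eq_iff.2
    show Matrix.vecMul c _ = x ()
    rw [← hc]
    funext j
    simp only [Matrix.vecMul, dotProduct, Finset.sum_apply, Pi.smul_apply, smul_eq_mul]

/-- a matrix with sizes -/
structure SM (R : Type u) where
  a : ℕ
  b : ℕ
  D : Matrix (Fin a) (Fin b) R

/-- generators of the left kernel -/
noncomputable def SM.next (h : CohT R) (s : SM R) : SM R where
  a := (h _ _ s.D).choose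
  b := s.a
  D := (h _ _ s.D).choose_spec.choose

theorem SM.next_gen (h : CohT R) (s : SM R) : GenR (s.next h).D s.D :=
  (h _ _ s.D).choose_spec.choose_spec

/-- the iterated kernels -/
noncomputable def SM.seq (h : CohT R) (s : SM R) : ℕ → SM R
  | 0 => s
  | k + 1 => (SM.seq h s k).next h

/-- the free resolution starting with a given matrix -/
noncomputable def SM.rc (h : CohT R) (s : SM R) : RC R where
  ι k := Fin (s.seq h k).b
  D k := (s.seq h k).D
  DD k := (SM.next_gen h (s.seq h k)).1

theorem SM.rc_ex (h : CohT R) (s : SM R) (k : ℕ) : (s.rc h).Ex k := by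
  intro x hx
  obtain ⟨κ, hκ⟩ := (SM.next_gen h (s.seq h k)).2 (fun _ => x) (by
    apply row_eq_iff.2
    exact hx)
  exact ⟨κ (), row_eq_iff.1 hκ.symm⟩

/-- shifting -/
theorem SM.pdr (h : CohT R) : ∀ (n : ℕ) (s : SM R),
    (∃ M : Matrix (Fin (s.seq h n).a) (Fin (s.seq h n).a) R, M * (s.seq h n).D = (s.seq h n).D ∧
      ∀ κ : Matrix Unit (Fin (s.seq h n).a) R, κ * (s.seq h n).D = 0 → κ * M = 0) → PDR n s.D
  | 0, s, hM => hM
  | n + 1, s, hM => by
    refine ⟨(s.next h).a, (s.next h).D, SM.next_gen h s, ?_⟩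
    apply SM.pdr h n (s.next h)
    have hseq : ∀ m, (s.next h).seq h m = s.seq h (m + 1) := by
      intro m
      induction m with
      | zero => rfl
      | succ m ih =>
        show ((s.next h).seq h m).next h = (s.seq h (m + 1)).next h
        rw [ih]
    rw [hseq]
    exact hM

theorem PDR.submatrix : ∀ (m : ℕ) {J J' K K' : Type} [Fintype J] [Fintype J'] [Fintype K]
    [Fintype K'] (f : J' ≃ J) (g : K' ≃ K) (D : Matrix J K R), PDR m D →
    PDR m (D.submatrix f g) := by
  intro m
  induction m with
  | zero =>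
    intro J J' K K' _ _ _ _ f g D h
    have hdown : ∀ κ : Matrix Unit J' R, κ * D.submatrix f g = 0 →
        (κ.submatrix id f.symm) * D = 0 := by
      intro κ hκ
      have h1 : κ * D.submatrix f g = ((κ.submatrix id f.symm) * D).submatrix id g := by
        rw [← Matrix.submatrix_mul_equiv _ _ id f g]
        simp
      rw [h1] at hκ
      funext u k
      have h2 := congrFun (congrFun hκ u) (g.symm k)
      simpa using h2
    obtain ⟨P, hP, hf⟩ := h
    refine ⟨P.submatrix f f, ?_, ?_⟩
    · rw [Matrix.submatrix_mul_equiv, hP]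
    · intro κ hκ
      have h1 : κ * P.submatrix f f = ((κ.submatrix id f.symm) * P).submatrix id f := by
        rw [← Matrix.submatrix_mul_equiv _ _ id f f]
        simp
      rw [h1, hf _ (hdown κ hκ)]
      rfl
  | succ m ih =>
    intro J J' K K' _ _ _ _ f g D h
    have hdown : ∀ κ : Matrix Unit J' R, κ * D.submatrix f g = 0 →
        (κ.submatrix id f.symm) * D = 0 := by
      intro κ hκ
      have h1 : κ * D.submatrix f g = ((κ.submatrix id f.symm) * D).submatrix id g := by
        rw [← Matrix.submatrix_mul_equiv _ _ id f g]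
        simp
      rw [h1] at hκ
      funext u k
      have h2 := congrFun (congrFun hκ u) (g.symm k)
      simpa using h2
    obtain ⟨c, ζ, hζ, hn⟩ := h
    refine ⟨c, ζ.submatrix id f, ⟨?_, ?_⟩, ih (Equiv.refl _) f ζ hn⟩
    · rw [Matrix.submatrix_mul_equiv, hζ.1]
      rfl
    · intro κ hκ
      obtain ⟨y, hy⟩ := hζ.2 _ (hdown κ hκ)
      refine ⟨y, ?_⟩
      have h1 : κ = (κ.submatrix id f.symm).submatrix id f := by simp
      rw [h1, hy]
      rfl

/-- a ring of finite global dimension has finite resolutions, in matrix form -/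
theorem pdT_of_fl (h : CohT R) {g : ℕ} (hg : FL R g) : PDT R := by
  classical
  intro J K _ _ D
  let eJ := Fintype.equivFin J
  let eK := Fintype.equivFin K
  let s : SM R := ⟨Fintype.card J, Fintype.card K, D.submatrix eJ.symm eK.symm⟩
  obtain ⟨M, h1, h2⟩ := hg (s.rc h) (s.rc_ex h)
  let M' : Matrix (Fin (s.seq h g).a) (Fin (s.seq h g).a) R := M
  let D' : Matrix (Fin ((s.seq h g).next h).a) (Fin (s.seq h g).a) R := ((s.seq h g).next h).D
  have h4 : D' * M' = 0 := h2
  have h3 : PDR g s.D := SM.pdr h g s ⟨M', h1, fun κ hκ => by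
    obtain ⟨y, hy⟩ := (SM.next_gen h (s.seq h g)).2 κ hκ
    have hy' : κ = y * D' := hy
    rw [hy', Matrix.mul_assoc, h4, Matrix.mul_zero]⟩
  have h5 := PDR.submatrix g eJ eK s.D h3
  refine ⟨g, ?_⟩
  have h6 : s.D.submatrix eJ eK = D := by
    show (D.submatrix eJ.symm eK.symm).submatrix eJ eK = D
    simp
  rwa [h6] at h5

/-- the facts in matrix form -/
theorem facts_of_parts [IsNoetherianRing R] {g : ℕ} (hFL : FL R g) (hA : AusM R)
    (hE : EndM R (g + 1)) : Facts R (g + 1) :=
  ⟨cohT_of_noeth, pdT_of_fl cohT_of_noeth hFL, hA, hE⟩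

end

end Pool.Agent.UP
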