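import Mathlib
import Pool.Agent.Lib.UP.Defs
import Pool.Agent.Lib.UP.TrDefs
import Pool.Agent.Lib.UP.TrBr

set_option autoImplicit false

/-!
# TANK UP, row F5b (helper18): finitely presented modules over a coherent ring
-/

namespace Pool.Agent.UP

universe u v w w'

section F5b
variable {S : Type u} [Ring S]

/-- a finitely presented module is the cokernel of a matrix -/
theorem F5b_pres (K : Type w) [AddCommGroup K] [Module S K] [Module.FinitePresentation S K] :
    ∃ (s : SM S) (ε : (Fin s.b → S) →ₗ[S] K), Function.Surjective ε ∧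
      LinearMap.ker ε = LinearMap.range (Matrix.vecMulLinear s.D) := by
  classical
  obtain ⟨n, m, f, g, hf, hg⟩ := Module.FinitePresentation.exists_fin' S K
  let D : Matrix (Fin m) (Fin n) S := Matrix.of fun i j => g (Pi.single i 1) j
  have h1 : Matrix.vecMulLinear D = g := by
    apply LinearMap.pi_ext'
    intro i
    apply LinearMap.ext_ring
    change Matrix.vecMul (Pi.single i 1) D = g (Pi.single i 1)
    rw [Matrix.single_one_vecMul]
    rfl
  refine ⟨⟨m, n, D⟩, f, hf, ?_⟩
  change LinearMap.ker f = LinearMap.range (Matrix.vecMulLinear D)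
  rw [h1]
  exact LinearMap.exact_iff.1 hg

theorem exists_res_coh (h : CohT S) (K : Type w) [AddCommGroup K] [Module S K]
    [Module.FinitePresentation S K] : ∃ T : RC S, Nonempty (Res T K) := by
  obtain ⟨s, ε, hε, hk⟩ := F5b_pres (S := S) K
  refine ⟨s.rc h, ⟨⟨ε, hε, ?_, ?_, s.rc_ex h⟩⟩⟩
  · intro x
    have h1 : Matrix.vecMul x s.D ∈ LinearMap.ker ε := by
      rw [hk]
      exact ⟨x, rfl⟩
    exact h1
  · intro x hx
    have h1 : x ∈ LinearMap.ker ε := hx
    rw [hk] at h1
    obtain ⟨y, hy⟩ := h1
    exact ⟨y, hy⟩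

/-- kernels of matrices are finitely generated -/
theorem F5b_fg (h : CohT S) {J K : Type} [Fintype J] [Fintype K] (D : Matrix J K S) :
    (LinearMap.ker (Matrix.vecMulLinear D)).FG := by
  classical
  obtain ⟨c, ζ, h0, h1⟩ := h J K D
  have h2 : LinearMap.ker (Matrix.vecMulLinear D) = LinearMap.range (Matrix.vecMulLinear ζ) := by
    apply le_antisymm
    · intro x hx
      obtain ⟨κ, hκ⟩ := h1 (fun _ => x) (row_eq_iff.2 hx)
      exact ⟨κ (), row_eq_iff.1 hκ.symm⟩
    · rintro _ ⟨y, rfl⟩
      change Matrix.vecMul (Matrix.vecMul y ζ) D = 0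
      rw [Matrix.vecMul_vecMul, h0, Matrix.vecMul_zero]
  rw [h2]
  exact Module.Finite.iff_fg.1 inferInstance

theorem fp_submodule (h : CohT S) {K : Type w} [AddCommGroup K] [Module S K]
    [Module.FinitePresentation S K] (N : Submodule S K) (hN : N.FG) :
    Module.FinitePresentation S N := by
  classical
  obtain ⟨s, ε, hε, hk⟩ := F5b_pres (S := S) K
  obtain ⟨c, g, hg⟩ := Submodule.fg_iff_exists_fin_generating_family.1 hN
  choose v hv using fun i => hε (g i)
  let V : Matrix (Fin c) (Fin s.b) S := fun i j => v i j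
  have hgN : ∀ i, g i ∈ N := fun i => by
    rw [← hg]
    exact Submodule.subset_span ⟨i, rfl⟩
  -- the map of the free module
  have hV : ∀ u : Fin c → S, ε (Matrix.vecMul u V) = ∑ i, u i • g i := by
    intro u
    have h1 : Matrix.vecMul u V = ∑ i, u i • v i := by
      funext j
      simp only [Matrix.vecMul, dotProduct, Finset.sum_apply, Pi.smul_apply, smul_eq_mul, V]
    rw [h1, map_sum]
    exact Finset.sum_congr rfl fun i _ => by rw [map_smul, hv]
  let l : (Fin c → S) →ₗ[S] N := (ε.comp (Matrix.vecMulLinear V)).codRestrict N (by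
    intro u
    change ε (Matrix.vecMul u V) ∈ N
    rw [hV]
    exact Submodule.sum_mem _ fun i _ => Submodule.smul_mem _ _ (hgN i))
  have hl : Function.Surjective l := by
    rintro ⟨x, hx⟩
    rw [← hg] at hx
    obtain ⟨u, hu⟩ := (Submodule.mem_span_range_iff_exists_fun S).1 hx
    refine ⟨u, Subtype.ext ?_⟩
    change ε (Matrix.vecMul u V) = x
    rw [hV, hu]
  -- its kernel
  let W : Matrix (Fin c ⊕ Fin s.a) (Fin s.b) S := Matrix.fromRows V s.D
  have hW := F5b_fg h W
  have hker : LinearMap.ker l = (LinearMap.ker (Matrix.vecMulLinear W)).map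
      (LinearMap.funLeft S S (Sum.inl : Fin c → Fin c ⊕ Fin s.a)) := by
    ext u
    constructor
    · intro hu
      have h1 : Matrix.vecMul u V ∈ LinearMap.ker ε := by
        have h2 : l u = 0 := hu
        exact congrArg Subtype.val h2
      rw [hk] at h1
      obtain ⟨y, hy⟩ := h1
      replace hy : Matrix.vecMul y s.D = Matrix.vecMul u V := hy
      refine ⟨Sum.elim u (-y), ?_, ?_⟩
      · change Matrix.vecMul (Sum.elim u (-y)) (Matrix.fromRows V s.D) = 0
        rw [Matrix.vecMul_fromRows]
        simp only [Sum.elim_comp_inl, Sum.elim_comp_inr, Matrix.neg_vecMul, hy]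
        exact add_neg_cancel _
      · rfl
    · rintro ⟨x, hx, rfl⟩
      replace hx : Matrix.vecMul x (Matrix.fromRows V s.D) = 0 := hx
      rw [Matrix.vecMul_fromRows] at hx
      apply Subtype.ext
      change ε (Matrix.vecMul (x ∘ Sum.inl) V) = 0
      have h3 : Matrix.vecMul (x ∘ Sum.inl) V ∈ LinearMap.ker ε := by
        rw [hk]
        refine ⟨-(x ∘ Sum.inr), ?_⟩
        change Matrix.vecMul (-(x ∘ Sum.inr)) s.D = _
        rw [Matrix.neg_vecMul]
        exact (eq_neg_of_add_eq_zero_left hx).symm
      exact h3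
  refine Module.finitePresentation_of_surjective l hl ?_
  rw [hker]
  exact hW.map _

theorem fp_coker (T : RC S) : Module.FinitePresentation S
    ((T.ι 0 → S) ⧸ LinearMap.range (Matrix.vecMulLinear (T.D 0))) := by
  refine Module.finitePresentation_of_surjective (Submodule.mkQ _)
    (Submodule.mkQ_surjective _) ?_
  rw [Submodule.ker_mkQ]
  exact Module.Finite.iff_fg.1 inferInstance

theorem fp_E (h : CohT S) [StarRing S] (T : RC S) (p : ℕ) :
    Module.FinitePresentation S (T.E p) := by
  have h1 : (T.cy p).FG := F5b_fg h (T.D p).conjTranspose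
  have h2 : Module.FinitePresentation S (T.cy p) := fp_submodule h _ h1
  refine Module.finitePresentation_of_surjective (Submodule.mkQ _)
    (Submodule.mkQ_surjective _) ?_
  rw [Submodule.ker_mkQ]
  have h3 : (T.bd p).FG := by
    cases p with
    | zero => exact Submodule.fg_bot
    | succ p =>
      have h4 : T.bd (p + 1) = LinearMap.range (Matrix.vecMulLinear (T.D p).conjTranspose) := by
        ext x
        exact Iff.rfl
      rw [h4]
      exact Module.Finite.iff_fg.1 inferInstance
  have h5 : T.bd p ≤ T.cy p := by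
    cases p with
    | zero => exact bot_le
    | succ p =>
      rintro _ ⟨z, rfl⟩
      change Matrix.vecMul (Matrix.vecMul z _) _ = 0
      rw [Matrix.vecMul_vecMul, ← Matrix.conjTranspose_mul, T.DD, Matrix.conjTranspose_zero,
        Matrix.vecMul_zero]
  apply Submodule.fg_of_fg_map_injective (T.cy p).subtype (Submodule.subtype_injective _)
  rw [Submodule.map_comap_subtype, inf_eq_right.2 h5]
  exact h3

end F5b

end Pool.Agent.UP
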