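import Mathlib
import Pool.Agent.Lib.UP.U1
import Pool.Agent.Lib.UP.U2
import Pool.Agent.Lib.UP.U3a

/-!
TANK UP, row U3b: the conditions `GE`, `Loc` and semilinear maps.
-/

open CategoryTheory

namespace Pool.Agent.UP

universe u v

section
variable {R : Type u} {R' : Type v} [Ring R] [Ring R']

private theorem mulVec_symm (σ : R ≃+* R') {m n : Type} [Fintype m] [Fintype n]
    (D : Matrix m n R) (y : n → R') :
    Matrix.mulVec D (fun i => σ.symm (y i)) =
      fun i => σ.symm (Matrix.mulVec (D.map (σ : R →+* R')) y i) := by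
  funext i
  apply σ.injective
  rw [RingEquiv.apply_symm_apply]
  simp only [Matrix.mulVec, dotProduct, map_sum, map_mul, RingEquiv.apply_symm_apply,
    Matrix.map_apply, RingEquiv.coe_toRingHom]

private theorem mulVec_map_zero (σ : R ≃+* R') {m n : Type} [Fintype m] [Fintype n]
    (D : Matrix m n R) (y : n → R') (h : Matrix.mulVec (D.map (σ : R →+* R')) y = 0) :
    Matrix.mulVec D (fun i => σ.symm (y i)) = 0 := by
  rw [mulVec_symm σ, h]
  funext i
  exact map_zero _

private theorem mulVec_map_eq (σ : R ≃+* R') {m n : Type} [Fintype m] [Fintype n]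
    (D : Matrix m n R) (z : n → R) (y : m → R')
    (h : Matrix.mulVec D z = fun i => σ.symm (y i)) :
    Matrix.mulVec (D.map (σ : R →+* R')) (fun i => σ (z i)) = y := by
  funext i
  apply σ.symm.injective
  have h3 := congrFun (mulVec_symm σ D (fun i => σ (z i))) i
  simp only [RingEquiv.symm_apply_apply] at h3
  rw [← h3, h]

theorem U3b_coex (σ : R ≃+* R') (T : RC R) {l : ℕ} (h : T.CoEx l) :
    (T.map (σ : R →+* R')).CoEx l := by
  cases l with
  | zero =>
    intro (y : T.ι 0 → R') (hy : Matrix.mulVec ((T.D 0).map (σ : R →+* R')) y = 0)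
    have h1 := h _ (mulVec_map_zero σ _ _ hy)
    funext i
    have h2 : σ.symm (y i) = 0 := congrFun h1 i
    rw [EmbeddingLike.map_eq_zero_iff] at h2
    exact h2
  | succ l =>
    intro (y : T.ι (l + 1) → R')
      (hy : Matrix.mulVec ((T.D (l + 1)).map (σ : R →+* R')) y = 0)
    obtain ⟨z, hz⟩ := h _ (mulVec_map_zero σ _ _ hy)
    exact ⟨fun i => σ (z i), mulVec_map_eq σ _ z y hz⟩

end

theorem GE.twist {R : Type u} {R' : Type v} [Ring R] [Ring R'] [IsNoetherianRing R] {p : ℕ}
    {M : Type u} {M' : Type v} [AddCommGroup M] [Module R M] [AddCommGroup M'] [Module R' M']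
    [Module.Finite R M] (σ : R ≃+* R') (φ : M ≃+ M')
    (hφ : ∀ (r : R) (x : M), φ (r • x) = σ r • φ x) (h : GE R p M) : GE R' p M' := by
  obtain ⟨T, ⟨r⟩⟩ := exists_res (R := R) M
  obtain ⟨r'⟩ := exists_twist r σ φ hφ
  rw [ge_iff r']
  rw [ge_iff r] at h
  exact fun l hl => U3b_coex σ T (h l hl)

theorem Loc.semi_inj {R : Type u} {R' : Type v} [Ring R] [Ring R'] [IsNoetherianRing R] {p : ℕ}
    {M : Type u} {M' : Type v} [AddCommGroup M] [Module R M] [AddCommGroup M'] [Module R' M']
    (σ : R' ≃+* R) (φ : M' →+ M) (hs : Function.Injective φ)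
    (hφ : ∀ (r : R') (x : M'), φ (r • x) = σ r • φ x) (h : Loc R p M) : Loc R' p M' := by
  intro N' hN'
  -- the image of `N'`
  let N : Submodule R M :=
    { carrier := {x | ∃ y ∈ N', φ y = x}
      add_mem' := by
        rintro _ _ ⟨a, ha, rfl⟩ ⟨b, hb, rfl⟩
        exact ⟨a + b, N'.add_mem ha hb, map_add _ _ _⟩
      zero_mem' := ⟨0, N'.zero_mem, map_zero _⟩
      smul_mem' := by
        rintro c _ ⟨a, ha, rfl⟩
        exact ⟨σ.symm c • a, N'.smul_mem _ ha, by rw [hφ, RingEquiv.apply_symm_apply]⟩ }
  have hN : N.FG := by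
    obtain ⟨s, hs'⟩ := hN'
    classical
    refine ⟨s.image φ, le_antisymm ?_ ?_⟩
    · rw [Submodule.span_le]
      intro x hx
      rw [Finset.coe_image] at hx
      obtain ⟨y, hy, rfl⟩ := hx
      exact ⟨y, by rw [← hs']; exact Submodule.subset_span hy, rfl⟩
    · rintro _ ⟨y, hy, rfl⟩
      rw [← hs'] at hy
      induction hy using Submodule.span_induction with
      | mem y hy =>
        exact Submodule.subset_span (by rw [Finset.coe_image]; exact ⟨y, hy, rfl⟩)
      | zero => rw [map_zero]; exact Submodule.zero_mem _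
      | add a b _ _ ha hb => rw [map_add]; exact Submodule.add_mem _ ha hb
      | smul c a _ ha => rw [hφ]; exact Submodule.smul_mem _ _ ha
  have : Module.Finite R N := Module.Finite.iff_fg.mpr hN
  let f : N' →+ N :=
    { toFun := fun y => ⟨φ y, y.1, y.2, rfl⟩
      map_zero' := Subtype.ext (map_zero φ)
      map_add' := fun a b => Subtype.ext (map_add φ a.1 b.1) }
  have hf : Function.Bijective f := by
    constructor
    · intro a b hab
      exact Subtype.ext (hs (congrArg Subtype.val hab))
    · rintro ⟨_, y, hy, rfl⟩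
      exact ⟨⟨y, hy⟩, rfl⟩
  let e : N' ≃+ N := AddEquiv.ofBijective f hf
  refine GE.twist (M := N) (M' := N') σ.symm e.symm ?_ (h N hN)
  intro r x
  apply e.injective
  rw [AddEquiv.apply_symm_apply]
  apply Subtype.ext
  change r • x.1 = φ (σ.symm r • (e.symm x).1)
  rw [hφ, RingEquiv.apply_symm_apply]
  congr 1
  change x.1 = (e (e.symm x)).1
  rw [AddEquiv.apply_symm_apply]

theorem Loc.semi_surj {R : Type u} {R' : Type v} [Ring R] [Ring R'] [IsNoetherianRing R] {p : ℕ}
    {M : Type u} {M' : Type v} [AddCommGroup M] [Module R M] [AddCommGroup M'] [Module R' M']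
    (σ : R ≃+* R') (φ : M →+ M') (hs : Function.Surjective φ)
    (hφ : ∀ (r : R) (x : M), φ (r • x) = σ r • φ x) (h : Loc R p M) : Loc R' p M' := by
  let K : Submodule R M :=
    { carrier := {x | φ x = 0}
      add_mem' := by
        intro a b ha hb
        change φ (a + b) = 0
        rw [map_add, show φ a = 0 from ha, show φ b = 0 from hb, add_zero]
      zero_mem' := map_zero φ
      smul_mem' := by
        intro c x hx
        change φ (c • x) = 0
        rw [hφ, show φ x = 0 from hx, smul_zero] }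
  have hK : ∀ a b : M, φ a = φ b → K.mkQ a = K.mkQ b := by
    intro a b hab
    rw [← sub_eq_zero, ← map_sub, Submodule.mkQ_apply, Submodule.Quotient.mk_eq_zero]
    change φ (a - b) = 0
    rw [map_sub, hab, sub_self]
  have hQ : Loc R p (M ⧸ K) := Loc.of_surjective K.mkQ K.mkQ_surjective h
  let g : M' → M := Function.surjInv hs
  have hg : ∀ x, φ (g x) = x := Function.surjInv_eq hs
  let ψ : M' →+ M ⧸ K :=
    { toFun := fun x => K.mkQ (g x)
      map_zero' := by
        rw [← map_zero K.mkQ]
        exact hK _ _ (by rw [hg, map_zero])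
      map_add' := by
        intro a b
        rw [← map_add]
        exact hK _ _ (by rw [hg, map_add, hg, hg]) }
  refine Loc.semi_inj σ.symm ψ ?_ ?_ hQ
  · intro a b hab
    have h1 : K.mkQ (g a) = K.mkQ (g b) := hab
    rw [← sub_eq_zero, ← map_sub, Submodule.mkQ_apply, Submodule.Quotient.mk_eq_zero] at h1
    have h2 : φ (g a - g b) = 0 := h1
    rw [map_sub, hg, hg, sub_eq_zero] at h2
    exact h2
  · intro r x
    change K.mkQ (g (r • x)) = σ.symm r • K.mkQ (g x)
    rw [← map_smul]
    exact hK _ _ (by rw [hg, hφ, hg, RingEquiv.apply_symm_apply])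

end Pool.Agent.UP
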