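import Mathlib
import Pool.Agent.Lib.UP.U1
import Pool.Agent.Lib.UP.U3b
import Pool.Agent.Lib.UP.Defs4
import Pool.Agent.Lib.UP.FU6

/-!
TANK UP, stage 2, row F2 (helper63): the skew group ring `S = R * F` of a free group with involutions; the finitely
generated `R`-submodules of `Ext_S^q(S (x) W, S)`.
-/

set_option autoImplicit false

open MonoidAlgebra CategoryTheory

namespace Pool.Agent.UP

universe u v w

/-! ### sums of semilinear images -/

section cover

variable {R : Type u} [Ring R] [IsNoetherianRing R] {p : ℕ} {M : Type u} [AddCommGroup M]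
  [Module R M]

theorem Loc.sup {N1 N2 : Submodule R M} (h1 : Loc R p N1) (h2 : Loc R p N2) :
    Loc R p (N1 ⊔ N2 : Submodule R M) := by
  let f : N1 →ₗ[R] (N1 ⊔ N2 : Submodule R M) := Submodule.inclusion le_sup_left
  let g : N2 →ₗ[R] (N1 ⊔ N2 : Submodule R M) := Submodule.inclusion le_sup_right
  refine Loc.of_exact f (LinearMap.range f).mkQ ?_ h1
    (Loc.of_surjective ((LinearMap.range f).mkQ.comp g) ?_ h2)
  · rw [Submodule.ker_mkQ]
  · intro y
    obtain ⟨⟨x, hx⟩, rfl⟩ := Submodule.mkQ_surjective _ y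
    obtain ⟨a, ha, b, hb, rfl⟩ := Submodule.mem_sup.1 hx
    refine ⟨⟨b, hb⟩, ?_⟩
    rw [LinearMap.comp_apply, Submodule.mkQ_apply, Submodule.mkQ_apply,
      Submodule.Quotient.eq]
    refine ⟨-⟨a, ha⟩, ?_⟩
    apply Subtype.ext
    show -a = b - (a + b)
    abel

/-- the range of a semilinear map -/
def rgS {M' : Type u} [AddCommGroup M'] [Module R M'] (σ : R ≃+* R) (φ : M' →+ M)
    (hφ : ∀ (r : R) (x : M'), φ (r • x) = σ r • φ x) : Submodule R M where
  carrier := Set.range φ
  add_mem' := by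
    rintro _ _ ⟨a, rfl⟩ ⟨b, rfl⟩
    exact ⟨a + b, map_add _ _ _⟩
  zero_mem' := ⟨0, map_zero _⟩
  smul_mem' := by
    rintro r _ ⟨a, rfl⟩
    exact ⟨σ.symm r • a, by rw [hφ, RingEquiv.apply_symm_apply]⟩

omit [IsNoetherianRing R] in
theorem mem_rgS {M' : Type u} [AddCommGroup M'] [Module R M'] (σ : R ≃+* R) (φ : M' →+ M)
    (hφ : ∀ (r : R) (x : M'), φ (r • x) = σ r • φ x) (x : M) :
    x ∈ rgS σ φ hφ ↔ ∃ y, φ y = x := Iff.rfl

theorem Loc.rgS {M' : Type u} [AddCommGroup M'] [Module R M'] (σ : R ≃+* R) (φ : M' →+ M)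
    (hφ : ∀ (r : R) (x : M'), φ (r • x) = σ r • φ x) (h : Loc R p M') :
    Loc R p (UP.rgS σ φ hφ) := by
  refine Loc.semi_surj σ
    { toFun := fun x => (⟨φ x, x, rfl⟩ : UP.rgS σ φ hφ)
      map_zero' := Subtype.ext (map_zero φ)
      map_add' := fun x y => Subtype.ext (map_add φ x y) } ?_ ?_ h
  · rintro ⟨_, x, rfl⟩
    exact ⟨x, rfl⟩
  · intro r x
    exact Subtype.ext (hφ r x)

/-- a module which is covered by finite sums of images of semilinear maps -/
theorem Loc.of_cover {M' : Type u} [AddCommGroup M'] [Module R M'] {I : Type*} (σ : I → R ≃+* R)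
    (φ : I → M' →+ M) (hφ : ∀ i (r : R) (x : M'), φ i (r • x) = σ i r • φ i x)
    (hcov : ∀ x : M, ∃ (F : Finset I) (y : I → M'), x = ∑ i ∈ F, φ i (y i)) (h : Loc R p M') :
    Loc R p M := by
  classical
  let A : Finset I → Submodule R M := fun F => F.sup fun i => UP.rgS (σ i) (φ i) (hφ i)
  have hA : ∀ F, Loc R p (A F) := by
    intro F
    induction F using Finset.induction_on with
    | empty =>
      refine Loc.of_injective (0 : (A ∅) →ₗ[R] M') ?_ h
      intro x y _
      have hx : ∀ x : (A ∅), x = 0 := fun x => by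
        have h1 : (x : M) ∈ (⊥ : Submodule R M) := by
          have := x.2
          simp [A] at this
          simp [this]
        exact Subtype.ext ((Submodule.mem_bot R).1 h1)
      rw [hx x, hx y]
    | insert i F hi ih =>
      have h1 : A (insert i F) = UP.rgS (σ i) (φ i) (hφ i) ⊔ A F := Finset.sup_insert
      rw [h1]
      exact Loc.sup (Loc.rgS (σ i) (φ i) (hφ i) h) ih
  refine Loc.of_union fun N hN => ?_
  obtain ⟨s, hs⟩ := hN
  choose F y hF using hcov
  refine ⟨A (s.biUnion F), ?_, hA _⟩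
  rw [← hs, Submodule.span_le]
  intro x hx
  show x ∈ A (s.biUnion F)
  rw [hF x]
  refine Submodule.sum_mem _ fun i hi => ?_
  exact (Finset.le_sup (f := fun i => UP.rgS (σ i) (φ i) (hφ i))
    (Finset.mem_biUnion.2 ⟨x, hx, hi⟩) :
    UP.rgS (σ i) (φ i) (hφ i) ≤ A (s.biUnion F)) ⟨_, rfl⟩

end cover

/-! ### involutions -/

namespace SkF

variable {X : Type v} {R S : Type u} [Ring R] [Ring S] (E : SkF X R S)

theorem iota_inj : Function.Injective E.iota := by
  intro a b h
  have h1 := E.co_single 1 a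
  have h2 := E.co_single 1 b
  rw [h] at h1
  rw [h1] at h2
  exact Finsupp.single_injective 1 h2

theorem eq_sum (s : S) (F : Finset (FreeGroup X)) (hF : (E.co s).support ⊆ F) :
    s = ∑ g ∈ F, ((E.t g : Sˣ) : S) * E.iota (E.co s g) := by
  classical
  apply E.co.injective
  rw [map_sum]
  ext k
  rw [Finsupp.finsetSum_apply]
  have h1 : ∀ g ∈ F, (E.co (((E.t g : Sˣ) : S) * E.iota (E.co s g))) k =
      if g = k then E.co s k else 0 := by
    intro g _
    rw [E.co_single, Finsupp.single_apply]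
    split_ifs with h
    · rw [h]
    · rfl
  rw [Finset.sum_congr rfl h1, Finset.sum_ite_eq']
  split_ifs with h
  · rfl
  · by_contra hne
    exact h (hF (Finsupp.mem_support_iff.mpr hne))

end SkF

namespace SkFS

variable {X : Type} {R S : Type u} [Ring R] [StarRing R] [Ring S] [StarRing S]
  (L : SkFS X R S)

theorem conj {m n : Type} (D : Matrix m n R) :
    (D.map L.iota).conjTranspose = D.conjTranspose.map L.iota := by
  ext i j
  simp only [Matrix.conjTranspose_apply, Matrix.map_apply]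
  exact L.star_iota _

theorem vec {m n : Type} [Fintype m] (y : m → R) (D : Matrix m n R) :
    Matrix.vecMul (fun i => L.iota (y i)) (D.map L.iota) =
      fun j => L.iota (Matrix.vecMul y D j) := by
  funext j
  simp only [Matrix.vecMul, dotProduct, Matrix.map_apply, map_sum, map_mul]

theorem co_vec {m n : Type} [Fintype m] (x : m → S) (D : Matrix m n R) (k : FreeGroup X)
    (j : n) : L.co (Matrix.vecMul x (D.map L.iota) j) k =
      Matrix.vecMul (fun i => L.co (x i) k) D j := by
  simp only [Matrix.vecMul, dotProduct, Matrix.map_apply, map_sum, Finsupp.finsetSum_apply]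
  refine Finset.sum_congr rfl fun i _ => ?_
  exact L.co_mul_iota _ _ _

theorem mem_cy' {T : RC R} {q : ℕ} {y : T.ι q → R} :
    y ∈ T.cy q ↔ Matrix.vecMul y (T.D q).conjTranspose = 0 := Iff.rfl

theorem iota_cy {T : RC R} {q : ℕ} {y : T.ι q → R} :
    (fun i => L.iota (y i)) ∈ (T.map L.iota).cy q ↔ y ∈ T.cy q := by
  have h0 : (fun i => L.iota (y i)) ∈ (T.map L.iota).cy q ↔
      Matrix.vecMul (fun i => L.iota (y i)) ((T.D q).map L.iota).conjTranspose = 0 := Iff.rfl
  rw [h0, conj, vec, mem_cy']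
  constructor
  · intro h
    funext j
    have := congrFun h j
    apply L.toSkF.iota_inj
    rw [Pi.zero_apply, map_zero]
    exact this
  · intro h
    rw [h]
    funext j
    exact map_zero _

theorem co_cy {T : RC R} {q : ℕ} {x : T.ι q → S}
    (hx : x ∈ (T.map L.iota).cy q) (k : FreeGroup X) : (fun i => L.co (x i) k) ∈ T.cy q := by
  have h0 : Matrix.vecMul x ((T.D q).map L.iota).conjTranspose = 0 := hx
  rw [conj] at h0
  rw [mem_cy']
  funext j
  rw [← co_vec, h0]
  simp

/-- the map `[y] ↦ [ι y]` -/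
noncomputable def iE (T : RC R) (q : ℕ) :
    T.E q →ₛₗ[L.iota] (T.map L.iota).E q :=
  Submodule.mapQ _ _
    { toFun := fun y => ⟨fun i => L.iota (y.1 i), (L.iota_cy).mpr y.2⟩
      map_add' := fun a b => Subtype.ext (funext fun i => map_add L.iota _ _)
      map_smul' := fun r a => Subtype.ext (funext fun i => map_mul L.iota _ _) }
    (by
      rintro ⟨y, hy⟩ hb
      replace hb : y ∈ T.bd q := hb
      show (fun i => L.iota (y i)) ∈ (T.map L.iota).bd q
      cases q with
      | zero =>
        have : y = 0 := hb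
        rw [this]
        have h0 : (fun i => L.iota ((0 : T.ι 0 → R) i)) = 0 := funext fun i => map_zero _
        rw [h0]
        exact Submodule.zero_mem _
      | succ q =>
        obtain ⟨z, rfl⟩ := hb
        refine ⟨fun i => L.iota (z i), ?_⟩
        have h1 : ((T.map L.iota).D q).conjTranspose = ((T.D q).conjTranspose).map L.iota :=
          L.conj (T.D q)
        rw [h1]
        exact L.vec z _)

theorem iE_mk (T : RC R) (q : ℕ) (y : T.cy q) :
    L.iE T q (Submodule.Quotient.mk y) =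
      Submodule.Quotient.mk (⟨fun i => L.iota (y.1 i), (L.iota_cy).mpr y.2⟩ :
        (T.map L.iota).cy q) := rfl

/-- every class is a finite sum of `t g • [ι y]` -/
theorem E_gen (T : RC R) (q : ℕ) (x : (T.map L.iota).E q) :
    ∃ (F : Finset (FreeGroup X)) (y : FreeGroup X → T.E q),
      x = ∑ g ∈ F, ((L.t g : Sˣ) : S) • L.iE T q (y g) := by
  classical
  obtain ⟨⟨x, hx⟩, rfl⟩ := Submodule.Quotient.mk_surjective _ x
  let F : Finset (FreeGroup X) := Finset.univ.biUnion fun i : T.ι q => (L.co (x i)).support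
  refine ⟨F, fun j => Submodule.Quotient.mk ⟨fun i => L.co (x i) j, L.co_cy hx j⟩, ?_⟩
  simp only [iE_mk]
  have h1 : ∀ j ∈ F, (((L.t j : Sˣ) : S) • (Submodule.Quotient.mk
      (⟨fun i => L.iota (L.co (x i) j), (L.iota_cy).mpr (L.co_cy hx j)⟩ :
        (T.map L.iota).cy q) : (T.map L.iota).E q)) = Submodule.Quotient.mk (((L.t j : Sˣ) : S) •
      (⟨fun i => L.iota (L.co (x i) j), (L.iota_cy).mpr (L.co_cy hx j)⟩ :
        (T.map L.iota).cy q)) := fun j _ => rfl
  rw [Finset.sum_congr rfl h1]
  have h2 : ∑ j ∈ F, (Submodule.Quotient.mk (((L.t j : Sˣ) : S) •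
      (⟨fun i => L.iota (L.co (x i) j), (L.iota_cy).mpr (L.co_cy hx j)⟩ :
        (T.map L.iota).cy q)) : (T.map L.iota).E q) = Submodule.Quotient.mk (∑ j ∈ F,
        (((L.t j : Sˣ) : S) •
      (⟨fun i => L.iota (L.co (x i) j), (L.iota_cy).mpr (L.co_cy hx j)⟩ :
        (T.map L.iota).cy q))) :=
    (map_sum (Submodule.mkQ ((((T.map L.iota).bd q).comap ((T.map L.iota).cy q).subtype))) _ _).symm
  rw [h2]
  congr 1
  apply Subtype.ext
  funext i
  rw [AddSubmonoidClass.coe_finsetSum, Finset.sum_apply]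
  exact L.toSkF.eq_sum (x i) F (fun j hj => Finset.mem_biUnion.mpr ⟨i, Finset.mem_univ i, hj⟩)

/-- the finitely generated `R`-submodules of `Ext_S^q(S (x) W, S)` -/
theorem loc_map [IsNoetherianRing R] (T : RC R) {p q : ℕ} (h : Loc R p (T.E q)) :
    @Loc R _ p ((T.map L.iota).E q) _ (Module.compHom _ L.iota) := by
  let _ : Module R ((T.map L.iota).E q) := Module.compHom _ L.iota
  have hsm : ∀ (r : R) (x : (T.map L.iota).E q), r • x = L.iota r • x := fun r x => rfl
  refine Loc.of_cover (I := FreeGroup X) (fun g => L.sig g)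
    (fun g =>
      { toFun := fun x => ((L.t g : Sˣ) : S) • L.iE T q x
        map_zero' := by rw [map_zero, smul_zero]
        map_add' := fun x y => by rw [map_add, smul_add] }) ?_ ?_ h
  · intro g r x
    show ((L.t g : Sˣ) : S) • L.iE T q (r • x) = L.sig g r • (((L.t g : Sˣ) : S) • L.iE T q x)
    rw [hsm, LinearMap.map_smulₛₗ, smul_smul, smul_smul, L.comm]
  · intro x
    exact L.E_gen T q x

end SkFS

theorem loc_mapF {X : Type} [Fintype X] [DecidableEq X] {R S : Type u} [Ring R] [StarRing R]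
    [Ring S] [StarRing S] [IsNoetherianRing R] (L : SkFS X R S) (T : RC R) {p q : ℕ}
    (h : Loc R p (T.E q)) :
    @Loc R _ p ((T.map L.iota).E q) _ (Module.compHom _ L.iota) := L.loc_map T h

end Pool.Agent.UP
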