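import Mathlib
import Pool.Agent.Lib.UP.Defs
import Pool.Agent.Lib.UP.U5
set_option autoImplicit false

/-! TANK UP, row U5, second part (helper94): the exact sequence of a mapping cone. -/

namespace Pool.Agent.UP

universe u v w w'

section U5E
variable {R : Type u} [Ring R] [StarRing R] {T1 T0 : RC R} (f : ChM T1 T0)

theorem U5_star0 (z : T0.ι 0 → R) :
    Matrix.vecMul z (Matrix.fromRows (f.U 0) (T0.D 0)).conjTranspose =
      Sum.elim (Matrix.vecMul z (f.U 0).conjTranspose) (Matrix.vecMul z (T0.D 0).conjTranspose) := by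
  funext i
  rcases i with i | i <;> rfl

theorem U5_star1 (k : ℕ) (a : T1.ι k → R) (b : T0.ι (k + 1) → R) :
    Matrix.vecMul (Sum.elim a b)
      (Matrix.fromBlocks (-T1.D k) (f.U (k + 1)) 0 (T0.D (k + 1))).conjTranspose =
      Sum.elim (Matrix.vecMul b (f.U (k + 1)).conjTranspose -
        Matrix.vecMul a (T1.D k).conjTranspose)
        (Matrix.vecMul b (T0.D (k + 1)).conjTranspose) := by
  rw [Matrix.fromBlocks_conjTranspose, Matrix.vecMul_fromBlocks]
  funext i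
  rcases i with i | i
  · simp [Matrix.vecMul_neg, sub_eq_add_neg, add_comm]
  · simp

theorem U5_cy (p : ℕ) (a : T1.ι p → R) (b : T0.ι (p + 1) → R) :
    (Sum.elim a b : (cone f).ι (p + 1) → R) ∈ (cone f).cy (p + 1) ↔
      b ∈ T0.cy (p + 1) ∧ Matrix.vecMul b (f.U (p + 1)).conjTranspose =
        Matrix.vecMul a (T1.D p).conjTranspose := by
  constructor
  · intro h
    obtain ⟨h1, h2⟩ := U5_zero ((U5_star1 f p a b).symm.trans h)
    exact ⟨h2, sub_eq_zero.mp h1⟩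
  · rintro ⟨h1, h2⟩
    refine (U5_star1 f p a b).trans ?_
    rw [h2, sub_self, show Matrix.vecMul b (T0.D (p + 1)).conjTranspose = 0 from h1]
    exact U5_zero'

theorem U5_bd (p : ℕ) (a : T1.ι p → R) (b : T0.ι (p + 1) → R) :
    (Sum.elim a b : (cone f).ι (p + 1) → R) ∈ (cone f).bd (p + 1) ↔
      ∃ z : T0.ι p → R, Matrix.vecMul z (T0.D p).conjTranspose = b ∧
        a - Matrix.vecMul z (f.U p).conjTranspose ∈ T1.bd p := by
  rcases p with _ | p
  · constructor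
    · rintro ⟨z, hz⟩
      have h := (U5_star0 f z).symm.trans hz
      refine ⟨z, U5_inr h, ?_⟩
      rw [U5_inl h, sub_self]
      exact Submodule.zero_mem _
    · rintro ⟨z, h1, h2⟩
      have h3 : a - Matrix.vecMul z (f.U 0).conjTranspose = 0 := h2
      refine ⟨z, (U5_star0 f z).trans ?_⟩
      rw [h1, ← sub_eq_zero.mp h3]
  · constructor
    · rintro ⟨z, hz⟩
      obtain ⟨c, d, rfl⟩ : ∃ (c : T1.ι p → R) (d : T0.ι (p + 1) → R), z = Sum.elim c d := U5_eta z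
      have h := (U5_star1 f p c d).symm.trans hz
      refine ⟨d, U5_inr h, -c, ?_⟩
      rw [← U5_inl h, Matrix.neg_vecMul]
      abel
    · rintro ⟨z, h1, c, h2⟩
      refine ⟨(Sum.elim (-c) z : T1.ι p ⊕ T0.ι (p + 1) → R), (U5_star1 f p (-c) z).trans ?_⟩
      rw [h1, Matrix.neg_vecMul, h2]
      congr 1
      abel

theorem U5_comm (p : ℕ) (z : T0.ι p → R) :
    Matrix.vecMul (Matrix.vecMul z (T0.D p).conjTranspose) (f.U (p + 1)).conjTranspose =
      Matrix.vecMul (Matrix.vecMul z (f.U p).conjTranspose) (T1.D p).conjTranspose := by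
  rw [Matrix.vecMul_vecMul, Matrix.vecMul_vecMul, ← Matrix.conjTranspose_mul,
    ← Matrix.conjTranspose_mul, f.comm]

/-- pairs -/
def U5_pr (p : ℕ) (a : T1.ι p → R) (b : T0.ι (p + 1) → R) : (cone f).ι (p + 1) → R :=
  (Sum.elim a b : T1.ι p ⊕ T0.ι (p + 1) → R)

/-- `y ↦ (y, 0)` -/
def U5_i0 (p : ℕ) : (T1.ι p → R) →ₗ[R] ((cone f).ι (p + 1) → R) where
  toFun y := (Sum.elim y 0 : T1.ι p ⊕ T0.ι (p + 1) → R)
  map_add' x y := by
    funext i
    rcases i with i | i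
    · rfl
    · show (0 : R) = 0 + 0
      rw [add_zero]
  map_smul' r x := by
    funext i
    rcases i with i | i
    · rfl
    · show (0 : R) = r * 0
      rw [mul_zero]

/-- `(y1, y0) ↦ y0` -/
def U5_q0 (p : ℕ) : ((cone f).ι (p + 1) → R) →ₗ[R] (T0.ι (p + 1) → R) where
  toFun y := fun i => (y : T1.ι p ⊕ T0.ι (p + 1) → R) (Sum.inr i)
  map_add' _ _ := rfl
  map_smul' _ _ := rfl

theorem U5_i0_cy (p : ℕ) (y : T1.cy p) : U5_i0 f p y.1 ∈ (cone f).cy (p + 1) := by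
  refine (U5_cy f p y.1 0).mpr ⟨Submodule.zero_mem _, ?_⟩
  rw [Matrix.zero_vecMul, show Matrix.vecMul y.1 (T1.D p).conjTranspose = 0 from y.2]

theorem U5_q0_cy (p : ℕ) (y : (cone f).cy (p + 1)) : U5_q0 f p y.1 ∈ T0.cy (p + 1) := by
  obtain ⟨y, hy⟩ := y
  obtain ⟨a, b, rfl⟩ : ∃ (a : T1.ι p → R) (b : T0.ι (p + 1) → R), y = Sum.elim a b := U5_eta y
  exact ((U5_cy f p a b).mp hy).1

/-- the map `E^p(T1) → E^(p+1)(cone)` -/
def U5_i (p : ℕ) : T1.E p →ₗ[R] (cone f).E (p + 1) :=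
  Submodule.mapQ _ _ (((U5_i0 f p).comp (T1.cy p).subtype).codRestrict ((cone f).cy (p + 1))
    (U5_i0_cy f p)) (by
      rintro ⟨y, hy⟩ hb
      replace hb : y ∈ T1.bd p := hb
      refine (U5_bd f p y 0).mpr ⟨0, Matrix.zero_vecMul _, ?_⟩
      rw [Matrix.zero_vecMul, sub_zero]
      exact hb)

/-- the map `E^(p+1)(cone) → E^(p+1)(T0)` -/
def U5_q (p : ℕ) : (cone f).E (p + 1) →ₗ[R] T0.E (p + 1) :=
  Submodule.mapQ _ _ (((U5_q0 f p).comp ((cone f).cy (p + 1)).subtype).codRestrict (T0.cy (p + 1))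
    (U5_q0_cy f p)) (by
      rintro ⟨y, hy⟩ hb
      replace hb : y ∈ (cone f).bd (p + 1) := hb
      obtain ⟨a, b, rfl⟩ : ∃ (a : T1.ι p → R) (b : T0.ι (p + 1) → R), y = Sum.elim a b := U5_eta y
      obtain ⟨z, hz, -⟩ := (U5_bd f p a b).mp hb
      exact ⟨z, hz⟩)

theorem U5_i_mk (p : ℕ) (y : T1.cy p) :
    U5_i f p (Submodule.Quotient.mk y) =
      Submodule.Quotient.mk ⟨U5_i0 f p y.1, U5_i0_cy f p y⟩ := rfl

theorem U5_q_mk (p : ℕ) (y : (cone f).cy (p + 1)) :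
    U5_q f p (Submodule.Quotient.mk y) =
      Submodule.Quotient.mk ⟨U5_q0 f p y.1, U5_q0_cy f p y⟩ := rfl

theorem U5_E_zero (T : RC R) (p : ℕ) (y : T.cy p) :
    (Submodule.Quotient.mk y : T.E p) = 0 ↔ y.1 ∈ T.bd p :=
  Submodule.Quotient.mk_eq_zero _

theorem U5_E_eq (T : RC R) (p : ℕ) (y y' : T.cy p) :
    (Submodule.Quotient.mk y : T.E p) = Submodule.Quotient.mk y' ↔ y.1 - y'.1 ∈ T.bd p :=
  Submodule.Quotient.eq _

theorem cone_E (p : ℕ) :
    ∃ (i : T1.E p →ₗ[R] (cone f).E (p + 1)) (q : (cone f).E (p + 1) →ₗ[R] T0.E (p + 1)),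
      LinearMap.range i = LinearMap.ker q ∧ LinearMap.ker i = LinearMap.range (f.Eu p) := by
  refine ⟨U5_i f p, U5_q f p, ?_, ?_⟩
  · ext x
    constructor
    · rintro ⟨y, rfl⟩
      obtain ⟨y, rfl⟩ := Submodule.Quotient.mk_surjective _ y
      rw [LinearMap.mem_ker, U5_i_mk, U5_q_mk, U5_E_zero]
      exact Submodule.zero_mem _
    · obtain ⟨⟨y, hy⟩, rfl⟩ := Submodule.Quotient.mk_surjective _ x
      obtain ⟨a, b, rfl⟩ : ∃ (a : T1.ι p → R) (b : T0.ι (p + 1) → R), y = Sum.elim a b := U5_eta y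
      intro h
      rw [LinearMap.mem_ker, U5_q_mk, U5_E_zero] at h
      obtain ⟨z, hz⟩ : ∃ z : T0.ι p → R, Matrix.vecMul z (T0.D p).conjTranspose = b := h
      have h1 := ((U5_cy f p a b).mp hy).2
      have h2 : a - Matrix.vecMul z (f.U p).conjTranspose ∈ T1.cy p := by
        show Matrix.vecMul _ _ = 0
        rw [Matrix.sub_vecMul, ← U5_comm, hz, h1, sub_self]
      refine ⟨Submodule.Quotient.mk ⟨_, h2⟩, ?_⟩
      rw [U5_i_mk, U5_E_eq]
      have h3 : U5_i0 f p (a - Matrix.vecMul z (f.U p).conjTranspose) -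
          U5_pr f p a b = U5_pr f p (-(Matrix.vecMul z (f.U p).conjTranspose)) (-b) := by
        funext i
        rcases i with i | i
        · show (a i - Matrix.vecMul z (f.U p).conjTranspose i) - a i =
            -(Matrix.vecMul z (f.U p).conjTranspose i)
          abel
        · show (0 : R) - b i = - b i
          rw [zero_sub]
      show U5_i0 f p (a - Matrix.vecMul z (f.U p).conjTranspose) -
          U5_pr f p a b ∈ (cone f).bd (p + 1)
      rw [h3]
      refine (U5_bd f p _ _).mpr ⟨-z, ?_, ?_⟩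
      · rw [Matrix.neg_vecMul, hz]
      · rw [Matrix.neg_vecMul, sub_self]
        exact Submodule.zero_mem _
  · ext x
    obtain ⟨⟨y, hy⟩, rfl⟩ := Submodule.Quotient.mk_surjective _ x
    rw [LinearMap.mem_ker, U5_i_mk, U5_E_zero]
    constructor
    · intro h
      obtain ⟨z, h1, h2⟩ := (U5_bd f p y 0).mp h
      have h3 : z ∈ T0.cy p := h1
      refine ⟨Submodule.Quotient.mk ⟨z, h3⟩, ?_⟩
      symm
      refine (U5_E_eq T1 p _ _).mpr ?_
      exact h2
    · rintro ⟨w, hw⟩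
      obtain ⟨⟨z, hz⟩, rfl⟩ := Submodule.Quotient.mk_surjective _ w
      have h2 := (U5_E_eq T1 p _ _).mp hw.symm
      exact (U5_bd f p y 0).mpr ⟨z, hz, h2⟩

end U5E

end Pool.Agent.UP
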