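import Mathlib
import Pool.Agent.Lib.UP.Defs4
import Pool.Agent.Lib.UP.U1
import Pool.Agent.Lib.UP.U4
import Pool.Agent.Lib.UP.U4F
import Pool.Agent.Lib.UP.U5E
import Pool.Agent.Lib.UP.F1
import Pool.Agent.Lib.UP.F2

/-!
# TANK UP, stage 2, row F4a: (ALPHA)

The finitely generated `R`-submodules of `Ext_S^(p+1)(W, S)` are in `G_p(R)`.
-/

set_option autoImplicit false

open CategoryTheory

namespace Pool.Agent.UP

universe u

private theorem F4a_fp {S : Type u} [Ring S] (T : RC S) : Module.FinitePresentation S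
    ((T.ι 0 → S) ⧸ LinearMap.range (Matrix.vecMulLinear (T.D 0))) := by
  refine Module.finitePresentation_of_surjective (Submodule.mkQ _) (Submodule.mkQ_surjective _) ?_
  rw [Submodule.ker_mkQ, LinearMap.range_eq_map]
  exact Submodule.FG.map _ Module.Finite.fg_top

/-- (ALPHA): the finitely generated `R`-submodules of `Ext_S^(p+1)(W, S)` are in `G_p(R)` -/
theorem alphaF {X : Type} [Fintype X] [DecidableEq X] {R S : Type u} [Ring R] [StarRing R] [Ring S]
    [StarRing S] [IsNoetherianRing R] (L : SkFS X R S) (h : AR R) (T : RC S) (hT : ∀ k, T.Ex k)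
    (p : ℕ) : @Loc R _ p (T.E (p + 1)) _ (Module.compHom _ L.iota) := by
  obtain ⟨r⟩ := exists_coker T hT
  have hfp := F4a_fp T
  let m : Module R ((T.ι 0 → S) ⧸ LinearMap.range (Matrix.vecMulLinear (T.D 0))) :=
    Module.compHom _ L.iota
  obtain ⟨K0, K1, T1, T0, r1, r0, Ψ, _, _, ⟨rc⟩⟩ := exists_cone_resF L.toSkF
    (K := (T.ι 0 → S) ⧸ LinearMap.range (Matrix.vecMulLinear (T.D 0))) (fun _ _ => rfl)
  obtain ⟨e⟩ := E_equiv r rc (p + 1)
  obtain ⟨i, g, hrk, _⟩ := cone_E Ψ p
  let m0 : Module R (T.E (p + 1)) := Module.compHom _ L.iota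
  let m1 : Module R ((cone Ψ).E (p + 1)) := Module.compHom _ L.iota
  let m2 : Module R ((T1.map L.iota).E p) := Module.compHom _ L.iota
  let m3 : Module R ((T0.map L.iota).E (p + 1)) := Module.compHom _ L.iota
  let e' : T.E (p + 1) →ₗ[R] (cone Ψ).E (p + 1) :=
    { toFun := e
      map_add' := map_add e
      map_smul' := fun r x => e.map_smul (L.iota r) x }
  let i' : (T1.map L.iota).E p →ₗ[R] (cone Ψ).E (p + 1) :=
    { toFun := i
      map_add' := map_add i
      map_smul' := fun r x => i.map_smul (L.iota r) x }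
  let g' : (cone Ψ).E (p + 1) →ₗ[R] (T0.map L.iota).E (p + 1) :=
    { toFun := g
      map_add' := map_add g
      map_smul' := fun r x => g.map_smul (L.iota r) x }
  have h1 : Loc R p ((T1.map L.iota).E p) := loc_mapF L T1 (h T1 r1.ex p)
  have h2 : Loc R p ((T0.map L.iota).E (p + 1)) :=
    Loc.mono (Nat.le_succ p) (loc_mapF L T0 (h T0 r0.ex (p + 1)))
  refine Loc.of_injective e' e.injective (Loc.of_exact i' g' ?_ h1 h2)
  intro x hx
  have hx' : x ∈ LinearMap.ker g := hx
  rw [← hrk] at hx'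
  exact hx'

end Pool.Agent.UP
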