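import Mathlib
import Pool.Agent.Lib.UP.Defs4
import Pool.Agent.Lib.UP.U1
import Pool.Agent.Lib.UP.F4a

/-!
# TANK UP, stage 2, row F8a, first half: `alpha_sub`

`alpha_sub`: if `B` embeds in `S^m` then `… → P_1 → P_0 → S^m` is a free resolution of
`S^m / B`, hence `Ext^p(B, S) = Ext^(p+1)(S^m / B, S)` for `1 ≤ p`, on the nose.
-/

set_option autoImplicit false

namespace Pool.Agent.UP

universe u

section
variable {S : Type u} [Ring S]

/-- the index types of `… → P_1 → P_0 → S^m` -/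
def F8a_ι (P : RC S) (m : ℕ) : ℕ → Type
  | 0 => Fin m
  | k + 1 => P.ι k

instance (P : RC S) (m : ℕ) : ∀ k, Fintype (F8a_ι P m k)
  | 0 => inferInstanceAs (Fintype (Fin m))
  | k + 1 => inferInstanceAs (Fintype (P.ι k))

instance (P : RC S) (m : ℕ) : ∀ k, DecidableEq (F8a_ι P m k)
  | 0 => inferInstanceAs (DecidableEq (Fin m))
  | k + 1 => inferInstanceAs (DecidableEq (P.ι k))

/-- the differentials of `… → P_1 → P_0 → S^m` -/
def F8a_D (P : RC S) (m : ℕ) (D0 : Matrix (P.ι 0) (Fin m) S) :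
    ∀ k, Matrix (F8a_ι P m (k + 1)) (F8a_ι P m k) S
  | 0 => D0
  | k + 1 => P.D k

/-- the complex `… → P_1 → P_0 → S^m` -/
def F8a_cons (P : RC S) (m : ℕ) (D0 : Matrix (P.ι 0) (Fin m) S) (h : P.D 0 * D0 = 0) : RC S where
  ι := F8a_ι P m
  D := F8a_D P m D0
  DD k := by
    cases k with
    | zero => exact h
    | succ k => exact P.DD k

end

section F8
variable {X : Type} [Fintype X] [DecidableEq X] {R S : Type u} [Ring R] [StarRing R] [Ring S]
  [StarRing S] [IsNoetherianRing R] (L : SkFS X R S)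

include L
/-- `B` embeds in a free module of finite rank: `E^p(B) = E^(p+1)(S^m / B)` -/
theorem alpha_sub (h : AR R) {B : Type u} [AddCommGroup B] [Module S B] {P : RC S} (r : Res P B)
    {m : ℕ} (ψ : B →ₗ[S] (Fin m → S)) (hψ : Function.Injective ψ) {p : ℕ} (hp : 1 ≤ p) :
    @Loc R _ p (P.E p) _ (Module.compHom _ L.iota) := by
  obtain ⟨q, rfl⟩ : ∃ q, p = q + 1 := ⟨p - 1, by omega⟩
  -- the matrix of `ψ ∘ ε`
  let D0 : Matrix (P.ι 0) (Fin m) S := fun i j => ψ (r.ε (Pi.single i 1)) j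
  have hD0 : ∀ x : P.ι 0 → S, Matrix.vecMul x D0 = ψ (r.ε x) := by
    intro x
    have hx : x = ∑ i, x i • (Pi.single i (1 : S) : P.ι 0 → S) := by
      funext k
      simp [Finset.sum_apply, Pi.single_apply]
    conv_rhs => rw [hx]
    rw [map_sum, map_sum]
    funext j
    simp [Matrix.vecMul, dotProduct, Finset.sum_apply, D0]
  have hDD : P.D 0 * D0 = 0 := by
    apply Matrix.ext
    intro a j
    have h1 : (P.D 0 * D0) a = Matrix.vecMul (P.D 0 a) D0 := by
      funext j
      rfl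
    have h2 : (P.D 0 a : P.ι 0 → S) = Matrix.vecMul (Pi.single a (1 : S)) (P.D 0) := by
      rw [Matrix.single_one_vecMul]
      rfl
    rw [h1, hD0, h2, r.zero, map_zero]
    rfl
  have hT : ∀ k, (F8a_cons P m D0 hDD).Ex k := by
    intro k
    cases k with
    | zero =>
      change ∀ x : P.ι 0 → S, Matrix.vecMul x D0 = 0 → ∃ y : P.ι 1 → S,
        Matrix.vecMul y (P.D 0) = x
      intro x hx
      rw [hD0] at hx
      exact r.ker x (hψ (by rw [hx, map_zero]))
    | succ k => exact r.ex k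
  exact alphaF L h (F8a_cons P m D0 hDD) hT (q + 1)

end F8

end Pool.Agent.UP
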