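import Mathlib
import Pool.Agent.Lib.UP.F8s
import Pool.Agent.Lib.UP.F3
import Pool.Agent.Lib.UP.F5b
import Pool.Agent.Lib.UP.F5a

/-!
# TANK UP, stage 2, row F8a, second half: W1 for `S = R * F`

`ar1F`: the finitely presented submodules of `Ext^(p+1)(W, S)` are in `G_p(S)`.
-/

set_option autoImplicit false

namespace Pool.Agent.UP

universe u

section F8
variable {X : Type} [Fintype X] [DecidableEq X] {R S : Type u} [Ring R] [StarRing R] [Ring S]
  [StarRing S] [IsNoetherianRing R] (L : SkFS X R S)

include L
/-- W1 for `S = R * F` -/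
theorem ar1F (h : AR R) : AR1 S := by
  intro T hT p N hN
  have hc : CohT S := cohF L.toSkF
  let mR : Module R (T.E (p + 1)) := Module.compHom _ L.iota
  let mN : Module R N := Module.compHom _ L.iota
  have : Module.FinitePresentation S (T.E (p + 1)) := fp_E hc T (p + 1)
  have : Module.FinitePresentation S N := fp_submodule hc N hN
  refine claim1F L.toSkF (K := N) (fun _ _ => rfl) ?_
  let f : N →ₗ[R] T.E (p + 1) :=
    { toFun := fun x => x.1
      map_add' := fun _ _ => rfl
      map_smul' := fun _ _ => rfl }
  exact Loc.of_injective f Subtype.val_injective (alphaF L h T hT p)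
end F8

end Pool.Agent.UP
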