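import Mathlib
import Pool.Agent.Lib.UP.Defs4
import Pool.Agent.Lib.UP.U1
import Pool.Agent.Lib.UP.U2
import Pool.Agent.Lib.UP.U5
import Pool.Agent.Lib.UP.U5E
import Pool.Agent.Lib.UP.U4
import Pool.Agent.Lib.UP.F1

/-!
TANK UP, row F4b (helper16): `E^q(K)` embeds in `E^q(S ⊗ K0)`.
-/

set_option autoImplicit false

open CategoryTheory

namespace Pool.Agent.UP

universe u

section pi

variable {R : Type u} [Ring R] [IsNoetherianRing R] {K : Type u} [AddCommGroup K] [Module R K]
  {q : ℕ}

theorem F4b_fin (h : Loc R q K) (n : ℕ) : Loc R q (Fin n → K) := by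
  induction n with
  | zero => exact h.of_injective (0 : (Fin 0 → K) →ₗ[R] K) (fun a b _ => Subsingleton.elim a b)
  | succ n ih =>
    let f : (Fin n → K) →ₗ[R] (Fin (n + 1) → K) :=
      { toFun := fun x => Fin.cons 0 x
        map_add' := by
          intro x y
          ext i
          refine Fin.cases ?_ (fun i => ?_) i <;> simp
        map_smul' := by
          intro r x
          ext i
          refine Fin.cases ?_ (fun i => ?_) i <;> simp }
    refine Loc.of_exact f (LinearMap.proj (R := R) (φ := fun _ : Fin (n + 1) => K) 0) ?_ ih h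
    intro x hx
    refine ⟨Fin.tail x, ?_⟩
    have hx0 : x 0 = 0 := hx
    change Fin.cons 0 (Fin.tail x) = x
    rw [← hx0, Fin.cons_self_tail]

theorem F4b_fun (h : Loc R q K) (X : Type) [Fintype X] : Loc R q (X → K) := by
  let e := Fintype.equivFin X
  exact (F4b_fin h (Fintype.card X)).of_injective
    (LinearMap.funLeft R K e.symm) (LinearMap.funLeft_injective_of_surjective R K _ e.symm.surjective)

/-- finite products of submodules of `K` -/
theorem F4b_pi (h : Loc R q K) {X : Type} [Fintype X] (K1 : X → Submodule R K) :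
    Loc R q (∀ j, K1 j) := by
  let f : (∀ j, K1 j) →ₗ[R] (X → K) :=
    { toFun := fun x j => (x j : K)
      map_add' := fun _ _ => rfl
      map_smul' := fun _ _ => rfl }
  exact (F4b_fun h X).of_injective f (fun x y hxy => by
    funext j
    exact Subtype.ext (congrFun hxy j))

end pi

section star

variable {R : Type u} [Ring R] [StarRing R]

theorem F4b_E_zero {T : RC R} {p : ℕ} (h : T.CoEx p) : Subsingleton (T.E p) := by
  refine ⟨fun a b => ?_⟩
  have key : ∀ a : T.E p, a = 0 := by
    intro a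
    obtain ⟨⟨x, hx⟩, rfl⟩ := Submodule.mkQ_surjective _ a
    refine (Submodule.Quotient.mk_eq_zero _).2 ?_
    change x ∈ T.bd p
    have hx' : Matrix.mulVec (T.D p) (star x) = 0 := by
      have h1 : Matrix.vecMul x (T.D p).conjTranspose = 0 := hx
      rw [← star_star (Matrix.mulVec (T.D p) (star x)), Matrix.star_mulVec, star_star, h1,
        star_zero]
    cases p with
    | zero =>
      have h2 := h (star x) hx'
      rw [star_eq_zero] at h2
      exact h2
    | succ p =>
      obtain ⟨z, hz⟩ := h (star x) hx'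
      refine ⟨star z, ?_⟩
      rw [← star_star x, ← hz, Matrix.star_mulVec]
  rw [key a, key b]

end star

variable {X : Type} [Fintype X] [DecidableEq X] {R S : Type u} [Ring R] [StarRing R] [Ring S]
  [StarRing S] [IsNoetherianRing R] (L : SkFS X R S)

/-- if the f.g. `R`-submodules of `K` are in `G_q(R)` then `E^q(K)` embeds in
`E^q(S ⊗ K0)`, `K0` a f.g. `R`-submodule of `K` -/
theorem embF (_h : AR R) {K : Type u} [AddCommGroup K] [Module R K] [Module S K]
    (hc : ∀ (r : R) (x : K), r • x = L.iota r • x) [Module.FinitePresentation S K] {q : ℕ}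
    (hK : Loc R q K) {P : RC S} (r : Res P K) :
    ∃ (T0 : RC R) (f : P.E q →ₗ[S] (T0.map L.iota).E q), (∀ k, T0.Ex k) ∧
      (∀ l < q, T0.CoEx l) ∧ Function.Injective f := by
  obtain ⟨K0, K1, T1, T0, r1, r0, Ψ, hf0, hf1, ⟨rK⟩⟩ := exists_cone_resF L.toSkF hc
  obtain ⟨e⟩ := E_equiv r rK q
  have hT0 : ∀ l < q, T0.CoEx l := (ge_iff r0 q).1 (hK K0 hf0)
  have hT1 : ∀ l < q, T1.CoEx l := by
    have : ∀ j, Module.Finite R (K1 j) := fun j => Module.Finite.iff_fg.2 (hf1 j)
    exact (ge_iff r1 q).1 (F4b_pi hK K1).ge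
  cases q with
  | zero =>
    let g : (cone Ψ).E 0 →ₗ[S] (T0.map L.iota).E 0 :=
      Submodule.mapQ _ _ (((cone Ψ).cy 0).subtype.codRestrict ((T0.map L.iota).cy 0) (by
        rintro ⟨x, hx⟩
        have h1 : Matrix.vecMul x (Matrix.fromRows (Ψ.U 0)
          ((T0.map L.iota).D 0)).conjTranspose = 0 := hx
        change Matrix.vecMul x ((T0.map L.iota).D 0).conjTranspose = 0
        ext i
        have h2 := congrFun h1 (Sum.inr i)
        exact h2)) (by
        rintro ⟨x, hx⟩ h0
        exact h0)
    refine ⟨T0, g.comp e.toLinearMap, r0.ex, hT0, ?_⟩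
    rw [LinearMap.coe_comp]
    refine Function.Injective.comp ?_ e.injective
    rw [injective_iff_map_eq_zero]
    intro x hx
    obtain ⟨⟨x, hx0⟩, rfl⟩ := Submodule.mkQ_surjective _ x
    refine (Submodule.Quotient.mk_eq_zero _).2 ?_
    have hx1 := (Submodule.Quotient.mk_eq_zero
      (((T0.map L.iota).bd 0).comap ((T0.map L.iota).cy 0).subtype)).1 hx
    exact hx1
  | succ q =>
    obtain ⟨i, g, hig, -⟩ := cone_E Ψ q
    refine ⟨T0, g.comp e.toLinearMap, r0.ex, hT0, ?_⟩
    rw [LinearMap.coe_comp]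
    refine Function.Injective.comp ?_ e.injective
    have hs := F4b_E_zero (map_coexF L.toSkF (hT1 q (Nat.lt_succ_self q)))
    rw [← LinearMap.ker_eq_bot, ← hig, eq_bot_iff]
    rintro _ ⟨y, rfl⟩
    rw [Subsingleton.elim y 0, map_zero]
    exact Submodule.zero_mem _

end Pool.Agent.UP
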