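import Mathlib
import Pool.Agent.Lib.UP.Defs
import Pool.Agent.Lib.UP.Defs4
import Pool.Agent.Lib.UP.TrBr
import Pool.Agent.Lib.UP.U2
set_option autoImplicit false

/-! TANK UP, stage 2, row F7b (helper94): the reversed dual complex, and its continuation over a
coherent ring. -/

namespace Pool.Agent.UP

universe u v w w'

section F7b
variable {R : Type u} [Ring R]

/-- `ι n, ι (n-1), …, ι 0, κ 0, κ 1, …` -/
def F7b_ι (ι κ : ℕ → Type) : ℕ → ℕ → Type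
  | 0, n => ι n
  | k + 1, 0 => κ k
  | k + 1, n + 1 => F7b_ι ι κ k n

instance F7b_fin (ι κ : ℕ → Type) [∀ n, Fintype (ι n)] [∀ n, Fintype (κ n)] :
    ∀ k n, Fintype (F7b_ι ι κ k n)
  | 0, n => inferInstanceAs (Fintype (ι n))
  | k + 1, 0 => inferInstanceAs (Fintype (κ k))
  | k + 1, n + 1 => F7b_fin ι κ k n

instance F7b_dec (ι κ : ℕ → Type) [∀ n, DecidableEq (ι n)] [∀ n, DecidableEq (κ n)] :
    ∀ k n, DecidableEq (F7b_ι ι κ k n)
  | 0, n => inferInstanceAs (DecidableEq (ι n))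
  | k + 1, 0 => inferInstanceAs (DecidableEq (κ k))
  | k + 1, n + 1 => F7b_dec ι κ k n

/-- the matrices -/
def F7b_D {ι κ : ℕ → Type} (B : ∀ k, Matrix (ι k) (ι (k + 1)) R) (E0 : Matrix (κ 0) (ι 0) R)
    (E : ∀ k, Matrix (κ (k + 1)) (κ k) R) :
    ∀ k n, Matrix (F7b_ι ι κ (k + 1) n) (F7b_ι ι κ k n) R
  | 0, 0 => E0
  | 0, n + 1 => B n
  | k + 1, 0 => E k
  | k + 1, n + 1 => F7b_D B E0 E k n

variable {ι κ : ℕ → Type} [∀ n, Fintype (ι n)] [∀ n, Fintype (κ n)]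
  (B : ∀ k, Matrix (ι k) (ι (k + 1)) R) (E0 : Matrix (κ 0) (ι 0) R)
  (E : ∀ k, Matrix (κ (k + 1)) (κ k) R)

theorem F7b_DD (hB : ∀ k, B k * B (k + 1) = 0) (h0 : E0 * B 0 = 0) (h1 : E 0 * E0 = 0)
    (h2 : ∀ k, E (k + 1) * E k = 0) : ∀ k n, F7b_D B E0 E (k + 1) n * F7b_D B E0 E k n = 0
  | 0, 0 => h1
  | 0, 1 => h0
  | 0, n + 2 => hB n
  | k + 1, 0 => h2 k
  | k + 1, n + 1 => F7b_DD hB h0 h1 h2 k n

theorem F7b_Ex
    (h1 : ∀ x : κ 0 → R, Matrix.vecMul x E0 = 0 → ∃ y, Matrix.vecMul y (E 0) = x)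
    (h2 : ∀ k, ∀ x : κ (k + 1) → R, Matrix.vecMul x (E k) = 0 →
      ∃ y, Matrix.vecMul y (E (k + 1)) = x) :
    ∀ k n, (∀ j, j + 2 ≤ n → ∀ x : ι (j + 1) → R, Matrix.vecMul x (B (j + 1)) = 0 →
      ∃ y, Matrix.vecMul y (B j) = x) →
      (1 ≤ n → ∀ x : ι 0 → R, Matrix.vecMul x (B 0) = 0 → ∃ y, Matrix.vecMul y E0 = x) →
      ∀ x : F7b_ι ι κ (k + 1) n → R, Matrix.vecMul x (F7b_D B E0 E k n) = 0 →
      ∃ y, Matrix.vecMul y (F7b_D B E0 E (k + 1) n) = x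
  | 0, 0 => fun _ _ => h1
  | 0, 1 => fun _ h0 => h0 le_rfl
  | 0, n + 2 => fun hB _ => hB n le_rfl
  | k + 1, 0 => fun _ _ => h2 k
  | k + 1, n + 1 => fun hB h0 => F7b_Ex h1 h2 k n (fun j hj => hB j (by omega))
      (fun hn => h0 (by omega))

/-- the glued complex -/
def F7b_rc [∀ n, DecidableEq (ι n)] [∀ n, DecidableEq (κ n)] (hB : ∀ k, B k * B (k + 1) = 0)
    (h0 : E0 * B 0 = 0) (h1 : E 0 * E0 = 0) (h2 : ∀ k, E (k + 1) * E k = 0) (n : ℕ) : RC R where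
  ι k := F7b_ι ι κ k n
  D k := F7b_D B E0 E k n
  DD k := F7b_DD B E0 E hB h0 h1 h2 k n

/-- positions beyond `n` -/
theorem F7b_empty (hκ : ∀ k, IsEmpty (κ k)) : ∀ k n, n < k → IsEmpty (F7b_ι ι κ k n)
  | 0, n, h => absurd h (Nat.not_lt_zero n)
  | k + 1, 0, _ => hκ k
  | k + 1, n + 1, h => F7b_empty hκ k n (by omega)

end F7b

section star
variable {R : Type u} [Ring R] [StarRing R] (T : RC R)

theorem F7b_BB (k : ℕ) : (T.D k).conjTranspose * (T.D (k + 1)).conjTranspose = 0 := by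
  rw [← Matrix.conjTranspose_mul, T.DD, Matrix.conjTranspose_zero]

theorem F7b_vm {a b : Type} [Fintype a] [Fintype b] (M : Matrix a b R) (x : b → R) :
    Matrix.vecMul x M.conjTranspose = star (Matrix.mulVec M (star x)) := by
  rw [Matrix.star_mulVec, star_star]

theorem F7b_mv {a b : Type} [Fintype a] [Fintype b] (M : Matrix a b R) (x : b → R) :
    Matrix.mulVec M x = star (Matrix.vecMul (star x) M.conjTranspose) := by
  rw [F7b_vm, star_star, star_star]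

/-- `CoEx` in star form -/
theorem F7b_coex0 (h : T.CoEx 0) (x : T.ι 0 → R)
    (hx : Matrix.vecMul x (T.D 0).conjTranspose = 0) : x = 0 := by
  rw [F7b_vm, star_eq_zero] at hx
  exact star_eq_zero.mp (h _ hx)

theorem F7b_coex1 {l : ℕ} (h : T.CoEx (l + 1)) (x : T.ι (l + 1) → R)
    (hx : Matrix.vecMul x (T.D (l + 1)).conjTranspose = 0) :
    ∃ y, Matrix.vecMul y (T.D l).conjTranspose = x := by
  rw [F7b_vm, star_eq_zero] at hx
  obtain ⟨z, hz⟩ := h _ hx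
  refine ⟨star z, ?_⟩
  rw [F7b_vm, star_star, hz, star_star]

/-- the cokernel of the position `n` -/
theorem F7b_coker {κ : ℕ → Type} [∀ n, Fintype (κ n)] [∀ n, DecidableEq (κ n)]
    (E0 : Matrix (κ 0) (T.ι 0) R) (E : ∀ k, Matrix (κ (k + 1)) (κ k) R)
    (h0 : E0 * (T.D 0).conjTranspose = 0) (h1 : E 0 * E0 = 0) (h2 : ∀ k, E (k + 1) * E k = 0)
    (n : ℕ) (hn : n = 0 → E0 = 0) :
    LinearMap.range (Matrix.vecMulLinear
      ((F7b_rc (fun k => (T.D k).conjTranspose) E0 E (F7b_BB T) h0 h1 h2 n).D 0)) = T.bd n := by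
  rcases n with _ | n
  · ext x
    constructor
    · rintro ⟨y, rfl⟩
      have h3 : ∀ y : κ 0 → R, Matrix.vecMul y E0 ∈ (⊥ : Submodule R (T.ι 0 → R)) := by
        intro y
        rw [hn rfl, Matrix.vecMul_zero]
        exact Submodule.zero_mem _
      exact h3 y
    · intro h
      have h3 : x = 0 := h
      rw [h3]
      exact Submodule.zero_mem _
  · ext x
    exact Iff.rfl

end star

theorem exists_rev {R : Type u} [Ring R] [StarRing R] (T : RC R) (q : ℕ)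
    (h : ∀ l < q, T.CoEx l) :
    ∃ (C : RC R), (∀ k, C.Ex k) ∧ IsEmpty (C.ι (q + 1)) ∧
      Nonempty (((C.ι 0 → R) ⧸ LinearMap.range (Matrix.vecMulLinear (C.D 0))) ≃ₗ[R]
        ((T.ι q → R) ⧸ T.bd q)) := by
  let κ : ℕ → Type := fun _ => Empty
  let E0 : Matrix (κ 0) (T.ι 0) R := 0
  let E : ∀ k, Matrix (κ (k + 1)) (κ k) R := fun _ => 0
  have h0 : E0 * (T.D 0).conjTranspose = 0 := Matrix.zero_mul _
  have h1 : E 0 * E0 = 0 := Matrix.zero_mul _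
  have h2 : ∀ k, E (k + 1) * E k = 0 := fun k => Matrix.zero_mul _
  refine ⟨F7b_rc (fun k => (T.D k).conjTranspose) E0 E (F7b_BB T) h0 h1 h2 q, ?_, ?_, ?_⟩
  · intro k
    refine F7b_Ex (fun k => (T.D k).conjTranspose) E0 E ?_ ?_ k q ?_ ?_
    · intro x _
      exact ⟨0, funext fun i => i.elim⟩
    · intro k x _
      exact ⟨0, funext fun i => i.elim⟩
    · intro j hj x hx
      exact F7b_coex1 T (h (j + 1) (by omega)) x hx
    · intro hq x hx
      have h3 := F7b_coex0 T (h 0 (by omega)) x hx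
      exact ⟨0, by rw [h3, Matrix.zero_vecMul]⟩
  · exact F7b_empty (ι := T.ι) (κ := κ) (fun _ => inferInstanceAs (IsEmpty Empty)) (q + 1) q
      (Nat.lt_succ_self q)
  · exact ⟨Submodule.quotEquivOfEq _ _ (F7b_coker T E0 E h0 h1 h2 q (fun _ => rfl))⟩

/-- the columns at the position of `ι 1` in the glued complex are exact if the rows of `T` are
exact there -/
theorem F7b_dual {R : Type u} [Ring R] [StarRing R] (T : RC R) (hT : T.Ex 0) {κ : ℕ → Type}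
    [∀ n, Fintype (κ n)] (E0 : Matrix (κ 0) (T.ι 0) R) (E : ∀ k, Matrix (κ (k + 1)) (κ k) R) :
    ∀ (k : ℕ), ∀ x : F7b_ι T.ι κ (k + 1) (k + 2) → R,
      Matrix.mulVec (F7b_D (fun k => (T.D k).conjTranspose) E0 E (k + 1) (k + 2)) x = 0 →
      ∃ z, Matrix.mulVec (F7b_D (fun k => (T.D k).conjTranspose) E0 E k (k + 2)) z = x
  | 0 => by
    intro (x : T.ι 1 → R) hx
    have h1 : Matrix.mulVec (T.D 0).conjTranspose x = 0 := hx
    rw [F7b_mv, Matrix.conjTranspose_conjTranspose, star_eq_zero] at h1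
    obtain ⟨y, hy⟩ := hT _ h1
    refine ⟨star y, ?_⟩
    show Matrix.mulVec (T.D 1).conjTranspose (star y) = x
    rw [F7b_mv, Matrix.conjTranspose_conjTranspose, star_star, hy, star_star]
  | k + 1 => F7b_dual T hT E0 E k

/-- a resolution of a quotient of the free module of position `0` -/
def F7b_res {R : Type u} [Ring R] {P : RC R} (N : Submodule R (P.ι 0 → R))
    (hz : ∀ x, Matrix.vecMul x (P.D 0) ∈ N) (hk : ∀ x, x ∈ N → ∃ y, Matrix.vecMul y (P.D 0) = x)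
    (hex : ∀ k, P.Ex k) : Res P ((P.ι 0 → R) ⧸ N) where
  ε := N.mkQ
  surj := Submodule.mkQ_surjective _
  zero := fun x => (Submodule.Quotient.mk_eq_zero _).mpr (hz x)
  ker := fun x hx => hk x ((Submodule.Quotient.mk_eq_zero _).mp hx)
  ex := hex

theorem ext_dual_coker {R : Type u} [Ring R] [StarRing R] (hc : CohT R) (T : RC R)
    (hT : ∀ k, T.Ex k) (n : ℕ) (hn : 2 ≤ n) (h : ∀ l, 1 ≤ l → l < n → T.CoEx l) {P : RC R}
    (r : Res P ((T.ι n → R) ⧸ T.bd n)) : P.CoEx (n - 1) := by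
  classical
  -- the continuation
  obtain ⟨c, ζ, hζ1, hζ2⟩ := hc _ _ (T.D 0).conjTranspose
  obtain ⟨c', ζ', hζ1', hζ2'⟩ := hc _ _ ζ
  let s : SM R := ⟨c', c, ζ'⟩
  let Q : RC R := s.rc hc
  have hQ : ∀ k, Q.Ex k := s.rc_ex hc
  let κ : ℕ → Type := Q.ι
  let E0 : Matrix (κ 0) (T.ι 0) R := ζ
  let E : ∀ k, Matrix (κ (k + 1)) (κ k) R := Q.D
  have h1 : E 0 * E0 = 0 := hζ1'
  let P' : RC R := F7b_rc (fun k => (T.D k).conjTranspose) E0 E (F7b_BB T) hζ1 h1 Q.DD n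
  have hex : ∀ k, P'.Ex k := by
    intro k
    refine F7b_Ex (fun k => (T.D k).conjTranspose) E0 E ?_ ?_ k n ?_ ?_
    · intro x hx
      obtain ⟨y, hy⟩ := hζ2' (fun _ => x) (row_eq_iff.mpr hx)
      exact ⟨y (), row_eq_iff.mp hy.symm⟩
    · intro k x hx
      exact hQ k x hx
    · intro j hj x hx
      exact F7b_coex1 T (h (j + 1) (by omega) (by omega)) x hx
    · intro _ x hx
      obtain ⟨y, hy⟩ := hζ2 (fun _ => x) (row_eq_iff.mpr hx)
      exact ⟨y (), row_eq_iff.mp hy.symm⟩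
  have hco : LinearMap.range (Matrix.vecMulLinear (P'.D 0)) = T.bd n :=
    F7b_coker T E0 E hζ1 h1 Q.DD n (fun h => absurd h (by omega))
  obtain ⟨m, rfl⟩ : ∃ m, n = m + 2 := ⟨n - 2, by omega⟩
  have hz : ∀ x, Matrix.vecMul x (P'.D 0) ∈ T.bd (m + 2) := fun x => by
    rw [← hco]
    exact ⟨x, rfl⟩
  have hk : ∀ x, x ∈ T.bd (m + 2) → ∃ y, Matrix.vecMul y (P'.D 0) = x := fun x hx => by
    rw [← hco] at hx
    exact hx
  let r' : Res P' ((T.ι (m + 2) → R) ⧸ T.bd (m + 2)) :=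
    F7b_res (P := P') (T.bd (m + 2)) hz hk hex
  have h4 : P'.CoEx (m + 1) := F7b_dual T (hT 0) E0 E m
  exact (r.coEx_iff (m + 1)).mpr ((r'.coEx_iff (m + 1)).mp h4)

end Pool.Agent.UP
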