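import Mathlib
import Pool.Agent.Lib.UP.Defs
import Pool.Agent.Lib.UP62.Ext

/-!
# TANK UP, stage 2, row F7a: dimension shifting in the second variable of `Ext`
-/

set_option autoImplicit false

open CategoryTheory Pool.Agent.UP62

namespace Pool.Agent.UP

universe u

section
variable {R : Type u} [Ring R] {U K₁ K₂ K₃ : Type u} [AddCommGroup U] [Module R U]
  [AddCommGroup K₁] [Module R K₁] [AddCommGroup K₂] [Module R K₂] [AddCommGroup K₃] [Module R K₃]

theorem F7a_pi {ι : Type} [Fintype ι] {l : ℕ} (h : EV R l U R) : EV R l U (ι → R) := by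
  classical
  refine subsingleton_of_forall_eq 0 fun x => ?_
  have hid : 𝟙 (ModuleCat.of R (ι → R)) = ∑ i : ι,
      ModuleCat.ofHom (LinearMap.proj (R := R) (φ := fun _ : ι => R) i) ≫
        ModuleCat.ofHom (LinearMap.single R (fun _ : ι => R) i) := by
    refine ModuleCat.hom_ext (LinearMap.ext fun y => ?_)
    rw [ModuleCat.hom_sum, LinearMap.sum_apply]
    exact (Finset.univ_sum_single y).symm
  rw [← Abelian.Ext.comp_mk₀_id x, hid, Abelian.Ext.mk₀_sum, Abelian.Ext.comp_sum]
  refine Finset.sum_eq_zero fun i _ => ?_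
  rw [← Abelian.Ext.mk₀_comp_mk₀, ← Abelian.Ext.comp_assoc_of_third_deg_zero]
  have h0 : x.comp (Abelian.Ext.mk₀ (ModuleCat.ofHom
      (LinearMap.proj (R := R) (φ := fun _ : ι => R) i))) (add_zero l) = 0 := h.elim _ _
  rw [h0, Abelian.Ext.zero_comp]

theorem F7a_zero {l : ℕ} [Subsingleton K₁] : EV R l U K₁ := by
  refine subsingleton_of_forall_eq 0 fun x => ?_
  have hid : 𝟙 (ModuleCat.of R K₁) = 0 :=
    ModuleCat.hom_ext (LinearMap.ext fun y => Subsingleton.elim _ _)
  rw [← Abelian.Ext.comp_mk₀_id x, hid, Abelian.Ext.mk₀_zero, Abelian.Ext.comp_zero]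

/-- the covariant sequence: the quotient -/
theorem F7a_cov {l : ℕ} (f : K₁ →ₗ[R] K₂) (g : K₂ →ₗ[R] K₃) (hf : Function.Injective f)
    (hex : Function.Exact f g) (hg : Function.Surjective g) (h₂ : EV R l U K₂)
    (h₁ : EV R (l + 1) U K₁) : EV R l U K₃ := by
  have hS := sc_exact f g hf hex hg
  refine subsingleton_of_forall_eq 0 fun x₃ => ?_
  obtain ⟨x₂, hx₂⟩ := Abelian.Ext.covariant_sequence_exact₃ (ModuleCat.of R U) hS x₃
    (rfl : l + 1 = l + 1) (h₁.elim _ _)
  have h : x₂ = 0 := h₂.elim _ _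
  rw [← hx₂, h, Abelian.Ext.zero_comp]
  rfl

end

/-- dimension shifting: `C` has a free resolution of length `q`, `Ext^l(U, R) = 0` for `l ≤ q` -/
theorem hom_zero {R : Type u} [Ring R] {C : RC R} (hC : ∀ k, C.Ex k) {q : ℕ}
    (he : IsEmpty (C.ι (q + 1))) {U : Type u} [AddCommGroup U] [Module R U]
    (hU : GE R (q + 1) U)
    (f : U →ₗ[R] ((C.ι 0 → R) ⧸ LinearMap.range (Matrix.vecMulLinear (C.D 0)))) : f = 0 := by
  have hB : ∀ m k, k + m = q → EV R (k + 1) U (LinearMap.range (Matrix.vecMulLinear (C.D k))) := by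
    intro m
    induction m with
    | zero =>
      intro k hk
      obtain rfl : k = q := hk
      have : Subsingleton (LinearMap.range (Matrix.vecMulLinear (C.D k))) := by
        constructor
        rintro ⟨_, y, rfl⟩ ⟨_, z, rfl⟩
        have h : y = z := Subsingleton.elim _ _
        subst h
        rfl
      exact F7a_zero
    | succ m ih =>
      intro k hk
      have h1 := ih (k + 1) (by omega)
      have h2 : EV R (k + 1) U (C.ι (k + 1) → R) := F7a_pi (hU (k + 1) (by omega))
      refine F7a_cov (LinearMap.range (Matrix.vecMulLinear (C.D (k + 1)))).subtype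
        (Matrix.vecMulLinear (C.D k)).rangeRestrict (Submodule.injective_subtype _) ?_
        (LinearMap.surjective_rangeRestrict _) h2 h1
      intro x
      constructor
      · intro hx
        obtain ⟨y, hy⟩ := hC k x (congrArg Subtype.val hx)
        exact ⟨⟨x, ⟨y, hy⟩⟩, rfl⟩
      · rintro ⟨⟨_, ⟨y, rfl⟩⟩, rfl⟩
        apply Subtype.ext
        change Matrix.vecMul (Matrix.vecMul y (C.D (k + 1))) (C.D k) = 0
        rw [Matrix.vecMul_vecMul, C.DD, Matrix.vecMul_zero]
  have h0 : EV R 0 U ((C.ι 0 → R) ⧸ LinearMap.range (Matrix.vecMulLinear (C.D 0))) := by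
    refine F7a_cov (LinearMap.range (Matrix.vecMulLinear (C.D 0))).subtype
      (Submodule.mkQ _) (Submodule.injective_subtype _) ?_ (Submodule.mkQ_surjective _)
      (F7a_pi (hU 0 (by omega))) (hB q 0 (by omega))
    intro x
    constructor
    · intro hx
      exact ⟨⟨x, (Submodule.Quotient.mk_eq_zero _).1 hx⟩, rfl⟩
    · rintro ⟨x, rfl⟩
      exact (Submodule.Quotient.mk_eq_zero _).2 x.2
  have h1 : Abelian.Ext.mk₀ (ModuleCat.ofHom f) = 0 := h0.elim _ _
  rw [Abelian.Ext.mk₀_eq_zero_iff] at h1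
  exact congrArg ModuleCat.Hom.hom h1

end Pool.Agent.UP
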