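import Mathlib
import Pool.Agent.Lib.UP.F7a
import Pool.Agent.Lib.UP.F7b
import Pool.Agent.Lib.UP.F2

/-!
# TANK UP, stage 2, row F7d (helper2): purity

`Ext^q(W, R)` has no submodules `U ≠ 0` with `Ext^l(U, R) = 0` for all `l ≤ q`, if
`Ext^l(W, R) = 0` for `l < q`; the same for `Ext_S^q(S ⊗ W, S)`, `S = R * F`, and `R`-submodules.
-/

set_option autoImplicit false

open scoped Matrix

namespace Pool.Agent.UP

universe u

section pureE

variable {R : Type u} [Ring R] [StarRing R]

/-- the inclusion `E^q ⊂ coker (T_(q-1)^* → T_q^*)` -/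
def F7d_incl (T : RC R) (q : ℕ) : T.E q →ₗ[R] ((T.ι q → R) ⧸ T.bd q) :=
  Submodule.mapQ _ _ (T.cy q).subtype le_rfl

theorem F7d_incl_inj (T : RC R) (q : ℕ) : Function.Injective (F7d_incl T q) := by
  rw [injective_iff_map_eq_zero]
  intro x hx
  obtain ⟨x, rfl⟩ := Submodule.Quotient.mk_surjective _ x
  have hx' : Submodule.Quotient.mk (p := T.bd q) x.1 = 0 := hx
  refine (Submodule.Quotient.mk_eq_zero _).2 ?_
  exact (Submodule.Quotient.mk_eq_zero (T.bd q)).1 hx'

/-- maps from a module with `Ext^l(U, R) = 0` for all `l ≤ q` to `E^q` are zero -/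
theorem pure_hom (T : RC R) (q : ℕ) (h : ∀ l < q, T.CoEx l) {U : Type u} [AddCommGroup U]
    [Module R U] (hU : GE R (q + 1) U) (φ : U →ₗ[R] T.E q) : φ = 0 := by
  obtain ⟨C, hC, he, ⟨e⟩⟩ := exists_rev T q h
  have h1 := hom_zero hC he hU (e.symm.toLinearMap ∘ₗ F7d_incl T q ∘ₗ φ)
  refine LinearMap.ext fun x => ?_
  have h2 : e.symm (F7d_incl T q (φ x)) = 0 := LinearMap.congr_fun h1 x
  rw [LinearEquiv.map_eq_zero_iff] at h2
  exact F7d_incl_inj T q (h2.trans (map_zero _).symm)

/-- P1: `E^q` is pure -/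
theorem pure_E (T : RC R) (q : ℕ) (h : ∀ l < q, T.CoEx l)
    (U : Submodule R (T.E q)) (hU : GE R (q + 1) U) : U = ⊥ := by
  have h1 := pure_hom T q h hU U.subtype
  rw [eq_bot_iff]
  intro x hx
  exact (Submodule.mem_bot R).2 (LinearMap.congr_fun h1 ⟨x, hx⟩)

/-- maps from a module all of whose f.g. submodules satisfy the condition -/
theorem pure_loc (T : RC R) (q : ℕ) (h : ∀ l < q, T.CoEx l) {U : Type u} [AddCommGroup U]
    [Module R U] (hU : Loc R (q + 1) U) (φ : U →ₗ[R] T.E q) : φ = 0 := by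
  refine LinearMap.ext fun x => ?_
  have h1 := pure_hom T q h (hU (Submodule.span R {x}) (Submodule.fg_span_singleton x))
    (φ ∘ₗ (Submodule.span R {x}).subtype)
  exact LinearMap.congr_fun h1 ⟨x, Submodule.mem_span_singleton_self x⟩

end pureE

namespace SkFS

variable {X : Type} {R S : Type u} [Ring R] [StarRing R] [Ring S] [StarRing S]
  (L : SkFS X R S)

/-- the coefficient at `g` of a cocycle -/
noncomputable def coCy (T : RC R) (q : ℕ) (g : FreeGroup X) : (T.map L.iota).cy q →+ T.cy q where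
  toFun x := ⟨fun i => L.co (x.1 i) g, L.co_cy x.2 g⟩
  map_zero' := Subtype.ext (funext fun i => by
    show L.co ((0 : T.ι q → S) i) g = 0
    rw [Pi.zero_apply, map_zero, Finsupp.zero_apply])
  map_add' x y := Subtype.ext (funext fun i => by
    show L.co (x.1 i + y.1 i) g = L.co (x.1 i) g + L.co (y.1 i) g
    rw [map_add, Finsupp.add_apply])

theorem coCy_bd (T : RC R) (q : ℕ) (g : FreeGroup X) {x : T.ι q → S}
    (hx : x ∈ (T.map L.iota).bd q) : (fun i => L.co (x i) g) ∈ T.bd q := by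
  cases q with
  | zero =>
    have hx' : x = 0 := hx
    subst hx'
    refine (Submodule.mem_bot R).2 (funext fun i => ?_)
    rw [Pi.zero_apply, map_zero, Finsupp.zero_apply, Pi.zero_apply]
  | succ q =>
    obtain ⟨z, rfl⟩ := hx
    refine ⟨fun i => L.co (z i) g, ?_⟩
    funext i
    rw [← L.co_vec, ← L.conj]
    rfl

/-- a cocycle all of whose coefficients are coboundaries is a coboundary -/
theorem bd_of_coCy (T : RC R) (q : ℕ) {x : T.ι q → S}
    (hx : ∀ g, (fun i => L.co (x i) g) ∈ T.bd q) : x ∈ (T.map L.iota).bd q := by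
  cases q with
  | zero =>
    have h0 : x = 0 := by
      funext i
      refine L.toSkF.ext_co fun g => ?_
      have h1 : (fun i => L.co (x i) g) = 0 := hx g
      rw [show L.co (x i) g = 0 from congrFun h1 i, Pi.zero_apply, map_zero, Finsupp.zero_apply]
    subst h0
    exact Submodule.zero_mem ((T.map L.iota).bd 0)
  | succ q =>
    obtain ⟨y, hy⟩ := L.toSkF.lift_rows (T.D q)ᴴ (fun r => r ∈ T.bd (q + 1)) (fun r hr => hr) x hx
    refine ⟨y, ?_⟩
    rw [← hy, ← L.conj]
    rfl

/-- the coefficient at `g` of a class -/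
noncomputable def coE (T : RC R) (q : ℕ) (g : FreeGroup X) : (T.map L.iota).E q →+ T.E q :=
  QuotientAddGroup.map
    (((T.map L.iota).bd q).comap ((T.map L.iota).cy q).subtype).toAddSubgroup
    ((T.bd q).comap (T.cy q).subtype).toAddSubgroup (L.coCy T q g)
    (fun _ hx => L.coCy_bd T q g hx)

theorem coE_mk (T : RC R) (q : ℕ) (g : FreeGroup X) (x : (T.map L.iota).cy q) :
    L.coE T q g (Submodule.Quotient.mk x) = Submodule.Quotient.mk (L.coCy T q g x) := rfl

theorem coE_smul (T : RC R) (q : ℕ) (g : FreeGroup X) (r : R) (x : (T.map L.iota).E q) :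
    L.coE T q g (L.iota r • x) = L.sig g⁻¹ r • L.coE T q g x := by
  obtain ⟨x, rfl⟩ := Submodule.Quotient.mk_surjective _ x
  have h : L.coCy T q g (L.iota r • x) = L.sig g⁻¹ r • L.coCy T q g x :=
    Subtype.ext (funext fun i => L.toSkF.co_iota_mul r (x.1 i) g)
  exact congrArg (Submodule.Quotient.mk (p := (T.bd q).comap (T.cy q).subtype)) h

/-- a class all of whose coefficients are zero is zero -/
theorem coE_eq_zero (T : RC R) (q : ℕ) {x : (T.map L.iota).E q} (h : ∀ g, L.coE T q g x = 0) :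
    x = 0 := by
  obtain ⟨x, rfl⟩ := Submodule.Quotient.mk_surjective _ x
  refine (Submodule.Quotient.mk_eq_zero _).2 (L.bd_of_coCy T q fun g => ?_)
  have h1 : Submodule.Quotient.mk (p := (T.bd q).comap (T.cy q).subtype) (L.coCy T q g x) = 0 :=
    h g
  exact (Submodule.Quotient.mk_eq_zero ((T.bd q).comap (T.cy q).subtype)).1 h1

/-- P2 without finiteness -/
theorem pure_map [IsNoetherianRing R] (T : RC R) (q : ℕ) (h : ∀ l < q, T.CoEx l) {U : Type u}
    [AddCommGroup U] [Module R U] (hU : Loc R (q + 1) U) (φ : U →+ (T.map L.iota).E q)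
    (hφ : ∀ (r : R) (x : U), φ (r • x) = L.iota r • φ x) : φ = 0 := by
  refine AddMonoidHom.ext fun x => L.coE_eq_zero T q fun g => ?_
  have hs : ∀ (r : R) (x : U), ((L.coE T q g).comp φ) (r • x) =
      L.sig g⁻¹ r • ((L.coE T q g).comp φ) x := by
    intro r x
    rw [AddMonoidHom.comp_apply, hφ, coE_smul]
    rfl
  have h1 := pure_loc T q h (Loc.rgS (L.sig g⁻¹) ((L.coE T q g).comp φ) hs hU)
    (rgS (L.sig g⁻¹) ((L.coE T q g).comp φ) hs).subtype
  exact LinearMap.congr_fun h1 ⟨_, x, rfl⟩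

end SkFS

/-- P2 -/
theorem pure_mapF {X : Type} [Fintype X] [DecidableEq X] {R S : Type u} [Ring R] [StarRing R]
    [Ring S] [StarRing S] [IsNoetherianRing R] (L : SkFS X R S) (T : RC R) (q : ℕ)
    (h : ∀ l < q, T.CoEx l) :
    letI : Module R ((T.map L.iota).E q) := Module.compHom _ L.iota
    ∀ U : Submodule R ((T.map L.iota).E q), U.FG → Loc R (q + 1) U → U = ⊥ := by
  let _ : Module R ((T.map L.iota).E q) := Module.compHom _ L.iota
  intro U _ hU
  have h1 := L.pure_map T q h hU U.subtype.toAddMonoidHom (fun r x => rfl)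
  rw [eq_bot_iff]
  intro x hx
  have h2 : U.subtype.toAddMonoidHom ⟨x, hx⟩ = 0 := by rw [h1]; rfl
  exact (Submodule.mem_bot R).2 h2

end Pool.Agent.UP
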