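import Mathlib
import Pool.Agent.Lib.UP.Defs4
import Pool.Agent.Lib.UP.U1
import Pool.Agent.Lib.UP.U2
import Pool.Agent.Lib.UP.U3
import Pool.Agent.Lib.UP.U3a
import Pool.Agent.Lib.UP.U5
import Pool.Agent.Lib.UP.U5E
import Pool.Agent.Lib.UP.F3
import Pool.Agent.Lib.UP.F4a
import Pool.Agent.Lib.UP.F4b
import Pool.Agent.Lib.UP.F5a
import Pool.Agent.Lib.UP.F5b
import Pool.Agent.Lib.UP.F7b
import Pool.Agent.Lib.UP.F7d
import Pool.Agent.Lib.UP.F8s

/-!
# TANK UP, stage 2, row F8b: (BETA) for `S = R * F`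
-/

set_option autoImplicit false

open CategoryTheory

namespace Pool.Agent.UP

universe u

section
variable {S : Type u} [Ring S] [StarRing S]

theorem F8b_E_zero {T : RC S} {p : ℕ} (h : T.CoEx p) (a : T.E p) : a = 0 := by
  obtain ⟨⟨x, hx⟩, rfl⟩ := Submodule.mkQ_surjective _ a
  refine (Submodule.Quotient.mk_eq_zero _).2 ?_
  change x ∈ T.bd p
  have hx' : Matrix.mulVec (T.D p) (star x) = 0 := by
    have h1 : Matrix.vecMul x (T.D p).conjTranspose = 0 := hx
    rw [← star_star (Matrix.mulVec (T.D p) (star x)), Matrix.star_mulVec, star_star, h1, star_zero]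
  cases p with
  | zero =>
    have h2 : star x = 0 := h _ hx'
    exact star_eq_zero.1 h2
  | succ p =>
    obtain ⟨z, hz⟩ := h _ hx'
    refine ⟨star z, ?_⟩
    rw [← star_star x, ← hz, Matrix.star_mulVec]

theorem F8b_coEx {T : RC S} {p : ℕ} (h : ∀ a : T.E p, a = 0) : T.CoEx p := by
  have key : ∀ y : T.ι p → S, Matrix.mulVec (T.D p) y = 0 → star y ∈ T.bd p := by
    intro y hy
    have hc : star y ∈ T.cy p := by
      change Matrix.vecMul (star y) (T.D p).conjTranspose = 0
      rw [← Matrix.star_mulVec, hy, star_zero]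
    have h2 : (⟨star y, hc⟩ : T.cy p) ∈ (T.bd p).comap (T.cy p).subtype :=
      (Submodule.Quotient.mk_eq_zero _).1 (h (Submodule.Quotient.mk ⟨star y, hc⟩))
    exact h2
  cases p with
  | zero =>
    intro y hy
    exact star_eq_zero.1 (key y hy)
  | succ p =>
    intro y hy
    obtain ⟨z, hz⟩ := key y hy
    refine ⟨star z, ?_⟩
    rw [← star_star y, ← hz, Matrix.star_vecMul, Matrix.conjTranspose_conjTranspose]

/-- `M = cy n / bd n` in `C = S^n / bd n` -/
def F8b_inc (T : RC S) (n : ℕ) : T.E n →ₗ[S] ((T.ι n → S) ⧸ T.bd n) :=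
  Submodule.mapQ _ _ (T.cy n).subtype le_rfl

theorem F8b_inc_inj (T : RC S) (n : ℕ) : Function.Injective (F8b_inc T n) := by
  rw [← LinearMap.ker_eq_bot, F8b_inc, Submodule.ker_mapQ]
  rw [Submodule.mkQ_map_self]

theorem F8b_bd_le (T : RC S) (n : ℕ) :
    T.bd n ≤ LinearMap.ker (Matrix.vecMulLinear (T.D n).conjTranspose) := by
  intro x hx
  cases n with
  | zero =>
    rw [show x = 0 from hx]
    exact Submodule.zero_mem _
  | succ n =>
    obtain ⟨z, rfl⟩ := hx
    change Matrix.vecMul (Matrix.vecMul z (T.D n).conjTranspose) (T.D (n + 1)).conjTranspose = 0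
    rw [Matrix.vecMul_vecMul, ← Matrix.conjTranspose_mul, T.DD, Matrix.conjTranspose_zero,
      Matrix.vecMul_zero]

/-- the map `C = S^n / bd n → S^(n+1)` -/
def F8b_psi0 (T : RC S) (n : ℕ) : ((T.ι n → S) ⧸ T.bd n) →ₗ[S] (T.ι (n + 1) → S) :=
  Submodule.liftQ _ (Matrix.vecMulLinear (T.D n).conjTranspose) (F8b_bd_le T n)

theorem F8b_ker (T : RC S) (n : ℕ) :
    LinearMap.ker (F8b_psi0 T n) = LinearMap.range (F8b_inc T n) := by
  ext x
  constructor
  · intro hx
    obtain ⟨x, rfl⟩ := Submodule.mkQ_surjective _ x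
    exact ⟨Submodule.Quotient.mk ⟨x, hx⟩, rfl⟩
  · rintro ⟨y, rfl⟩
    obtain ⟨⟨y, hy⟩, rfl⟩ := Submodule.mkQ_surjective _ y
    exact hy

/-- `B = C / M` embeds in a free module -/
theorem F8b_psi (T : RC S) (n : ℕ) :
    ∃ (m : ℕ) (ψ : (((T.ι n → S) ⧸ T.bd n) ⧸ LinearMap.range (F8b_inc T n)) →ₗ[S] (Fin m → S)),
      Function.Injective ψ := by
  have h1 : Function.Injective
      (Submodule.liftQ (LinearMap.range (F8b_inc T n)) (F8b_psi0 T n) (F8b_ker T n).ge) := by
    rw [← LinearMap.ker_eq_bot, Submodule.ker_liftQ, F8b_ker, Submodule.mkQ_map_self]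
  exact ⟨Fintype.card (T.ι (n + 1)), (LinearMap.funLeft S S
    (Fintype.equivFin (T.ι (n + 1))).symm).comp
    (Submodule.liftQ _ (F8b_psi0 T n) (F8b_ker T n).ge),
    (LinearMap.funLeft_injective_of_surjective S S _
      (Fintype.equivFin (T.ι (n + 1))).symm.surjective).comp h1⟩

end

section
variable {X : Type} [Fintype X] [DecidableEq X] {R S : Type u} [Ring R] [StarRing R] [Ring S]
  [StarRing S] [IsNoetherianRing R] (L : SkFS X R S)

include L in
/-- (BETA) -/
theorem arwF (h : AR R) : ARW S := by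
  intro T hT n hn hco
  obtain ⟨q, rfl⟩ : ∃ q, n = q + 1 := ⟨n - 1, by omega⟩
  have hc : CohT S := cohF L.toSkF
  have hfpM := fp_E hc T (q + 1)
  let m0 : Module R (T.E (q + 1)) := Module.compHom _ L.iota
  have hMloc : Loc R q (T.E (q + 1)) := alphaF L h T hT q
  obtain ⟨P1, ⟨r1⟩⟩ := exists_res_coh hc (T.E (q + 1))
  have hfpC : Module.FinitePresentation S ((T.ι (q + 1) → S) ⧸ T.bd (q + 1)) := by
    refine Module.finitePresentation_of_surjective (Submodule.mkQ _) (Submodule.mkQ_surjective _) ?_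
    rw [Submodule.ker_mkQ]
    have h1 : T.bd (q + 1) = LinearMap.range (Matrix.vecMulLinear (T.D q).conjTranspose) := rfl
    rw [h1, LinearMap.range_eq_map]
    exact Submodule.FG.map _ Module.Finite.fg_top
  obtain ⟨P0, ⟨r0⟩⟩ := exists_res_coh hc ((T.ι (q + 1) → S) ⧸ T.bd (q + 1))
  rw [ge_iff r1]
  intro l hl
  rcases Nat.lt_or_ge l q with hlq | hlq
  · exact (ge_iff r1 q).1 (claim1F L.toSkF (fun _ _ => rfl) hMloc) l hlq
  · obtain rfl : l = q := by omega
    have hC : P0.CoEx l := ext_dual_coker hc T hT (l + 1) hn hco r0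
    obtain ⟨f, hf⟩ := exists_lift r1 r0 (F8b_inc T (l + 1))
    obtain ⟨rB⟩ := cone_res_lin f r1 r0 (F8b_inc T (l + 1)) (F8b_inc_inj T (l + 1)) hf
    obtain ⟨m, ψ, hψ⟩ := F8b_psi T (l + 1)
    let m1 : Module R ((cone f).E (l + 1)) := Module.compHom _ L.iota
    have hB : Loc R (l + 1) ((cone f).E (l + 1)) := alpha_sub L h rB ψ hψ (by omega)
    obtain ⟨i, g, _, hker⟩ := cone_E f l
    have hi : Function.Injective i := by
      rw [← LinearMap.ker_eq_bot, hker, eq_bot_iff]
      rintro _ ⟨y, rfl⟩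
      rw [F8b_E_zero hC y, map_zero]
      exact Submodule.zero_mem _
    obtain ⟨T0, e, hT0, hT0c, he⟩ := embF L h (fun _ _ => rfl) hMloc r1
    let m2 : Module R (P1.E l) := Module.compHom _ L.iota
    let m3 : Module R ((T0.map L.iota).E l) := Module.compHom _ L.iota
    let i' : P1.E l →ₗ[R] (cone f).E (l + 1) :=
      { toFun := i
        map_add' := map_add i
        map_smul' := fun r x => i.map_smul (L.iota r) x }
    let e' : P1.E l →ₗ[R] (T0.map L.iota).E l :=
      { toFun := e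
        map_add' := map_add e
        map_smul' := fun r x => e.map_smul (L.iota r) x }
    have hP : Loc R (l + 1) (P1.E l) := Loc.of_injective i' hi hB
    apply F8b_coEx
    intro a
    let U : Submodule R (P1.E l) := Submodule.span R {a}
    have hU : Loc R (l + 1) (U.map e') :=
      Loc.of_injective (Submodule.equivMapOfInjective e' he U).symm.toLinearMap
        (Submodule.equivMapOfInjective e' he U).symm.injective
        (Loc.of_injective U.subtype Subtype.val_injective hP)
    have hU0 : U.map e' = ⊥ := pure_mapF L T0 l hT0c (U.map e')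
      (Submodule.FG.map _ (Submodule.fg_span_singleton a)) hU
    have h3 : e' a ∈ U.map e' := Submodule.mem_map_of_mem (Submodule.mem_span_singleton_self a)
    rw [hU0, Submodule.mem_bot] at h3
    exact he (h3.trans (map_zero e').symm)

end

end Pool.Agent.UP
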