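import Mathlib
import Pool.Agent.Lib.UP.Defs

/-!
# TANK UP, row F7c (helper98): classes of degree `q` as functionals

`RC.rev T q`: the dual complex `T.ι q ← … ← T.ι 0` of a complex, reversed (a complex of length `q`).
`functional_core`: a resolution `Q` of a submodule `D ≤ Ext^q(K, R)`, reversed, is the target of a
chain map from a resolution `P` of `K`; if the map on cokernels is `0` then `D = 0`.
-/

set_option autoImplicit false

open Matrix

namespace Pool.Agent.UP

universe u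

variable {R : Type u} [Ring R]

/-- the differential between two positions -/
def RC.Dg (T : RC R) (n m : ℕ) (h : n = m + 1) : Matrix (T.ι n) (T.ι m) R := by
  subst h
  exact T.D m

theorem RC.Dg_self (T : RC R) (m : ℕ) : T.Dg (m + 1) m rfl = T.D m := rfl

theorem RC.Dg_Dg (T : RC R) {n m l : ℕ} (h : n = m + 1) (h' : m = l + 1) :
    T.Dg n m h * T.Dg m l h' = 0 := by
  subst h
  subst h'
  exact T.DD l

/-- a column of the product `M * N` -/
theorem F7c_mulVec_col {m n k : Type} [Fintype n] (M : Matrix m n R) (N : Matrix n k R) (j : k) :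
    M *ᵥ (fun i => N i j) = fun i => (M * N) i j := rfl

theorem F7c_vecMul_row {m n k : Type} [Fintype n] (M : Matrix m n R) (N : Matrix n k R) (i : m) :
    (M i) ᵥ* N = (M * N) i := rfl

section star
variable [StarRing R]

theorem F7c_star_vec {m n : Type} [Fintype m] (x : m → R) (M : Matrix n m R) :
    (x ᵥ* Mᴴ) = fun i => star ((M *ᵥ (fun j => star (x j))) i) := by
  funext i
  simp only [vecMul, mulVec, dotProduct, conjTranspose_apply, star_sum, star_mul, star_star]

theorem F7c_cy {T : RC R} {p : ℕ} {x : T.ι p → R} : x ∈ T.cy p ↔ x ᵥ* (T.D p)ᴴ = 0 := Iff.rfl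

theorem F7c_bd {T : RC R} {p : ℕ} {x : T.ι (p + 1) → R} :
    x ∈ T.bd (p + 1) ↔ ∃ z : T.ι p → R, z ᵥ* (T.D p)ᴴ = x := Iff.rfl

theorem F7c_bd0 {T : RC R} {x : T.ι 0 → R} : x ∈ T.bd 0 ↔ x = 0 := Iff.rfl

/-- exactness of the dual complex in star form -/
theorem F7c_cy_le_bd {T : RC R} {l : ℕ} (h : T.CoEx l) : T.cy l ≤ T.bd l := by
  intro x hx
  rw [F7c_cy, F7c_star_vec] at hx
  have h0 : T.D l *ᵥ (fun j => star (x j)) = 0 := by
    funext i
    have := congrFun hx i
    exact star_eq_zero.mp this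
  cases l with
  | zero =>
    have h1 := h (fun j => star (x j)) h0
    rw [F7c_bd0]
    funext j
    exact star_eq_zero.mp (congrFun h1 j)
  | succ l =>
    obtain ⟨z, hz⟩ := h (fun j => star (x j)) h0
    rw [F7c_bd]
    refine ⟨fun j => star (z j), ?_⟩
    rw [F7c_star_vec]
    simp only [star_star]
    funext j
    have := congrFun hz j
    show star ((T.D l *ᵥ fun j => z j) j) = x j
    rw [show (T.D l *ᵥ fun j => z j) = T.D l *ᵥ z from rfl, this, star_star]

theorem F7c_bd_cy {T : RC R} {p : ℕ} {x : T.ι p → R} (h : x ∈ T.bd p) : x ᵥ* (T.D p)ᴴ = 0 := by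
  cases p with
  | zero =>
    rw [F7c_bd0] at h
    rw [h, zero_vecMul]
  | succ p =>
    obtain ⟨z, rfl⟩ := h
    rw [vecMul_vecMul, ← conjTranspose_mul, T.DD, conjTranspose_zero, vecMul_zero]

/-! ### the reversed dual complex -/

/-- the index types -/
abbrev RC.revι (T : RC R) (q k : ℕ) : Type := {_x : T.ι (q - k) // k ≤ q}

/-- the reversed dual complex: positions `0, …, q` -/
def RC.rev (T : RC R) (q : ℕ) : RC R where
  ι k := T.revι q k
  D k := fun a b => star (T.Dg (q - k) (q - (k + 1)) (by have := a.2; omega) b.1 a.1)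
  DD k := by
    ext a b
    rw [mul_apply, Matrix.zero_apply]
    have ha := a.2
    have h1 : q - (k + 1) = q - (k + 1 + 1) + 1 := by omega
    have h2 : q - k = q - (k + 1) + 1 := by omega
    have h3 := congrFun (congrFun (T.Dg_Dg h2 h1) b.1) a.1
    rw [mul_apply, Matrix.zero_apply] at h3
    have h4 : (∑ c : T.revι q (k + 1), star (T.Dg (q - (k + 1)) (q - (k + 1 + 1)) h1 c.1 a.1) *
        star (T.Dg (q - k) (q - (k + 1)) h2 b.1 c.1)) =
        ∑ c : T.ι (q - (k + 1)), star (T.Dg (q - (k + 1)) (q - (k + 1 + 1)) h1 c a.1) *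
          star (T.Dg (q - k) (q - (k + 1)) h2 b.1 c) :=
      Fintype.sum_equiv (Equiv.subtypeUnivEquiv fun _ => by omega) _ _ fun _ => rfl
    refine h4.trans ?_
    have h5 := congrArg star h3
    rw [star_sum, star_zero] at h5
    simp only [star_mul] at h5
    exact h5

theorem RC.rev_empty (T : RC R) (q : ℕ) : IsEmpty ((T.rev q).ι (q + 1)) :=
  ⟨fun a => by have := a.2; omega⟩

/-- a vector of the reversed complex as a vector of the complex -/
theorem F7c_rev_vec (T : RC R) {q k : ℕ} (hk : k + 1 ≤ q) (x : T.revι q (k + 1) → R)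
    (b : T.revι q k) : (x ᵥ* (T.rev q).D k) b =
      ((fun i : T.ι (q - (k + 1)) => x ⟨i, hk⟩) ᵥ*
        (T.Dg (q - k) (q - (k + 1)) (by omega))ᴴ) b.1 := by
  show (∑ a : T.revι q (k + 1), x a * star (T.Dg (q - k) (q - (k + 1)) _ b.1 a.1)) =
    ∑ a : T.ι (q - (k + 1)), x ⟨a, hk⟩ *
      star (T.Dg (q - k) (q - (k + 1)) (show q - k = q - (k + 1) + 1 by omega) b.1 a)
  exact Fintype.sum_equiv (Equiv.subtypeUnivEquiv fun _ => hk) _ _ fun _ => rfl

theorem F7c_mem_bd_Dg {T : RC R} {n m : ℕ} (h : n = m + 1) {x : T.ι n → R} :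
    x ∈ T.bd n ↔ ∃ z : T.ι m → R, z ᵥ* (T.Dg n m h)ᴴ = x := by
  subst h
  exact Iff.rfl

theorem F7c_mem_cy_Dg {T : RC R} {n m : ℕ} (h : n = m + 1) {x : T.ι m → R} :
    x ∈ T.cy m ↔ x ᵥ* (T.Dg n m h)ᴴ = 0 := by
  subst h
  exact Iff.rfl

theorem RC.rev_ex (T : RC R) (q : ℕ) (h : ∀ l < q, T.CoEx l) (k : ℕ) : (T.rev q).Ex k := by
  intro x hx
  by_cases hk : k + 1 ≤ q
  · have h1 : (fun i : T.ι (q - (k + 1)) => x ⟨i, hk⟩) ∈ T.cy (q - (k + 1)) := by
      rw [F7c_mem_cy_Dg (n := q - k) (by omega)]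
      funext b
      have := congrFun hx (⟨b, by omega⟩ : T.revι q k)
      rw [← F7c_rev_vec T hk x ⟨b, by omega⟩]
      exact this
    have h2 := F7c_cy_le_bd (h (q - (k + 1)) (by omega)) h1
    by_cases hk2 : k + 1 + 1 ≤ q
    · rw [F7c_mem_bd_Dg (m := q - (k + 1 + 1)) (by omega)] at h2
      obtain ⟨z, hz⟩ := h2
      refine ⟨fun a => z a.1, ?_⟩
      funext b
      have h3 := F7c_rev_vec T hk2 (fun a => z a.1) b
      refine h3.trans ?_
      have h4 := congrFun hz b.1
      exact h4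
    · have hq : q = k + 1 := by omega
      refine ⟨fun a => absurd a.2 (by omega), ?_⟩
      funext b
      have h3 : x b = 0 := by
        have hz : q - (k + 1) = 0 := by omega
        have h4 : ∀ n, n = 0 → ∀ y : T.ι n → R, y ∈ T.bd n → y = 0 := by
          rintro n rfl y hy
          exact hy
        have h5 := h4 _ hz _ h2
        exact congrFun h5 b.1
      rw [h3]
      show (∑ a, _) = _
      have : IsEmpty ((T.rev q).ι (k + 1 + 1)) := ⟨fun a => by have := a.2; omega⟩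
      exact Finset.sum_of_isEmpty _
  · have : IsEmpty ((T.rev q).ι (k + 1)) := ⟨fun a => by have := a.2; omega⟩
    exact ⟨0, funext fun b => isEmptyElim b⟩

/-! ### the chain map `Q → P^*` and its dual -/

section core

variable {P Q : RC R} {q : ℕ}

/-- the rows of `Q.D n * W` are coboundaries -/
def F7c_good (P Q : RC R) (n m : ℕ) (W : Matrix (Q.ι n) (P.ι m) R) : Prop :=
  ∀ a, (Q.D n * W) a ∈ P.bd m

theorem F7c_step {n m : ℕ} (hc : P.CoEx m) (W : Matrix (Q.ι n) (P.ι (m + 1)) R)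
    (hW : F7c_good P Q n (m + 1) W) : ∃ W' : Matrix (Q.ι (n + 1)) (P.ι m) R,
      F7c_good P Q (n + 1) m W' ∧ Q.D n * W = W' * (P.D m)ᴴ := by
  choose w hw using hW
  have h1 : Q.D n * W = Matrix.of w * (P.D m)ᴴ := by
    funext a
    exact (hw a).symm
  refine ⟨Matrix.of w, fun a => F7c_cy_le_bd hc ?_, h1⟩
  rw [F7c_cy, F7c_vecMul_row, Matrix.mul_assoc, ← h1, ← Matrix.mul_assoc, Q.DD, Matrix.zero_mul]
  rfl

/-- the chain map from `Q` to the dual of `P` -/
theorem F7c_exists_W (hPc : ∀ l < q, P.CoEx l) (W0 : Matrix (Q.ι 0) (P.ι q) R)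
    (hW0 : F7c_good P Q 0 q W0) :
    ∃ W : ∀ n m, n + m = q → Matrix (Q.ι n) (P.ι m) R, W 0 q (Nat.zero_add q) = W0 ∧
      (∀ n m (h : n + m = q), F7c_good P Q n m (W n m h)) ∧
      ∀ n m (h : n + 1 + m = q) (h' : n + (m + 1) = q),
        Q.D n * W n (m + 1) h' = W (n + 1) m h * (P.D m)ᴴ := by
  classical
  let T : ℕ → Type u := fun n => ∀ m, n + m = q →
    {W : Matrix (Q.ι n) (P.ι m) R // F7c_good P Q n m W}
  have hstep : ∀ n (s : T n) m (h : n + 1 + m = q), ∃ W' : Matrix (Q.ι (n + 1)) (P.ι m) R,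
      F7c_good P Q (n + 1) m W' ∧ Q.D n * (s (m + 1) (by omega)).1 = W' * (P.D m)ᴴ :=
    fun n s m h => F7c_step (hPc m (by omega)) _ (s (m + 1) (by omega)).2
  choose F hF1 hF2 using hstep
  let s : ∀ n, T n := fun n => Nat.rec (motive := T)
    (fun m (h : 0 + m = q) => (show q = m by rw [← h, Nat.zero_add]) ▸
      (⟨W0, hW0⟩ : {W : Matrix (Q.ι 0) (P.ι q) R // F7c_good P Q 0 q W}))
    (fun n s m h => ⟨F n s m h, hF1 n s m h⟩) n
  refine ⟨fun n m h => (s n m h).1, rfl, fun n m h => (s n m h).2, fun n m h h' => ?_⟩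
  exact hF2 n (s n) m h

/-- the homotopy, from position `q` down to `0` -/
theorem F7c_down (hQc : ∀ l < q, Q.CoEx l) (W : ∀ n m, n + m = q → Matrix (Q.ι n) (P.ι m) R)
    (hW : ∀ n m (h : n + 1 + m = q) (h' : n + (m + 1) = q),
        Q.D n * W n (m + 1) h' = W (n + 1) m h * (P.D m)ᴴ) :
    ∀ n m (h : n + 1 + m = q), (∃ S : Matrix (Q.ι n) (P.ι m) R,
      ∀ a, (W (n + 1) m h - Q.D n * S) a ∈ P.bd m) →
      ∀ a, W 0 q (Nat.zero_add q) a ∈ P.bd q := by
  intro n
  induction n with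
  | zero =>
    rintro m h ⟨S, hS⟩ a
    obtain rfl : q = m + 1 := by omega
    have h1 : Q.D 0 * (W 0 (m + 1) (Nat.zero_add _) - S * (P.D m)ᴴ) = 0 := by
      rw [Matrix.mul_sub, hW 0 m h (Nat.zero_add _), ← Matrix.mul_assoc, ← Matrix.sub_mul]
      funext i
      have := F7c_bd_cy (hS i)
      rw [F7c_vecMul_row] at this
      exact this
    have h2 : ∀ j, (fun i => (W 0 (m + 1) (Nat.zero_add _) - S * (P.D m)ᴴ) i j) = 0 := by
      intro j
      refine hQc 0 (Nat.succ_pos m) _ ?_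
      rw [F7c_mulVec_col, h1]
      rfl
    refine ⟨S a, ?_⟩
    rw [F7c_vecMul_row]
    funext j
    have h3 := congrFun (h2 j) a
    have h4 : W 0 (m + 1) (Nat.zero_add _) a j - (S * (P.D m)ᴴ) a j = 0 := h3
    exact (sub_eq_zero.mp h4).symm
  | succ n ih =>
    rintro m h ⟨S, hS⟩ a
    refine ih (m + 1) (by omega) ?_ a
    have h1 : Q.D (n + 1) * (W (n + 1) (m + 1) (by omega) - S * (P.D m)ᴴ) = 0 := by
      rw [Matrix.mul_sub, hW (n + 1) m h (by omega), ← Matrix.mul_assoc, ← Matrix.sub_mul]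
      funext i
      have := F7c_bd_cy (hS i)
      rw [F7c_vecMul_row] at this
      exact this
    have h2 : ∀ j, ∃ c : Q.ι n → R, Q.D n *ᵥ c =
        (fun i => (W (n + 1) (m + 1) (by omega) - S * (P.D m)ᴴ) i j) := by
      intro j
      refine hQc (n + 1) (by omega) _ ?_
      rw [F7c_mulVec_col, h1]
      rfl
    choose c hc using h2
    refine ⟨Matrix.of fun i j => c j i, fun i => ⟨S i, ?_⟩⟩
    rw [F7c_vecMul_row]
    funext j
    have h3 := congrFun (hc j) i
    have h4 : (Q.D n * Matrix.of fun i j => c j i) i j = (Q.D n *ᵥ c j) i := rfl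
    have h5 : (W (n + 1) (m + 1) (by omega) - Q.D n * Matrix.of fun i j => c j i) i j =
        W (n + 1) (m + 1) (by omega) i j - (Q.D n * Matrix.of fun i j => c j i) i j := rfl
    rw [h5, h4, h3]
    show _ = W (n + 1) (m + 1) (by omega) i j -
      (W (n + 1) (m + 1) (by omega) i j - (S * (P.D m)ᴴ) i j)
    rw [sub_sub_cancel]

theorem F7c_rel_Dg (W : ∀ n m, n + m = q → Matrix (Q.ι n) (P.ι m) R)
    (hW : ∀ n m (h : n + 1 + m = q) (h' : n + (m + 1) = q),
        Q.D n * W n (m + 1) h' = W (n + 1) m h * (P.D m)ᴴ) {n' n m : ℕ} (hn : n' = n + 1)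
    (h : n' + m = q) (h' : n + (m + 1) = q) :
    Q.Dg n' n hn * W n (m + 1) h' = W n' m h * (P.D m)ᴴ := by
  subst hn
  exact hW n m h h'

/-- the dual chain map `P → Q^*` (reversed) -/
def F7c_Z (W : ∀ n m, n + m = q → Matrix (Q.ι n) (P.ι m) R)
    (hW : ∀ n m (h : n + 1 + m = q) (h' : n + (m + 1) = q),
        Q.D n * W n (m + 1) h' = W (n + 1) m h * (P.D m)ᴴ)
    (hW0 : W 0 q (Nat.zero_add q) * (P.D q)ᴴ = 0) : ChM P (Q.rev q) where
  U k := fun a b => star (W (q - k) k (by have := b.2; omega) b.1 a)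
  comm k := by
    ext a b
    rw [mul_apply, mul_apply]
    have hb := b.2
    have hR : (∑ j : P.ι k, P.D k a j * star (W (q - k) k (by omega) b.1 j)) =
        star ((W (q - k) k (by omega) * (P.D k)ᴴ) b.1 a) := by
      rw [mul_apply, star_sum]
      refine Finset.sum_congr rfl fun j _ => ?_
      rw [conjTranspose_apply, star_mul, star_star]
    refine Eq.trans ?_ hR.symm
    by_cases hk : k + 1 ≤ q
    · have h2 : q - k = q - (k + 1) + 1 := by omega
      have hL : (∑ c : Q.revι q (k + 1), star (W (q - (k + 1)) (k + 1) (by omega) c.1 a) *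
          star (Q.Dg (q - k) (q - (k + 1)) h2 b.1 c.1)) =
          ∑ c : Q.ι (q - (k + 1)), star (W (q - (k + 1)) (k + 1) (by omega) c a) *
            star (Q.Dg (q - k) (q - (k + 1)) h2 b.1 c) :=
        Fintype.sum_equiv (Equiv.subtypeUnivEquiv fun _ => hk) _ _ fun _ => rfl
      refine hL.trans ?_
      rw [← F7c_rel_Dg W hW h2 (by omega) (by omega), mul_apply, star_sum]
      refine Finset.sum_congr rfl fun c _ => ?_
      rw [star_mul]
    · have hq : k = q := by omega
      have : IsEmpty ((Q.rev q).ι (k + 1)) := ⟨fun c => by have := c.2; omega⟩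
      rw [Finset.sum_of_isEmpty]
      subst hq
      have h0 : ∀ n (hn : n = 0) (h : n + k = k) (x : Q.ι n), (W n k h * (P.D k)ᴴ) x a = 0 := by
        rintro n rfl h x
        rw [hW0]
        rfl
      rw [h0 _ (Nat.sub_self k), star_zero]

theorem functional_core {P Q : RC R} {q : ℕ} (_hP : ∀ k, P.Ex k)
    (hPc : ∀ l < q, P.CoEx l) (D : Submodule R (P.E q)) (r : Res Q D)
    (hQc : ∀ l < q, Q.CoEx l) :
    ∃ (C : RC R) (Z : ChM P C), (∀ k, C.Ex k) ∧ IsEmpty (C.ι (q + 1)) ∧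
      ((∃ H : Matrix (P.ι 0) (C.ι 1) R, Z.U 0 = H * C.D 0) → D = ⊥) := by
  classical
  -- representatives of the generators
  have h0 : ∀ a : Q.ι 0, ∃ x : P.cy q, (Submodule.Quotient.mk x : P.E q) =
      (r.ε (Pi.single a 1) : P.E q) := fun a => Submodule.Quotient.mk_surjective _ _
  choose ξ hξ using h0
  let W0 : Matrix (Q.ι 0) (P.ι q) R := fun a => (ξ a).1
  have hε : ∀ x : Q.ι 0 → R, ∃ y : P.cy q, (y : P.ι q → R) = x ᵥ* W0 ∧
      (Submodule.Quotient.mk y : P.E q) = (r.ε x : P.E q) := by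
    intro x
    refine ⟨∑ a, x a • ξ a, ?_, ?_⟩
    · rw [AddSubmonoidClass.coe_finsetSum, vecMul_eq_sum]
      rfl
    · have e1 : x = ∑ a, x a • (Pi.single a 1 : Q.ι 0 → R) := by
        funext j
        simp [Finset.sum_apply, Pi.single_apply]
      have e2 : (Submodule.Quotient.mk (∑ a, x a • ξ a) : P.E q) =
          ∑ a, x a • (Submodule.Quotient.mk (ξ a) : P.E q) :=
        map_sum (Submodule.mkQ ((P.bd q).comap (P.cy q).subtype)) _ _
      have e3 : r.ε x = ∑ a, x a • r.ε (Pi.single a 1) := by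
        conv_lhs => rw [e1]
        rw [map_sum]
        simp only [map_smul]
      rw [e2, e3, AddSubmonoidClass.coe_finsetSum]
      refine Finset.sum_congr rfl fun a _ => ?_
      rw [hξ]
      rfl
  have hbd : ∀ y : P.cy q, (Submodule.Quotient.mk y : P.E q) = 0 ↔ (y : P.ι q → R) ∈ P.bd q := by
    intro y
    rw [Submodule.Quotient.mk_eq_zero]
    rfl
  have hgood : F7c_good P Q 0 q W0 := by
    intro a
    obtain ⟨y, hy1, hy2⟩ := hε (Q.D 0 a)
    have hz : r.ε (Q.D 0 a) = 0 := by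
      have := r.zero (Pi.single a 1)
      rwa [single_one_vecMul] at this
    rw [hz, Submodule.coe_zero, hbd, hy1] at hy2
    exact hy2
  obtain ⟨W, hWW0, -, hW⟩ := F7c_exists_W hPc W0 hgood
  have hcy : W 0 q (Nat.zero_add q) * (P.D q)ᴴ = 0 := by
    rw [hWW0]
    funext a
    exact (ξ a).2
  refine ⟨Q.rev q, F7c_Z W hW hcy, Q.rev_ex q hQc, Q.rev_empty q, ?_⟩
  rintro ⟨H, hH⟩
  -- the values of `W q 0`
  have hfin : ∀ a, W 0 q (Nat.zero_add q) a ∈ P.bd q := by
    have hZ : ∀ (a : P.ι 0) (b : Q.revι q 0), star (W (q - 0) 0 (by omega) b.1 a) =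
        (H * (Q.rev q).D 0) a b := fun a b => congrFun (congrFun hH a) b
    rcases q with _ | q
    · intro a
      have : IsEmpty ((Q.rev 0).ι 1) := ⟨fun c => by have := c.2; omega⟩
      rw [F7c_bd0]
      funext j
      have h1 := hZ j ⟨a, le_rfl⟩
      rw [mul_apply, Finset.sum_of_isEmpty] at h1
      exact star_eq_zero.mp h1
    · let Sm : Matrix (Q.ι q) (P.ι 0) R := fun b a => star (H a ⟨b, by omega⟩)
      refine F7c_down hQc W hW q 0 rfl ⟨Sm, ?_⟩
      intro a
      rw [F7c_bd0]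
      funext j
      have h1 := hZ j ⟨a, by omega⟩
      rw [mul_apply] at h1
      have h2 : (∑ c : Q.revι (q + 1) 1, H j c * star (Q.Dg (q + 1 - 0) (q + 1 - 1) rfl a c.1)) =
          ∑ c : Q.ι q, H j ⟨c, by omega⟩ * star (Q.D q a c) :=
        Fintype.sum_equiv (Equiv.subtypeUnivEquiv fun _ => by omega) _ _ fun _ => rfl
      have h3 := congrArg star (h1.trans h2)
      rw [star_star, star_sum] at h3
      show W (q + 1) 0 (by omega) a j - (Q.D q * Sm) a j = 0
      rw [sub_eq_zero, mul_apply]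
      refine h3.trans (Finset.sum_congr rfl fun c _ => ?_)
      rw [star_mul, star_star]
  rw [hWW0] at hfin
  rw [eq_bot_iff]
  intro d hd
  obtain ⟨x, hx⟩ := r.surj ⟨d, hd⟩
  obtain ⟨y, hy1, hy2⟩ := hε x
  rw [hx] at hy2
  have h1 : (y : P.ι q → R) ∈ P.bd q := by
    rw [hy1, vecMul_eq_sum]
    exact Submodule.sum_mem _ fun a _ => Submodule.smul_mem _ _ (hfin a)
  rw [← hbd, hy2] at h1
  exact h1

end core

end star

end Pool.Agent.UP
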