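import Mathlib
import Pool.Agent.Lib.UP.U1
import Pool.Agent.Lib.UP.U2
import Pool.Agent.Lib.UP.Defs4
import Pool.Agent.Lib.UP.F2
import Pool.Agent.Lib.UP.F3
import Pool.Agent.Lib.UP.F4a
import Pool.Agent.Lib.UP.F4b
import Pool.Agent.Lib.UP.F5a
import Pool.Agent.Lib.UP.F5b
import Pool.Agent.Lib.UP.F7c

/-!
# TANK UP, stage 2, row F8c: (GAMMA) for `S = R * F`
-/

set_option autoImplicit false

open CategoryTheory

namespace Pool.Agent.UP

universe u

/-- (GAMMA) -/
theorem arfF {X : Type} [Fintype X] [DecidableEq X] {R S : Type u} [Ring R] [StarRing R] [Ring S]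
    [StarRing S] [IsNoetherianRing R] (L : SkFS X R S) (h : AR R) : ARF S := by
  have hc : CohT S := cohF L.toSkF
  intro T hT q K hK P rP ξ hξ
  have hfpE := fp_E hc T (q + 1)
  have hfpK : Module.FinitePresentation S K := fp_submodule hc K hK
  let m0 : Module R (T.E (q + 1)) := Module.compHom _ L.iota
  let m1 : Module R K := Module.compHom _ L.iota
  have hKloc : Loc R q K := by
    let j : K →ₗ[R] T.E (q + 1) :=
      { toFun := K.subtype
        map_add' := map_add K.subtype
        map_smul' := fun r x => K.subtype.map_smul (L.iota r) x }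
    exact Loc.of_injective j Subtype.val_injective (alphaF L h T hT q)
  have hPc : ∀ l < q, P.CoEx l := (ge_iff rP q).1 (claim1F L.toSkF (fun _ _ => rfl) hKloc)
  obtain ⟨T0, f, hT0, _, hf⟩ := embF L h (fun _ _ => rfl) hKloc rP
  let ξ' : P.E q := Submodule.Quotient.mk ⟨ξ, hξ⟩
  let D : Submodule S (P.E q) := Submodule.span S {ξ'}
  have hfpD : Module.FinitePresentation S D := by
    have := fp_E hc P q
    exact fp_submodule hc D (Submodule.fg_span_singleton _)
  let m2 : Module R D := Module.compHom _ L.iota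
  let m3 : Module R ((T0.map L.iota).E q) := Module.compHom _ L.iota
  have hDloc : Loc R q D := by
    let j : D →ₗ[R] (T0.map L.iota).E q :=
      { toFun := f.comp D.subtype
        map_add' := map_add (f.comp D.subtype)
        map_smul' := fun r x => (f.comp D.subtype).map_smul (L.iota r) x }
    exact Loc.of_injective j (hf.comp Subtype.val_injective) (loc_mapF L T0 (h T0 hT0 q))
  obtain ⟨Q, ⟨rQ⟩⟩ := exists_res_coh hc D
  have hQc : ∀ l < q, Q.CoEx l := (ge_iff rQ q).1 (claim1F L.toSkF (fun _ _ => rfl) hDloc)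
  obtain ⟨C, Z, hC, hCe, hZ⟩ := functional_core rP.ex hPc D rQ hQc
  refine ⟨C, Z, hC, hCe, fun hH => ?_⟩
  have hD := hZ hH
  have h1 : ξ' ∈ D := Submodule.mem_span_singleton_self _
  rw [hD, Submodule.mem_bot] at h1
  have h2 : (⟨ξ, hξ⟩ : P.cy q) ∈ (P.bd q).comap (P.cy q).subtype :=
    (Submodule.Quotient.mk_eq_zero _).1 h1
  exact h2

end Pool.Agent.UP
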