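import Mathlib
import Pool.Agent.Lib.UP.F5a
import Pool.Agent.Lib.UP.F6a
import Pool.Agent.Lib.UP.F8a
import Pool.Agent.Lib.UP.F8b
import Pool.Agent.Lib.UP.F8c

/-!
# TANK UP, stage 2: the ring theory of `S = R * F`, `F` free of finite rank
-/

set_option autoImplicit false

namespace Pool.Agent.UP

universe u

/-- the ring-theoretic facts in terms of free resolutions -/
structure RC4 (R : Type u) [Ring R] [StarRing R] (g : ℕ) : Prop where
  coh : CohT R
  ar1 : AR1 R
  arw : ARW R
  arf : ARF R
  fl : FL R g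

/-- the facts for `R * F` -/
theorem rc4_of {X : Type} [Fintype X] [DecidableEq X] {R S : Type u} [Ring R] [StarRing R]
    [Ring S] [StarRing S] [IsNoetherianRing R] (L : SkFS X R S) (h : AR R) {g : ℕ}
    (hg : FL R g) : RC4 S (g + 1) :=
  ⟨cohF L.toSkF, ar1F L h, arwF L h, arfF L h, fl_stepF L.toSkF hg⟩

end Pool.Agent.UP
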