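import Mathlib
import Pool.Agent.Lib.UP.Defs

/-!
# TANK UP, row U13a: the base ring of the induction

`fl_pid`: a principal ideal domain satisfies `FL A 0`; `ar_base`: a noetherian domain with `FL A 0`
satisfies the Auslander condition: `Ext^1` is torsion and `Ext^p = 0` for `p ≥ 2`.
-/

open MonoidAlgebra CategoryTheory

namespace Pool.Agent.UP

universe u v w w'

private theorem U13a_exists_matrix {R : Type u} [Ring R] {ι κ : Type} [Fintype ι] [DecidableEq ι]
    [Fintype κ] (φ : (ι → R) →ₗ[R] (κ → R)) :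
    ∃ M : Matrix ι κ R, ∀ x, Matrix.vecMul x M = φ x := by
  refine ⟨Matrix.of fun i => φ (Pi.single i 1), fun x => ?_⟩
  have hx : x = ∑ i, x i • (Pi.single i 1 : ι → R) := by
    funext j
    simp [Finset.sum_apply, Pi.single_apply]
  conv_rhs => rw [hx, map_sum]
  funext j
  simp only [Matrix.vecMul, dotProduct, Matrix.of_apply, map_smul, Finset.sum_apply, Pi.smul_apply,
    smul_eq_mul]

theorem fl_pid {A : Type u} [CommRing A] [IsDomain A] [IsPrincipalIdealRing A] : FL A 0 := by
  intro T _
  have hfree : Module.Free A (LinearMap.range (Matrix.vecMulLinear (T.D 0))) := inferInstance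
  obtain ⟨s, hs⟩ := Module.projective_lifting_property
    (Matrix.vecMulLinear (T.D 0)).rangeRestrict
    (LinearMap.id : LinearMap.range (Matrix.vecMulLinear (T.D 0)) →ₗ[A] _)
    (LinearMap.surjective_rangeRestrict _)
  obtain ⟨M, hM⟩ := U13a_exists_matrix (s.comp (Matrix.vecMulLinear (T.D 0)).rangeRestrict)
  have hs' : ∀ x, Matrix.vecMul (s x) (T.D 0) = x := by
    intro x
    have := congrArg Subtype.val (LinearMap.congr_fun hs x)
    simpa using this
  refine ⟨M, ?_, ?_⟩
  · apply Matrix.ext_of_single_vecMul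
    intro i
    rw [← Matrix.vecMul_vecMul, hM]
    exact hs' _
  · apply Matrix.ext_of_single_vecMul
    intro i
    rw [← Matrix.vecMul_vecMul, hM]
    have h0 : (Matrix.vecMulLinear (T.D 0)).rangeRestrict
        (Matrix.vecMul (Pi.single i 1) (T.D (0 + 1))) = 0 := by
      apply Subtype.ext
      change Matrix.vecMul (Matrix.vecMul (Pi.single i 1) (T.D (0 + 1))) (T.D 0) = 0
      rw [Matrix.vecMul_vecMul, T.DD, Matrix.vecMul_zero]
    rw [LinearMap.comp_apply, h0, map_zero, Matrix.vecMul_zero]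

/-- rows killed by `D k` are combinations of the rows of `D (k + 1)` -/
theorem U13a_factor {R : Type u} [Ring R] {T : RC R} {k : ℕ} (h : T.Ex k) {c : Type}
    (X : Matrix c (T.ι (k + 1)) R) (hX : X * T.D k = 0) :
    ∃ Y : Matrix c (T.ι (k + 2)) R, X = Y * T.D (k + 1) := by
  have h1 : ∀ i, ∃ y, Matrix.vecMul y (T.D (k + 1)) = X i := by
    intro i
    apply h
    have := congrFun hX i
    rw [Matrix.mul_apply_eq_vecMul] at this
    exact this
  choose Y hY using h1
  refine ⟨Matrix.of Y, ?_⟩
  funext i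
  rw [Matrix.mul_apply_eq_vecMul]
  exact (hY i).symm

theorem U13a_split {R : Type u} [Ring R] (h : FL R 0) (T : RC R) (hT : ∀ k, T.Ex k) (k : ℕ) :
    ∃ H : Matrix (T.ι (k + 1)) (T.ι (k + 2)) R, T.D (k + 1) * H * T.D (k + 1) = T.D (k + 1) := by
  induction k with
  | zero =>
    obtain ⟨N, h1, h2⟩ := h T hT
    obtain ⟨H, hH⟩ := U13a_factor (hT 0) (1 - N) (by rw [Matrix.sub_mul, Matrix.one_mul, h1, sub_self])
    refine ⟨H, ?_⟩
    rw [Matrix.mul_assoc, ← hH, Matrix.mul_sub, Matrix.mul_one, h2, sub_zero]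
  | succ k ih =>
    obtain ⟨H, hH⟩ := ih
    obtain ⟨H', hH'⟩ := U13a_factor (hT (k + 1)) (1 - T.D (k + 1) * H)
      (by rw [Matrix.sub_mul, Matrix.one_mul, hH, sub_self])
    refine ⟨H', ?_⟩
    rw [Matrix.mul_assoc, ← hH', Matrix.mul_sub, Matrix.mul_one, ← Matrix.mul_assoc, T.DD,
      Matrix.zero_mul, sub_zero]

/-- the dual complex is exact at the positions `≥ 2` -/
theorem U13a_coex {R : Type u} [Ring R] (h : FL R 0) (T : RC R) (hT : ∀ k, T.Ex k) (k : ℕ) :
    T.CoEx (k + 2) := by
  intro y hy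
  obtain ⟨H, hH⟩ := U13a_split h T hT k
  obtain ⟨H', hH'⟩ := U13a_factor (hT (k + 1)) (1 - T.D (k + 1) * H)
    (by rw [Matrix.sub_mul, Matrix.one_mul, hH, sub_self])
  refine ⟨Matrix.mulVec H y, ?_⟩
  have h1 : Matrix.mulVec (1 - T.D (k + 1) * H) y = 0 := by
    rw [hH', ← Matrix.mulVec_mulVec, hy, Matrix.mulVec_zero]
  rw [Matrix.sub_mulVec, Matrix.one_mulVec, sub_eq_zero] at h1
  rw [Matrix.mulVec_mulVec]
  exact h1.symm

/-- columns and rows by the involution -/
theorem U13a_star {R : Type u} [Ring R] [StarRing R] {m n : Type} [Fintype m] [Fintype n]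
    (D : Matrix m n R) (x : n → R) :
    star (Matrix.vecMul x D.conjTranspose) = Matrix.mulVec D (star x) := by
  rw [Matrix.star_vecMul, Matrix.conjTranspose_conjTranspose]

theorem U13a_E_two {R : Type u} [Ring R] [StarRing R] (h : FL R 0) (T : RC R) (hT : ∀ k, T.Ex k)
    (k : ℕ) : Subsingleton (T.E (k + 2)) := by
  rw [Submodule.Quotient.subsingleton_iff, eq_top_iff]
  rintro ⟨x, hx⟩ -
  change x ∈ T.bd (k + 2)
  have hx' : Matrix.mulVec (T.D (k + 2)) (star x) = 0 := by
    rw [← U13a_star, show Matrix.vecMul x (T.D (k + 2)).conjTranspose = 0 from hx, star_zero]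
  obtain ⟨z, hz⟩ := U13a_coex h T hT k (star x) hx'
  refine ⟨star z, ?_⟩
  apply star_injective
  rw [U13a_star, star_star, hz]

/-- cocycles at position 1 are torsion modulo coboundaries -/
theorem U13a_tors {A : Type u} [CommRing A] [IsDomain A] {T : RC A} (hT : T.Ex 0) (y : T.ι 1 → A)
    (hy : Matrix.mulVec (T.D 1) y = 0) :
    ∃ a : A, a ≠ 0 ∧ ∃ w, Matrix.mulVec (T.D 0) w = a • y := by
  let K := FractionRing A
  let f : A →+* K := algebraMap A K
  have hf : Function.Injective f := IsFractionRing.injective A K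
  have hmv : ∀ (v : T.ι 0 → A), (fun i => f (Matrix.mulVec (T.D 0) v i)) =
      Matrix.mulVec ((T.D 0).map f) (fun j => f (v j)) := by
    intro v
    funext i
    simp only [Matrix.mulVec, dotProduct, map_sum, map_mul, Matrix.map_apply]
  have hyK : (fun i => f (y i)) ∈ LinearMap.range (Matrix.mulVecLin ((T.D 0).map f)) := by
    by_contra hcon
    obtain ⟨φ, hφ1, hφ2⟩ := Submodule.exists_le_ker_of_notMem hcon
    obtain ⟨b, hb⟩ := IsLocalization.exist_integer_multiples_of_finite (nonZeroDivisors A)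
      (fun i => φ (Pi.single i 1))
    choose x hx using hb
    have hb0 : (b : A) ≠ 0 := nonZeroDivisors.coe_ne_zero b
    have hφ : ∀ v : T.ι 1 → K, φ v = ∑ i, v i * φ (Pi.single i 1) := by
      intro v
      have hv : v = ∑ i, v i • (Pi.single i 1 : T.ι 1 → K) := by
        funext j
        simp [Finset.sum_apply, Pi.single_apply]
      conv_lhs => rw [hv, map_sum]
      simp only [map_smul, smul_eq_mul]
    have hx' : ∀ i, f (x i) = f b * φ (Pi.single i 1) := by
      intro i
      have := hx i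
      rw [Algebra.smul_def] at this
      exact this
    have hxD : Matrix.vecMul x (T.D 0) = 0 := by
      funext j
      apply hf
      have h1 : φ (Matrix.mulVec ((T.D 0).map f) (Pi.single j 1)) = 0 := hφ2 ⟨_, rfl⟩
      rw [hφ] at h1
      simp only [Matrix.vecMul, dotProduct, map_sum, map_mul, hx', Pi.zero_apply, map_zero]
      have h2 : ∀ i, f b * φ (Pi.single i 1) * f (T.D 0 i j) =
          f b * (Matrix.mulVec ((T.D 0).map f) (Pi.single j 1) i * φ (Pi.single i 1)) := by
        intro i
        rw [Matrix.mulVec_single_one]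
        simp only [Matrix.col_apply, Matrix.map_apply]
        ring
      rw [Finset.sum_congr rfl fun i _ => h2 i, ← Finset.mul_sum, h1, mul_zero]
    obtain ⟨z, hz⟩ := hT x hxD
    apply hφ1
    have h3 : f b * φ (fun i => f (y i)) = 0 := by
      rw [hφ, Finset.mul_sum]
      have h4 : ∀ i, f b * (f (y i) * φ (Pi.single i 1)) = f (x i * y i) := by
        intro i
        rw [map_mul, hx']
        ring
      rw [Finset.sum_congr rfl fun i _ => h4 i, ← map_sum]
      have h5 : ∑ i, x i * y i = dotProduct x y := rfl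
      rw [h5, ← hz, ← Matrix.dotProduct_mulVec]
      rw [show Matrix.mulVec (T.D (0 + 1)) y = 0 from hy, dotProduct_zero, map_zero]
    have h6 : f b ≠ 0 := by
      intro h
      exact hb0 (hf (h.trans (map_zero f).symm))
    exact (mul_eq_zero.mp h3).resolve_left h6
  obtain ⟨w, hw⟩ := hyK
  obtain ⟨b, hb⟩ := IsLocalization.exist_integer_multiples_of_finite (nonZeroDivisors A) w
  choose w' hw' using hb
  refine ⟨b, nonZeroDivisors.coe_ne_zero b, w', ?_⟩
  funext i
  apply hf
  have h1 := congrFun (hmv w') i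
  have h2 : (fun j => f (w' j)) = f b • w := by
    funext j
    have := hw' j
    rw [Algebra.smul_def] at this
    exact this
  rw [h2, Matrix.mulVec_smul] at h1
  have h3 := congrFun hw i
  rw [Matrix.mulVecLin_apply] at h3
  rw [h1, Pi.smul_apply, h3, Pi.smul_apply, smul_eq_mul, smul_eq_mul, map_mul]

theorem U13a_E_one {A : Type u} [CommRing A] [IsDomain A] [StarRing A] (T : RC A)
    (hT : ∀ k, T.Ex k) (x : T.E 1) : ∃ a : A, a ≠ 0 ∧ a • x = 0 := by
  obtain ⟨⟨x, hx⟩, rfl⟩ := Submodule.Quotient.mk_surjective _ x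
  have hx' : Matrix.mulVec (T.D 1) (star x) = 0 := by
    rw [← U13a_star, show Matrix.vecMul x (T.D 1).conjTranspose = 0 from hx, star_zero]
  obtain ⟨a, ha, w, hw⟩ := U13a_tors (hT 0) (star x) hx'
  refine ⟨star a, (star_ne_zero).mpr ha, ?_⟩
  rw [← Submodule.Quotient.mk_smul, Submodule.Quotient.mk_eq_zero]
  change star a • x ∈ T.bd 1
  refine ⟨star w, ?_⟩
  apply star_injective
  rw [U13a_star, star_star, hw]
  funext i
  simp [mul_comm]

theorem U13a_hom_zero {A : Type u} [CommRing A] [IsDomain A] {M : Type v} [AddCommGroup M]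
    [Module A M] (h : ∀ x : M, ∃ a : A, a ≠ 0 ∧ a • x = 0) (φ : M →ₗ[A] A) : φ = 0 := by
  ext x
  obtain ⟨a, ha, hx⟩ := h x
  have h1 : a * φ x = 0 := by
    rw [← smul_eq_mul, ← map_smul, hx, map_zero]
  exact (mul_eq_zero.mp h1).resolve_left ha

theorem U13a_ge_one {A : Type u} [CommRing A] [IsDomain A] {M : Type u} [AddCommGroup M]
    [Module A M] (h : ∀ x : M, ∃ a : A, a ≠ 0 ∧ a • x = 0) : GE A 1 M := by
  intro l hl
  obtain rfl : l = 0 := by omega
  have h1 : Subsingleton (ModuleCat.of A M ⟶ ModuleCat.of A A) := by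
    refine ⟨fun f g => ?_⟩
    apply ModuleCat.hom_ext
    rw [U13a_hom_zero h f.hom, U13a_hom_zero h g.hom]
  exact Equiv.subsingleton Abelian.Ext.homEquiv₀

theorem U13a_ge_subsingleton {R : Type u} [Ring R] {M : Type u} [AddCommGroup M]
    [Module R M] [Subsingleton M] (p : ℕ) : GE R p M := by
  intro l _
  rcases l with _ | l
  · have h1 : Subsingleton (ModuleCat.of R M ⟶ ModuleCat.of R R) := by
      refine ⟨fun f g => ?_⟩
      apply ModuleCat.hom_ext
      apply LinearMap.ext
      intro x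
      rw [show x = 0 from Subsingleton.elim (α := M) x 0, map_zero, map_zero]
    exact Equiv.subsingleton Abelian.Ext.homEquiv₀
  · have h2 : Module.Projective R M := inferInstance
    have h1 : Projective (ModuleCat.of R M) := (IsProjective.iff_projective M).mp h2
    exact ⟨fun a b => by
      rw [Abelian.Ext.eq_zero_of_projective a, Abelian.Ext.eq_zero_of_projective b]⟩

theorem ar_base {A : Type u} [CommRing A] [IsDomain A] [StarRing A] [IsNoetherianRing A]
    (h : FL A 0) : AR A := by
  intro T hT p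
  rcases p with _ | _ | p
  · intro N _ l hl
    exact absurd hl (Nat.not_lt_zero l)
  · intro N _
    apply U13a_ge_one
    intro x
    obtain ⟨a, ha, hx⟩ := U13a_E_one T hT x.1
    exact ⟨a, ha, Subtype.ext hx⟩
  · intro N _
    have := U13a_E_two h T hT p
    exact U13a_ge_subsingleton _

end Pool.Agent.UP
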