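import Mathlib
import Pool.Agent.Lib.UP.U2
import Pool.Agent.Lib.UP.TrDefs

/-!
TANK UP, row U14, part 1: the row spaces of a graded idempotent matrix; graded complexes as
projective resolutions.
-/

set_option autoImplicit false

open CategoryTheory CategoryTheory.Abelian
open scoped Matrix

namespace Pool.Agent.UP

universe u

section graded

variable {R : Type u} [Ring R] {K : Type} [Fintype K]

/-- the part of degree `j` -/
def cut (deg : K → ℤ) (j : ℤ) : (K → R) →ₗ[R] (K → R) where
  toFun x k := if deg k = j then x k else 0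
  map_add' x y := by funext k; by_cases h : deg k = j <;> simp [h]
  map_smul' r x := by funext k; by_cases h : deg k = j <;> simp [h]

theorem cut_apply (deg : K → ℤ) (j : ℤ) (x : K → R) (k : K) :
    cut deg j x k = if deg k = j then x k else 0 := rfl

theorem cut_eq {deg : K → ℤ} {j : ℤ} {x : K → R} (hx : ∀ k, x k ≠ 0 → deg k = j) :
    cut deg j x = x := by
  funext k
  rw [cut_apply]
  split_ifs with h
  · rfl
  · by_contra h2
    exact h (hx k fun h3 => h2 h3.symm)

theorem cut_supp (deg : K → ℤ) (j : ℤ) (x : K → R) (k : K) (h : cut deg j x k ≠ 0) :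
    deg k = j := by
  rw [cut_apply] at h
  by_contra h2
  rw [if_neg h2] at h
  exact h rfl

/-- a matrix of degree `-s` shifts the parts -/
theorem cut_vecMul {deg : K → ℤ} {s : ℤ} {A : Matrix K K R}
    (hA : ∀ i j, A i j ≠ 0 → deg i = deg j + s) (j : ℤ) (x : K → R) :
    cut deg j (x ᵥ* A) = cut deg (j + s) x ᵥ* A := by
  funext k
  rw [cut_apply]
  simp only [Matrix.vecMul, dotProduct]
  split_ifs with h
  · refine Finset.sum_congr rfl fun i _ => ?_
    rw [cut_apply]
    split_ifs with h2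
    · rfl
    · rw [zero_mul]
      by_cases h3 : A i k = 0
      · rw [h3, mul_zero]
      · exact absurd (by rw [hA i k h3, h]) h2
  · symm
    refine Finset.sum_eq_zero fun i _ => ?_
    rw [cut_apply]
    split_ifs with h2
    · by_cases h3 : A i k = 0
      · rw [h3, mul_zero]
      · exact absurd (by have := hA i k h3; omega) h
    · rw [zero_mul]

theorem cut_vecMul_zero {deg : K → ℤ} {A : Matrix K K R}
    (hA : ∀ i j, A i j ≠ 0 → deg i = deg j) (j : ℤ) (x : K → R) :
    cut deg j (x ᵥ* A) = cut deg j x ᵥ* A := by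
  have h := cut_vecMul (deg := deg) (s := 0) (fun i j h => by rw [hA i j h, add_zero]) j x
  rwa [add_zero] at h

/-- the row space of an idempotent in degree `j` -/
def GV (deg : K → ℤ) (e : Matrix K K R) (j : ℤ) : Submodule R (K → R) where
  carrier := {x | (∀ k, x k ≠ 0 → deg k = j) ∧ x ᵥ* e = x}
  add_mem' := by
    rintro x y ⟨h1, h2⟩ ⟨h3, h4⟩
    refine ⟨fun k hk => ?_, by rw [Matrix.add_vecMul, h2, h4]⟩
    by_contra hcon
    have h5 : x k = 0 := by by_contra h; exact hcon (h1 k h)
    have h6 : y k = 0 := by by_contra h; exact hcon (h3 k h)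
    exact hk (by rw [Pi.add_apply, h5, h6, add_zero])
  zero_mem' := ⟨fun k hk => absurd rfl hk, Matrix.zero_vecMul _⟩
  smul_mem' := by
    rintro r x ⟨h1, h2⟩
    refine ⟨fun k hk => h1 k fun h => hk (by rw [Pi.smul_apply, h, smul_zero]), ?_⟩
    rw [Matrix.smul_vecMul, h2]

theorem mem_GV {deg : K → ℤ} {e : Matrix K K R} {j : ℤ} {x : K → R} :
    x ∈ GV deg e j ↔ (∀ k, x k ≠ 0 → deg k = j) ∧ x ᵥ* e = x := Iff.rfl

/-- the idempotent data -/
structure GI (deg : K → ℤ) (e : Matrix K K R) : Prop where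
  deg' : ∀ i j, e i j ≠ 0 → deg i = deg j
  ee : e * e = e

variable {deg : K → ℤ} {e : Matrix K K R}

/-- the projection to the row space -/
def GI.pr (h : GI deg e) (j : ℤ) : (K → R) →ₗ[R] GV deg e j :=
  LinearMap.codRestrict (GV deg e j) (e.vecMulLinear ∘ₗ cut deg j) fun x => by
    refine ⟨fun k hk => ?_, ?_⟩
    · change (cut deg j x ᵥ* e) k ≠ 0 at hk
      rw [← cut_vecMul_zero h.deg'] at hk
      exact cut_supp deg j _ k hk
    · change (cut deg j x ᵥ* e) ᵥ* e = cut deg j x ᵥ* e
      rw [Matrix.vecMul_vecMul, h.ee]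

theorem GI.pr_coe (h : GI deg e) (j : ℤ) (x : K → R) :
    ((h.pr j x : GV deg e j) : K → R) = cut deg j x ᵥ* e := rfl

theorem GI.pr_self (h : GI deg e) (j : ℤ) (x : GV deg e j) : h.pr j x = x := by
  refine Subtype.ext ?_
  rw [h.pr_coe, cut_eq x.2.1]
  exact x.2.2

theorem GI.pr_surj (h : GI deg e) (j : ℤ) : Function.Surjective (h.pr j) :=
  fun x => ⟨x, h.pr_self j x⟩

theorem GI.projective (h : GI deg e) (j : ℤ) : Module.Projective R (GV deg e j) :=
  Module.Projective.of_split (GV deg e j).subtype (h.pr j) (LinearMap.ext fun x => h.pr_self j x)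

theorem GI.finite (h : GI deg e) (j : ℤ) : Module.Finite R (GV deg e j) :=
  Module.Finite.of_surjective (h.pr j) (h.pr_surj j)

/-- functionals on the row space are columns -/
theorem GI.fun_surj [DecidableEq K] (h : GI deg e) (j : ℤ) (f : GV deg e j →ₗ[R] R) :
    ∃ c : K → R, (∀ k, c k ≠ 0 → deg k = j) ∧ e *ᵥ c = c ∧
      ∀ x : GV deg e j, f x = (x : K → R) ⬝ᵥ c := by
  obtain ⟨c, hc⟩ := dotF_surj (f ∘ₗ h.pr j)
  have hc' : ∀ x, x ⬝ᵥ c = f (h.pr j x) := fun x => LinearMap.congr_fun hc x
  have hci : ∀ i, c i = f (h.pr j (Pi.single i 1)) := by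
    intro i
    rw [← hc']
    simp
  refine ⟨c, fun k hk => ?_, ?_, fun x => ?_⟩
  · by_contra hcon
    apply hk
    rw [hci]
    have : h.pr j (Pi.single k 1) = 0 := by
      refine Subtype.ext ?_
      rw [h.pr_coe]
      have h0 : cut deg j (Pi.single k (1 : R)) = 0 := by
        funext i
        rw [cut_apply]
        split_ifs with h1
        · rw [Pi.single_apply, if_neg, Pi.zero_apply]
          rintro rfl
          exact hcon h1
        · rfl
      rw [h0, Matrix.zero_vecMul]
      rfl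
    rw [this, map_zero]
  · funext i
    have h1 : (e *ᵥ c) i = (Pi.single i 1 ᵥ* e) ⬝ᵥ c := by
      rw [Matrix.single_one_vecMul]
      rfl
    rw [h1, hc', hci]
    congr 1
    refine Subtype.ext ?_
    rw [h.pr_coe, h.pr_coe, cut_vecMul_zero h.deg', Matrix.vecMul_vecMul, h.ee]
  · rw [hc', h.pr_self]

theorem GI.fun_inj [DecidableEq K] (h : GI deg e) (j : ℤ) (c : K → R)
    (h1 : ∀ k, c k ≠ 0 → deg k = j) (h2 : e *ᵥ c = c)
    (h3 : ∀ x : GV deg e j, (x : K → R) ⬝ᵥ c = 0) : c = 0 := by
  funext i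
  by_cases hi : deg i = j
  · have h4 := h3 (h.pr j (Pi.single i 1))
    have h5 : cut deg j (Pi.single i (1 : R)) = Pi.single i 1 := by
      refine cut_eq fun k hk => ?_
      by_contra hcon
      apply hk
      rw [Pi.single_apply, if_neg]
      rintro rfl
      exact hcon hi
    rw [h.pr_coe, h5, Matrix.single_one_vecMul] at h4
    rw [← h2]
    exact h4
  · by_contra hcon
    exact hi (h1 i hcon)

end graded

section complex

variable {R : Type u} [Ring R] {K : Type} [Fintype K] {deg : K → ℤ} {e d : Matrix K K R}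

theorem IsCx.gi (h : IsCx deg e d) : GI deg e := ⟨h.e_deg, h.ee⟩

/-- the differential -/
def IsCx.dV (h : IsCx deg e d) {j j' : ℤ} (hj : j = j' + 1) : GV deg e j →ₗ[R] GV deg e j' :=
  LinearMap.codRestrict (GV deg e j') (d.vecMulLinear ∘ₗ (GV deg e j).subtype) fun x => by
    refine ⟨fun k hk => ?_, ?_⟩
    · change ((x : K → R) ᵥ* d) k ≠ 0 at hk
      by_contra hcon
      apply hk
      simp only [Matrix.vecMul, dotProduct]
      refine Finset.sum_eq_zero fun i _ => ?_
      by_cases h1 : (x : K → R) i = 0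
      · rw [h1, zero_mul]
      · by_cases h2 : d i k = 0
        · rw [h2, mul_zero]
        · have h3 := x.2.1 i h1
          have h4 := h.d_deg i k h2
          exact absurd (by omega) hcon
    · change ((x : K → R) ᵥ* d) ᵥ* e = (x : K → R) ᵥ* d
      rw [Matrix.vecMul_vecMul, h.de]

theorem IsCx.dV_coe (h : IsCx deg e d) {j j' : ℤ} (hj : j = j' + 1) (x : GV deg e j) :
    ((h.dV hj x : GV deg e j') : K → R) = (x : K → R) ᵥ* d := rfl

/-- boundaries have homogeneous preimages -/
theorem IsCx.pre (h : IsCx deg e d) {j j' : ℤ} (hj : j = j' + 1) (x : GV deg e j') (y : K → R)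
    (hy : y ᵥ* d = x) : ∃ z : GV deg e j, h.dV hj z = x := by
  refine ⟨h.gi.pr j y, Subtype.ext ?_⟩
  rw [h.dV_coe, h.gi.pr_coe, Matrix.vecMul_vecMul, h.ed]
  subst hj
  rw [← cut_vecMul h.d_deg, hy, cut_eq x.2.1]

/-- a graded complex, exact in the degrees `> a`, as a projective resolution -/
def IsCx.toPR (h : IsCx deg e d) (a : ℤ) {N : Type u} [AddCommGroup N] [Module R N]
    (ε : GV deg e a →ₗ[R] N) (hs : Function.Surjective ε)
    (hk : ∀ x : GV deg e a, ε x = 0 ↔ ∃ y : K → R, y ᵥ* d = x)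
    (hr : ∀ j, a < j → ∀ x : GV deg e j, (x : K → R) ᵥ* d = 0 → ∃ y : K → R, y ᵥ* d = x) :
    PR R N where
  X k := GV deg e (a + k)
  proj k := h.gi.projective _
  d k := h.dV (by push_cast; ring)
  e := ε ∘ₗ (LinearEquiv.ofEq (GV deg e (a + (0 : ℕ))) (GV deg e a) (by simp)).toLinearMap
  surj := by
    rw [LinearMap.coe_comp]
    exact hs.comp (LinearEquiv.surjective _)
  ex0 x := by
    rw [LinearMap.comp_apply, hk]
    constructor
    · rintro ⟨y, hy⟩
      exact h.pre _ x y hy
    · rintro ⟨y, rfl⟩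
      exact ⟨y, rfl⟩
  ex k x := by
    constructor
    · intro hx
      obtain ⟨y, hy⟩ := hr _ (by push_cast; omega) x (congrArg Subtype.val hx)
      exact h.pre _ x y hy
    · rintro ⟨y, rfl⟩
      refine Subtype.ext ?_
      rw [h.dV_coe, h.dV_coe, Matrix.vecMul_vecMul, h.dd, Matrix.vecMul_zero]
      rfl

end complex

end Pool.Agent.UP
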