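import Mathlib
import Pool.Agent.Lib.UP.U13a
import Pool.Agent.Lib.UP.U14G
import Pool.Agent.Lib.UP.U3a

/-!
# TANK UP, row U14, second half: `FL R g` gives finite global dimension in matrix form
-/

set_option autoImplicit false

open CategoryTheory CategoryTheory.Abelian
open scoped Matrix

namespace Pool.Agent.UP

universe u

section

variable {R : Type u} [Ring R]

theorem U14E_split {g : ℕ} (h : FL R g) (T : RC R) (hT : ∀ k, T.Ex k) (k : ℕ) (hk : g ≤ k) :
    ∃ H : Matrix (T.ι (k + 1)) (T.ι (k + 2)) R, T.D (k + 1) * H * T.D (k + 1) = T.D (k + 1) := by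
  induction k, hk using Nat.le_induction with
  | base =>
    obtain ⟨N, h1, h2⟩ := h T hT
    obtain ⟨H, hH⟩ := U13a_factor (hT g) (1 - N)
      (by rw [Matrix.sub_mul, Matrix.one_mul, h1, sub_self])
    refine ⟨H, ?_⟩
    rw [Matrix.mul_assoc, ← hH, Matrix.mul_sub, Matrix.mul_one, h2, sub_zero]
  | succ k _ ih =>
    obtain ⟨H, hH⟩ := ih
    obtain ⟨H', hH'⟩ := U13a_factor (hT (k + 1)) (1 - T.D (k + 1) * H)
      (by rw [Matrix.sub_mul, Matrix.one_mul, hH, sub_self])
    refine ⟨H', ?_⟩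
    rw [Matrix.mul_assoc, ← hH', Matrix.mul_sub, Matrix.mul_one, ← Matrix.mul_assoc, T.DD,
      Matrix.zero_mul, sub_zero]

/-- the dual complex is exact at the positions `≥ g + 2` -/
theorem U14E_coex {g : ℕ} (h : FL R g) (T : RC R) (hT : ∀ k, T.Ex k) (k : ℕ) (hk : g ≤ k) :
    T.CoEx (k + 2) := by
  intro y hy
  obtain ⟨H, hH⟩ := U14E_split h T hT k hk
  obtain ⟨H', hH'⟩ := U13a_factor (hT (k + 1)) (1 - T.D (k + 1) * H)
    (by rw [Matrix.sub_mul, Matrix.one_mul, hH, sub_self])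
  refine ⟨Matrix.mulVec H y, ?_⟩
  have h1 : Matrix.mulVec (1 - T.D (k + 1) * H) y = 0 := by
    rw [hH', ← Matrix.mulVec_mulVec, hy, Matrix.mulVec_zero]
  rw [Matrix.sub_mulVec, Matrix.one_mulVec, sub_eq_zero] at h1
  rw [Matrix.mulVec_mulVec]
  exact h1.symm

variable [StarRing R] {K : Type} [Fintype K] {deg : K → ℤ} {e d : Matrix K K R}

/-- the column complex as a row complex -/
theorem IsCx.starCx (h : IsCx deg e d) : IsCx (fun k => -deg k) eᴴ dᴴ where
  e_deg i j hij := by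
    have : e j i ≠ 0 := fun h0 => hij (by rw [Matrix.conjTranspose_apply, h0, star_zero])
    rw [h.e_deg j i this]
  d_deg i j hij := by
    have : d j i ≠ 0 := fun h0 => hij (by rw [Matrix.conjTranspose_apply, h0, star_zero])
    have := h.d_deg j i this
    omega
  ee := by rw [← Matrix.conjTranspose_mul, h.ee]
  ed := by rw [← Matrix.conjTranspose_mul, h.de]
  de := by rw [← Matrix.conjTranspose_mul, h.ed]
  dd := by rw [← Matrix.conjTranspose_mul, h.dd, Matrix.conjTranspose_zero]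

theorem IsCx.star_rowEx {j : ℤ} (hj : ColEx deg e d j)
    (x : GV (fun k => -deg k) eᴴ (-j)) (hx : (x : K → R) ᵥ* dᴴ = 0) :
    ∃ y : K → R, y ᵥ* dᴴ = x := by
  obtain ⟨z, hz⟩ := hj (Matrix.of fun k _ => star ((x : K → R) k)) (by
      intro k hk
      have : (x : K → R) k ≠ 0 := by
        intro h0
        apply hk
        rw [Matrix.of_apply, h0, star_zero]
      have h2 : -deg k = -j := x.2.1 k this
      omega) (by
      have h1 := congrArg star x.2.2
      rw [Matrix.star_vecMul, Matrix.conjTranspose_conjTranspose] at h1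
      ext k u
      exact congrFun h1 k) (by
      have h1 := congrArg star hx
      rw [Matrix.star_vecMul, Matrix.conjTranspose_conjTranspose, star_zero] at h1
      ext k u
      exact congrFun h1 k)
  refine ⟨star fun k => z k (), ?_⟩
  rw [← Matrix.star_mulVec]
  funext k
  have h1 : star ((x : K → R) k) = (d * z) k () := congrFun (congrFun hz k) ()
  have h2 : (star (d *ᵥ fun k => z k ())) k = star ((d * z) k ()) := rfl
  rw [h2, ← h1, star_star]

end

theorem endM_of_fl {R : Type u} [Ring R] [StarRing R] [IsNoetherianRing R] {g : ℕ}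
    (h : FL R g) : EndM R (g + 1) := by
  intro K _ _ deg e d i0 hcx hcol j hj x hx1 hx2 hx3
  obtain ⟨k, hk⟩ : ∃ k : ℕ, j = i0 - ((k + 1 + 1 : ℕ) : ℤ) := ⟨(i0 - j - 2).toNat, by
    push_cast; push_cast at hj; omega⟩
  have hgk : g ≤ k := by push_cast at hj hk; omega
  have hs := hcx.starCx
  let a : ℤ := -i0
  let B : Submodule R (GV (fun k => -deg k) eᴴ a) :=
    { carrier := {x | ∃ y : K → R, y ᵥ* dᴴ = x}
      add_mem' := by
        rintro x y ⟨u, hu⟩ ⟨v, hv⟩
        exact ⟨u + v, by rw [Matrix.add_vecMul, hu, hv]; rfl⟩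
      zero_mem' := ⟨0, Matrix.zero_vecMul _⟩
      smul_mem' := by
        rintro r x ⟨u, hu⟩
        exact ⟨r • u, by rw [Matrix.smul_vecMul, hu]; rfl⟩ }
  have hfin : Module.Finite R (GV (fun k => -deg k) eᴴ a) := hs.gi.finite a
  let P := hs.toPR a B.mkQ B.mkQ_surjective
    (fun x => by rw [Submodule.mkQ_apply, Submodule.Quotient.mk_eq_zero]; rfl)
    (fun j' hj' x hx => by
      obtain ⟨j'', rfl⟩ : ∃ j'', j' = -j'' := ⟨-j', by omega⟩
      exact IsCx.star_rowEx (hcol j'' (by omega)) x hx)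
  obtain ⟨T, ⟨rT⟩⟩ := exists_res (R := R) (GV (fun k => -deg k) eᴴ a ⧸ B)
  have hco := (rT.coEx_iff (k + 1 + 1)).1 (U14E_coex h T rT.ex k hgk)
  rw [P.subsingleton_succ_iff] at hco
  have hx2' : x () ᵥ* e = x () := congrFun hx2 ()
  have hx3' : x () ᵥ* d = 0 := congrFun hx3 ()
  have hes : eᴴ *ᵥ star (x ()) = star (x ()) := by rw [← Matrix.star_vecMul, hx2']
  have hds : dᴴ *ᵥ star (x ()) = 0 := by rw [← Matrix.star_vecMul, hx3', star_zero]
  obtain ⟨f, hf⟩ := hco ((dotF (star (x ()))) ∘ₗ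
    (GV (fun k => -deg k) eᴴ (a + ((k + 1 + 1 : ℕ) : ℤ))).subtype) (by
      apply LinearMap.ext
      intro (v : GV (fun k => -deg k) eᴴ (a + ((k + 1 + 1 + 1 : ℕ) : ℤ)))
      change ((v : K → R) ᵥ* dᴴ) ⬝ᵥ star (x ()) = 0
      rw [← Matrix.dotProduct_mulVec, hds, dotProduct_zero])
  obtain ⟨c, hc1, hc2, hc3⟩ := hs.gi.fun_surj (a + ((k + 1 : ℕ) : ℤ)) f
  have hkey : star (x ()) - dᴴ *ᵥ c = 0 := by
    apply hs.gi.fun_inj (a + ((k + 1 + 1 : ℕ) : ℤ))
    · intro i hi
      by_cases h1 : star (x ()) i = 0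
      · rw [Pi.sub_apply, h1, zero_sub] at hi
        have h2 : (dᴴ *ᵥ c) i ≠ 0 := fun h0 => hi (by rw [h0, neg_zero])
        obtain ⟨l, _, hl⟩ := Finset.exists_ne_zero_of_sum_ne_zero h2
        have h3 := hs.d_deg i l (left_ne_zero_of_mul hl)
        have h4 := hc1 l (right_ne_zero_of_mul hl)
        push_cast at h3 h4 ⊢
        omega
      · have h2 : x () i ≠ 0 := fun h0 => h1 (by rw [Pi.star_apply, h0, star_zero])
        have h3 := hx1 i h2
        rw [h3, hk]
        push_cast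
        simp only [a]
        ring
    · rw [Matrix.mulVec_sub, hes, Matrix.mulVec_mulVec, hs.ed]
    · intro v
      have h1 := LinearMap.congr_fun hf v
      have h2 : f (P.d (k + 1) v) = ((v : K → R) ᵥ* dᴴ) ⬝ᵥ c := hc3 _
      have h3 : (v : K → R) ⬝ᵥ star (x ()) = f (P.d (k + 1) v) := h1.symm
      rw [dotProduct_sub, h3, h2, Matrix.dotProduct_mulVec, sub_self]
  refine ⟨Matrix.of fun _ => star c, ?_⟩
  funext u
  rw [Matrix.mul_apply_eq_vecMul]
  change x () = star c ᵥ* d
  rw [sub_eq_zero] at hkey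
  have h1 := congrArg star hkey
  rw [star_star, Matrix.star_mulVec, Matrix.conjTranspose_conjTranspose] at h1
  exact h1

end Pool.Agent.UP
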