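import Mathlib
import Pool.Agent.Lib.UP.U14E
import Pool.Agent.Lib.UP.F5b

/-!
# TANK UP, stage 2, row F6b: finite global dimension in matrix form for coherent rings
-/

set_option autoImplicit false

open CategoryTheory CategoryTheory.Abelian
open scoped Matrix

namespace Pool.Agent.UP

universe u

/-- the form with free resolutions of finitely presented modules as a hypothesis -/
theorem endM_of_fl_res {R : Type u} [Ring R] [StarRing R]
    (hres : ∀ (M : Type u) [AddCommGroup M] [Module R M] [Module.FinitePresentation R M],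
      ∃ T : RC R, Nonempty (Res T M)) {g : ℕ} (h : FL R g) : EndM R (g + 1) := by
  intro K _ _ deg e d i0 hcx hcol j hj x hx1 hx2 hx3
  obtain ⟨k, hk⟩ : ∃ k : ℕ, j = i0 - ((k + 1 + 1 : ℕ) : ℤ) := ⟨(i0 - j - 2).toNat, by
    push_cast; push_cast at hj; omega⟩
  have hgk : g ≤ k := by push_cast at hj hk; omega
  have hs := hcx.starCx
  let a : ℤ := -i0
  let B : Submodule R (GV (fun k => -deg k) eᴴ a) :=
    { carrier := {x | ∃ y : K → R, y ᵥ* dᴴ = x}
      add_mem' := by
        rintro x y ⟨u, hu⟩ ⟨v, hv⟩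
        exact ⟨u + v, by rw [Matrix.add_vecMul, hu, hv]; rfl⟩
      zero_mem' := ⟨0, Matrix.zero_vecMul _⟩
      smul_mem' := by
        rintro r x ⟨u, hu⟩
        exact ⟨r • u, by rw [Matrix.smul_vecMul, hu]; rfl⟩ }
  have hfin : Module.Finite R (GV (fun k => -deg k) eᴴ a) := hs.gi.finite a
  let P := hs.toPR a B.mkQ B.mkQ_surjective
    (fun x => by rw [Submodule.mkQ_apply, Submodule.Quotient.mk_eq_zero]; rfl)
    (fun j' hj' x hx => by
      obtain ⟨j'', rfl⟩ : ∃ j'', j' = -j'' := ⟨-j', by omega⟩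
      exact IsCx.star_rowEx (hcol j'' (by omega)) x hx)
  have hproj : Module.Projective R (GV (fun k => -deg k) eᴴ a) := hs.gi.projective a
  have hfp : Module.FinitePresentation R (GV (fun k => -deg k) eᴴ a) :=
    Module.finitePresentation_of_projective R _
  have hBfg : B.FG := by
    have hfin1 : Module.Finite R (GV (fun k => -deg k) eᴴ (a + 1)) := hs.gi.finite (a + 1)
    have hB : B = LinearMap.range (hs.dV (rfl : a + 1 = a + 1)) := by
      ext x
      constructor
      · rintro ⟨y, hy⟩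
        exact hs.pre rfl x y hy
      · rintro ⟨y, rfl⟩
        exact ⟨y, rfl⟩
    rw [hB, LinearMap.range_eq_map]
    exact Submodule.FG.map _ hfin1.fg_top
  have hfpN : Module.FinitePresentation R (GV (fun k => -deg k) eᴴ a ⧸ B) :=
    Module.finitePresentation_of_surjective B.mkQ B.mkQ_surjective (by
      rw [Submodule.ker_mkQ]
      exact hBfg)
  obtain ⟨T, ⟨rT⟩⟩ := hres (GV (fun k => -deg k) eᴴ a ⧸ B)
  have hco := (rT.coEx_iff (k + 1 + 1)).1 (U14E_coex h T rT.ex k hgk)
  rw [P.subsingleton_succ_iff] at hco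
  have hx2' : x () ᵥ* e = x () := congrFun hx2 ()
  have hx3' : x () ᵥ* d = 0 := congrFun hx3 ()
  have hes : eᴴ *ᵥ star (x ()) = star (x ()) := by rw [← Matrix.star_vecMul, hx2']
  have hds : dᴴ *ᵥ star (x ()) = 0 := by rw [← Matrix.star_vecMul, hx3', star_zero]
  obtain ⟨f, hf⟩ := hco ((dotF (star (x ()))) ∘ₗ
    (GV (fun k => -deg k) eᴴ (a + ((k + 1 + 1 : ℕ) : ℤ))).subtype) (by
      apply LinearMap.ext
      intro (v : GV (fun k => -deg k) eᴴ (a + ((k + 1 + 1 + 1 : ℕ) : ℤ)))
      change ((v : K → R) ᵥ* dᴴ) ⬝ᵥ star (x ()) = 0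
      rw [← Matrix.dotProduct_mulVec, hds, dotProduct_zero])
  obtain ⟨c, hc1, hc2, hc3⟩ := hs.gi.fun_surj (a + ((k + 1 : ℕ) : ℤ)) f
  have hkey : star (x ()) - dᴴ *ᵥ c = 0 := by
    apply hs.gi.fun_inj (a + ((k + 1 + 1 : ℕ) : ℤ))
    · intro i hi
      by_cases h1 : star (x ()) i = 0
      · rw [Pi.sub_apply, h1, zero_sub] at hi
        have h2 : (dᴴ *ᵥ c) i ≠ 0 := fun h0 => hi (by rw [h0, neg_zero])
        obtain ⟨l, _, hl⟩ := Finset.exists_ne_zero_of_sum_ne_zero h2
        have h3 := hs.d_deg i l (left_ne_zero_of_mul hl)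
        have h4 := hc1 l (right_ne_zero_of_mul hl)
        push_cast at h3 h4 ⊢
        omega
      · have h2 : x () i ≠ 0 := fun h0 => h1 (by rw [Pi.star_apply, h0, star_zero])
        have h3 := hx1 i h2
        rw [h3, hk]
        push_cast
        simp only [a]
        ring
    · rw [Matrix.mulVec_sub, hes, Matrix.mulVec_mulVec, hs.ed]
    · intro v
      have h1 := LinearMap.congr_fun hf v
      have h2 : f (P.d (k + 1) v) = ((v : K → R) ᵥ* dᴴ) ⬝ᵥ c := hc3 _
      have h3 : (v : K → R) ⬝ᵥ star (x ()) = f (P.d (k + 1) v) := h1.symm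
      rw [dotProduct_sub, h3, h2, Matrix.dotProduct_mulVec, sub_self]
  refine ⟨Matrix.of fun _ => star c, ?_⟩
  funext u
  rw [Matrix.mul_apply_eq_vecMul]
  change x () = star c ᵥ* d
  rw [sub_eq_zero] at hkey
  have h1 := congrArg star hkey
  rw [star_star, Matrix.star_mulVec, Matrix.conjTranspose_conjTranspose] at h1
  exact h1

theorem endM_of_fl_coh {S : Type u} [Ring S] [StarRing S] (hc : CohT S) {g : ℕ} (h : FL S g) :
    EndM S (g + 1) :=
  endM_of_fl_res (fun M _ _ _ => exists_res_coh hc M) h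

end Pool.Agent.UP
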