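import Mathlib
import Pool.Agent.Lib.UP.U14G
import Pool.Agent.Lib.UP.R1
import Pool.Agent.Lib.UP.U1G

/-!
TANK UP, row U14: the Auslander condition for total complexes from `AR`.
-/

set_option autoImplicit false
set_option linter.unusedSectionVars false

open CategoryTheory CategoryTheory.Abelian
open scoped Matrix

namespace Pool.Agent.UP

universe u

/-! ### `Ext^p(W, R)` as a left module by the involution -/

section ES

variable {R : Type u} [Ring R] [StarRing R]

/-- `Ext^p(W, R)` as a left module by the involution -/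
def ES (R : Type u) [Ring R] (p : ℕ) (W : Type u) [AddCommGroup W] [Module R W] : Type u :=
  Pool.UP.EP R p W

variable {p : ℕ} {W : Type u} [AddCommGroup W] [Module R W]

noncomputable instance : AddCommGroup (ES R p W) :=
  inferInstanceAs (AddCommGroup (Pool.UP.EP R p W))

noncomputable instance : Module R (ES R p W) :=
  Module.compHom (Pool.UP.EP R p W) ((starRingEquiv (R := R) : R ≃+* Rᵐᵒᵖ) : R →+* Rᵐᵒᵖ)

/-- the class of a cocycle as an element of `ES` -/
noncomputable def esCls (P : PR R W) (p : ℕ) (f : P.X p →ₗ[R] R) (hf : f ∘ₗ P.d p = 0) :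
    ES R p W := P.cls p f hf

theorem esCls_add (P : PR R W) (p : ℕ) (f g : P.X p →ₗ[R] R) (hf : f ∘ₗ P.d p = 0)
    (hg : g ∘ₗ P.d p = 0) (h : (f + g) ∘ₗ P.d p = 0) :
    esCls P p (f + g) h = esCls P p f hf + esCls P p g hg := P.cls_add p f g hf hg

theorem esCls_smul (P : PR R W) (p : ℕ) (r : R) (f : P.X p →ₗ[R] R) (hf : f ∘ₗ P.d p = 0)
    (h : (Pool.UP.mulR (star r) ∘ₗ f) ∘ₗ P.d p = 0) :
    esCls P p (Pool.UP.mulR (star r) ∘ₗ f) h = r • esCls P p f hf :=
  (P.cls_comp p f hf (Pool.UP.mulR (star r))).symm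

theorem esCls_surj (P : PR R W) (p : ℕ) (x : ES R p W) :
    ∃ (f : P.X p →ₗ[R] R) (hf : f ∘ₗ P.d p = 0), esCls P p f hf = x := P.cls_surj p x

theorem esCls_eq_zero (P : PR R W) (p : ℕ) (f : P.X (p + 1) →ₗ[R] R)
    (hf : f ∘ₗ P.d (p + 1) = 0) :
    esCls P (p + 1) f hf = 0 ↔ ∃ g : P.X p →ₗ[R] R, g ∘ₗ P.d p = f := P.cls_eq_zero_succ p f hf

theorem esCls_congr (P : PR R W) (p : ℕ) {f g : P.X p →ₗ[R] R} (h : f = g)
    (hf : f ∘ₗ P.d p = 0) (hg : g ∘ₗ P.d p = 0) : esCls P p f hf = esCls P p g hg := by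
  subst h; rfl

/-- the functional of a row, by the involution -/
def dotS {n : Type} [Fintype n] (c : n → R) : (n → R) →ₗ[R] R := dotF (star c)

theorem dotS_apply {n : Type} [Fintype n] (c x : n → R) : dotS c x = x ⬝ᵥ star c := rfl

theorem dotS_add {n : Type} [Fintype n] (c c' : n → R) : dotS (c + c') = dotS c + dotS c' := by
  refine LinearMap.ext fun x => ?_
  rw [LinearMap.add_apply, dotS_apply, dotS_apply, dotS_apply, star_add, dotProduct_add]

theorem dotS_smul {n : Type} [Fintype n] (r : R) (c : n → R) :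
    dotS (r • c) = Pool.UP.mulR (star r) ∘ₗ dotS c := by
  refine LinearMap.ext fun x => ?_
  change x ⬝ᵥ star (r • c) = (x ⬝ᵥ star c) * star r
  simp only [dotProduct, Finset.sum_mul, Pi.star_apply, Pi.smul_apply, smul_eq_mul, star_mul,
    mul_assoc]

theorem dotS_comp {m n : Type} [Fintype m] [Fintype n] (D : Matrix m n R) (c : n → R) :
    dotS c ∘ₗ D.vecMulLinear = dotS (c ᵥ* Dᴴ) := by
  unfold dotS
  rw [dotF_comp, Matrix.star_vecMul, Matrix.conjTranspose_conjTranspose]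

theorem dotS_surj {n : Type} [Fintype n] [DecidableEq n] (f : (n → R) →ₗ[R] R) :
    ∃ c, dotS c = f := by
  obtain ⟨c, rfl⟩ := dotF_surj f
  exact ⟨star c, by unfold dotS; rw [star_star]⟩

theorem dotS_inj {n : Type} [Fintype n] {c c' : n → R} (h : dotS c = dotS c') : c = c' :=
  star_injective (dotF_inj h)

theorem dotS_zero {n : Type} [Fintype n] : dotS (0 : n → R) = 0 := by
  unfold dotS
  rw [star_zero, dotF_zero]

variable {T : RC R}

/-- the functional on the `p`-th term -/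
def tF (P : Res T W) (p : ℕ) (c : T.ι p → R) : P.toPR.X p →ₗ[R] R := dotS c

theorem tF_add (P : Res T W) (p : ℕ) (c c' : T.ι p → R) :
    tF P p (c + c') = tF P p c + tF P p c' := dotS_add c c'

theorem tF_smul (P : Res T W) (p : ℕ) (r : R) (c : T.ι p → R) :
    tF P p (r • c) = Pool.UP.mulR (star r) ∘ₗ tF P p c := dotS_smul r c

theorem tF_comp (P : Res T W) (p : ℕ) (c : T.ι p → R) :
    tF P p c ∘ₗ P.toPR.d p = tF P (p + 1) (c ᵥ* (T.D p)ᴴ) := dotS_comp (T.D p) c

theorem tF_surj (P : Res T W) (p : ℕ) (f : P.toPR.X p →ₗ[R] R) : ∃ c, tF P p c = f :=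
  dotS_surj (n := T.ι p) f

theorem tF_inj (P : Res T W) (p : ℕ) {c c' : T.ι p → R} (h : tF P p c = tF P p c') : c = c' :=
  dotS_inj h

theorem tF_zero (P : Res T W) (p : ℕ) : tF P p 0 = 0 := dotS_zero

theorem tF_cy (P : Res T W) (p : ℕ) (c : T.cy p) :
    tF P p (c : T.ι p → R) ∘ₗ P.toPR.d p = 0 := by
  rw [tF_comp, show (c : T.ι p → R) ᵥ* (T.D p)ᴴ = 0 from c.2, tF_zero]

/-- the class of a cocycle of the dual complex -/
noncomputable def tCls (P : Res T W) (p : ℕ) : T.cy p →ₗ[R] ES R p W where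
  toFun c := esCls P.toPR p (tF P p (c : T.ι p → R)) (tF_cy P p c)
  map_add' c c' := by
    have h := tF_cy P p (c + c')
    have h' : (tF P p (c : T.ι p → R) + tF P p (c' : T.ι p → R)) ∘ₗ P.toPR.d p = 0 := by
      rw [← tF_add]; exact h
    exact (esCls_congr P.toPR p (tF_add P p c c') h h').trans (esCls_add _ _ _ _ _ _ _)
  map_smul' r c := by
    have h := tF_cy P p (r • c)
    have h' : (Pool.UP.mulR (star r) ∘ₗ tF P p (c : T.ι p → R)) ∘ₗ P.toPR.d p = 0 := by
      rw [← tF_smul]; exact h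
    exact (esCls_congr P.toPR p (tF_smul P p r c) h h').trans (esCls_smul _ _ _ _ _ _)

theorem tCls_apply (P : Res T W) (p : ℕ) (c : T.cy p) :
    tCls P p c = esCls P.toPR p (tF P p (c : T.ι p → R)) (tF_cy P p c) := rfl

theorem tCls_surj (P : Res T W) (p : ℕ) : Function.Surjective (tCls P p) := by
  intro x
  obtain ⟨f, hf, rfl⟩ := esCls_surj P.toPR p x
  obtain ⟨c, hc⟩ := tF_surj P p f
  have hcy : c ∈ T.cy p := by
    change c ᵥ* (T.D p)ᴴ = 0
    refine tF_inj P (p + 1) ?_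
    rw [← tF_comp, hc, tF_zero]
    exact hf
  exact ⟨⟨c, hcy⟩, esCls_congr _ _ hc (tF_cy P p ⟨c, hcy⟩) hf⟩

theorem tCls_ker (P : Res T W) (p : ℕ) :
    LinearMap.ker (tCls P (p + 1)) = (T.bd (p + 1)).comap (T.cy (p + 1)).subtype := by
  ext c
  rw [LinearMap.mem_ker, Submodule.mem_comap, tCls_apply, esCls_eq_zero]
  constructor
  · rintro ⟨g, hg⟩
    obtain ⟨z, rfl⟩ := tF_surj P p g
    refine ⟨z, tF_inj P (p + 1) ?_⟩
    rw [← tF_comp]
    exact hg
  · rintro ⟨z, hz⟩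
    refine ⟨tF P p z, ?_⟩
    rw [tF_comp, hz]
    rfl

/-- `H^p` of the dual complex is `Ext^p` -/
noncomputable def esEquiv (P : Res T W) (p : ℕ) : T.E (p + 1) ≃ₗ[R] ES R (p + 1) W :=
  (Submodule.quotEquivOfEq _ _ (tCls_ker P p).symm).trans
    (LinearMap.quotKerEquivOfSurjective (tCls P (p + 1)) (tCls_surj P (p + 1)))

theorem loc_es (h : AR R) (P : Res T W) (p : ℕ) : Loc R (p + 1) (ES R (p + 1) W) := by
  intro N hN
  have e : N ≃ₗ[R] (N.map ((esEquiv P p).symm : ES R (p + 1) W →ₗ[R] T.E (p + 1))) :=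
    Submodule.equivMapOfInjective _ (esEquiv P p).symm.injective N
  exact GE.congr e.symm (h T P.ex (p + 1) _ (hN.map _))

end ES

/-! ### the column complex in star form -/

section main

variable {R : Type u} [Ring R] [StarRing R] {K : Type} [Fintype K] {deg : K → ℤ}
  {e d : Matrix K K R}

theorem IsCx.star (h : IsCx deg e d) : IsCx (fun k => - deg k) eᴴ dᴴ where
  e_deg i j hij := by
    have := h.e_deg j i fun h0 => hij (by rw [Matrix.conjTranspose_apply, h0, star_zero])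
    omega
  d_deg i j hij := by
    have := h.d_deg j i fun h0 => hij (by rw [Matrix.conjTranspose_apply, h0, star_zero])
    omega
  ee := by rw [← Matrix.conjTranspose_mul, h.ee]
  ed := by rw [← Matrix.conjTranspose_mul, h.de]
  de := by rw [← Matrix.conjTranspose_mul, h.ed]
  dd := by rw [← Matrix.conjTranspose_mul, h.dd, Matrix.conjTranspose_zero]

/-- exactness of the rows, in vector form -/
theorem RowEx.vec {j : ℤ} (h : RowEx deg e d j) (x : GV deg e j) (hx : (x : K → R) ᵥ* d = 0) :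
    ∃ y : K → R, y ᵥ* d = x := by
  obtain ⟨y, hy⟩ := h (fun _ => x) x.2.1 (by funext i; exact x.2.2) (by funext i; exact hx)
  exact ⟨y (), (congrFun hy ()).symm⟩

/-- exactness of the columns, in star form -/
theorem ColEx.vec {j j' : ℤ} (h : ColEx deg e d j) (hj : j' = -j)
    (x : GV (fun k => - deg k) eᴴ j') (hx : (x : K → R) ᵥ* dᴴ = 0) :
    ∃ y : K → R, y ᵥ* dᴴ = x := by
  obtain ⟨Y, hY⟩ : ∃ Y : Matrix K Unit R, Y = fun k _ => star ((x : K → R) k) := ⟨_, rfl⟩
  have e1 : ∀ A : Matrix K K R, A * Y = fun k _ => star (((x : K → R) ᵥ* Aᴴ) k) := by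
    intro A
    funext k u
    rw [Matrix.mul_apply]
    simp only [hY, Matrix.vecMul, dotProduct, star_sum, star_mul,
      Matrix.conjTranspose_apply, star_star]
  obtain ⟨z, hz⟩ := h Y
    (fun k hk => by
      have h9 : - deg k = j' := x.2.1 k fun h0 => hk (by simp only [hY, h0, star_zero])
      omega)
    (by rw [e1, x.2.2, hY])
    (by rw [e1, hx]; funext k u; simp)
  refine ⟨fun k => star (z k ()), ?_⟩
  funext k
  have h2 := congrFun (congrFun hz k) ()
  have h3 : star ((x : K → R) k) = ∑ i, d k i * z i () := by rw [hY] at h2; exact h2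
  rw [← star_inj, h3]
  simp only [Matrix.vecMul, dotProduct, star_sum, star_mul, Matrix.conjTranspose_apply, star_star]

/-- functionals on the row spaces, by the involution -/
def gF (deg : K → ℤ) (e : Matrix K K R) (j : ℤ) (c : K → R) : GV deg e j →ₗ[R] R :=
  dotS c ∘ₗ (GV deg e j).subtype

theorem gF_apply (deg : K → ℤ) (e : Matrix K K R) (j : ℤ) (c : K → R) (x : GV deg e j) :
    gF deg e j c x = (x : K → R) ⬝ᵥ star c := rfl

theorem gF_zero (deg : K → ℤ) (e : Matrix K K R) (j : ℤ) : gF deg e j 0 = 0 := by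
  unfold gF
  rw [dotS_zero, LinearMap.zero_comp]

theorem gF_add (deg : K → ℤ) (e : Matrix K K R) (j : ℤ) (c c' : K → R) :
    gF deg e j (c + c') = gF deg e j c + gF deg e j c' := by
  unfold gF
  rw [dotS_add, LinearMap.add_comp]

theorem gF_smul (deg : K → ℤ) (e : Matrix K K R) (j : ℤ) (r : R) (c : K → R) :
    gF deg e j (r • c) = Pool.UP.mulR (star r) ∘ₗ gF deg e j c := by
  unfold gF
  rw [dotS_smul, LinearMap.comp_assoc]

/-- functionals on the star row spaces are given by the rows of the original complex -/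
theorem gF_surj [DecidableEq K] (h : IsCx deg e d) {j : ℤ}
    (f : GV (fun k => - deg k) eᴴ j →ₗ[R] R) :
    ∃ c : GV deg e (-j), gF (fun k => - deg k) eᴴ j (c : K → R) = f := by
  obtain ⟨c, h1, h2, h3⟩ := h.star.gi.fun_surj j f
  refine ⟨⟨star c, fun k hk => ?_, ?_⟩, LinearMap.ext fun x => ?_⟩
  · have := h1 k fun h0 => hk (by rw [Pi.star_apply, h0, star_zero])
    have h4 : - deg k = j := this
    omega
  · rw [← star_inj, Matrix.star_vecMul, star_star, h2]
  · rw [gF_apply, h3 x, star_star]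

theorem gF_inj [DecidableEq K] (h : IsCx deg e d) {j j' : ℤ} (hj : j' = -j)
    (c c' : GV deg e j) (hc : gF (fun k => - deg k) eᴴ j' (c : K → R) =
      gF (fun k => - deg k) eᴴ j' (c' : K → R)) : c = c' := by
  have h1 : star ((c : K → R) - (c' : K → R)) = 0 := by
    refine h.star.gi.fun_inj j' _ (fun k hk => ?_) ?_ fun x => ?_
    · have h2 : ((c - c' : GV deg e j) : K → R) k ≠ 0 := fun h0 => hk (by
        rw [Pi.star_apply]
        have : ((c : K → R) - (c' : K → R)) k = 0 := h0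
        rw [this, star_zero])
      have := (c - c').2.1 k h2
      change - deg k = j'
      omega
    · rw [← star_inj, Matrix.star_mulVec, star_star, Matrix.conjTranspose_conjTranspose,
        Matrix.sub_vecMul, c.2.2, c'.2.2]
    · have h2 := LinearMap.congr_fun hc x
      rw [gF_apply, gF_apply] at h2
      rw [star_sub, dotProduct_sub, h2, sub_self]
  have h2 : (c : K → R) - (c' : K → R) = 0 := by
    rw [← star_star ((c : K → R) - (c' : K → R)), h1, star_zero]
  exact Subtype.ext (sub_eq_zero.1 h2)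

theorem gF_comp (h : IsCx deg e d) {j j' : ℤ} (hj : j = j' + 1) (c : K → R) :
    gF (fun k => - deg k) eᴴ j' c ∘ₗ h.star.dV hj = gF (fun k => - deg k) eᴴ j (c ᵥ* d) := by
  refine LinearMap.ext fun x => ?_
  rw [LinearMap.comp_apply, gF_apply, gF_apply, IsCx.dV_coe, Matrix.star_vecMul,
    Matrix.dotProduct_mulVec]

/-- the cokernel of the column complex, in star form -/
def colW (h : IsCx deg e d) (a : ℤ) : Type u :=
  GV (fun k => - deg k) eᴴ a ⧸ LinearMap.range (h.star.dV (j := a + 1) (j' := a) rfl)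

instance (h : IsCx deg e d) (a : ℤ) : AddCommGroup (colW h a) :=
  inferInstanceAs (AddCommGroup (GV (fun k => - deg k) eᴴ a ⧸ LinearMap.range (h.star.dV rfl)))

instance (h : IsCx deg e d) (a : ℤ) : Module R (colW h a) :=
  inferInstanceAs (Module R (GV (fun k => - deg k) eᴴ a ⧸ LinearMap.range (h.star.dV rfl)))

instance (h : IsCx deg e d) (a : ℤ) : Module.Finite R (colW h a) := by
  have := h.star.gi.finite a
  exact inferInstanceAs
    (Module.Finite R (GV (fun k => - deg k) eᴴ a ⧸ LinearMap.range (h.star.dV rfl)))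

/-- the projection to the cokernel -/
def mkW (h : IsCx deg e d) (a : ℤ) : GV (fun k => - deg k) eᴴ a →ₗ[R] colW h a :=
  Submodule.mkQ (LinearMap.range (h.star.dV (j := a + 1) (j' := a) rfl))

theorem mkW_surj (h : IsCx deg e d) (a : ℤ) : Function.Surjective (mkW h a) :=
  Submodule.mkQ_surjective _

theorem mkW_eq_zero (h : IsCx deg e d) (a : ℤ) (x : GV (fun k => - deg k) eᴴ a) :
    mkW h a x = 0 ↔ x ∈ LinearMap.range (h.star.dV (j := a + 1) (j' := a) rfl) :=
  Submodule.Quotient.mk_eq_zero _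

/-- the resolution of the cokernel by the column complex -/
def colPR (h : IsCx deg e d) (a : ℤ) (hcol : ∀ j : ℤ, j < -a → ColEx deg e d j) :
    PR R (colW h a) :=
  h.star.toPR a (mkW h a) (mkW_surj h a)
    (fun x => by
      rw [mkW_eq_zero]
      constructor
      · rintro ⟨y, rfl⟩
        exact ⟨y, rfl⟩
      · rintro ⟨y, hy⟩
        exact h.star.pre rfl x y hy)
    (fun j hj x hx => (hcol (-j) (by omega)).vec (by omega) x hx)

/-- functionals on the terms of the resolution -/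
def pF (h : IsCx deg e d) (a : ℤ) (hcol : ∀ j : ℤ, j < -a → ColEx deg e d j) (k : ℕ) (c : K → R) :
    (colPR h a hcol).X k →ₗ[R] R := gF (fun k => - deg k) eᴴ (a + k) c

theorem pF_comp (h : IsCx deg e d) (a : ℤ) (hcol : ∀ j : ℤ, j < -a → ColEx deg e d j) (k : ℕ)
    (c : K → R) : pF h a hcol k c ∘ₗ (colPR h a hcol).d k = pF h a hcol (k + 1) (c ᵥ* d) :=
  gF_comp h (j := a + (k + 1 : ℕ)) (j' := a + k) (by push_cast; ring) c

theorem pF_surj [DecidableEq K] (h : IsCx deg e d) (a : ℤ)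
    (hcol : ∀ j : ℤ, j < -a → ColEx deg e d j) (k : ℕ) (g : (colPR h a hcol).X k →ₗ[R] R) :
    ∃ c : GV deg e (-(a + k)), pF h a hcol k (c : K → R) = g := gF_surj h g

theorem pF_inj [DecidableEq K] (h : IsCx deg e d) (a : ℤ)
    (hcol : ∀ j : ℤ, j < -a → ColEx deg e d j) (k : ℕ) (j : ℤ) (hj : a + k = -j)
    (c c' : GV deg e j) (hc : pF h a hcol k (c : K → R) = pF h a hcol k (c' : K → R)) : c = c' :=
  gF_inj h hj c c' hc

theorem pF_zero (h : IsCx deg e d) (a : ℤ)
    (hcol : ∀ j : ℤ, j < -a → ColEx deg e d j) (k : ℕ) : pF h a hcol k 0 = 0 :=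
  gF_zero _ _ _

theorem pF_add (h : IsCx deg e d) (a : ℤ)
    (hcol : ∀ j : ℤ, j < -a → ColEx deg e d j) (k : ℕ) (c c' : K → R) :
    pF h a hcol k (c + c') = pF h a hcol k c + pF h a hcol k c' := gF_add _ _ _ _ _

theorem pF_smul (h : IsCx deg e d) (a : ℤ)
    (hcol : ∀ j : ℤ, j < -a → ColEx deg e d j) (k : ℕ) (r : R) (c : K → R) :
    pF h a hcol k (r • c) = Pool.UP.mulR (star r) ∘ₗ pF h a hcol k c := gF_smul _ _ _ _ _

/-- the class of a row cycle -/
noncomputable def cyc (h : IsCx deg e d) (a : ℤ) (hcol : ∀ j : ℤ, j < -a → ColEx deg e d j)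
    (k : ℕ) (c : K → R) (hc : c ᵥ* d = 0) : ES R k (colW h a) :=
  esCls (colPR h a hcol) k (pF h a hcol k c) (by rw [pF_comp, hc, pF_zero])

theorem cyc_add (h : IsCx deg e d) (a : ℤ) (hcol : ∀ j : ℤ, j < -a → ColEx deg e d j)
    (k : ℕ) (c c' : K → R) (hc : c ᵥ* d = 0) (hc' : c' ᵥ* d = 0) (hcc : (c + c') ᵥ* d = 0) :
    cyc h a hcol k (c + c') hcc = cyc h a hcol k c hc + cyc h a hcol k c' hc' := by
  have h1 : pF h a hcol k (c + c') ∘ₗ (colPR h a hcol).d k = 0 := by rw [pF_comp, hcc, pF_zero]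
  have h2 : (pF h a hcol k c + pF h a hcol k c') ∘ₗ (colPR h a hcol).d k = 0 := by
    rw [← pF_add]; exact h1
  exact (esCls_congr _ _ (pF_add h a hcol k c c') h1 h2).trans (esCls_add _ _ _ _ _ _ _)

theorem cyc_smul (h : IsCx deg e d) (a : ℤ) (hcol : ∀ j : ℤ, j < -a → ColEx deg e d j)
    (k : ℕ) (r : R) (c : K → R) (hc : c ᵥ* d = 0) (hrc : (r • c) ᵥ* d = 0) :
    cyc h a hcol k (r • c) hrc = r • cyc h a hcol k c hc := by
  have h1 : pF h a hcol k (r • c) ∘ₗ (colPR h a hcol).d k = 0 := by rw [pF_comp, hrc, pF_zero]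
  have h2 : (Pool.UP.mulR (star r) ∘ₗ pF h a hcol k c) ∘ₗ (colPR h a hcol).d k = 0 := by
    rw [← pF_smul]; exact h1
  exact (esCls_congr _ _ (pF_smul h a hcol k r c) h1 h2).trans (esCls_smul _ _ _ _ _ _)

theorem cyc_congr (h : IsCx deg e d) (a : ℤ) (hcol : ∀ j : ℤ, j < -a → ColEx deg e d j)
    (k : ℕ) {c c' : K → R} (hcc : c = c') (hc : c ᵥ* d = 0) (hc' : c' ᵥ* d = 0) :
    cyc h a hcol k c hc = cyc h a hcol k c' hc' := by
  subst hcc; rfl

theorem cyc_eq_zero [DecidableEq K] (h : IsCx deg e d) (a : ℤ)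
    (hcol : ∀ j : ℤ, j < -a → ColEx deg e d j) (k : ℕ) (j : ℤ) (hj : a + (k + 1 : ℕ) = -j)
    (c : GV deg e j) (hc : (c : K → R) ᵥ* d = 0) :
    cyc h a hcol (k + 1) (c : K → R) hc = 0 ↔ ∃ x : K → R, x ᵥ* d = c := by
  unfold cyc
  rw [esCls_eq_zero]
  constructor
  · rintro ⟨g, hg⟩
    obtain ⟨x, rfl⟩ := pF_surj h a hcol k g
    rw [pF_comp] at hg
    have h1 : -(a + (k : ℤ)) = j + 1 := by push_cast at hj; omega
    have h2 := pF_inj h a hcol (k + 1) j hj (h.dV h1 x) c hg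
    exact ⟨x, by rw [← h2]; rfl⟩
  · rintro ⟨x, hx⟩
    refine ⟨pF h a hcol k x, ?_⟩
    rw [pF_comp, hx]

end main

/-! ### the theorem -/

section theorem_

variable {R : Type u} [Ring R] [StarRing R] {K C : Type} [Fintype K] [Fintype C] {deg : K → ℤ}
  {e d : Matrix K K R} {i₀ : ℕ} {p : C → ℕ} {e' δ : Matrix C C R} {f : Matrix C K R}

theorem IsKill.cx (h : IsKill deg e d i₀ p e' δ f) : IsCx (fun c => (p c : ℤ)) e' δ where
  e_deg i j hij := by have := h.e_deg i j hij; omega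
  d_deg i j hij := by have := h.δ_deg i j hij; omega
  ee := h.ee
  ed := h.eδ
  de := h.δe
  dd := h.δδ

/-- the attaching map -/
def IsKill.F (h : IsKill deg e d i₀ p e' δ f) (l : ℤ) :
    GV (fun c => (p c : ℤ)) e' l →ₗ[R] GV deg e (-(i₀ : ℤ) + l) :=
  LinearMap.codRestrict _ (f.vecMulLinear ∘ₗ (GV (fun c => (p c : ℤ)) e' l).subtype) fun x => by
    refine ⟨fun k hk => ?_, ?_⟩
    · change ((x : C → R) ᵥ* f) k ≠ 0 at hk
      by_contra hcon
      apply hk
      simp only [Matrix.vecMul, dotProduct]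
      refine Finset.sum_eq_zero fun i _ => ?_
      by_cases h1 : (x : C → R) i = 0
      · rw [h1, zero_mul]
      · by_cases h2 : f i k = 0
        · rw [h2, mul_zero]
        · have h3 : (p i : ℤ) = l := x.2.1 i h1
          have h4 := h.f_deg i k h2
          exact absurd (by omega) hcon
    · change ((x : C → R) ᵥ* f) ᵥ* e = (x : C → R) ᵥ* f
      rw [Matrix.vecMul_vecMul, h.fe]

theorem IsKill.F_coe (h : IsKill deg e d i₀ p e' δ f) (l : ℤ) (u : GV (fun c => (p c : ℤ)) e' l) :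
    ((h.F l u : GV deg e (-(i₀ : ℤ) + l)) : K → R) = (u : C → R) ᵥ* f := rfl

theorem IsKill.fd (h : IsKill deg e d i₀ p e' δ f) (u : C → R) :
    (u ᵥ* f) ᵥ* d = -((u ᵥ* δ) ᵥ* f) := by
  have h1 : f * d = -(δ * f) := eq_neg_of_add_eq_zero_right h.δf
  rw [Matrix.vecMul_vecMul, h1, Matrix.vecMul_neg, Matrix.vecMul_vecMul]

theorem IsKill.δ0 (h : IsKill deg e d i₀ p e' δ f) (u : GV (fun c => (p c : ℤ)) e' 0) :
    (u : C → R) ᵥ* δ = 0 := by
  funext k
  simp only [Matrix.vecMul, dotProduct, Pi.zero_apply]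
  refine Finset.sum_eq_zero fun i _ => ?_
  by_cases h1 : (u : C → R) i = 0
  · rw [h1, zero_mul]
  · by_cases h2 : δ i k = 0
    · rw [h2, mul_zero]
    · have h3 : (p i : ℤ) = 0 := u.2.1 i h1
      have h4 := h.δ_deg i k h2
      omega

theorem IsKill.cy0 (h : IsKill deg e d i₀ p e' δ f) (u : GV (fun c => (p c : ℤ)) e' 0) :
    ((u : C → R) ᵥ* f) ᵥ* d = 0 := by
  rw [h.fd, h.δ0, Matrix.zero_vecMul, neg_zero]

/-- `rowex` in vector form -/
theorem IsKill.rowex' (h : IsKill deg e d i₀ p e' δ f) (l : ℤ) (u : GV (fun c => (p c : ℤ)) e' l)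
    (h1 : (u : C → R) ᵥ* δ = 0) (h2 : ∃ x : K → R, x ᵥ* d = (u : C → R) ᵥ* f) :
    ∃ y : C → R, y ᵥ* δ = u := by
  by_cases hu : (u : C → R) = 0
  · exact ⟨0, by rw [hu, Matrix.zero_vecMul]⟩
  obtain ⟨i, hi⟩ : ∃ i, (u : C → R) i ≠ 0 := by
    by_contra hcon
    push Not at hcon
    exact hu (funext hcon)
  have hl : (p i : ℤ) = l := u.2.1 i hi
  obtain ⟨x, hx⟩ := h2
  obtain ⟨y, hy⟩ := h.rowex (p i) (fun _ => u)
    (fun k hk => by
      have h3 : (p k : ℤ) = l := u.2.1 k hk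
      omega)
    (by funext _; exact u.2.2) (by funext _; exact h1) ⟨fun _ => x, by funext _; exact hx.symm⟩
  exact ⟨y (), (congrFun hy ()).symm⟩

/-- the map from the attached complex to the Ext group -/
noncomputable def phi (hX : IsCx deg e d)
    (hcol : ∀ j : ℤ, j < -(-(i₀ : ℤ)) → ColEx deg e d j) (hk : IsKill deg e d i₀ p e' δ f)
    (q : ℕ) : GV (fun c => (p c : ℤ)) e' 0 →ₗ[R] ES R (q + 1) (colW hX (-(i₀ : ℤ))) where
  toFun u := cyc hX (-(i₀ : ℤ)) hcol (q + 1) ((u : C → R) ᵥ* f) (hk.cy0 u)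
  map_add' u v := by
    have h1 : ((u + v : GV (fun c => (p c : ℤ)) e' 0) : C → R) ᵥ* f =
      (u : C → R) ᵥ* f + (v : C → R) ᵥ* f := Matrix.add_vecMul _ _ _
    have h2 : ((u : C → R) ᵥ* f + (v : C → R) ᵥ* f) ᵥ* d = 0 := by rw [← h1]; exact hk.cy0 _
    exact (cyc_congr hX _ hcol _ h1 (hk.cy0 _) h2).trans (cyc_add _ _ _ _ _ _ _ _ _)
  map_smul' r u := by
    have h1 : ((r • u : GV (fun c => (p c : ℤ)) e' 0) : C → R) ᵥ* f = r • ((u : C → R) ᵥ* f) :=
      Matrix.smul_vecMul _ _ _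
    have h2 : (r • ((u : C → R) ᵥ* f)) ᵥ* d = 0 := by rw [← h1]; exact hk.cy0 _
    exact (cyc_congr hX _ hcol _ h1 (hk.cy0 _) h2).trans (cyc_smul _ _ _ _ _ _ _ _)

theorem phi_eq_zero [DecidableEq K] (hX : IsCx deg e d)
    (hcol : ∀ j : ℤ, j < -(-(i₀ : ℤ)) → ColEx deg e d j) (hk : IsKill deg e d i₀ p e' δ f)
    (q : ℕ) (hq : 2 * i₀ = q + 1) (u : GV (fun c => (p c : ℤ)) e' 0) :
    phi hX hcol hk q u = 0 ↔ ∃ y : C → R, y ᵥ* δ = u := by
  have h1 : phi hX hcol hk q u = 0 ↔ ∃ x : K → R, x ᵥ* d = (u : C → R) ᵥ* f :=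
    cyc_eq_zero hX (-(i₀ : ℤ)) hcol q (-(i₀ : ℤ) + 0) (by push_cast; omega) (hk.F 0 u) (hk.cy0 u)
  rw [h1]
  constructor
  · intro h2
    exact hk.rowex' 0 u (hk.δ0 u) h2
  · rintro ⟨y, hy⟩
    refine ⟨-(y ᵥ* f), ?_⟩
    rw [Matrix.neg_vecMul, hk.fd, neg_neg, hy]

end theorem_

/-- **U14** -/
theorem ausM_of_ar {R : Type u} [Ring R] [StarRing R] [IsNoetherianRing R] (h : AR R) :
    AusM R := by
  intro K C _ _ _ _ deg e d i₀ p e' δ f hX hcol hrow hk l hl y hy1 hy2 hy3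
  obtain ⟨q, hq⟩ : ∃ q, 2 * i₀ = q + 1 := ⟨2 * i₀ - 1, by omega⟩
  have hcol' : ∀ j : ℤ, j < -(-(i₀ : ℤ)) → ColEx deg e d j := fun j hj => hcol j (by omega)
  obtain ⟨P0⟩ := Pool.Agent.UP94.exists_MRes (R := R) (colW hX (-(i₀ : ℤ)))
  have hL := loc_es h (toRes P0) q
  obtain ⟨φ, hφ⟩ : ∃ φ, φ = phi hX hcol' hk q := ⟨_, rfl⟩
  have hfin : (LinearMap.range φ).FG := by
    have := hk.cx.gi.finite 0
    rw [LinearMap.range_eq_map]
    exact Module.Finite.fg_top.map φ
  have hGE : GE R (q + 1) (LinearMap.range φ) := hL _ hfin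
  have hker : ∀ x : GV (fun c => (p c : ℤ)) e' 0,
      φ.rangeRestrict x = 0 ↔ ∃ y : C → R, y ᵥ* δ = x := by
    intro x
    rw [← phi_eq_zero hX hcol' hk q hq x, ← hφ]
    exact Subtype.ext_iff
  have hr : ∀ j, 0 < j → ∀ x : GV (fun c => (p c : ℤ)) e' j, (x : C → R) ᵥ* δ = 0 →
      ∃ y : C → R, y ᵥ* δ = x := by
    intro j hj x hx
    refine hk.rowex' j x hx ?_
    refine (hrow (-(i₀ : ℤ) + j) (by omega)).vec (hk.F j x) ?_
    rw [hk.F_coe, hk.fd, hx, Matrix.zero_vecMul, neg_zero]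
  let P : PR R (LinearMap.range φ) := hk.cx.toPR 0 φ.rangeRestrict
    φ.surjective_rangeRestrict hker hr
  have hS := hGE l (by omega)
  -- the functional
  obtain ⟨y', hy'⟩ : ∃ y' : C → R, y' = fun i => y i () := ⟨_, rfl⟩
  have g1 : ∀ k, y' k ≠ 0 → (p k : ℤ) = 0 + (l : ℤ) := by
    intro k hk'
    have := hy1 k (by rw [hy'] at hk'; exact hk')
    omega
  have g2 : e' *ᵥ y' = y' := by
    funext i
    have := congrFun (congrFun hy2 i) ()
    rw [hy']
    exact this
  have g3 : δ *ᵥ y' = 0 := by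
    funext i
    have := congrFun (congrFun hy3 i) ()
    rw [hy']
    exact this
  have gi := hk.cx.gi
  let F : P.X l →ₗ[R] R := dotF y' ∘ₗ (GV (fun c => (p c : ℤ)) e' (0 + (l : ℤ))).subtype
  have hF : F ∘ₗ P.d l = 0 := by
    refine LinearMap.ext fun (x : GV (fun c => (p c : ℤ)) e' (0 + ((l + 1 : ℕ) : ℤ))) => ?_
    change ((x : C → R) ᵥ* δ) ⬝ᵥ y' = 0
    rw [← Matrix.dotProduct_mulVec, g3, dotProduct_zero]
  cases l with
  | zero =>
    have h0 : F = 0 := P.subsingleton_zero_iff.1 hS F hF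
    have h1 : y' = 0 := gi.fun_inj _ y' g1 g2 fun x => LinearMap.congr_fun h0 x
    refine ⟨0, ?_⟩
    rw [Matrix.mul_zero]
    funext i u
    have := congrFun h1 i
    rw [hy'] at this
    exact this
  | succ m =>
    obtain ⟨g, hg⟩ := (P.subsingleton_succ_iff m).1 hS F hF
    obtain ⟨c, c1, c2, c3⟩ := gi.fun_surj _ g
    have h1 : y' - δ *ᵥ c = 0 := by
      refine gi.fun_inj (0 + ((m + 1 : ℕ) : ℤ)) _ (fun k hk' => ?_) ?_ fun x => ?_
      · by_cases h2 : y' k = 0
        · have h3 : (δ *ᵥ c) k ≠ 0 := fun h0 => hk' (by rw [Pi.sub_apply, h2, h0, sub_zero])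
          by_contra hcon
          apply h3
          simp only [Matrix.mulVec, dotProduct]
          refine Finset.sum_eq_zero fun i _ => ?_
          by_cases h4 : c i = 0
          · rw [h4, mul_zero]
          · by_cases h5 : δ k i = 0
            · rw [h5, zero_mul]
            · have h6 : (p i : ℤ) = 0 + (m : ℤ) := c1 i h4
              have h7 := hk.δ_deg k i h5
              exact absurd (by push_cast; omega) hcon
        · exact g1 k h2
      · rw [Matrix.mulVec_sub, g2, Matrix.mulVec_mulVec, hk.eδ]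
      · rw [dotProduct_sub, sub_eq_zero]
        have h2 := LinearMap.congr_fun hg x
        have h3 : (x : C → R) ⬝ᵥ y' = g (P.d m x) := h2.symm
        rw [h3]
        refine (c3 (P.d m x)).trans ?_
        change ((x : C → R) ᵥ* δ) ⬝ᵥ c = _
        rw [← Matrix.dotProduct_mulVec]
    refine ⟨fun i _ => c i, ?_⟩
    funext i u
    have h2 := congrFun (sub_eq_zero.1 h1) i
    rw [hy'] at h2
    exact h2

end Pool.Agent.UP
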