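import Mathlib
import Pool.Agent.Lib.UP.U14
import Pool.Agent.Lib.UP.Defs4

/-!
TANK UP, stage 2, row F9, part a: `AusM1` from `AR1`, `AusW` from `ARW`.
-/

set_option autoImplicit false
set_option linter.unusedSectionVars false

open CategoryTheory CategoryTheory.Abelian
open scoped Matrix

namespace Pool.Agent.UP

universe u

section

variable {R : Type u} [Ring R] [StarRing R] {K C : Type} [Fintype K] [Fintype C] {deg : K → ℤ}
  {e d : Matrix K K R} {i₀ : ℕ} {p : C → ℕ} {e' δ : Matrix C C R} {f : Matrix C K R}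

/-- the image of the attached complex in the Ext group -/
noncomputable def KS (hX : IsCx deg e d) (hcol : ∀ j : ℤ, j < -(-(i₀ : ℤ)) → ColEx deg e d j)
    (hk : IsKill deg e d i₀ p e' δ f) (q : ℕ) : Submodule R (ES R (q + 1) (colW hX (-(i₀ : ℤ)))) :=
  LinearMap.range (phi hX hcol hk q)

theorem KS_fg (hX : IsCx deg e d) (hcol : ∀ j : ℤ, j < -(-(i₀ : ℤ)) → ColEx deg e d j)
    (hk : IsKill deg e d i₀ p e' δ f) (q : ℕ) : (KS hX hcol hk q).FG := by
  have := hk.cx.gi.finite 0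
  unfold KS
  rw [LinearMap.range_eq_map]
  exact Module.Finite.fg_top.map _

/-- the attached complex is a resolution of its image -/
noncomputable def killPR [DecidableEq K] (hX : IsCx deg e d)
    (hcol : ∀ j : ℤ, j < -(-(i₀ : ℤ)) → ColEx deg e d j)
    (hrow : ∀ j : ℤ, -(i₀ : ℤ) < j → RowEx deg e d j)
    (hk : IsKill deg e d i₀ p e' δ f) (q : ℕ) (hq : 2 * i₀ = q + 1) :
    PR R (KS hX hcol hk q) :=
  hk.cx.toPR 0 (phi hX hcol hk q).rangeRestrict (phi hX hcol hk q).surjective_rangeRestrict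
    (by
      intro x
      rw [← phi_eq_zero hX hcol hk q hq x]
      exact Subtype.ext_iff)
    (by
      intro j hj x hx
      refine hk.rowex' j x hx ?_
      refine (hrow (-(i₀ : ℤ) + j) (by omega)).vec (hk.F j x) ?_
      rw [hk.F_coe, hk.fd, hx, Matrix.zero_vecMul, neg_zero])

/-- a column as a functional on the terms of the resolution -/
noncomputable def yF [DecidableEq K] (hX : IsCx deg e d)
    (hcol : ∀ j : ℤ, j < -(-(i₀ : ℤ)) → ColEx deg e d j)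
    (hrow : ∀ j : ℤ, -(i₀ : ℤ) < j → RowEx deg e d j)
    (hk : IsKill deg e d i₀ p e' δ f) (q : ℕ) (hq : 2 * i₀ = q + 1) (l : ℕ) (y : C → R) :
    (killPR hX hcol hrow hk q hq).X l →ₗ[R] R :=
  dotF y ∘ₗ (GV (fun c => (p c : ℤ)) e' (0 + (l : ℤ))).subtype

theorem yF_comp [DecidableEq K] (hX : IsCx deg e d)
    (hcol : ∀ j : ℤ, j < -(-(i₀ : ℤ)) → ColEx deg e d j)
    (hrow : ∀ j : ℤ, -(i₀ : ℤ) < j → RowEx deg e d j)
    (hk : IsKill deg e d i₀ p e' δ f) (q : ℕ) (hq : 2 * i₀ = q + 1) (l : ℕ) (y : C → R) :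
    yF hX hcol hrow hk q hq l y ∘ₗ (killPR hX hcol hrow hk q hq).d l =
      yF hX hcol hrow hk q hq (l + 1) (δ *ᵥ y) := by
  refine LinearMap.ext fun (x : GV (fun c => (p c : ℤ)) e' (0 + ((l + 1 : ℕ) : ℤ))) => ?_
  change ((x : C → R) ᵥ* δ) ⬝ᵥ y = (x : C → R) ⬝ᵥ (δ *ᵥ y)
  rw [Matrix.dotProduct_mulVec]

theorem yF_surj [DecidableEq K] [DecidableEq C] (hX : IsCx deg e d)
    (hcol : ∀ j : ℤ, j < -(-(i₀ : ℤ)) → ColEx deg e d j)
    (hrow : ∀ j : ℤ, -(i₀ : ℤ) < j → RowEx deg e d j)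
    (hk : IsKill deg e d i₀ p e' δ f) (q : ℕ) (hq : 2 * i₀ = q + 1) (l : ℕ)
    (g : (killPR hX hcol hrow hk q hq).X l →ₗ[R] R) :
    ∃ c : C → R, (∀ i, c i ≠ 0 → p i = l) ∧ e' *ᵥ c = c ∧ yF hX hcol hrow hk q hq l c = g := by
  obtain ⟨c, c1, c2, c3⟩ := hk.cx.gi.fun_surj _ g
  refine ⟨c, fun i hi => ?_, c2, LinearMap.ext fun x => (c3 x).symm⟩
  have := c1 i hi
  omega

theorem yF_inj [DecidableEq K] [DecidableEq C] (hX : IsCx deg e d)
    (hcol : ∀ j : ℤ, j < -(-(i₀ : ℤ)) → ColEx deg e d j)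
    (hrow : ∀ j : ℤ, -(i₀ : ℤ) < j → RowEx deg e d j)
    (hk : IsKill deg e d i₀ p e' δ f) (q : ℕ) (hq : 2 * i₀ = q + 1) (l : ℕ)
    {c c' : C → R} (h1 : ∀ i, c i ≠ 0 → p i = l) (h1' : ∀ i, c' i ≠ 0 → p i = l)
    (h2 : e' *ᵥ c = c) (h2' : e' *ᵥ c' = c')
    (h : yF hX hcol hrow hk q hq l c = yF hX hcol hrow hk q hq l c') : c = c' := by
  have h3 : c - c' = 0 := by
    refine hk.cx.gi.fun_inj (0 + (l : ℤ)) _ (fun k hk' => ?_) ?_ fun x => ?_
    · by_cases h0 : c k = 0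
      · have := h1' k fun h4 => hk' (by rw [Pi.sub_apply, h0, h4, sub_zero])
        omega
      · have := h1 k h0
        omega
    · rw [Matrix.mulVec_sub, h2, h2']
    · rw [dotProduct_sub, sub_eq_zero]
      exact LinearMap.congr_fun h x
  exact sub_eq_zero.1 h3

/-- `δ c` has position `l + 1` -/
theorem IsKill.δ_supp (hk : IsKill deg e d i₀ p e' δ f) {l : ℕ} {c : C → R}
    (hc : ∀ i, c i ≠ 0 → p i = l) (i : C) (hi : (δ *ᵥ c) i ≠ 0) : p i = l + 1 := by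
  by_contra hcon
  apply hi
  simp only [Matrix.mulVec, dotProduct]
  refine Finset.sum_eq_zero fun j _ => ?_
  by_cases h4 : c j = 0
  · rw [h4, mul_zero]
  · by_cases h5 : δ i j = 0
    · rw [h5, zero_mul]
    · have h6 := hc j h4
      have h7 := hk.δ_deg i j h5
      omega

/-- columns are exact where the Ext groups of the image vanish -/
theorem colExN_of_ge [DecidableEq K] [DecidableEq C] (hX : IsCx deg e d)
    (hcol : ∀ j : ℤ, j < -(-(i₀ : ℤ)) → ColEx deg e d j)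
    (hrow : ∀ j : ℤ, -(i₀ : ℤ) < j → RowEx deg e d j)
    (hk : IsKill deg e d i₀ p e' δ f) (q : ℕ) (hq : 2 * i₀ = q + 1) {n l : ℕ}
    (hGE : GE R n (KS hX hcol hk q)) (hl : l < n) : ColExN p e' δ l := by
  intro y hy1 hy2 hy3
  have hS := hGE l hl
  obtain ⟨y', hy'⟩ : ∃ y' : C → R, y' = fun i => y i () := ⟨_, rfl⟩
  have g1 : ∀ k, y' k ≠ 0 → p k = l := fun k hk' => hy1 k (by rw [hy'] at hk'; exact hk')
  have g2 : e' *ᵥ y' = y' := by
    funext i
    have := congrFun (congrFun hy2 i) ()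
    rw [hy']
    exact this
  have g3 : δ *ᵥ y' = 0 := by
    funext i
    have := congrFun (congrFun hy3 i) ()
    rw [hy']
    exact this
  have hz : ∀ m, yF hX hcol hrow hk q hq m 0 = 0 := fun m => by
    unfold yF
    refine LinearMap.ext fun x => ?_
    exact dotProduct_zero _
  have hF : yF hX hcol hrow hk q hq l y' ∘ₗ (killPR hX hcol hrow hk q hq).d l = 0 := by
    rw [yF_comp, g3, hz]
  cases l with
  | zero =>
    have h0 := (killPR hX hcol hrow hk q hq).subsingleton_zero_iff.1 hS _ hF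
    have h1 : y' = 0 := yF_inj hX hcol hrow hk q hq 0 g1 (fun i hi => absurd rfl hi) g2
      (Matrix.mulVec_zero _) (h0.trans (hz 0).symm)
    refine ⟨0, ?_⟩
    rw [Matrix.mul_zero]
    funext i u
    have := congrFun h1 i
    rw [hy'] at this
    exact this
  | succ m =>
    obtain ⟨g, hg⟩ := ((killPR hX hcol hrow hk q hq).subsingleton_succ_iff m).1 hS _ hF
    obtain ⟨c, c1, c2, rfl⟩ := yF_surj hX hcol hrow hk q hq m g
    rw [yF_comp] at hg
    have h1 : δ *ᵥ c = y' := yF_inj hX hcol hrow hk q hq (m + 1) (hk.δ_supp c1) g1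
      (by rw [Matrix.mulVec_mulVec, hk.eδ]) g2 hg
    refine ⟨fun i _ => c i, ?_⟩
    funext i u
    have h2 := congrFun h1 i
    rw [hy'] at h2
    exact h2.symm

/-- the cokernel of the column complex is finitely presented -/
theorem colW_fp (h : IsCx deg e d) (a : ℤ) : Module.FinitePresentation R (colW h a) := by
  have h1 := h.star.gi.finite a
  have h2 := h.star.gi.projective a
  have h3 := h.star.gi.finite (a + 1)
  have h4 : Module.FinitePresentation R (GV (fun k => - deg k) eᴴ a) :=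
    Module.finitePresentation_of_projective R _
  refine Module.finitePresentation_of_surjective (mkW h a) (mkW_surj h a) ?_
  have h5 : LinearMap.ker (mkW h a) = LinearMap.range (h.star.dV (j := a + 1) (j' := a) rfl) :=
    Submodule.ext fun x => mkW_eq_zero h a x
  rw [h5, LinearMap.range_eq_map]
  exact Module.Finite.fg_top.map _

variable {W : Type u} [AddCommGroup W] [Module R W] {T : RC R}

theorem loc_es1 (h : AR1 R) (P : Res T W) (q : ℕ) : Loc R q (ES R (q + 1) W) := by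
  intro N hN
  have e : N ≃ₗ[R] (N.map ((esEquiv P q).symm : ES R (q + 1) W →ₗ[R] T.E (q + 1))) :=
    Submodule.equivMapOfInjective _ (esEquiv P q).symm.injective N
  exact GE.congr e.symm (h T P.ex q _ (hN.map _))

/-- `Ext^l(W, R) = 0` for `1 ≤ l < q + 1` -/
theorem coEx_colW [DecidableEq K] (hX : IsCx deg e d)
    (hcol : ∀ j : ℤ, j < -(-(i₀ : ℤ)) → ColEx deg e d j)
    (hrow : ∀ j : ℤ, -(i₀ : ℤ) < j → RowEx deg e d j) (P : Res T (colW hX (-(i₀ : ℤ))))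
    {q : ℕ} (hq : 2 * i₀ = q + 1) (l : ℕ) (h1 : 1 ≤ l) (h2 : l < q + 1) : T.CoEx l := by
  rw [P.coEx_iff]
  obtain ⟨m, rfl⟩ : ∃ m, l = m + 1 := ⟨l - 1, by omega⟩
  rw [(colPR hX (-(i₀ : ℤ)) hcol).subsingleton_succ_iff]
  intro f hf
  obtain ⟨c, rfl⟩ := pF_surj hX (-(i₀ : ℤ)) hcol (m + 1) f
  rw [pF_comp] at hf
  have hc : (c : K → R) ᵥ* d = 0 := by
    have h3 : -(-(i₀ : ℤ) + ((m + 1 : ℕ) : ℤ)) = -(-(i₀ : ℤ) + ((m + 1 + 1 : ℕ) : ℤ)) + 1 := by
      push_cast; ring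
    have h4 := pF_inj hX (-(i₀ : ℤ)) hcol (m + 1 + 1) _ (by ring) (hX.dV h3 c) 0
      (hf.trans (pF_zero _ _ _ _).symm)
    exact congrArg Subtype.val h4
  obtain ⟨x, hx⟩ := (hrow _ (by push_cast; omega)).vec c hc
  exact ⟨pF hX (-(i₀ : ℤ)) hcol m x, by rw [pF_comp, hx]⟩

theorem ge_es (h : ARW R) [DecidableEq K] (hX : IsCx deg e d)
    (hcol : ∀ j : ℤ, j < -(-(i₀ : ℤ)) → ColEx deg e d j)
    (hrow : ∀ j : ℤ, -(i₀ : ℤ) < j → RowEx deg e d j) (P : Res T (colW hX (-(i₀ : ℤ))))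
    {q : ℕ} (hq : 2 * i₀ = q + 1) : GE R (q + 1) (ES R (q + 1) (colW hX (-(i₀ : ℤ)))) :=
  GE.congr (esEquiv P q) (h T P.ex (q + 1) (by omega) fun l h1 h2 =>
    coEx_colW hX hcol hrow P hq l h1 h2)

/-- if the rows generate the homology, the image is everything -/
theorem KS_top [DecidableEq K] (hX : IsCx deg e d)
    (hcol : ∀ j : ℤ, j < -(-(i₀ : ℤ)) → ColEx deg e d j)
    (hk : IsKill deg e d i₀ p e' δ f) (hw : IsWhole deg e d i₀ p f) {q : ℕ}
    (hq : 2 * i₀ = q + 1) : KS hX hcol hk q = ⊤ := by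
  rw [eq_top_iff]
  rintro ξ -
  obtain ⟨g, hg, rfl⟩ := esCls_surj (colPR hX (-(i₀ : ℤ)) hcol) (q + 1) ξ
  obtain ⟨c, rfl⟩ := pF_surj hX (-(i₀ : ℤ)) hcol (q + 1) g
  have hg' := hg
  rw [pF_comp] at hg'
  have hdeg : -(-(i₀ : ℤ) + ((q + 1 : ℕ) : ℤ)) = -(i₀ : ℤ) := by push_cast; omega
  have hc : (c : K → R) ᵥ* d = 0 := by
    have h3 : -(-(i₀ : ℤ) + ((q + 1 : ℕ) : ℤ)) = -(-(i₀ : ℤ) + ((q + 1 + 1 : ℕ) : ℤ)) + 1 := by
      push_cast; ring
    have h4 := pF_inj hX (-(i₀ : ℤ)) hcol (q + 1 + 1) _ (by ring) (hX.dV h3 c) 0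
      (hg'.trans (pF_zero _ _ _ _).symm)
    exact congrArg Subtype.val h4
  obtain ⟨w, x', hw1, hw2⟩ := hw (fun _ => c)
    (fun k hk' => (c.2.1 k hk').trans hdeg) (by funext _; exact c.2.2) (by funext _; exact hc)
  have hw3 : (c : K → R) = w () ᵥ* f + x' () ᵥ* d := congrFun hw2 ()
  -- make `w` homogeneous
  obtain ⟨u, hu⟩ : ∃ u : GV (fun c => (p c : ℤ)) e' 0, (u : C → R) ᵥ* f = w () ᵥ* f := by
    refine ⟨hk.cx.gi.pr 0 (w ()), ?_⟩
    rw [GI.pr_coe, cut_eq (fun k hk' => by have := hw1 k hk'; omega), Matrix.vecMul_vecMul, hk.ef]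
  have hcc : (c : K → R) = (u : C → R) ᵥ* f + x' () ᵥ* d := by rw [hu]; exact hw3
  refine ⟨u, ?_⟩
  have h5 : (x' () ᵥ* d) ᵥ* d = 0 := by
    rw [Matrix.vecMul_vecMul, hX.dd, Matrix.vecMul_zero]
  have h6 : ((u : C → R) ᵥ* f + x' () ᵥ* d) ᵥ* d = 0 := by rw [← hcc]; exact hc
  have h7 : cyc hX (-(i₀ : ℤ)) hcol (q + 1) (c : K → R) hc =
      cyc hX (-(i₀ : ℤ)) hcol (q + 1) ((u : C → R) ᵥ* f) (hk.cy0 u) +
        cyc hX (-(i₀ : ℤ)) hcol (q + 1) (x' () ᵥ* d) h5 :=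
    (cyc_congr hX _ hcol _ hcc hc h6).trans (cyc_add _ _ _ _ _ _ _ _ _)
  -- the class of the boundary vanishes
  have h8 : cyc hX (-(i₀ : ℤ)) hcol (q + 1) (x' () ᵥ* d) h5 = 0 := by
    unfold cyc
    rw [esCls_eq_zero]
    exact ⟨pF hX (-(i₀ : ℤ)) hcol q (x' ()), by rw [pF_comp]⟩
  rw [h8, add_zero] at h7
  exact h7.symm

end

/-- `AusM1` from `AR1`, with the existence of resolutions as a hypothesis -/
theorem ausM1_core {R : Type u} [Ring R] [StarRing R]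
    (hres : ∀ (K : Type u) [AddCommGroup K] [Module R K], Module.FinitePresentation R K →
      ∃ T : RC R, Nonempty (Res T K)) (h : AR1 R) : AusM1 R := by
  intro K C _ _ _ _ deg e d i₀ p e' δ f hX hcol hrow hk l hl
  obtain ⟨q, hq⟩ : ∃ q, 2 * i₀ = q + 1 := ⟨2 * i₀ - 1, by omega⟩
  have hcol' : ∀ j : ℤ, j < -(-(i₀ : ℤ)) → ColEx deg e d j := fun j hj => hcol j (by omega)
  obtain ⟨T, ⟨P⟩⟩ := hres (colW hX (-(i₀ : ℤ))) (colW_fp hX _)
  exact colExN_of_ge hX hcol' hrow hk q hq (loc_es1 h P q _ (KS_fg hX hcol' hk q)) (by omega)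

/-- `AusW` from `ARW`, with the existence of resolutions as a hypothesis -/
theorem ausW_core {R : Type u} [Ring R] [StarRing R]
    (hres : ∀ (K : Type u) [AddCommGroup K] [Module R K], Module.FinitePresentation R K →
      ∃ T : RC R, Nonempty (Res T K)) (h : ARW R) : AusW R := by
  intro K C _ _ _ _ deg e d i₀ p e' δ f hX hcol hrow hk hw l hl
  obtain ⟨q, hq⟩ : ∃ q, 2 * i₀ = q + 1 := ⟨2 * i₀ - 1, by omega⟩
  have hcol' : ∀ j : ℤ, j < -(-(i₀ : ℤ)) → ColEx deg e d j := fun j hj => hcol j (by omega)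
  obtain ⟨T, ⟨P⟩⟩ := hres (colW hX (-(i₀ : ℤ))) (colW_fp hX _)
  refine colExN_of_ge hX hcol' hrow hk q hq (n := q + 1) ?_ (by omega)
  rw [KS_top hX hcol' hk hw hq]
  exact GE.congr Submodule.topEquiv.symm (ge_es h hX hcol' hrow P hq)

end Pool.Agent.UP
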