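import Mathlib
import Pool.Agent.Lib.UP.F9a
import Pool.Agent.Lib.UP.F5b

/-!
TANK UP, stage 2, row F9: `AusM1` from `AR1` and `AusW` from `ARW`, over coherent rings.
-/

set_option autoImplicit false

namespace Pool.Agent.UP

universe u

theorem ausM1_of {S : Type u} [Ring S] [StarRing S] (hc : CohT S) (h : AR1 S) : AusM1 S :=
  ausM1_core (fun K _ _ h' => by have := h'; exact exists_res_coh hc K) h

theorem ausW_of {S : Type u} [Ring S] [StarRing S] (hc : CohT S) (h : ARW S) : AusW S :=
  ausW_core (fun K _ _ h' => by have := h'; exact exists_res_coh hc K) h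

end Pool.Agent.UP
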