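import Mathlib
import Pool.Agent.Lib.UP.Defs4
import Pool.Agent.Lib.UP.U14
import Pool.Agent.Lib.UP.F5b

/-!
TANK UP, stage 2, row F9b: `funM_of`.
-/

set_option autoImplicit false
set_option linter.unusedSectionVars false

open CategoryTheory CategoryTheory.Abelian
open scoped Matrix

namespace Pool.Agent.UP

universe u

/-! ### lifting the identity from a projective to a free resolution -/

section lift

variable {R : Type u} [Ring R]

theorem F9b_lift1 {P N M : Type u} [AddCommGroup P] [Module R P] [AddCommGroup N] [Module R N]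
    [AddCommGroup M] [Module R M] [Module.Projective R P] (f : P →ₗ[R] M) (g : N →ₗ[R] M)
    (h : ∀ x, ∃ y, g y = f x) : ∃ v : P →ₗ[R] N, ∀ x, g (v x) = f x := by
  obtain ⟨v, hv⟩ := Module.projective_lifting_property g.rangeRestrict
    (f.codRestrict (LinearMap.range g) h) g.surjective_rangeRestrict
  exact ⟨v, fun x => congrArg Subtype.val (LinearMap.congr_fun hv x)⟩

variable {K : Type u} [AddCommGroup K] [Module R K] (P' : PR R K) {T : RC R} (P : Res T K)

/-- two consecutive terms of a chain map -/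
def F9b_St (n : ℕ) : Type u :=
  { v : (P'.X n →ₗ[R] (T.ι n → R)) × (P'.X (n + 1) →ₗ[R] (T.ι (n + 1) → R)) //
    ∀ x, v.2 x ᵥ* T.D n = v.1 (P'.d n x) }

theorem F9b_step (n : ℕ) (s : F9b_St P' (T := T) n) (hex : T.Ex n) :
    ∃ w : P'.X (n + 2) →ₗ[R] (T.ι (n + 2) → R),
      ∀ x, w x ᵥ* T.D (n + 1) = s.1.2 (P'.d (n + 1) x) := by
  obtain ⟨w, hw⟩ := F9b_lift1 (s.1.2 ∘ₗ P'.d (n + 1)) (T.D (n + 1)).vecMulLinear (fun x => by
    obtain ⟨y, hy⟩ := hex (s.1.2 (P'.d (n + 1) x)) (by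
      rw [s.2]
      have h1 : P'.d n (P'.d (n + 1) x) = 0 := LinearMap.congr_fun (P'.d_d n) x
      rw [h1, map_zero])
    exact ⟨y, hy⟩)
  exact ⟨w, hw⟩

theorem F9b_start : ∃ s : F9b_St P' (T := T) 0, ∀ x, P.ε (s.1.1 x) = P'.e x := by
  obtain ⟨u0, h0⟩ := F9b_lift1 P'.e P.ε (fun x => P.surj _)
  obtain ⟨u1, h1⟩ := F9b_lift1 (u0 ∘ₗ P'.d 0) (T.D 0).vecMulLinear (fun x => by
    refine P.ker _ ?_
    change P.ε (u0 (P'.d 0 x)) = 0
    rw [h0]
    exact (P'.ex0 _).2 ⟨x, rfl⟩)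
  exact ⟨⟨(u0, u1), h1⟩, h0⟩

/-- the chain map -/
noncomputable def F9b_seq (s0 : F9b_St P' (T := T) 0) (hex : ∀ k, T.Ex k) :
    ∀ n, F9b_St P' (T := T) n
  | 0 => s0
  | n + 1 => ⟨((F9b_seq s0 hex n).1.2, (F9b_step P' n (F9b_seq s0 hex n) (hex n)).choose),
      (F9b_step P' n (F9b_seq s0 hex n) (hex n)).choose_spec⟩

theorem F9b_lift : ∃ v : ∀ n, P'.X n →ₗ[R] (T.ι n → R), (∀ x, P.ε (v 0 x) = P'.e x) ∧
    ∀ n x, v (n + 1) x ᵥ* T.D n = v n (P'.d n x) := by
  obtain ⟨s0, hs⟩ := F9b_start P' P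
  refine ⟨fun n => (F9b_seq P' s0 P.ex n).1.1, hs, fun n x => ?_⟩
  exact (F9b_seq P' s0 P.ex n).2 x

end lift

/-! ### the total complex of an `RC` in the positions `≤ q` -/

section tot

variable {R : Type u} [Ring R] (T : RC R) (q : ℕ)

def F9b_ι : Type := Σ k : Fin (q + 1), T.ι k

instance : Fintype (F9b_ι T q) := inferInstanceAs (Fintype (Σ k : Fin (q + 1), T.ι k))
instance : DecidableEq (F9b_ι T q) := inferInstanceAs (DecidableEq (Σ k : Fin (q + 1), T.ι k))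

def F9b_D : Matrix (F9b_ι T q) (F9b_ι T q) R := fun a b =>
  if h : (a.1 : ℕ) = (b.1 : ℕ) + 1 then T.D b.1 (cast (congrArg T.ι h) a.2) b.2 else 0

theorem F9b_D_deg (a b : F9b_ι T q) (h : F9b_D T q a b ≠ 0) : (a.1 : ℕ) = (b.1 : ℕ) + 1 := by
  by_contra hcon
  exact h (dif_neg hcon)

theorem F9b_D_apply {k : ℕ} (hk : k + 1 < q + 1) (i : T.ι (k + 1)) (j : T.ι k) :
    F9b_D T q ⟨⟨k + 1, hk⟩, i⟩ ⟨⟨k, by omega⟩, j⟩ = T.D k i j := by
  unfold F9b_D
  rw [dif_pos rfl]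
  rfl

/-- the part of position `k` of a row -/
def F9b_part (v : F9b_ι T q → R) (k : ℕ) (hk : k < q + 1) : T.ι k → R := fun i => v ⟨⟨k, hk⟩, i⟩

theorem F9b_vecMul (v : F9b_ι T q → R) {k : ℕ} (hk : k + 1 < q + 1) (j : T.ι k) :
    (v ᵥ* F9b_D T q) ⟨⟨k, by omega⟩, j⟩ = (F9b_part T q v (k + 1) hk ᵥ* T.D k) j := by
  simp only [Matrix.vecMul, dotProduct]
  rw [show (∑ a : F9b_ι T q, v a * F9b_D T q a ⟨⟨k, by omega⟩, j⟩) =
    ∑ l : Fin (q + 1), ∑ i : T.ι l, v ⟨l, i⟩ * F9b_D T q ⟨l, i⟩ ⟨⟨k, by omega⟩, j⟩ from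
    Fintype.sum_sigma (fun a : (Σ k : Fin (q + 1), T.ι k) =>
      v a * F9b_D T q a ⟨⟨k, by omega⟩, j⟩)]
  rw [Finset.sum_eq_single (⟨k + 1, hk⟩ : Fin (q + 1))]
  · refine Finset.sum_congr rfl fun i _ => ?_
    rw [F9b_D_apply]
    rfl
  · intro l _ hl
    refine Finset.sum_eq_zero fun i _ => ?_
    by_cases h : F9b_D T q ⟨l, i⟩ ⟨⟨k, by omega⟩, j⟩ = 0
    · rw [h, mul_zero]
    · exact absurd (Fin.ext (F9b_D_deg T q _ _ h)) hl
  · intro h
    exact absurd (Finset.mem_univ _) h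

theorem F9b_vecMul_last (v : F9b_ι T q → R) (j : T.ι q) :
    (v ᵥ* F9b_D T q) ⟨⟨q, by omega⟩, j⟩ = 0 := by
  simp only [Matrix.vecMul, dotProduct]
  refine Finset.sum_eq_zero fun a _ => ?_
  by_cases h : F9b_D T q a ⟨⟨q, by omega⟩, j⟩ = 0
  · rw [h, mul_zero]
  · have h1 := F9b_D_deg T q _ _ h
    have h2 := a.1.2
    change (a.1 : ℕ) = q + 1 at h1
    omega

theorem F9b_DD : F9b_D T q * F9b_D T q = 0 := by
  refine Matrix.ext fun a b => ?_
  obtain ⟨⟨k, hk⟩, j⟩ := b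
  change ((fun x => F9b_D T q a x) ᵥ* F9b_D T q) ⟨⟨k, hk⟩, j⟩ = 0
  by_cases h : k + 1 < q + 1
  · refine (F9b_vecMul T q (fun x => F9b_D T q a x) h j).trans ?_
    have h1 : F9b_part T q (fun x => F9b_D T q a x) (k + 1) h ᵥ* T.D k = 0 := by
      obtain ⟨⟨m, hm⟩, i⟩ := a
      by_cases h2 : m = k + 1 + 1
      · subst h2
        have h3 : F9b_part T q (fun x => F9b_D T q ⟨⟨k + 1 + 1, hm⟩, i⟩ x) (k + 1) h =
            T.D (k + 1) i := by
          funext b
          exact F9b_D_apply T q hm i b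
        rw [h3]
        have h4 := congrFun (T.DD k) i
        exact h4
      · have h3 : F9b_part T q (fun x => F9b_D T q ⟨⟨m, hm⟩, i⟩ x) (k + 1) h = 0 := by
          funext b
          by_contra hcon
          exact h2 (F9b_D_deg T q _ _ hcon)
        rw [h3, Matrix.zero_vecMul]
    rw [h1]
    rfl
  · obtain rfl : k = q := by omega
    exact F9b_vecMul_last T k _ j

/-- rows are exact in the positions `> 0` -/
theorem F9b_exact (hT : ∀ k, T.Ex k) (he : IsEmpty (T.ι (q + 1))) (l : ℕ) (v : F9b_ι T q → R)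
    (hv : ∀ b, v b ≠ 0 → (b.1 : ℕ) = l + 1) (h0 : v ᵥ* F9b_D T q = 0) :
    ∃ v' : F9b_ι T q → R, v' ᵥ* F9b_D T q = v := by
  by_cases hl : l + 1 < q + 1
  · have h1 : F9b_part T q v (l + 1) hl ᵥ* T.D l = 0 := by
      funext j
      rw [← F9b_vecMul T q v hl j, h0]
      rfl
    obtain ⟨y, hy⟩ := hT l _ h1
    by_cases hl2 : l + 1 + 1 < q + 1
    · let v' : F9b_ι T q → R := fun a => if h : (a.1 : ℕ) = l + 2 then
        y (cast (congrArg T.ι h) a.2) else 0
      have hv' : ∀ (k : ℕ) (hk : k < q + 1) (i : T.ι k), k ≠ l + 2 → v' ⟨⟨k, hk⟩, i⟩ = 0 :=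
        fun k hk i h => dif_neg h
      have hv2 : F9b_part T q v' (l + 1 + 1) hl2 = y := by
        funext i
        exact (dif_pos rfl).trans rfl
      refine ⟨v', ?_⟩
      funext ⟨⟨k, hk⟩, j⟩
      by_cases h : k + 1 < q + 1
      · refine (F9b_vecMul T q v' h j).trans ?_
        by_cases hkl : k = l + 1
        · subst hkl
          rw [hv2, hy]
          rfl
        · have h3 : F9b_part T q v' (k + 1) h = 0 := by
            funext i
            exact hv' (k + 1) h i (by omega)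
          rw [h3, Matrix.zero_vecMul]
          by_contra hcon
          exact hkl (hv ⟨⟨k, hk⟩, j⟩ fun h0 => hcon (by rw [h0]; rfl))
      · obtain rfl : k = q := by omega
        refine (F9b_vecMul_last T k v' j).trans ?_
        by_contra hcon
        have := hv ⟨⟨k, hk⟩, j⟩ fun h0 => hcon h0.symm
        change k = l + 1 at this
        omega
    · have hq : q = l + 1 := by omega
      subst hq
      refine ⟨0, ?_⟩
      rw [Matrix.zero_vecMul]
      funext ⟨⟨k, hk⟩, j⟩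
      by_contra hcon
      have hk2 : k = l + 1 := hv ⟨⟨k, hk⟩, j⟩ fun h0 => hcon (by rw [h0]; rfl)
      subst hk2
      apply hcon
      have h4 : F9b_part T (l + 1) v (l + 1) hl = 0 := by
        rw [← hy]
        have h5 : y = 0 := funext fun i => (he.false i).elim
        rw [h5, Matrix.zero_vecMul]
      exact (congrFun h4 j).symm
  · refine ⟨0, ?_⟩
    rw [Matrix.zero_vecMul]
    funext a
    by_contra hcon
    have h1 := hv a fun h0 => hcon (by rw [h0]; rfl)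
    have h2 := a.1.2
    omega

theorem F9b_core {C : Type} [Fintype C] {p : C → ℕ} {e' δ : Matrix C C R} {y : Matrix C Unit R}
    (hT : ∀ k, T.Ex k) (he : IsEmpty (T.ι (q + 1))) (hq : 1 ≤ q) (B : ∀ n, Matrix C (T.ι n) R)
    (hB : ∀ n i b, B n i b ≠ 0 → p i = n) (heB : ∀ n, e' * B n = B n)
    (hδB : ∀ n, δ * B n = B (n + 1) * T.D n)
    (hfin : (∃ H : Matrix C (T.ι 1) R, ∀ i, p i = 0 → ∀ b, B 0 i b = (H * T.D 0) i b) →
      ∃ z : Matrix C Unit R, y = δ * z) : FunD p e' δ q y := by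
  refine ⟨F9b_ι T q, inferInstance, inferInstance, fun a => (a.1 : ℕ), F9b_D T q,
    fun i a => B a.1 i a.2, F9b_D_deg T q, fun a => Nat.lt_succ_iff.1 a.1.2,
    fun i a h => hB _ i _ h, F9b_DD T q, ?_, ?_, ?_, ?_⟩
  · intro l v hv h0
    obtain ⟨v', hv'⟩ := F9b_exact T q hT he l (v ()) hv (by
      have := congrFun h0 ()
      exact this)
    exact ⟨fun _ => v', by funext _; exact hv'.symm⟩
  · refine Matrix.ext fun i a => ?_
    have := congrFun (congrFun (heB a.1) i) a.2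
    exact this
  · refine Matrix.ext fun i a => ?_
    obtain ⟨⟨k, hk⟩, j⟩ := a
    have h1 : (δ * B k) i j = (B (k + 1) * T.D k) i j := by rw [hδB]
    refine h1.trans ?_
    change _ = ((fun a : F9b_ι T q => B a.1 i a.2) ᵥ* F9b_D T q) ⟨⟨k, hk⟩, j⟩
    by_cases h : k + 1 < q + 1
    · exact (F9b_vecMul T q (fun a : F9b_ι T q => B a.1 i a.2) h j).symm
    · obtain rfl : k = q := by omega
      rw [F9b_vecMul_last T k, Matrix.mul_apply]
      exact Finset.sum_eq_zero fun c _ => (he.false c).elim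
  · rintro ⟨H, hH⟩
    refine hfin ⟨fun i c => H i ⟨⟨1, by omega⟩, c⟩, fun i hi b => ?_⟩
    refine (hH i hi ⟨⟨0, by omega⟩, b⟩).trans ?_
    exact F9b_vecMul T q (H i) (k := 0) (by omega) b

end tot

/-! ### the theorem -/

section main

variable {R : Type u} [Ring R] [StarRing R] {K : Type} [Fintype K] {deg : K → ℤ}
  {e d : Matrix K K R}

theorem F9b_fpW (h : IsCx deg e d) (a : ℤ) : Module.FinitePresentation R (colW h a) := by
  have h1 : Module.Projective R (GV (fun k => - deg k) eᴴ a) := h.star.gi.projective a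
  have h2 : Module.Finite R (GV (fun k => - deg k) eᴴ a) := h.star.gi.finite a
  have h3 : Module.Finite R (GV (fun k => - deg k) eᴴ (a + 1)) := h.star.gi.finite (a + 1)
  have h4 : Module.FinitePresentation R (GV (fun k => - deg k) eᴴ a) :=
    Module.finitePresentation_of_projective _ _
  refine Module.finitePresentation_of_surjective (mkW h a) (mkW_surj h a) ?_
  have h5 : LinearMap.ker (mkW h a) = LinearMap.range (h.star.dV (j := a + 1) (j' := a) rfl) := by
    ext x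
    rw [LinearMap.mem_ker, mkW_eq_zero]
  rw [h5, LinearMap.range_eq_map]
  exact Module.Finite.fg_top.map _

end main

section pr

variable {R : Type u} [Ring R] {C : Type} [Fintype C] [DecidableEq C] {deg : C → ℤ}
  {e' δ : Matrix C C R}

theorem F9b_pr_e (h : IsCx deg e' δ) (j : ℤ) (v : C → R) : h.gi.pr j (v ᵥ* e') = h.gi.pr j v := by
  refine Subtype.ext ?_
  rw [h.gi.pr_coe, h.gi.pr_coe, cut_vecMul_zero h.e_deg, Matrix.vecMul_vecMul, h.ee]

theorem F9b_pr_d (h : IsCx deg e' δ) {j j' : ℤ} (hj : j = j' + 1) (v : C → R) :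
    h.gi.pr j' (v ᵥ* δ) = h.dV hj (h.gi.pr j v) := by
  refine Subtype.ext ?_
  rw [h.gi.pr_coe, h.dV_coe, h.gi.pr_coe, Matrix.vecMul_vecMul, h.ed]
  subst hj
  rw [cut_vecMul h.d_deg, Matrix.vecMul_vecMul, h.de]

theorem F9b_pr_single (h : IsCx deg e' δ) (j : ℤ) (i : C) (hi : deg i ≠ j) :
    h.gi.pr j (Pi.single i 1) = 0 := by
  refine Subtype.ext ?_
  rw [h.gi.pr_coe]
  have h0 : cut deg j (Pi.single i (1 : R)) = 0 := by
    funext k
    rw [cut_apply]
    split_ifs with h1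
    · rw [Pi.single_apply, if_neg, Pi.zero_apply]
      rintro rfl
      exact hi h1
    · rfl
  rw [h0, Matrix.zero_vecMul]
  rfl

end pr

theorem funM_of {S : Type u} [Ring S] [StarRing S] (hc : CohT S) (h : ARF S) : FunM S := by
  intro K C _ _ _ _ deg e d i₀ p e' δ f hX hcol hrow hk q hq y hy1 hy2 hy3
  have hcol' : ∀ j : ℤ, j < -(-(i₀ : ℤ)) → ColEx deg e d j := fun j hj => hcol j (by omega)
  have hfpW := F9b_fpW hX (-(i₀ : ℤ))
  obtain ⟨T, ⟨rT⟩⟩ := exists_res_coh hc (colW hX (-(i₀ : ℤ)))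
  obtain ⟨φ, hφ⟩ : ∃ φ, φ = phi hX hcol' hk q := ⟨_, rfl⟩
  obtain ⟨φ', hφ'⟩ : ∃ φ' : GV (fun c => (p c : ℤ)) e' 0 →ₗ[S] T.E (q + 1),
      φ' = ((esEquiv rT q).symm : ES S (q + 1) (colW hX (-(i₀ : ℤ))) →ₗ[S] T.E (q + 1)) ∘ₗ φ :=
    ⟨_, rfl⟩
  have hfin : (LinearMap.range φ').FG := by
    have := hk.cx.gi.finite 0
    rw [LinearMap.range_eq_map]
    exact Module.Finite.fg_top.map φ'
  have hfpE := fp_E hc T (q + 1)
  have hfpK := fp_submodule hc (LinearMap.range φ') hfin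
  obtain ⟨P, ⟨rP⟩⟩ := exists_res_coh hc (LinearMap.range φ')
  have hker : ∀ x : GV (fun c => (p c : ℤ)) e' 0,
      φ'.rangeRestrict x = 0 ↔ ∃ y : C → S, y ᵥ* δ = x := by
    intro x
    rw [← phi_eq_zero hX hcol' hk q hq.symm x, ← hφ]
    have h1 : φ' x = 0 ↔ φ x = 0 := by
      rw [hφ']
      exact (esEquiv rT q).symm.map_eq_zero_iff
    exact Subtype.ext_iff.trans h1
  have hr : ∀ j, 0 < j → ∀ x : GV (fun c => (p c : ℤ)) e' j, (x : C → S) ᵥ* δ = 0 →
      ∃ y : C → S, y ᵥ* δ = x := by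
    intro j hj x hx
    refine hk.rowex' j x hx ?_
    refine (hrow (-(i₀ : ℤ) + j) (by omega)).vec (hk.F j x) ?_
    rw [hk.F_coe, hk.fd, hx, Matrix.zero_vecMul, neg_zero]
  let P' : PR S (LinearMap.range φ') := hk.cx.toPR 0 φ'.rangeRestrict
    φ'.surjective_rangeRestrict hker hr
  -- the functional
  obtain ⟨y', hy'⟩ : ∃ y' : C → S, y' = fun i => y i () := ⟨_, rfl⟩
  have g1 : ∀ k, y' k ≠ 0 → (p k : ℤ) = 0 + (q : ℤ) := by
    intro k hk'
    have := hy1 k (by rw [hy'] at hk'; exact hk')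
    omega
  have g2 : e' *ᵥ y' = y' := by
    funext i
    have := congrFun (congrFun hy2 i) ()
    rw [hy']
    exact this
  have g3 : δ *ᵥ y' = 0 := by
    funext i
    have := congrFun (congrFun hy3 i) ()
    rw [hy']
    exact this
  have gi := hk.cx.gi
  let F : P'.X q →ₗ[S] S := dotF y' ∘ₗ (GV (fun c => (p c : ℤ)) e' (0 + (q : ℤ))).subtype
  have hF : F ∘ₗ P'.d q = 0 := by
    refine LinearMap.ext fun (x : GV (fun c => (p c : ℤ)) e' (0 + ((q + 1 : ℕ) : ℤ))) => ?_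
    change ((x : C → S) ᵥ* δ) ⬝ᵥ y' = 0
    rw [← Matrix.dotProduct_mulVec, g3, dotProduct_zero]
  obtain ⟨ξ, hξ⟩ := tCls_surj rP q (esCls P' q F hF)
  obtain ⟨Cq, Z, hCex, hCe, hCf⟩ := h T rT.ex q (LinearMap.range φ') hfin P rP ξ ξ.2
  obtain ⟨v, hv0, hv⟩ := F9b_lift P' rP
  let pr' : ∀ n : ℕ, (C → S) →ₗ[S] P'.X n := fun n => hk.cx.gi.pr (0 + (n : ℤ))
  have pr_self : ∀ (n : ℕ) (x : GV (fun c => (p c : ℤ)) e' (0 + (n : ℤ))),
      pr' n (x : C → S) = x := fun n x => hk.cx.gi.pr_self _ x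
  have pr_e : ∀ (n : ℕ) (w : C → S), pr' n (w ᵥ* e') = pr' n w := fun n w => F9b_pr_e hk.cx _ w
  have pr_d : ∀ (n : ℕ) (w : C → S), pr' n (w ᵥ* δ) = P'.d n (pr' (n + 1) w) :=
    fun n w => F9b_pr_d hk.cx (by push_cast; ring) w
  have pr_single : ∀ (n : ℕ) (i : C), p i ≠ n → pr' n (Pi.single i 1) = 0 :=
    fun n i hi => F9b_pr_single hk.cx _ i (by omega)
  obtain ⟨A, hA⟩ : ∃ A : ∀ n, Matrix C (P.ι n) S, A = fun n i => v n (pr' n (Pi.single i 1)) :=
    ⟨_, rfl⟩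
  have hAv : ∀ (n : ℕ) (w : C → S), w ᵥ* A n = v n (pr' n w) := by
    intro n w
    have h1 : (A n).vecMulLinear = v n ∘ₗ pr' n := by
      refine LinearMap.pi_ext' fun i => LinearMap.ext_ring ?_
      change (Pi.single i (1 : S)) ᵥ* A n = v n (pr' n (Pi.single i 1))
      rw [Matrix.single_one_vecMul, hA]
      rfl
    exact LinearMap.congr_fun h1 w
  have hAe : ∀ n, e' * A n = A n := by
    intro n
    refine Matrix.ext fun i => congrFun ?_
    change (e' i) ᵥ* A n = A n i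
    have h1 : e' i = (Pi.single i (1 : S)) ᵥ* e' := by rw [Matrix.single_one_vecMul]; rfl
    rw [h1, hAv, pr_e, hA]
  have hAd : ∀ n, δ * A n = A (n + 1) * P.D n := by
    intro n
    refine Matrix.ext fun i => congrFun ?_
    change (δ i) ᵥ* A n = (A (n + 1) i) ᵥ* P.D n
    have h1 : δ i = (Pi.single i (1 : S)) ᵥ* δ := by rw [Matrix.single_one_vecMul]; rfl
    rw [h1, hAv, pr_d, hA]
    exact (hv n _).symm
  refine F9b_core Cq q hCex hCe (by omega) (fun n => A n * Z.U n) ?_ ?_ ?_ ?_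
  · intro n i b hb
    by_contra hcon
    apply hb
    have h1 : A n i = 0 := by
      rw [hA]
      change v n (pr' n (Pi.single i 1)) = 0
      rw [pr_single n i hcon, map_zero]
    change (A n i ᵥ* Z.U n) b = 0
    rw [h1, Matrix.zero_vecMul]
    rfl
  · intro n
    change e' * (A n * Z.U n) = A n * Z.U n
    rw [← Matrix.mul_assoc, hAe]
  · intro n
    change δ * (A n * Z.U n) = A (n + 1) * Z.U (n + 1) * Cq.D n
    rw [← Matrix.mul_assoc, hAd, Matrix.mul_assoc, Matrix.mul_assoc, Z.comm]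
  · rintro ⟨H, hH⟩
    have hrow' : ∀ s : P.ι 0, ∃ w : Cq.ι 1 → S, Z.U 0 s = w ᵥ* Cq.D 0 := by
      intro s
      obtain ⟨u, hu⟩ := P'.surj (rP.ε (Pi.single s 1))
      obtain ⟨t, ht⟩ := rP.ker (v 0 u - Pi.single s 1) (by rw [map_sub, hv0, hu, sub_self])
      obtain ⟨u0, hu0⟩ : ∃ u0 : GV (fun c => (p c : ℤ)) e' (0 + ((0 : ℕ) : ℤ)), u0 = u := ⟨u, rfl⟩
      have h1 : v 0 u = (u0 : C → S) ᵥ* A 0 := by
        rw [hAv, pr_self 0 u0, hu0]
      have h2 : (u0 : C → S) ᵥ* (A 0 * Z.U 0) = (u0 : C → S) ᵥ* (H * Cq.D 0) := by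
        funext b
        simp only [Matrix.vecMul, dotProduct]
        refine Finset.sum_congr rfl fun i _ => ?_
        by_cases h3 : (u0 : C → S) i = 0
        · rw [h3, zero_mul, zero_mul]
        · have h4 : (p i : ℤ) = 0 + ((0 : ℕ) : ℤ) := u0.2.1 i h3
          rw [hH i (by omega) b]
      refine ⟨(u0 : C → S) ᵥ* H - t ᵥ* Z.U 1, ?_⟩
      have h5 : Z.U 0 s = (Pi.single s (1 : S)) ᵥ* Z.U 0 := by
        rw [Matrix.single_one_vecMul]
        rfl
      have h6 : (Pi.single s (1 : S) : P.ι 0 → S) = v 0 u - t ᵥ* P.D 0 := by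
        rw [ht]
        abel
      rw [h5, h6, Matrix.sub_vecMul, Matrix.sub_vecMul, h1, Matrix.vecMul_vecMul, h2,
        Matrix.vecMul_vecMul, Matrix.vecMul_vecMul, Matrix.vecMul_vecMul, Z.comm 0]
    choose W hW using hrow'
    have hbd : (ξ : P.ι q → S) ∈ P.bd q := hCf ⟨W, funext hW⟩
    obtain ⟨m, rfl⟩ : ∃ m, q = m + 1 := ⟨q - 1, by omega⟩
    have h1 : tCls rP (m + 1) ξ = 0 := by
      rw [← LinearMap.mem_ker, tCls_ker]
      exact hbd
    rw [hξ, esCls_eq_zero] at h1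
    obtain ⟨g, hg⟩ := h1
    obtain ⟨c, c1, c2, c3⟩ := gi.fun_surj _ g
    have h1 : y' - δ *ᵥ c = 0 := by
      refine gi.fun_inj (0 + ((m + 1 : ℕ) : ℤ)) _ (fun k hk' => ?_) ?_ fun x => ?_
      · by_cases h2 : y' k = 0
        · have h3 : (δ *ᵥ c) k ≠ 0 := fun h0 => hk' (by rw [Pi.sub_apply, h2, h0, sub_zero])
          by_contra hcon
          apply h3
          simp only [Matrix.mulVec, dotProduct]
          refine Finset.sum_eq_zero fun i _ => ?_
          by_cases h4 : c i = 0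
          · rw [h4, mul_zero]
          · by_cases h5 : δ k i = 0
            · rw [h5, zero_mul]
            · have h6 : (p i : ℤ) = 0 + (m : ℤ) := c1 i h4
              have h7 := hk.δ_deg k i h5
              exact absurd (by push_cast; omega) hcon
        · exact g1 k h2
      · rw [Matrix.mulVec_sub, g2, Matrix.mulVec_mulVec, hk.eδ]
      · rw [dotProduct_sub, sub_eq_zero]
        have h2 := LinearMap.congr_fun hg x
        have h3 : (x : C → S) ⬝ᵥ y' = g (P'.d m x) := h2.symm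
        rw [h3]
        refine (c3 (P'.d m x)).trans ?_
        change ((x : C → S) ᵥ* δ) ⬝ᵥ c = _
        rw [← Matrix.dotProduct_mulVec]
    refine ⟨fun i _ => c i, ?_⟩
    funext i u
    have h2 := congrFun (sub_eq_zero.1 h1) i
    rw [hy'] at h2
    exact h2

end Pool.Agent.UP
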