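import Mathlib
import Pool.Agent.Lib.UP.F4Rc
import Pool.Agent.Lib.UP.F6b
import Pool.Agent.Lib.UP.F9
import Pool.Agent.Lib.UP.F9b
import Pool.Agent.Lib.UP.TrBr

/-!
# TANK UP, stage 2: all the facts in matrix form
-/

set_option autoImplicit false

namespace Pool.Agent.UP

universe u

/-- from free resolutions to matrices -/
theorem RC4.facts {S : Type u} [Ring S] [StarRing S] {g : ℕ} (h : RC4 S g) : Facts4 S (g + 1) :=
  ⟨h.coh, pdT_of_fl h.coh h.fl, ausM1_of h.coh h.ar1, ausW_of h.coh h.arw, funM_of h.coh h.arf,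
    endM_of_fl_coh h.coh h.fl⟩

theorem facts4_of {X : Type} [Fintype X] [DecidableEq X] {R S : Type u} [Ring R] [StarRing R]
    [Ring S] [StarRing S] [IsNoetherianRing R] (L : SkFS X R S) (h : AR R) {g : ℕ}
    (hg : FL R g) : Facts4 S (g + 2) := (rc4_of L h hg).facts

end Pool.Agent.UP
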