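import Mathlib
import Pool.Agent.Lib.UP.F11
import Pool.Agent.Lib.UP.F4Of

/-!
# TANK UP, stage 2: `facts4_group`
-/

set_option autoImplicit false

open MonoidAlgebra

namespace Pool.Agent.UP

universe u v w

/-- the ring theory of `A[H]`, `H` an extension by a free group -/
theorem rc4_group {A : Type u} [CommRing A] [StarRing A] {H : Type v} [Group H]
    (N : Subgroup H) [N.Normal] {X : Type} [Fintype X]
    (e : H ⧸ N ≃* FreeGroup X) {g : ℕ} (h : NFacts A N g) :
    @RC4 (MonoidAlgebra A H) _ (starMA A H) (g + 1) := by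
  classical
  letI := starMA A N
  letI := starMA A H
  obtain ⟨L⟩ := exists_skFS (A := A) N e
  haveI := h.1
  exact rc4_of L h.2.1 h.2.2

/-- stage 2 for one group -/
theorem facts4_group {A : Type u} [CommRing A] [StarRing A] {H : Type v} [Group H]
    (N : Subgroup H) [N.Normal] {X : Type} [Fintype X]
    (e : H ⧸ N ≃* FreeGroup X) {g : ℕ} (h : NFacts A N g) :
    Facts4 (MonoidAlgebra A H) (g + 2) := by
  classical
  letI := starMA A N
  letI := starMA A H
  obtain ⟨L⟩ := exists_skFS (A := A) N e
  haveI := h.1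
  exact facts4_of L h.2.1 h.2.2

end Pool.Agent.UP
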