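import Pool.Agent.Lib.UP.GrpSkL
import Pool.Agent.Lib.UP.Defs

/-!
TANK UP, row R10, group side: poly-`Z` groups and induction over their group rings.
-/

set_option autoImplicit false

open MonoidAlgebra

namespace Pool.Agent.UP

universe u v w

theorem polyZ_zero {H : Type v} [Group H] : PolyZ 0 H ↔ Subsingleton H := Iff.rfl

theorem polyZ_succ {d : ℕ} {H : Type v} [Group H] :
    PolyZ (d + 1) H ↔ ∃ f : H →* Multiplicative ℤ, PolyZ d f.ker := Iff.rfl

/-- subgroups of poly-`ℤ` groups (in the form of injective homomorphisms) -/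
theorem PolyZ.of_injective {d : ℕ} : ∀ {H : Type v} {K : Type w} [Group H] [Group K] (g : K →* H),
    Function.Injective g → PolyZ d H → PolyZ d K := by
  induction d with
  | zero =>
    intro H K _ _ g hg h
    rw [polyZ_zero] at h ⊢
    exact hg.subsingleton
  | succ d ih =>
    intro H K _ _ g hg h
    obtain ⟨f, hf⟩ := polyZ_succ.1 h
    refine polyZ_succ.2 ⟨f.comp g, ?_⟩
    refine ih (H := f.ker) (K := (f.comp g).ker)
      ((g.comp (f.comp g).ker.subtype).codRestrict f.ker fun x => ?_) ?_ hf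
    · exact x.2
    · intro x y hxy
      have h1 : g x = g y := congrArg Subtype.val hxy
      exact Subtype.ext (hg h1)

theorem PolyZ.equiv {d : ℕ} {H : Type v} {K : Type w} [Group H] [Group K] (e : H ≃* K)
    (h : PolyZ d H) : PolyZ d K :=
  h.of_injective e.symm.toMonoidHom e.symm.injective

theorem PolyZ.subgroup {d : ℕ} {H : Type v} [Group H] (h : PolyZ d H) (K : Subgroup H) :
    PolyZ d K :=
  h.of_injective K.subtype K.subtype_injective

theorem PolyZ.of_le {d : ℕ} {G : Type v} [Group G] {H K : Subgroup G} (hKH : K ≤ H)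
    (h : PolyZ d H) : PolyZ d K :=
  h.of_injective (Subgroup.inclusion hKH) (Subgroup.inclusion_injective hKH)

theorem PolyZ.succ {d : ℕ} {H : Type v} [Group H] (h : PolyZ d H) : PolyZ (d + 1) H :=
  polyZ_succ.2 ⟨1, h.subgroup _⟩

theorem PolyZ.mono {d e : ℕ} (hde : d ≤ e) {H : Type v} [Group H] (h : PolyZ d H) :
    PolyZ e H := by
  induction e, hde using Nat.le_induction with
  | base => exact h
  | succ e _ ih => exact ih.succ

/-- `ℤ^m` is poly-`ℤ` -/
theorem polyZ_pi (m : ℕ) : PolyZ m (Multiplicative (Fin m → ℤ)) := by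
  induction m with
  | zero => exact polyZ_zero.2 inferInstance
  | succ m ih =>
    refine polyZ_succ.2 ⟨AddMonoidHom.toMultiplicative (Pi.evalAddMonoidHom (fun _ => ℤ) 0), ?_⟩
    refine ih.of_injective ((AddMonoidHom.toMultiplicative
      (LinearMap.funLeft ℤ ℤ (Fin.succ : Fin m → Fin (m + 1))).toAddMonoidHom).comp
      (Subgroup.subtype _)) ?_
    rintro ⟨x, hx⟩ ⟨y, hy⟩ hxy
    refine Subtype.ext ?_
    change (fun i : Fin m => x.toAdd i.succ) = (fun i : Fin m => y.toAdd i.succ) at hxy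
    refine Multiplicative.toAdd.injective ?_
    funext i
    refine Fin.cases ?_ (fun j => congrFun hxy j) i
    exact (show x.toAdd 0 = 0 from hx).trans (show y.toAdd 0 = 0 from hy).symm

theorem polyZ_int : PolyZ 1 (Multiplicative ℤ) := by
  refine polyZ_succ.2 ⟨MonoidHom.id _, ?_⟩
  rw [polyZ_zero]
  exact ⟨fun a b => Subtype.ext (a.2.trans b.2.symm)⟩

/-- a homomorphism to `ℤ` is trivial, or its image is generated by a nontrivial element -/
theorem exists_gen {H : Type v} [Group H] (f : H →* Multiplicative ℤ) (hf : f.ker ≠ ⊤) :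
    ∃ t : H, f t ≠ 1 ∧ ∀ h, ∃ j : ℤ, f h = (f t) ^ j := by
  obtain ⟨g, hg⟩ := IsCyclic.exists_generator (α := f.range)
  obtain ⟨t, ht⟩ := g.2
  have h1 : ∀ h, ∃ j : ℤ, f h = (f t) ^ j := by
    intro h
    obtain ⟨j, hj⟩ := Subgroup.mem_zpowers_iff.1 (hg ⟨f h, h, rfl⟩)
    refine ⟨j, ?_⟩
    have h2 := congrArg Subtype.val hj
    rw [ht]
    simpa using h2.symm
  refine ⟨t, ?_, h1⟩
  intro h2
  apply hf
  rw [Subgroup.eq_top_iff']
  intro h
  obtain ⟨j, hj⟩ := h1 h
  rw [MonoidHom.mem_ker, hj, h2, one_zpow]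

theorem zpow_inj_of_ne {x : Multiplicative ℤ} (hx : x ≠ 1) {i j : ℤ} (h : x ^ i = x ^ j) :
    i = j := by
  have h2 := congrArg Multiplicative.toAdd h
  rw [toAdd_zpow, toAdd_zpow, smul_eq_mul, smul_eq_mul] at h2
  refine mul_right_cancel₀ ?_ h2
  intro h3
  exact hx (Multiplicative.toAdd.injective (h3.trans toAdd_one.symm))

/-- the extension given by a nontrivial homomorphism to `ℤ` -/
theorem exists_zext {H : Type v} [Group H] (f : H →* Multiplicative ℤ) (hf : f.ker ≠ ⊤) :
    Nonempty (ZExt f.ker H) := by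
  obtain ⟨t, ht, hg⟩ := exists_gen f hf
  choose k hk using hg
  refine ⟨{ i := f.ker.subtype, inj := Subtype.val_injective,
            phi := { toFun := fun h => Multiplicative.ofAdd (k h), map_one' := ?_, map_mul' := ?_ }
            ker := ?_, t := t, phi_t := ?_ }⟩
  · have h1 : k 1 = 0 := by
      refine zpow_inj_of_ne ht ?_
      rw [← hk, map_one, zpow_zero]
    rw [h1, ofAdd_zero]
  · intro a b
    rw [← ofAdd_add]
    congr 1
    refine zpow_inj_of_ne ht ?_
    rw [← hk, map_mul, hk, hk b, zpow_add, ← hk, ← hk]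
  · intro h
    constructor
    · intro h1
      have h2 : k h = 0 := h1
      refine ⟨⟨h, ?_⟩, rfl⟩
      rw [MonoidHom.mem_ker, hk, h2, zpow_zero]
    · rintro ⟨n, rfl⟩
      change Multiplicative.ofAdd (k n) = 1
      have h2 : k n = 0 := by
        refine zpow_inj_of_ne ht ?_
        rw [← hk, zpow_zero]
        exact n.2
      rw [h2, ofAdd_zero]
  · change Multiplicative.ofAdd (k t) = _
    have h2 : k t = 1 := by
      refine zpow_inj_of_ne ht ?_
      rw [← hk, zpow_one]
    rw [h2]

/-- poly-`ℤ` groups: induction by extensions by `ℤ` -/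
theorem PolyZ.rec_ext {P : ℕ → (H : Type v) → [Group H] → Prop}
    (h0 : ∀ (H : Type v) [Group H] [Subsingleton H], P 0 H)
    (hiso : ∀ (n : ℕ) (H K : Type v) [Group H] [Group K], (H ≃* K) → P n H → P n K)
    (hmono : ∀ (n : ℕ) (H : Type v) [Group H], P n H → P (n + 1) H)
    (hext : ∀ (n : ℕ) (N H : Type v) [Group N] [Group H], ZExt N H → P n N → P (n + 1) H) :
    ∀ (d : ℕ) (H : Type v) [Group H], PolyZ d H → P d H := by
  intro d
  induction d with
  | zero =>
    intro H _ h
    have := polyZ_zero.1 h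
    exact h0 H
  | succ d ih =>
    intro H _ h
    obtain ⟨f, hf⟩ := polyZ_succ.1 h
    have h1 := ih f.ker hf
    by_cases hk : f.ker = ⊤
    · exact hmono _ _ (hiso _ _ _ ((MulEquiv.subgroupCongr hk).trans Subgroup.topEquiv) h1)
    · obtain ⟨X⟩ := exists_zext f hk
      exact hext _ _ _ X h1

/-- extensions of finitely generated groups by `ℤ` are finitely generated -/
theorem ZExt.fg {N H : Type*} [Group N] [Group H] (X : ZExt N H) [hN : Group.FG N] :
    Group.FG H := by
  obtain ⟨S, hS⟩ := hN.out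
  classical
  refine ⟨⟨insert X.t (S.image X.i), ?_⟩⟩
  rw [eq_top_iff]
  intro h _
  have h1 : X.i.range ≤ Subgroup.closure ((insert X.t (S.image X.i) : Finset H) : Set H) := by
    rw [MonoidHom.range_eq_map, ← hS, MonoidHom.map_closure]
    refine Subgroup.closure_mono ?_
    intro x hx
    obtain ⟨y, hy, rfl⟩ := hx
    rw [Finset.mem_coe, Finset.mem_insert]
    exact Or.inr (Finset.mem_image_of_mem _ hy)
  have h2 : h = X.t ^ (X.phi h).toAdd * X.i (X.npart h) := (X.eqv.symm_apply_apply h).symm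
  rw [h2]
  refine Subgroup.mul_mem _ (Subgroup.zpow_mem _ (Subgroup.subset_closure ?_) _)
    (h1 ⟨_, rfl⟩)
  rw [Finset.mem_coe, Finset.mem_insert]
  exact Or.inl rfl

theorem PolyZ.fg {d : ℕ} {H : Type v} [Group H] (h : PolyZ d H) : Group.FG H := by
  refine PolyZ.rec_ext (P := fun _ H _ => Group.FG H) ?_ ?_ ?_ ?_ d H h
  · intro H _ _
    infer_instance
  · intro n H K _ _ e hH
    exact Group.fg_of_surjective (f := e.toMonoidHom) e.surjective
  · intro n H _ hH
    exact hH
  · intro n N H _ _ X hN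
    exact X.fg

/-- induction over the group rings of poly-`ℤ` groups -/
theorem groupRing_induction {A : Type u} [Ring A]
    (P : ℕ → (R : Type (max u v)) → [Ring R] → Prop)
    (hiso : ∀ (n : ℕ) (R S : Type (max u v)) [Ring R] [Ring S], (R ≃+* S) → P n R → P n S)
    (hmono : ∀ (n : ℕ) (R : Type (max u v)) [Ring R], P n R → P (n + 1) R)
    (hskew : ∀ (n : ℕ) (R S : Type (max u v)) [Ring R] [Ring S], SkL R S → P n R →
      P (n + 1) S) (n : ℕ)
    (h0 : ∀ (H : Type v) [Group H] [Subsingleton H], P n (MonoidAlgebra A H)) :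
    ∀ (d : ℕ) (H : Type v) [Group H], PolyZ d H → P (n + d) (MonoidAlgebra A H) := by
  refine PolyZ.rec_ext (P := fun d H _ => P (n + d) (MonoidAlgebra A H)) h0 ?_ ?_ ?_
  · intro d H K _ _ e h
    exact hiso _ _ _ (mapDomainRingEquiv A e) h
  · intro d H _ h
    exact hmono _ _ h
  · intro d N H _ _ X h
    exact hskew _ _ _ (X.skL A) h

/-- the opposite of a group ring is isomorphic to it -/
noncomputable def groupRingOp (A : Type u) [CommRing A] (H : Type v) [Group H] :
    MonoidAlgebra A H ≃+* (MonoidAlgebra A H)ᵐᵒᵖ :=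
  ((mapRingEquiv H (RingEquiv.toOpposite A)).trans
    (mapDomainRingEquiv Aᵐᵒᵖ (MulEquiv.inv' H))).trans MonoidAlgebra.opRingEquiv.symm

end Pool.Agent.UP
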