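import Mathlib
import Pool.Agent.Lib.UP.Lat

/-!
# TANK UP: finitely generated modules over a skew Laurent ring have good lattices
-/

namespace Pool.Agent.UP

universe u v w w'

/-- finitely generated modules over `S` have good lattices -/
theorem exists_good {R : Type u} {S : Type v} [Ring R] [Ring S] [IsNoetherianRing R] (L : SkL R S)
    {K : Type w} [AddCommGroup K] [Module R K] [Module S K]
    (hc : ∀ (r : R) (x : K), r • x = L.iota r • x) [Module.Finite S K] :
    ∃ K0 : Submodule R K, K0.FG ∧ ⨆ j : ℤ, (L.semi hc).tw j K0 = ⊤ ∧ (L.semi hc).Good K0 := by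
  obtain ⟨s, hs⟩ := (Module.Finite.fg_top : (⊤ : Submodule S K).FG)
  set z := L.semi hc with hz
  have hL : (Submodule.span R (s : Set K)).FG := ⟨s, rfl⟩
  obtain ⟨m, hm⟩ := z.good_sm hL
  refine ⟨z.sm 0 m (Submodule.span R (s : Set K)), z.sm_fg _ _ hL, ?_, hm m le_rfl⟩
  rw [eq_top_iff]
  -- the span of all translates is everything
  have hP : ∀ (i : ℤ) (x : K), x ∈ ⨆ j : ℤ, z.tw j (Submodule.span R (s : Set K)) →
      z.pw i x ∈ ⨆ j : ℤ, z.tw j (Submodule.span R (s : Set K)) := by
    intro i x hx
    have h1 : z.pw i x ∈ z.tw i (⨆ j : ℤ, z.tw j (Submodule.span R (s : Set K))) :=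
      (z.pw_mem_tw' i _ x).2 hx
    rw [z.tw_iSup] at h1
    refine (iSup_le fun j => ?_ : (⨆ j : ℤ, z.tw i (z.tw j (Submodule.span R (s : Set K)))) ≤ _) h1
    rw [z.tw_tw]
    exact le_iSup (fun j : ℤ => z.tw j (Submodule.span R (s : Set K))) (i + j)
  have hS : ∀ (a : S) (x : K), x ∈ ⨆ j : ℤ, z.tw j (Submodule.span R (s : Set K)) →
      a • x ∈ ⨆ j : ℤ, z.tw j (Submodule.span R (s : Set K)) := by
    intro a x hx
    obtain ⟨f, rfl⟩ := L.co.symm.surjective a
    induction f using Finsupp.induction_linear with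
    | zero => rw [map_zero, zero_smul]; exact Submodule.zero_mem _
    | add f g hf hg => rw [map_add, add_smul]; exact Submodule.add_mem _ hf hg
    | single j r =>
      rw [L.co_symm, mul_smul, ← hc, ← L.semi_pw hc]
      exact hP j _ (Submodule.smul_mem _ _ hx)
  rintro x -
  have hx : x ∈ Submodule.span S (s : Set K) := by rw [hs]; trivial
  have h2 : x ∈ ⨆ j : ℤ, z.tw j (Submodule.span R (s : Set K)) := by
    induction hx using Submodule.span_induction with
    | mem x hx =>
      refine Submodule.mem_iSup_of_mem 0 ?_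
      rw [z.tw_zero]
      exact Submodule.subset_span hx
    | zero => exact Submodule.zero_mem _
    | add x y _ _ hx hy => exact Submodule.add_mem _ hx hy
    | smul a x _ hx => exact hS a x hx
  refine (iSup_mono fun j => z.tw_mono j ?_ : _ ≤ ⨆ j : ℤ, z.tw j _) h2
  have := z.tw_le_sm (a := 0) (b := m) (j := 0) le_rfl (by omega)
    (Submodule.span R (s : Set K))
  rwa [z.tw_zero] at this

end Pool.Agent.UP
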