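import Mathlib
import Pool.Agent.Lib.UP.Lat

/-!
TANK UP, row U10i: the inverse skew Laurent structure `z ↦ z⁻¹`, `sig ↦ sig⁻¹` (`SkL.inv`), and its
lattice calculus: `(L.inv.semi hc).tw j = (L.semi hc).tw (-j)` (`SkL.inv_tw`).
-/

namespace Pool.Agent.UP

namespace SkL

variable {R S : Type*} [Ring R] [Ring S] (E : SkL R S)

/-- the inverse structure: `z⁻¹` as variable, `sig⁻¹` as twist -/
noncomputable def inv : SkL R S where
  iota := E.iota
  z := E.z⁻¹
  sig := E.sig⁻¹
  comm := by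
    intro r
    have h := E.zpow_iota (-1) r
    rwa [zpow_neg_one, zpow_neg_one] at h
  co := E.co.trans (Finsupp.domCongr (Equiv.neg ℤ))
  co_symm := by
    intro j r
    have h1 : (E.z⁻¹ : Sˣ) ^ j = E.z ^ (-j) := by rw [inv_zpow, zpow_neg]
    rw [h1, ← E.co_symm (-j) r, AddEquiv.symm_apply_eq]
    change _ = Finsupp.domCongr (Equiv.neg ℤ) (E.co (E.co.symm (Finsupp.single (-j) r)))
    rw [AddEquiv.apply_symm_apply]
    change _ = Finsupp.equivMapDomain (Equiv.neg ℤ) (Finsupp.single (-j) r)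
    rw [Finsupp.equivMapDomain_single, Equiv.neg_apply, neg_neg]

@[simp] theorem inv_iota : E.inv.iota = E.iota := rfl

@[simp] theorem inv_z : E.inv.z = E.z⁻¹ := rfl

@[simp] theorem inv_sig : E.inv.sig = E.sig⁻¹ := rfl

theorem inv_co (s : S) (j : ℤ) : E.inv.co s j = E.co s (-j) := rfl

variable {K : Type*} [AddCommGroup K] [Module R K] [Module S K]

theorem inv_pw (hc : ∀ (r : R) (x : K), r • x = E.iota r • x) (j : ℤ) (x : K) :
    (E.inv.semi hc).pw j x = (E.semi hc).pw (-j) x := by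
  rw [SkL.semi_pw, SkL.semi_pw, inv_z, inv_zpow, zpow_neg]

theorem inv_tw (hc : ∀ (r : R) (x : K), r • x = E.iota r • x) (j : ℤ) (N : Submodule R K) :
    (E.inv.semi hc).tw j N = (E.semi hc).tw (-j) N := by
  ext x
  rw [Semi.mem_tw, Semi.mem_tw, inv_pw]

theorem inv_sm (hc : ∀ (r : R) (x : K), r • x = E.iota r • x) (a b : ℤ) (N : Submodule R K) :
    (E.inv.semi hc).sm a b N = (E.semi hc).sm (-b) (-a) N := by
  apply le_antisymm
  · refine (E.inv.semi hc).sm_le fun j h1 h2 => ?_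
    rw [inv_tw]
    exact (E.semi hc).tw_le_sm (by omega) (by omega) N
  · refine (E.semi hc).sm_le fun j h1 h2 => ?_
    have h := (E.inv.semi hc).tw_le_sm (a := a) (b := b) (j := -j) (by omega) (by omega) N
    rwa [inv_tw, neg_neg] at h

theorem inv_iSup_tw (hc : ∀ (r : R) (x : K), r • x = E.iota r • x) (N : Submodule R K) :
    ⨆ j : ℤ, (E.inv.semi hc).tw j N = ⨆ j : ℤ, (E.semi hc).tw j N := by
  apply le_antisymm
  · refine iSup_le fun j => ?_
    rw [inv_tw]
    exact le_iSup (fun j : ℤ => (E.semi hc).tw j N) (-j)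
  · refine iSup_le fun j => ?_
    have h := le_iSup (fun j : ℤ => (E.inv.semi hc).tw j N) (-j)
    have h' : (E.inv.semi hc).tw (-j) N ≤ ⨆ j : ℤ, (E.inv.semi hc).tw j N := h
    rwa [inv_tw, neg_neg] at h'

end SkL

end Pool.Agent.UP
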