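import Mathlib
import Pool.Agent.Lib.UP.Defs

/-!
TANK UP, row U6: base change of complexes along `R → S = R[z, 1/z; sig]`, coefficientwise.
-/

set_option autoImplicit false

open Matrix

namespace Pool.Agent.UP

universe u

section U6
variable {R S : Type u} [Ring R] [Ring S] (L : SkL R S)

/-! ### right coefficients of row vectors -/

/-- the `j`-th right coefficient of a vector -/
noncomputable def U6_rc {ι : Type} (x : ι → S) (j : ℤ) : ι → R := fun i => L.co (x i) j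

theorem U6_rc_ext {ι : Type} {x y : ι → S} (h : ∀ j, U6_rc L x j = U6_rc L y j) : x = y := by
  funext i
  exact L.ext_co fun j => congrFun (h j) i

@[simp] theorem U6_rc_zero {ι : Type} (j : ℤ) : U6_rc L (0 : ι → S) j = 0 := by
  funext i
  simp [U6_rc]

theorem U6_rc_vecMul {m n : Type} [Fintype m] (x : m → S) (M : Matrix m n R) (j : ℤ) :
    U6_rc L (x ᵥ* M.map L.iota) j = U6_rc L x j ᵥ* M := by
  funext i
  simp only [U6_rc, Matrix.vecMul, dotProduct, Matrix.map_apply, map_sum, Finsupp.finsetSum_apply,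
    L.co_mul_iota]

theorem U6_rc_fin {ι : Type} [Fintype ι] (x : ι → S) :
    ∃ J : Finset ℤ, ∀ j, j ∉ J → U6_rc L x j = 0 := by
  classical
  refine ⟨Finset.univ.biUnion fun i => (L.co (x i)).support, fun j hj => ?_⟩
  funext i
  by_contra h
  exact hj (Finset.mem_biUnion.mpr ⟨i, Finset.mem_univ _, Finsupp.mem_support_iff.mpr h⟩)

theorem U6_rc_exists {ι : Type} (c : ℤ → ι → R) (J : Finset ℤ) (hJ : ∀ j, j ∉ J → c j = 0) :
    ∃ x : ι → S, ∀ j, U6_rc L x j = c j := by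
  classical
  refine ⟨fun i => L.co.symm (∑ j ∈ J, Finsupp.single j (c j i)), fun j => ?_⟩
  funext i
  simp only [U6_rc, AddEquiv.apply_symm_apply, Finsupp.finsetSum_apply]
  by_cases h : j ∈ J
  · rw [Finset.sum_eq_single_of_mem j h fun k _ hk => Finsupp.single_eq_of_ne hk.symm,
      Finsupp.single_eq_same]
  · rw [hJ j h]
    refine Finset.sum_eq_zero fun k hk => Finsupp.single_eq_of_ne ?_
    rintro rfl
    exact h hk

theorem U6_ex {a b c : Type} [Fintype a] [Fintype b] [Fintype c] (D : Matrix b a R)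
    (D' : Matrix c b R) (h : ∀ x : b → R, x ᵥ* D = 0 → ∃ y : c → R, y ᵥ* D' = x) (x : b → S)
    (hx : x ᵥ* D.map L.iota = 0) : ∃ y : c → S, y ᵥ* D'.map L.iota = x := by
  classical
  have h1 : ∀ j, ∃ y : c → R, y ᵥ* D' = U6_rc L x j ∧ (U6_rc L x j = 0 → y = 0) := by
    intro j
    by_cases h0 : U6_rc L x j = 0
    · exact ⟨0, by rw [h0, Matrix.zero_vecMul], fun _ => rfl⟩
    · obtain ⟨y, hy⟩ := h (U6_rc L x j) (by rw [← U6_rc_vecMul, hx, U6_rc_zero])
      exact ⟨y, hy, fun h => absurd h h0⟩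
  choose y hy hy0 using h1
  obtain ⟨J, hJ⟩ := U6_rc_fin L x
  obtain ⟨y', hy'⟩ := U6_rc_exists L y J fun j hj => hy0 j (hJ j hj)
  refine ⟨y', ?_⟩
  refine U6_rc_ext L fun j => ?_
  rw [U6_rc_vecMul, hy', hy]

theorem map_ex {T : RC R} {k : ℕ} (h : T.Ex k) : (T.map L.iota).Ex k :=
  U6_ex L (T.D k) (T.D (k + 1)) h

/-! ### left coefficients of column vectors -/

/-- the `j`-th left coefficient of a vector: `y = sum_j iota (lc y j) z^j` -/
noncomputable def U6_lc {ι : Type} (y : ι → S) (j : ℤ) : ι → R :=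
  fun i => (L.sig ^ j) (L.co (y i) j)

theorem U6_lc_ext {ι : Type} {x y : ι → S} (h : ∀ j, U6_lc L x j = U6_lc L y j) : x = y := by
  funext i
  exact L.ext_co fun j => (L.sig ^ j).injective (congrFun (h j) i)

@[simp] theorem U6_lc_zero {ι : Type} (j : ℤ) : U6_lc L (0 : ι → S) j = 0 := by
  funext i
  simp [U6_lc]

theorem U6_lc_sub {ι : Type} (x y : ι → S) (j : ℤ) :
    U6_lc L (x - y) j = U6_lc L x j - U6_lc L y j := by
  funext i
  simp [U6_lc]

theorem U6_lc_mulVec {m n : Type} [Fintype n] (M : Matrix m n R) (y : n → S) (j : ℤ) :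
    U6_lc L (M.map L.iota *ᵥ y) j = M *ᵥ U6_lc L y j := by
  funext i
  simp only [U6_lc, Matrix.mulVec, dotProduct, Matrix.map_apply, map_sum, Finsupp.finsetSum_apply,
    L.co_iota_mul, map_mul]
  refine Finset.sum_congr rfl fun a _ => ?_
  rw [← RingAut.mul_apply, ← _root_.zpow_add, add_neg_cancel, zpow_zero, RingAut.one_apply]

theorem U6_lc_zinv {ι : Type} (y : ι → S) (j : ℤ) :
    U6_lc L (((L.z⁻¹ : Sˣ) : S) • y) j = fun i => L.sig⁻¹ (U6_lc L y (j + 1) i) := by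
  funext i
  simp only [U6_lc, Pi.smul_apply, smul_eq_mul]
  rw [← _root_.zpow_neg_one, L.co_zpow_mul, sub_neg_eq_add, ← RingAut.mul_apply, ← _root_.zpow_neg_one,
    ← _root_.zpow_add]
  congr 2
  ring

theorem U6_lc_fin {ι : Type} [Fintype ι] (y : ι → S) :
    ∃ J : Finset ℤ, ∀ j, j ∉ J → U6_lc L y j = 0 := by
  obtain ⟨J, hJ⟩ := U6_rc_fin L y
  refine ⟨J, fun j hj => ?_⟩
  funext i
  have h1 : L.co (y i) j = 0 := congrFun (hJ j hj) i
  simp only [U6_lc, h1, map_zero, Pi.zero_apply]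

theorem U6_lc_exists {ι : Type} (c : ℤ → ι → R) (J : Finset ℤ) (hJ : ∀ j, j ∉ J → c j = 0) :
    ∃ y : ι → S, ∀ j, U6_lc L y j = c j := by
  obtain ⟨y, hy⟩ := U6_rc_exists L (fun j i => (L.sig ^ (-j)) (c j i)) J (fun j hj => by
    funext i
    rw [hJ j hj]
    simp)
  refine ⟨y, fun j => ?_⟩
  funext i
  have h1 : L.co (y i) j = (L.sig ^ (-j)) (c j i) := congrFun (hy j) i
  simp only [U6_lc, h1]
  rw [← RingAut.mul_apply, ← _root_.zpow_add, add_neg_cancel, zpow_zero, RingAut.one_apply]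

/-- assemble the coefficientwise solutions of `D z = y` -/
theorem U6_solve {m n : Type} [Fintype n] [Fintype m] (M : Matrix m n R) (y : m → S)
    (h : ∀ j, ∃ z : n → R, M *ᵥ z = U6_lc L y j) : ∃ z : n → S, M.map L.iota *ᵥ z = y := by
  classical
  have h1 : ∀ j, ∃ z : n → R, M *ᵥ z = U6_lc L y j ∧ (U6_lc L y j = 0 → z = 0) := by
    intro j
    by_cases h0 : U6_lc L y j = 0
    · exact ⟨0, by rw [h0, Matrix.mulVec_zero], fun _ => rfl⟩
    · obtain ⟨z, hz⟩ := h j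
      exact ⟨z, hz, fun h => absurd h h0⟩
  choose z hz hz0 using h1
  obtain ⟨J, hJ⟩ := U6_lc_fin L y
  obtain ⟨z', hz'⟩ := U6_lc_exists L z J fun j hj => hz0 j (hJ j hj)
  exact ⟨z', U6_lc_ext L fun j => by rw [U6_lc_mulVec, hz', hz]⟩

theorem U6_coex0 {a b : Type} [Fintype a] [Fintype b] (D : Matrix b a R)
    (h : ∀ y : a → R, D *ᵥ y = 0 → y = 0) (y : a → S) (hy : D.map L.iota *ᵥ y = 0) : y = 0 := by
  refine U6_lc_ext L fun j => ?_
  rw [U6_lc_zero]
  refine h _ ?_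
  rw [← U6_lc_mulVec, hy, U6_lc_zero]

theorem U6_coex1 {a b c : Type} [Fintype a] [Fintype b] [Fintype c] (D : Matrix b a R)
    (D' : Matrix c b R) (h : ∀ y : b → R, D' *ᵥ y = 0 → ∃ z : a → R, D *ᵥ z = y) (y : b → S)
    (hy : D'.map L.iota *ᵥ y = 0) : ∃ z : a → S, D.map L.iota *ᵥ z = y := by
  refine U6_solve L D y fun j => ?_
  refine h _ ?_
  rw [← U6_lc_mulVec, hy, U6_lc_zero]

theorem map_coex {T : RC R} {l : ℕ} (h : T.CoEx l) : (T.map L.iota).CoEx l := by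
  cases l with
  | zero => exact U6_coex0 L (T.D 0) h
  | succ l => exact U6_coex1 L (T.D l) (T.D (l + 1)) h

theorem U6_iota_inj : Function.Injective L.iota := by
  intro a b hab
  have h1 := congrArg (fun s => L.co s 0) hab
  have h2 : ∀ r, L.co (L.iota r) 0 = r := by
    intro r
    have := L.co_single 0 r
    rw [zpow_zero, Units.val_one, one_mul] at this
    rw [this, Finsupp.single_eq_same]
  simpa [h2] using h1

/-- downward induction on the coefficients -/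
theorem U6_down {P : ℤ → Prop} (J : Finset ℤ) (h0 : ∀ j, j ∉ J → P j) (hs : ∀ j, P (j + 1) → P j)
    (j : ℤ) : P j := by
  obtain ⟨N, hN⟩ : ∃ N : ℤ, ∀ j, N ≤ j → P j := by
    classical
    obtain ⟨M, hM⟩ : ∃ M : ℕ, ∀ j ∈ J, j.natAbs ≤ M :=
      ⟨J.sup Int.natAbs, fun j hj => Finset.le_sup (f := Int.natAbs) hj⟩
    refine ⟨M + 1, fun j hj => h0 j fun h => ?_⟩
    have := hM j h
    omega
  have key : ∀ n : ℕ, ∀ j, N - n ≤ j → P j := by
    intro n
    induction n with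
    | zero => intro j hj; exact hN j (by simpa using hj)
    | succ n ih =>
      intro j hj
      exact hs j (ih (j + 1) (by push_cast at hj; omega))
  exact key (N - j).toNat j (by omega)

/-- coefficients of `(U - z⁻¹ V) y` -/
theorem U6_psi {a b : Type} [Fintype a] (U V : Matrix b a R) (y : a → S) (j : ℤ) :
    U6_lc L ((U.map L.iota - ((L.z⁻¹ : Sˣ) : S) • V.map L.iota) *ᵥ y) j =
      U *ᵥ U6_lc L y j - fun i => L.sig⁻¹ ((V *ᵥ U6_lc L y (j + 1)) i) := by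
  rw [Matrix.sub_mulVec, Matrix.smul_mulVec, U6_lc_sub, U6_lc_mulVec, U6_lc_zinv, U6_lc_mulVec]

theorem U6_inj0 {a b c : Type} [Fintype a] [Fintype b] [Fintype c] (D : Matrix b a R)
    (U V : Matrix c a R) (h : ∀ y : a → R, D *ᵥ y = 0 → U *ᵥ y = 0 → y = 0) (y : a → S)
    (hy : D.map L.iota *ᵥ y = 0)
    (hy' : (U.map L.iota - ((L.z⁻¹ : Sˣ) : S) • V.map L.iota) *ᵥ y = 0) : y = 0 := by
  refine U6_lc_ext L fun j => ?_
  rw [U6_lc_zero]
  obtain ⟨J, hJ⟩ := U6_lc_fin L y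
  refine U6_down (P := fun j => U6_lc L y j = 0) J hJ (fun j hj => ?_) j
  refine h _ (by rw [← U6_lc_mulVec, hy, U6_lc_zero]) ?_
  have h1 := U6_psi L U V y j
  rw [hy', U6_lc_zero, hj, Matrix.mulVec_zero] at h1
  have h2 : (fun i => L.sig⁻¹ ((0 : c → R) i)) = 0 := by
    funext i
    simp
  rw [h2, sub_zero] at h1
  exact h1.symm

/-- the commutation relation of `V` -/
theorem U6_comm {a b c d : Type} [Fintype a] [Fintype b] [Fintype c] [Fintype d]
    (D1 : Matrix b a R) (U1 V1 : Matrix b d R) (D0 : Matrix d c R) (U0 V0 : Matrix a c R)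
    (hU : U1 * D0 = D1 * U0)
    (h : (U1.map L.iota - ((L.z⁻¹ : Sˣ) : S) • V1.map L.iota) * D0.map L.iota =
      D1.map L.iota * (U0.map L.iota - ((L.z⁻¹ : Sˣ) : S) • V0.map L.iota)) :
    V1 * D0 = D1.map L.sig * V0 := by
  have h2 : U1.map L.iota * D0.map L.iota = D1.map L.iota * U0.map L.iota := by
    rw [← Matrix.map_mul, ← Matrix.map_mul, hU]
  have h3 : D1.map L.iota * (((L.z⁻¹ : Sˣ) : S) • V0.map L.iota) =
      ((L.z⁻¹ : Sˣ) : S) • (D1.map L.sig * V0).map L.iota := by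
    ext i k
    simp only [Matrix.mul_apply, Matrix.smul_apply, Matrix.map_apply, smul_eq_mul, map_sum,
      map_mul, Finset.mul_sum]
    refine Finset.sum_congr rfl fun t _ => ?_
    have h5 : L.iota (D1 i t) * ((L.z⁻¹ : Sˣ) : S) =
        ((L.z⁻¹ : Sˣ) : S) * L.iota (L.sig (D1 i t)) := by
      have h4 := L.comm (D1 i t)
      calc L.iota (D1 i t) * ((L.z⁻¹ : Sˣ) : S)
          = ((L.z⁻¹ : Sˣ) : S) * ((L.z : S) * L.iota (D1 i t)) * ((L.z⁻¹ : Sˣ) : S) := by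
            rw [← mul_assoc, Units.inv_mul, one_mul]
        _ = _ := by
            rw [h4, mul_assoc, mul_assoc, Units.mul_inv, mul_one]
    rw [← mul_assoc, h5, mul_assoc]
  have h6 : (((L.z⁻¹ : Sˣ) : S) • V1.map L.iota) * D0.map L.iota =
      ((L.z⁻¹ : Sˣ) : S) • (V1 * D0).map L.iota := by
    rw [Matrix.smul_mul, Matrix.map_mul]
  rw [Matrix.sub_mul, Matrix.mul_sub, h2, h3, h6] at h
  have h7 := sub_right_injective h
  ext i k
  have h8 := congrFun (congrFun h7 i) k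
  simp only [Matrix.smul_apply, Matrix.map_apply, smul_eq_mul] at h8
  exact U6_iota_inj L ((L.z⁻¹).isUnit.mul_left_cancel h8)

theorem U6_inj1 {a b c d e : Type} [Fintype a] [Fintype b] [Fintype c] [Fintype d] [Fintype e]
    (D1 : Matrix b a R) (U1 V1 : Matrix b d R) (D0 : Matrix d c R) (V0 : Matrix a c R)
    (D : Matrix e d R) (hV : V1 * D0 = D1.map L.sig * V0)
    (h : ∀ y : d → R, D *ᵥ y = 0 → (∃ z : a → R, U1 *ᵥ y = D1 *ᵥ z) → ∃ z : c → R, D0 *ᵥ z = y)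
    (y : d → S) (hy : D.map L.iota *ᵥ y = 0) (w : a → S)
    (hw : (U1.map L.iota - ((L.z⁻¹ : Sˣ) : S) • V1.map L.iota) *ᵥ y = D1.map L.iota *ᵥ w) :
    ∃ z : c → S, D0.map L.iota *ᵥ z = y := by
  refine U6_solve L D0 y fun j => ?_
  obtain ⟨J, hJ⟩ := U6_lc_fin L y
  refine U6_down (P := fun j => ∃ z : c → R, D0 *ᵥ z = U6_lc L y j)
    J (fun j hj => ⟨0, by rw [hJ j hj, Matrix.mulVec_zero]⟩) (fun j hj => ?_) j
  obtain ⟨z, hz⟩ := hj
  refine h _ (by rw [← U6_lc_mulVec, hy, U6_lc_zero]) ?_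
  have h1 := U6_psi L U1 V1 y j
  rw [hw, U6_lc_mulVec, ← hz, Matrix.mulVec_mulVec, hV, ← Matrix.mulVec_mulVec] at h1
  refine ⟨U6_lc L w j + fun i => L.sig⁻¹ ((V0 *ᵥ z) i), ?_⟩
  have h2 : (fun i => L.sig⁻¹ (((D1.map L.sig) *ᵥ (V0 *ᵥ z)) i)) =
      D1 *ᵥ fun i => L.sig⁻¹ ((V0 *ᵥ z) i) := by
    funext i
    simp only [Matrix.mulVec, dotProduct, Matrix.map_apply, map_sum, map_mul]
    refine Finset.sum_congr rfl fun t _ => ?_
    congr 1
    exact L.sig.symm_apply_apply _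
  rw [Matrix.mulVec_add, ← h2, h1]
  abel

theorem map_inj {T1 T0 : RC R} (u : ChM T1 T0) (V : ∀ k, Matrix (T1.ι k) (T0.ι k) R)
    (Ψ : ChM (T1.map L.iota) (T0.map L.iota))
    (hΨ : ∀ k, Ψ.U k = (u.U k).map L.iota - ((L.z⁻¹ : Sˣ) : S) • (V k).map L.iota) {l : ℕ}
    (h : u.Inj l) : Ψ.Inj l := by
  cases l with
  | zero =>
    intro y hy hy'
    rw [hΨ 0] at hy'
    exact U6_inj0 L (T0.D 0) (u.U 0) (V 0) h y hy hy'
  | succ l =>
    intro y hy hy'
    obtain ⟨w, hw⟩ := hy'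
    rw [hΨ (l + 1)] at hw
    have hV : V (l + 1) * T0.D l = (T1.D l).map L.sig * V l := by
      have h1 := Ψ.comm l
      rw [hΨ, hΨ] at h1
      exact U6_comm L (T1.D l) (u.U (l + 1)) (V (l + 1)) (T0.D l) (u.U l) (V l) (u.comm l) h1
    exact U6_inj1 L (T1.D l) (u.U (l + 1)) (V (l + 1)) (T0.D l) (V l) (T0.D (l + 1)) hV h y hy w hw

end U6

end Pool.Agent.UP
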