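import Mathlib
import Pool.Agent.Lib.UP.Defs
import Pool.Agent.Lib.UP.Lat
import Pool.Agent.Lib.UP.U3
import Pool.Agent.Lib.UP.U3a
import Pool.Agent.Lib.UP.U5
import Pool.Agent.Lib.UP.U6
import Pool.Agent.Lib.UP94.SCone
set_option autoImplicit false

/-! TANK UP, row U9 (helper94): the resolution over a skew Laurent ring of a module with a good
lattice, as a cone. -/

namespace Pool.Agent.UP

open Pool.Agent.UP94

universe u v w w'

/-- a resolution in the form of `UP94` -/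
def U9_mres {R : Type u} [Ring R] {M : Type w} [AddCommGroup M] [Module R M] {T : RC R}
    (r : Res T M) : MRes R M where
  I := T.ι
  fin := T.fin
  dec := T.dec
  D := T.D
  e := r.ε
  surj := r.surj
  ex0 := fun x => ⟨r.ker x, by rintro ⟨y, rfl⟩; exact r.zero y⟩
  exs := fun n x => ⟨r.ex n x, by
    rintro ⟨y, rfl⟩
    rw [Matrix.vecMul_vecMul, T.DD, Matrix.vecMul_zero]⟩

theorem U9_span {R S : Type u} [Ring R] [Ring S] (L : SkL R S) {K : Type w} [AddCommGroup K]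
    [Module R K] [Module S K] (hc : ∀ (r : R) (x : K), r • x = L.iota r • x) {K0 : Submodule R K}
    (hgen : ⨆ j : ℤ, (L.semi hc).tw j K0 = ⊤) : Submodule.span S (K0 : Set K) = ⊤ := by
  rw [eq_top_iff]
  rintro x -
  have hx : x ∈ ⨆ j : ℤ, (L.semi hc).tw j K0 := by rw [hgen]; trivial
  induction hx using Submodule.iSup_induction' with
  | mem j x hx =>
    have h1 : ((L.z ^ (-j) : Sˣ) : S) • x ∈ Submodule.span S (K0 : Set K) := by
      rw [← SkL.semi_pw L hc]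
      exact Submodule.subset_span hx
    have h2 := Submodule.smul_mem _ ((L.z ^ j : Sˣ) : S) h1
    rwa [← mul_smul, ← Units.val_mul, ← zpow_add, add_neg_cancel, zpow_zero, Units.val_one,
      one_smul] at h2
  | zero => exact Submodule.zero_mem _
  | add x y _ _ ihx ihy => exact Submodule.add_mem _ ihx ihy

theorem exists_cone_res {R S : Type u} [Ring R] [Ring S] [IsNoetherianRing R] (L : SkL R S)
    {K : Type w} [AddCommGroup K] [Module R K] [Module S K]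
    (hc : ∀ (r : R) (x : K), r • x = L.iota r • x) (K0 : Submodule R K) (hfg : K0.FG)
    (hgen : ⨆ j : ℤ, (L.semi hc).tw j K0 = ⊤) (hK0 : (L.semi hc).Good K0) :
    ∃ (T1 T0 : RC R) (r1 : Res T1 ((L.semi hc).sub1 K0)) (r0 : Res T0 K0) (u : ChM T1 T0)
      (V : ∀ k, Matrix (T1.ι k) (T0.ι k) R) (Ψ : ChM (T1.map L.iota) (T0.map L.iota)),
      (∀ x, (r0.ε (Matrix.vecMul x (u.U 0)) : K) = r1.ε x) ∧
      (∀ k, Ψ.U k = (u.U k).map L.iota - ((L.z⁻¹ : Sˣ) : S) • (V k).map L.iota) ∧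
      Nonempty (Res (cone Ψ) K) := by
  haveI : Module.Finite R K0 := Module.Finite.iff_fg.mpr hfg
  haveI : Module.Finite R ((L.semi hc).sub1 K0) := by
    have h1 : (L.semi hc).sub1 K0 ≤ K0 := fun x hx => (((L.semi hc).mem_sub1 K0 x).mp hx).1
    haveI : IsNoetherian R K0 := isNoetherian_of_isNoetherianRing_of_finite R K0
    exact Module.Finite.of_injective (Submodule.inclusion h1) (Submodule.inclusion_injective h1)
  obtain ⟨T0, ⟨r0⟩⟩ := exists_res (R := R) K0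
  obtain ⟨T1, ⟨r1⟩⟩ := exists_res (R := R) ((L.semi hc).sub1 K0)
  obtain ⟨u, hu⟩ := exists_lift r1 r0 (inc L hc K0)
  obtain ⟨V, hV, hV0⟩ := exists_lift_semi r1 r0 L.sig (zin L hc K0) (zin_smul L hc K0)
  obtain ⟨h1, h2, h3⟩ := scone_core L hc K0 hK0 (U9_span L hc hgen) (U9_mres r0) (U9_mres r1)
    u.U V hu hV0
  obtain ⟨Ψ, hΨ⟩ : ∃ Ψ : ChM (T1.map L.iota) (T0.map L.iota), Ψ.U = Phi L u.U V :=
    ⟨⟨Phi L u.U V, fun k => (Phi_comm L T0.D T1.D u.U V (fun n => (u.comm n).symm)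
      (fun n => (hV n).symm) k).symm⟩, rfl⟩
  have h2' : ∀ x, et (S := S) (U9_mres r0) x = 0 ↔ ∃ (y : T0.ι 1 → S) (t : T1.ι 0 → S),
      Matrix.vecMul t (Ψ.U 0) + Matrix.vecMul y ((T0.map L.iota).D 0) = x := by
    intro x
    refine (h2 x).trans ?_
    rw [hΨ]
    constructor
    · rintro ⟨y, t, h⟩
      exact ⟨y, t, (add_comm _ _).trans h⟩
    · rintro ⟨y, t, h⟩
      exact ⟨y, t, (add_comm _ _).trans h⟩
  have h3' : ∀ (t : T1.ι 0 → S) (y : T0.ι 1 → S),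
      Matrix.vecMul t (Ψ.U 0) + Matrix.vecMul y ((T0.map L.iota).D 0) = 0 →
      ∃ y', Matrix.vecMul y' ((T1.map L.iota).D 0) = t := by
    intro t y h
    rw [hΨ] at h
    exact h3 y t ((add_comm _ _).trans h)
  refine ⟨T1, T0, r1, r0, u, V, Ψ, fun x => by rw [hu]; rfl, fun k => by rw [hΨ]; rfl, ⟨?_⟩⟩
  refine ⟨et (S := S) (U9_mres r0), h1, ?_, ?_, ?_⟩
  · intro x
    obtain ⟨a, b, rfl⟩ : ∃ (a : T1.ι 0 → S) (b : T0.ι 1 → S), x = Sum.elim a b := U5_eta x
    exact (h2' _).mpr ⟨b, a, (U5_row0 Ψ a b).symm⟩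
  · intro x hx
    obtain ⟨b, a, h⟩ := (h2' x).mp hx
    exact ⟨(Sum.elim a b : T1.ι 0 ⊕ T0.ι 1 → S), (U5_row0 Ψ a b).trans h⟩
  · exact U5_ex Ψ (fun k => map_ex L (r1.ex k)) (fun k => map_ex L (r0.ex k)) h3'

end Pool.Agent.UP
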