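import Mathlib
import Pool.Agent.Lib.UP.Defs
import Pool.Agent.Lib.UP.U1
import Pool.Agent.Lib.UP.U2
import Pool.Agent.Lib.UP.U3b
import Pool.Agent.Lib.UP.U5
import Pool.Agent.Lib.UP.U6
import Pool.Agent.Lib.UP.U9
import Pool.Agent.Lib.UP.U10i

/-!
TANK UP, row U10 (helper16): Claim 2: `Loc S (p + 1) K` from a lattice `Λ` with
`Loc R (p + 1) ((Λ + zΛ)/Λ)` and `Loc R p K`.
-/

set_option autoImplicit false

open CategoryTheory

namespace Pool.Agent.UP

universe u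

section semi

variable {R K : Type u} [Ring R] [AddCommGroup K] [Module R K] (z : Semi R K)

/-- multiplication by `z ^ j` as a semilinear map -/
def U10_pwL (j : ℤ) : K →ₛₗ[((z.σ ^ j : R ≃+* R) : R →+* R)] K where
  toFun := z.pw j
  map_add' := map_add _
  map_smul' := z.pw_smul j

theorem U10_pwL_apply (j : ℤ) (x : K) : U10_pwL z j x = z.pw j x := rfl

/-- `(N' + A')/A'` is a quotient of the twist of `(N + A)/A` by `z ^ j` -/
theorem U10_tw [IsNoetherianRing R] {q : ℕ} {A N A' N' : Submodule R K} (j : ℤ)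
    (hA : z.tw j A ≤ A') (hN : z.tw j N ≤ A' ⊔ N') (hN' : N' ≤ A' ⊔ z.tw j N)
    (h : Loc R q (Submodule.map A.mkQ N)) : Loc R q (Submodule.map A'.mkQ N') := by
  have hA0 : A ≤ A'.comap (U10_pwL z j) := by
    intro x hx
    exact hA ((z.pw_mem_tw' j A x).2 hx)
  let ψ := Submodule.mapQ A A' (U10_pwL z j) hA0
  have hψ : ∀ x, ψ (A.mkQ x) = A'.mkQ (z.pw j x) := fun x => rfl
  have hm : ∀ x : Submodule.map A.mkQ N, ψ x.1 ∈ Submodule.map A'.mkQ N' := by
    rintro ⟨_, n, hn, rfl⟩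
    rw [hψ]
    obtain ⟨a, ha, n', hn', e⟩ := Submodule.mem_sup.1 (hN ((z.pw_mem_tw' j N n).2 hn))
    refine ⟨n', hn', ?_⟩
    have h0 : A'.mkQ a = 0 := (Submodule.Quotient.mk_eq_zero A').2 ha
    rw [← e, map_add, h0, zero_add]
  refine Loc.semi_surj (z.σ ^ j : R ≃+* R)
    (AddMonoidHom.mk' (fun x : Submodule.map A.mkQ N => (⟨ψ x.1, hm x⟩ : Submodule.map A'.mkQ N'))
      (fun x y => Subtype.ext (map_add ψ x.1 y.1))) ?_ ?_ h
  · rintro ⟨_, n', hn', rfl⟩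
    obtain ⟨a, ha, t, ht, e⟩ := Submodule.mem_sup.1 (hN' hn')
    refine ⟨⟨A.mkQ (z.pw (-j) t), _, ht, rfl⟩, Subtype.ext ?_⟩
    change ψ (A.mkQ (z.pw (-j) t)) = A'.mkQ n'
    have h0 : A'.mkQ a = 0 := (Submodule.Quotient.mk_eq_zero A').2 ha
    rw [hψ, z.pw_pw_neg, ← e, map_add, h0, zero_add]
  · intro r x
    exact Subtype.ext (map_smulₛₗ ψ r x.1)

/-- the lattice `z^a Λ + … + z^b Λ` -/
theorem U10_sm [IsNoetherianRing R] {q : ℕ} {Λ : Submodule R K} {a b : ℤ} (hab : a ≤ b)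
    (h : Loc R q (Submodule.map Λ.mkQ (z.tw 1 Λ))) :
    Loc R q (Submodule.map (z.sm a b Λ).mkQ (z.tw 1 (z.sm a b Λ))) := by
  refine U10_tw z b (z.tw_le_sm hab le_rfl Λ) ?_ ?_ h
  · rw [Semi.tw_tw, Semi.tw_sm]
    exact (z.tw_le_sm (by omega) (by omega) Λ).trans le_sup_right
  · rw [Semi.tw_tw, Semi.tw_sm]
    refine z.sm_le fun j h1 h2 => ?_
    by_cases hj : j ≤ b
    · exact (z.tw_le_sm (by omega) hj Λ).trans le_sup_left
    · have e : j = b + 1 := by omega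
      rw [e]
      exact le_sup_right

/-- `K0/K1` is a twist of a submodule of `(K0 + zK0)/K0` -/
theorem U10_sub1 [IsNoetherianRing R] {q : ℕ} {K0 : Submodule R K}
    (h : Loc R q (Submodule.map K0.mkQ (z.tw 1 K0))) :
    Loc R q (K0 ⧸ LinearMap.range
      (Submodule.inclusion (show z.sub1 K0 ≤ K0 from inf_le_left))) := by
  let g : K0 →ₛₗ[((z.σ ^ (1 : ℤ) : R ≃+* R) : R →+* R)] K ⧸ K0 :=
    (K0.mkQ).comp ((U10_pwL z 1).comp K0.subtype)
  have hg0 : ∀ x : K0, g x = K0.mkQ (z.pw 1 x) := fun x => rfl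
  have hg : LinearMap.range (Submodule.inclusion (show z.sub1 K0 ≤ K0 from inf_le_left)) ≤
      LinearMap.ker g := by
    rintro _ ⟨x, rfl⟩
    have hx := ((z.mem_sub1 K0 x.1).1 x.2).2
    exact (Submodule.Quotient.mk_eq_zero K0).2 hx
  let ψ := Submodule.liftQ _ g hg
  have hm : ∀ x, ψ x ∈ Submodule.map K0.mkQ (z.tw 1 K0) := by
    intro x
    obtain ⟨x, rfl⟩ := Submodule.mkQ_surjective _ x
    exact ⟨z.pw 1 x, (z.pw_mem_tw' 1 K0 x).2 x.2, rfl⟩
  refine Loc.semi_inj (z.σ ^ (1 : ℤ) : R ≃+* R)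
    (AddMonoidHom.mk' (fun x => (⟨ψ x, hm x⟩ : Submodule.map K0.mkQ (z.tw 1 K0)))
      (fun x y => Subtype.ext (map_add ψ x y))) ?_ ?_ h
  · rw [injective_iff_map_eq_zero]
    intro x hx
    obtain ⟨x, rfl⟩ := Submodule.mkQ_surjective _ x
    have hx0 : g x = 0 := congrArg Subtype.val hx
    rw [hg0] at hx0
    have hx1 : z.pw 1 x ∈ K0 := (Submodule.Quotient.mk_eq_zero K0).1 hx0
    refine (Submodule.Quotient.mk_eq_zero _).2 ⟨⟨x, (z.mem_sub1 K0 x).2 ⟨x.2, hx1⟩⟩, rfl⟩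
  · intro r x
    exact Subtype.ext (map_smulₛₗ ψ r x)

end semi

section core

variable {R S : Type u} [Ring R] [Ring S] [IsNoetherianRing R] (L : SkL R S)

theorem U10_core {K : Type u} [AddCommGroup K] [Module R K] [Module S K]
    (hc : ∀ (r : R) (x : K), r • x = L.iota r • x) {p : ℕ} (Λ : Submodule R K) (hΛ : Λ.FG)
    (hgen : ⨆ j : ℤ, (L.semi hc).tw j Λ = ⊤) (h : Loc R p K)
    (hz : Loc R (p + 1) (Submodule.map Λ.mkQ ((L.semi hc).tw 1 Λ))) : GE S (p + 1) K := by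
  obtain ⟨M, hM⟩ := (L.semi hc).good_sm hΛ
  have hgood := hM M le_rfl
  have hfg := (L.semi hc).sm_fg 0 M hΛ
  have hle : Λ ≤ (L.semi hc).sm 0 M Λ := by
    have := (L.semi hc).tw_le_sm (a := 0) (b := M) (j := 0) le_rfl (by omega) Λ
    rwa [Semi.tw_zero] at this
  have hz0 := U10_sub1 (L.semi hc) (U10_sm (L.semi hc) (a := 0) (b := M) (by omega) hz)
  generalize hK0 : (L.semi hc).sm 0 M Λ = K0 at *
  have hgen0 : ⨆ j : ℤ, (L.semi hc).tw j K0 = ⊤ := by
    rw [eq_top_iff, ← hgen]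
    exact iSup_mono fun j => (L.semi hc).tw_mono j hle
  obtain ⟨T1, T0, r1, r0, u, V, Ψ, h1, h2, ⟨r⟩⟩ := exists_cone_res L hc K0 hfg hgen0 hgood
  obtain ⟨ru⟩ := cone_res_lin u r1 r0
    (Submodule.inclusion (show (L.semi hc).sub1 K0 ≤ K0 from inf_le_left))
    (Submodule.inclusion_injective _) (fun x => Subtype.ext (h1 x))
  have : Module.Finite R K0 := Module.Finite.iff_fg.2 hfg
  have hcu := (ge_iff ru (p + 1)).1 hz0.ge
  have hΨ : ∀ l < p + 1, Ψ.Inj l := fun l hl => map_inj L u V Ψ h2 (inj_of_cone (hcu l hl))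
  have hK1 : ((L.semi hc).sub1 K0).FG := by
    have : IsNoetherian R K0 := isNoetherian_of_fg_of_noetherian K0 hfg
    exact Submodule.FG.of_le hfg inf_le_left
  have hT1 := (ge_iff r1 p).1 (h _ hK1)
  rw [ge_iff r]
  intro l hl
  cases l with
  | zero => exact cone_coex_zero (hΨ 0 hl)
  | succ l => exact cone_coex_succ (hΨ (l + 1) hl) (map_coex L (hT1 l (by omega)))

variable {K : Type u} [AddCommGroup K] [Module R K] [Module S K]
    (hc : ∀ (r : R) (x : K), r • x = L.iota r • x)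

omit [IsNoetherianRing R] in
theorem U10_gen (Λ : Submodule R K) (t : Set K) (ht : Submodule.span S t = ⊤)
    (htΛ : ∀ x ∈ t, x ∈ Λ) : ⨆ j : ℤ, (L.semi hc).tw j Λ = ⊤ := by
  rw [eq_top_iff]
  have hpw : ∀ (i : ℤ) (x : K), x ∈ ⨆ j : ℤ, (L.semi hc).tw j Λ →
      ((L.z ^ i : Sˣ) : S) • x ∈ ⨆ j : ℤ, (L.semi hc).tw j Λ := by
    intro i x hx
    rw [← L.semi_pw hc]
    have h1 : (L.semi hc).pw i x ∈ (L.semi hc).tw i (⨆ j : ℤ, (L.semi hc).tw j Λ) :=
      ((L.semi hc).pw_mem_tw' _ _ _).2 hx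
    rw [Semi.tw_iSup] at h1
    refine (show (⨆ j : ℤ, (L.semi hc).tw i ((L.semi hc).tw j Λ)) ≤
      ⨆ j : ℤ, (L.semi hc).tw j Λ from iSup_le fun j => ?_) h1
    rw [Semi.tw_tw]
    exact le_iSup (fun j : ℤ => (L.semi hc).tw j Λ) (i + j)
  have hS : ∀ (s : S) (x : K), x ∈ ⨆ j : ℤ, (L.semi hc).tw j Λ →
      s • x ∈ ⨆ j : ℤ, (L.semi hc).tw j Λ := by
    intro s x hx
    obtain ⟨f, rfl⟩ := L.co.symm.surjective s
    induction f using Finsupp.induction_linear with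
    | zero => rw [map_zero, zero_smul]; exact Submodule.zero_mem _
    | add f g hf hg => rw [map_add, add_smul]; exact Submodule.add_mem _ hf hg
    | single j r =>
      rw [L.co_symm, mul_smul, ← hc]
      exact hpw j _ (Submodule.smul_mem _ r hx)
  let W : Submodule S K :=
    { carrier := {x | x ∈ ⨆ j : ℤ, (L.semi hc).tw j Λ}
      add_mem' := fun ha hb => Submodule.add_mem (⨆ j : ℤ, (L.semi hc).tw j Λ) ha hb
      zero_mem' := Submodule.zero_mem (⨆ j : ℤ, (L.semi hc).tw j Λ)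
      smul_mem' := fun s x hx => hS s x hx }
  have hW : (⊤ : Submodule S K) ≤ W := by
    rw [← ht, Submodule.span_le]
    intro x hx
    have h1 : Λ ≤ ⨆ j : ℤ, (L.semi hc).tw j Λ := by
      have := le_iSup (fun j : ℤ => (L.semi hc).tw j Λ) 0
      simpa only [Semi.tw_zero] using this
    exact h1 (htΛ x hx)
  intro x _
  exact hW (Submodule.mem_top : x ∈ (⊤ : Submodule S K))

include hc

theorem claim2 {p : ℕ} (Λ : Submodule R K) (hΛ : Λ.FG)
    (hgen : ⨆ j : ℤ, (L.semi hc).tw j Λ = ⊤) (h : Loc R p K)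
    (hz : Loc R (p + 1) (Submodule.map Λ.mkQ ((L.semi hc).tw 1 Λ))) : Loc S (p + 1) K := by
  classical
  intro K' hK'
  let : Module R K' := Module.compHom K' L.iota
  have hc' : ∀ (r : R) (x : K'), r • x = L.iota r • x := fun _ _ => rfl
  let ι : K' →ₗ[R] K :=
    { toFun := Subtype.val
      map_add' := fun _ _ => rfl
      map_smul' := fun r x => (hc r x).symm }
  have hι : Function.Injective ι := Subtype.val_injective
  have hpw : ∀ (i : ℤ) (x : K'), ι ((L.semi hc').pw i x) = (L.semi hc).pw i (ι x) := by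
    intro i x
    rw [L.semi_pw hc', L.semi_pw hc]
    rfl
  obtain ⟨t, ht⟩ := (Submodule.fg_top K').2 hK'
  obtain ⟨m, hm⟩ := (L.semi hc).fg_le_sm hgen (N := Submodule.span R (t.image ι))
    ⟨t.image ι, rfl⟩
  have hm := hm m le_rfl
  have hfg := (L.semi hc).sm_fg (-m) m hΛ
  have hzm := U10_sm (L.semi hc) (a := -m) (b := m) (by omega) hz
  generalize hΛm : (L.semi hc).sm (-m) m Λ = Λm at *
  have hL' : (Λm.comap ι).FG := by
    refine Submodule.fg_of_fg_map_injective ι hι ?_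
    have : IsNoetherian R Λm := isNoetherian_of_fg_of_noetherian Λm hfg
    exact Submodule.FG.of_le hfg (Submodule.map_comap_le _ _)
  refine U10_core L hc' (Λm.comap ι) hL' ?_ (h.of_injective ι hι) ?_
  · refine U10_gen L hc' (Λm.comap ι) t ht fun x hx => ?_
    exact hm (Submodule.subset_span (by
      rw [Finset.coe_image]
      exact ⟨x, hx, rfl⟩))
  · let ψ := Submodule.mapQ (Λm.comap ι) Λm ι le_rfl
    have hψ : ∀ x, ψ ((Λm.comap ι).mkQ x) = Λm.mkQ (ι x) := fun x => rfl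
    have hmem : ∀ x : Submodule.map (Λm.comap ι).mkQ ((L.semi hc').tw 1 (Λm.comap ι)),
        ψ x.1 ∈ Submodule.map Λm.mkQ ((L.semi hc).tw 1 Λm) := by
      rintro ⟨_, x, hx, rfl⟩
      refine ⟨ι x, ?_, rfl⟩
      change (L.semi hc).pw (-1) (ι x) ∈ Λm
      rw [← hpw]
      exact hx
    refine hzm.of_injective ((ψ.comp (Submodule.subtype _)).codRestrict _ hmem) ?_
    rw [injective_iff_map_eq_zero]
    rintro ⟨_, x, hx, rfl⟩ h0
    have h1 : ψ ((Λm.comap ι).mkQ x) = 0 := congrArg Subtype.val h0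
    rw [hψ] at h1
    have h2 : ι x ∈ Λm := (Submodule.Quotient.mk_eq_zero Λm).1 h1
    exact Subtype.ext ((Submodule.Quotient.mk_eq_zero _).2 h2)

/-- Claim 2 with `z⁻¹` (helper22) -/
theorem claim2' {p : ℕ} (Λ : Submodule R K) (hΛ : Λ.FG)
    (hgen : ⨆ j : ℤ, (L.semi hc).tw j Λ = ⊤) (h : Loc R p K)
    (hz : Loc R (p + 1) (Submodule.map Λ.mkQ ((L.semi hc).tw (-1) Λ))) : Loc S (p + 1) K := by
  refine claim2 L.inv hc Λ hΛ ?_ h ?_
  · rw [L.inv_iSup_tw hc]; exact hgen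
  · rw [L.inv_tw hc]; exact hz

end core

end Pool.Agent.UP
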