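import Mathlib
import Pool.Agent.Lib.UP.U10b
import Pool.Agent.Lib.UP.Good

/-!
TANK UP, row U10 (helper16): Claim 1: `Loc R p K → Loc S p K`.
-/

set_option autoImplicit false

open CategoryTheory

namespace Pool.Agent.UP

universe u

variable {R S : Type u} [Ring R] [Ring S] [IsNoetherianRing R] (L : SkL R S)
    {K : Type u} [AddCommGroup K] [Module R K] [Module S K]
    (hc : ∀ (r : R) (x : K), r • x = L.iota r • x)

include hc

/-- Claim 1 for a finitely generated `S`-module -/
theorem U10_claim1_fg [Module.Finite S K] {p : ℕ} (h : Loc R p K) : GE S p K := by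
  obtain ⟨K0, hfg, hgen, hgood⟩ := exists_good L hc
  obtain ⟨T1, T0, r1, r0, u, V, Ψ, -, -, ⟨r⟩⟩ := exists_cone_res L hc K0 hfg hgen hgood
  have hK1 : ((L.semi hc).sub1 K0).FG := by
    have : IsNoetherian R K0 := isNoetherian_of_fg_of_noetherian K0 hfg
    exact Submodule.FG.of_le hfg inf_le_left
  have hT1 := (ge_iff r1 p).1 (h _ hK1)
  have hT0 := (ge_iff r0 p).1 (h _ hfg)
  rw [ge_iff r]
  intro l hl
  cases l with
  | zero => exact cone_coex_zero (inj_of_coex (map_coex L (hT0 0 hl)))
  | succ l =>
    exact cone_coex_succ (inj_of_coex (map_coex L (hT0 (l + 1) hl)))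
      (map_coex L (hT1 l (by omega)))

theorem claim1 {p : ℕ} (h : Loc R p K) : Loc S p K := by
  intro K' hK'
  let : Module R K' := Module.compHom K' L.iota
  have hc' : ∀ (r : R) (x : K'), r • x = L.iota r • x := fun _ _ => rfl
  let ι : K' →ₗ[R] K :=
    { toFun := Subtype.val
      map_add' := fun _ _ => rfl
      map_smul' := fun r x => (hc r x).symm }
  have : Module.Finite S K' := Module.Finite.iff_fg.2 hK'
  exact U10_claim1_fg L hc' (h.of_injective ι Subtype.val_injective)

end Pool.Agent.UP
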