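import Mathlib
import Pool.Agent.Lib.UP.Defs
import Pool.Agent.Lib.UP.U1
import Pool.Agent.Lib.UP.U3b

/-!
# TANK UP, row U11a: finitely generated `R`-submodules of `Ext_S^q(S ⊗ W, S)`

`(T.map ι).E q` is the sum of the `R`-submodules of the classes of `z^j ι(y)`, `y` a cocycle of `T`,
and each of these is a twist of a quotient of `T.E q`.
-/

set_option autoImplicit false

namespace Pool.Agent.UP

universe u

section general
variable {R : Type u} [Ring R] {M : Type u} [AddCommGroup M] [Module R M]

/-- sums of submodules -/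
private theorem U11a_sup [IsNoetherianRing R] {p : ℕ} (A B : Submodule R M) (hA : Loc R p A)
    (hB : Loc R p B) : Loc R p (A ⊔ B : Submodule R M) := by
  let f : A →ₗ[R] (A ⊔ B : Submodule R M) := Submodule.inclusion le_sup_left
  let g0 : B →ₗ[R] ((A ⊔ B : Submodule R M) ⧸ LinearMap.range f) :=
    (LinearMap.range f).mkQ.comp (Submodule.inclusion le_sup_right)
  have hg0 : Function.Surjective g0 := by
    intro x
    obtain ⟨⟨y, hy⟩, rfl⟩ := (LinearMap.range f).mkQ_surjective x
    obtain ⟨a, ha, b, hb, rfl⟩ := Submodule.mem_sup.mp hy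
    refine ⟨⟨b, hb⟩, ?_⟩
    refine (Submodule.Quotient.eq _).mpr ⟨⟨-a, A.neg_mem ha⟩, ?_⟩
    apply Subtype.ext
    change -a = b - (a + b)
    abel
  refine Loc.of_exact f (LinearMap.range f).mkQ ?_ hA (Loc.of_surjective g0 hg0 hB)
  rw [Submodule.ker_mkQ]

private theorem U11a_biSup [IsNoetherianRing R] {p : ℕ} {I : Type*} (f : I → Submodule R M)
    (h : ∀ i, Loc R p (f i)) (s : Finset I) : Loc R p (⨆ i ∈ s, f i : Submodule R M) := by
  classical
  induction s using Finset.induction_on with
  | empty =>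
    have h0 : (⨆ i ∈ (∅ : Finset I), f i : Submodule R M) = ⊥ := by simp
    rw [h0]
    intro N _
    have : Subsingleton N := by
      constructor
      intro a b
      apply Subtype.ext
      exact Subsingleton.elim _ _
    intro l _
    have hz : CategoryTheory.Limits.IsZero (ModuleCat.of R N) :=
      ModuleCat.isZero_of_subsingleton _
    exact ⟨fun a b => by
      rw [← CategoryTheory.Abelian.Ext.mk₀_id_comp a, ← CategoryTheory.Abelian.Ext.mk₀_id_comp b,
        hz.eq_of_src (CategoryTheory.CategoryStruct.id _) 0]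
      simp⟩
  | insert a s ha ih =>
    rw [Finset.iSup_insert]
    exact U11a_sup _ _ (h a) ih

/-- a module which is the sum of a family of submodules with `Loc` -/
theorem U11a_iSup [IsNoetherianRing R] {p : ℕ} {I : Type*} (f : I → Submodule R M)
    (h : ∀ i, Loc R p (f i)) (ht : ⊤ ≤ ⨆ i, f i) : Loc R p M := by
  refine Loc.of_union fun N hN => ?_
  obtain ⟨s, hs⟩ := CompleteLattice.IsCompactElement.exists_finset_of_le_iSup (Submodule R M)
    ((Submodule.fg_iff_compact N).mp hN) f (le_trans le_top ht)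
  exact ⟨_, hs, U11a_biSup f h s⟩

end general

section main
variable {R S : Type u} [Ring R] [StarRing R] [Ring S] [StarRing S] (L : SkS R S) (T : RC R)

/-- `z^j ι(y)` -/
private def U11a_zi (j : ℤ) {c : Type} (y : c → R) : c → S :=
  fun i => ((L.z ^ j : Sˣ) : S) * L.iota (y i)

private theorem U11a_zi_vecMul (j : ℤ) {c d : Type} [Fintype c] (y : c → R) (D : Matrix d c R) :
    Matrix.vecMul (U11a_zi L j y) (D.map L.iota).conjTranspose =
      U11a_zi L j (Matrix.vecMul y D.conjTranspose) := by
  ext k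
  simp only [Matrix.vecMul, dotProduct, U11a_zi, Matrix.conjTranspose_apply, Matrix.map_apply,
    L.star_iota, map_sum, map_mul, Finset.mul_sum, mul_assoc]

private theorem U11a_co (j : ℤ) {c d : Type} [Fintype c] (y : c → S) (D : Matrix d c R) (k : d) :
    Matrix.vecMul (fun i => L.co (y i) j) D.conjTranspose k =
      L.co (Matrix.vecMul y (D.map L.iota).conjTranspose k) j := by
  simp only [Matrix.vecMul, dotProduct, Matrix.conjTranspose_apply, Matrix.map_apply,
    L.star_iota, map_sum, Finsupp.coe_finsetSum, Finset.sum_apply, SkL.co_mul_iota]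

/-- `r ↦ ι(σ^j r)` -/
private def U11a_t (j : ℤ) : R →+* S := L.iota.comp ((L.sig ^ j : RingAut R) : R →+* R)

/-- `y ↦ z^j ι(y)` on cocycles -/
private def U11a_cy (j : ℤ) (q : ℕ) : T.cy q →ₛₗ[U11a_t L j] (T.map L.iota).cy q where
  toFun y := ⟨U11a_zi L j y.1, by
    change Matrix.vecMul (U11a_zi L j y.1) ((T.D q).map L.iota).conjTranspose = 0
    rw [U11a_zi_vecMul, show Matrix.vecMul y.1 (T.D q).conjTranspose = 0 from y.2]
    ext k
    simp [U11a_zi]⟩
  map_add' a b := by
    apply Subtype.ext
    ext k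
    change ((L.z ^ j : Sˣ) : S) * L.iota (a.1 k + b.1 k) = ((L.z ^ j : Sˣ) : S) * L.iota (a.1 k) +
      ((L.z ^ j : Sˣ) : S) * L.iota (b.1 k)
    rw [map_add, mul_add]
  map_smul' r a := by
    apply Subtype.ext
    ext k
    change ((L.z ^ j : Sˣ) : S) * L.iota (r * a.1 k) = L.iota ((L.sig ^ j) r) *
      (((L.z ^ j : Sˣ) : S) * L.iota (a.1 k))
    rw [map_mul, ← mul_assoc, SkL.zpow_iota, mul_assoc]

private def U11a_E (j : ℤ) (q : ℕ) : T.E q →ₛₗ[U11a_t L j] (T.map L.iota).E q :=
  Submodule.mapQ _ _ (U11a_cy L T j q) (by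
    rintro ⟨y, hy⟩ hb
    change U11a_zi L j y ∈ (T.map L.iota).bd q
    replace hb : y ∈ T.bd q := hb
    cases q with
    | zero =>
      rw [show y = 0 from hb]
      have : U11a_zi L j (0 : T.ι 0 → R) = 0 := by
        ext k
        simp [U11a_zi]
      rw [this]
      exact Submodule.zero_mem _
    | succ q =>
      obtain ⟨z, rfl⟩ := hb
      exact ⟨U11a_zi L j z, U11a_zi_vecMul L j z (T.D q)⟩)

end main

theorem loc_map {R S : Type u} [Ring R] [StarRing R] [Ring S] [StarRing S] [IsNoetherianRing R]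
    (L : SkS R S) (T : RC R) {p q : ℕ} (h : Loc R p (T.E q)) :
    @Loc R _ p ((T.map L.iota).E q) _ (Module.compHom _ L.iota) := by
  let hM : Module R ((T.map L.iota).E q) := Module.compHom _ L.iota
  have hsm : ∀ (r : R) (x : (T.map L.iota).E q), r • x = L.iota r • x := fun _ _ => rfl
  let F : ℤ → Submodule R ((T.map L.iota).E q) := fun j =>
    { carrier := Set.range (U11a_E L T j q)
      add_mem' := by
        rintro _ _ ⟨a, rfl⟩ ⟨b, rfl⟩
        exact ⟨a + b, map_add _ _ _⟩
      zero_mem' := ⟨0, map_zero _⟩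
      smul_mem' := by
        rintro r _ ⟨a, rfl⟩
        refine ⟨(L.sig ^ (-j)) r • a, ?_⟩
        rw [LinearMap.map_smulₛₗ, hsm]
        congr 1
        change L.iota ((L.sig ^ j) ((L.sig ^ (-j)) r)) = L.iota r
        rw [← RingAut.mul_apply, ← zpow_add, add_neg_cancel, zpow_zero, RingAut.one_apply] }
  refine U11a_iSup F (fun j => ?_) ?_
  · let φ : T.E q →+ F j :=
      { toFun := fun x => ⟨U11a_E L T j q x, x, rfl⟩
        map_zero' := by
          apply Subtype.ext
          exact map_zero _
        map_add' := fun a b => by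
          apply Subtype.ext
          exact map_add _ _ _ }
    refine Loc.semi_surj (L.sig ^ j) φ ?_ ?_ h
    · rintro ⟨_, x, rfl⟩
      exact ⟨x, rfl⟩
    · intro r x
      apply Subtype.ext
      exact LinearMap.map_smulₛₗ (U11a_E L T j q) r x
  · rintro x -
    obtain ⟨⟨y, hy⟩, rfl⟩ := Submodule.Quotient.mk_surjective _ x
    classical
    let J : Finset ℤ := Finset.univ.biUnion fun i => (L.co (y i)).support
    have hyj : ∀ j, (fun i => L.co (y i) j) ∈ T.cy q := by
      intro j
      change Matrix.vecMul (fun i => L.co (y i) j) (T.D q).conjTranspose = 0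
      ext k
      refine (U11a_co L j (c := T.ι q) y (T.D q) k).trans ?_
      have hy0 : Matrix.vecMul y ((T.D q).map L.iota).conjTranspose k = 0 := congrFun hy k
      exact (congrArg (fun s => L.co s j) hy0).trans (by simp)
    have hsum : (⟨y, hy⟩ : (T.map L.iota).cy q) =
        ∑ j ∈ J, U11a_cy L T j q ⟨fun i => L.co (y i) j, hyj j⟩ := by
      apply Subtype.ext
      rw [AddSubmonoidClass.coe_finsetSum]
      ext i
      rw [Finset.sum_apply]
      change y i = ∑ j ∈ J, ((L.z ^ j : Sˣ) : S) * L.iota (L.co (y i) j)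
      apply L.co.injective
      rw [map_sum]
      simp only [SkL.co_single]
      have h1 : (L.co (y i)).support ⊆ J := Finset.subset_biUnion_of_mem
        (fun i => (L.co (y i)).support) (Finset.mem_univ i)
      conv_lhs => rw [← Finsupp.sum_single (L.co (y i))]
      exact Finset.sum_subset h1 fun j _ hj => by
        rw [Finsupp.notMem_support_iff.mp hj, Finsupp.single_zero]
    have h2 : (Submodule.Quotient.mk (⟨y, hy⟩ : (T.map L.iota).cy q) : (T.map L.iota).E q) =
        ∑ j ∈ J, U11a_E L T j q (Submodule.Quotient.mk ⟨fun i => L.co (y i) j, hyj j⟩) := by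
      rw [hsum]
      exact map_sum (Submodule.mkQ (((T.map L.iota).bd q).comap ((T.map L.iota).cy q).subtype)) _ _
    rw [h2]
    exact Submodule.sum_mem _ fun j _ => (le_iSup F j) ⟨_, rfl⟩

end Pool.Agent.UP
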