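import Mathlib
import Pool.Agent.Lib.UP.Good
import Pool.Agent.Lib.UP.U1
import Pool.Agent.Lib.UP.U3b
import Pool.Agent.Lib.UP.U4
import Pool.Agent.Lib.UP.U4F
import Pool.Agent.Lib.UP.U5
import Pool.Agent.Lib.UP.U5E
import Pool.Agent.Lib.UP.U9
import Pool.Agent.Lib.UP.U10a
import Pool.Agent.Lib.UP.U10b
import Pool.Agent.Lib.UP.U11a

/-! TANK UP, row U11 (helper98): Claim 3, the Auslander condition passes to skew Laurent rings. -/

set_option autoImplicit false

open MonoidAlgebra CategoryTheory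

namespace Pool.Agent.UP

universe u v w w'

section U11

section ring

variable {R S : Type u} [Ring R] [Ring S]

theorem U11_iota_inj (L : SkL R S) : Function.Injective L.iota := by
  intro a b h
  have h1 := L.co_single 0 a
  have h2 := L.co_single 0 b
  rw [h] at h1
  rw [h1] at h2
  exact Finsupp.single_injective 0 h2

theorem U11_eq_sum (L : SkL R S) (s : S) (F : Finset ℤ) (hF : (L.co s).support ⊆ F) :
    s = ∑ j ∈ F, ((L.z ^ j : Sˣ) : S) * L.iota (L.co s j) := by
  apply L.co.injective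
  rw [map_sum]
  ext k
  rw [Finsupp.finsetSum_apply]
  have h1 : ∀ j ∈ F, (L.co (((L.z ^ j : Sˣ) : S) * L.iota (L.co s j))) k =
      if j = k then L.co s k else 0 := by
    intro j _
    rw [L.co_single, Finsupp.single_apply]
    split_ifs with h
    · rw [h]
    · rfl
  rw [Finset.sum_congr rfl h1, Finset.sum_ite_eq']
  split_ifs with h
  · rfl
  · by_contra hne
    exact h (hF (Finsupp.mem_support_iff.mpr hne))

end ring

variable {R S : Type u} [Ring R] [StarRing R] [Ring S] [StarRing S]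

theorem U11_conj (L : SkS R S) {m n : Type} (D : Matrix m n R) :
    (D.map L.iota).conjTranspose = D.conjTranspose.map L.iota := by
  ext i j
  simp only [Matrix.conjTranspose_apply, Matrix.map_apply]
  exact L.star_iota _

theorem U11_vec (L : SkS R S) {m n : Type} [Fintype m] (y : m → R) (D : Matrix m n R) :
    Matrix.vecMul (fun i => L.iota (y i)) (D.map L.iota) =
      fun j => L.iota (Matrix.vecMul y D j) := by
  funext j
  simp only [Matrix.vecMul, dotProduct, Matrix.map_apply, map_sum, map_mul]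

theorem U11_co_vec (L : SkS R S) {m n : Type} [Fintype m] (x : m → S) (D : Matrix m n R) (k : ℤ)
    (j : n) : L.co (Matrix.vecMul x (D.map L.iota) j) k =
      Matrix.vecMul (fun i => L.co (x i) k) D j := by
  simp only [Matrix.vecMul, dotProduct, Matrix.map_apply, map_sum, Finsupp.finsetSum_apply]
  refine Finset.sum_congr rfl fun i _ => ?_
  exact L.co_mul_iota _ _ _

theorem U11_mem_cy {T : RC R} {q : ℕ} {y : T.ι q → R} :
    y ∈ T.cy q ↔ Matrix.vecMul y (T.D q).conjTranspose = 0 := Iff.rfl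

theorem U11_iota_cy (L : SkS R S) {T : RC R} {q : ℕ} {y : T.ι q → R} :
    (fun i => L.iota (y i)) ∈ (T.map L.iota).cy q ↔ y ∈ T.cy q := by
  have h0 : (fun i => L.iota (y i)) ∈ (T.map L.iota).cy q ↔
      Matrix.vecMul (fun i => L.iota (y i)) ((T.D q).map L.iota).conjTranspose = 0 := Iff.rfl
  rw [h0, U11_conj, U11_vec, U11_mem_cy]
  constructor
  · intro h
    funext j
    have := congrFun h j
    apply U11_iota_inj L.toSkL
    rw [Pi.zero_apply, map_zero]
    exact this
  · intro h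
    rw [h]
    funext j
    exact map_zero _

theorem U11_co_cy (L : SkS R S) {T : RC R} {q : ℕ} {x : T.ι q → S}
    (hx : x ∈ (T.map L.iota).cy q) (k : ℤ) : (fun i => L.co (x i) k) ∈ T.cy q := by
  have h0 : Matrix.vecMul x ((T.D q).map L.iota).conjTranspose = 0 := hx
  rw [U11_conj] at h0
  rw [U11_mem_cy]
  funext j
  rw [← U11_co_vec, h0]
  simp

/-- the map `[y] ↦ [ι y]` -/
noncomputable def U11_iE (L : SkS R S) (T : RC R) (q : ℕ) :
    T.E q →ₛₗ[L.iota] (T.map L.iota).E q :=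
  Submodule.mapQ _ _
    { toFun := fun y => ⟨fun i => L.iota (y.1 i), (U11_iota_cy L).mpr y.2⟩
      map_add' := fun a b => Subtype.ext (funext fun i => map_add L.iota _ _)
      map_smul' := fun r a => Subtype.ext (funext fun i => map_mul L.iota _ _) }
    (by
      rintro ⟨y, hy⟩ hb
      replace hb : y ∈ T.bd q := hb
      show (fun i => L.iota (y i)) ∈ (T.map L.iota).bd q
      cases q with
      | zero =>
        have : y = 0 := hb
        rw [this]
        have h0 : (fun i => L.iota ((0 : T.ι 0 → R) i)) = 0 := funext fun i => map_zero _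
        rw [h0]
        exact Submodule.zero_mem _
      | succ q =>
        obtain ⟨z, rfl⟩ := hb
        refine ⟨fun i => L.iota (z i), ?_⟩
        have h1 : ((T.map L.iota).D q).conjTranspose = ((T.D q).conjTranspose).map L.iota :=
          U11_conj L (T.D q)
        rw [h1]
        exact U11_vec L z _)

theorem U11_iE_mk (L : SkS R S) (T : RC R) (q : ℕ) (y : T.cy q) :
    U11_iE L T q (Submodule.Quotient.mk y) =
      Submodule.Quotient.mk (⟨fun i => L.iota (y.1 i), (U11_iota_cy L).mpr y.2⟩ :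
        (T.map L.iota).cy q) := rfl

/-- every class is a finite sum of `z ^ j • [ι y]` -/
theorem U11_gen (L : SkS R S) (T : RC R) (q : ℕ) (x : (T.map L.iota).E q) :
    ∃ (F : Finset ℤ) (y : ℤ → T.E q),
      x = ∑ j ∈ F, ((L.z ^ j : Sˣ) : S) • U11_iE L T q (y j) := by
  classical
  obtain ⟨⟨x, hx⟩, rfl⟩ := Submodule.Quotient.mk_surjective _ x
  let F : Finset ℤ := Finset.univ.biUnion fun i : T.ι q => (L.co (x i)).support
  refine ⟨F, fun j => Submodule.Quotient.mk ⟨fun i => L.co (x i) j, U11_co_cy L hx j⟩, ?_⟩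
  simp only [U11_iE_mk]
  have h1 : ∀ j ∈ F, (((L.z ^ j : Sˣ) : S) • (Submodule.Quotient.mk
      (⟨fun i => L.iota (L.co (x i) j), (U11_iota_cy L).mpr (U11_co_cy L hx j)⟩ :
        (T.map L.iota).cy q) : (T.map L.iota).E q)) = Submodule.Quotient.mk (((L.z ^ j : Sˣ) : S) •
      (⟨fun i => L.iota (L.co (x i) j), (U11_iota_cy L).mpr (U11_co_cy L hx j)⟩ :
        (T.map L.iota).cy q)) := fun j _ => rfl
  rw [Finset.sum_congr rfl h1]
  have h2 : ∑ j ∈ F, (Submodule.Quotient.mk (((L.z ^ j : Sˣ) : S) •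
      (⟨fun i => L.iota (L.co (x i) j), (U11_iota_cy L).mpr (U11_co_cy L hx j)⟩ :
        (T.map L.iota).cy q)) : (T.map L.iota).E q) = Submodule.Quotient.mk (∑ j ∈ F,
        (((L.z ^ j : Sˣ) : S) •
      (⟨fun i => L.iota (L.co (x i) j), (U11_iota_cy L).mpr (U11_co_cy L hx j)⟩ :
        (T.map L.iota).cy q))) :=
    (map_sum (Submodule.mkQ ((((T.map L.iota).bd q).comap ((T.map L.iota).cy q).subtype))) _ _).symm
  rw [h2]
  congr 1
  apply Subtype.ext
  funext i
  rw [AddSubmonoidClass.coe_finsetSum, Finset.sum_apply]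
  exact U11_eq_sum L.toSkL (x i) F (fun j hj => Finset.mem_biUnion.mpr ⟨i, Finset.mem_univ i, hj⟩)

theorem U11_span_top {R S : Type u} [Ring R] [Ring S] (L : SkL R S) {K : Type w} [AddCommGroup K]
    [Module R K] [Module S K] (hc : ∀ (r : R) (x : K), r • x = L.iota r • x) (Λ : Submodule R K)
    (hs : Submodule.span S (Λ : Set K) = ⊤) : ⨆ j : ℤ, (L.semi hc).tw j Λ = ⊤ := by
  rw [eq_top_iff]
  intro x _
  have hx : x ∈ Submodule.span S (Λ : Set K) := by
    rw [hs]
    trivial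
  induction hx using Submodule.span_induction with
  | mem x hx =>
    refine Submodule.mem_iSup_of_mem 0 ?_
    rw [Semi.tw_zero]
    exact hx
  | zero => exact Submodule.zero_mem _
  | add x y _ _ hx hy => exact Submodule.add_mem _ (hx trivial) (hy trivial)
  | smul s x _ hx =>
    rw [U11_eq_sum L s (L.co s).support (Finset.Subset.refl _), Finset.sum_smul]
    refine Submodule.sum_mem _ fun j _ => ?_
    rw [mul_smul, ← hc, ← L.semi_pw hc]
    have h1 : L.co s j • x ∈ ⨆ j : ℤ, (L.semi hc).tw j Λ := Submodule.smul_mem _ _ (hx trivial)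
    have h2 : (L.semi hc).pw j (L.co s j • x) ∈
        (L.semi hc).tw j (⨆ j : ℤ, (L.semi hc).tw j Λ) := ((L.semi hc).pw_mem_tw' j _ _).mpr h1
    rw [Semi.tw_iSup] at h2
    refine (iSup_le fun k => ?_ : (⨆ k : ℤ, (L.semi hc).tw j ((L.semi hc).tw k Λ)) ≤ _) h2
    rw [Semi.tw_tw]
    exact le_iSup (fun j : ℤ => (L.semi hc).tw j Λ) (j + k)

theorem U11_star_zinv (L : SkS R S) : star ((L.z⁻¹ : Sˣ) : S) = (L.z : S) := by
  rw [← L.star_z, star_star]

theorem U11_vecPsi (L : SkS R S) {m n : Type} [Fintype m] (y : m → R) (U V : Matrix n m R)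
    (Ψ : Matrix n m S) (hΨ : Ψ = U.map L.iota - ((L.z⁻¹ : Sˣ) : S) • V.map L.iota) :
    Matrix.vecMul (fun i => L.iota (y i)) Ψ.conjTranspose =
      (fun j => L.iota (Matrix.vecMul y U.conjTranspose j)) -
        (L.z : S) • (fun j => L.iota ((L.sig⁻¹ : RingAut R)
          (Matrix.vecMul y V.conjTranspose j))) := by
  rw [hΨ, Matrix.conjTranspose_sub, Matrix.vecMul_sub, U11_conj, U11_vec]
  congr 1
  have h2 : (((L.z⁻¹ : Sˣ) : S) • V.map L.iota).conjTranspose =
      Matrix.of fun i j => L.iota (V.conjTranspose i j) * (L.z : S) := by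
    ext i j
    simp only [Matrix.conjTranspose_apply, Matrix.smul_apply, Matrix.map_apply, smul_eq_mul,
      star_mul, Matrix.of_apply]
    rw [U11_star_zinv, L.star_iota]
  rw [h2]
  funext j
  have h3 : (L.z : S) * L.iota ((L.sig⁻¹ : RingAut R) (Matrix.vecMul y V.conjTranspose j)) =
      L.iota (Matrix.vecMul y V.conjTranspose j) * (L.z : S) := by
    rw [L.comm]
    congr 2
    exact L.sig.apply_symm_apply _
  rw [Pi.smul_apply, smul_eq_mul, h3]
  simp only [Matrix.vecMul, dotProduct, Matrix.of_apply, map_sum, map_mul, Finset.sum_mul,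
    mul_assoc]

theorem U11_cy_map {R : Type u} [Ring R] [StarRing R] {T1 T0 : RC R} (f : ChM T1 T0) {q : ℕ}
    {y : T0.ι q → R} (hy : y ∈ T0.cy q) : Matrix.vecMul y (f.U q).conjTranspose ∈ T1.cy q := by
  change Matrix.vecMul (Matrix.vecMul y (f.U q).conjTranspose) (T1.D q).conjTranspose = 0
  rw [Matrix.vecMul_vecMul, ← Matrix.conjTranspose_mul, ← f.comm, Matrix.conjTranspose_mul,
    ← Matrix.vecMul_vecMul, show Matrix.vecMul y (T0.D q).conjTranspose = 0 from hy,
    Matrix.zero_vecMul]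

/-- the formula `Ψ^* [ι y] = [ι (y U^*)] - z [ι w]` -/
theorem U11_Eu (L : SkS R S) {T1 T0 : RC R} (u : ChM T1 T0)
    (V : ∀ k, Matrix (T1.ι k) (T0.ι k) R) (Ψ : ChM (T1.map L.iota) (T0.map L.iota))
    (hΨ : ∀ k, Ψ.U k = (u.U k).map L.iota - ((L.z⁻¹ : Sˣ) : S) • (V k).map L.iota) (q : ℕ)
    (y : T0.E q) : ∃ w : T1.E q, Ψ.Eu q (U11_iE L T0 q y) =
      U11_iE L T1 q (u.Eu q y) - (L.z : S) • U11_iE L T1 q w := by
  obtain ⟨⟨y, hy⟩, rfl⟩ := Submodule.Quotient.mk_surjective _ y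
  let w : T1.ι q → R := fun j => (L.sig⁻¹ : RingAut R) (Matrix.vecMul y (V q).conjTranspose j)
  let yS : (T0.map L.iota).ι q → S := fun i => L.iota (y i)
  let wS : (T1.map L.iota).ι q → S := fun i => L.iota (w i)
  let uS : (T1.map L.iota).ι q → S := fun j => L.iota (Matrix.vecMul y (u.U q).conjTranspose j)
  have h1 : Matrix.vecMul yS (Ψ.U q).conjTranspose = uS - (L.z : S) • wS :=
    U11_vecPsi L y (u.U q) (V q) (Ψ.U q) (hΨ q)
  have hyS : yS ∈ (T0.map L.iota).cy q := (U11_iota_cy L).mpr hy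
  have hΨy : Matrix.vecMul yS (Ψ.U q).conjTranspose ∈ (T1.map L.iota).cy q :=
    U11_cy_map Ψ hyS
  have hUy : Matrix.vecMul y (u.U q).conjTranspose ∈ T1.cy q := U11_cy_map u hy
  have huS : uS ∈ (T1.map L.iota).cy q := (U11_iota_cy L).mpr hUy
  have hzw : (L.z : S) • wS ∈ (T1.map L.iota).cy q := by
    have h2 : (L.z : S) • wS = uS - Matrix.vecMul yS (Ψ.U q).conjTranspose := by
      rw [h1]
      abel
    rw [h2]
    exact Submodule.sub_mem _ huS hΨy
  have hwS : wS ∈ (T1.map L.iota).cy q := by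
    have h2 := Submodule.smul_mem _ ((L.z⁻¹ : Sˣ) : S) hzw
    rwa [smul_smul, Units.inv_mul, one_smul] at h2
  have hw : w ∈ T1.cy q := (U11_iota_cy L).mp hwS
  refine ⟨Submodule.Quotient.mk ⟨w, hw⟩, ?_⟩
  have e1 : Ψ.Eu q (U11_iE L T0 q (Submodule.Quotient.mk ⟨y, hy⟩)) =
      Submodule.Quotient.mk (⟨_, hΨy⟩ : (T1.map L.iota).cy q) := rfl
  have e2 : U11_iE L T1 q (u.Eu q (Submodule.Quotient.mk ⟨y, hy⟩)) =
      Submodule.Quotient.mk (⟨uS, huS⟩ : (T1.map L.iota).cy q) := rfl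
  have e3 : (L.z : S) • U11_iE L T1 q (Submodule.Quotient.mk ⟨w, hw⟩) =
      Submodule.Quotient.mk ((L.z : S) • (⟨wS, hwS⟩ : (T1.map L.iota).cy q)) := rfl
  rw [e1, e2, e3, ← Submodule.Quotient.mk_sub]
  congr 1
  exact Subtype.ext h1

theorem U11_finite_E [IsNoetherianRing R] (T : RC R) (q : ℕ) : Module.Finite R (T.E q) := by
  infer_instance

/-- the left end of the sequence -/
theorem U11_left [IsNoetherianRing R] (L : SkS R S) (h : AR R) {T1 T0 : RC R} (u : ChM T1 T0)
    (V : ∀ k, Matrix (T1.ι k) (T0.ι k) R) (Ψ : ChM (T1.map L.iota) (T0.map L.iota))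
    (hΨ : ∀ k, Ψ.U k = (u.U k).map L.iota - ((L.z⁻¹ : Sˣ) : S) • (V k).map L.iota) (q : ℕ)
    (hT1 : ∀ k, T1.Ex k) (hcu : ∀ k, (cone u).Ex k) {N : Type u} [AddCommGroup N] [Module S N]
    (i : (T1.map L.iota).E q →ₗ[S] N) (hi : Function.Surjective i)
    (hk : LinearMap.range (Ψ.Eu q) ≤ LinearMap.ker i) : Loc S (q + 1) N := by
  classical
  let _inst : Module R N := Module.compHom N L.iota
  have hc : ∀ (r : R) (x : N), r • x = L.iota r • x := fun _ _ => rfl
  let _inst : Module R ((T1.map L.iota).E q) := Module.compHom _ L.iota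
  let lam : T1.E q →ₗ[R] N :=
    { toFun := fun y => i (U11_iE L T1 q y)
      map_add' := fun a b => by rw [map_add, map_add]
      map_smul' := fun r a => by
        rw [map_smulₛₗ, map_smul]
        rfl }
  let Λ : Submodule R N := LinearMap.range lam
  have hΛ : Λ.FG := by
    have := U11_finite_E (R := R) T1 q
    exact Module.Finite.iff_fg.mp (Module.Finite.range lam)
  have hspan : Submodule.span S (Λ : Set N) = ⊤ := by
    rw [eq_top_iff]
    intro x _
    obtain ⟨x, rfl⟩ := hi x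
    obtain ⟨F, y, rfl⟩ := U11_gen L T1 q x
    rw [map_sum]
    refine Submodule.sum_mem _ fun j _ => ?_
    rw [map_smul]
    refine Submodule.smul_mem _ _ (Submodule.subset_span ?_)
    exact ⟨y j, rfl⟩
  have hgen := U11_span_top L.toSkL hc Λ hspan
  have hloc : Loc R q N := by
    have h1 : @Loc R _ q ((T1.map L.iota).E q) _ (Module.compHom _ L.iota) :=
      loc_map L T1 (h T1 hT1 q)
    let f : (T1.map L.iota).E q →ₗ[R] N :=
      { toFun := fun x => i x
        map_add' := fun a b => map_add i a b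
        map_smul' := fun r a => map_smul i (L.iota r) a }
    exact Loc.of_surjective f hi h1
  refine claim2' L.toSkL hc Λ hΛ hgen hloc ?_
  -- the quotient
  obtain ⟨iu, qu, -, hiu⟩ := cone_E u q
  have hq : Loc R (q + 1) (T1.E q ⧸ LinearMap.range (u.Eu q)) := by
    refine Loc.of_injective ((LinearMap.range (u.Eu q)).liftQ iu hiu.ge) ?_ (h (cone u) hcu (q + 1))
    rw [← LinearMap.ker_eq_bot, Submodule.ker_liftQ_eq_bot]
    exact hiu.le
  have hpw : ∀ y : T1.E q, (L.semi hc).pw (-1) (lam y) ∈ (L.semi hc).tw (-1) Λ := fun y =>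
    ((L.semi hc).pw_mem_tw' (-1) Λ _).mpr ⟨y, rfl⟩
  let φ0 : T1.E q →+ ↥(Submodule.map Λ.mkQ ((L.semi hc).tw (-1) Λ)) :=
    { toFun := fun y => ⟨Λ.mkQ ((L.semi hc).pw (-1) (lam y)), _, hpw y, rfl⟩
      map_zero' := by
        apply Subtype.ext
        show Λ.mkQ ((L.semi hc).pw (-1) (lam 0)) = 0
        rw [map_zero, map_zero, map_zero]
      map_add' := fun a b => by
        apply Subtype.ext
        show Λ.mkQ ((L.semi hc).pw (-1) (lam (a + b))) =
          Λ.mkQ ((L.semi hc).pw (-1) (lam a)) + Λ.mkQ ((L.semi hc).pw (-1) (lam b))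
        rw [map_add, map_add, map_add] }
  have hφ0 : ∀ x ∈ (LinearMap.range (u.Eu q)).toAddSubgroup, φ0 x = 0 := by
    rintro _ ⟨y, rfl⟩
    apply Subtype.ext
    show Λ.mkQ ((L.semi hc).pw (-1) (lam (u.Eu q y))) = 0
    rw [Submodule.mkQ_apply, Submodule.Quotient.mk_eq_zero, L.semi_pw hc]
    obtain ⟨w, hw⟩ := U11_Eu L u V Ψ hΨ q y
    have h0 : i (Ψ.Eu q (U11_iE L T0 q y)) = 0 := hk ⟨_, rfl⟩
    rw [hw, map_sub, map_smul, sub_eq_zero] at h0
    refine ⟨w, ?_⟩
    show i (U11_iE L T1 q w) = ((L.z ^ (-1 : ℤ) : Sˣ) : S) • i (U11_iE L T1 q (u.Eu q y))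
    rw [h0, smul_smul, zpow_neg_one, Units.inv_mul, one_smul]
  let φ : (T1.E q ⧸ LinearMap.range (u.Eu q)) →+
      ↥(Submodule.map Λ.mkQ ((L.semi hc).tw (-1) Λ)) :=
    QuotientAddGroup.lift _ φ0 hφ0
  refine Loc.semi_surj (L.sig⁻¹ : RingAut R) φ ?_ ?_ hq
  · rintro ⟨_, x, hx, rfl⟩
    have hx' : (L.semi hc).pw 1 x ∈ Λ := by
      have := hx
      rw [SetLike.mem_coe, Semi.mem_tw, neg_neg] at this
      exact this
    obtain ⟨y, hy⟩ := hx'
    refine ⟨Submodule.Quotient.mk y, ?_⟩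
    show φ0 y = _
    apply Subtype.ext
    show Λ.mkQ ((L.semi hc).pw (-1) (lam y)) = Λ.mkQ x
    rw [hy, Semi.pw_neg_pw]
  · intro r x
    obtain ⟨y, rfl⟩ := Submodule.Quotient.mk_surjective _ x
    show φ0 (r • y) = (L.sig⁻¹ : RingAut R) r • φ0 y
    apply Subtype.ext
    show Λ.mkQ ((L.semi hc).pw (-1) (lam (r • y))) =
      (L.sig⁻¹ : RingAut R) r • Λ.mkQ ((L.semi hc).pw (-1) (lam y))
    rw [map_smul, Semi.pw_neg_one_smul, map_smul]
    rfl

/-- Claim 3: the Auslander condition passes from `R` to `R[z, 1/z; sig]` -/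
theorem ar_step {R S : Type u} [Ring R] [StarRing R] [Ring S] [StarRing S] [IsNoetherianRing R]
    (L : SkS R S) (h : AR R) : AR S := by
  classical
  intro T hT p
  rcases p with _ | q
  · intro N _ l hl
    exact absurd hl (Nat.not_lt_zero l)
  have : IsNoetherianRing S := L.toSkL.noeth
  obtain ⟨r⟩ := exists_coker T hT
  let _inst : Module R ((T.ι 0 → S) ⧸ LinearMap.range (Matrix.vecMulLinear (T.D 0))) :=
    Module.compHom _ L.iota
  have hc : ∀ (r : R) (x : (T.ι 0 → S) ⧸ LinearMap.range (Matrix.vecMulLinear (T.D 0))),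
      r • x = L.iota r • x := fun _ _ => rfl
  let Λ0 : Submodule R ((T.ι 0 → S) ⧸ LinearMap.range (Matrix.vecMulLinear (T.D 0))) :=
    Submodule.span R (Set.range fun i : T.ι 0 => Submodule.Quotient.mk (Pi.single i 1))
  have hΛ0 : Λ0.FG := Submodule.fg_span (Set.finite_range _)
  have hs0 : Submodule.span S (Λ0 : Set ((T.ι 0 → S) ⧸
      LinearMap.range (Matrix.vecMulLinear (T.D 0)))) = ⊤ := by
    rw [eq_top_iff]
    intro x _
    obtain ⟨x, rfl⟩ := Submodule.Quotient.mk_surjective _ x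
    have e1 : x = ∑ i, x i • (Pi.single i 1 : T.ι 0 → S) := by
      funext j
      simp [Finset.sum_apply, Pi.single_apply]
    have e2 : (Submodule.Quotient.mk x : (T.ι 0 → S) ⧸
        LinearMap.range (Matrix.vecMulLinear (T.D 0))) =
        ∑ i, x i • Submodule.Quotient.mk (Pi.single i 1 : T.ι 0 → S) := by
      conv_lhs => rw [e1]
      exact map_sum (Submodule.mkQ _) _ _
    rw [e2]
    refine Submodule.sum_mem _ fun i _ => Submodule.smul_mem _ _ (Submodule.subset_span ?_)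
    exact Submodule.subset_span ⟨i, rfl⟩
  have hgen0 := U11_span_top L.toSkL hc Λ0 hs0
  obtain ⟨m0, hm0⟩ := (L.semi hc).good_sm hΛ0
  have hle : Λ0 ≤ (L.semi hc).sm 0 m0 Λ0 := by
    have := (L.semi hc).tw_le_sm (a := 0) (b := m0) (j := 0) le_rfl (by omega) Λ0
    rwa [Semi.tw_zero] at this
  have hgen : ⨆ j : ℤ, (L.semi hc).tw j ((L.semi hc).sm 0 m0 Λ0) = ⊤ := by
    rw [eq_top_iff, ← hgen0]
    exact iSup_mono fun j => (L.semi hc).tw_mono j hle
  obtain ⟨T1, T0, r1, r0, u, V, Ψ, hu, hΨ, ⟨rc⟩⟩ := exists_cone_res L.toSkL hc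
    ((L.semi hc).sm 0 m0 Λ0) ((L.semi hc).sm_fg 0 m0 hΛ0) hgen (hm0 m0 le_rfl)
  obtain ⟨e⟩ := E_equiv r rc (q + 1)
  refine Loc.of_injective e.toLinearMap e.injective ?_
  obtain ⟨i, g, hig, hi⟩ := cone_E Ψ q
  have hcu : ∀ k, (cone u).Ex k := by
    obtain ⟨rcu⟩ := cone_res_lin u r1 r0
      (Submodule.inclusion (inf_le_left : (L.semi hc).sub1 ((L.semi hc).sm 0 m0 Λ0) ≤ _))
      (Submodule.inclusion_injective _) (fun x => Subtype.ext (hu x))
    exact rcu.ex
  have h1 : Loc S (q + 1) ((T0.map L.iota).E (q + 1)) := by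
    let _inst : Module R ((T0.map L.iota).E (q + 1)) := Module.compHom _ L.iota
    exact claim1 L.toSkL (fun _ _ => rfl) (loc_map L T0 (h T0 r0.ex (q + 1)))
  have h2 : Loc S (q + 1) (LinearMap.range i) :=
    U11_left L h u V Ψ hΨ q r1.ex hcu i.rangeRestrict (LinearMap.surjective_rangeRestrict i)
      (by rw [LinearMap.ker_rangeRestrict]; exact hi.ge)
  refine Loc.of_exact (LinearMap.range i).subtype g ?_ h2 h1
  rw [Submodule.range_subtype]
  exact hig.ge

end U11

end Pool.Agent.UP
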