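import Mathlib
import Pool.Agent.Lib.UP.Good
import Pool.Agent.Lib.UP.ConeFL
import Pool.Agent.Lib.UP.U4
import Pool.Agent.Lib.UP.U6
import Pool.Agent.Lib.UP.U9

/-!
# TANK UP, row U12: global dimension of skew Laurent rings
-/

namespace Pool.Agent.UP

universe u v w w'

theorem fl_step {R S : Type u} [Ring R] [Ring S] [IsNoetherianRing R] (L : SkL R S) {g : ℕ}
    (h : FL R g) : FL S (g + 1) := by
  intro T hT
  obtain ⟨r⟩ := exists_coker T hT
  let _i : Module R ((T.ι 0 → S) ⧸ LinearMap.range (Matrix.vecMulLinear (T.D 0))) :=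
    Module.compHom _ L.iota
  have hc : ∀ (r : R) (x : (T.ι 0 → S) ⧸ LinearMap.range (Matrix.vecMulLinear (T.D 0))),
      r • x = L.iota r • x := fun _ _ => rfl
  obtain ⟨K0, hfg, hgen, hK0⟩ := exists_good L hc
  obtain ⟨T1, T0, r1, r0, u, V, Ψ, -, -, ⟨rc⟩⟩ := exists_cone_res L hc K0 hfg hgen hK0
  obtain ⟨N1, h1, h1'⟩ := h T1 r1.ex
  obtain ⟨N0, h0, h0'⟩ := h.succ T0 r0.ex
  have e : ∀ {a b c : Type} [Fintype b] (A : Matrix a b R) (B : Matrix b c R)
      (C : Matrix a c R), A * B = C → A.map L.iota * B.map L.iota = C.map L.iota := by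
    intro a b c _ A B C h
    rw [← Matrix.map_mul, h]
  have e' : ∀ {a b c : Type} [Fintype b] (A : Matrix a b R) (B : Matrix b c R),
      A * B = 0 → A.map L.iota * B.map L.iota = 0 := by
    intro a b c _ A B h
    rw [e A B 0 h]
    exact Matrix.map_zero _ (map_zero _)
  obtain ⟨N, hN, hN'⟩ := cone_fl Ψ (g := g) (map_ex L (r1.ex g)) (map_ex L (r0.ex (g + 1)))
    (M1 := N1.map L.iota) (e _ _ _ h1) (e' _ _ h1') (M0 := N0.map L.iota) (e _ _ _ h0) (e' _ _ h0')
  exact fl_compare r rc hN hN'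

end Pool.Agent.UP
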