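import Pool.Agent.Lib.UP.PolyZ

/-!
TANK UP, row U13b: the involution of a group ring, the skew Laurent extension with involutions.
-/

set_option autoImplicit false

open MonoidAlgebra

namespace Pool.Agent.UP

universe u v w

section
variable {A : Type u} {H : Type v} [CommRing A] [StarRing A] [Group H]

/-- the map `a h ↦ a* h⁻¹` -/
noncomputable def U13b_star (x : MonoidAlgebra A H) : MonoidAlgebra A H :=
  x.coeff.sum fun g a => single g⁻¹ (star a)

theorem U13b_star_zero : U13b_star (0 : MonoidAlgebra A H) = 0 := by
  rw [U13b_star, coeff_zero, Finsupp.sum_zero_index]

theorem U13b_star_add (x y : MonoidAlgebra A H) :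
    U13b_star (x + y) = U13b_star x + U13b_star y := by
  rw [U13b_star, U13b_star, U13b_star, coeff_add]
  refine Finsupp.sum_add_index' ?_ ?_
  · intro g
    rw [star_zero, single_zero]
  · intro g a b
    rw [star_add, single_add]

theorem U13b_star_single (h : H) (a : A) :
    U13b_star (single h a : MonoidAlgebra A H) = single h⁻¹ (star a) := by
  rw [U13b_star, coeff_single, Finsupp.sum_single_index]
  rw [star_zero, single_zero]

theorem U13b_star_star (x : MonoidAlgebra A H) : U13b_star (U13b_star x) = x := by
  induction x using MonoidAlgebra.induction_linear with
  | zero => rw [U13b_star_zero, U13b_star_zero]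
  | add x y hx hy => rw [U13b_star_add, U13b_star_add, hx, hy]
  | single h a => rw [U13b_star_single, U13b_star_single, inv_inv, star_star]

theorem U13b_star_mul (x y : MonoidAlgebra A H) :
    U13b_star (x * y) = U13b_star y * U13b_star x := by
  induction x using MonoidAlgebra.induction_linear with
  | zero => rw [zero_mul, U13b_star_zero, mul_zero]
  | add x x' hx hx' => rw [add_mul, U13b_star_add, hx, hx', U13b_star_add, mul_add]
  | single h a =>
    induction y using MonoidAlgebra.induction_linear with
    | zero => rw [mul_zero, U13b_star_zero, zero_mul]
    | add y y' hy hy' => rw [mul_add, U13b_star_add, hy, hy', U13b_star_add, add_mul]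
    | single k b =>
      rw [single_mul_single, U13b_star_single, U13b_star_single, U13b_star_single,
        single_mul_single, mul_inv_rev, star_mul]

end

/-- the involution of a group ring -/
noncomputable def starMA (A : Type u) (H : Type v) [CommRing A] [StarRing A] [Group H] :
    StarRing (MonoidAlgebra A H) where
  star x := x.coeff.sum fun g a => single g⁻¹ (star a)
  star_involutive := U13b_star_star
  star_mul := U13b_star_mul
  star_add := U13b_star_add

section
variable {A : Type u} {H : Type v} [CommRing A] [StarRing A] [Group H]

theorem starMA_single (h : H) (a : A) :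
    (starMA A H).star (single h a) = single h⁻¹ (star a) := U13b_star_single h a

theorem starMA_add (x y : MonoidAlgebra A H) :
    (starMA A H).star (x + y) = (starMA A H).star x + (starMA A H).star y := U13b_star_add x y

theorem starMA_zero : (starMA A H).star 0 = 0 := U13b_star_zero

theorem starMA_coeff (x : MonoidAlgebra A H) (h : H) :
    ((starMA A H).star x).coeff h = star (x.coeff h⁻¹) := by
  induction x using MonoidAlgebra.induction_linear with
  | zero => rw [starMA_zero, coeff_zero, Finsupp.zero_apply, Finsupp.zero_apply, star_zero]
  | add x y hx hy =>
    rw [starMA_add, coeff_add, Finsupp.add_apply, hx, hy, coeff_add, Finsupp.add_apply, star_add]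
  | single k a =>
    classical
    rw [starMA_single, coeff_single, coeff_single, Finsupp.single_apply, Finsupp.single_apply]
    by_cases hk : k⁻¹ = h
    · rw [if_pos hk, if_pos (by rw [← hk, inv_inv])]
    · rw [if_neg hk, if_neg (fun h' => hk (by rw [h', inv_inv])), star_zero]

/-- homomorphisms of groups induce homomorphisms of rings with involutions -/
theorem starMA_map {K : Type w} [Group K] (f : H →* K) (x : MonoidAlgebra A H) :
    (starMA A K).star (mapDomainRingHom A f x) =
      mapDomainRingHom A f ((starMA A H).star x) := by
  induction x using MonoidAlgebra.induction_linear with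
  | zero => rw [map_zero, starMA_zero, starMA_zero, map_zero]
  | add x y hx hy => rw [map_add, starMA_add, hx, hy, starMA_add, map_add]
  | single h a =>
    change (starMA A K).star (mapDomain f (single h a)) =
      mapDomain f ((starMA A H).star (single h a))
    rw [mapDomain_single, starMA_single, starMA_single, mapDomain_single, map_inv]

end

/-- the group ring of an extension by `ℤ` as a skew Laurent extension with involutions -/
noncomputable def ZExt.skS {N H : Type v} [Group N] [Group H] (X : ZExt N H) (A : Type u)
    [CommRing A] [StarRing A] :
    @SkS (MonoidAlgebra A N) (MonoidAlgebra A H) _ (starMA A N) _ (starMA A H) :=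
  letI := starMA A N
  letI := starMA A H
  { toSkL := X.skL A
    star_iota := fun r => starMA_map X.i r
    star_z := by
      change (starMA A H).star (single X.t 1) = ((Units.map (MonoidAlgebra.of A H)
        (toUnits X.t))⁻¹ : (MonoidAlgebra A H)ˣ)
      rw [starMA_single, star_one]
      rfl }

/-- the group ring of the kernel of a surjective homomorphism to `ℤ` -/
noncomputable def skG {A : Type u} {H : Type v} [CommRing A] [StarRing A] [Group H]
    (φ : H →* Multiplicative ℤ) (hφ : Function.Surjective φ) :
    @SkS (MonoidAlgebra A φ.ker) (MonoidAlgebra A H) _ (starMA A φ.ker) _ (starMA A H) :=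
  (ZExt.ofHom φ hφ).skS A

end Pool.Agent.UP
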