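import Pool.Agent.Lib.UP.U4b
import Pool.Agent.Lib.UP.U11
import Pool.Agent.Lib.UP.U12
import Pool.Agent.Lib.UP.U4F
import Pool.Agent.Lib.UP.U13b

/-!
TANK UP, row U13c: group rings of poly-`ℤ` groups.
-/

set_option autoImplicit false

open MonoidAlgebra

namespace Pool.Agent.UP

universe u v w

/-- the facts carried by the induction -/
private def U13c_P (A : Type u) [CommRing A] [StarRing A] (g : ℕ) (d : ℕ) (H : Type v) [Group H] :
    Prop :=
  IsNoetherianRing (MonoidAlgebra A H) ∧ @AR (MonoidAlgebra A H) _ (starMA A H) ∧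
      FL (MonoidAlgebra A H) (g + d)

/-- U13c: group rings of poly-`ℤ` groups are noetherian, satisfy the Auslander condition and have
finite global dimension, if this holds for the coefficients -/
theorem polyZ_facts {A : Type u} [CommRing A] [StarRing A] [IsNoetherianRing A] (hA : AR A) {g : ℕ}
    (hg : FL A g) (d : ℕ) (H : Type v) [Group H] (hH : PolyZ d H) :
    IsNoetherianRing (MonoidAlgebra A H) ∧ @AR (MonoidAlgebra A H) _ (starMA A H) ∧
      FL (MonoidAlgebra A H) (g + d) := by
  refine PolyZ.rec_ext (P := fun d H _ => U13c_P A g d H) ?_ ?_ ?_ ?_ d H hH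
  · intro H _ _
    let := starMA A H
    have : Unique H := ⟨⟨1⟩, fun a => Subsingleton.elim a 1⟩
    have e : A ≃+* MonoidAlgebra A H := (MonoidAlgebra.uniqueRingEquiv H).symm
    exact ⟨isNoetherianRing_of_ringEquiv _ e, AR.equiv e hA, FL.equiv e hg⟩
  · rintro n H K _ _ e ⟨h1, h2, h3⟩
    let := starMA A H
    let := starMA A K
    exact ⟨isNoetherianRing_of_ringEquiv _ (mapDomainRingEquiv A e),
      AR.equiv (mapDomainRingEquiv A e) h2, FL.equiv (mapDomainRingEquiv A e) h3⟩
  · rintro n H _ ⟨h1, h2, h3⟩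
    exact ⟨h1, h2, FL.succ h3⟩
  · rintro n N H _ _ X ⟨h1, h2, h3⟩
    let := starMA A N
    let := starMA A H
    exact ⟨(X.skL A).noeth, ar_step (X.skS A) h2, fl_step (X.skL A) h3⟩

end Pool.Agent.UP
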