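import Mathlib
import Pool.Agent.Lib.UP.Defs
import Pool.Agent.Lib.UP.U3b

/-!
# Row U4b: the facts AR and FL do not depend on the ring up to isomorphism
-/

open MonoidAlgebra CategoryTheory

namespace Pool.Agent.UP

universe u v w w'

section
variable {R : Type u} {R' : Type v} [Ring R] [Ring R']

/-- the image of an exact complex under an isomorphism of rings is exact -/
private theorem U4b_map_ex (e : R ≃+* R') {T : RC R} {k : ℕ} (h : T.Ex k) :
    (T.map (e : R →+* R')).Ex k := by
  intro x hx
  have h1 : Matrix.vecMul (fun i => e.symm (x i)) (T.D k) = 0 := by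
    funext j
    apply e.injective
    have h2 := congrFun hx j
    change (∑ i, x i * e (T.D k i j)) = 0 at h2
    change e (∑ i, e.symm (x i) * T.D k i j) = e 0
    rw [map_sum, map_zero, ← h2]
    exact Finset.sum_congr rfl fun i _ => by rw [map_mul, e.apply_symm_apply]
  obtain ⟨y, hy⟩ := h _ h1
  refine ⟨fun i => e (y i), ?_⟩
  funext j
  have h2 := congrFun hy j
  change (∑ i, y i * T.D (k + 1) i j) = e.symm (x j) at h2
  change (∑ i, e (y i) * e (T.D (k + 1) i j)) = x j
  rw [← e.apply_symm_apply (x j), ← h2, map_sum]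
  exact Finset.sum_congr rfl fun i _ => by rw [map_mul]

theorem FL.equiv (e : R ≃+* R') {g : ℕ} (h : FL R g) : FL R' g := by
  intro T hT
  obtain ⟨M, hM, hM'⟩ := h (T.map (e.symm : R' →+* R)) fun k => U4b_map_ex e.symm (hT k)
  have hD : ∀ k, ((T.map (e.symm : R' →+* R)).D k).map (e : R →+* R') = T.D k := by
    intro k
    ext i j
    exact e.apply_symm_apply (T.D k i j)
  have h1 : (M * (T.map (e.symm : R' →+* R)).D g).map (e : R →+* R') =
      ((T.map (e.symm : R' →+* R)).D g).map (e : R →+* R') := by rw [hM]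
  have h2 : ((T.map (e.symm : R' →+* R)).D (g + 1) * M).map (e : R →+* R') = 0 := by
    rw [hM']
    exact Matrix.map_zero _ (map_zero _)
  rw [Matrix.map_mul, hD] at h1 h2
  exact ⟨M.map (e : R →+* R'), h1, h2⟩

end

section
variable {R : Type u} {R' : Type v} [Ring R] [StarRing R] [Ring R'] [StarRing R']

/-- the isomorphism `r ↦ star (e (star r))` -/
private def U4b_tau (e : R ≃+* R') : R ≃+* R' where
  toFun r := star (e (star r))
  invFun r := star (e.symm (star r))
  left_inv r := by simp
  right_inv r := by simp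
  map_mul' r s := by simp
  map_add' r s := by simp

private theorem U4b_vecMul (e : R ≃+* R') {m n : Type} [Fintype m] [Fintype n]
    (D : Matrix m n R) (D' : Matrix m n R') (hD : ∀ i j, e (D i j) = D' i j) (x : n → R) :
    Matrix.vecMul (fun i => U4b_tau e (x i)) D'.conjTranspose =
      fun j => U4b_tau e (Matrix.vecMul x D.conjTranspose j) := by
  funext j
  change (∑ i, star (e (star (x i))) * star (D' j i)) =
    star (e (star (∑ i, x i * star (D j i))))
  rw [star_sum, map_sum, star_sum]
  refine Finset.sum_congr rfl fun i _ => ?_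
  rw [star_mul, star_star, map_mul, star_mul, hD]

/-- the semilinear map on cocycles -/
private def U4b_cy (e : R ≃+* R') (T : RC R') (p : ℕ) :
    (T.map (e.symm : R' →+* R)).cy p →ₛₗ[(U4b_tau e : R →+* R')] T.cy p where
  toFun x := ⟨fun i => U4b_tau e (x.1 i), by
    have h1 : Matrix.vecMul x.1 ((T.map (e.symm : R' →+* R)).D p).conjTranspose = 0 := x.2
    have h2 := U4b_vecMul e ((T.map (e.symm : R' →+* R)).D p) (T.D p)
      (fun i j => e.apply_symm_apply (T.D p i j)) x.1
    change Matrix.vecMul (fun i => U4b_tau e (x.1 i)) (T.D p).conjTranspose = 0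
    refine h2.trans ?_
    rw [h1]
    funext j
    exact map_zero (U4b_tau e)⟩
  map_add' x y := Subtype.ext (funext fun i => map_add (U4b_tau e) (x.1 i) (y.1 i))
  map_smul' r x := Subtype.ext (funext fun i => map_mul (U4b_tau e) r (x.1 i))

/-- the semilinear map on cohomology -/
private def U4b_E (e : R ≃+* R') (T : RC R') (p : ℕ) :
    (T.map (e.symm : R' →+* R)).E p →ₛₗ[(U4b_tau e : R →+* R')] T.E p :=
  Submodule.mapQ _ _ (U4b_cy e T p) (by
    rintro ⟨x, hx⟩ hb
    change (fun i => U4b_tau e (x i)) ∈ T.bd p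
    replace hb : x ∈ (T.map (e.symm : R' →+* R)).bd p := hb
    cases p with
    | zero =>
      rw [show x = 0 from hb]
      have h0 : (fun i => U4b_tau e ((0 : (T.map (e.symm : R' →+* R)).ι 0 → R) i)) = 0 := by
        funext i
        exact map_zero (U4b_tau e)
      rw [h0]
      exact Submodule.zero_mem _
    | succ p =>
      obtain ⟨z, rfl⟩ := hb
      exact ⟨fun i => U4b_tau e (z i), U4b_vecMul e ((T.map (e.symm : R' →+* R)).D p) (T.D p)
        (fun i j => e.apply_symm_apply (T.D p i j)) z⟩)

private theorem U4b_E_surj (e : R ≃+* R') (T : RC R') (p : ℕ) :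
    Function.Surjective (U4b_E e T p) := by
  intro y
  obtain ⟨⟨y, hy⟩, rfl⟩ := Submodule.Quotient.mk_surjective _ y
  have h1 : Matrix.vecMul (fun i => (U4b_tau e).symm (y i))
      ((T.map (e.symm : R' →+* R)).D p).conjTranspose = 0 := by
    have h2 := U4b_vecMul e ((T.map (e.symm : R' →+* R)).D p) (T.D p)
      (fun i j => e.apply_symm_apply (T.D p i j)) (fun i => (U4b_tau e).symm (y i))
    have h3 : (fun i => U4b_tau e ((U4b_tau e).symm (y i))) = y :=
      funext fun i => (U4b_tau e).apply_symm_apply (y i)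
    have h4 : Matrix.vecMul (fun i => U4b_tau e ((U4b_tau e).symm (y i)))
        (T.D p).conjTranspose = 0 :=
      (congrArg (fun v => Matrix.vecMul v (T.D p).conjTranspose) h3).trans hy
    funext j
    apply (U4b_tau e).injective
    exact ((congrFun h2 j).symm.trans (congrFun h4 j)).trans (map_zero (U4b_tau e)).symm
  refine ⟨Submodule.Quotient.mk ⟨fun i => (U4b_tau e).symm (y i), h1⟩, ?_⟩
  change Submodule.Quotient.mk (U4b_cy e T p _) = _
  congr 1
  exact Subtype.ext (funext fun i => (U4b_tau e).apply_symm_apply (y i))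

/-- the Auslander condition only depends on the ring up to isomorphism -/
theorem AR.equiv [IsNoetherianRing R] (e : R ≃+* R') (h : AR R) : AR R' := by
  intro T hT p
  have h1 := h (T.map (e.symm : R' →+* R)) (fun k => U4b_map_ex e.symm (hT k)) p
  exact Loc.semi_surj (U4b_tau e) (U4b_E e T p).toAddMonoidHom (U4b_E_surj e T p)
    (fun r x => (U4b_E e T p).map_smulₛₗ r x) h1

end

end Pool.Agent.UP
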