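import Mathlib
import Pool.Agent.Lib.UP.F11G
import Pool.Agent.Lib.UP.PolyZ
import Pool.Agent.Lib.UPV.V10
import Pool.Agent.Lib.UP.U13c

/-!
# TANK UP: torsion-free groups which are virtually (poly-`ℤ`)-by-free
-/

set_option autoImplicit false

open MonoidAlgebra

namespace Pool.Agent.UP

universe u v w

/-- `H` is torsion-free and has a subgroup `H'` of finite index with a homomorphism `φ` to a free
group, such that the kernel of `φ` is poly-`ℤ`: torsion-free and virtually (poly-`ℤ`)-by-free -/
def IsVPF (H : Type v) [Group H] : Prop :=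
  (∀ h : H, IsOfFinOrder h → h = 1) ∧
    ∃ (H' : Subgroup H) (X : Type v) (φ : H' →* FreeGroup X) (d : ℕ),
      H'.FiniteIndex ∧ PolyZ d φ.ker

/-- a finitely generated free group has finite rank -/
theorem finite_of_fg_freeGroup {X : Type w} (h : Group.FG (FreeGroup X)) : Finite X := by
  classical
  let f : FreeGroup X →* Multiplicative (X →₀ ℤ) :=
    FreeGroup.lift fun x => Multiplicative.ofAdd (Finsupp.single x 1)
  have hf : Function.Surjective f := by
    rw [← MonoidHom.range_eq_top, eq_top_iff]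
    intro y _
    induction y using Multiplicative.rec with
    | ofAdd y =>
      induction y using Finsupp.induction_linear with
      | zero => exact f.range.one_mem
      | add a b ha hb => exact f.range.mul_mem (ha trivial) (hb trivial)
      | single x n =>
        refine ⟨(FreeGroup.of x) ^ n, ?_⟩
        rw [map_zpow]
        simp [f, ← ofAdd_zsmul]
  have h1 : Group.FG (Multiplicative (X →₀ ℤ)) := Group.fg_of_surjective hf
  have h2 : AddGroup.FG (X →₀ ℤ) := AddGroup.fg_iff_mul_fg.mpr h1
  have h3 : Module.Finite ℤ (X →₀ ℤ) := Module.Finite.iff_addGroup_fg.mpr h2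
  exact Module.Finite.finite_basis (Finsupp.basisSingleOne (R := ℤ) (ι := X))

/-- a homomorphism of a finitely generated group to a free group can be replaced by a surjective
one to a free group of finite rank with the same kernel -/
theorem exists_surj_freeGroup {G : Type v} [Group G] (hG : Group.FG G) {X : Type w}
    (φ : G →* FreeGroup X) :
    ∃ (n : ℕ) (ψ : G →* FreeGroup (Fin n)), Function.Surjective ψ ∧ ψ.ker = φ.ker := by
  classical
  have h2 : Group.FG φ.range := Group.fg_of_surjective φ.rangeRestrict_surjective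
  let e : FreeGroup (IsFreeGroup.Generators φ.range) ≃* φ.range := IsFreeGroup.mulEquiv φ.range
  have h3 : Finite (IsFreeGroup.Generators φ.range) :=
    finite_of_fg_freeGroup (Group.fg_of_surjective (f := e.symm.toMonoidHom) e.symm.surjective)
  obtain ⟨n, ⟨e2⟩⟩ := Finite.exists_equiv_fin (IsFreeGroup.Generators φ.range)
  let e3 : φ.range ≃* FreeGroup (Fin n) := e.symm.trans (FreeGroup.freeGroupCongr e2)
  refine ⟨n, e3.toMonoidHom.comp φ.rangeRestrict,
    e3.surjective.comp φ.rangeRestrict_surjective, ?_⟩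
  ext x
  simp only [MonoidHom.mem_ker, MonoidHom.comp_apply, MulEquiv.coe_toMonoidHom,
    EmbeddingLike.map_eq_one_iff]
  exact Subtype.ext_iff

/-- the class `IsVPF` with a bound `d` for the Hirsch length of the kernel -/
def VPFd (d : ℕ) (H : Type v) [Group H] : Prop :=
  (∀ h : H, IsOfFinOrder h → h = 1) ∧
    ∃ (H' : Subgroup H) (X : Type v) (φ : H' →* FreeGroup X), H'.FiniteIndex ∧ PolyZ d φ.ker

theorem isVPF_iff {H : Type v} [Group H] : IsVPF H ↔ ∃ d, VPFd d H := by
  constructor
  · rintro ⟨h1, H', X, φ, d, h2, h3⟩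
    exact ⟨d, h1, H', X, φ, h2, h3⟩
  · rintro ⟨d, h1, H', X, φ, h2, h3⟩
    exact ⟨h1, H', X, φ, d, h2, h3⟩

theorem VPFd.mono {d e : ℕ} (hde : d ≤ e) {H : Type v} [Group H] (h : VPFd d H) : VPFd e H := by
  obtain ⟨h1, H', X, φ, h2, h3⟩ := h
  exact ⟨h1, H', X, φ, h2, h3.mono hde⟩

theorem VPFd.of_injective {d : ℕ} {H K : Type v} [Group H] [Group K] (f : K →* H)
    (hf : Function.Injective f) (h : VPFd d H) : VPFd d K := by
  obtain ⟨htf, H', X, φ, hfi, hP⟩ := h
  refine ⟨fun k hk => hf ?_, H'.comap f, X, φ.comp (f.subgroupComap H'), ?_, ?_⟩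
  · rw [map_one]
    exact htf _ (f.isOfFinOrder hk)
  · refine ⟨?_⟩
    rw [Subgroup.index_comap]
    exact (inferInstance : (H'.subgroupOf f.range).FiniteIndex).index_ne_zero
  · let i : (φ.comp (f.subgroupComap H')).ker →* φ.ker :=
      { toFun := fun x => ⟨f.subgroupComap H' x.1, x.2⟩
        map_one' := Subtype.ext (map_one _)
        map_mul' := fun _ _ => Subtype.ext (map_mul _ _ _) }
    refine hP.of_injective i ?_
    intro x y hxy
    have h2 : (i x).1.1 = (i y).1.1 := by rw [hxy]
    exact Subtype.ext (Subtype.ext (hf h2))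

theorem VPFd.subgroup {d : ℕ} {H : Type v} [Group H] (h : VPFd d H) (K : Subgroup H) :
    VPFd d K :=
  h.of_injective K.subtype K.subtype_injective

theorem IsVPF.of_injective {H K : Type v} [Group H] [Group K] (f : K →* H)
    (hf : Function.Injective f) (h : IsVPF H) : IsVPF K := by
  obtain ⟨d, hd⟩ := isVPF_iff.1 h
  exact isVPF_iff.2 ⟨d, hd.of_injective f hf⟩

/-- the facts of stage 2 for a finitely generated group in the class `VPFd d` -/
theorem VPFd.facts {A : Type u} [CommRing A] [StarRing A] [IsNoetherianRing A] (hA : AR A) {g : ℕ}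
    (hg : FL A g) {d : ℕ} {H : Type v} [Group H] (hH : VPFd d H) (hfg : Group.FG H) :
    Facts4 (MonoidAlgebra A H) (g + d + 2) := by
  obtain ⟨htf, N, X, φ, hN, hP⟩ := hH
  have hNfg : Group.FG N := Subgroup.fg_of_index_ne_zero N
  obtain ⟨n, ψ, hψ, hker⟩ := exists_surj_freeGroup hNfg φ
  have hPψ : PolyZ d ψ.ker := by
    rw [hker]
    exact hP
  have hrc := rc4_group (A := A) ψ.ker (QuotientGroup.quotientKerEquivOfSurjective ψ hψ)
    (polyZ_facts hA hg d ψ.ker hPψ)
  exact UPV.facts4_virt hg htf N hN ψ hPψ hrc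

/-- the facts of stage 2 for all finitely generated subgroups of a torsion-free and virtually
(poly-`ℤ`)-by-free group, with one bound -/
theorem vpf_facts {A : Type u} [CommRing A] [StarRing A] [IsNoetherianRing A] (hA : AR A) {g : ℕ}
    (hg : FL A g) {H : Type v} [Group H] (hH : IsVPF H) :
    ∃ G : ℕ, ∀ K : Subgroup H, K.FG → Facts4 (MonoidAlgebra A K) G := by
  obtain ⟨d, hd⟩ := isVPF_iff.1 hH
  exact ⟨g + d + 2, fun K hK =>
    (hd.subgroup K).facts hA hg ((Group.fg_iff_subgroup_fg K).mpr hK)⟩

end Pool.Agent.UP
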