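import Mathlib
import Pool.Agent.Lib.UP.TrDefs
import Pool.Agent.Lib.MP_98022b_UN.R7

/-!
# Transfer of the ring-theoretic facts from `A[H]`, `H ≤ F` finitely generated, to matrices over
`A[G]` supported in `F`
-/

open MonoidAlgebra

namespace Pool.Agent.UP

open Pool.Agent.Lib.MP_98022b_UN

universe u v

section fg

variable {A : Type u} {G : Type v} [CommRing A] [Group G] {F : Subgroup G}

theorem OnF.mono' {F F' : Subgroup G} (h : F ≤ F') {I J : Type}
    {M : Matrix I J (MonoidAlgebra A G)} (hM : OnF F M) : OnF F' M :=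
  fun i j g hg => h (hM i j g hg)

theorem exists_fg {I J : Type} [Fintype I] [Fintype J] {M : Matrix I J (MonoidAlgebra A G)}
    (hM : OnF F M) : ∃ H : Subgroup G, H.FG ∧ H ≤ F ∧ OnF H M := by
  classical
  refine ⟨Subgroup.closure ((Finset.univ.biUnion fun i : I => Finset.univ.biUnion fun j : J =>
    (M i j).coeff.support : Finset G) : Set G), ⟨_, rfl⟩, ?_, ?_⟩
  · rw [Subgroup.closure_le]
    intro g hg
    simp only [Finset.coe_biUnion, Set.mem_iUnion, Finset.mem_coe, Finset.mem_univ,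
      exists_true_left, Finsupp.mem_support_iff] at hg
    obtain ⟨i, j, hg⟩ := hg
    exact hM i j g hg
  · intro i j g hg
    apply Subgroup.subset_closure
    simp only [Finset.coe_biUnion, Set.mem_iUnion, Finset.mem_coe, Finset.mem_univ,
      exists_true_left, Finsupp.mem_support_iff]
    exact ⟨i, j, hg⟩

theorem fg_sup {H H' : Subgroup G} (h : H.FG) (h' : H'.FG) : (H ⊔ H').FG := by
  obtain ⟨S, hS⟩ := h
  obtain ⟨S', hS'⟩ := h'
  classical
  refine ⟨S ∪ S', ?_⟩
  rw [Finset.coe_union, Subgroup.closure_union, hS, hS']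

end fg

section pull

variable {A : Type u} {G : Type v} [CommRing A] [Group G] (H : Subgroup G)

/-- the inclusion of group rings -/
noncomputable abbrev inc : MonoidAlgebra A H →+* MonoidAlgebra A G := r7f H.subtype

variable {H}

theorem inc_pull {I J : Type} {M : Matrix I J (MonoidAlgebra A G)} (hM : OnF H M) :
    ∃ M₀ : Matrix I J (MonoidAlgebra A H), M₀.map (inc H) = M :=
  r7_pull H.subtype H.subtype_injective M (by rw [Subgroup.range_subtype]; exact hM)

theorem inc_on {I J : Type} (M : Matrix I J (MonoidAlgebra A H)) : OnF H (M.map (inc H)) := by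
  have h := r7_onF H.subtype M
  rwa [Subgroup.range_subtype] at h

theorem inc_inj {I J : Type} {M N : Matrix I J (MonoidAlgebra A H)}
    (h : M.map (inc H) = N.map (inc H)) : M = N :=
  r7_map_inj H.subtype H.subtype_injective h

theorem inc_zero {I J : Type} : (0 : Matrix I J (MonoidAlgebra A H)).map (inc H) = 0 :=
  r7_map_zero H.subtype

theorem inc_eq_zero {x : MonoidAlgebra A H} : inc H x = 0 ↔ x = 0 := by
  constructor
  · intro h
    exact r7f_inj H.subtype H.subtype_injective (by rw [h, map_zero])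
  · rintro rfl
    exact map_zero _

theorem inc_ne {I J : Type} {M : Matrix I J (MonoidAlgebra A H)} {i : I} {j : J} :
    (M.map (inc H)) i j ≠ 0 ↔ M i j ≠ 0 := by
  rw [Matrix.map_apply, Ne, inc_eq_zero]

/-- the right component at the trivial coset -/
theorem cR_one_of_onF {F : Subgroup G} {I J : Type} {M : Matrix I J (MonoidAlgebra A G)}
    (hM : OnF F M) : cR F 1 M = M := by
  classical
  ext i j g
  simp only [cR, inv_one, res]
  rw [← MonoidAlgebra.one_def, mul_one]
  change (Finsupp.filter _ _) g = _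
  rw [Finsupp.filter_apply]
  split_ifs with h1
  · rfl
  · by_contra h2
    exact h1 (hM i j g (Ne.symm h2))

/-- solutions of column equations over `A[G]` descend -/
theorem col_down {I J K : Type} [Fintype J] {D : Matrix I J (MonoidAlgebra A H)}
    {y : Matrix I K (MonoidAlgebra A H)}
    (h : ∃ z : Matrix J K (MonoidAlgebra A G), y.map (inc H) = D.map (inc H) * z) :
    ∃ z : Matrix J K (MonoidAlgebra A H), y = D * z := by
  obtain ⟨z, hz⟩ := h
  obtain ⟨z₀, hz₀⟩ := inc_pull (cR_onF (F := H) 1 z)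
  refine ⟨z₀, inc_inj ?_⟩
  rw [Matrix.map_mul, hz₀, ← cR_mul (inc_on D), ← hz, cR_one_of_onF (inc_on y)]

/-- solutions of row equations over `A[G]` descend -/
theorem row_down {I J K : Type} [Fintype J] {D : Matrix J K (MonoidAlgebra A H)}
    {x : Matrix I K (MonoidAlgebra A H)}
    (h : ∃ z : Matrix I J (MonoidAlgebra A G), x.map (inc H) = z * D.map (inc H)) :
    ∃ z : Matrix I J (MonoidAlgebra A H), x = z * D := by
  obtain ⟨z, hz⟩ := h
  obtain ⟨z₀, hz₀⟩ := inc_pull (cL_onF (F := H) 1 z)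
  refine ⟨z₀, inc_inj ?_⟩
  rw [Matrix.map_mul, hz₀, ← cL_mul (inc_on D), ← hz, r7_cL_one (inc_on x)]

end pull

section down

variable {A : Type u} {G : Type v} [CommRing A] [Group G] {H : Subgroup G}
  {K C : Type} [Fintype K] [Fintype C] {deg : K → ℤ}

theorem IsCx.down {e d : Matrix K K (MonoidAlgebra A H)}
    (h : IsCx deg (e.map (inc H)) (d.map (inc H))) : IsCx deg e d where
  e_deg := fun i j hij => h.e_deg i j (inc_ne.2 hij)
  d_deg := fun i j hij => h.d_deg i j (inc_ne.2 hij)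
  ee := inc_inj (by rw [Matrix.map_mul]; exact h.ee)
  ed := inc_inj (by rw [Matrix.map_mul]; exact h.ed)
  de := inc_inj (by rw [Matrix.map_mul]; exact h.de)
  dd := inc_inj (by rw [Matrix.map_mul, inc_zero]; exact h.dd)

theorem ColEx.down {e d : Matrix K K (MonoidAlgebra A H)} {j : ℤ}
    (h : ColEx deg (e.map (inc H)) (d.map (inc H)) j) : ColEx deg e d j := by
  intro y hy hey hdy
  apply col_down
  refine h (y.map (inc H)) (fun k hk => hy k (inc_ne.1 hk)) ?_ ?_
  · rw [← Matrix.map_mul, hey]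
  · rw [← Matrix.map_mul, hdy, inc_zero]

theorem RowEx.down {e d : Matrix K K (MonoidAlgebra A H)} {j : ℤ}
    (h : RowEx deg (e.map (inc H)) (d.map (inc H)) j) : RowEx deg e d j := by
  intro x hx hxe hxd
  apply row_down
  refine h (x.map (inc H)) (fun k hk => hx k (inc_ne.1 hk)) ?_ ?_
  · rw [← Matrix.map_mul, hxe]
  · rw [← Matrix.map_mul, hxd, inc_zero]

theorem IsKill.down {e d : Matrix K K (MonoidAlgebra A H)} {i₀ : ℕ} {p : C → ℕ}
    {e' δ : Matrix C C (MonoidAlgebra A H)} {f : Matrix C K (MonoidAlgebra A H)}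
    (h : IsKill deg (e.map (inc H)) (d.map (inc H)) i₀ p (e'.map (inc H)) (δ.map (inc H))
      (f.map (inc H))) : IsKill deg e d i₀ p e' δ f where
  e_deg := fun i j hij => h.e_deg i j (inc_ne.2 hij)
  δ_deg := fun i j hij => h.δ_deg i j (inc_ne.2 hij)
  f_deg := fun i j hij => h.f_deg i j (inc_ne.2 hij)
  ee := inc_inj (by rw [Matrix.map_mul]; exact h.ee)
  eδ := inc_inj (by rw [Matrix.map_mul]; exact h.eδ)
  δe := inc_inj (by rw [Matrix.map_mul]; exact h.δe)
  δδ := inc_inj (by rw [Matrix.map_mul, inc_zero]; exact h.δδ)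
  ef := inc_inj (by rw [Matrix.map_mul]; exact h.ef)
  fe := inc_inj (by rw [Matrix.map_mul]; exact h.fe)
  δf := inc_inj (by
    rw [Matrix.map_add _ (map_add _), Matrix.map_mul, Matrix.map_mul, inc_zero]; exact h.δf)
  rowex := by
    rintro l u hu hue huδ ⟨x, hx⟩
    apply row_down
    refine h.rowex l (u.map (inc H)) (fun k hk => hu k (inc_ne.1 hk)) ?_ ?_
      ⟨x.map (inc H), ?_⟩
    · rw [← Matrix.map_mul, hue]
    · rw [← Matrix.map_mul, huδ, inc_zero]
    · rw [← Matrix.map_mul, ← Matrix.map_mul, hx]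

theorem ColExN.up {p : C → ℕ} {e' δ : Matrix C C (MonoidAlgebra A H)} {l : ℕ}
    (h : ColExN p e' δ l) : ColExN p (e'.map (inc H)) (δ.map (inc H)) l := by
  intro y hy hey hdy
  refine rep_of_cR (F := H) (inc_on δ) fun g => ?_
  obtain ⟨y₀, hy₀⟩ := inc_pull (cR_onF (F := H) g y)
  obtain ⟨z, hz⟩ := h y₀ (fun i hi => hy i fun h0 => hi (by
      have h1 : (y₀.map (inc H)) i () = 0 := by
        rw [hy₀]
        show res _ (y i () * _) = 0
        rw [h0, zero_mul, res_zero]
      rw [Matrix.map_apply, inc_eq_zero] at h1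
      exact h1))
    (inc_inj (by rw [Matrix.map_mul, hy₀, ← cR_mul (inc_on e'), hey]))
    (inc_inj (by rw [Matrix.map_mul, hy₀, ← cR_mul (inc_on δ), hdy, cR_zero, inc_zero]))
  refine ⟨z.map (inc H), ?_⟩
  rw [← hy₀, hz, Matrix.map_mul]

theorem RowEx.up {e d : Matrix K K (MonoidAlgebra A H)} {j : ℤ} (h : RowEx deg e d j) :
    RowEx deg (e.map (inc H)) (d.map (inc H)) j := by
  intro x hx hxe hxd
  refine row_of_cL (F := H) (inc_on d) fun g => ?_
  obtain ⟨x₀, hx₀⟩ := inc_pull (cL_onF (F := H) g x)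
  obtain ⟨z, hz⟩ := h x₀ (fun i hi => hx i fun h0 => hi (by
      have h1 : (x₀.map (inc H)) () i = 0 := by
        rw [hx₀]
        show res _ (_ * x () i) = 0
        rw [h0, mul_zero, res_zero]
      rw [Matrix.map_apply, inc_eq_zero] at h1
      exact h1))
    (inc_inj (by rw [Matrix.map_mul, hx₀, ← cL_mul (inc_on e), hxe]))
    (inc_inj (by rw [Matrix.map_mul, hx₀, ← cL_mul (inc_on d), hxd, cL_zero, inc_zero]))
  refine ⟨z.map (inc H), ?_⟩
  rw [← hx₀, hz, Matrix.map_mul]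

end down

section main

variable {A : Type u} {G : Type v} [CommRing A] [Group G] {F : Subgroup G}

/-- the Auslander condition for matrices over `A[G]` supported in `F` -/
theorem aus_up (hF : ∀ H : Subgroup G, H.FG → H ≤ F → AusM (MonoidAlgebra A H))
    {K C : Type} [Fintype K] [DecidableEq K] [Fintype C] [DecidableEq C] {deg : K → ℤ}
    {e d : Matrix K K (MonoidAlgebra A G)} {i₀ : ℕ} {p : C → ℕ}
    {e' δ : Matrix C C (MonoidAlgebra A G)} {f : Matrix C K (MonoidAlgebra A G)}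
    (he : OnF F e) (hd : OnF F d) (he' : OnF F e') (hδ : OnF F δ) (hf : OnF F f)
    (h : IsCx deg e d) (hcol : ∀ j : ℤ, j < i₀ → ColEx deg e d j)
    (hrow : ∀ j : ℤ, -(i₀ : ℤ) < j → RowEx deg e d j)
    (hk : IsKill deg e d i₀ p e' δ f) (l : ℕ) (hl : l < 2 * i₀) : ColExN p e' δ l := by
  obtain ⟨H1, f1, l1, o1⟩ := exists_fg he
  obtain ⟨H2, f2, l2, o2⟩ := exists_fg hd
  obtain ⟨H3, f3, l3, o3⟩ := exists_fg he'
  obtain ⟨H4, f4, l4, o4⟩ := exists_fg hδ
  obtain ⟨H5, f5, l5, o5⟩ := exists_fg hf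
  set H := H1 ⊔ H2 ⊔ (H3 ⊔ H4 ⊔ H5) with hH
  have hfg : H.FG := fg_sup (fg_sup f1 f2) (fg_sup (fg_sup f3 f4) f5)
  have hle : H ≤ F := sup_le (sup_le l1 l2) (sup_le (sup_le l3 l4) l5)
  obtain ⟨e₀, rfl⟩ := inc_pull (OnF.mono' (F' := H) (le_sup_of_le_left le_sup_left) o1)
  obtain ⟨d₀, rfl⟩ := inc_pull (OnF.mono' (F' := H) (le_sup_of_le_left le_sup_right) o2)
  obtain ⟨e'₀, rfl⟩ := inc_pull (OnF.mono' (F' := H)
    (le_sup_of_le_right (le_sup_of_le_left le_sup_left)) o3)
  obtain ⟨δ₀, rfl⟩ := inc_pull (OnF.mono' (F' := H)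
    (le_sup_of_le_right (le_sup_of_le_left le_sup_right)) o4)
  obtain ⟨f₀, rfl⟩ := inc_pull (OnF.mono' (F' := H) (le_sup_of_le_right le_sup_right) o5)
  exact (hF H hfg hle K C deg e₀ d₀ i₀ p e'₀ δ₀ f₀ h.down (fun j hj => (hcol j hj).down)
    (fun j hj => (hrow j hj).down) hk.down l hl).up

/-- finite global dimension for matrices over `A[G]` supported in `F` -/
theorem end_up {g : ℕ} (hF : ∀ H : Subgroup G, H.FG → H ≤ F → EndM (MonoidAlgebra A H) g)
    {K : Type} [Fintype K] [DecidableEq K] {deg : K → ℤ}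
    {e d : Matrix K K (MonoidAlgebra A G)} {i₀ : ℤ} (he : OnF F e) (hd : OnF F d)
    (h : IsCx deg e d) (hcol : ∀ j : ℤ, j < i₀ → ColEx deg e d j) (j : ℤ)
    (hj : (g : ℤ) < i₀ - j) : RowEx deg e d j := by
  obtain ⟨H1, f1, l1, o1⟩ := exists_fg he
  obtain ⟨H2, f2, l2, o2⟩ := exists_fg hd
  set H := H1 ⊔ H2 with hH
  have hfg : H.FG := fg_sup f1 f2
  have hle : H ≤ F := sup_le l1 l2
  obtain ⟨e₀, rfl⟩ := inc_pull (OnF.mono' (F' := H) le_sup_left o1)
  obtain ⟨d₀, rfl⟩ := inc_pull (OnF.mono' (F' := H) le_sup_right o2)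
  exact (hF H hfg hle K deg e₀ d₀ i₀ h.down (fun j hj => (hcol j hj).down) j hj).up

/-- coherence for matrices over `A[G]` supported in `F` -/
theorem coh_up (hF : ∀ H : Subgroup G, H.FG → H ≤ F → CohT (MonoidAlgebra A H))
    {J K : Type} [Fintype J] [Fintype K] {D : Matrix J K (MonoidAlgebra A G)} (hD : OnF F D) :
    ∃ (c : ℕ) (ζ : Matrix (Fin c) J (MonoidAlgebra A G)), OnF F ζ ∧ GenL ζ D := by
  obtain ⟨H, f1, l1, o1⟩ := exists_fg hD
  obtain ⟨D₀, rfl⟩ := inc_pull o1
  obtain ⟨c, ζ, hζ⟩ := hF H f1 l1 J K D₀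
  exact ⟨c, ζ.map (inc H), OnF.mono' l1 (inc_on ζ),
    r7_genL_up H.subtype H.subtype_injective hζ⟩

end main

end Pool.Agent.UP
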