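import Mathlib
import Pool.Agent.Lib.UP.Tr
import Pool.Agent.Lib.MP_98022b_UM.DGL

/-!
# The ring-theoretic facts for forms with a differential (with labels)
-/

open MonoidAlgebra

namespace Pool.Agent.UP

open Pool.Agent.Lib.MP_98022b_UN Pool.Agent.Lib.MP_98022b_UM

universe u v w

section labels

variable {A : Type u} {Ω : Type w} {G : Type v} [CommRing A] [Group G] {E : BSys Ω G}
  {β : BarStr A G} {ε : ℤ} (X : DGF E β ε) (ω : Ω)

theorem pr_e_comm : pr A G X.t ω * X.e = X.e * pr A G X.t ω := X.pr_eS ω true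

theorem pr_d_comm : pr A G X.t ω * X.d = X.d * pr A G X.t ω := X.pr_dS ω true

theorem pr_pr : pr A G X.t ω * pr A G X.t ω = pr A G X.t ω := pr_mul_self X.t ω

theorem prE_on : OnF (E.F ω) (pr A G X.t ω * X.e) := (X.e_on.pr_mul_onF ω).onF

theorem prD_on : OnF (E.F ω) (pr A G X.t ω * X.d) := (X.d_on.pr_mul_onF ω).onF

theorem pr_mul_ne_zero {M : Matrix X.K X.K (MonoidAlgebra A G)} {i j : X.K}
    (h : (pr A G X.t ω * M) i j ≠ 0) : M i j ≠ 0 := by
  classical
  rw [pr_mul_apply] at h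
  split_ifs at h with h1
  · exact h
  · exact absurd rfl h

theorem isCx_pr : IsCx X.deg (pr A G X.t ω * X.e) (pr A G X.t ω * X.d) where
  e_deg := fun i j hij => X.e_deg i j (pr_mul_ne_zero X ω hij)
  d_deg := fun i j hij => X.d_deg i j (pr_mul_ne_zero X ω hij)
  ee := by
    rw [pr_e_comm, Matrix.mul_assoc, ← Matrix.mul_assoc (pr A G X.t ω), pr_e_comm,
      Matrix.mul_assoc, pr_pr, ← Matrix.mul_assoc, X.ee]
  ed := by
    rw [pr_e_comm, Matrix.mul_assoc, ← Matrix.mul_assoc (pr A G X.t ω), pr_pr, pr_d_comm,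
      ← Matrix.mul_assoc, X.ed]
  de := by
    rw [pr_d_comm, Matrix.mul_assoc, ← Matrix.mul_assoc (pr A G X.t ω), pr_pr, pr_e_comm,
      ← Matrix.mul_assoc, X.de]
  dd := by
    rw [pr_d_comm, Matrix.mul_assoc, ← Matrix.mul_assoc (pr A G X.t ω), pr_d_comm,
      Matrix.mul_assoc, ← Matrix.mul_assoc, ← Matrix.mul_assoc, X.dd]
    simp

variable {X}

theorem colEx_pr {j : ℤ} (h : X.Ex false (-j)) :
    ColEx X.deg (pr A G X.t ω * X.e) (pr A G X.t ω * X.d) j := by
  intro y hy hey hdy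
  have hpy : pr A G X.t ω * y = y := by
    rw [← hey, Matrix.mul_assoc (pr A G X.t ω), ← Matrix.mul_assoc, pr_pr]
  have hey' : X.e * y = y := by
    rw [pr_e_comm, Matrix.mul_assoc, hpy] at hey
    exact hey
  have hdy' : X.d * y = 0 := by
    rw [pr_d_comm, Matrix.mul_assoc, hpy] at hdy
    exact hdy
  obtain ⟨z, hz⟩ := h (adj β y) ⟨fun u k hk => by
      show -X.deg k = -j
      rw [hy k (fun h0 => hk (by
        show β.bar (y k u) = 0
        rw [show y k u = 0 from h0, bar_zero]))], by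
      show adj β y * adj β X.e = adj β y
      rw [← adj_mul, hey'], by
      show adj β y * adj β X.d = 0
      rw [← adj_mul, hdy', adj_zero]⟩
  have hz' : adj β y = z * adj β X.d := hz
  refine ⟨adj β z, ?_⟩
  have h1 : y = X.d * adj β z := by
    rw [← adj_adj (β := β) y, hz', adj_mul, adj_adj]
  rw [Matrix.mul_assoc, ← h1, hpy]

theorem rowEx_pr {j : ℤ} (h : X.Ex true j) :
    RowEx X.deg (pr A G X.t ω * X.e) (pr A G X.t ω * X.d) j := by
  intro x hx hxe hxd
  have hxp : x * pr A G X.t ω = x := by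
    rw [← hxe, Matrix.mul_assoc, Matrix.mul_assoc, ← pr_e_comm, ← Matrix.mul_assoc (pr A G X.t ω),
      pr_pr]
  have hxe' : x * X.e = x := by
    rw [← Matrix.mul_assoc, hxp] at hxe
    exact hxe
  have hxd' : x * X.d = 0 := by
    rw [← Matrix.mul_assoc, hxp] at hxd
    exact hxd
  obtain ⟨z, hz⟩ := h x ⟨fun u k hk => hx k hk, hxe', hxd'⟩
  have hz' : x = z * X.d := hz
  refine ⟨z, ?_⟩
  rw [pr_d_comm, ← Matrix.mul_assoc, ← hz', hxp]

theorem vanAt_of_rowEx {j : ℤ} (h : RowEx X.deg (pr A G X.t ω * X.e) (pr A G X.t ω * X.d) j) :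
    X.VanAt j 0 true ω := by
  classical
  rintro x ⟨hx, hxe, hxd⟩
  have hxe' : x * X.e = x := hxe
  have hxd' : x * X.d = 0 := hxd
  obtain ⟨z, hz⟩ := h (x * pr A G X.t ω) (fun k hk => by
      rw [mul_pr_apply] at hk
      split_ifs at hk with h1
      · exact hx () k hk
      · exact absurd rfl hk) (by
      rw [Matrix.mul_assoc, ← Matrix.mul_assoc (pr A G X.t ω), pr_pr, pr_e_comm,
        ← Matrix.mul_assoc, hxe']) (by
      rw [Matrix.mul_assoc, ← Matrix.mul_assoc (pr A G X.t ω), pr_pr, pr_d_comm,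
        ← Matrix.mul_assoc, hxd', Matrix.zero_mul])
  refine ⟨z * pr A G X.t ω, ?_⟩
  show x * wM X.M 0 true * pr A G X.t ω = z * pr A G X.t ω * X.d
  rw [wM_zero, Matrix.mul_one, hz, Matrix.mul_assoc]

/-- the raw data of a complex to be attached -/
theorem isKill_pr {i₀ : ℕ} {C : Type} [Fintype C] {p : C → ℕ}
    {e' δ : Matrix C C (MonoidAlgebra A G)} {f : Matrix C X.K (MonoidAlgebra A G)}
    (f_on : On0 E (fun _ => ω) X.t f)
    (e_deg : ∀ i j, e' i j ≠ 0 → p i = p j) (δ_deg : ∀ i j, δ i j ≠ 0 → p i = p j + 1)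
    (f_deg : ∀ i k, f i k ≠ 0 → X.deg k = -(i₀ : ℤ) + p i)
    (ee : e' * e' = e') (eδ : e' * δ = δ) (δe : δ * e' = δ) (δδ : δ * δ = 0) (ef : e' * f = f)
    (fe : f * X.e = f) (δf : δ * f + f * X.d = 0)
    (rowex : ∀ (l : ℕ) (u : Matrix Unit C (MonoidAlgebra A G)), (∀ i, u () i ≠ 0 → p i = l) →
      u * e' = u → u * δ = 0 → (∃ x : Matrix Unit X.K (MonoidAlgebra A G), u * f = x * X.d) →
      ∃ u' : Matrix Unit C (MonoidAlgebra A G), u = u' * δ) :
    IsKill X.deg (pr A G X.t ω * X.e) (pr A G X.t ω * X.d) i₀ p e' δ f where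
  e_deg := e_deg
  δ_deg := δ_deg
  f_deg := f_deg
  ee := ee
  eδ := eδ
  δe := δe
  δδ := δδ
  ef := ef
  fe := by rw [← Matrix.mul_assoc, f_on.mul_pr, fe]
  δf := by rw [← Matrix.mul_assoc f, f_on.mul_pr, δf]
  rowex := by
    rintro l u hu hue huδ ⟨x, hx⟩
    exact rowex l u hu hue huδ ⟨x * pr A G X.t ω, by rw [hx, Matrix.mul_assoc]⟩

/-- columns of a complex attached in degree `- i₀` are exact in the positions `< 2 i₀` -/
theorem colex_of_aus (hF : ∀ H : Subgroup G, H.FG → H ≤ E.F ω → AusM (MonoidAlgebra A H))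
    {i₀ : ℕ} (hL : X.Lev (-(i₀ : ℤ))) {C : Type} [Fintype C] [DecidableEq C] {p : C → ℕ}
    {e' δ : Matrix C C (MonoidAlgebra A G)} {f : Matrix C X.K (MonoidAlgebra A G)}
    (e_on : OnF (E.F ω) e') (δ_on : OnF (E.F ω) δ) (f_on : On0 E (fun _ => ω) X.t f)
    (hk : IsKill X.deg (pr A G X.t ω * X.e) (pr A G X.t ω * X.d) i₀ p e' δ f) (l : ℕ)
    (hl : l < 2 * i₀) : ColExN p e' δ l := by
  refine aus_up hF (prE_on X ω) (prD_on X ω) e_on δ_on f_on.onF (isCx_pr X ω) ?_ ?_ hk l hl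
  · intro j hj
    exact colEx_pr ω (hL false (-j) (by omega))
  · intro j hj
    exact rowEx_pr ω (hL true j hj)

/-- finite global dimension: the end of the induction -/
theorem end_of_fin {g : ℕ}
    (hF : ∀ ω, ∀ H : Subgroup G, H.FG → H ≤ E.F ω → EndM (MonoidAlgebra A H) g) {L : ℕ}
    (hg : g < 2 * L) (hL : X.Lev (-(L : ℤ))) (i : ℤ) : X.Ex true i := by
  by_cases hi : -(L : ℤ) < i
  · exact hL true i hi
  · intro x hx
    have h1 : ∀ ω, X.VanAt i 0 true ω := fun ω => vanAt_of_rowEx ω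
      (end_up (hF ω) (prE_on X ω) (prD_on X ω) (i₀ := (L : ℤ)) (isCx_pr X ω)
        (fun j hj => colEx_pr ω (hL false (-j) (by omega))) i (by omega))
    have h2 := DGF.van_all h1 hx
    rw [wM_zero, Matrix.mul_one] at h2
    exact h2

end labels

section coh

variable {A : Type u} {Ω : Type w} {G : Type v} [CommRing A] [Group G] {E : BSys Ω G}

/-- coherence for typed matrices -/
theorem coh_of_cohT (hF : ∀ ω, ∀ H : Subgroup G, H.FG → H ≤ E.F ω → CohT (MonoidAlgebra A H)) :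
    Coh A E := by
  classical
  intro J K _ _ s t D hD
  -- for every label which occurs, generators of the kernel of the part with this label
  have h1 : ∀ ω : Ω, ∃ (c : ℕ) (ζ : Matrix (Fin c) J (MonoidAlgebra A G)),
      OnF (E.F ω) ζ ∧ GenL ζ (pr A G s ω * D) := fun ω =>
    coh_up (hF ω) (hD.pr_mul_onF ω).onF
  choose c ζ hζ hgen using h1
  -- the index type of all generators
  let I := Σ j : J, Fin (c (s j))
  let eq : I ≃ Fin (Fintype.card I) := Fintype.equivFin I
  let Z : Matrix I J (MonoidAlgebra A G) := fun i j => (ζ (s i.1) * pr A G s (s i.1)) i.2 j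
  have hZrow : ∀ (i : I) j, Z i j = if s j = s i.1 then ζ (s i.1) i.2 j else 0 := fun i j =>
    mul_pr_apply s (s i.1) (ζ (s i.1)) i.2 j
  have hZon : On0 E (fun i : I => s i.1) s Z := by
    intro i j g hg
    rw [hZrow] at hg
    split_ifs at hg with h0
    · exact ⟨hζ (s i.1) i.2 j g hg, h0.symm⟩
    · exact absurd rfl hg
  have hZ0 : Z * D = 0 := by
    ext1 i k
    have h2 := congrFun (congrFun (hgen (s i.1)).1 i.2) k
    rw [← Matrix.mul_assoc] at h2
    rw [Matrix.mul_apply] at h2 ⊢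
    exact h2
  have hZgen : ∀ x : Matrix Unit J (MonoidAlgebra A G), x * D = 0 →
      ∃ κ : Matrix Unit I (MonoidAlgebra A G), x = κ * Z := by
    intro x hx
    have h2 : ∀ j₀ : J, ∃ κ : Matrix Unit I (MonoidAlgebra A G),
        x * pr A G s (s j₀) = κ * Z := by
      intro j₀
      obtain ⟨κ, hκ⟩ := (hgen (s j₀)).2 (x * pr A G s (s j₀)) (by
        rw [Matrix.mul_assoc, ← Matrix.mul_assoc (pr A G s (s j₀)), pr_mul_self, hD.pr_comm,
          ← Matrix.mul_assoc, hx, Matrix.zero_mul])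
      refine ⟨fun u i => if h : i.1 = j₀ then κ u (h ▸ i.2) else 0, ?_⟩
      have h3 : x * pr A G s (s j₀) = κ * (ζ (s j₀) * pr A G s (s j₀)) := by
        rw [← Matrix.mul_assoc, ← hκ, Matrix.mul_assoc, pr_mul_self]
      rw [h3]
      ext1 u j
      rw [Matrix.mul_apply, Matrix.mul_apply, Fintype.sum_sigma, Finset.sum_eq_single j₀]
      · refine Finset.sum_congr rfl fun l _ => ?_
        rw [dif_pos rfl]
      · intro j' _ hj'
        refine Finset.sum_eq_zero fun l _ => ?_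
        rw [dif_neg hj', zero_mul]
      · intro h
        exact absurd (Finset.mem_univ _) h
    have h3 : x = ∑ ω ∈ Finset.univ.image s, x * pr A G s ω := by
      rw [← Matrix.mul_sum, sum_pr, Matrix.mul_one]
    rw [h3]
    refine Finset.sum_induction _ (fun y => ∃ κ : Matrix Unit I (MonoidAlgebra A G), y = κ * Z)
      ?_ ⟨0, by rw [Matrix.zero_mul]⟩ ?_
    · rintro _ _ ⟨κ, rfl⟩ ⟨κ', rfl⟩
      exact ⟨κ + κ', by rw [Matrix.add_mul]⟩
    · intro ω hω
      obtain ⟨j₀, _, rfl⟩ := Finset.mem_image.1 hω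
      exact h2 j₀
  refine ⟨Fintype.card I, fun l => s (eq.symm l).1, Z.submatrix eq.symm id, ?_, ?_, ?_⟩
  · intro l j g hg
    exact hZon (eq.symm l) j g hg
  · ext1 l k
    have h2 := congrFun (congrFun hZ0 (eq.symm l)) k
    rw [Matrix.mul_apply] at h2 ⊢
    exact h2
  · intro x hx
    obtain ⟨κ, hκ⟩ := hZgen x hx
    refine ⟨κ.submatrix id eq.symm, ?_⟩
    rw [hκ]
    ext1 u j
    rw [Matrix.mul_apply, Matrix.mul_apply]
    exact (Equiv.sum_comp eq.symm (fun i => κ u i * Z i j)).symm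

end coh

end Pool.Agent.UP
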