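import Mathlib
import Pool.Agent.Lib.UP.TrL
import Pool.Agent.Lib.MP_98022b_UP.KillHyp
import Pool.Agent.Lib.MP_98022b_UM.Level

/-!
# The main theorem of the surgery machine from the ring-theoretic facts
-/

open MonoidAlgebra

namespace Pool.Agent.UP

open Pool.Agent.Lib.MP_98022b_UN Pool.Agent.Lib.MP_98022b_UM Pool.Agent.Lib.MP_98022b_UP

universe u v w

section pd

variable {A : Type u} {G : Type v} [CommRing A] [Group G] {F : Subgroup G}

/-- finite resolutions: from `A[H]` to `A[G]` -/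
theorem PDR.up {H : Subgroup G} (hH : H ≤ F) : ∀ (n : ℕ) {J K : Type} [Fintype J] [Fintype K]
    (D : Matrix J K (MonoidAlgebra A H)), PDR n D → PDle F n (D.map (inc H))
  | 0, J, K, _, _, D, h => by
    obtain ⟨P, hP, hf⟩ := h
    refine ⟨P.map (inc H), OnF.mono' hH (inc_on P), ?_, ?_⟩
    · rw [← Matrix.map_mul, hP]
    · exact r7_fnl_up H.subtype H.subtype_injective hf
  | n + 1, J, K, _, _, D, h => by
    obtain ⟨c, ζ, hζ, hn⟩ := h
    exact ⟨c, ζ.map (inc H), OnF.mono' hH (inc_on ζ),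
      r7_genL_up H.subtype H.subtype_injective hζ, PDR.up hH n ζ hn⟩

theorem pd_up (hF : ∀ H : Subgroup G, H.FG → H ≤ F → PDT (MonoidAlgebra A H))
    {J K : Type} [Fintype J] [Fintype K] {D : Matrix J K (MonoidAlgebra A G)} (hD : OnF F D) :
    ∃ n, PDle F n D := by
  obtain ⟨H, f1, l1, o1⟩ := exists_fg hD
  obtain ⟨D₀, rfl⟩ := inc_pull o1
  obtain ⟨n, hn⟩ := hF H f1 l1 J K D₀
  exact ⟨n, PDR.up l1 n D₀ hn⟩

end pd

section main

variable {A : Type u} {Ω : Type w} {G : Type v} [CommRing A] [Group G] {E : BSys Ω G}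
  {β : BarStr A G} {ε : ℤ}

/-- a complex attached at `ω` to the whole complex is attached to its part at `ω` -/
theorem IsKill.pr {X : DGF E β ε} {ω : Ω} {i₀ : ℕ} {C : Type} [Fintype C] {p : C → ℕ}
    {e' δ : Matrix C C (MonoidAlgebra A G)} {f : Matrix C X.K (MonoidAlgebra A G)}
    (f_on : On0 E (fun _ => ω) X.t f) (h : IsKill X.deg X.e X.d i₀ p e' δ f) :
    IsKill X.deg (pr A G X.t ω * X.e) (pr A G X.t ω * X.d) i₀ p e' δ f :=
  isKill_pr ω f_on h.e_deg h.δ_deg h.f_deg h.ee h.eδ h.δe h.δδ h.ef h.fe h.δf h.rowex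

/-- the ring-theoretic input of the surgery step -/
theorem killHyp_facts {g : ℕ}
    (h : ∀ ω, ∀ H : Subgroup G, H.FG → H ≤ E.F ω → Facts (MonoidAlgebra A H) g) (i₀ : ℕ) :
    KillHyp E β ε (-(i₀ : ℤ)) := by
  refine killHyp_of ?_ ?_ ?_
  · intro ω J K _ _ D hD
    exact coh_up (fun H h1 h2 => (h ω H h1 h2).coh) hD
  · intro ω J K _ _ D hD
    exact pd_up (fun H h1 h2 => (h ω H h1 h2).pd) hD
  · intro X hX ω C _ _ p e' δ f he hδ hf hk l hl
    exact colex_of_aus ω (fun H h1 h2 => (h ω H h1 h2).aus) hX he hδ hf (hk.pr hf) l hl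

/-- **the main theorem** for object groups all of whose finitely generated subgroups have the
ring-theoretic facts -/
theorem main_facts (hG : E.Geo) (hN : E.NoInv) (hε : ε = 1 ∨ ε = -1) {g : ℕ}
    (h : ∀ ω, ∀ H : Subgroup G, H.FG → H ≤ E.F ω → Facts (MonoidAlgebra A H) g)
    (X : BF E β ε) : X.SMetab := by
  refine dg_main hG hN hε (coh_of_cohT fun ω H h1 h2 => (h ω H h1 h2).coh) (g + 1) ?_ ?_ X
  · intro k hk
    have h' : ∀ ω, ∀ H : Subgroup G, H.FG → H ≤ E.flip.F ω → Facts (MonoidAlgebra A H) g := h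
    exact ⟨killHyp_facts h k, killHyp_facts h' k⟩
  · intro Y hY i
    exact end_of_fin (fun ω H h1 h2 => (h ω H h1 h2).fin) (by omega) hY i

end main

end Pool.Agent.UP
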