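import Mathlib
import Pool.Agent.Lib.UP.Defs4
import Pool.Agent.Lib.UP.TrFin

/-!
# TANK UP, stage 2, rows F10a, F10b, F10c: transfer from `A[H]` to `A[G]` with labels
-/

open MonoidAlgebra

namespace Pool.Agent.UP

open Pool.Agent.Lib.MP_98022b_UN Pool.Agent.Lib.MP_98022b_UM Pool.Agent.Lib.MP_98022b_UP

universe u v w

section down

variable {A : Type u} {G : Type v} [CommRing A] [Group G] {H : Subgroup G}
  {K C : Type} [Fintype K] [Fintype C] {deg : K → ℤ}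

theorem F10_cL_supp {I J : Type} {M : Matrix I J (MonoidAlgebra A G)} {g : G} {i : I} {j : J}
    (h : cL H g M i j ≠ 0) : M i j ≠ 0 := by
  intro h0
  apply h
  show res _ (_ * M i j) = 0
  rw [h0, mul_zero, res_zero]

theorem F10_cL_congr {I J : Type} {M N : Matrix I J (MonoidAlgebra A G)} {g : G} {i : I} {j : J}
    (h : M i j = N i j) : cL H g M i j = cL H g N i j := by
  show res _ (_ * M i j) = res _ (_ * N i j)
  rw [h]

theorem F10_cL_add {I J : Type} (M N : Matrix I J (MonoidAlgebra A G)) (g : G) :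
    cL H g (M + N) = cL H g M + cL H g N := by
  funext i j
  show res _ (_ * (M i j + N i j)) = res _ (_ * M i j) + res _ (_ * N i j)
  rw [mul_add, res_add]

theorem IsWhole.down {e d : Matrix K K (MonoidAlgebra A H)} {i₀ : ℕ} {p : C → ℕ}
    {f : Matrix C K (MonoidAlgebra A H)}
    (h : IsWhole deg (e.map (inc H)) (d.map (inc H)) i₀ p (f.map (inc H))) :
    IsWhole deg e d i₀ p f := by
  intro x hx hxe hxd
  obtain ⟨w, x', hw, hx'⟩ := h (x.map (inc H)) (fun k hk => hx k (inc_ne.1 hk))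
    (by rw [← Matrix.map_mul, hxe]) (by rw [← Matrix.map_mul, hxd, inc_zero])
  obtain ⟨w₀, hw₀⟩ := inc_pull (cL_onF (F := H) 1 w)
  obtain ⟨x₀, hx₀⟩ := inc_pull (cL_onF (F := H) 1 x')
  refine ⟨w₀, x₀, fun i hi => hw i ?_, inc_inj ?_⟩
  · have h1 : (w₀.map (inc H)) () i ≠ 0 := inc_ne.2 hi
    rw [hw₀] at h1
    exact F10_cL_supp h1
  · rw [Matrix.map_add _ (map_add _), Matrix.map_mul, Matrix.map_mul, hw₀, hx₀,
      ← cL_mul (inc_on f), ← cL_mul (inc_on d), ← F10_cL_add, ← hx', r7_cL_one (inc_on x)]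

/-- `H` containing the supports of five matrices -/
theorem F10_five {F : Subgroup G} {I1 J1 I2 J2 I3 J3 I4 J4 I5 J5 : Type} [Fintype I1] [Fintype J1]
    [Fintype I2] [Fintype J2] [Fintype I3] [Fintype J3] [Fintype I4] [Fintype J4] [Fintype I5]
    [Fintype J5] {M1 : Matrix I1 J1 (MonoidAlgebra A G)} {M2 : Matrix I2 J2 (MonoidAlgebra A G)}
    {M3 : Matrix I3 J3 (MonoidAlgebra A G)} {M4 : Matrix I4 J4 (MonoidAlgebra A G)}
    {M5 : Matrix I5 J5 (MonoidAlgebra A G)} (h1 : OnF F M1) (h2 : OnF F M2) (h3 : OnF F M3)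
    (h4 : OnF F M4) (h5 : OnF F M5) : ∃ H : Subgroup G, H.FG ∧ H ≤ F ∧ OnF H M1 ∧ OnF H M2 ∧
      OnF H M3 ∧ OnF H M4 ∧ OnF H M5 := by
  obtain ⟨H1, f1, l1, o1⟩ := exists_fg h1
  obtain ⟨H2, f2, l2, o2⟩ := exists_fg h2
  obtain ⟨H3, f3, l3, o3⟩ := exists_fg h3
  obtain ⟨H4, f4, l4, o4⟩ := exists_fg h4
  obtain ⟨H5, f5, l5, o5⟩ := exists_fg h5
  refine ⟨H1 ⊔ H2 ⊔ (H3 ⊔ H4 ⊔ H5), fg_sup (fg_sup f1 f2) (fg_sup (fg_sup f3 f4) f5),
    sup_le (sup_le l1 l2) (sup_le (sup_le l3 l4) l5), ?_, ?_, ?_, ?_, ?_⟩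
  · exact OnF.mono' (le_sup_of_le_left le_sup_left) o1
  · exact OnF.mono' (le_sup_of_le_left le_sup_right) o2
  · exact OnF.mono' (le_sup_of_le_right (le_sup_of_le_left le_sup_left)) o3
  · exact OnF.mono' (le_sup_of_le_right (le_sup_of_le_left le_sup_right)) o4
  · exact OnF.mono' (le_sup_of_le_right le_sup_right) o5

/-- the Auslander condition, one degree less, for matrices over `A[G]` supported in `F` -/
theorem F10_aus1_up {F : Subgroup G}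
    (hF : ∀ H : Subgroup G, H.FG → H ≤ F → AusM1 (MonoidAlgebra A H))
    [DecidableEq K] [DecidableEq C]
    {e d : Matrix K K (MonoidAlgebra A G)} {i₀ : ℕ} {p : C → ℕ}
    {e' δ : Matrix C C (MonoidAlgebra A G)} {f : Matrix C K (MonoidAlgebra A G)}
    (he : OnF F e) (hd : OnF F d) (he' : OnF F e') (hδ : OnF F δ) (hf : OnF F f)
    (h : IsCx deg e d) (hcol : ∀ j : ℤ, j < i₀ → ColEx deg e d j)
    (hrow : ∀ j : ℤ, -(i₀ : ℤ) < j → RowEx deg e d j)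
    (hk : IsKill deg e d i₀ p e' δ f) (l : ℕ) (hl : l + 1 < 2 * i₀) : ColExN p e' δ l := by
  obtain ⟨H, hfg, hle, o1, o2, o3, o4, o5⟩ := F10_five he hd he' hδ hf
  obtain ⟨e₀, rfl⟩ := inc_pull o1
  obtain ⟨d₀, rfl⟩ := inc_pull o2
  obtain ⟨e'₀, rfl⟩ := inc_pull o3
  obtain ⟨δ₀, rfl⟩ := inc_pull o4
  obtain ⟨f₀, rfl⟩ := inc_pull o5
  exact (hF H hfg hle K C deg e₀ d₀ i₀ p e'₀ δ₀ f₀ h.down (fun j hj => (hcol j hj).down)
    (fun j hj => (hrow j hj).down) hk.down l hl).up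

/-- the Auslander condition for the whole homology, for matrices over `A[G]` supported in `F` -/
theorem F10_ausW_up {F : Subgroup G}
    (hF : ∀ H : Subgroup G, H.FG → H ≤ F → AusW (MonoidAlgebra A H))
    [DecidableEq K] [DecidableEq C]
    {e d : Matrix K K (MonoidAlgebra A G)} {i₀ : ℕ} {p : C → ℕ}
    {e' δ : Matrix C C (MonoidAlgebra A G)} {f : Matrix C K (MonoidAlgebra A G)}
    (he : OnF F e) (hd : OnF F d) (he' : OnF F e') (hδ : OnF F δ) (hf : OnF F f)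
    (h : IsCx deg e d) (hcol : ∀ j : ℤ, j < i₀ → ColEx deg e d j)
    (hrow : ∀ j : ℤ, -(i₀ : ℤ) < j → RowEx deg e d j)
    (hk : IsKill deg e d i₀ p e' δ f) (hw : IsWhole deg e d i₀ p f) (l : ℕ)
    (hl : l < 2 * i₀) : ColExN p e' δ l := by
  obtain ⟨H, hfg, hle, o1, o2, o3, o4, o5⟩ := F10_five he hd he' hδ hf
  obtain ⟨e₀, rfl⟩ := inc_pull o1
  obtain ⟨d₀, rfl⟩ := inc_pull o2
  obtain ⟨e'₀, rfl⟩ := inc_pull o3
  obtain ⟨δ₀, rfl⟩ := inc_pull o4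
  obtain ⟨f₀, rfl⟩ := inc_pull o5
  exact (hF H hfg hle K C deg e₀ d₀ i₀ p e'₀ δ₀ f₀ h.down (fun j hj => (hcol j hj).down)
    (fun j hj => (hrow j hj).down) hk.down hw.down l hl).up

/-- functionals for matrices over `A[G]` supported in `F` -/
theorem F10_fun_up {F : Subgroup G}
    (hF : ∀ H : Subgroup G, H.FG → H ≤ F → FunM (MonoidAlgebra A H))
    [DecidableEq K] [DecidableEq C]
    {e d : Matrix K K (MonoidAlgebra A G)} {i₀ : ℕ} {p : C → ℕ}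
    {e' δ : Matrix C C (MonoidAlgebra A G)} {f : Matrix C K (MonoidAlgebra A G)}
    (he : OnF F e) (hd : OnF F d) (he' : OnF F e') (hδ : OnF F δ) (hf : OnF F f)
    (h : IsCx deg e d) (hcol : ∀ j : ℤ, j < i₀ → ColEx deg e d j)
    (hrow : ∀ j : ℤ, -(i₀ : ℤ) < j → RowEx deg e d j)
    (hk : IsKill deg e d i₀ p e' δ f) {q : ℕ} (hq : q + 1 = 2 * i₀)
    (y : Matrix C Unit (MonoidAlgebra A G)) (y_on : OnF F y)
    (hy : ∀ i, y i () ≠ 0 → p i = q) (hey : e' * y = y) (hdy : δ * y = 0) :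
    ∃ (Q : Type) (_ : Fintype Q) (_ : DecidableEq Q) (π : Q → ℕ)
      (Y : Matrix Q Q (MonoidAlgebra A G)) (Z : Matrix C Q (MonoidAlgebra A G)),
      OnF F Y ∧ OnF F Z ∧
      (∀ a b, Y a b ≠ 0 → π a = π b + 1) ∧ (∀ a, π a ≤ q) ∧ (∀ i b, Z i b ≠ 0 → p i = π b) ∧
      Y * Y = 0 ∧
      (∀ (l : ℕ) (v : Matrix Unit Q (MonoidAlgebra A G)), (∀ b, v () b ≠ 0 → π b = l + 1) →
        v * Y = 0 → ∃ v' : Matrix Unit Q (MonoidAlgebra A G), v = v' * Y) ∧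
      e' * Z = Z ∧ δ * Z = Z * Y ∧
      ((∃ H : Matrix C Q (MonoidAlgebra A G), ∀ i, p i = 0 → ∀ b, Z i b = (H * Y) i b) →
        ∃ z : Matrix C Unit (MonoidAlgebra A G), y = δ * z) := by
  obtain ⟨H₀, hfg₀, hle₀, o1', o2', o3', o4', o5'⟩ := F10_five he hd he' hδ hf
  obtain ⟨H₁, hfg₁, hle₁, o6'⟩ := exists_fg y_on
  obtain ⟨H, hfg, hle, o1, o2, o3, o4, o5, o6⟩ : ∃ H : Subgroup G, H.FG ∧ H ≤ F ∧ OnF H e ∧
      OnF H d ∧ OnF H e' ∧ OnF H δ ∧ OnF H f ∧ OnF H y :=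
    ⟨H₀ ⊔ H₁, fg_sup hfg₀ hfg₁, sup_le hle₀ hle₁, OnF.mono' le_sup_left o1',
      OnF.mono' le_sup_left o2', OnF.mono' le_sup_left o3', OnF.mono' le_sup_left o4',
      OnF.mono' le_sup_left o5', OnF.mono' le_sup_right o6'⟩
  obtain ⟨e₀, rfl⟩ := inc_pull o1
  obtain ⟨d₀, rfl⟩ := inc_pull o2
  obtain ⟨e'₀, rfl⟩ := inc_pull o3
  obtain ⟨δ₀, rfl⟩ := inc_pull o4
  obtain ⟨f₀, rfl⟩ := inc_pull o5
  obtain ⟨y₀, rfl⟩ := inc_pull o6
  obtain ⟨Q, iQ, dQ, π, Y, Z, h1, h2, h3, h4, h5, h6, h7, h8⟩ :=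
    hF H hfg hle K C deg e₀ d₀ i₀ p e'₀ δ₀ f₀ h.down (fun j hj => (hcol j hj).down)
      (fun j hj => (hrow j hj).down) hk.down q hq y₀ (fun i hi => hy i (inc_ne.2 hi))
      (inc_inj (by rw [Matrix.map_mul]; exact hey))
      (inc_inj (by rw [Matrix.map_mul, inc_zero]; exact hdy))
  refine ⟨Q, iQ, dQ, π, Y.map (inc H), Z.map (inc H), OnF.mono' hle (inc_on Y),
    OnF.mono' hle (inc_on Z), fun a b hab => h1 a b (inc_ne.1 hab), h2,
    fun i b hib => h3 i b (inc_ne.1 hib), ?_, ?_, ?_, ?_, ?_⟩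
  · rw [← Matrix.map_mul, h4, inc_zero]
  · intro l v hv hvY
    refine row_of_cL (F := H) (inc_on Y) fun g => ?_
    obtain ⟨v₀, hv₀⟩ := inc_pull (cL_onF (F := H) g v)
    obtain ⟨z, hz⟩ := h5 l v₀ (fun b hb => hv b (by
        have h9 : (v₀.map (inc H)) () b ≠ 0 := inc_ne.2 hb
        rw [hv₀] at h9
        exact F10_cL_supp h9))
      (inc_inj (by rw [Matrix.map_mul, hv₀, ← cL_mul (inc_on Y), hvY, cL_zero, inc_zero]))
    refine ⟨z.map (inc H), ?_⟩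
    rw [← hv₀, hz, Matrix.map_mul]
  · rw [← Matrix.map_mul, h6]
  · rw [← Matrix.map_mul, ← Matrix.map_mul, h7]
  · rintro ⟨H', hH'⟩
    obtain ⟨H'₀, hH'₀⟩ := inc_pull (cL_onF (F := H) 1 H')
    obtain ⟨z, hz⟩ := h8 ⟨H'₀, fun i hi b => by
      apply r7f_inj H.subtype H.subtype_injective
      have h9 : (Z.map (inc H)) i b = ((H'₀ * Y).map (inc H)) i b := by
        rw [Matrix.map_mul, hH'₀, ← cL_mul (inc_on Y), ← r7_cL_one (inc_on Z)]
        refine F10_cL_congr ?_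
        rw [← hH' i hi b]
      exact h9⟩
    refine ⟨z.map (inc H), ?_⟩
    rw [hz, Matrix.map_mul]

end down

section labels

variable {A : Type u} {Ω : Type w} {G : Type v} [CommRing A] [Group G] {E : BSys Ω G}
  {β : BarStr A G} {ε : ℤ}

theorem F10_isCx (X : DGF E β ε) (b : Bool) (ω : Ω) :
    IsCx (X.degS b) (pr A G X.t ω * X.eS b) (pr A G X.t ω * X.dS b) where
  e_deg := fun i j hij => X.eS_deg b i j (pr_mul_ne_zero X ω hij)
  d_deg := fun i j hij => X.dS_deg b i j (pr_mul_ne_zero X ω hij)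
  ee := by
    rw [X.pr_eS, Matrix.mul_assoc, ← Matrix.mul_assoc (pr A G X.t ω), X.pr_eS,
      Matrix.mul_assoc, pr_pr, ← Matrix.mul_assoc, X.ee_S]
  ed := by
    rw [X.pr_eS, Matrix.mul_assoc, ← Matrix.mul_assoc (pr A G X.t ω), pr_pr, X.pr_dS,
      ← Matrix.mul_assoc, X.ed_S]
  de := by
    rw [X.pr_dS, Matrix.mul_assoc, ← Matrix.mul_assoc (pr A G X.t ω), pr_pr, X.pr_eS,
      ← Matrix.mul_assoc, X.de_S]
  dd := by
    rw [X.pr_dS, Matrix.mul_assoc, ← Matrix.mul_assoc (pr A G X.t ω), X.pr_dS,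
      Matrix.mul_assoc, ← Matrix.mul_assoc, ← Matrix.mul_assoc, X.dd_S]
    simp

theorem F10_adj_eS (X : DGF E β ε) (b : Bool) : adj β (X.eS b) = X.eS (!b) := by
  cases b
  · exact adj_adj β X.e
  · rfl

theorem F10_adj_dS (X : DGF E β ε) (b : Bool) : adj β (X.dS b) = X.dS (!b) := by
  cases b
  · exact adj_adj β X.d
  · rfl

theorem F10_degS_not (X : DGF E β ε) (b : Bool) (k : X.K) : X.degS (!b) k = - X.degS b k := by
  cases b
  · show X.deg k = - - X.deg k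
    rw [neg_neg]
  · rfl

theorem F10_colEx {X : DGF E β ε} {b : Bool} (ω : Ω) {j : ℤ} (h : X.Ex (!b) (-j)) :
    ColEx (X.degS b) (pr A G X.t ω * X.eS b) (pr A G X.t ω * X.dS b) j := by
  intro y hy hey hdy
  have hpy : pr A G X.t ω * y = y := by
    rw [← hey, Matrix.mul_assoc (pr A G X.t ω), ← Matrix.mul_assoc, pr_pr]
  have hey' : X.eS b * y = y := by
    rw [X.pr_eS, Matrix.mul_assoc, hpy] at hey
    exact hey
  have hdy' : X.dS b * y = 0 := by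
    rw [X.pr_dS, Matrix.mul_assoc, hpy] at hdy
    exact hdy
  obtain ⟨z, hz⟩ := h (adj β y) ⟨fun u k hk => by
      rw [F10_degS_not, hy k (fun h0 => hk (by
        show β.bar (y k u) = 0
        rw [show y k u = 0 from h0, bar_zero]))], by
      rw [← F10_adj_eS, ← adj_mul, hey'], by
      rw [← F10_adj_dS, ← adj_mul, hdy', adj_zero]⟩
  refine ⟨adj β z, ?_⟩
  have h1 : y = X.dS b * adj β z := by
    rw [← adj_adj (β := β) y, hz, ← F10_adj_dS, adj_mul, adj_adj]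
  rw [Matrix.mul_assoc, ← h1, hpy]

theorem F10_rowEx {X : DGF E β ε} {b : Bool} (ω : Ω) {j : ℤ} (h : X.Ex b j) :
    RowEx (X.degS b) (pr A G X.t ω * X.eS b) (pr A G X.t ω * X.dS b) j := by
  intro x hx hxe hxd
  have hxp : x * pr A G X.t ω = x := by
    rw [← hxe, Matrix.mul_assoc, Matrix.mul_assoc, ← X.pr_eS, ← Matrix.mul_assoc (pr A G X.t ω),
      pr_pr]
  have hxe' : x * X.eS b = x := by
    rw [← Matrix.mul_assoc, hxp] at hxe
    exact hxe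
  have hxd' : x * X.dS b = 0 := by
    rw [← Matrix.mul_assoc, hxp] at hxd
    exact hxd
  obtain ⟨z, hz⟩ := h x ⟨fun u k hk => hx k hk, hxe', hxd'⟩
  refine ⟨z, ?_⟩
  rw [X.pr_dS, ← Matrix.mul_assoc, ← hz, hxp]

theorem F10_eS_on (X : DGF E β ε) (b : Bool) (ω : Ω) : OnF (E.F ω) (pr A G X.t ω * X.eS b) :=
  ((X.eS_on b).pr_mul_onF ω).onF

theorem F10_dS_on (X : DGF E β ε) (b : Bool) (ω : Ω) : OnF (E.F ω) (pr A G X.t ω * X.dS b) :=
  ((X.dS_on b).pr_mul_onF ω).onF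

/-- F10a: AusM1 over `A[G]` -/
theorem colex1_of_aus {X : DGF E β ε} (ω : Ω)
    (hF : ∀ H : Subgroup G, H.FG → H ≤ E.F ω → AusM1 (MonoidAlgebra A H)) {i₀ : ℕ}
    (hL : X.Lev (-(i₀ : ℤ))) {C : Type} [Fintype C] [DecidableEq C] {p : C → ℕ}
    {e' δ : Matrix C C (MonoidAlgebra A G)} {f : Matrix C X.K (MonoidAlgebra A G)}
    (e_on : OnF (E.F ω) e') (δ_on : OnF (E.F ω) δ) (f_on : On0 E (fun _ => ω) X.t f)
    (hk : IsKill X.deg (pr A G X.t ω * X.e) (pr A G X.t ω * X.d) i₀ p e' δ f) (l : ℕ)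
    (hl : l + 1 < 2 * i₀) : ColExN p e' δ l :=
  F10_aus1_up hF (prE_on X ω) (prD_on X ω) e_on δ_on f_on.onF (isCx_pr X ω)
    (fun j hj => colEx_pr ω (hL false (-j) (by omega))) (fun j hj => rowEx_pr ω (hL true j hj))
    hk l hl

/-- F10b: the whole homology of side `b` with label `s` -/
theorem colexW_of_aus {X : DGF E β ε} (b : Bool) (s : Ω)
    (hF : ∀ H : Subgroup G, H.FG → H ≤ E.F s → AusW (MonoidAlgebra A H)) {i₀ : ℕ}
    (hL : X.Lev (-(i₀ : ℤ))) {C : Type} [Fintype C] [DecidableEq C] {p : C → ℕ}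
    {e' δ : Matrix C C (MonoidAlgebra A G)} {f : Matrix C X.K (MonoidAlgebra A G)}
    (e_on : OnF (E.F s) e') (δ_on : OnF (E.F s) δ) (f_on : On0 E (fun _ => s) X.t f)
    (hk : IsKill (X.degS b) (pr A G X.t s * X.eS b) (pr A G X.t s * X.dS b) i₀ p e' δ f)
    (hw : IsWhole (X.degS b) (pr A G X.t s * X.eS b) (pr A G X.t s * X.dS b) i₀ p f) (l : ℕ)
    (hl : l < 2 * i₀) : ColExN p e' δ l :=
  F10_ausW_up hF (F10_eS_on X b s) (F10_dS_on X b s) e_on δ_on f_on.onF (F10_isCx X b s)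
    (fun j hj => F10_colEx s (hL (!b) (-j) (by omega))) (fun j hj => F10_rowEx s (hL b j hj))
    hk hw l hl

/-- F10c: functionals over `A[G]` -/
theorem fun_of_aus {X : DGF E β ε} (ω : Ω)
    (hF : ∀ H : Subgroup G, H.FG → H ≤ E.F ω → FunM (MonoidAlgebra A H)) {i₀ : ℕ}
    (hL : X.Lev (-(i₀ : ℤ))) {C : Type} [Fintype C] [DecidableEq C] {p : C → ℕ}
    {e' δ : Matrix C C (MonoidAlgebra A G)} {f : Matrix C X.K (MonoidAlgebra A G)}
    (e_on : OnF (E.F ω) e') (δ_on : OnF (E.F ω) δ) (f_on : On0 E (fun _ => ω) X.t f)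
    (hk : IsKill X.deg (pr A G X.t ω * X.e) (pr A G X.t ω * X.d) i₀ p e' δ f) {q : ℕ}
    (hq : q + 1 = 2 * i₀) (y : Matrix C Unit (MonoidAlgebra A G)) (y_on : OnF (E.F ω) y)
    (hy : ∀ i, y i () ≠ 0 → p i = q) (hey : e' * y = y) (hdy : δ * y = 0) :
    ∃ (Q : Type) (_ : Fintype Q) (_ : DecidableEq Q) (π : Q → ℕ)
      (Y : Matrix Q Q (MonoidAlgebra A G)) (Z : Matrix C Q (MonoidAlgebra A G)),
      OnF (E.F ω) Y ∧ OnF (E.F ω) Z ∧
      (∀ a b, Y a b ≠ 0 → π a = π b + 1) ∧ (∀ a, π a ≤ q) ∧ (∀ i b, Z i b ≠ 0 → p i = π b) ∧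
      Y * Y = 0 ∧
      (∀ (l : ℕ) (v : Matrix Unit Q (MonoidAlgebra A G)), (∀ b, v () b ≠ 0 → π b = l + 1) →
        v * Y = 0 → ∃ v' : Matrix Unit Q (MonoidAlgebra A G), v = v' * Y) ∧
      e' * Z = Z ∧ δ * Z = Z * Y ∧
      ((∃ H : Matrix C Q (MonoidAlgebra A G), ∀ i, p i = 0 → ∀ b, Z i b = (H * Y) i b) →
        ∃ z : Matrix C Unit (MonoidAlgebra A G), y = δ * z) :=
  F10_fun_up hF (prE_on X ω) (prD_on X ω) e_on δ_on f_on.onF (isCx_pr X ω)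
    (fun j hj => colEx_pr ω (hL false (-j) (by omega))) (fun j hj => rowEx_pr ω (hL true j hj))
    hk hq y y_on hy hey hdy

end labels

end Pool.Agent.UP
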