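import Mathlib
import Pool.Agent.Lib.UP.Defs4
import Pool.Agent.Lib.UP.TrFin
import Pool.Agent.Lib.UP.F10abc

/-! TANK UP, stage 2, row F10d: functionals on the whole homology vanish. -/

set_option autoImplicit false

open MonoidAlgebra

namespace Pool.Agent.UP

open Pool.Agent.Lib.MP_98022b_UN Pool.Agent.Lib.MP_98022b_UM Pool.Agent.Lib.MP_98022b_UP

universe u v w

section core

variable {S : Type u} [Ring S]

theorem F10d_ne {I J K : Type} [Fintype J] {M : Matrix I J S} {N : Matrix J K S} {i : I} {k : K}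
    (h : (M * N) i k ≠ 0) : ∃ j, M i j ≠ 0 ∧ N j k ≠ 0 := by
  by_contra hn
  push Not at hn
  apply h
  rw [Matrix.mul_apply]
  refine Finset.sum_eq_zero fun j _ => ?_
  by_cases hj : M i j = 0
  · rw [hj, zero_mul]
  · rw [hn j hj, mul_zero]

open Classical in
/-- the projector on the indices of position `k` -/
noncomputable def F10d_P (S : Type u) [Ring S] {C : Type} [DecidableEq C] (p : C → ℕ) (k : ℕ) :
    Matrix C C S := Matrix.diagonal fun i => if p i = k then 1 else 0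

theorem F10d_P_mul {C L : Type} [Fintype C] [DecidableEq C] (p : C → ℕ) (k : ℕ)
    (M : Matrix C L S) (i : C) (a : L) :
    (F10d_P S p k * M) i a = if p i = k then M i a else 0 := by
  rw [F10d_P, Matrix.diagonal_mul]
  split_ifs
  · rw [one_mul]
  · rw [zero_mul]

theorem F10d_mul_P {C L : Type} [Fintype C] [DecidableEq C] (p : C → ℕ) (k : ℕ)
    (M : Matrix L C S) (i : L) (a : C) :
    (M * F10d_P S p k) i a = if p a = k then M i a else 0 := by
  rw [F10d_P, Matrix.mul_diagonal]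
  split_ifs
  · rw [mul_one]
  · rw [mul_zero]

theorem F10d_P_e {C : Type} [Fintype C] [DecidableEq C] {p : C → ℕ} {e : Matrix C C S}
    (h : ∀ i j, e i j ≠ 0 → p i = p j) (k : ℕ) : F10d_P S p k * e = e * F10d_P S p k := by
  ext1 i j
  rw [F10d_P_mul, F10d_mul_P]
  by_cases h0 : e i j = 0
  · rw [h0]
    split_ifs <;> rfl
  · rw [h i j h0]

theorem F10d_P_d {C : Type} [Fintype C] [DecidableEq C] {p : C → ℕ} {δ : Matrix C C S}
    (h : ∀ i j, δ i j ≠ 0 → p i = p j + 1) (k : ℕ) :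
    F10d_P S p (k + 1) * δ = δ * F10d_P S p k := by
  ext1 i j
  rw [F10d_P_mul, F10d_mul_P]
  by_cases h0 : δ i j = 0
  · rw [h0]
    split_ifs <;> rfl
  · rw [h i j h0]
    by_cases h1 : p j = k
    · rw [if_pos h1, if_pos (by omega)]
    · rw [if_neg h1, if_neg (by omega)]

/-- columns -/
theorem F10d_cols {C Q : Type} [Fintype C] {p : C → ℕ} {e' δ : Matrix C C S} {l : ℕ}
    (h : ColExN p e' δ l) {M : Matrix C Q S} (hM : ∀ i a, M i a ≠ 0 → p i = l)
    (heM : e' * M = M) (hδM : δ * M = 0) : ∃ J : Matrix C Q S, M = δ * J := by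
  have h1 : ∀ a : Q, ∃ z : Matrix C Unit S, (fun i _ => M i a : Matrix C Unit S) = δ * z := by
    intro a
    refine h _ (fun i hi => hM i a hi) ?_ ?_
    · ext1 i u
      have h2 : (e' * M) i a = M i a := by rw [heM]
      exact h2
    · ext1 i u
      have h2 : (δ * M) i a = (0 : Matrix C Q S) i a := by rw [hδM]
      exact h2
  choose z hz using h1
  refine ⟨fun i a => z a i (), ?_⟩
  ext1 i a
  exact congrFun (congrFun (hz a) i) ()

/-- rows -/
theorem F10d_rows {Q L : Type} [Fintype Q] {π : Q → ℕ} {Y : Matrix Q Q S}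
    (hYex : ∀ (l : ℕ) (v : Matrix Unit Q S), (∀ b, v () b ≠ 0 → π b = l + 1) → v * Y = 0 →
      ∃ v' : Matrix Unit Q S, v = v' * Y) {l : ℕ} {M : Matrix L Q S}
    (hM : ∀ i a, M i a ≠ 0 → π a = l + 1) (hMY : M * Y = 0) : ∃ J : Matrix L Q S, M = J * Y := by
  have h1 : ∀ i : L, ∃ v' : Matrix Unit Q S, (fun _ a => M i a : Matrix Unit Q S) = v' * Y := by
    intro i
    refine hYex l _ (fun b hb => hM i b hb) ?_
    ext1 u b
    have h2 : (M * Y) i b = (0 : Matrix L Q S) i b := by rw [hMY]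
    exact h2
  choose v hv using h1
  refine ⟨fun i a => v i () a, ?_⟩
  ext1 i a
  exact congrFun (congrFun (hv i) ()) a

/-- the contraction -/
theorem F10d_contr {C Q : Type} [Fintype C] [DecidableEq C] [Fintype Q] [DecidableEq Q]
    {p : C → ℕ} {e' δ : Matrix C C S} (e_deg : ∀ i j, e' i j ≠ 0 → p i = p j)
    (δ_deg : ∀ i j, δ i j ≠ 0 → p i = p j + 1) (ee : e' * e' = e') (eδ : e' * δ = δ)
    (δe : δ * e' = δ) (δδ : δ * δ = 0) {π : Q → ℕ} {Y : Matrix Q Q S} {q : ℕ}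
    (hY : ∀ a b, Y a b ≠ 0 → π a = π b + 1) (hπ : ∀ a, π a ≤ q) (hYY : Y * Y = 0)
    (hYex : ∀ (l : ℕ) (v : Matrix Unit Q S), (∀ b, v () b ≠ 0 → π b = l + 1) → v * Y = 0 →
      ∃ v' : Matrix Unit Q S, v = v' * Y)
    (hcol : ∀ l ≤ q, ColExN p e' δ l) : ∀ (m k : ℕ), k + m = q + 1 → ∀ N : Matrix C Q S,
      (∀ i a, N i a ≠ 0 → p i = k ∧ π a = k) → e' * N = N →
      (∃ N' : Matrix C Q S, δ * N = N' * Y) → ∃ J H : Matrix C Q S, N = δ * J + H * Y := by
  intro m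
  induction m with
  | zero =>
    intro k hk N hN _ _
    refine ⟨0, 0, ?_⟩
    ext1 i a
    rw [Matrix.mul_zero, Matrix.zero_mul, add_zero]
    by_contra h0
    have h1 := (hN i a h0).2
    have h2 := hπ a
    omega
  | succ m ih =>
    rintro k hk N hN heN ⟨N₀, hN₀⟩
    have hPN : F10d_P S p k * N = N := by
      ext1 i a
      rw [F10d_P_mul]
      split_ifs with h1
      · rfl
      · by_contra h2
        exact h1 (hN i a (Ne.symm h2)).1
    have hNP : N * F10d_P S π k = N := by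
      ext1 i a
      rw [F10d_mul_P]
      split_ifs with h1
      · rfl
      · by_contra h2
        exact h1 (hN i a (Ne.symm h2)).2
    set N' : Matrix C Q S := e' * F10d_P S p (k + 1) * N₀ * F10d_P S π (k + 1) with hN'
    have hN'Y : N' * Y = δ * N := by
      calc N' * Y = e' * F10d_P S p (k + 1) * N₀ * (F10d_P S π (k + 1) * Y) := by
            rw [hN', Matrix.mul_assoc]
        _ = e' * F10d_P S p (k + 1) * (N₀ * Y) * F10d_P S π k := by
            rw [F10d_P_d hY]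
            simp only [Matrix.mul_assoc]
        _ = e' * (F10d_P S p (k + 1) * δ) * N * F10d_P S π k := by
            rw [← hN₀]
            simp only [Matrix.mul_assoc]
        _ = δ * (F10d_P S p k * (N * F10d_P S π k)) := by
            rw [F10d_P_d δ_deg, ← Matrix.mul_assoc e', eδ]
            simp only [Matrix.mul_assoc]
        _ = δ * N := by rw [hNP, hPN]
    have hN'deg : ∀ i a, N' i a ≠ 0 → p i = k + 1 ∧ π a = k + 1 := by
      intro i a hia
      rw [hN', F10d_mul_P] at hia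
      split_ifs at hia with h1
      · refine ⟨?_, h1⟩
        rw [← F10d_P_e e_deg, Matrix.mul_assoc, F10d_P_mul] at hia
        split_ifs at hia with h2
        · exact h2
        · exact absurd rfl hia
      · exact absurd rfl hia
    have heN' : e' * N' = N' := by
      rw [hN']
      simp only [← Matrix.mul_assoc]
      rw [ee]
    have hδN' : ∃ N'' : Matrix C Q S, δ * N' = N'' * Y := by
      refine F10d_rows hYex (l := k) ?_ ?_
      · intro i a hia
        obtain ⟨j, -, hj⟩ := F10d_ne hia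
        exact (hN'deg j a hj).2
      · rw [Matrix.mul_assoc, hN'Y, ← Matrix.mul_assoc, δδ, Matrix.zero_mul]
    obtain ⟨J₁, H₁, hJH⟩ := ih (k + 1) (by omega) N' hN'deg heN' hδN'
    set J : Matrix C Q S := e' * (F10d_P S p k * J₁) with hJ
    have hδJ : δ * J = N' - F10d_P S p (k + 1) * H₁ * Y := by
      have h1 : F10d_P S p (k + 1) * N' = N' := by
        ext1 i a
        rw [F10d_P_mul]
        split_ifs with h1
        · rfl
        · by_contra h2
          exact h1 (hN'deg i a (Ne.symm h2)).1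
      rw [hJ, ← Matrix.mul_assoc, δe, ← Matrix.mul_assoc, ← F10d_P_d δ_deg, Matrix.mul_assoc,
        show δ * J₁ = N' - H₁ * Y by rw [hJH]; abel, Matrix.mul_sub, h1, Matrix.mul_assoc]
    have hfin : ∃ J₂ : Matrix C Q S, N - J * Y = δ * J₂ := by
      refine F10d_cols (hcol k (by omega)) ?_ ?_ ?_
      · intro i a hia
        by_contra h2
        apply hia
        rw [Matrix.sub_apply]
        have h3 : N i a = 0 := by
          by_contra h4
          exact h2 (hN i a h4).1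
        have h5 : (J * Y) i a = 0 := by
          rw [hJ, ← Matrix.mul_assoc e', ← F10d_P_e e_deg, Matrix.mul_assoc, Matrix.mul_assoc,
            F10d_P_mul, if_neg h2]
        rw [h3, h5, sub_zero]
      · rw [Matrix.mul_sub, heN, hJ]
        simp only [← Matrix.mul_assoc]
        rw [ee]
      · rw [Matrix.mul_sub, ← hN'Y, ← Matrix.mul_assoc, hδJ, Matrix.sub_mul, Matrix.mul_assoc _ Y Y,
          hYY, Matrix.mul_zero, sub_zero, sub_self]
    obtain ⟨J₂, hJ₂⟩ := hfin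
    exact ⟨J₂, J, by rw [← hJ₂]; abel⟩

/-- the bottom -/
theorem F10d_bottom {C Q : Type} [Fintype C] [DecidableEq C] [Fintype Q] [DecidableEq Q]
    {p : C → ℕ} {e' δ : Matrix C C S} (e_deg : ∀ i j, e' i j ≠ 0 → p i = p j)
    (δ_deg : ∀ i j, δ i j ≠ 0 → p i = p j + 1) (ee : e' * e' = e') (eδ : e' * δ = δ)
    (δe : δ * e' = δ) (δδ : δ * δ = 0) {π : Q → ℕ} {Y : Matrix Q Q S} {q : ℕ}
    (hY : ∀ a b, Y a b ≠ 0 → π a = π b + 1) (hπ : ∀ a, π a ≤ q) (hYY : Y * Y = 0)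
    (hYex : ∀ (l : ℕ) (v : Matrix Unit Q S), (∀ b, v () b ≠ 0 → π b = l + 1) → v * Y = 0 →
      ∃ v' : Matrix Unit Q S, v = v' * Y)
    (hcol : ∀ l ≤ q, ColExN p e' δ l) (N : Matrix C Q S)
    (hN : ∀ i a, N i a ≠ 0 → p i = 0 ∧ π a = 0) (heN : e' * N = N)
    (hN' : ∃ N' : Matrix C Q S, δ * N = N' * Y) : ∃ H : Matrix C Q S, N = H * Y := by
  obtain ⟨J, H, hJH⟩ := F10d_contr e_deg δ_deg ee eδ δe δδ hY hπ hYY hYex hcol (q + 1) 0 (by omega)
    N hN heN hN'
  refine ⟨F10d_P S p 0 * H, ?_⟩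
  have h1 : F10d_P S p 0 * N = N := by
    ext1 i a
    rw [F10d_P_mul]
    split_ifs with h1
    · rfl
    · by_contra h2
      exact h1 (hN i a (Ne.symm h2)).1
  have h2 : F10d_P S p 0 * δ = 0 := by
    ext1 i j
    rw [F10d_P_mul]
    split_ifs with h1
    · by_contra h3
      have h4 := δ_deg i j h3
      omega
    · rfl
  rw [← h1, hJH, Matrix.mul_add, ← Matrix.mul_assoc, h2, Matrix.zero_mul, zero_add,
    Matrix.mul_assoc]

end core

section labels

variable {A : Type u} {Ω : Type w} {G : Type v} [CommRing A] [Group G] {E : BSys Ω G}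
  {β : BarStr A G} {ε : ℤ}

/-- `exists_preK` for both sides -/
theorem F10d_preS (X : DGF E β ε) (b : Bool) {i₀ : ℕ} {ω : Ω}
    (hc : ∀ H : Subgroup G, H.FG → H ≤ E.F ω → CohT (MonoidAlgebra A H))
    (hpd : ∀ H : Subgroup G, H.FG → H ≤ E.F ω → PDT (MonoidAlgebra A H))
    (hL : X.Lev (-(i₀ : ℤ))) {r : Type} [Fintype r] {V : Matrix r X.K (MonoidAlgebra A G)}
    (hV : On0 E (fun _ => ω) X.t V) (hcyc : X.Cyc b (-(i₀ : ℤ)) V) :
    ∃ (C : Type) (_ : Fintype C) (_ : DecidableEq C) (p : C → ℕ)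
      (e' δ : Matrix C C (MonoidAlgebra A G)) (f : Matrix C X.K (MonoidAlgebra A G)),
      OnF (E.F ω) e' ∧ OnF (E.F ω) δ ∧ On0 E (fun _ => ω) X.t f ∧
      IsKill (X.degS b) (Pool.Agent.Lib.MP_98022b_UM.pr A G X.t ω * X.eS b)
        (Pool.Agent.Lib.MP_98022b_UM.pr A G X.t ω * X.dS b) i₀ p e' δ f ∧
      (∃ (U : Matrix C r (MonoidAlgebra A G)) (Y : Matrix C X.K (MonoidAlgebra A G)),
        ∀ i, p i = 0 → ∀ k, f i k = (U * V + Y * X.dS b) i k) ∧
      (∃ (U : Matrix r C (MonoidAlgebra A G)) (Y : Matrix r X.K (MonoidAlgebra A G)),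
        (∀ j i, U j i ≠ 0 → p i = 0) ∧ V = U * f + Y * X.dS b) := by
  classical
  cases b with
  | true =>
    obtain ⟨κ, hκ1, hκ2⟩ := exists_preK (E := E) (ω := ω) (X := X)
      (fun J K _ _ D hD => coh_up hc hD) (fun J K _ _ D hD => pd_up hpd hD) hL hV hcyc
    exact ⟨κ.C, inferInstance, inferInstance, κ.p, κ.e, κ.δ, κ.f, κ.e_on, κ.δ_on, κ.f_on,
      (κ.isKill).pr κ.f_on, hκ1, hκ2⟩
  | false =>
    have hL' : X.flip.Lev (-(i₀ : ℤ)) := X.flip_lev.2 hL
    have hcyc' : X.flip.Cyc true (-(i₀ : ℤ)) V := X.flip_cyc.2 hcyc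
    obtain ⟨κ, hκ1, hκ2⟩ := exists_preK (E := E.flip) (ω := ω) (X := X.flip)
      (fun J K _ _ D hD => coh_up hc hD) (fun J K _ _ D hD => pd_up hpd hD) hL' hV hcyc'
    exact ⟨κ.C, inferInstance, inferInstance, κ.p, κ.e, κ.δ, κ.f, κ.e_on, κ.δ_on, κ.f_on,
      (κ.isKill).pr κ.f_on, hκ1, hκ2⟩

theorem hom_zero_whole {X : DGF E β ε} (b : Bool)
    (hc : ∀ ω, ∀ H : Subgroup G, H.FG → H ≤ E.F ω → CohT (MonoidAlgebra A H))
    (hpd : ∀ ω, ∀ H : Subgroup G, H.FG → H ≤ E.F ω → PDT (MonoidAlgebra A H))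
    (hF : ∀ ω, ∀ H : Subgroup G, H.FG → H ≤ E.F ω → AusW (MonoidAlgebra A H)) {i₀ : ℕ}
    (hL : X.Lev (-(i₀ : ℤ))) {q : ℕ} (hq : q + 1 = 2 * i₀)
    {Q : Type} [Fintype Q] [DecidableEq Q] {π : Q → ℕ} {Y : Matrix Q Q (MonoidAlgebra A G)}
    (hY : ∀ a b, Y a b ≠ 0 → π a = π b + 1) (hπ : ∀ a, π a ≤ q) (hYY : Y * Y = 0)
    (hYex : ∀ (l : ℕ) (v : Matrix Unit Q (MonoidAlgebra A G)), (∀ b, v () b ≠ 0 → π b = l + 1) →
        v * Y = 0 → ∃ v' : Matrix Unit Q (MonoidAlgebra A G), v = v' * Y)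
    {r : Type} [Fintype r] [DecidableEq r] {s : r → Ω} {ζ : Matrix r X.K (MonoidAlgebra A G)}
    (ζ_on : On0 E s X.t ζ) (ζ_cyc : X.Cyc b (-(i₀ : ℤ)) ζ)
    (ζ_gen : ∀ x : Matrix Unit X.K (MonoidAlgebra A G), X.Cyc b (-(i₀ : ℤ)) x →
      ∃ κ : Matrix Unit r (MonoidAlgebra A G), x = κ * ζ)
    {Φ : Matrix r Q (MonoidAlgebra A G)} (hΦ : ∀ i a, Φ i a ≠ 0 → π a = 0)
    (hrel : ∀ κ : Matrix Unit r (MonoidAlgebra A G), X.Bd b (κ * ζ) →
      ∃ v : Matrix Unit Q (MonoidAlgebra A G), κ * Φ = v * Y) :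
    ∃ H : Matrix r Q (MonoidAlgebra A G), Φ = H * Y := by
  classical
  -- relations for several rows
  have hrelM : ∀ {c : Type} (κ : Matrix c r (MonoidAlgebra A G)), X.Bd b (κ * ζ) →
      ∃ v : Matrix c Q (MonoidAlgebra A G), κ * Φ = v * Y := by
    intro c κ hκ
    obtain ⟨y, hy⟩ := hκ
    have h1 : ∀ i : c, ∃ v : Matrix Unit Q (MonoidAlgebra A G),
        κ.submatrix (fun _ : Unit => i) id * Φ = v * Y := by
      intro i
      refine hrel _ ⟨fun _ k => y i k, ?_⟩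
      ext1 u k
      exact congrFun (congrFun hy i) k
    choose v hv using h1
    refine ⟨fun i a => v i () a, ?_⟩
    ext1 i a
    exact congrFun (congrFun (hv i) ()) a
  -- it suffices to treat one label
  suffices hlab : ∀ ω : Ω, ∃ H : Matrix r Q (MonoidAlgebra A G),
      Pool.Agent.Lib.MP_98022b_UM.pr A G s ω * Φ = H * Y by
    choose H hH using hlab
    refine ⟨fun i a => H (s i) i a, ?_⟩
    ext1 i a
    have h1 := congrFun (congrFun (hH (s i)) i) a
    rw [pr_mul_apply, if_pos rfl] at h1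
    rw [h1]
    rfl
  intro ω
  set P : Matrix r r (MonoidAlgebra A G) := Pool.Agent.Lib.MP_98022b_UM.pr A G s ω with hP
  have hVon : On0 E (fun _ => ω) X.t (P * ζ) := (ζ_on.pr_mul_onF ω)
  have hVcyc : X.Cyc b (-(i₀ : ℤ)) (P * ζ) := ζ_cyc.mul_left P
  obtain ⟨C, _, _, p, e', δ, f, e_on, δ_on, f_on, hk, ⟨U₁, Y₁, h1⟩, ⟨U₂, Y₂, hU₂, h2⟩⟩ :=
    F10d_preS X b (hc ω) (hpd ω) hL hVon hVcyc
  -- the complex resolves the whole homology
  have hw : IsWhole (X.degS b) (Pool.Agent.Lib.MP_98022b_UM.pr A G X.t ω * X.eS b)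
      (Pool.Agent.Lib.MP_98022b_UM.pr A G X.t ω * X.dS b) i₀ p f := by
    intro x hx hxe hxd
    have hxp : x * Pool.Agent.Lib.MP_98022b_UM.pr A G X.t ω = x := by
      rw [← hxe, X.pr_eS ω b, ← Matrix.mul_assoc, Matrix.mul_assoc (x * X.eS b), pr_mul_self]
    obtain ⟨κ, hκ⟩ := ζ_gen x ⟨fun u k hk' => hx k hk', by
      rw [← Matrix.mul_assoc, hxp] at hxe
      exact hxe, by
      rw [← Matrix.mul_assoc, hxp] at hxd
      exact hxd⟩
    have h3 : x = κ * (P * ζ) := by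
      rw [← hxp, hκ, Matrix.mul_assoc, ζ_on.pr_comm ω]
    refine ⟨κ * U₂, κ * Y₂, ?_, ?_⟩
    · intro i hi
      obtain ⟨j, -, hj⟩ := F10d_ne hi
      exact hU₂ j i hj
    · have e1 : κ * (U₂ * f) * Pool.Agent.Lib.MP_98022b_UM.pr A G X.t ω = κ * U₂ * f := by
        rw [Matrix.mul_assoc κ, Matrix.mul_assoc U₂, f_on.mul_pr, ← Matrix.mul_assoc]
      have e2 : κ * (Y₂ * X.dS b) * Pool.Agent.Lib.MP_98022b_UM.pr A G X.t ω =
          κ * Y₂ * (X.dS b * Pool.Agent.Lib.MP_98022b_UM.pr A G X.t ω) := by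
        simp only [Matrix.mul_assoc]
      rw [← hxp, h3, h2, X.pr_dS ω b, Matrix.mul_add, Matrix.add_mul, e1, e2]
  have hcol : ∀ l ≤ q, ColExN p e' δ l := fun l hl =>
    colexW_of_aus b ω (hF ω) hL e_on δ_on f_on hk hw l (by omega)
  -- the values on the generators of the complex
  set P₀ : Matrix C C (MonoidAlgebra A G) := F10d_P (MonoidAlgebra A G) p 0 with hP₀
  have hPe : P₀ * e' = e' * P₀ := F10d_P_e hk.e_deg 0
  have h1' : P₀ * f = P₀ * U₁ * (P * ζ) + P₀ * Y₁ * X.dS b := by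
    ext1 i k
    rw [Matrix.mul_assoc P₀ U₁, Matrix.mul_assoc P₀ Y₁, ← Matrix.mul_add, F10d_P_mul, F10d_P_mul]
    split_ifs with h3
    · exact h1 i h3 k
    · rfl
  have hprdS : ∀ {c : Type} (y : Matrix c X.K (MonoidAlgebra A G)),
      X.Bd b (y * (Pool.Agent.Lib.MP_98022b_UM.pr A G X.t ω * X.dS b)) := fun y =>
    ⟨y * Pool.Agent.Lib.MP_98022b_UM.pr A G X.t ω, (Matrix.mul_assoc _ _ _).symm⟩
  set N : Matrix C Q (MonoidAlgebra A G) := e' * (P₀ * (U₁ * (P * Φ))) with hN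
  obtain ⟨H, hH⟩ := F10d_bottom hk.e_deg hk.δ_deg hk.ee hk.eδ hk.δe hk.δδ hY hπ hYY hYex hcol N
    (by
      intro i a hia
      rw [hN, ← Matrix.mul_assoc, ← hPe, Matrix.mul_assoc, F10d_P_mul] at hia
      split_ifs at hia with h3
      · refine ⟨h3, ?_⟩
        obtain ⟨j, -, hj⟩ := F10d_ne hia
        obtain ⟨j', -, hj'⟩ := F10d_ne hj
        obtain ⟨j'', -, hj''⟩ := F10d_ne hj'
        exact hΦ j'' a hj''
      · exact absurd rfl hia)
    (by rw [hN, ← Matrix.mul_assoc e' e', hk.ee])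
    (by
      have h3 : δ * N = (δ * P₀ * U₁ * P) * Φ := by
        rw [hN, ← Matrix.mul_assoc δ e', hk.δe]
        simp only [Matrix.mul_assoc]
      rw [h3]
      refine hrelM _ ?_
      have h4 : δ * P₀ * f = δ * P₀ * U₁ * P * ζ + δ * P₀ * Y₁ * X.dS b := by
        rw [Matrix.mul_assoc δ P₀ f, h1', Matrix.mul_add]
        simp only [Matrix.mul_assoc]
      have h5 : X.Bd b (δ * P₀ * f) := by
        rw [hP₀, ← F10d_P_d hk.δ_deg 0, Matrix.mul_assoc,
          show δ * f = -(f * (Pool.Agent.Lib.MP_98022b_UM.pr A G X.t ω * X.dS b)) from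
            eq_neg_of_add_eq_zero_left hk.δf, ← Matrix.neg_mul, ← Matrix.mul_assoc]
        exact hprdS _
      obtain ⟨y, hy⟩ := h5
      have hy' : δ * P₀ * f = y * X.dS b := hy
      exact ⟨y - δ * P₀ * Y₁, by
        rw [Matrix.sub_mul, ← hy', h4, add_sub_cancel_right]⟩)
  -- back to the generators of the homology
  have hU₂P : U₂ * P₀ = U₂ := by
    ext1 j i
    rw [hP₀, F10d_mul_P]
    split_ifs with h3
    · rfl
    · by_contra h4
      exact h3 (hU₂ j i (Ne.symm h4))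
  obtain ⟨v, hv⟩ := hrelM (P - U₂ * e' * P₀ * U₁ * P) (by
    have h3 : U₂ * e' * P₀ * f = U₂ * f := by
      rw [Matrix.mul_assoc U₂ e', ← hPe, ← Matrix.mul_assoc U₂, hU₂P, Matrix.mul_assoc, hk.ef]
    have h4 : U₂ * e' * P₀ * f = U₂ * e' * P₀ * U₁ * P * ζ + U₂ * e' * P₀ * Y₁ * X.dS b := by
      rw [Matrix.mul_assoc (U₂ * e') P₀ f, h1', Matrix.mul_add]
      simp only [Matrix.mul_assoc]
    refine ⟨Y₂ + U₂ * e' * P₀ * Y₁, ?_⟩
    rw [Matrix.sub_mul, h2, ← h3, h4, Matrix.add_mul]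
    abel)
  refine ⟨U₂ * H + v, ?_⟩
  have h3 : U₂ * e' * P₀ * U₁ * P * Φ = U₂ * H * Y := by
    rw [Matrix.mul_assoc U₂ H, ← hH, hN]
    simp only [Matrix.mul_assoc]
  rw [Matrix.add_mul, ← hv, Matrix.sub_mul, h3]
  abel

end labels

end Pool.Agent.UP
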