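import Mathlib
import Pool.Agent.Lib.UP.Defs4
import Pool.Agent.Lib.UP.TrFin

/-!
# TANK UP, row F10e: the content trick

A functional on a content, summed over the coset components, is a functional on the whole
homology; if the latter is zero, so is the former.
-/

set_option autoImplicit false

open MonoidAlgebra

namespace Pool.Agent.UP

open Pool.Agent.Lib.MP_98022b_UN Pool.Agent.Lib.MP_98022b_UM Pool.Agent.Lib.MP_98022b_UP

universe u v w

section

variable {A : Type u} {Ω : Type w} {G : Type v} [CommRing A] [Group G] {E : BSys Ω G}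
  {β : BarStr A G} {ε : ℤ}

private theorem F10e_cL_add {F : Subgroup G} {I J : Type} (g : G)
    (M N : Matrix I J (MonoidAlgebra A G)) : cL F g (M + N) = cL F g M + cL F g N := by
  funext i j
  show res (F : Set G) (single g⁻¹ (1 : A) * (M i j + N i j)) = _
  rw [mul_add, res_add]
  rfl

private theorem F10e_cL_one {F : Subgroup G} {I J : Type} {M : Matrix I J (MonoidAlgebra A G)}
    (hM : OnF F M) : cL F 1 M = M := by
  funext i j
  show res (F : Set G) (single (1 : G)⁻¹ (1 : A) * M i j) = M i j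
  rw [inv_one, ← MonoidAlgebra.one_def, one_mul]
  exact res_eq_self fun g hg => hM i j g hg

private theorem F10e_mul_ne {I J K : Type} [Fintype J] {M : Matrix I J (MonoidAlgebra A G)}
    {N : Matrix J K (MonoidAlgebra A G)} {i : I} {k : K} (h : (M * N) i k ≠ 0) :
    ∃ j, M i j ≠ 0 ∧ N j k ≠ 0 := by
  rw [Matrix.mul_apply] at h
  obtain ⟨j, _, hj⟩ := Finset.exists_ne_zero_of_sum_ne_zero h
  exact ⟨j, left_ne_zero_of_mul hj, right_ne_zero_of_mul hj⟩

private theorem F10e_onF_mul {F : Subgroup G} {I J K : Type} [Fintype J]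
    {M : Matrix I J (MonoidAlgebra A G)} {N : Matrix J K (MonoidAlgebra A G)} (hM : OnF F M)
    (hN : OnF F N) : OnF F (M * N) := by
  intro i k g hg
  have h1 : cL F 1 (M * N) = M * N := by
    rw [cL_mul hN, F10e_cL_one hM]
  rw [← h1] at hg
  exact cL_onF 1 (M * N) i k g hg

/-- combinations of the rows of position `0` of the attached complex which are boundaries -/
private theorem F10e_key {X : DGF E β ε} {i₀ : ℕ} {C : Type} [Fintype C] {p : C → ℕ}
    {e' δ : Matrix C C (MonoidAlgebra A G)} {f : Matrix C X.K (MonoidAlgebra A G)}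
    (hk : IsKill X.deg X.e X.d i₀ p e' δ f) {Q : Type} [Fintype Q]
    {Y : Matrix Q Q (MonoidAlgebra A G)} {Z : Matrix C Q (MonoidAlgebra A G)}
    (eZ : e' * Z = Z) (δZ : δ * Z = Z * Y) {c : Type} {N : Matrix c C (MonoidAlgebra A G)}
    (hN : ∀ j i, N j i ≠ 0 → p i = 0) {x : Matrix c X.K (MonoidAlgebra A G)}
    (hx : N * f = x * X.d) : ∃ v : Matrix c Q (MonoidAlgebra A G), N * Z = v * Y := by
  classical
  have h1 : ∀ j : c, ∃ v : Matrix Unit Q (MonoidAlgebra A G), ∀ a, (N * Z) j a = (v * Y) () a := by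
    intro j
    let u : Matrix Unit C (MonoidAlgebra A G) := fun _ i => (N * e') j i
    let y : Matrix Unit X.K (MonoidAlgebra A G) := fun _ k => x j k
    have hu0 : ∀ i, u () i ≠ 0 → p i = 0 := by
      intro i hi
      obtain ⟨i', h2, h3⟩ := F10e_mul_ne hi
      rw [← hk.e_deg i' i h3]
      exact hN j i' h2
    have hue : u * e' = u := by
      ext1 o i
      show ∑ l, (N * e') j l * e' l i = (N * e') j i
      have h2 : (N * e' * e') j i = (N * e') j i := by rw [Matrix.mul_assoc, hk.ee]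
      rw [← h2]
      exact (Matrix.mul_apply (M := N * e') (N := e')).symm
    have huδ : u * δ = 0 := by
      ext1 o i
      rw [Matrix.mul_apply]
      refine Finset.sum_eq_zero fun l _ => ?_
      by_cases hl : u o l = 0
      · rw [hl, zero_mul]
      · have h2 := hu0 l hl
        by_cases hd : δ l i = 0
        · rw [hd, mul_zero]
        · have h3 := hk.δ_deg l i hd
          omega
    have huf : u * f = y * X.d := by
      ext1 o k
      have h2 : (N * e' * f) j k = (x * X.d) j k := by rw [Matrix.mul_assoc, hk.ef, hx]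
      rw [Matrix.mul_apply] at h2 ⊢
      rw [Matrix.mul_apply] at h2 ⊢
      exact h2
    obtain ⟨u', hu'⟩ := hk.rowex 0 u hu0 hue huδ ⟨y, huf⟩
    refine ⟨u' * Z, fun a => ?_⟩
    have h2 : (N * e' * Z) j a = (N * Z) j a := by rw [Matrix.mul_assoc, eZ]
    have h3 : (u * Z) () a = (N * e' * Z) j a := by
      rw [Matrix.mul_apply, Matrix.mul_apply]
    rw [← h2, ← h3, hu', Matrix.mul_assoc, δZ, ← Matrix.mul_assoc]
  choose v hv using h1
  refine ⟨fun j a => v j () a, ?_⟩
  ext1 j a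
  rw [hv j a, Matrix.mul_apply, Matrix.mul_apply]

/-- the matrix of the coset representatives -/
private noncomputable def F10e_T {X : DGF E β ε} {ω : Ω} {a : ℤ} {n : ℕ} {b : Bool}
    (c : Content X ω a n b) : Matrix c.r (c.r × c.ι) (MonoidAlgebra A G) :=
  fun i q => if q.1 = i then single (c.τ q.2) 1 else 0

private theorem F10e_T_mul {X : DGF E β ε} {ω : Ω} {a : ℤ} {n : ℕ} {b : Bool}
    (c : Content X ω a n b) {L : Type} (M : Matrix (c.r × c.ι) L (MonoidAlgebra A G)) (i : c.r)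
    (k : L) : (F10e_T c * M) i k = ∑ l, single (c.τ l) 1 * M (i, l) k := by
  classical
  rw [Matrix.mul_apply, Fintype.sum_prod_type, Finset.sum_eq_single i]
  · refine Finset.sum_congr rfl fun l _ => ?_
    rw [F10e_T, if_pos rfl]
  · intro j _ hj
    refine Finset.sum_eq_zero fun l _ => ?_
    rw [F10e_T, if_neg hj, zero_mul]
  · intro h
    exact absurd (Finset.mem_univ _) h

private theorem F10e_T_V {X : DGF E β ε} {ω : Ω} {a : ℤ} {n : ℕ} {b : Bool}
    (c : Content X ω a n b) :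
    F10e_T c * c.V = c.ζ * wM X.M n b * Pool.Agent.Lib.MP_98022b_UM.pr A G X.t ω := by
  ext1 i k
  rw [F10e_T_mul, c.sum]

/-- the coset components of `Σ_l τ_l M_l` are the `M_l` -/
private theorem F10e_T_comp {X : DGF E β ε} {ω : Ω} {a : ℤ} {n : ℕ} {b : Bool}
    (c : Content X ω a n b) {L : Type} {M : Matrix (c.r × c.ι) L (MonoidAlgebra A G)}
    (hM : OnF (E.F ω) M) (i : c.r) (l : c.ι) (k : L) :
    cL (E.F ω) (c.τ l) (F10e_T c * M) i k = M (i, l) k := by
  classical
  show res (E.F ω : Set G) (single (c.τ l)⁻¹ 1 * (F10e_T c * M) i k) = M (i, l) k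
  rw [F10e_T_mul, Finset.mul_sum, res_sum, Finset.sum_eq_single l]
  · rw [← mul_assoc, single_mul_single, inv_mul_cancel, one_mul, ← one_def, one_mul]
    exact res_eq_self fun g hg => hM _ _ g hg
  · intro l' _ hl'
    apply OnAux.res_of_not
    intro g hg hgF
    rw [← mul_assoc, single_mul_single, one_mul, coeff_single_mul_apply, one_mul] at hg
    have h1 := hM _ _ _ hg
    apply hl'
    symm
    apply c.τ_dist
    have h2 := (E.F ω).mul_mem hgF ((E.F ω).inv_mem h1)
    rw [mul_inv_rev, inv_inv, mul_inv_cancel_left] at h2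
    exact h2
  · intro h
    exact absurd (Finset.mem_univ _) h

/-- the content trick: a functional on the content whose extension to the whole homology is zero
is zero -/
theorem F10e_core {X : DGF E β ε} {i₀ : ℕ} {ω : Ω} {n : ℕ} {b : Bool}
    (hn : par n b = true) (c : Content X ω (-(i₀ : ℤ)) n b) {C : Type} [Fintype C]
    [DecidableEq C] {p : C → ℕ} {e' δ : Matrix C C (MonoidAlgebra A G)}
    {f : Matrix C X.K (MonoidAlgebra A G)}
    (f_on : On0 E (fun _ => ω) X.t f) (hk : IsKill X.deg X.e X.d i₀ p e' δ f)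
    (h1 : ∃ (U : Matrix C (c.r × c.ι) (MonoidAlgebra A G)) (V : Matrix C X.K (MonoidAlgebra A G)),
        ∀ i, p i = 0 → ∀ k, f i k = (U * c.V + V * X.d) i k)
    (h2 : ∃ (U : Matrix (c.r × c.ι) C (MonoidAlgebra A G))
        (V : Matrix (c.r × c.ι) X.K (MonoidAlgebra A G)),
        (∀ j i, U j i ≠ 0 → p i = 0) ∧ c.V = U * f + V * X.d)
    {Q : Type} [Fintype Q] {π : Q → ℕ}
    {Y : Matrix Q Q (MonoidAlgebra A G)} {Z : Matrix C Q (MonoidAlgebra A G)}
    (Y_on : OnF (E.F ω) Y) (Z_on : OnF (E.F ω) Z) (hZ : ∀ i b, Z i b ≠ 0 → p i = π b)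
    (eZ : e' * Z = Z) (δZ : δ * Z = Z * Y)
    (hom : ∀ Φ : Matrix c.r Q (MonoidAlgebra A G), (∀ i a, Φ i a ≠ 0 → π a = 0) →
      (∀ κ : Matrix Unit c.r (MonoidAlgebra A G), X.Bd b (κ * c.ζ) →
        ∃ v : Matrix Unit Q (MonoidAlgebra A G), κ * Φ = v * Y) →
      ∃ H : Matrix c.r Q (MonoidAlgebra A G), Φ = H * Y) :
    ∃ H : Matrix C Q (MonoidAlgebra A G), ∀ i, p i = 0 → ∀ b, Z i b = (H * Y) i b := by
  classical
  obtain ⟨U₀, V₀, hU₀, hV₀⟩ := h2
  set P := Pool.Agent.Lib.MP_98022b_UM.pr A G X.t ω with hP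
  -- a typed representation of the content
  set U : Matrix (c.r × c.ι) C (MonoidAlgebra A G) := cL (E.F ω) 1 U₀ with hUdef
  set V : Matrix (c.r × c.ι) X.K (MonoidAlgebra A G) := cL (E.F ω) 1 V₀ * P with hVdef
  have hU_on : OnF (E.F ω) U := cL_onF 1 U₀
  have hU : ∀ j i, U j i ≠ 0 → p i = 0 := by
    intro j i hji
    refine hU₀ j i fun h0 => hji ?_
    show res _ (_ * U₀ j i) = 0
    rw [h0, mul_zero, res_zero]
  have hV : c.V = U * f + V * X.d := by
    have e1 : c.V = U₀ * f + V₀ * (P * X.d) := by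
      have e2 : c.V * P = c.V := c.V_on.mul_pr
      have e3 : f * P = f := f_on.mul_pr
      calc c.V = c.V * P := e2.symm
        _ = U₀ * (f * P) + V₀ * (X.d * P) := by
            rw [hV₀, Matrix.add_mul, Matrix.mul_assoc, Matrix.mul_assoc]
        _ = U₀ * f + V₀ * (P * X.d) := by rw [e3, hP, pr_d_comm]
    calc c.V = cL (E.F ω) 1 c.V := (F10e_cL_one c.V_on.onF).symm
      _ = cL (E.F ω) 1 (U₀ * f) + cL (E.F ω) 1 (V₀ * (P * X.d)) := by
          conv_lhs => rw [e1]
          exact F10e_cL_add 1 _ _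
      _ = U * f + cL (E.F ω) 1 V₀ * (P * X.d) := by
          rw [cL_mul f_on.onF, cL_mul (prD_on X ω)]
      _ = U * f + V * X.d := by rw [hVdef, Matrix.mul_assoc]
  -- the functional on the whole homology
  obtain ⟨H, hH⟩ := hom (F10e_T c * (U * Z)) (by
    intro i a hia
    obtain ⟨q, _, h3⟩ := F10e_mul_ne hia
    obtain ⟨j, h4, h5⟩ := F10e_mul_ne h3
    rw [← hZ j a h5]
    exact hU q j h4) (by
    intro κ hκ
    have h3 : X.Bd true (κ * (F10e_T c * c.V)) := by
      have h4 := (hκ.word n).pr ω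
      rw [hn] at h4
      rw [F10e_T_V]
      rwa [Matrix.mul_assoc κ, Matrix.mul_assoc κ] at h4
    obtain ⟨y, hy⟩ := h3
    have hy' : κ * (F10e_T c * c.V) = y * X.d := hy
    have h5 : κ * F10e_T c * U * f = (y - κ * F10e_T c * V) * X.d := by
      rw [Matrix.sub_mul, ← hy', hV, Matrix.mul_add, Matrix.mul_add]
      simp only [Matrix.mul_assoc]
      rw [add_sub_cancel_right]
    obtain ⟨v, hv⟩ := F10e_key hk eZ δZ (N := κ * F10e_T c * U) (by
      intro j i hji
      obtain ⟨q, _, h4⟩ := F10e_mul_ne hji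
      exact hU q i h4) h5
    refine ⟨v, ?_⟩
    rw [← hv]
    simp only [Matrix.mul_assoc])
  -- the coset components
  have hG_on : OnF (E.F ω) (U * Z) := F10e_onF_mul hU_on Z_on
  let H' : Matrix (c.r × c.ι) Q (MonoidAlgebra A G) := fun q a => cL (E.F ω) (c.τ q.2) H q.1 a
  have hG : U * Z = H' * Y := by
    ext1 q a
    obtain ⟨i, l⟩ := q
    rw [← F10e_T_comp c hG_on i l a, hH, cL_mul Y_on, Matrix.mul_apply, Matrix.mul_apply]
  -- back to the content
  obtain ⟨U₁, V₁, hf⟩ := h1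
  let N : Matrix {i : C // p i = 0} C (MonoidAlgebra A G) :=
    ((1 : Matrix C C (MonoidAlgebra A G)) - U₁ * U).submatrix Subtype.val id
  let x : Matrix {i : C // p i = 0} X.K (MonoidAlgebra A G) :=
    (V₁ + U₁ * V).submatrix Subtype.val id
  obtain ⟨v, hv⟩ := F10e_key hk eZ δZ (N := N) (x := x) (by
    intro j i hji
    by_contra hne
    apply hji
    show (1 : Matrix C C (MonoidAlgebra A G)) j.1 i - (U₁ * U) j.1 i = 0
    have h3 : (U₁ * U) j.1 i = 0 := by
      by_contra h4
      obtain ⟨q, _, h5⟩ := F10e_mul_ne h4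
      exact hne (hU q i h5)
    rw [h3, sub_zero, Matrix.one_apply_ne]
    rintro h6
    exact hne (h6 ▸ j.2)) (by
    ext1 j k
    have h3 : (N * f) j k = (((1 : Matrix C C (MonoidAlgebra A G)) - U₁ * U) * f) j.1 k := by
      rw [Matrix.mul_apply, Matrix.mul_apply]
      rfl
    have h4 : (x * X.d) j k = ((V₁ + U₁ * V) * X.d) j.1 k := by
      rw [Matrix.mul_apply, Matrix.mul_apply]
      rfl
    have h5 : U₁ * c.V + V₁ * X.d - U₁ * U * f = (V₁ + U₁ * V) * X.d := by
      rw [hV, Matrix.mul_add, Matrix.add_mul, ← Matrix.mul_assoc, ← Matrix.mul_assoc]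
      abel
    rw [h3, h4, Matrix.sub_mul, Matrix.one_mul, Matrix.sub_apply, hf j.1 j.2 k, ← h5,
      Matrix.sub_apply])
  refine ⟨fun i a => (if h : p i = 0 then v ⟨i, h⟩ a else 0) + (U₁ * H') i a, ?_⟩
  intro i hi a
  have h3 : (N * Z) ⟨i, hi⟩ a = Z i a - (U₁ * (U * Z)) i a := by
    have h4 : (N * Z) ⟨i, hi⟩ a = (((1 : Matrix C C (MonoidAlgebra A G)) - U₁ * U) * Z) i a := by
      rw [Matrix.mul_apply, Matrix.mul_apply]
      rfl
    rw [h4, Matrix.sub_mul, Matrix.one_mul, Matrix.sub_apply, Matrix.mul_assoc]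
  have h5 : Z i a = (v * Y) ⟨i, hi⟩ a + (U₁ * H' * Y) i a := by
    rw [← hv, h3, hG, Matrix.mul_assoc, sub_add_cancel]
  rw [h5, Matrix.mul_apply, Matrix.mul_apply, Matrix.mul_apply, ← Finset.sum_add_distrib]
  refine Finset.sum_congr rfl fun j _ => ?_
  rw [dif_pos hi, add_mul]

end

end Pool.Agent.UP
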