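import Mathlib
import Pool.Agent.Lib.UP.F10abc
import Pool.Agent.Lib.UP.F10d
import Pool.Agent.Lib.UP.F10e

set_option autoImplicit false

open MonoidAlgebra

namespace Pool.Agent.UP

open Pool.Agent.Lib.MP_98022b_UN Pool.Agent.Lib.MP_98022b_UM Pool.Agent.Lib.MP_98022b_UP

universe u v w

section

variable {A : Type u} {Ω : Type w} {G : Type v} [CommRing A] [Group G] {E : BSys Ω G}
  {β : BarStr A G} {ε : ℤ}

/-- a complex attached to `X` which kills a content has exact columns in the positions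
`< 2 i₀` -/
theorem colex_content {g : ℕ}
    (h : ∀ ω, ∀ H : Subgroup G, H.FG → H ≤ E.F ω → Facts4 (MonoidAlgebra A H) g)
    {X : DGF E β ε} {i₀ : ℕ} (hL : X.Lev (-(i₀ : ℤ))) {ω : Ω} {n : ℕ} {b : Bool}
    (hn : par n b = true) (c : Content X ω (-(i₀ : ℤ)) n b) {C : Type} [Fintype C]
    [DecidableEq C] {p : C → ℕ} {e' δ : Matrix C C (MonoidAlgebra A G)}
    {f : Matrix C X.K (MonoidAlgebra A G)} (e_on : OnF (E.F ω) e') (δ_on : OnF (E.F ω) δ)
    (f_on : On0 E (fun _ => ω) X.t f) (hk : IsKill X.deg X.e X.d i₀ p e' δ f)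
    (h1 : ∃ (U : Matrix C (c.r × c.ι) (MonoidAlgebra A G)) (V : Matrix C X.K (MonoidAlgebra A G)),
        ∀ i, p i = 0 → ∀ k, f i k = (U * c.V + V * X.d) i k)
    (h2 : ∃ (U : Matrix (c.r × c.ι) C (MonoidAlgebra A G))
        (V : Matrix (c.r × c.ι) X.K (MonoidAlgebra A G)),
        (∀ j i, U j i ≠ 0 → p i = 0) ∧ c.V = U * f + V * X.d)
    (l : ℕ) (hl : l < 2 * i₀) : ColExN p e' δ l := by
  by_cases hl1 : l + 1 < 2 * i₀
  · exact colex1_of_aus ω (fun H hH1 hH2 => (h ω H hH1 hH2).aus1) hL e_on δ_on f_on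
      (hk.pr f_on) l hl1
  · have hq : l + 1 = 2 * i₀ := by omega
    intro y hy hey hdy
    refine rep_of_cR (F := E.F ω) δ_on fun g₀ => ?_
    obtain ⟨Q, _, _, π, Y, Z, Y_on, Z_on, hY, hπ, hZ, hYY, hYex, eZ, δZ, hfin⟩ :=
      fun_of_aus ω (fun H hH1 hH2 => (h ω H hH1 hH2).func) hL e_on δ_on f_on (hk.pr f_on) hq
        (cR (E.F ω) g₀ y) (cR_onF g₀ y)
        (fun i hi => hy i fun h0 => hi (by
          show res _ (y i () * _) = 0
          rw [h0, zero_mul, res_zero]))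
        (by rw [← cR_mul e_on, hey]) (by rw [← cR_mul δ_on, hdy, cR_zero])
    refine hfin (F10e_core hn c f_on hk h1 h2 Y_on Z_on hZ eZ δZ fun Φ hΦ hrel => ?_)
    exact hom_zero_whole b (fun ω' H hH1 hH2 => (h ω' H hH1 hH2).coh)
      (fun ω' H hH1 hH2 => (h ω' H hH1 hH2).pd) (fun ω' H hH1 hH2 => (h ω' H hH1 hH2).ausW)
      hL hq hY hπ hYY hYex c.ζ_on c.ζ_cyc c.ζ_gen hΦ hrel

end

end Pool.Agent.UP
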