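import Mathlib
import Pool.Agent.Lib.UP.Defs4
import Pool.Agent.Lib.UP.TrFin
import Pool.Agent.Lib.UP.F10e2

/-!
# Stage 2: the ring-theoretic input of the surgery and the main theorem
-/

set_option autoImplicit false

open MonoidAlgebra

namespace Pool.Agent.UP

open Pool.Agent.Lib.MP_98022b_UN Pool.Agent.Lib.MP_98022b_UM Pool.Agent.Lib.MP_98022b_UP

universe u v w

section main

variable {A : Type u} {Ω : Type w} {G : Type v} [CommRing A] [Group G] {E : BSys Ω G}
  {β : BarStr A G} {ε : ℤ}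

/-- the ring-theoretic input of the surgery step -/
theorem killHyp_facts4 {g : ℕ}
    (h : ∀ ω, ∀ H : Subgroup G, H.FG → H ≤ E.F ω → Facts4 (MonoidAlgebra A H) g) (i₀ : ℕ) :
    KillHyp E β ε (-(i₀ : ℤ)) := by
  classical
  intro X hL ω n b hn c
  obtain ⟨κ, hκ⟩ := exists_preK
    (fun J K _ _ D hD => coh_up (fun H h1 h2 => (h ω H h1 h2).coh) hD)
    (fun J K _ _ D hD => pd_up (fun H h1 h2 => (h ω H h1 h2).pd) hD) hL c.V_on (c.V_cyc hn)
  exact ⟨κ.kill (colex_content h hL hn c κ.e_on κ.δ_on κ.f_on κ.isKill hκ.1 hκ.2), hκ.1, hκ.2⟩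

/-- **the main theorem** for object groups all of whose finitely generated subgroups have the
ring-theoretic facts of stage 2 -/
theorem main_facts4 (hG : E.Geo) (hN : E.NoInv) (hε : ε = 1 ∨ ε = -1) {g : ℕ}
    (h : ∀ ω, ∀ H : Subgroup G, H.FG → H ≤ E.F ω → Facts4 (MonoidAlgebra A H) g)
    (X : BF E β ε) : X.SMetab := by
  refine dg_main hG hN hε (coh_of_cohT fun ω H h1 h2 => (h ω H h1 h2).coh) (g + 1) ?_ ?_ X
  · intro k hk
    have h' : ∀ ω, ∀ H : Subgroup G, H.FG → H ≤ E.flip.F ω → Facts4 (MonoidAlgebra A H) g := h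
    exact ⟨killHyp_facts4 h k, killHyp_facts4 h' k⟩
  · intro Y hY i
    exact end_of_fin (fun ω H h1 h2 => (h ω H h1 h2).fin) (by omega) hY i

end main

end Pool.Agent.UP
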