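import Mathlib
import Pool.Agent.Lib.MP_98022b_UM.FinalProof
import Pool.Agent.Lib.UP.Defs

/-!
# TANK UP, row U17: from the main theorem for two-sided systems to trees
-/

open MonoidAlgebra
open scoped LaurentPolynomial

namespace Pool.Agent.UP

open Pool.Agent.Lib.MP_98022b_UM Pool.Agent.Lib.MP_98022b_UM.UF

universe u v w

/-- the reduction of the statement for trees to two-sided systems -/
theorem main_of {A : Type u} [CommRing A] [IsDomain A] [StarRing A]
    {G : Type v} [Group G] {V : Type w} [MulAction G V] {Γ : SimpleGraph V} (hΓ : Γ.IsTree)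
    (hadj : ∀ (g : G) (x y : V), Γ.Adj x y → Γ.Adj (g • x) (g • y)) {p q : V}
    (hpq : Γ.Adj p q) (hinv : ∀ g : G, ¬ (g • p = q ∧ g • q = p))
    (h2p : ∀ g : G, g • p = p → g * g = 1 → g = 1)
    (h2q : ∀ g : G, g • q = q → g * g = 1 → g = 1)
    (k : ℕ) (hk : 1 ≤ k) (χ : G →* ℤˣ) {ε : ℤ} (hε : ε = 1 ∨ ε = -1)
    (hm : ∀ (Ω : Type v) (E : BSys Ω G), E.Geo → E.NoInv →
      (∀ ω, ∃ (x y : V) (W : Γ.Walk x y), W.IsPath ∧ W.length = k ∧
        (∀ e ∈ W.edges, ∃ g : G, e = s(g • p, g • q)) ∧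
        E.F ω ≤ MulAction.stabilizer G x ⊓ MulAction.stabilizer G y) →
      ∀ X : BF E (Pool.Agent.Lib.MP_98022b_UN.barStr (A := A) χ) ε, X.SMetab)
    {n : Type} [Fintype n] [DecidableEq n]
    (x : QForm A χ ε p q n) :
    ∃ (m : Type) (_ : Fintype m) (_ : DecidableEq m) (y : QForm A χ ε p q m)
      (z : QForm A χ ε p q (n ⊕ m)), y.Metabolic ∧ z.IsSum x y ∧ z.Metabolic := by
  classical
  have hεε : ε * ε = 1 := by rcases hε with h | h <;> simp [h]
  have hsymm : ∀ {k : Type} (M : Matrix k k (MonoidAlgebra A G)),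
      Pool.Agent.Lib.MP_98022b_UN.adj (Pool.Agent.Lib.MP_98022b_UN.barStr χ)
        (M + ε • Pool.Agent.Lib.MP_98022b_UN.adj (Pool.Agent.Lib.MP_98022b_UN.barStr χ) M) =
        ε • (M + ε • Pool.Agent.Lib.MP_98022b_UN.adj
          (Pool.Agent.Lib.MP_98022b_UN.barStr χ) M) := by
    intro k M
    rw [Pool.Agent.Lib.MP_98022b_UN.adj_add, Pool.Agent.Lib.MP_98022b_UN.adj_zsmul,
      Pool.Agent.Lib.MP_98022b_UN.adj_adj, smul_add, smul_smul, hεε, one_smul, add_comm]
  have hx : Pool.Agent.Lib.MP_98022b_UN.SForm (Pool.Agent.Lib.MP_98022b_UN.treeSys (G := G) p q)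
      (Pool.Agent.Lib.MP_98022b_UN.barStr χ) ε x.β (x.α + ε • conj χ x.α)
      (x.γ + ε • conj χ x.γ) := by
    refine ⟨x.suppβ, ?_, ?_, hsymm _, hsymm _, x.nil⟩
    · exact supp_sym (σ := false) _ χ ε x.suppα
    · exact supp_sym (σ := true) _ χ ε x.suppγ
  obtain ⟨m, _, _, b', a', c', hy, hmy, hmz⟩ :=
    Pool.Agent.Lib.MP_98022b_UM.reduce_tree hε hΓ hadj hpq hinv h2p h2q k hk hm hx
  have hz := Pool.Agent.Lib.MP_98022b_UN.sform_sum hx hy
  obtain ⟨α', hα', hα''⟩ := Pool.Agent.Lib.MP_98022b_UN.exists_half hε (hfree1 h2q) hy.ha hy.ea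
  obtain ⟨γ', hγ', hγ''⟩ := Pool.Agent.Lib.MP_98022b_UN.exists_half hε (hfree2 h2p) hy.hc hy.ec
  have hsumα : Matrix.fromBlocks x.α 0 0 α' + ε • conj χ (Matrix.fromBlocks x.α 0 0 α') =
      Matrix.fromBlocks (x.α + ε • conj χ x.α) 0 0 a' := by
    rw [conj_eq_adj, Pool.Agent.Lib.MP_98022b_UN.adj_fromBlocks,
      Pool.Agent.Lib.MP_98022b_UN.adj_zero, Pool.Agent.Lib.MP_98022b_UN.adj_zero,
      Matrix.fromBlocks_smul, Matrix.fromBlocks_add, hα'']
    simp only [smul_zero, add_zero]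
    rfl
  have hsumγ : Matrix.fromBlocks x.γ 0 0 γ' + ε • conj χ (Matrix.fromBlocks x.γ 0 0 γ') =
      Matrix.fromBlocks (x.γ + ε • conj χ x.γ) 0 0 c' := by
    rw [conj_eq_adj, Pool.Agent.Lib.MP_98022b_UN.adj_fromBlocks,
      Pool.Agent.Lib.MP_98022b_UN.adj_zero, Pool.Agent.Lib.MP_98022b_UN.adj_zero,
      Matrix.fromBlocks_smul, Matrix.fromBlocks_add, hγ'']
    simp only [smul_zero, add_zero]
    rfl
  let y : QForm A χ ε p q m :=
    { α := α', γ := γ', β := b', suppα := hα', suppγ := hγ', suppβ := hy.hb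
      nil := by
        have h := hy.nil
        rw [hα'', hγ''] at h
        exact h }
  let z : QForm A χ ε p q (n ⊕ m) :=
    { α := Matrix.fromBlocks x.α 0 0 α'
      γ := Matrix.fromBlocks x.γ 0 0 γ'
      β := Matrix.fromBlocks x.β 0 0 b'
      suppα := supp_blocks x.suppα hα'
      suppγ := supp_blocks x.suppγ hγ'
      suppβ := hz.hb
      nil := by
        have h := hz.nil
        rw [hsumα, hsumγ]
        exact h }
  refine ⟨m, inferInstance, inferInstance, y, z, ?_, ⟨rfl, rfl, rfl⟩, ?_⟩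
  · apply metabolic_of_smet h2p h2q hε
    rw [hα'', hγ''] at hmy
    exact hmy
  · apply metabolic_of_smet h2p h2q hε
    have h := hmz
    rw [← hsumα, ← hsumγ] at h
    exact h


/-- `A` has the vanishing property for free and for poly-Z groups: let `G` act on a tree, let
`{p, q}` be an edge which is not inverted, such that the vertex groups `G_p` and `G_q` have no
elements of order two, and such that for some `k ≥ 1` all finitely generated subgroups of the
stabilisers `G_u ∩ G_v` of the segments `[u, v]` consisting of `k` translates of the edge `{p, q}`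
are free, or, for some `d`, all of them are poly-Z of length at most `d` (for `k = 1`: of the edge
group `G_p ∩ G_q`).  Then every `ε`-quadratic UNil form of this edge over `A[G_p ∩ G_q]` becomes
metabolic after adding a metabolic form. -/
def UNilVanishesP (A : Type u) [CommRing A] [StarRing A] : Prop :=
  ∀ (G : Type v) [Group G] (V : Type w) [MulAction G V] (Γ : SimpleGraph V), Γ.IsTree →
    (∀ (g : G) (x y : V), Γ.Adj x y → Γ.Adj (g • x) (g • y)) →
    ∀ p q : V, Γ.Adj p q → (∀ g : G, ¬ (g • p = q ∧ g • q = p)) →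
    (∀ g : G, g • p = p → g * g = 1 → g = 1) → (∀ g : G, g • q = q → g * g = 1 → g = 1) →
    ∀ k : ℕ, 1 ≤ k → ∀ C : (H : Subgroup G) → Prop,
      ((∀ H, C H ↔ IsFreeGroup H) ∨ ∃ d : ℕ, ∀ H, C H ↔ PolyZ d H) →
    (∀ (u v : V) (W : Γ.Walk u v), W.IsPath → W.length = k →
      (∀ e ∈ W.edges, ∃ g : G, e = s(g • p, g • q)) → ∀ H : Subgroup G,
      H ≤ MulAction.stabilizer G u ⊓ MulAction.stabilizer G v → H.FG → C H) →
    ∀ (χ : G →* ℤˣ) (ε : ℤ), (ε = 1 ∨ ε = -1) → ∀ (n : Type) [Fintype n] [DecidableEq n]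
      (x : QForm A χ ε p q n),
      ∃ (m : Type) (_ : Fintype m) (_ : DecidableEq m) (y : QForm A χ ε p q m)
        (z : QForm A χ ε p q (n ⊕ m)), y.Metabolic ∧ z.IsSum x y ∧ z.Metabolic

/-- the main theorem for two-sided systems whose object groups are locally poly-Z of length at
most `d` (row `main_rg`), as a proposition -/
def MainRG (A : Type u) [CommRing A] [StarRing A] : Prop :=
  ∀ (Ω : Type v) (G : Type v) [Group G] (E : BSys Ω G) (χ : G →* ℤˣ) (ε : ℤ) (d : ℕ),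
    E.Geo → E.NoInv → (ε = 1 ∨ ε = -1) →
    (∀ ω, ∀ H : Subgroup G, H ≤ E.F ω → H.FG → PolyZ d H) →
    ∀ X : BF E (Pool.Agent.Lib.MP_98022b_UN.barStr (A := A) χ) ε, X.SMetab

/-- the final theorem from `main_rf` and `MainRG` -/
theorem unilP_of {A : Type u} [CommRing A] [IsDomain A] [IsNoetherianRing A]
    [UniqueFactorizationMonoid A] [StarRing A]
    (hA : ∀ (k l : ℕ) (f : (Fin k → A) →ₗ[A] (Fin l → A)),
      Module.Projective A (LinearMap.ker f)) (hP : MainRG.{u, v} A) :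
    UNilVanishesP.{u, v, w} A := by
  intro G _ V _ Γ hΓ hadj p q hpq hinv h2p h2q k hk C hC hF χ ε hε n _ _ x
  refine main_of hΓ hadj hpq hinv h2p h2q k hk χ hε ?_ x
  intro Ω E hGeo hNo hst X
  rcases hC with hC | ⟨d, hC⟩
  · refine main_rf hGeo hNo hε (fun ω => ?_) X
    obtain ⟨u, v, W, hW1, hW2, hW3, hle⟩ := hst ω
    exact Pool.Agent.Lib.MP_98022b_UN.rf_free hA (E.F ω) fun H hH hfg =>
      (hC H).1 (hF u v W hW1 hW2 hW3 H (hH.trans hle) hfg)
  · refine hP Ω G E χ ε d hGeo hNo hε (fun ω H hH hfg => ?_) X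
    obtain ⟨u, v, W, hW1, hW2, hW3, hle⟩ := hst ω
    exact (hC H).1 (hF u v W hW1 hW2 hW3 H (hH.trans hle) hfg)

end Pool.Agent.UP
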