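import Mathlib
import Pool.Agent.Lib.MP_98022b_UM.Defs

/-!
# TANK UP, limits: the group of words

For a two-sided system `E` over `G` and subgroups `F' ω ≤ E.F ω` a group `Γ` with a homomorphism to
`G` and a system over `Γ` with the same letters and with the object groups `F' ω`.
`Γ` is the HNN extension of `G * FreeGroup Ω` in which the stable letter centralises the subgroup
generated by the `y_ω F'_ω y_ω⁻¹`.
-/

set_option autoImplicit false

namespace Pool.Agent.UP.Lim

open Pool.Agent.Lib.MP_98022b_UM Pool.Agent.Lib.MP_98022b_UN Monoid.Coprod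

universe u v w

section
variable {Ω : Type w} {G : Type v} [Group G]

/-- `y_ω g y_ρ⁻¹` in the free product of `G` and the free group on the `y_ω` -/
def yg (ω ρ : Ω) (g : G) : Monoid.Coprod G (FreeGroup Ω) :=
  inr (FreeGroup.of ω) * inl g * (inr (FreeGroup.of ρ))⁻¹

theorem yg_mul (ω ρ κ : Ω) (g h : G) : yg ω ρ g * yg ρ κ h = yg ω κ (g * h) := by
  unfold yg
  rw [map_mul]
  group

theorem yg_inv (ω ρ : Ω) (g : G) : (yg ω ρ g)⁻¹ = yg ρ ω g⁻¹ := by
  unfold yg
  rw [map_inv]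
  group

theorem yg_one (ω : Ω) : yg ω ω (1 : G) = 1 := by
  unfold yg
  rw [map_one]
  group

open Classical in
/-- the permutation of `y_ω`: exchanges the copies `none` and `some ω` of `G` -/
noncomputable def swp (G : Type v) (ω : Ω) : Equiv.Perm (Option Ω × G) :=
  Equiv.prodCongr (Equiv.swap none (some ω)) (Equiv.refl G)

/-- the permutation of `g`: left multiplication on the copy `none` of `G` -/
def lft (g : G) : Option Ω × G → Option Ω × G
  | (none, x) => (none, g * x)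
  | (some ω, x) => (some ω, x)

/-- left multiplication on the copy `none` of `G` -/
def lftHom : G →* Equiv.Perm (Option Ω × G) :=
  MonoidHom.toHomPerm
    { toFun := fun g => (lft g : Option Ω × G → Option Ω × G)
      map_one' := by
        funext x
        obtain ⟨_ | ω, x⟩ := x
        · change (none, 1 * x) = _
          rw [one_mul]
          rfl
        · rfl
      map_mul' := by
        intro g h
        funext x
        obtain ⟨_ | ω, x⟩ := x
        · change (none, g * h * x) = (none, g * (h * x))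
          rw [mul_assoc]
        · rfl }

/-- the action of the free product -/
noncomputable def theta : Monoid.Coprod G (FreeGroup Ω) →* Equiv.Perm (Option Ω × G) :=
  Monoid.Coprod.lift lftHom (FreeGroup.lift (swp G))

theorem theta_inl (g : G) (x : Option Ω × G) : theta (inl g) x = lft g x := rfl

open Classical in
theorem theta_inr (ω : Ω) (x : Option Ω × G) :
    theta (inr (FreeGroup.of ω)) x = (Equiv.swap none (some ω) x.1, x.2) := by
  unfold theta
  rw [lift_apply_inr, FreeGroup.lift_apply_of]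
  rfl

open Classical in
theorem theta_inr_inv (ω : Ω) (x : Option Ω × G) :
    theta ((inr (FreeGroup.of ω) : Monoid.Coprod G (FreeGroup Ω))⁻¹) x =
      (Equiv.swap none (some ω) x.1, x.2) := by
  unfold theta
  rw [map_inv, lift_apply_inr, FreeGroup.lift_apply_of]
  rfl

theorem theta_yg_some (ω ρ : Ω) (g x : G) : theta (yg ω ρ g) (some ρ, x) = (some ω, g * x) := by
  classical
  unfold yg
  rw [map_mul, map_mul, Equiv.Perm.mul_apply, Equiv.Perm.mul_apply, theta_inr_inv, theta_inr,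
    theta_inl]
  simp only [Equiv.swap_apply_right]
  change (Equiv.swap none (some ω) none, g * x) = _
  rw [Equiv.swap_apply_left]

theorem theta_yg_none (ω : Ω) (g x : G) : theta (yg ω ω g) (none, x) = (none, x) := by
  classical
  unfold yg
  rw [map_mul, map_mul, Equiv.Perm.mul_apply, Equiv.Perm.mul_apply, theta_inr_inv, theta_inr,
    theta_inl]
  simp only [Equiv.swap_apply_left]
  change (Equiv.swap none (some ω) (some ω), x) = _
  rw [Equiv.swap_apply_right]

theorem theta_yg_ne {ω ρ : Ω} (h : ρ ≠ ω) (g x : G) :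
    theta (yg ω ω g) (some ρ, x) = (some ρ, x) := by
  classical
  unfold yg
  rw [map_mul, map_mul, Equiv.Perm.mul_apply, Equiv.Perm.mul_apply, theta_inr_inv, theta_inr,
    theta_inl]
  have h1 : Equiv.swap (none : Option Ω) (some ω) (some ρ) = some ρ :=
    Equiv.swap_apply_of_ne_of_ne (by simp) (by simpa using h)
  simp only [h1]
  change (Equiv.swap none (some ω) (some ρ), x) = _
  rw [h1]

/-- the subgroup generated by the `y_ω F'_ω y_ω⁻¹` -/
def Hs (F' : Ω → Subgroup G) : Subgroup (Monoid.Coprod G (FreeGroup Ω)) :=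
  Subgroup.closure {x | ∃ ω, ∃ f ∈ F' ω, x = yg ω ω f}

/-- the permutations of the shape of the elements of `Hs` -/
def Ps (F' : Ω → Subgroup G) : Subgroup (Equiv.Perm (Option Ω × G)) where
  carrier := {σ | (∀ x, σ (none, x) = (none, x)) ∧ ∀ ω x, ∃ f ∈ F' ω, σ (some ω, x) =
    (some ω, f * x)}
  one_mem' := ⟨fun _ => rfl, fun ω x => ⟨1, (F' ω).one_mem, by rw [one_mul]; rfl⟩⟩
  mul_mem' := by
    rintro σ τ ⟨h1, h2⟩ ⟨h3, h4⟩
    refine ⟨fun x => ?_, fun ω x => ?_⟩
    · rw [Equiv.Perm.mul_apply, h3, h1]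
    · obtain ⟨f, hf, e⟩ := h4 ω x
      obtain ⟨f', hf', e'⟩ := h2 ω (f * x)
      exact ⟨f' * f, (F' ω).mul_mem hf' hf, by rw [Equiv.Perm.mul_apply, e, e', mul_assoc]⟩
  inv_mem' := by
    rintro σ ⟨h1, h2⟩
    refine ⟨fun x => ?_, fun ω x => ?_⟩
    · rw [Equiv.Perm.inv_eq_iff_eq, h1]
    · -- the preimage of `(some ω, x)`
      obtain ⟨⟨_ | ρ, y⟩, hy⟩ := σ.surjective (some ω, x)
      · rw [h1] at hy
        simp at hy
      · obtain ⟨f, hf, e⟩ := h2 ρ y
        rw [e] at hy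
        obtain ⟨h3, h4⟩ := Prod.ext_iff.1 hy
        simp only at h3 h4
        obtain rfl : ρ = ω := by simpa using h3
        refine ⟨f⁻¹, (F' ρ).inv_mem hf, ?_⟩
        rw [Equiv.Perm.inv_eq_iff_eq, ← h4, inv_mul_cancel_left, e]

theorem yg_mem_iff (F' : Ω → Subgroup G) (ω ρ : Ω) (g : G) :
    yg ω ρ g ∈ Hs F' ↔ ω = ρ ∧ g ∈ F' ρ := by
  constructor
  · intro h
    have h1 : Hs F' ≤ (Ps F').comap theta := by
      unfold Hs
      rw [Subgroup.closure_le]
      rintro _ ⟨κ, f, hf, rfl⟩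
      refine ⟨fun x => theta_yg_none κ f x, fun μ x => ?_⟩
      by_cases hμ : μ = κ
      · subst hμ
        exact ⟨f, hf, theta_yg_some μ μ f x⟩
      · exact ⟨1, (F' μ).one_mem, by rw [theta_yg_ne hμ, one_mul]⟩
    obtain ⟨-, h3⟩ := h1 h
    obtain ⟨f, hf, e⟩ := h3 ρ 1
    rw [theta_yg_some] at e
    obtain ⟨h4, h5⟩ := Prod.ext_iff.1 e
    simp only [Option.some.injEq, mul_one] at h4 h5
    exact ⟨h4, h5 ▸ hf⟩
  · rintro ⟨rfl, hg⟩
    exact Subgroup.subset_closure ⟨ω, g, hg, rfl⟩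

/-- the group of words -/
abbrev Gm (F' : Ω → Subgroup G) : Type (max v w) :=
  HNNExtension (Monoid.Coprod G (FreeGroup Ω)) (Hs F') (Hs F') (MulEquiv.refl _)

variable (F' : Ω → Subgroup G)

/-- the homomorphism to `G` -/
def pm : Gm F' →* G :=
  HNNExtension.lift (Monoid.Coprod.lift (MonoidHom.id G) 1) 1 (by
    intro a
    rw [one_mul, mul_one]
    rfl)

/-- the embedding of the base group -/
def ofm : Monoid.Coprod G (FreeGroup Ω) →* Gm F' := HNNExtension.of

/-- `1` for the side `true`, the stable letter for the side `false` -/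
def tb : Bool → Gm F'
  | true => 1
  | false => HNNExtension.t

theorem pm_yg (ω ρ : Ω) (g : G) : pm F' (ofm F' (yg ω ρ g)) = g := by
  unfold pm ofm
  rw [HNNExtension.lift_of]
  unfold yg
  rw [map_mul, map_mul, map_inv, lift_apply_inl, lift_apply_inr, lift_apply_inr]
  simp

theorem pm_tb (b : Bool) : pm F' (tb F' b) = 1 := by
  cases b
  · exact HNNExtension.lift_t _ _ _
  · exact map_one _

theorem tb_comm (b : Bool) {h : Monoid.Coprod G (FreeGroup Ω)} (hh : h ∈ Hs F') :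
    ofm F' h * tb F' b = tb F' b * ofm F' h := by
  cases b
  · exact HNNExtension.of_mul_t (A := Hs F') (B := Hs F') (φ := MulEquiv.refl _) ⟨h, hh⟩
  · change _ * 1 = 1 * _
    rw [mul_one, one_mul]

theorem tb_comm' (b : Bool) {h : Monoid.Coprod G (FreeGroup Ω)} (hh : h ∈ Hs F') :
    ofm F' h * (tb F' b)⁻¹ = (tb F' b)⁻¹ * ofm F' h := by
  have h1 := tb_comm F' b hh
  rw [eq_inv_mul_iff_mul_eq, ← mul_assoc, ← h1, mul_inv_cancel_right]

/-- the letter of side `b` over `g` -/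
def lam (b : Bool) (ω ρ : Ω) (g : G) : Gm F' := tb F' b * ofm F' (yg ω ρ g) * (tb F' b)⁻¹

/-- the element of the object group over `f` -/
def hat (ω : Ω) : G →* Gm F' where
  toFun f := ofm F' (yg ω ω f)
  map_one' := by rw [yg_one, map_one]
  map_mul' f g := by rw [← yg_mul, map_mul]

theorem hat_apply (ω : Ω) (f : G) : hat F' ω f = ofm F' (yg ω ω f) := rfl

theorem pm_hat (ω : Ω) (f : G) : pm F' (hat F' ω f) = f := pm_yg F' ω ω f

theorem pm_lam (b : Bool) (ω ρ : Ω) (g : G) : pm F' (lam F' b ω ρ g) = g := by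
  unfold lam
  rw [map_mul, map_mul, map_inv, pm_tb, pm_yg]
  simp

theorem hat_lam (b : Bool) {ω : Ω} (ρ : Ω) {f : G} (hf : f ∈ F' ω) (g : G) :
    hat F' ω f * lam F' b ω ρ g = lam F' b ω ρ (f * g) := by
  have h1 : yg ω ω f ∈ Hs F' := (yg_mem_iff F' ω ω f).2 ⟨rfl, hf⟩
  rw [hat_apply]
  unfold lam
  rw [← mul_assoc, ← mul_assoc, tb_comm F' b h1, mul_assoc (tb F' b), ← map_mul, yg_mul]

theorem lam_hat (b : Bool) (ω : Ω) {ρ : Ω} {f : G} (hf : f ∈ F' ρ) (g : G) :
    lam F' b ω ρ g * hat F' ρ f = lam F' b ω ρ (g * f) := by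
  have h1 : yg ρ ρ f ∈ Hs F' := (yg_mem_iff F' ρ ρ f).2 ⟨rfl, hf⟩
  rw [hat_apply]
  unfold lam
  rw [mul_assoc, ← tb_comm' F' b h1, ← mul_assoc, mul_assoc (tb F' b), ← map_mul, yg_mul]

theorem lam_inv (b : Bool) (ω ρ : Ω) (g : G) :
    (lam F' b ω ρ g)⁻¹ = lam F' b ρ ω g⁻¹ := by
  unfold lam
  rw [mul_inv_rev, mul_inv_rev, inv_inv, ← map_inv, yg_inv, mul_assoc]

theorem lam_inv_mul (b : Bool) (ω ρ : Ω) {g g' : G} (h : g⁻¹ * g' ∈ F' ρ) :
    (lam F' b ω ρ g)⁻¹ * lam F' b ω ρ g' = hat F' ρ (g⁻¹ * g') := by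
  have h1 : yg ρ ρ (g⁻¹ * g') ∈ Hs F' := (yg_mem_iff F' ρ ρ _).2 ⟨rfl, h⟩
  rw [lam_inv]
  unfold lam
  rw [hat_apply, ← yg_mul ρ ω ρ, map_mul]
  have h2 : tb F' b * ofm F' (yg ρ ω g⁻¹) * (tb F' b)⁻¹ *
      (tb F' b * ofm F' (yg ω ρ g') * (tb F' b)⁻¹) =
      tb F' b * ofm F' (yg ρ ω g⁻¹ * yg ω ρ g') * (tb F' b)⁻¹ := by
    rw [map_mul]
    group
  rw [h2, yg_mul, ← tb_comm F' b h1, mul_inv_cancel_right, ← yg_mul ρ ω ρ, map_mul]

end

end Pool.Agent.UP.Lim
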