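import Mathlib
import Pool.Agent.Lib.UP.LimG

/-!
# TANK UP, limits: the system over the group of words
-/

set_option autoImplicit false

namespace Pool.Agent.UP.Lim

open Pool.Agent.Lib.MP_98022b_UM Pool.Agent.Lib.MP_98022b_UN

universe u v w

section
variable {Ω : Type w} {G : Type v} [Group G] (E : BSys Ω G) (F' : Ω → Subgroup G)

/-- the system over the group of words -/
def sysm (hF : ∀ ω, F' ω ≤ E.F ω) : BSys Ω (Gm F') where
  F ω := (F' ω).map (hat F' ω)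
  S b ω ρ := {x | ∃ g ∈ E.S b ω ρ, x = lam F' b ω ρ g}
  left' := by
    rintro b ω ρ _ _ ⟨f, hf, rfl⟩ ⟨g, hg, rfl⟩
    exact ⟨f * g, E.left' (hF ω hf) hg, hat_lam F' b ρ hf g⟩
  inv' := by
    rintro b ω ρ _ ⟨g, hg, rfl⟩
    exact ⟨g⁻¹, E.inv' hg, lam_inv F' b ω ρ g⟩

variable {E F'}

theorem sysm_noInv (hF : ∀ ω, F' ω ≤ E.F ω) (hN : E.NoInv) : (sysm E F' hF).NoInv := by
  rintro b ω _ ⟨g, hg, rfl⟩ h
  refine hN b ω g hg ?_
  have h1 := congrArg (pm F') h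
  rwa [map_inv, pm_lam] at h1

/-- letters are not in the subgroup which is centralised by the stable letter -/
theorem not_mem_Hs (hF : ∀ ω, F' ω ≤ E.F ω) (hN : E.NoInv) {b : Bool} {ω ρ : Ω} {g : G}
    (hg : g ∈ E.S b ω ρ) : yg ω ρ g ∉ Hs F' := by
  intro h
  obtain ⟨rfl, h1⟩ := (yg_mem_iff F' ω ρ g).1 h
  have h2 : (1 : G) ∈ E.S b ω ω := by
    have h3 := E.left' ((E.F ω).inv_mem (hF ω h1)) hg
    rwa [inv_mul_cancel] at h3
  exact hN b ω 1 h2 inv_one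

/-- the exponent of the stable letter after a letter of side `b` -/
def ex : Bool → ℤˣ
  | true => 1
  | false => -1

/-- the exponents of a word with `m + 1` letters -/
def alt : ℕ → Bool → List ℤˣ
  | 0, _ => []
  | m + 1, b => ex b :: alt m (!b)

theorem tb_inv_mul (b : Bool) :
    (tb F' b)⁻¹ * tb F' (!b) = HNNExtension.t ^ ((ex b : ℤˣ) : ℤ) := by
  cases b
  · change HNNExtension.t⁻¹ * 1 = HNNExtension.t ^ ((-1 : ℤˣ) : ℤ)
    simp
  · change 1⁻¹ * HNNExtension.t = HNNExtension.t ^ ((1 : ℤˣ) : ℤ)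
    simp

/-- prefixing a letter to a reduced word -/
theorem exists_cons (hF : ∀ ω, F' ω ≤ E.F ω) (hN : E.NoInv) {b : Bool} {ω ρ κ : Ω} {g g' : G}
    (hg' : g' ∈ E.S (!b) ρ κ) (w : HNNExtension.NormalWord.ReducedWord
      (Monoid.Coprod G (FreeGroup Ω)) (Hs F') (Hs F')) (hw : w.head = yg ρ κ g') :
    ∃ w' : HNNExtension.NormalWord.ReducedWord (Monoid.Coprod G (FreeGroup Ω)) (Hs F') (Hs F'),
      w'.head = yg ω ρ g ∧ w'.toList.map Prod.fst = ex b :: w.toList.map Prod.fst ∧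
      lam F' b ω ρ g * (tb F' (!b) * w.prod (MulEquiv.refl _)) =
        tb F' b * w'.prod (MulEquiv.refl _) := by
  refine ⟨⟨yg ω ρ g, (ex b, w.head) :: w.toList, ?_⟩, rfl, rfl, ?_⟩
  · rw [List.isChain_cons]
    refine ⟨fun y _ hy => ?_, w.chain⟩
    exfalso
    have h1 : w.head ∈ Hs F' := by
      have h2 : HNNExtension.toSubgroup (Hs F') (Hs F') (ex b) = Hs F' := by
        cases b
        · rfl
        · rfl
      exact (SetLike.ext_iff.1 h2 _).1 hy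
    rw [hw] at h1
    exact not_mem_Hs hF hN hg' h1
  · unfold lam HNNExtension.NormalWord.ReducedWord.prod
    rw [List.map_cons, List.prod_cons, ← tb_inv_mul]
    simp only [mul_assoc]
    rfl

theorem exists_word (hF : ∀ ω, F' ω ≤ E.F ω) (hN : E.NoInv) (m : ℕ) : ∀ (b : Bool) (ω ω' : Ω)
    (x : Gm F'), x ∈ (sysm E F' hF).W (m + 1) b ω ω' →
    ∃ (κ : Ω) (g : G) (w : HNNExtension.NormalWord.ReducedWord (Monoid.Coprod G (FreeGroup Ω))
      (Hs F') (Hs F')), g ∈ E.S b ω κ ∧ w.head = yg ω κ g ∧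
      w.toList.map Prod.fst = alt m b ∧
      x = tb F' b * w.prod (MulEquiv.refl _) * (tb F' (par m b))⁻¹ := by
  induction m with
  | zero =>
    rintro b ω ω' x ⟨ρ, s, ⟨g, hg, rfl⟩, t, ⟨⟨f, hf, rfl⟩, rfl⟩, rfl⟩
    refine ⟨ρ, g * f, ⟨yg ω ρ (g * f), [], List.isChain_nil⟩, ?_, rfl, rfl, ?_⟩
    · exact E.right' hg (hF ρ hf)
    · rw [lam_hat F' b ω hf]
      unfold HNNExtension.NormalWord.ReducedWord.prod
      rw [List.map_nil, List.prod_nil, mul_one]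
      rfl
  | succ m ih =>
    rintro b ω ω' x ⟨ρ, s, ⟨g, hg, rfl⟩, t, ht, rfl⟩
    obtain ⟨κ, g', w, hg', hw, hw', rfl⟩ := ih (!b) ρ ω' t ht
    obtain ⟨w', h1, h2, h3⟩ := exists_cons hF hN (ω := ω) (g := g) hg' w hw
    refine ⟨ρ, g, w', hg, h1, ?_, ?_⟩
    · rw [h2, hw']
      rfl
    · rw [← h3]
      change _ = _ * (tb F' (par m (!b)))⁻¹
      simp only [mul_assoc]

theorem sysm_geo (hF : ∀ ω, F' ω ≤ E.F ω) (hN : E.NoInv) : (sysm E F' hF).Geo := by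
  rintro m b ω ω' ρ ρ' _ _ t t' ⟨g, hg, rfl⟩ ht ⟨g', hg', rfl⟩ ht' e
  cases m with
  | zero =>
    obtain ⟨⟨f, hf, rfl⟩, h1⟩ := ht
    obtain ⟨⟨f', hf', rfl⟩, h2⟩ := ht'
    subst h1
    subst h2
    refine ⟨rfl, f * f'⁻¹, (F' ρ').mul_mem hf ((F' ρ').inv_mem hf'), ?_⟩
    rw [map_mul, map_inv, eq_inv_mul_iff_mul_eq, ← mul_assoc, e, mul_inv_cancel_right]
  | succ m =>
    obtain ⟨κ, h, w, hh, hw, hw', rfl⟩ := exists_word hF hN m (!b) ρ ω' t ht
    obtain ⟨κ', h', w2, hh', hw2, hw2', rfl⟩ := exists_word hF hN m (!b) ρ' ω' t' ht'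
    obtain ⟨v, hv1, hv2, hv3⟩ := exists_cons hF hN (ω := ω) (g := g) hh w hw
    obtain ⟨v', hv1', hv2', hv3'⟩ := exists_cons hF hN (ω := ω) (g := g') hh' w2 hw2
    have h1 : v.prod (MulEquiv.refl _) = v'.prod (MulEquiv.refl _) := by
      have h2 : tb F' b * v.prod (MulEquiv.refl _) * (tb F' (par m (!b)))⁻¹ =
          tb F' b * v'.prod (MulEquiv.refl _) * (tb F' (par m (!b)))⁻¹ := by
        rw [← hv3, ← hv3']
        simp only [mul_assoc] at e ⊢
        exact e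
      exact mul_left_cancel (mul_right_cancel h2)
    obtain ⟨-, h2⟩ := HNNExtension.ReducedWord.map_fst_eq_and_of_prod_eq (MulEquiv.refl _) h1
    have h3 : v.head⁻¹ * v'.head ∈ Hs F' := by
      have h4 := h2 (ex b) (by
        rw [← List.head?_map, hv2]
        rfl)
      have h5 : HNNExtension.toSubgroup (Hs F') (Hs F') (-(ex b)) = Hs F' := by
        cases b
        · rfl
        · rfl
      rw [h5] at h4
      exact h4
    rw [hv1, hv1', yg_inv, yg_mul, yg_mem_iff] at h3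
    obtain ⟨rfl, h4⟩ := h3
    exact ⟨rfl, g⁻¹ * g', h4, (lam_inv_mul F' b ω ρ h4).symm⟩

end

end Pool.Agent.UP.Lim
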