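import Mathlib
import Pool.Agent.Lib.UP.LimE
import Pool.Agent.Lib.MP_98022b_UM.OnL
import Pool.Agent.Lib.MP_98022b_UN.E1

/-!
# TANK UP, limits: forms over the group of words
-/

set_option autoImplicit false

open MonoidAlgebra

namespace Pool.Agent.UP.Lim

open Pool.Agent.Lib.MP_98022b_UM Pool.Agent.Lib.MP_98022b_UN

universe u v w

section
variable {A : Type u} [CommRing A]

theorem supp_mapDomain {H L : Type*} {f : H → L} {x : MonoidAlgebra A H} {l : L}
    (h : (mapDomain f x).coeff l ≠ 0) : ∃ g, x.coeff g ≠ 0 ∧ f g = l := by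
  classical
  rw [coeff_mapDomain] at h
  have h1 := Finsupp.mapDomain_support (Finsupp.mem_support_iff.2 h)
  obtain ⟨g, hg, e⟩ := Finset.mem_image.1 h1
  exact ⟨g, Finsupp.mem_support_iff.1 hg, e⟩

theorem mapDomain_mapDomain {H L N : Type*} (f : H → L) (g : L → N) (x : MonoidAlgebra A H) :
    mapDomain g (mapDomain f x) = mapDomain (fun y => g (f y)) x := by
  induction x using MonoidAlgebra.induction_linear with
  | zero => simp only [mapDomain_zero]
  | add x y hx hy => rw [mapDomain_add, mapDomain_add, hx, hy, mapDomain_add]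
  | single h a => simp only [mapDomain_single]

theorem mapDomain_self {H : Type*} (x : MonoidAlgebra A H) : mapDomain (fun y => y) x = x := by
  induction x using MonoidAlgebra.induction_linear with
  | zero => simp only [mapDomain_zero]
  | add x y hx hy => rw [mapDomain_add, hx, hy]
  | single h a => simp only [mapDomain_single]

theorem wM_map {H : Type v} {L : Type w} [Group H] [Group L] (φ : MonoidAlgebra A H →+* MonoidAlgebra A L)
    {K : Type} [Fintype K] [DecidableEq K] (M : Bool → Matrix K K (MonoidAlgebra A H)) (m : ℕ)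
    (b : Bool) : (wM M m b).map φ = wM (fun b => (M b).map φ) m b := by
  induction m generalizing b with
  | zero =>
    rw [wM_zero, wM_zero]
    exact Matrix.map_one φ (map_zero φ) (map_one φ)
  | succ m ih => rw [wM_succ, wM_succ, Matrix.map_mul, ih]

end

section
variable {A : Type u} [CommRing A] [StarRing A] {G : Type v} [Group G]

theorem barw_map {L : Type w} [Group L] (χ : G →* ℤˣ) (f : L →* G) (x : MonoidAlgebra A L) :
    mapDomain f (barw (χ.comp f) x) = barw χ (mapDomain f x) := by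
  induction x using MonoidAlgebra.induction_linear with
  | zero => simp only [barw_zero, mapDomain_zero]
  | add x y hx hy => rw [barw_add, mapDomain_add, hx, hy, mapDomain_add, barw_add]
  | single h a =>
    rw [barw_single, mapDomain_single, mapDomain_single, barw_single, map_inv,
      MonoidHom.comp_apply]

variable {Ω : Type w} (F' : Ω → Subgroup G)

theorem barw_lam (χ : G →* ℤˣ) (b : Bool) (ω ρ : Ω) (x : MonoidAlgebra A G) :
    barw (χ.comp (pm F')) (mapDomain (lam F' b ω ρ) x) =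
      mapDomain (lam F' b ρ ω) (barw χ x) := by
  induction x using MonoidAlgebra.induction_linear with
  | zero => rw [barw_zero, mapDomain_zero, mapDomain_zero, barw_zero]
  | add x y hx hy => rw [barw_add, mapDomain_add, barw_add, hx, hy, mapDomain_add]
  | single h a =>
    rw [barw_single, mapDomain_single, mapDomain_single, barw_single, lam_inv,
      MonoidHom.comp_apply, pm_lam]

end

section
variable {A : Type u} [CommRing A] {G : Type v} [Group G] {Ω : Type w} (F' : Ω → Subgroup G)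
  {K : Type} (t : K → Ω) (M : Bool → Matrix K K (MonoidAlgebra A G))

/-- the lift of the matrices of a form -/
noncomputable def liftM (b : Bool) : Matrix K K (MonoidAlgebra A (Gm F')) :=
  fun i j => mapDomain (lam F' b (t i) (t j)) (M b i j)

/-- words in the lifts of the supports of the entries -/
def Pw : ℕ → Bool → K → K → Set (Gm F')
  | 0, _, k, j => {x | x = 1 ∧ k = j}
  | m + 1, b, k, j => {x | ∃ l, ∃ g, (M b k l).coeff g ≠ 0 ∧ ∃ u ∈ Pw m (!b) l j,
      x = lam F' b (t k) (t l) g * u}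

theorem pm_lift (b : Bool) (i j : K) : mapDomain (pm F') (liftM F' t M b i j) = M b i j := by
  unfold liftM
  rw [mapDomain_mapDomain]
  simp only [pm_lam]
  exact mapDomain_self _

variable [Fintype K] [DecidableEq K]

theorem wM_lift_supp (m : ℕ) (b : Bool) (k j : K) (x : Gm F')
    (hx : (wM (liftM F' t M) m b k j).coeff x ≠ 0) : x ∈ Pw F' t M m b k j := by
  induction m generalizing b k x with
  | zero =>
    rw [wM_zero] at hx
    by_cases hkj : k = j
    · subst hkj
      rw [Matrix.one_apply_eq] at hx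
      exact ⟨OnAux.supp_one hx, rfl⟩
    · rw [Matrix.one_apply_ne hkj] at hx
      exact absurd rfl hx
  | succ m ih =>
    rw [wM_succ, Matrix.mul_apply] at hx
    obtain ⟨l, -, hl⟩ := OnAux.supp_sum hx
    obtain ⟨y, z, hy, hz, rfl⟩ := OnAux.supp_mul hl
    obtain ⟨g, hg, rfl⟩ := supp_mapDomain hy
    exact ⟨l, g, hg, z, ih (!b) l z hz, rfl⟩

end

section
variable {A : Type u} [CommRing A] {G : Type v} [Group G] {Ω : Type w} {E : BSys Ω G}
  {F' : Ω → Subgroup G} {K : Type} {t : K → Ω} {M : Bool → Matrix K K (MonoidAlgebra A G)}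

theorem pm_Pw (hM : ∀ b, OnS E b t t (M b)) (m : ℕ) (b : Bool) (k j : K) (x : Gm F')
    (hx : x ∈ Pw F' t M m b k j) : pm F' x ∈ E.W m b (t k) (t j) := by
  induction m generalizing b k x with
  | zero =>
    obtain ⟨rfl, rfl⟩ := hx
    rw [map_one]
    exact ⟨(E.F _).one_mem, rfl⟩
  | succ m ih =>
    obtain ⟨l, g, hg, u, hu, rfl⟩ := hx
    rw [map_mul, pm_lam]
    exact ⟨t l, g, hM b k l g hg, pm F' u, ih (!b) l u hu, rfl⟩

/-- finitely many elements of the object groups compare all words of length `m` -/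
theorem exists_cmp [Finite K] (hG : E.Geo) (hM : ∀ b, OnS E b t t (M b)) (m : ℕ) :
    ∀ D : Set (Ω × G), D.Finite → ∃ Φ : Set (Ω × G), Φ.Finite ∧ (∀ p ∈ Φ, p.2 ∈ E.F p.1) ∧
    ∀ F' : Ω → Subgroup G, (∀ p ∈ Φ, p.2 ∈ F' p.1) → ∀ (b : Bool) (k k' j : K), t k = t k' →
      ∀ f : G, (t k, f) ∈ D → f ∈ E.F (t k) → ∀ u ∈ Pw F' t M m b k j,
      ∀ v ∈ Pw F' t M m b k' j, pm F' u = f * pm F' v → u = hat F' (t k) f * v := by
  classical
  have := Fintype.ofFinite K
  induction m with
  | zero =>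
    intro D _
    refine ⟨∅, Set.finite_empty, fun p hp => absurd hp (Set.notMem_empty p), ?_⟩
    rintro F' - b k k' j _ f _ _ u ⟨rfl, _⟩ v ⟨rfl, _⟩ e
    rw [map_one, mul_one] at e
    rw [← e, map_one, mul_one]
  | succ m ih =>
    intro D hD
    -- the group elements in the supports
    let T : Set G := ⋃ (b : Bool), ⋃ (i : K), ⋃ (j : K), {g | (M b i j).coeff g ≠ 0}
    have hT : T.Finite := by
      refine Set.finite_iUnion fun b => Set.finite_iUnion fun i => Set.finite_iUnion fun j => ?_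
      refine (M b i j).coeff.support.finite_toSet.subset fun g hg => ?_
      exact Finset.mem_coe.2 (Finsupp.mem_support_iff.2 hg)
    have hTm : ∀ (b : Bool) (i j : K) (g : G), (M b i j).coeff g ≠ 0 → g ∈ T := by
      intro b i j g hg
      exact Set.mem_iUnion.2 ⟨b, Set.mem_iUnion.2 ⟨i, Set.mem_iUnion.2 ⟨j, hg⟩⟩⟩
    let D1 : Set (Ω × G) := (fun q : K × (G × G) × (Ω × G) =>
      (t q.1, q.2.1.1⁻¹ * (q.2.2.2 * q.2.1.2))) '' (Set.univ ×ˢ ((T ×ˢ T) ×ˢ D))
    have hD1 : D1.Finite := (Set.finite_univ.prod ((hT.prod hT).prod hD)).image _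
    obtain ⟨Φ, hΦ1, hΦ2, hΦ3⟩ := ih D1 hD1
    refine ⟨Φ ∪ {p | p ∈ D1 ∧ p.2 ∈ E.F p.1} ∪ {p | p ∈ D ∧ p.2 ∈ E.F p.1}, ?_, ?_, ?_⟩
    · exact (hΦ1.union (hD1.subset fun p hp => hp.1)).union (hD.subset fun p hp => hp.1)
    · rintro p ((hp | hp) | hp)
      · exact hΦ2 p hp
      · exact hp.2
      · exact hp.2
    · intro F' hF' b k k' j hk f hfD hfE u hu v hv e
      obtain ⟨l, g, hg, u', hu', rfl⟩ := hu
      obtain ⟨l', g', hg', v', hv', rfl⟩ := hv
      rw [map_mul, map_mul, pm_lam, pm_lam, ← mul_assoc] at e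
      have h1 : g ∈ E.S b (t k) (t l) := hM b k l g hg
      have h2 : f * g' ∈ E.S b (t k) (t l') := by
        refine E.left' hfE ?_
        rw [hk]
        exact hM b k' l' g' hg'
      obtain ⟨h3, h4⟩ := hG m b (t k) (t j) (t l) (t l') g (f * g') (pm F' u') (pm F' v') h1
        (pm_Pw hM m (!b) l j u' hu') h2 (pm_Pw hM m (!b) l' j v' hv') e
      have h5 : (t l, g⁻¹ * (f * g')) ∈ D1 :=
        ⟨(l, (g, g'), (t k, f)), ⟨Set.mem_univ _, ⟨hTm b k l g hg, hTm b k' l' g' hg'⟩, hfD⟩, rfl⟩
      have h6 : pm F' u' = g⁻¹ * (f * g') * pm F' v' := by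
        rw [mul_assoc, ← e, inv_mul_cancel_left]
      have h7 : u' = hat F' (t l) (g⁻¹ * (f * g')) * v' :=
        hΦ3 F' (fun p hp => hF' p (Or.inl (Or.inl hp))) (!b) l l' j h3 _ h5 h4 u' hu' v' hv' h6
      have h8 : g⁻¹ * (f * g') ∈ F' (t l) := hF' (t l, g⁻¹ * (f * g')) (Or.inl (Or.inr ⟨h5, h4⟩))
      have h9 : f ∈ F' (t k) := hF' (t k, f) (Or.inr ⟨hfD, hfE⟩)
      rw [h7, ← mul_assoc, lam_hat F' b (t k) h8, mul_inv_cancel_left, ← mul_assoc, ← hk, ← h3,
        hat_lam F' b (t l) h9]

/-- the lift of a nilpotent pair is nilpotent, provided the subgroups are large enough -/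
theorem exists_nil [Fintype K] [DecidableEq K] (hG : E.Geo) (hM : ∀ b, OnS E b t t (M b))
    (hnil : ∃ N : ℕ, (M true * M false) ^ N = 0) :
    ∃ Φ : Set (Ω × G), Φ.Finite ∧ (∀ p ∈ Φ, p.2 ∈ E.F p.1) ∧
    ∀ F' : Ω → Subgroup G, (∀ p ∈ Φ, p.2 ∈ F' p.1) →
      ∃ N : ℕ, (liftM F' t M true * liftM F' t M false) ^ N = 0 := by
  classical
  obtain ⟨N, hN⟩ := wM_nil hnil
  obtain ⟨Φ, hΦ1, hΦ2, hΦ3⟩ := exists_cmp hG hM N (Set.range fun k : K => (t k, (1 : G)))
    (Set.finite_range _)
  refine ⟨Φ, hΦ1, hΦ2, fun F' hF' => ?_⟩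
  have hw : ∀ b, wM (liftM F' t M) N b = 0 := by
    intro b
    funext k j
    have h1 : mapDomain (pm F') (wM (liftM F' t M) N b k j) = 0 := by
      have h2 := wM_map (mapDomainRingHom A (pm F')) (liftM F' t M) N b
      have h3 : (fun b => (liftM F' t M b).map (mapDomainRingHom A (pm F'))) = M := by
        funext b i j
        exact pm_lift F' t M b i j
      rw [h3, hN] at h2
      exact congrFun (congrFun h2 k) j
    have h2 : Set.InjOn (pm F') (Pw F' t M N b k j) := by
      intro x hx y hy e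
      have h3 := hΦ3 F' hF' b k k j rfl 1 ⟨k, rfl⟩ (E.F _).one_mem x hx y hy (by rw [one_mul, e])
      rwa [map_one, one_mul] at h3
    have h3 := Finsupp.mapDomain_injOn (M := A) _ h2
    have h4 : (wM (liftM F' t M) N b k j).coeff = 0 := by
      refine h3 ?_ ?_ ?_
      · intro x hx
        exact wM_lift_supp F' t M N b k j x (Finsupp.mem_support_iff.1 (Finset.mem_coe.1 hx))
      · intro x hx
        simp at hx
      · rw [← coeff_mapDomain, h1, Finsupp.mapDomain_zero]
        rfl
    ext x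
    rw [h4]
    rfl
  have htwo : ∀ n : ℕ, wM (liftM F' t M) (2 * n) true =
      (liftM F' t M true * liftM F' t M false) ^ n := by
    intro n
    induction n with
    | zero => rw [mul_zero, wM_zero, pow_zero]
    | succ n ih =>
      rw [show 2 * (n + 1) = 2 * n + 1 + 1 by ring, wM_succ, wM_succ, pow_succ', ← ih,
        Matrix.mul_assoc]
      rfl
  refine ⟨N, ?_⟩
  rw [← htwo, two_mul, wM_add, hw, Matrix.zero_mul]

end

end Pool.Agent.UP.Lim
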