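import Mathlib
import Pool.Agent.Lib.UP.LimL

/-!
# TANK UP, limits: it suffices to have finitely generated object groups, finitely many of them
nontrivial
-/

set_option autoImplicit false

open MonoidAlgebra

namespace Pool.Agent.UP.Lim

open Pool.Agent.Lib.MP_98022b_UM Pool.Agent.Lib.MP_98022b_UN

universe u v w

section
variable {A : Type u} [CommRing A] {G : Type v} [Group G] {Ω : Type w}
  {E : BSys Ω G} {F' : Ω → Subgroup G} (hF : ∀ ω, F' ω ≤ E.F ω)

/-- the ring homomorphism to `A[G]` -/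
noncomputable def pmA (A : Type u) [CommRing A] (F' : Ω → Subgroup G) :
    MonoidAlgebra A (Gm F') →+* MonoidAlgebra A G := mapDomainRingHom A (pm F')

theorem pmA_apply (x : MonoidAlgebra A (Gm F')) : pmA A F' x = mapDomain (pm F') x := rfl

theorem push_on0 {I J : Type} {s : I → Ω} {t : J → Ω} {M : Matrix I J (MonoidAlgebra A (Gm F'))}
    (h : On0 (sysm E F' hF) s t M) : On0 E s t (M.map (pmA A F')) := by
  intro i j g hg
  obtain ⟨x, hx, rfl⟩ := supp_mapDomain hg
  obtain ⟨⟨f, hf, rfl⟩, h2⟩ := h i j x hx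
  rw [pm_hat]
  exact ⟨hF _ hf, h2⟩

theorem push_onS {b : Bool} {I J : Type} {s : I → Ω} {t : J → Ω}
    {M : Matrix I J (MonoidAlgebra A (Gm F'))} (h : OnS (sysm E F' hF) b s t M) :
    OnS E b s t (M.map (pmA A F')) := by
  intro i j g hg
  obtain ⟨x, hx, rfl⟩ := supp_mapDomain hg
  obtain ⟨f, hf, rfl⟩ := h i j x hx
  rw [pm_lam]
  exact hf

theorem push_pow {K : Type} [Fintype K] [DecidableEq K] (M : Matrix K K (MonoidAlgebra A (Gm F')))
    (N : ℕ) : (M ^ N).map (pmA A F') = (M.map (pmA A F')) ^ N := by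
  exact map_pow (pmA A F').mapMatrix M N

variable [StarRing A] {χ : G →* ℤˣ} {ε : ℤ}

theorem lift_is {K : Type} [Fintype K] [DecidableEq K] {t : K → Ω}
    {M : Bool → Matrix K K (MonoidAlgebra A G)} (hM : IsBF E (barStr χ) ε t M)
    (hnil : ∃ N : ℕ, (liftM F' t M true * liftM F' t M false) ^ N = 0) :
    IsBF (sysm E F' hF) (barStr (χ.comp (pm F'))) ε t (liftM F' t M) := by
  refine ⟨?_, ?_, hnil⟩
  · intro b i j x hx
    obtain ⟨g, hg, rfl⟩ := supp_mapDomain hx
    exact ⟨g, hM.on b i j g hg, rfl⟩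
  · intro b
    funext i j
    have h1 := congrFun (congrFun (hM.sym b) i) j
    change barw χ (M b j i) = ε • M b i j at h1
    change barw (χ.comp (pm F')) (mapDomain (lam F' b (t j) (t i)) (M b j i)) =
      ε • mapDomain (lam F' b (t i) (t j)) (M b i j)
    rw [barw_lam, h1]
    exact map_zsmul (AddMonoidHom.mk' (mapDomain (lam F' b (t i) (t j))) (mapDomain_add _)) ε
      (M b i j)

theorem push_adj {I J : Type} (M : Matrix I J (MonoidAlgebra A (Gm F'))) :
    (adj (barStr (χ.comp (pm F'))) M).map (pmA A F') = adj (barStr χ) (M.map (pmA A F')) := by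
  funext j i
  exact barw_map χ (pm F') (M i j)

theorem push_is {K : Type} [Fintype K] [DecidableEq K] {t : K → Ω}
    {M : Bool → Matrix K K (MonoidAlgebra A (Gm F'))}
    (h : IsBF (sysm E F' hF) (barStr (χ.comp (pm F'))) ε t M) :
    IsBF E (barStr χ) ε t (fun b => (M b).map (pmA A F')) := by
  refine ⟨fun b => push_onS hF (h.on b), fun b => ?_, ?_⟩
  · rw [← push_adj, h.sym b]
    funext i j
    exact map_zsmul (pmA A F') ε (M b i j)
  · obtain ⟨N, hN⟩ := h.nil
    refine ⟨N, ?_⟩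
    rw [← Matrix.map_mul, ← push_pow, hN]
    exact Matrix.map_zero _ (map_zero _)

theorem push_metab {K : Type} [Fintype K] [DecidableEq K] {t : K → Ω}
    {M : Bool → Matrix K K (MonoidAlgebra A (Gm F'))}
    (h : MetabP (sysm E F' hF) (barStr (χ.comp (pm F'))) t M) :
    MetabP E (barStr χ) t (fun b => (M b).map (pmA A F')) := by
  obtain ⟨Q, h1, h2, h3, h4⟩ := h
  have e1 : (1 - Q).map (pmA A F') = 1 - Q.map (pmA A F') := by
    rw [Matrix.map_sub _ (map_sub _)]
    rw [Matrix.map_one _ (map_zero _) (map_one _)]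
  refine ⟨Q.map (pmA A F'), push_on0 hF h1, ?_, ?_, ?_⟩
  · rw [← Matrix.map_mul, h2]
  · rw [← push_adj, ← Matrix.map_mul, ← Matrix.map_mul, h3]
    exact Matrix.map_zero _ (map_zero _)
  · rw [← e1, ← push_adj, ← Matrix.map_mul, ← Matrix.map_mul, h4]
    exact Matrix.map_zero _ (map_zero _)

/-- if all forms over the systems of words with object groups `F'` are stably metabolic, for all
finitely generated `F' ω ≤ E.F ω` of which only finitely many are nontrivial, then so are the forms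
over the given system -/
theorem lim (hG : E.Geo) (X : BF E (barStr (A := A) χ) ε)
    (h : ∀ (F' : Ω → Subgroup G) (hF : ∀ ω, F' ω ≤ E.F ω), (∀ ω, (F' ω).FG) →
      {ω | F' ω ≠ ⊥}.Finite → ∀ X' : BF (sysm E F' hF) (barStr (A := A) (χ.comp (pm F'))) ε,
      X'.SMetab) : X.SMetab := by
  classical
  obtain ⟨Φ, hΦ1, hΦ2, hΦ3⟩ := exists_nil hG X.is.on X.is.nil
  -- the subgroups generated by the finitely many elements
  let F' : Ω → Subgroup G := fun ω => Subgroup.closure {g | (ω, g) ∈ Φ}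
  have hfin : ∀ ω, {g | (ω, g) ∈ Φ}.Finite := fun ω =>
    hΦ1.preimage (fun x _ y _ e => (Prod.ext_iff.1 e).2)
  have hF : ∀ ω, F' ω ≤ E.F ω := by
    intro ω
    rw [Subgroup.closure_le]
    intro g hg
    exact hΦ2 (ω, g) hg
  have hfg : ∀ ω, (F' ω).FG := fun ω => by
    rw [Subgroup.fg_iff]
    exact ⟨_, rfl, hfin ω⟩
  have hne : {ω | F' ω ≠ ⊥}.Finite := by
    refine (hΦ1.image Prod.fst).subset fun ω hω => ?_
    by_contra hc
    apply hω
    have h1 : {g | (ω, g) ∈ Φ} = ∅ := by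
      rw [Set.eq_empty_iff_forall_notMem]
      intro g hg
      exact hc ⟨(ω, g), hg, rfl⟩
    change Subgroup.closure {g | (ω, g) ∈ Φ} = ⊥
    rw [h1, Subgroup.closure_empty]
  have hnil := hΦ3 F' (fun p hp => Subgroup.subset_closure hp)
  let X' : BF (sysm E F' hF) (barStr (A := A) (χ.comp (pm F'))) ε :=
    { K := X.K, t := X.t, M := liftM F' X.t X.M, is := lift_is hF X.is hnil }
  obtain ⟨Y, hY, hXY⟩ := h F' hF hfg hne X'
  refine ⟨{ K := Y.K, t := Y.t, M := fun b => (Y.M b).map (pmA A F'), is := push_is hF Y.is },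
    push_metab hF hY, ?_⟩
  have h1 := push_metab hF hXY
  have h2 : (fun b => (Matrix.fromBlocks (X'.M b) 0 0 (Y.M b)).map (pmA A F')) =
      fun b => Matrix.fromBlocks (X.M b) 0 0 ((Y.M b).map (pmA A F')) := by
    funext b
    have h3 : (X'.M b).map (pmA A F') = X.M b := by
      funext i j
      exact pm_lift F' X.t X.M b i j
    rw [Matrix.fromBlocks_map, h3, Matrix.map_zero _ (map_zero _), Matrix.map_zero _ (map_zero _)]
  rw [h2] at h1
  exact h1

/-- from a class of groups with a bound to the class without a bound -/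
theorem lim_cls {P : ℕ → (H : Type v) → [Group H] → Prop}
    (hmono : ∀ {d e : ℕ} (H : Type v) [Group H], d ≤ e → P d H → P e H)
    (hinj : ∀ {d : ℕ} {H K : Type v} [Group H] [Group K] (f : K →* H), Function.Injective f →
      P d H → P d K)
    (hmain : ∀ (d : ℕ) (Ω G : Type v) [Group G] (E : BSys Ω G) (χ : G →* ℤˣ), E.Geo → E.NoInv →
      (∀ ω, ∀ H : Subgroup G, H ≤ E.F ω → H.FG → P d H) →
      ∀ X : BF E (barStr (A := A) χ) ε, X.SMetab)
    {Ω G : Type v} [Group G] {E : BSys Ω G} {χ : G →* ℤˣ} (hG : E.Geo) (hN : E.NoInv)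
    (hE : ∀ ω, ∀ H : Subgroup G, H ≤ E.F ω → H.FG → ∃ d, P d H)
    (X : BF E (barStr (A := A) χ) ε) : X.SMetab := by
  classical
  refine lim hG X fun F' hF hfg hfin X' => ?_
  choose d hd using fun ω => hE ω (F' ω) (hF ω) (hfg ω)
  -- the bound for the trivial group
  have h0 : ∃ d0, Nonempty Ω → ∀ (K : Type v) [Group K], Subsingleton K → P d0 K := by
    by_cases hΩ : Nonempty Ω
    · obtain ⟨ω⟩ := hΩ
      obtain ⟨d0, h⟩ := hE ω ⊥ bot_le Subgroup.FG.bot
      exact ⟨d0, fun _ K _ hK => hinj (1 : K →* (⊥ : Subgroup G))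
        (fun x y _ => hK.elim x y) h⟩
    · exact ⟨0, fun h => absurd h hΩ⟩
  obtain ⟨d0, h0⟩ := h0
  have h1 : ∀ ω, P (max d0 (hfin.toFinset.sup d)) (F' ω) := by
    intro ω
    by_cases hω : F' ω = ⊥
    · refine hmono _ (le_max_left _ _) (h0 ⟨ω⟩ (F' ω) ?_)
      rw [hω]
      infer_instance
    · refine hmono _ ((Finset.le_sup (f := d) ?_).trans (le_max_right _ _)) (hd ω)
      rw [Set.Finite.mem_toFinset]
      exact hω
  refine hmain (max d0 (hfin.toFinset.sup d)) Ω (Gm F') (sysm E F' hF) (χ.comp (pm F')) (sysm_geo hF hN) (sysm_noInv hF hN)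
    (fun ω H hH _ => ?_) X'
  have h2 : ∀ x ∈ H, pm F' x ∈ F' ω := by
    intro x hx
    obtain ⟨f, hf, rfl⟩ := hH hx
    rw [pm_hat]
    exact hf
  refine hinj (((pm F').comp H.subtype).codRestrict (F' ω) fun x => h2 x x.2) ?_ (h1 ω)
  intro x y e
  have h3 : pm F' x = pm F' y := congrArg Subtype.val e
  obtain ⟨f, hf, e1⟩ := hH x.2
  obtain ⟨f', hf', e2⟩ := hH y.2
  rw [← e1, ← e2, pm_hat, pm_hat] at h3
  apply Subtype.ext
  rw [← e1, ← e2, h3]

end

end Pool.Agent.UP.Lim
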