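import Mathlib
import Pool.Agent.Lib.UP.F10f
import Pool.Agent.Lib.UP.ClassVPF
import Pool.Agent.Lib.UP.Lim
import Pool.Agent.Lib.UP.FinalTree

/-!
# TANK UP, the main theorem for locally torsion-free and virtually (poly-Z)-by-free edge groups
-/

set_option autoImplicit false

open MonoidAlgebra

namespace Pool.Agent.UP

open Pool.Agent.Lib.MP_98022b_UM Pool.Agent.Lib.MP_98022b_UM.UF

universe u v w

/-- the main theorem for a class of groups which is closed under subgroups and whose finitely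
generated members have the facts -/
theorem main_cls {A : Type u} [CommRing A] [StarRing A]
    {P : ℕ → (H : Type v) → [Group H] → Prop}
    (hmono : ∀ {d e : ℕ} (H : Type v) [Group H], d ≤ e → P d H → P e H)
    (hinj : ∀ {d : ℕ} {H K : Type v} [Group H] [Group K] (f : K →* H), Function.Injective f →
      P d H → P d K)
    (hfacts : ∀ d : ℕ, ∃ g : ℕ, ∀ (H : Type v) [Group H], Group.FG H → P d H →
      Facts4 (MonoidAlgebra A H) g)
    {Ω G : Type v} [Group G] {E : BSys Ω G} {χ : G →* ℤˣ} {ε : ℤ} (hG : E.Geo) (hN : E.NoInv)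
    (hε : ε = 1 ∨ ε = -1)
    (hE : ∀ ω, ∀ H : Subgroup G, H ≤ E.F ω → H.FG → ∃ d, P d H)
    (X : BF E (Pool.Agent.Lib.MP_98022b_UN.barStr (A := A) χ) ε) : X.SMetab := by
  refine Lim.lim_cls (P := P) hmono hinj ?_ hG hN hE X
  intro d Ω G _ E χ hG hN hE X
  obtain ⟨g, hg⟩ := hfacts d
  exact main_facts4 hG hN hε (fun ω H h1 h2 =>
    hg H ((Group.fg_iff_subgroup_fg H).mpr h1) (hE ω H h2 h1)) X

/-- the main theorem for locally torsion-free and virtually (poly-`ℤ`)-by-free edge groups -/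
theorem main_vpf {A : Type u} [CommRing A] [StarRing A] [IsNoetherianRing A] (hA : AR A) {g : ℕ}
    (hg : FL A g) {Ω G : Type v} [Group G] {E : BSys Ω G} {χ : G →* ℤˣ} {ε : ℤ} (hG : E.Geo)
    (hN : E.NoInv) (hε : ε = 1 ∨ ε = -1)
    (hE : ∀ ω, ∀ H : Subgroup G, H ≤ E.F ω → H.FG → IsVPF H)
    (X : BF E (Pool.Agent.Lib.MP_98022b_UN.barStr (A := A) χ) ε) : X.SMetab := by
  refine main_cls (P := fun d H _ => VPFd d H) (fun H _ hde h => h.mono hde)
    (fun f hf h => h.of_injective f hf)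
    (fun d => ⟨g + d + 2, fun H _ hfg h => h.facts hA hg hfg⟩) hG hN hε ?_ X
  intro ω H h1 h2
  exact isVPF_iff.1 (hE ω H h1 h2)

/-- `A` has the vanishing property: let `G` act on a tree, let `{p, q}` be an edge which is not
inverted, such that the vertex groups `G_p` and `G_q` have no elements of order two, and such that
for some `k ≥ 1` all finitely generated subgroups of the stabilisers `G_u ∩ G_v` of the segments
`[u, v]` consisting of `k` translates of the edge `{p, q}` are torsion-free and virtually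
(poly-`ℤ`)-by-free.  Then every `ε`-quadratic UNil form of this edge over `A[G_p ∩ G_q]` becomes
metabolic after adding a metabolic form. -/
def UNilVanishesV (A : Type u) [CommRing A] [StarRing A] : Prop :=
  ∀ (G : Type v) [Group G] (V : Type w) [MulAction G V] (Γ : SimpleGraph V), Γ.IsTree →
    (∀ (g : G) (x y : V), Γ.Adj x y → Γ.Adj (g • x) (g • y)) →
    ∀ p q : V, Γ.Adj p q → (∀ g : G, ¬ (g • p = q ∧ g • q = p)) →
    (∀ g : G, g • p = p → g * g = 1 → g = 1) → (∀ g : G, g • q = q → g * g = 1 → g = 1) →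
    ∀ k : ℕ, 1 ≤ k →
    (∀ (u v : V) (W : Γ.Walk u v), W.IsPath → W.length = k →
      (∀ e ∈ W.edges, ∃ g : G, e = s(g • p, g • q)) → ∀ H : Subgroup G,
      H ≤ MulAction.stabilizer G u ⊓ MulAction.stabilizer G v → H.FG → IsVPF H) →
    ∀ (χ : G →* ℤˣ) (ε : ℤ), (ε = 1 ∨ ε = -1) → ∀ (n : Type) [Fintype n] [DecidableEq n]
      (x : QForm A χ ε p q n),
      ∃ (m : Type) (_ : Fintype m) (_ : DecidableEq m) (y : QForm A χ ε p q m)
        (z : QForm A χ ε p q (n ⊕ m)), y.Metabolic ∧ z.IsSum x y ∧ z.Metabolic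

/-- the final theorem -/
theorem unilV {A : Type u} [CommRing A] [IsDomain A] [IsNoetherianRing A] [StarRing A]
    (hA : AR A) {g : ℕ} (hg : FL A g) : UNilVanishesV.{u, v, w} A := by
  intro G _ V _ Γ hΓ hadj p q hpq hinv h2p h2q k hk hF χ ε hε n _ _ x
  refine main_of hΓ hadj hpq hinv h2p h2q k hk χ hε ?_ x
  intro Ω E hGeo hNo hst X
  refine main_vpf hA hg hGeo hNo hε (fun ω H hH hfg => ?_) X
  obtain ⟨u, v, W, hW1, hW2, hW3, hle⟩ := hst ω
  exact hF u v W hW1 hW2 hW3 H (hH.trans hle) hfg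

end Pool.Agent.UP
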