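import Mathlib
import Pool.Agent.Lib.UP.U2
import Pool.Agent.Lib.UP.U3
import Pool.Agent.Lib.UP.U13a

/-!
# The Auslander condition for factorial domains of global dimension at most two
-/

set_option autoImplicit false

namespace Pool.Agent.UP

universe u v

section general

variable {R : Type u} [Ring R]

/-- the complex without position `0` -/
def ufdShift (T : RC R) : RC R where
  ι k := T.ι (k + 1)
  D k := T.D (k + 1)
  DD k := T.DD (k + 1)

theorem ufd_shift_ex {T : RC R} (hT : ∀ k, T.Ex k) (k : ℕ) : (ufdShift T).Ex k := hT (k + 1)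

/-- splitting of a complex whose image at position `0` is projective -/
theorem ufd_split {T : RC R} (hT : ∀ k, T.Ex k)
    (h : ∃ M : Matrix (T.ι 1) (T.ι 1) R, M * T.D 0 = T.D 0 ∧ T.D 1 * M = 0) (k : ℕ) :
    ∃ H : Matrix (T.ι (k + 1)) (T.ι (k + 2)) R, T.D (k + 1) * H * T.D (k + 1) = T.D (k + 1) := by
  induction k with
  | zero =>
    obtain ⟨N, h1, h2⟩ := h
    obtain ⟨H, hH⟩ := U13a_factor (hT 0) (1 - N)
      (by rw [Matrix.sub_mul, Matrix.one_mul, h1, sub_self])
    refine ⟨H, ?_⟩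
    rw [Matrix.mul_assoc, ← hH, Matrix.mul_sub, Matrix.mul_one, h2, sub_zero]
  | succ k ih =>
    obtain ⟨H, hH⟩ := ih
    obtain ⟨H', hH'⟩ := U13a_factor (hT (k + 1)) (1 - T.D (k + 1) * H)
      (by rw [Matrix.sub_mul, Matrix.one_mul, hH, sub_self])
    refine ⟨H', ?_⟩
    rw [Matrix.mul_assoc, ← hH', Matrix.mul_sub, Matrix.mul_one, ← Matrix.mul_assoc, T.DD,
      Matrix.zero_mul, sub_zero]

theorem ufd_coex {T : RC R} (hT : ∀ k, T.Ex k)
    (h : ∃ M : Matrix (T.ι 1) (T.ι 1) R, M * T.D 0 = T.D 0 ∧ T.D 1 * M = 0) (k : ℕ) :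
    T.CoEx (k + 2) := by
  intro y hy
  obtain ⟨H, hH⟩ := ufd_split hT h k
  obtain ⟨H', hH'⟩ := U13a_factor (hT (k + 1)) (1 - T.D (k + 1) * H)
    (by rw [Matrix.sub_mul, Matrix.one_mul, hH, sub_self])
  refine ⟨Matrix.mulVec H y, ?_⟩
  have h1 : Matrix.mulVec (1 - T.D (k + 1) * H) y = 0 := by
    rw [hH', ← Matrix.mulVec_mulVec, hy, Matrix.mulVec_zero]
  rw [Matrix.sub_mulVec, Matrix.one_mulVec, sub_eq_zero] at h1
  rw [Matrix.mulVec_mulVec]
  exact h1.symm

theorem ufd_E_three [StarRing R] (h : FL R 1) (T : RC R) (hT : ∀ k, T.Ex k) (k : ℕ) :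
    Subsingleton (T.E (k + 3)) := by
  rw [Submodule.Quotient.subsingleton_iff, eq_top_iff]
  rintro ⟨x, hx⟩ -
  change x ∈ T.bd (k + 3)
  have hx' : Matrix.mulVec (T.D (k + 3)) (star x) = 0 := by
    rw [← U13a_star, show Matrix.vecMul x (T.D (k + 3)).conjTranspose = 0 from hx, star_zero]
  obtain ⟨z, hz⟩ := ufd_coex (T := ufdShift T) (ufd_shift_ex hT) (h T hT) k (star x) hx'
  refine ⟨star z, ?_⟩
  apply star_injective
  rw [U13a_star, star_star]
  exact hz

end general

section loc

variable {A : Type u} [CommRing A] [IsDomain A]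

/-- localisation of an exact complex at a prime ideal -/
theorem ufd_loc_ex {P : Ideal A} [P.IsPrime] {T : RC A} {k : ℕ} (h : T.Ex k) :
    (T.map (algebraMap A (Localization.AtPrime P))).Ex k := by
  set f := algebraMap A (Localization.AtPrime P) with hf
  have hinj : Function.Injective f :=
    IsLocalization.injective (Localization.AtPrime P) P.primeCompl_le_nonZeroDivisors
  intro x hx
  obtain ⟨b, hb⟩ := IsLocalization.exist_integer_multiples_of_finite P.primeCompl x
  choose x' hx' using hb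
  have h1 : ∀ i, f (x' i) = f b * x i := by
    intro i
    have := hx' i
    rw [Algebra.smul_def] at this
    exact this
  have h2 : Matrix.vecMul x' (T.D k) = 0 := by
    funext j
    apply hinj
    have h3 : ∑ i, x i * f (T.D k i j) = 0 := congrFun hx j
    have h4 : ∀ i, f (x' i * T.D k i j) = f b * (x i * f (T.D k i j)) := by
      intro i
      rw [map_mul, h1]
      ring
    show f (∑ i, x' i * T.D k i j) = f 0
    rw [map_sum, map_zero, Finset.sum_congr rfl fun i _ => h4 i, ← Finset.mul_sum, h3, mul_zero]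
  obtain ⟨y, hy⟩ := h x' h2
  have hu : IsUnit (f b) := IsLocalization.map_units (Localization.AtPrime P) b
  obtain ⟨u, hu⟩ := hu
  refine ⟨fun i => (↑u⁻¹ : Localization.AtPrime P) * f (y i), ?_⟩
  funext j
  have h5 : x j = (↑u⁻¹ : Localization.AtPrime P) * f (x' j) := by
    rw [h1, ← hu, ← mul_assoc, Units.inv_mul, one_mul]
  rw [h5, ← hy]
  simp only [RC.map_D, Matrix.vecMul, dotProduct, Matrix.map_apply]
  rw [map_sum, Finset.mul_sum]
  refine Finset.sum_congr rfl fun i _ => ?_
  rw [map_mul, mul_assoc]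

variable [IsNoetherianRing A]

/-- the localisation at a prime element is a principal ideal domain -/
theorem ufd_loc_pid {π : A} (hπ : Prime π) :
    letI : (Ideal.span {π}).IsPrime := (Ideal.span_singleton_prime hπ.ne_zero).2 hπ
    IsPrincipalIdealRing (Localization.AtPrime (Ideal.span {π})) := by
  let _ : (Ideal.span {π}).IsPrime := (Ideal.span_singleton_prime hπ.ne_zero).2 hπ
  have hN : IsNoetherianRing (Localization.AtPrime (Ideal.span {π})) :=
    IsLocalization.isNoetherianRing (Ideal.span {π}).primeCompl _ inferInstance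
  have h := (tfae_of_isNoetherianRing_of_isLocalRing_of_isDomain
    (Localization.AtPrime (Ideal.span {π}))).out 4 0
  apply h.1
  rw [← Localization.AtPrime.map_eq_maximalIdeal, Ideal.map_span, Set.image_singleton]
  exact ⟨_, rfl⟩

/-- cocycles at position `2` are coboundaries up to an element prime to `π` -/
theorem ufd_prime {T : RC A} (hT : ∀ k, T.Ex k) {π : A} (hπ : Prime π) (y : T.ι 2 → A)
    (hy : Matrix.mulVec (T.D 2) y = 0) :
    ∃ a : A, ¬ π ∣ a ∧ ∃ w, Matrix.mulVec (T.D 1) w = a • y := by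
  let _ : (Ideal.span {π}).IsPrime := (Ideal.span_singleton_prime hπ.ne_zero).2 hπ
  have hpid := ufd_loc_pid hπ
  let B := Localization.AtPrime (Ideal.span {π})
  set f := algebraMap A B with hf
  have hinj : Function.Injective f :=
    IsLocalization.injective B (Ideal.span {π}).primeCompl_le_nonZeroDivisors
  have hmv : ∀ (k : ℕ) (v : T.ι k → A), (fun i => f (Matrix.mulVec (T.D k) v i)) =
      Matrix.mulVec ((T.D k).map f) (fun j => f (v j)) := by
    intro k v
    funext i
    simp only [Matrix.mulVec, dotProduct, map_sum, map_mul, Matrix.map_apply]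
  obtain ⟨z, hz⟩ : ∃ z : T.ι 1 → B, Matrix.mulVec ((T.D 1).map f) z = fun i => f (y i) :=
    U13a_coex (R := B) fl_pid (T.map f) (fun k => ufd_loc_ex (hT k)) 0 (fun i => f (y i)) (by
      have h1 := hmv 2 y
      rw [hy] at h1
      refine h1.symm.trans ?_
      funext i
      exact map_zero f)
  obtain ⟨b, hb⟩ := IsLocalization.exist_integer_multiples_of_finite
    (Ideal.span {π}).primeCompl (S := B) z
  choose w hw using hb
  refine ⟨b, fun h => b.2 (Ideal.mem_span_singleton.2 h), w, ?_⟩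
  funext i
  apply hinj
  have h1 := congrFun (hmv 1 w) i
  have h2 : (fun j => f (w j)) = f b • z := by
    funext j
    have := hw j
    rw [Algebra.smul_def] at this
    exact this
  rw [h2, Matrix.mulVec_smul] at h1
  have h4 : Matrix.mulVec ((T.D 1).map f) z i = f (y i) := congrFun hz i
  rw [h1, Pi.smul_apply, h4, Pi.smul_apply, smul_eq_mul, smul_eq_mul, map_mul]

theorem ufd_E_two [StarRing A] (T : RC A) (hT : ∀ k, T.Ex k) {π : A} (hπ : Prime π) (x : T.E 2) :
    ∃ a : A, ¬ π ∣ a ∧ a • x = 0 := by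
  obtain ⟨⟨x, hx⟩, rfl⟩ := Submodule.Quotient.mk_surjective _ x
  have hx' : Matrix.mulVec (T.D 2) (star x) = 0 := by
    rw [← U13a_star, show Matrix.vecMul x (T.D 2).conjTranspose = 0 from hx, star_zero]
  have hπ' : Prime (star π) :=
    (MulEquiv.prime_iff (starRingAut (R := A)).toMulEquiv).2 hπ
  obtain ⟨a, ha, w, hw⟩ := ufd_prime hT hπ' (star x) hx'
  refine ⟨star a, fun h => ha ?_, ?_⟩
  · obtain ⟨c, hc⟩ := h
    refine ⟨star c, ?_⟩
    rw [← star_star a, hc, star_mul, mul_comm]
  rw [← Submodule.Quotient.mk_smul, Submodule.Quotient.mk_eq_zero]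
  change star a • x ∈ T.bd 2
  refine ⟨star w, ?_⟩
  apply star_injective
  rw [U13a_star, star_star, hw]
  funext i
  simp [mul_comm]

/-- one annihilator for a finitely generated submodule -/
theorem ufd_ann [StarRing A] (T : RC A) (hT : ∀ k, T.Ex k) {π : A} (hπ : Prime π)
    (N : Submodule A (T.E 2)) (hN : N.FG) : ∃ a : A, ¬ π ∣ a ∧ ∀ x ∈ N, a • x = 0 := by
  classical
  obtain ⟨S, hS⟩ := hN
  choose c hc hc' using ufd_E_two T hT hπ
  refine ⟨∏ x ∈ S, c x, ?_, ?_⟩
  · rw [hπ.dvd_finsetProd_iff]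
    rintro ⟨x, -, hx⟩
    exact hc x hx
  · intro x hx
    rw [← hS] at hx
    induction hx using Submodule.span_induction with
    | mem x hx =>
      rw [← Finset.prod_erase_mul S c hx, mul_smul, hc', smul_zero]
    | zero => exact smul_zero _
    | add x y _ _ h1 h2 => rw [smul_add, h1, h2, add_zero]
    | smul a x _ h => rw [smul_comm, h, smul_zero]

end loc

section res

variable {A : Type u} [CommRing A] {N : Type u} [AddCommGroup N] [Module A N] {T : RC A}

/-- the multiplication by an annihilator is null-homotopic at position `0` -/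
theorem ufd_null0 (r : Res T N) {c : A} (hc : ∀ x : N, c • x = 0) :
    ∃ h : Matrix (T.ι 0) (T.ι 1) A, h * T.D 0 = c • (1 : Matrix (T.ι 0) (T.ι 0) A) := by
  have h1 : ∀ i : T.ι 0, ∃ y : T.ι 1 → A,
      Matrix.vecMul y (T.D 0) = (c • (1 : Matrix (T.ι 0) (T.ι 0) A)) i := by
    intro i
    apply r.ker
    have h2 : (c • (1 : Matrix (T.ι 0) (T.ι 0) A)) i = c • ((1 : Matrix (T.ι 0) (T.ι 0) A) i) :=
      rfl
    rw [h2, map_smul]
    exact hc _
  choose h hh using h1
  refine ⟨Matrix.of h, ?_⟩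
  funext i
  rw [Matrix.mul_apply_eq_vecMul]
  exact hh i

/-- the multiplication by an annihilator is null-homotopic at position `1` -/
theorem ufd_null1 (r : Res T N) {c : A} (hc : ∀ x : N, c • x = 0) :
    ∃ (h : Matrix (T.ι 0) (T.ι 1) A) (k : Matrix (T.ι 1) (T.ι 2) A),
      T.D 0 * h + k * T.D 1 = c • (1 : Matrix (T.ι 1) (T.ι 1) A) := by
  obtain ⟨h, hh⟩ := ufd_null0 r hc
  obtain ⟨k, hk⟩ := U13a_factor (T := T) (r.ex 0) (c • (1 : Matrix (T.ι 1) (T.ι 1) A) - T.D 0 * h)
    (by
      rw [Matrix.sub_mul, Matrix.mul_assoc, hh, Matrix.smul_mul, Matrix.one_mul, Matrix.mul_smul,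
        Matrix.mul_one, sub_self])
  exact ⟨h, k, by rw [← hk]; abel⟩

theorem ufd_coex0 [IsDomain A] (r : Res T N) {c : A} (hc0 : c ≠ 0) (hc : ∀ x : N, c • x = 0) :
    T.CoEx 0 := by
  intro y hy
  obtain ⟨h, hh⟩ := ufd_null0 r hc
  have h1 : c • y = 0 := by
    have h2 : Matrix.mulVec (c • (1 : Matrix (T.ι 0) (T.ι 0) A)) y = c • y := by
      rw [Matrix.smul_mulVec, Matrix.one_mulVec]
    rw [← h2, ← hh, ← Matrix.mulVec_mulVec, hy, Matrix.mulVec_zero]
  funext i
  have h3 := congrFun h1 i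
  exact (mul_eq_zero.mp h3).resolve_left hc0

/-- the main step: exactness at position `1` -/
theorem ufd_coex1 [IsDomain A] [UniqueFactorizationMonoid A] (r : Res T N)
    (h0 : ∃ π : A, Prime π)
    (hp : ∀ π : A, Prime π → ∃ c : A, ¬ π ∣ c ∧ ∀ x : N, c • x = 0) : T.CoEx 1 := by
  intro y hy
  have hinj : ∀ v : T.ι 0 → A, Matrix.mulVec (T.D 0) v = 0 → v = 0 := by
    obtain ⟨π, hπ⟩ := h0
    obtain ⟨c, hc, hcN⟩ := hp π hπ
    have hc0 : c ≠ 0 := by
      rintro rfl
      exact hc (dvd_zero π)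
    exact ufd_coex0 r hc0 hcN
  have hI : ∀ c : A, (∀ x : N, c • x = 0) → ∃ z, Matrix.mulVec (T.D 0) z = c • y := by
    intro c hc
    obtain ⟨h, k, hk⟩ := ufd_null1 r hc
    refine ⟨Matrix.mulVec h y, ?_⟩
    have h2 : Matrix.mulVec (c • (1 : Matrix (T.ι 1) (T.ι 1) A)) y = c • y := by
      rw [Matrix.smul_mulVec, Matrix.one_mulVec]
    rw [← h2, ← hk, Matrix.add_mulVec, ← Matrix.mulVec_mulVec, ← Matrix.mulVec_mulVec,
      show Matrix.mulVec (T.D 1) y = 0 from hy, Matrix.mulVec_zero, add_zero]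
  have key : ∀ a : A, a ≠ 0 → (∃ z, Matrix.mulVec (T.D 0) z = a • y) →
      ∃ z, Matrix.mulVec (T.D 0) z = y := by
    intro a
    induction a using UniqueFactorizationMonoid.induction_on_prime with
    | h₁ => exact fun h => absurd rfl h
    | h₂ a ha =>
      rintro - ⟨z, hz⟩
      obtain ⟨u, rfl⟩ := ha
      refine ⟨(↑u⁻¹ : A) • z, ?_⟩
      rw [Matrix.mulVec_smul, hz, smul_smul, Units.inv_mul, one_smul]
    | h₃ a π ha hπ ih =>
      rintro - ⟨z, hz⟩
      obtain ⟨c, hc, hcN⟩ := hp π hπ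
      obtain ⟨z', hz'⟩ := hI c hcN
      apply ih ha
      have h1 : c • z = (π * a) • z' := by
        rw [← sub_eq_zero]
        apply hinj
        rw [Matrix.mulVec_sub, Matrix.mulVec_smul, Matrix.mulVec_smul, hz, hz', smul_comm, sub_self]
      have h2 : ∀ i, π ∣ z i := by
        intro i
        have h3 : c * z i = π * a * z' i := congrFun h1 i
        have h4 : π ∣ c * z i := ⟨a * z' i, by rw [h3, mul_assoc]⟩
        exact (hπ.dvd_or_dvd h4).resolve_left hc
      choose z'' hz'' using h2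
      refine ⟨z'', ?_⟩
      have h5 : z = π • z'' := funext hz''
      rw [h5, Matrix.mulVec_smul, mul_smul] at hz
      funext i
      exact mul_left_cancel₀ hπ.ne_zero (congrFun hz i)
  obtain ⟨π, hπ⟩ := h0
  obtain ⟨c, hc, hcN⟩ := hp π hπ
  exact key c (by rintro rfl; exact hc (dvd_zero π)) (hI c hcN)

end res

/-- if the kernels of the maps between finitely generated free modules are projective then the
global dimension is at most two -/
theorem fl_of_ker {A : Type u} [Ring A]
    (hA : ∀ (k l : ℕ) (f : (Fin k → A) →ₗ[A] (Fin l → A)),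
      Module.Projective A (LinearMap.ker f)) : FL A 1 := by
  intro T hT
  classical
  let f : (T.ι 1 → A) →ₗ[A] (T.ι 0 → A) := Matrix.vecMulLinear (T.D 0)
  let f1 : (T.ι 2 → A) →ₗ[A] (T.ι 1 → A) := Matrix.vecMulLinear (T.D 1)
  let e₁ : (Fin (Fintype.card (T.ι 1)) → A) ≃ₗ[A] (T.ι 1 → A) :=
    LinearEquiv.funCongrLeft A A (Fintype.equivFin (T.ι 1))
  let e₀ : (T.ι 0 → A) ≃ₗ[A] (Fin (Fintype.card (T.ι 0)) → A) :=
    LinearEquiv.funCongrLeft A A (Fintype.equivFin (T.ι 0)).symm
  have hproj := hA _ _ (e₀.toLinearMap ∘ₗ f ∘ₗ e₁.toLinearMap)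
  have hr : LinearMap.ker (e₀.toLinearMap ∘ₗ f ∘ₗ e₁.toLinearMap) =
      (LinearMap.range f1).map e₁.symm.toLinearMap := by
    rw [LinearMap.ker_comp_of_ker_eq_bot _ (LinearEquiv.ker e₀)]
    ext x
    rw [LinearMap.mem_ker, Submodule.mem_map]
    constructor
    · intro hx
      obtain ⟨y, hy⟩ := hT 0 (e₁ x) hx
      exact ⟨e₁ x, ⟨y, hy⟩, e₁.symm_apply_apply x⟩
    · rintro ⟨_, ⟨y, rfl⟩, rfl⟩
      show f (e₁ (e₁.symm (f1 y))) = 0
      rw [e₁.apply_symm_apply]
      show Matrix.vecMul (Matrix.vecMul y (T.D 1)) (T.D 0) = 0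
      rw [Matrix.vecMul_vecMul, T.DD, Matrix.vecMul_zero]
  rw [hr] at hproj
  have hp : Module.Projective A (LinearMap.range f1) :=
    Module.Projective.of_equiv (e₁.symm.submoduleMap (LinearMap.range f1)).symm
  obtain ⟨s, hs⟩ := Module.projective_lifting_property f1.rangeRestrict
    (LinearMap.id : LinearMap.range f1 →ₗ[A] _) (LinearMap.surjective_rangeRestrict _)
  let φ : (T.ι 2 → A) →ₗ[A] (T.ι 2 → A) := s.comp f1.rangeRestrict
  let M : Matrix (T.ι 2) (T.ι 2) A := Matrix.of fun i => φ (Pi.single i 1)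
  have hM : ∀ x, Matrix.vecMul x M = φ x := by
    intro x
    have hx : x = ∑ i, x i • (Pi.single i 1 : T.ι 2 → A) := by
      funext j
      simp [Finset.sum_apply, Pi.single_apply]
    conv_rhs => rw [hx, map_sum]
    funext j
    simp only [M, Matrix.vecMul, dotProduct, Matrix.of_apply, map_smul, Finset.sum_apply,
      Pi.smul_apply, smul_eq_mul]
  have hs' : ∀ x, Matrix.vecMul (s x) (T.D 1) = x := by
    intro x
    exact congrArg Subtype.val (LinearMap.congr_fun hs x)
  refine ⟨M, ?_, ?_⟩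
  · apply Matrix.ext_of_single_vecMul
    intro i
    rw [← Matrix.vecMul_vecMul, hM]
    exact hs' _
  · apply Matrix.ext_of_single_vecMul
    intro i
    rw [← Matrix.vecMul_vecMul, hM]
    have h0 : f1.rangeRestrict (Matrix.vecMul (Pi.single i 1) (T.D (1 + 1))) = 0 := by
      apply Subtype.ext
      change Matrix.vecMul (Matrix.vecMul (Pi.single i 1) (T.D (1 + 1))) (T.D 1) = 0
      rw [Matrix.vecMul_vecMul, T.DD, Matrix.vecMul_zero]
    show φ _ = _
    rw [LinearMap.comp_apply, h0, map_zero, Matrix.vecMul_zero]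

/-- **the Auslander condition** for factorial domains of global dimension at most two -/
theorem ar_ufd {A : Type u} [CommRing A] [IsDomain A] [IsNoetherianRing A]
    [UniqueFactorizationMonoid A] [StarRing A] (h : FL A 1) : AR A := by
  by_cases hf : ∃ π : A, Prime π
  · intro T hT p
    rcases p with _ | _ | _ | p
    · intro N _ l hl
      exact absurd hl (Nat.not_lt_zero l)
    · intro N _
      apply U13a_ge_one
      intro x
      obtain ⟨a, ha, hx⟩ := U13a_E_one T hT x.1
      exact ⟨a, ha, Subtype.ext hx⟩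
    · intro N hN
      have hfin : Module.Finite A N := Module.Finite.iff_fg.2 hN
      obtain ⟨T', ⟨r⟩⟩ := exists_res (R := A) N
      have hp : ∀ π : A, Prime π → ∃ c : A, ¬ π ∣ c ∧ ∀ x : N, c • x = 0 := by
        intro π hπ
        obtain ⟨c, hc, hcN⟩ := ufd_ann T hT hπ N hN
        exact ⟨c, hc, fun x => Subtype.ext (hcN x.1 x.2)⟩
      refine (ge_iff r _).2 fun l hl => ?_
      rcases l with _ | _ | l
      · obtain ⟨π, hπ⟩ := hf
        obtain ⟨c, hc, hcN⟩ := hp π hπ
        exact ufd_coex0 r (by rintro rfl; exact hc (dvd_zero π)) hcN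
      · exact ufd_coex1 r hf hp
      · omega
    · intro N _
      have := ufd_E_three h T hT p
      exact U13a_ge_subsingleton _
  · have hf' : IsField A := by
      refine ⟨⟨0, 1, zero_ne_one⟩, mul_comm, fun {a} ha => ?_⟩
      by_contra hcon
      apply hf
      rw [UniqueFactorizationMonoid.exists_prime_iff]
      refine ⟨a, ha, fun hu => hcon ?_⟩
      obtain ⟨b, hb⟩ := hu.exists_right_inv
      exact ⟨b, hb⟩
    let _ : Field A := hf'.toField
    have hpid : IsPrincipalIdealRing A := inferInstance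
    exact ar_base fl_pid

end Pool.Agent.UP
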