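import Mathlib
import Pool.Agent.Lib.UP.MainVPF
import Pool.Agent.Lib.UP.U13a
import Pool.Agent.Lib.UP.ArUfd

/-!
# The base rings: hereditary domains, factorial domains of global dimension at most two, `ℤ` and
`ℤ[T;T⁻¹]`
-/

set_option autoImplicit false

open MonoidAlgebra
open scoped LaurentPolynomial

namespace Pool.Agent.UP

open Pool.Agent.Lib.MP_98022b_UM.UF

universe u v w

private theorem BaseV_matrix {R : Type u} [Ring R] {ι κ : Type} [Fintype ι] [DecidableEq ι]
    [Fintype κ] (φ : (ι → R) →ₗ[R] (κ → R)) :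
    ∃ M : Matrix ι κ R, ∀ x, Matrix.vecMul x M = φ x := by
  refine ⟨Matrix.of fun i => φ (Pi.single i 1), fun x => ?_⟩
  have hx : x = ∑ i, x i • (Pi.single i 1 : ι → R) := by
    funext j
    simp [Finset.sum_apply, Pi.single_apply]
  conv_rhs => rw [hx, map_sum]
  funext j
  simp only [Matrix.vecMul, dotProduct, Matrix.of_apply, map_smul, Finset.sum_apply, Pi.smul_apply,
    smul_eq_mul]

/-- if the images of the maps between finitely generated free modules are projective then the
global dimension is at most one -/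
theorem fl_hereditary {A : Type u} [Ring A]
    (hA : ∀ (k l : ℕ) (f : (Fin k → A) →ₗ[A] (Fin l → A)),
      Module.Projective A (LinearMap.range f)) : FL A 0 := by
  intro T _
  classical
  let f : (T.ι 1 → A) →ₗ[A] (T.ι 0 → A) := Matrix.vecMulLinear (T.D 0)
  let e₁ : (Fin (Fintype.card (T.ι 1)) → A) ≃ₗ[A] (T.ι 1 → A) :=
    LinearEquiv.funCongrLeft A A (Fintype.equivFin (T.ι 1))
  let e₀ : (T.ι 0 → A) ≃ₗ[A] (Fin (Fintype.card (T.ι 0)) → A) :=
    LinearEquiv.funCongrLeft A A (Fintype.equivFin (T.ι 0)).symm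
  have hproj := hA _ _ (e₀.toLinearMap ∘ₗ f ∘ₗ e₁.toLinearMap)
  have hr : LinearMap.range (e₀.toLinearMap ∘ₗ f ∘ₗ e₁.toLinearMap) =
      (LinearMap.range f).map e₀.toLinearMap := by
    rw [LinearMap.range_comp, LinearMap.range_comp, LinearEquiv.range, Submodule.map_top]
  rw [hr] at hproj
  have hp : Module.Projective A (LinearMap.range f) :=
    Module.Projective.of_equiv (e₀.submoduleMap (LinearMap.range f)).symm
  obtain ⟨s, hs⟩ := Module.projective_lifting_property f.rangeRestrict
    (LinearMap.id : LinearMap.range f →ₗ[A] _) (LinearMap.surjective_rangeRestrict _)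
  obtain ⟨M, hM⟩ := BaseV_matrix (s.comp f.rangeRestrict)
  have hs' : ∀ x, Matrix.vecMul (s x) (T.D 0) = x := by
    intro x
    exact congrArg Subtype.val (LinearMap.congr_fun hs x)
  refine ⟨M, ?_, ?_⟩
  · apply Matrix.ext_of_single_vecMul
    intro i
    rw [← Matrix.vecMul_vecMul, hM]
    exact hs' _
  · apply Matrix.ext_of_single_vecMul
    intro i
    rw [← Matrix.vecMul_vecMul, hM]
    have h0 : f.rangeRestrict (Matrix.vecMul (Pi.single i 1) (T.D (0 + 1))) = 0 := by
      apply Subtype.ext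
      change Matrix.vecMul (Matrix.vecMul (Pi.single i 1) (T.D (0 + 1))) (T.D 0) = 0
      rw [Matrix.vecMul_vecMul, T.DD, Matrix.vecMul_zero]
    rw [LinearMap.comp_apply, h0, map_zero, Matrix.vecMul_zero]

/-- the vanishing property for hereditary domains -/
theorem unilV_hereditary {A : Type u} [CommRing A] [IsDomain A] [IsNoetherianRing A] [StarRing A]
    (hA : ∀ (k l : ℕ) (f : (Fin k → A) →ₗ[A] (Fin l → A)),
      Module.Projective A (LinearMap.range f)) : UNilVanishesV.{u, v, w} A :=
  unilV (ar_base (fl_hereditary hA)) (fl_hereditary hA)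

/-- the vanishing property for factorial domains of global dimension at most two -/
theorem unilV_factorial {A : Type u} [CommRing A] [IsDomain A] [IsNoetherianRing A]
    [UniqueFactorizationMonoid A] [StarRing A]
    (hA : ∀ (k l : ℕ) (f : (Fin k → A) →ₗ[A] (Fin l → A)),
      Module.Projective A (LinearMap.ker f)) : UNilVanishesV.{u, v, w} A :=
  unilV (ar_ufd (fl_of_ker hA)) (fl_of_ker hA)

/-- the vanishing property for `ℤ` -/
theorem unilV_integers : @UNilVanishesV.{0, v, w} ℤ _ starRingOfComm :=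
  let _ : StarRing ℤ := starRingOfComm
  unilV (ar_base fl_pid) fl_pid

/-- the vanishing property for `ℤ[T;T⁻¹]` -/
theorem unilV_laurent : @UNilVanishesV.{0, v, w} ℤ[T;T⁻¹] _ laurentStar := by
  let _ : StarRing ℤ[T;T⁻¹] := laurentStar
  let _ : StarRing ℤ := starRingOfComm
  obtain ⟨h1, h2, h3⟩ := polyZ_facts (A := ℤ) (ar_base fl_pid) fl_pid 1 (Multiplicative ℤ) polyZ_int
  let e : MonoidAlgebra ℤ (Multiplicative ℤ) ≃+* ℤ[T;T⁻¹] :=
    (AddMonoidAlgebra.toMultiplicative ℤ ℤ).symm
  have hN : IsNoetherianRing ℤ[T;T⁻¹] := isNoetherianRing_of_ringEquiv _ e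
  let _ : StarRing (MonoidAlgebra ℤ (Multiplicative ℤ)) := starMA ℤ (Multiplicative ℤ)
  exact unilV (AR.equiv e h2) (FL.equiv e h3)

end Pool.Agent.UP
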