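import Mathlib
import Pool.Agent.Lib.UP.TrDefs
import Pool.Agent.Lib.MP_98022b_UN.CosL

/-!
# TANK UP, row F10e: two lemmas for the content trick
-/

set_option autoImplicit false

open MonoidAlgebra

namespace Pool.Agent.UP

open Pool.Agent.Lib.MP_98022b_UN

universe u v w w'

/-- coset components: if the sums `Σ_l τ_l G_(i,l)` are in the row space of `Y`, then so are the
`G_(i,l)` -/
theorem F10e_coset {A : Type u} {G : Type v} [CommRing A] [Group G] {F : Subgroup G}
    {r ι Q : Type} [Fintype ι] [Fintype Q] {τ : ι → G} (hτ : ∀ l l', (τ l)⁻¹ * τ l' ∈ F → l = l')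
    {W : Matrix (r × ι) Q (MonoidAlgebra A G)} (hW : OnF F W)
    {Y : Matrix Q Q (MonoidAlgebra A G)} (hY : OnF F Y) {H : Matrix r Q (MonoidAlgebra A G)}
    (h : ∀ i a, (∑ l, single (τ l) (1 : A) * W (i, l) a) = (H * Y) i a) :
    ∃ H' : Matrix (r × ι) Q (MonoidAlgebra A G), W = H' * Y := by
  refine ⟨fun p a => cL F (τ p.2) H p.1 a, ?_⟩
  funext p a
  obtain ⟨i, l⟩ := p
  have h1 : (cL F (τ l) H * Y) i a = cL F (τ l) (H * Y) i a := by rw [cL_mul hY]
  change W (i, l) a = (cL F (τ l) H * Y) i a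
  rw [h1]
  apply MonoidAlgebra.coeff_injective
  ext x
  by_cases hx : x ∈ F
  · rw [CosL_cL_coeff_mem _ _ _ _ hx, ← h, coeff_sum, Finsupp.finsetSum_apply,
      Finset.sum_eq_single l]
    · rw [coeff_single_mul_apply, one_mul, inv_mul_cancel_left]
    · intro l' _ hne
      rw [coeff_single_mul_apply, one_mul]
      by_contra hc
      have hm := hW _ _ _ hc
      apply hne
      apply hτ
      have h4 := F.mul_mem hm (F.inv_mem hx)
      rwa [← mul_assoc, mul_assoc, mul_inv_cancel, mul_one] at h4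
    · intro h5
      exact absurd (Finset.mem_univ _) h5
  · rw [CosL_cL_coeff_not_mem _ _ _ _ hx]
    by_contra hc
    exact hx (hW _ _ _ hc)

/-- relations between the rows of `f` are respected by the functional `Z` -/
theorem F10e_rel {R : Type u} [Ring R] {K C : Type} [Fintype K] [Fintype C] {deg : K → ℤ}
    {e d : Matrix K K R} {i₀ : ℕ} {p : C → ℕ} {e' δ : Matrix C C R} {f : Matrix C K R}
    (hk : IsKill deg e d i₀ p e' δ f) {Q : Type} [Fintype Q] {Y : Matrix Q Q R}
    {Z : Matrix C Q R} (hZ : e' * Z = Z) (hZY : δ * Z = Z * Y) {c : Type} {u : Matrix c C R}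
    (hu : ∀ j i, u j i ≠ 0 → p i = 0) {x : Matrix c K R} (h : u * f = x * d) :
    ∃ v : Matrix c Q R, u * Z = v * Y := by
  have key : ∀ j : c, ∃ v : Matrix Unit Q R,
      (Matrix.of fun (_ : Unit) i => u j i) * Z = v * Y := by
    intro j
    set w : Matrix Unit C R := (Matrix.of fun (_ : Unit) i => u j i) * e' with hw
    have hw0 : ∀ i, w () i ≠ 0 → p i = 0 := by
      intro i hi
      rw [hw, Matrix.mul_apply] at hi
      obtain ⟨i', -, hi'⟩ := Finset.exists_ne_zero_of_sum_ne_zero hi
      have h1 : u j i' ≠ 0 := fun h0 => hi' (by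
        change u j i' * e' i' i = 0
        rw [h0, zero_mul])
      have h2 : e' i' i ≠ 0 := fun h0 => hi' (by
        change u j i' * e' i' i = 0
        rw [h0, mul_zero])
      rw [← hk.e_deg _ _ h2]
      exact hu j i' h1
    have hwe : w * e' = w := by rw [hw, Matrix.mul_assoc, hk.ee]
    have hwδ : w * δ = 0 := by
      ext u0 i
      rw [Matrix.mul_apply]
      refine Finset.sum_eq_zero fun i' _ => ?_
      by_contra hne
      have h1 : w () i' ≠ 0 := fun h0 => hne (by
        change w () i' * δ i' i = 0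
        rw [h0, zero_mul])
      have h2 : δ i' i ≠ 0 := fun h0 => hne (by rw [h0, mul_zero])
      have h3 := hk.δ_deg _ _ h2
      rw [hw0 i' h1] at h3
      omega
    have hwf : w * f = (Matrix.of fun (_ : Unit) k => x j k) * d := by
      rw [hw, Matrix.mul_assoc, hk.ef]
      ext u0 k
      have h1 := congrFun (congrFun h j) k
      rw [Matrix.mul_apply] at h1 ⊢
      rw [Matrix.mul_apply] at h1 ⊢
      exact h1
    obtain ⟨u', hu'⟩ := hk.rowex 0 w hw0 hwe hwδ ⟨_, hwf⟩
    refine ⟨u' * Z, ?_⟩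
    have h1 : w * Z = u' * Z * Y := by
      rw [hu', Matrix.mul_assoc, hZY, Matrix.mul_assoc]
    rw [← h1, hw, Matrix.mul_assoc, hZ]
  choose v hv using key
  refine ⟨Matrix.of fun j a => v j () a, ?_⟩
  ext j a
  have h1 := congrFun (congrFun (hv j) ()) a
  rw [Matrix.mul_apply] at h1 ⊢
  rw [Matrix.mul_apply] at h1 ⊢
  exact h1

end Pool.Agent.UP
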