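import Mathlib
import Pool.Agent.Lib.UP.U14
import Pool.Agent.Lib.UP.U14E
import Pool.Agent.Lib.UP.TrBr

/-!
TANK UP: the ring-theoretic facts in matrix form from the Auslander condition and the bound for
the global dimension.
-/

namespace Pool.Agent.UP

universe u

theorem facts_of {R : Type u} [Ring R] [StarRing R] [IsNoetherianRing R] {g : ℕ}
    (hA : AR R) (hF : FL R g) : Facts R (g + 1) :=
  facts_of_parts hF (ausM_of_ar hA) (endM_of_fl hF)

end Pool.Agent.UP
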