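import Pool.Agent.Lib.UP.SkL

/-!
TANK UP, row R10: the group ring `A[H]` of a group `H` with `1 → N → H → Z → 1` is a skew Laurent ring
over `A[N]`.
-/

set_option autoImplicit false

open scoped BigOperators
open MulOpposite MonoidAlgebra

namespace Pool.Agent.UP

/-- `1 → N → H → Z → 1` with a chosen lift `t` of the generator -/
structure ZExt (N H : Type*) [Group N] [Group H] where
  i : N →* H
  inj : Function.Injective i
  phi : H →* Multiplicative ℤ
  ker : ∀ h, phi h = 1 ↔ ∃ n, i n = h
  t : H
  phi_t : phi t = Multiplicative.ofAdd 1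

namespace ZExt

variable {N H : Type*} [Group N] [Group H] (X : ZExt N H)

theorem phi_i (n : N) : X.phi (X.i n) = 1 := (X.ker _).mpr ⟨n, rfl⟩

theorem phi_zpow (j : ℤ) : X.phi (X.t ^ j) = Multiplicative.ofAdd j := by
  rw [map_zpow, X.phi_t, ← ofAdd_zsmul, smul_eq_mul, mul_one]

/-- the preimage in `N` -/
noncomputable def pre (h : H) (hh : X.phi h = 1) : N := Classical.choose ((X.ker h).mp hh)

theorem i_pre (h : H) (hh : X.phi h = 1) : X.i (X.pre h hh) = h :=
  Classical.choose_spec ((X.ker h).mp hh)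

theorem npart_aux (h : H) : X.phi (X.t ^ (-(X.phi h).toAdd) * h) = 1 := by
  rw [map_mul, X.phi_zpow, ofAdd_neg]
  exact inv_mul_cancel _

/-- the part of `h` in `N` -/
noncomputable def npart (h : H) : N := X.pre _ (X.npart_aux h)

theorem i_npart (h : H) : X.i (X.npart h) = X.t ^ (-(X.phi h).toAdd) * h := X.i_pre _ _

/-- `h = t ^ j * n` -/
noncomputable def eqv : H ≃ ℤ × N where
  toFun h := ((X.phi h).toAdd, X.npart h)
  invFun p := X.t ^ p.1 * X.i p.2
  left_inv h := by
    show X.t ^ (X.phi h).toAdd * X.i (X.npart h) = h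
    rw [X.i_npart, ← mul_assoc, ← zpow_add, add_neg_cancel, zpow_zero, one_mul]
  right_inv p := by
    have h1 : X.phi (X.t ^ p.1 * X.i p.2) = Multiplicative.ofAdd p.1 := by
      rw [map_mul, X.phi_zpow, X.phi_i, mul_one]
    refine Prod.ext ?_ (X.inj ?_)
    · show (X.phi (X.t ^ p.1 * X.i p.2)).toAdd = p.1
      rw [h1]; rfl
    · show X.i (X.npart (X.t ^ p.1 * X.i p.2)) = X.i p.2
      rw [X.i_npart, h1, toAdd_ofAdd, ← mul_assoc, ← zpow_add, neg_add_cancel, zpow_zero, one_mul]

theorem eqv_symm_apply (p : ℤ × N) : X.eqv.symm p = X.t ^ p.1 * X.i p.2 := rfl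

theorem conj_aux (n : N) : X.phi (X.t * X.i n * X.t⁻¹) = 1 := by
  rw [map_mul, map_mul, X.phi_i, mul_one, map_inv, mul_inv_cancel]

theorem conj_aux' (n : N) : X.phi (X.t⁻¹ * X.i n * X.t) = 1 := by
  rw [map_mul, map_mul, X.phi_i, mul_one, map_inv, inv_mul_cancel]

/-- conjugation by `t` on `N` -/
noncomputable def conj : N ≃* N where
  toFun n := X.pre _ (X.conj_aux n)
  invFun n := X.pre _ (X.conj_aux' n)
  left_inv n := by
    apply X.inj
    rw [X.i_pre, X.i_pre]
    group
  right_inv n := by
    apply X.inj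
    rw [X.i_pre, X.i_pre]
    group
  map_mul' m n := by
    apply X.inj
    show X.i (X.pre _ (X.conj_aux (m * n))) =
      X.i (X.pre _ (X.conj_aux m) * X.pre _ (X.conj_aux n))
    rw [X.i_pre, X.i.map_mul (X.pre _ _), X.i_pre, X.i_pre, X.i.map_mul]
    group

theorem i_conj (n : N) : X.i (X.conj n) = X.t * X.i n * X.t⁻¹ :=
  X.i_pre _ (X.conj_aux n)

variable (A : Type*) [Ring A]

/-- coefficients -/
noncomputable def co : A[H] ≃+ (ℤ →₀ A[N]) :=
  (coeffAddEquiv.trans ((Finsupp.domCongr X.eqv).trans Finsupp.curryAddEquiv)).trans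
    (Finsupp.mapRange.addEquiv coeffAddEquiv.symm)

theorem co_apply (s : A[H]) (j : ℤ) (n : N) : (X.co A s j).coeff n = s.coeff (X.t ^ j * X.i n) := rfl

theorem co_single (j : ℤ) (n : N) (a : A) :
    X.co A (single (X.t ^ j * X.i n) a) = Finsupp.single j (single n a) := by
  have h1 : X.eqv (X.t ^ j * X.i n) = (j, n) := X.eqv.apply_symm_apply (j, n)
  have h2 : Finsupp.curry (Finsupp.equivMapDomain X.eqv
      (Finsupp.single (X.t ^ j * X.i n) a)) = Finsupp.single j (Finsupp.single n a) := by
    rw [Finsupp.equivMapDomain_single, h1, Finsupp.curry_single]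
  show Finsupp.mapRange (coeffAddEquiv.symm : (N →₀ A) → A[N]) (map_zero coeffAddEquiv.symm)
    (Finsupp.curry (Finsupp.equivMapDomain X.eqv (Finsupp.single (X.t ^ j * X.i n) a))) = _
  rw [h2, Finsupp.mapRange_single]
  rfl

theorem z_zpow (j : ℤ) : (((Units.map (MonoidAlgebra.of A H) (toUnits X.t)) ^ j : (A[H])ˣ) : A[H]) =
    single (X.t ^ j) 1 := by
  rw [← map_zpow, ← map_zpow]
  rfl

/-- the skew Laurent structure of the group ring -/
noncomputable def skL : SkL A[N] A[H] where
  iota := mapDomainRingHom A X.i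
  z := Units.map (MonoidAlgebra.of A H) (toUnits X.t)
  sig := mapDomainRingEquiv A X.conj
  comm := by
    intro r
    induction r using MonoidAlgebra.induction_linear with
    | zero => simp
    | add f g hf hg => rw [map_add, mul_add, hf, hg, map_add, map_add, add_mul]
    | single n a =>
      show single X.t 1 * mapDomain X.i (single n a) =
        mapDomain X.i (mapDomain X.conj (single n a)) * single X.t 1
      rw [mapDomain_single, mapDomain_single, mapDomain_single, single_mul_single,
        single_mul_single, X.i_conj, one_mul, mul_one, inv_mul_cancel_right]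
  co := X.co A
  co_symm := by
    intro j r
    rw [AddEquiv.symm_apply_eq, X.z_zpow]
    induction r using MonoidAlgebra.induction_linear with
    | zero => simp
    | add f g hf hg => rw [map_add, mul_add, map_add, Finsupp.single_add, hf, hg]
    | single n a =>
      show _ = X.co A (single (X.t ^ j) 1 * mapDomain X.i (single n a))
      rw [mapDomain_single, single_mul_single, one_mul, X.co_single]

/-- from a surjection onto `Z` -/
noncomputable def ofHom {H : Type*} [Group H] (phi : H →* Multiplicative ℤ)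
    (h : Function.Surjective phi) : ZExt phi.ker H where
  i := phi.ker.subtype
  inj := Subtype.val_injective
  phi := phi
  ker := fun x => ⟨fun hx => ⟨⟨x, hx⟩, rfl⟩, fun ⟨n, hn⟩ => hn ▸ n.2⟩
  t := Classical.choose (h (Multiplicative.ofAdd 1))
  phi_t := Classical.choose_spec (h (Multiplicative.ofAdd 1))

/-- from a normal subgroup with quotient `Z` -/
noncomputable def ofQuot {H : Type*} [Group H] (N : Subgroup H) [N.Normal]
    (e : H ⧸ N ≃* Multiplicative ℤ) : ZExt N H where
  i := N.subtype
  inj := Subtype.val_injective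
  phi := e.toMonoidHom.comp (QuotientGroup.mk' N)
  ker := fun x => by
    have h1 : (e.toMonoidHom.comp (QuotientGroup.mk' N)) x = 1 ↔ x ∈ N := by
      show e (QuotientGroup.mk' N x) = 1 ↔ x ∈ N
      rw [map_eq_one_iff e e.injective, QuotientGroup.mk'_apply, QuotientGroup.eq_one_iff]
    rw [h1]
    exact ⟨fun hx => ⟨⟨x, hx⟩, rfl⟩, fun ⟨n, hn⟩ => hn ▸ n.2⟩
  t := Classical.choose ((QuotientGroup.mk'_surjective N) (e.symm (Multiplicative.ofAdd 1)))
  phi_t := by
    show e (QuotientGroup.mk' N _) = _
    rw [Classical.choose_spec ((QuotientGroup.mk'_surjective N) (e.symm (Multiplicative.ofAdd 1))),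
      e.apply_symm_apply]

/-- `Z^m → Z^(m+1) → Z` -/
noncomputable def fin (m : ℕ) :
    ZExt (Multiplicative (Fin m → ℤ)) (Multiplicative (Fin (m + 1) → ℤ)) where
  i := AddMonoidHom.toMultiplicative
    { toFun := fun v => Fin.cons 0 v
      map_zero' := by
        funext k; refine Fin.cases ?_ (fun j => ?_) k <;> simp
      map_add' := fun v w => by
        funext k; refine Fin.cases ?_ (fun j => ?_) k <;> simp }
  inj := by
    intro v w h
    have h' : (Fin.cons 0 v.toAdd : Fin (m + 1) → ℤ) = Fin.cons 0 w.toAdd := h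
    exact congrArg Multiplicative.ofAdd (Fin.cons_right_injective _ h')
  phi := AddMonoidHom.toMultiplicative (Pi.evalAddMonoidHom (fun _ => ℤ) 0)
  ker := by
    intro h
    constructor
    · intro h0
      have h0' : h.toAdd 0 = 0 := h0
      refine ⟨Multiplicative.ofAdd (Fin.tail h.toAdd), ?_⟩
      show (Fin.cons 0 (Fin.tail h.toAdd) : Fin (m + 1) → ℤ) = h.toAdd
      rw [← h0']
      exact Fin.cons_self_tail _
    · rintro ⟨n, rfl⟩
      rfl
  t := Multiplicative.ofAdd (Pi.single 0 1)
  phi_t := by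
    show (Pi.single 0 1 : Fin (m + 1) → ℤ) 0 = 1
    simp

end ZExt

section

open LaurentPolynomial

/-- the unit `T` -/
noncomputable def unitT (R : Type*) [Ring R] : (R[T;T⁻¹])ˣ :=
  ⟨T 1, T (-1), by rw [← T_add]; simp, by rw [← T_add]; simp⟩

theorem unitT_zpow (R : Type*) [Ring R] (j : ℤ) : ((unitT R ^ j : (R[T;T⁻¹])ˣ) : R[T;T⁻¹]) = T j := by
  induction j using Int.induction_on with
  | zero => rw [zpow_zero, Units.val_one, T_zero]
  | succ i ih =>
    rw [zpow_add_one, Units.val_mul, ih, T_add]
    rfl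
  | pred i ih =>
    rw [zpow_sub_one, Units.val_mul, ih, sub_eq_add_neg, T_add]
    rfl

/-- the ordinary Laurent polynomials -/
noncomputable def SkL.laurent (R : Type*) [Ring R] : SkL R R[T;T⁻¹] where
  iota := C
  z := unitT R
  sig := 1
  comm := fun r => by
    show T 1 * C r = C r * T 1
    rw [T_mul]
  co := AddMonoidAlgebra.coeffAddEquiv
  co_symm := fun j r => by
    rw [unitT_zpow, T_mul, ← single_eq_C_mul_T]
    rfl

end

end Pool.Agent.UP
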